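import Pool.Agent.Lib.H14E.FlipAlg

/-!
# H14E, module D4: peripheral subgroups are almost malnormal

`Geom.finite_move`: finitely many group elements move a point by at most `r`.
`Periph.amal`: `Periph D y₀` implies `AMal D`.
-/

set_option autoImplicit false

namespace Pool.Agent.Lib.H14E

open Pool.Agent.Lib.H76.Morse GeoMet

/-- Finitely many elements map `x` into a given ball. -/
lemma Geom.finite_move {G X : Type} [Group G] [GeoMet X] [MulAction G X] (hG : Geom G X)
    (x y : X) (r : ℕ) : {g : G | d y (g • x) ≤ r}.Finite := by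
  have h1 : {g : G | d y (g • x) ≤ r} ⊆ ⋃ w ∈ {w : X | d y w ≤ r}, {g : G | g • x = w} := by
    intro g hg
    simp only [Set.mem_iUnion]
    exact ⟨g • x, hg, rfl⟩
  refine Set.Finite.subset ?_ h1
  refine Set.Finite.biUnion (hG.ball y r) ?_
  intro w _
  by_cases hw : ∃ g₀ : G, g₀ • x = w
  · obtain ⟨g₀, hg₀⟩ := hw
    have h2 : {g : G | g • x = w} ⊆ (fun g => g₀ * g) '' {g : G | g • x = x} := by
      intro g hg
      refine ⟨g₀⁻¹ * g, ?_, by group⟩
      change (g₀⁻¹ * g) • x = x
      have hg' : g • x = w := hg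
      rw [mul_smul, hg', ← hg₀, inv_smul_smul]
    exact Set.Finite.subset ((hG.stab x).image _) h2
  · have h3 : {g : G | g • x = w} = ∅ := by
      ext g
      constructor
      · intro hg
        exact absurd ⟨g, hg⟩ hw
      · intro hg
        exact absurd hg (Set.notMem_empty g)
    rw [h3]
    exact Set.finite_empty

/-- A peripheral subgroup is almost malnormal. -/
theorem Periph.amal {G X : Type} [Group G] [GeoMet X] [MulAction G X] (hG : Geom G X)
    {D : Subgroup G} {y₀ : X} (hP : Periph D y₀) : AMal D := by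
  intro g hg x hx hgx
  obtain ⟨L, hL⟩ := hP.ovl (d (g • y₀) y₀)
  have hpow : ∀ n : ℕ, (g * x * g⁻¹) ^ n ∈ D := fun n => D.pow_mem hgx n
  have hconj : ∀ n : ℕ, (g * x * g⁻¹) ^ n = g * x ^ n * g⁻¹ := fun n => conj_pow
  have hnear1 : ∀ n : ℕ, Near D y₀ (d (g • y₀) y₀) 1 ((g * x ^ n) • y₀) := by
    intro n
    refine ⟨g * x ^ n * g⁻¹, by rw [← hconj]; exact hpow n, ?_⟩
    have e1 : (g * x ^ n) • y₀ = (g * x ^ n * g⁻¹) • (g • y₀) := by
      rw [smul_smul]; congr 1; group
    rw [one_mul, e1, hG.iso]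
  have hnear2 : ∀ n : ℕ, Near D y₀ (d (g • y₀) y₀) g ((g * x ^ n) • y₀) := by
    intro n
    exact ⟨x ^ n, D.pow_mem hx n, by rw [d_self]; exact Nat.zero_le _⟩
  have hfin : (Set.range fun n : ℕ => x ^ n).Finite := by
    refine Set.Finite.subset (hG.finite_move y₀ y₀ L) ?_
    rintro _ ⟨n, rfl⟩
    have h0 := hL g hg ((g * x ^ 0) • y₀) ((g * x ^ n) • y₀) (hnear1 0) (hnear1 n)
      (hnear2 0) (hnear2 n)
    rw [pow_zero, mul_one, mul_smul, hG.iso] at h0
    exact h0
  by_contra hno
  have hinj : Function.Injective fun n : ℕ => x ^ n := by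
    rw [← injective_pow_iff_not_isOfFinOrder] at hno
    exact hno
  exact Set.infinite_range_of_injective hinj hfin

end Pool.Agent.Lib.H14E
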