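import Pool.Agent.Lib.H14E.Core

/-!
# H14E, module N, part 0: the map `Tg` and the invariant `NoRec`
-/

set_option autoImplicit false

namespace Pool.Agent.Lib.H14E

variable {G : Type} [Group G]

theorem tg_self (g : G) : Tg g g = g := by simp [Tg]

theorem tg_iter_self (g : G) (k : ℕ) : (Tg g)^[k] g = g := by
  induction k with
  | zero => rfl
  | succ k ih => rw [Function.iterate_succ_apply, tg_self, ih]

theorem tg_conj (c g b : G) : Tg (c * g * c⁻¹) (c * b * c⁻¹) = c * Tg g b * c⁻¹ := by
  simp only [Tg]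
  group

theorem tg_iter_conj (c g b : G) (k : ℕ) :
    (Tg (c * g * c⁻¹))^[k] (c * b * c⁻¹) = c * (Tg g)^[k] b * c⁻¹ := by
  induction k generalizing b with
  | zero => rfl
  | succ k ih => rw [Function.iterate_succ_apply, Function.iterate_succ_apply, tg_conj, ih]

theorem conj_of_comm {m g : G} (h : m * g = g * m) : m * g * m⁻¹ = g := by
  rw [h, mul_inv_cancel_right]

/-- `Tg g` commutes with conjugation by elements of the centralizer of `g` -/
theorem tg_iter_comm {m g : G} (h : m * g = g * m) (b : G) (k : ℕ) :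
    (Tg g)^[k] (m * b * m⁻¹) = m * (Tg g)^[k] b * m⁻¹ := by
  have := tg_iter_conj m g b k
  rwa [conj_of_comm h] at this

/-- iterating a recurrence -/
theorem tg_iter_rec {m g b : G} {k : ℕ} (h : m * g = g * m) (hk : (Tg g)^[k] b = m * b * m⁻¹)
    (j : ℕ) : (Tg g)^[j * k] b = m ^ j * b * (m ^ j)⁻¹ := by
  induction j with
  | zero => simp
  | succ j ih =>
    have e : (j + 1) * k = j * k + k := by ring
    rw [e, Function.iterate_add_apply, hk, tg_iter_comm h, ih, pow_succ']
    group

/-- a recurrent orbit which reaches `g` is constant -/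
theorem rec_eq_of_reach {m g b : G} {k : ℕ} (h : m * g = g * m) (h1 : 1 ≤ k)
    (hk : (Tg g)^[k] b = m * b * m⁻¹) {i : ℕ} (hi : (Tg g)^[i] b = g) : b = g := by
  have h2 := tg_iter_rec h hk i
  have h3 : i ≤ i * k := Nat.le_mul_of_pos_right i h1
  obtain ⟨r, hr⟩ := Nat.exists_eq_add_of_le' h3
  rw [hr, Function.iterate_add_apply, hi, tg_iter_self] at h2
  have h4 : m ^ i * g = g * m ^ i := (show Commute m g from h).pow_left i
  have h5 : (m ^ i)⁻¹ * g * (m ^ i) = b := by
    rw [h2]
    group
  rw [← h5, mul_assoc, ← h4, inv_mul_cancel_left]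

/-- the shifted recurrence: if `T^{j+k}(b₀) = m T^j(b₀) m⁻¹` then the same holds for all larger
`j` -/
theorem tg_rec_shift {m g b : G} {k : ℕ} (h : m * g = g * m) (hk : (Tg g)^[k] b = m * b * m⁻¹)
    (j : ℕ) : (Tg g)^[k] ((Tg g)^[j] b) = m * (Tg g)^[j] b * m⁻¹ := by
  rw [← Function.iterate_add_apply, Nat.add_comm, Function.iterate_add_apply, hk,
    tg_iter_comm h]

/-- the orbit consists of conjugates of `g` -/
theorem tg_iter_isConj (g b : G) (k : ℕ) : IsConj g ((Tg g)^[k + 1] b) := by
  rw [Function.iterate_succ_apply', isConj_iff]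
  exact ⟨(Tg g)^[k] b, rfl⟩

theorem tg_iter_isFinOrder {g : G} (hg : IsOfFinOrder g) (b : G) (k : ℕ) :
    IsOfFinOrder ((Tg g)^[k + 1] b) := by
  rw [Function.iterate_succ_apply']
  obtain ⟨n, hn, h⟩ := isOfFinOrder_iff_pow_eq_one.1 hg
  refine isOfFinOrder_iff_pow_eq_one.2 ⟨n, hn, ?_⟩
  simp only [Tg]
  rw [conj_pow, h]
  simp

/-- the form with the hypothesis that `b` is conjugate to `g` -/
theorem noRec_iff : NoRec G ↔ ∀ (g b : G), IsConj g b → ∀ (k : ℕ), 1 ≤ k → ∀ m : G,
    m * g = g * m → (Tg g)^[k] b = m * b * m⁻¹ → b = g := by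
  constructor
  · intro h g b _ k hk m hm he
    exact h g b m k hk hm he
  · intro h g b m k hk hm he
    refine h g b ?_ k hk m hm he
    obtain ⟨j, rfl⟩ := Nat.exists_eq_add_of_le' hk
    have h1 := tg_iter_isConj g b j
    rw [he] at h1
    exact h1.trans (isConj_iff.2 ⟨m⁻¹, by group⟩)

/-- `Tg` and homomorphisms -/
theorem map_tg_iter {H : Type} [Group H] (φ : G →* H) (g b : G) (k : ℕ) :
    φ ((Tg g)^[k] b) = (Tg (φ g))^[k] (φ b) := by
  induction k generalizing b with
  | zero => rfl
  | succ k ih =>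
    rw [Function.iterate_succ_apply, Function.iterate_succ_apply, ih]
    simp [Tg]

/-- `NoRec` passes to groups which embed -/
theorem NoRec.of_injective {H : Type} [Group H] (φ : H →* G) (hφ : Function.Injective φ)
    (h : NoRec G) : NoRec H := by
  intro g b m k hk hm he
  apply hφ
  refine h (φ g) (φ b) (φ m) k hk ?_ ?_
  · rw [← map_mul, hm, map_mul]
  · rw [← map_tg_iter, he]
    simp

theorem NoRec.subgroup (h : NoRec G) (H : Subgroup G) : NoRec H :=
  h.of_injective H.subtype Subtype.coe_injective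

/-- the orbit stays in a subgroup containing `g` and `b` -/
theorem tg_iter_mem {g b : G} (P : Subgroup G) (hg : g ∈ P) (hb : b ∈ P) (k : ℕ) :
    (Tg g)^[k] b ∈ P := by
  induction k with
  | zero => exact hb
  | succ k ih =>
    rw [Function.iterate_succ_apply']
    exact P.mul_mem (P.mul_mem ih hg) (P.inv_mem ih)

end Pool.Agent.Lib.H14E
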