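import Pool.Agent.Lib.H14E.Tool1

/-!
# H14E, module A: quasi-centres of finite groups
-/

set_option autoImplicit false

namespace Pool.Agent.Lib.H14E

open Pool.Agent.Lib.H76.Morse GeoMet

variable {X : Type} [GeoMet X] {δ : ℕ} {G : Type} [Group G] [MulAction G X]

/-- Chunk Tool3 (M). For v in X let r v be the maximum of the d (a • x) v, a in F (Finset.sup' over hF.toFinset).  r (f • v) = r v for f in F
(d (a • x) (f • v) = d ((f⁻¹ * a) • x) v).  Take v with r v minimal (WellFounded.min, or Nat.find on the values).  For f in F let m be a midpoint of v,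
f • v (exists_bmid, d v m = D / 2, D = d v (f • v)).  By `Hyp.dist_bt` (R = r v, w = a • x): d m (a • x) + D / 2 ≤ r v + δ for every a, so
r m + D / 2 ≤ r v + δ and r v ≤ r m gives D / 2 ≤ δ. -/
theorem quasi_centre (hX : Hyp δ X) (hiso : IsoAct G X) (F : Subgroup G)
    (hF : (F : Set G).Finite) (x : X) : ∃ v : X, ∀ f ∈ F, d v (f • v) ≤ 2 * δ + 1 := by
  obtain ⟨r, hr⟩ : ∃ r : X → ℕ, r = fun v => hF.toFinset.sup (fun a => d (a • x) v) := ⟨_, rfl⟩
  have hle : ∀ v : X, ∀ a ∈ F, d (a • x) v ≤ r v := by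
    intro v a ha
    rw [hr]
    exact Finset.le_sup (f := fun a => d (a • x) v) (hF.mem_toFinset.mpr ha)
  obtain ⟨n, ⟨v, hv⟩, hmin⟩ := WellFounded.has_min (r := fun a b : ℕ => a < b) Nat.lt_wfRel.wf
    (Set.range r) ⟨r x, x, rfl⟩
  refine ⟨v, ?_⟩
  intro f hf
  obtain ⟨m, hm1, hm2, hm3⟩ := exists_bmid v (f • v)
  have key : ∀ a ∈ F, d (a • x) m + d v (f • v) / 2 ≤ r v + δ := by
    intro a ha
    have h1 : d v (a • x) ≤ r v := by
      rw [d_comm]
      exact hle v a ha
    have h2 : d (f • v) (a • x) ≤ r v := by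
      have h3 := hle v (f⁻¹ * a) (F.mul_mem (F.inv_mem hf) ha)
      have h4 := hiso f ((f⁻¹ * a) • x) v
      rw [← mul_smul, mul_inv_cancel_left] at h4
      rw [d_comm, h4]
      exact h3
    have h5 := hX.dist_bt hm3 (a • x) h1 h2
    rw [hm1, hm2, d_comm m] at h5
    omega
  have h6 := key 1 F.one_mem
  have h7 : r m ≤ r v + δ - d v (f • v) / 2 := by
    rw [hr]
    apply Finset.sup_le
    intro a ha
    have h8 := key a (hF.mem_toFinset.mp ha)
    rw [← hr]
    omega
  have h9 : ¬ r m < n := hmin (r m) ⟨m, rfl⟩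
  omega

/-- Chunk Tool3 (S). `quasi_centre` for F = Subgroup.zpowers g (finite since g has finite order). -/
theorem quasi_centre_elt (hX : Hyp δ X) (hiso : IsoAct G X) {g : G} (hg : IsOfFinOrder g)
    (x : X) : ∃ v : X, ∀ i : ℤ, d v (g ^ i • v) ≤ 2 * δ + 1 := by
  obtain ⟨v, hv⟩ := quasi_centre hX hiso (Subgroup.zpowers g) (finite_zpowers.mpr hg) x
  exact ⟨v, fun i => hv (g ^ i) (Subgroup.mem_zpowers_iff.mpr ⟨i, rfl⟩)⟩

end Pool.Agent.Lib.H14E
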