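import Pool.Agent.Lib.H14E.Tool1

/-!
# H14E, module A: finiteness for geometric actions
-/

set_option autoImplicit false

namespace Pool.Agent.Lib.H14E

open Pool.Agent.Lib.H76.Morse GeoMet

variable {X : Type} [GeoMet X] {δ : ℕ} {G : Type} [Group G] [MulAction G X]

/-- Chunk Tool5 (S). {y | d x y ≤ r} is finite; for each y the set {g | g • x = y} is empty or a coset of the stabilizer of x. -/
theorem geom_fin (hG : Geom G X) (x : X) (r : ℕ) : {g : G | d x (g • x) ≤ r}.Finite := by
  refine Set.Finite.subset (Set.Finite.biUnion (hG.ball x r) (t := fun y => {g : G | g • x = y})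
    fun y _ => ?_) fun g hg => ?_
  · by_cases h : ∃ g0 : G, g0 • x = y
    · obtain ⟨g0, h0⟩ := h
      refine ((hG.stab x).image (fun h => g0 * h)).subset fun g hg => ?_
      refine ⟨g0⁻¹ * g, ?_, by simp⟩
      change (g0⁻¹ * g) • x = x
      have hg' : g • x = y := hg
      rw [mul_smul, hg', ← h0, inv_smul_smul]
    · have : {g : G | g • x = y} = ∅ := by
        ext g
        simp only [Set.mem_setOf_eq, Set.mem_empty_iff_false, iff_false]
        exact fun hg => h ⟨g, hg⟩
      rw [this]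
      exact Set.finite_empty
  · rw [Set.mem_iUnion₂]
    exact ⟨g • x, hg, rfl⟩

/-- Chunk Tool5 (S). The union of the sets of `geom_fin` for x in F. -/
theorem geom_unif (hG : Geom G X) (r : ℕ) : ∃ (F : Finset X) (B : Finset G),
    (∀ x : X, ∃ h : G, h • x ∈ F) ∧ ∀ x ∈ F, ∀ g : G, d x (g • x) ≤ r → g ∈ B := by
  classical
  obtain ⟨F, hF⟩ := hG.cof
  refine ⟨F, F.biUnion fun x => (geom_fin hG x r).toFinset, fun x => ?_, fun x hx g hg => ?_⟩
  · obtain ⟨g, y, hy, h⟩ := hF x
    refine ⟨g⁻¹, ?_⟩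
    rw [← h, inv_smul_smul]
    exact hy
  · rw [Finset.mem_biUnion]
    exact ⟨x, hx, (geom_fin hG x r).mem_toFinset.2 hg⟩

/-- Chunk Tool5 (S). n = card B of `geom_unif`: conjugation by h is injective. -/
theorem geom_card (hG : Geom G X) (r : ℕ) : ∃ n : ℕ, ∀ (x : X) (A : Finset G),
    (∀ a ∈ A, d x (a • x) ≤ r) → A.card ≤ n := by
  classical
  obtain ⟨F, B, hF, hB⟩ := geom_unif hG r
  refine ⟨B.card, fun x A hA => ?_⟩
  obtain ⟨h, hh⟩ := hF x
  refine Finset.card_le_card_of_injOn (fun a => h * a * h⁻¹) (fun a ha => ?_) ?_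
  · refine hB _ hh _ ?_
    have e : (h * a * h⁻¹) • (h • x) = h • (a • x) := by
      rw [← mul_smul, ← mul_smul]
      congr 1
      group
    rw [e, hG.iso]
    exact hA a ha
  · intro a _ b _ hab
    have hab' : h * a * h⁻¹ = h * b * h⁻¹ := hab
    exact mul_left_cancel (mul_right_cancel hab')

/-- Chunk Tool5 (S). If g has infinite order then the powers g^i with d x (g^i • x) ≤ r are finitely many different elements. -/
theorem pow_unbounded (hG : Geom G X) {g : G} (hg : ¬ IsOfFinOrder g) (x : X) (r : ℕ) :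
    ∃ N : ℕ, ∀ n : ℕ, N ≤ n → r < d x (g ^ n • x) := by
  have hinj : Function.Injective fun n : ℕ => g ^ n := injective_pow_iff_not_isOfFinOrder.2 hg
  have hfin : {n : ℕ | d x (g ^ n • x) ≤ r}.Finite :=
    Set.Finite.preimage (f := fun n : ℕ => g ^ n) hinj.injOn (geom_fin hG x r)
  obtain ⟨N, hN⟩ := hfin.bddAbove
  refine ⟨N + 1, fun n hn => ?_⟩
  by_contra h
  have h1 : n ≤ N := hN (show d x (g ^ n • x) ≤ r by omega)
  omega

/-- Chunk Tool5 (S). `pow_unbounded`. -/
theorem finOrder_of_short (hG : Geom G X) {g : G} (x : X) (r : ℕ)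
    (h : ∀ n : ℕ, d x (g ^ n • x) ≤ r) : IsOfFinOrder g := by
  by_contra hg
  obtain ⟨N, hN⟩ := pow_unbounded hG hg x r
  have h1 := hN N le_rfl
  have h2 := h N
  omega

end Pool.Agent.Lib.H14E
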