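import Pool.Agent.Lib.H14E.Tool1

/-!
# H14E, module A: the middle of a long segment whose ends are moved a little
-/

set_option autoImplicit false

namespace Pool.Agent.Lib.H14E

open Pool.Agent.Lib.H76.Morse GeoMet

variable {X : Type} [GeoMet X] {δ : ℕ}

theorem tool7_far (hX : Hyp δ X) {C a : ℕ} {x y x' y' z : X} (hx : d x x' ≤ a) (hy : d y y' ≤ a)
    (h : Bt C x z y) (h1 : a + C + 2 * δ < d x z) (h2 : a + C + 2 * δ < d z y) :
    Bt (C + 2 * δ) x' z y' := by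
  have k1 : Bt (C + δ) x' z y := hX.far h (by omega)
  have k2 : Bt (C + δ + δ) y' z x' := hX.far k1.symm (by rw [d_comm y z]; omega)
  exact k2.symm.mono (by omega)

theorem tool7_max {x y z y' δ : ℕ} (h : x ≤ max y z + δ) (hz : z + δ < x) (hy : y ≤ y') :
    x ≤ y' + δ := by
  omega

theorem tool7_fin {t0 t1 t2 D e g K δ : ℕ} (hle : t0 ≤ t1) (h3 : D ≤ (t1 - t0) + 2 * K + δ)
    (_k1 : t2 + t0 ≤ t1 + t1 + δ) (k2 : t1 + t1 ≤ t2 + t0 + δ) (t6 : t1 ≤ t0 + D)
    (t4 : t2 ≤ t0 + e) (hg : g + e = D + D) :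
    D ≤ 6 * K + 6 * δ + 1 ∨ (g ≤ 4 * K + 3 * δ ∧ 4 * K + 5 * δ + 1 ≤ D) := by
  omega

theorem tool7_fin' {t0 t1 t2 D e g K δ : ℕ} (hle : t1 ≤ t0) (h3 : D ≤ (t0 - t1) + 2 * K + δ)
    (k1 : t2 + t0 ≤ t1 + t1 + δ) (_k2 : t1 + t1 ≤ t2 + t0 + δ) (t6 : t0 ≤ t1 + D)
    (t5 : t0 ≤ t2 + e) (hg : g + e = D + D) :
    D ≤ 6 * K + 6 * δ + 1 ∨ (g ≤ 4 * K + 3 * δ ∧ 4 * K + 5 * δ + 1 ≤ D) := by
  omega

/-- Chunk Tool7 (M). f is an isometry, the ends v, w are moved by at most a, the segment is long compared with a.  K := C + 2 δ.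
(1) f m is C-between f v and f w.  `Hyp.far` twice (d v (f v) ≤ a; d (f v) (f m) = d v m is large): f m is K-between v and w.  In the same way f (f m) is
K-between v and w (d v (f (f v)) ≤ 2 a).
(2) t0 = d v m, t1 = d v (f m), t2 = d v (f (f m)).  Four point condition hX v (f m) (f v) (f (f m)) (in the form
 d v (f f m) + d (f v) (f m)  versus  d v (f m) + d (f v) (f f m),  the third sum d v (f v) + d (f m) (f f m) ≤ a + (2a + ..) is smaller because t0, t1 are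
 large: d m (f m) ≤ 5 a + 2 C + δ by `Hyp.disp`): |t2 + t0 - 2 t1| ≤ δ, since d (f v) (f m) = t0 and d (f v) (f f m) = t1.
(3) `Hyp.close`: d m (f m) ≤ |t1 - t0| + 2 K + δ.  If |t1 - t0| ≤ 4 K + 5 δ + 1 the first alternative holds.  Otherwise |t2 - t0| ≥ 2 |t1 - t0| - δ, so
 gp (f m) m (f f m) = 2 d m (f m) - d m (f f m) ≤ 2 (|t1 - t0| + 2 K + δ) - (2 |t1 - t0| - δ) = 4 K + 3 δ, and d m (f m) ≥ |t1 - t0|. -/
theorem mid_dich (hX : Hyp δ X) {f : X → X} (hf : ∀ a b, d (f a) (f b) = d a b) {C a : ℕ}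
    {v w m : X} (hv : d v (f v) ≤ a) (hw : d w (f w) ≤ a) (hm : Bt C v m w)
    (h1 : 20 * (a + C + δ + 1) ≤ d v m) (h2 : 20 * (a + C + δ + 1) ≤ d m w) :
    d m (f m) ≤ 6 * (C + 2 * δ) + 6 * δ + 1 ∨
      (gp (f m) m (f (f m)) ≤ 4 * (C + 2 * δ) + 3 * δ ∧
        4 * (C + 2 * δ) + 5 * δ + 1 ≤ d m (f m)) := by
  have hb1 : Bt (C + 2 * δ) v (f m) w :=
    tool7_far hX (a := a) (by rw [d_comm]; exact hv) (by rw [d_comm]; exact hw)
      (show Bt C (f v) (f m) (f w) by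
        unfold Bt at hm ⊢
        rw [hf, hf, hf]
        exact hm)
      (by rw [hf]; omega) (by rw [hf]; omega)
  have hvv : d (f (f v)) v ≤ 2 * a := by
    have t1 := d_tri (f (f v)) (f v) v
    rw [hf, d_comm (f v) v] at t1
    omega
  have hww : d (f (f w)) w ≤ 2 * a := by
    have t1 := d_tri (f (f w)) (f w) w
    rw [hf, d_comm (f w) w] at t1
    omega
  have hb2 : Bt (C + 2 * δ) v (f (f m)) w :=
    tool7_far hX (a := 2 * a) hvv hww
      (show Bt C (f (f v)) (f (f m)) (f (f w)) by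
        unfold Bt at hm ⊢
        rw [hf, hf, hf, hf, hf, hf]
        exact hm)
      (by rw [hf, hf]; omega) (by rw [hf, hf]; omega)
  have hdisp := hX.disp hf hm hv hw
  have hm' : Bt (C + 2 * δ) v m w := hm.mono (by omega)
  have e1 : d (f v) (f m) = d v m := hf v m
  have e2 : d (f v) (f (f m)) = d v (f m) := hf v (f m)
  have e3 : d (f m) (f (f m)) = d m (f m) := hf m (f m)
  have c1 : d (f m) (f v) = d v m := by rw [d_comm (f m) (f v), e1]
  have c2 : d (f (f m)) (f v) = d v (f m) := by rw [d_comm (f (f m)) (f v), e2]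
  have c3 : d (f (f m)) (f m) = d m (f m) := by rw [d_comm (f (f m)) (f m), e3]
  have q1 := hX v (f (f m)) (f m) (f v)
  have q2 := hX v (f m) (f (f m)) (f v)
  rw [c1, c2, c3] at q1
  rw [c1, c2, e3] at q2
  have t1 := d_tri (f v) v (f m)
  rw [e1, d_comm (f v) v] at t1
  have g := gp_add (f m) m (f (f m))
  rw [d_comm (f m) m, e3] at g
  have t2 := d_tri m (f m) v
  rw [d_comm (f m) v, d_comm m v] at t2
  have t4 := d_tri v m (f (f m))
  have t5 := d_tri v (f (f m)) m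
  rw [d_comm (f (f m)) m] at t5
  have t6 := d_tri v m (f m)
  have k1 : d v (f (f m)) + d v m ≤ (d v (f m) + d v (f m)) + δ :=
    tool7_max (y' := d v (f m) + d v (f m)) q1 (by omega) (by omega)
  have k2 : d v (f m) + d v (f m) ≤ (d v (f (f m)) + d v m) + δ :=
    tool7_max (y' := d v (f (f m)) + d v m) q2 (by omega) (by omega)
  have hcl : ∀ s, d v m ≤ d v (f m) + s → d v (f m) ≤ d v m + s →
      d m (f m) ≤ s + 2 * (C + 2 * δ) + δ := fun s a1 a2 => hX.close hm' hb1 a1 a2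
  clear q1 q2 t1 e1 e2 e3 c1 c2 c3 hm hb1 hb2 hm' hvv hww hdisp h1 h2 hv hw
  rcases Nat.le_total (d v m) (d v (f m)) with hle | hle
  · have h3 := hcl (d v (f m) - d v m) (by omega) (by omega)
    exact tool7_fin hle (by omega) k1 k2 t6 t4 g
  · have h3 := hcl (d v m - d v (f m)) (by omega) (by omega)
    exact tool7_fin' hle (by omega) k1 k2 (by omega) t5 g

end Pool.Agent.Lib.H14E
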