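import Pool.Agent.Lib.H14E.Tool2
import Pool.Agent.Lib.H14E.Tool5
import Pool.Agent.Lib.H14E.Tool7

/-!
# H14E, module A: an element of infinite order has a loxodromic power
-/

set_option autoImplicit false

namespace Pool.Agent.Lib.H14E

open Pool.Agent.Lib.H76.Morse GeoMet

variable {X : Type} [GeoMet X] {δ : ℕ} {G : Type} [Group G] [MulAction G X]

theorem Tool8_bt_smul (hG : Geom G X) (g : G) {C : ℕ} {x y z : X} (h : Bt C x y z) :
    Bt C (g • x) (g • y) (g • z) := by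
  unfold Bt at *
  rw [hG.iso, hG.iso, hG.iso]
  exact h

/-- Chunk Tool8 (M). c1 := 18 δ + 1 (mid_dich with C = 0).  Let k be larger than the number n of `geom_card` for r = c1.  v any point, a := the maximum of
the d v (g^i • v), i ≤ k.  `pow_unbounded`: N ≥ 1 with d v (g^N • v) > 100 (a + δ + 1).  m a midpoint of v and w = g^N • v.  For 1 ≤ i ≤ k the isometry
g^i moves v and w by at most a (d w (g^i • w) = d v (g^i • v)).  If the second alternative of `mid_dich` holds for some i: done (n = i).  Otherwise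
the elements g^0, ..., g^k are different and move m by at most c1: contradiction with `geom_card`. -/
theorem exists_lox_pow (hX : Hyp δ X) (hG : Geom G X) {g : G} (hg : ¬ IsOfFinOrder g) :
    ∃ (n : ℕ) (m : X), 1 ≤ n ∧ gp (g ^ n • m) m (g ^ n • g ^ n • m) ≤ 11 * δ ∧
      13 * δ + 1 ≤ d m (g ^ n • m) := by
  classical
  obtain ⟨v⟩ := hG.ne
  obtain ⟨n, hn⟩ := geom_card hG (18 * δ + 1)
  obtain ⟨a, ha⟩ : ∃ a, ∀ i ≤ n, d v (g ^ i • v) ≤ a :=
    ⟨(Finset.range (n + 1)).sup (fun i => d v (g ^ i • v)), fun i hi =>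
      Finset.le_sup (f := fun i => d v (g ^ i • v)) (Finset.mem_range.2 (by omega))⟩
  obtain ⟨N, hN⟩ := pow_unbounded hG hg v (100 * (a + δ + 1))
  have hN' := hN N le_rfl
  obtain ⟨m, hm1, hm2, hm3⟩ := exists_bmid v (g ^ N • v)
  by_contra hcon
  have key : ∀ i ≤ n, d m (g ^ i • m) ≤ 18 * δ + 1 := by
    intro i hi
    by_cases h0 : i = 0
    · subst h0
      rw [pow_zero, one_smul, d_self]
      omega
    have hw : d (g ^ N • v) (g ^ i • g ^ N • v) ≤ a := by
      have h1 : g ^ i • g ^ N • v = g ^ N • g ^ i • v := by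
        rw [smul_smul, smul_smul, ← pow_add, ← pow_add, add_comm]
      rw [h1, hG.iso]
      exact ha i hi
    rcases mid_dich hX (f := fun y => g ^ i • y) (fun a b => hG.iso _ _ _) (C := 0) (a := a)
      (v := v) (w := g ^ N • v) (m := m) (ha i hi) hw hm3 (by omega) (by omega) with h | ⟨h1, h2⟩
    · exact le_trans h (by omega)
    · exfalso
      exact hcon ⟨i, m, by omega, le_trans h1 (by omega), le_trans (by omega) h2⟩
  have hinj : Function.Injective (fun i : ℕ => g ^ i) := injective_pow_iff_not_isOfFinOrder.2 hg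
  have h1 := hn m ((Finset.range (n + 1)).image (fun i => g ^ i)) (by
    intro b hb
    obtain ⟨i, hi, rfl⟩ := Finset.mem_image.1 hb
    exact key i (by have := Finset.mem_range.1 hi; omega))
  rw [Finset.card_image_of_injective _ hinj, Finset.card_range] at h1
  omega

/-- Chunk Tool8 (S/M). `exists_lox_pow` (n, m), `broken` with c = 11 δ for the sequence x i = g^(n i) • m (isometry: gp_smul), and its translates by
g^(n a) for the integers a. -/
theorem lox_pow (hX : Hyp δ X) (hG : Geom G X) {g : G} (hg : ¬ IsOfFinOrder g) :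
    ∃ (n : ℕ) (m : X), 1 ≤ n ∧ (∀ k : ℕ, k ≤ d m (g ^ (n * k) • m)) ∧
      ∀ a b c : ℤ, a ≤ b → b ≤ c →
        Bt (13 * δ) (g ^ (n * a) • m) (g ^ (n * b) • m) (g ^ (n * c) • m) := by
  obtain ⟨n, m, hn, h1, h2⟩ := exists_lox_pow hX hG hg
  have hstep : ∀ i : ℕ, g ^ (n * (i + 1)) • m = g ^ (n * i) • g ^ n • m := by
    intro i
    rw [smul_smul, ← pow_add, mul_add, mul_one]
  have hstep2 : ∀ i : ℕ, g ^ (n * (i + 2)) • m = g ^ (n * i) • g ^ n • g ^ n • m := by
    intro i
    rw [smul_smul, smul_smul, ← pow_add, ← pow_add]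
    congr 2
  have hb1 : ∀ N i : ℕ, i + 2 ≤ N →
      gp (g ^ (n * (i + 1)) • m) (g ^ (n * i) • m) (g ^ (n * (i + 2)) • m) ≤ 11 * δ := by
    intro N i _
    rw [hstep, hstep2]
    rw [gp_smul hG.iso]
    exact h1
  have hb2 : ∀ N i : ℕ, i < N →
      11 * δ + 2 * δ + 1 ≤ d (g ^ (n * i) • m) (g ^ (n * (i + 1)) • m) := by
    intro N i _
    rw [hstep, hG.iso]
    omega
  refine ⟨n, m, hn, ?_, ?_⟩
  · intro k
    have h3 := broken_len hX (c := 11 * δ) (n := k) (L := 1) (fun i => g ^ (n * i) • m) (hb1 k)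
      (hb2 k) le_rfl 0 k (Nat.zero_le _) le_rfl
    simpa using h3
  · intro a b c hab hbc
    obtain ⟨j, hj⟩ := Int.eq_ofNat_of_zero_le (sub_nonneg.2 hab)
    obtain ⟨l, hl⟩ := Int.eq_ofNat_of_zero_le (sub_nonneg.2 (hab.trans hbc))
    have h3 := broken hX (c := 11 * δ) (n := l) (fun i => g ^ (n * i) • m) (hb1 l) (hb2 l)
      0 j l (Nat.zero_le _) (by omega) le_rfl
    have h4 := Tool8_bt_smul hG (g ^ ((n : ℤ) * a)) h3
    have e1 : ∀ i : ℕ, g ^ ((n : ℤ) * a) • g ^ (n * i) • m = g ^ ((n : ℤ) * (a + i)) • m := by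
      intro i
      rw [smul_smul, ← zpow_natCast, ← zpow_add]
      congr 2
      push_cast
      ring
    simp only [e1] at h4
    have e2 : a + ((0 : ℕ) : ℤ) = a := by simp
    have e3 : a + (j : ℤ) = b := by omega
    have e4 : a + (l : ℤ) = c := by omega
    rw [e2, e3, e4] at h4
    exact h4.mono (by omega)

theorem Tool8_near (g : G) (x m : X) (n : ℕ) : ∃ D : ℕ, ∀ (_ : Geom G X) (_ : 1 ≤ n) (t : ℤ),
    d (g ^ t • x) (g ^ ((n : ℤ) * (t / n)) • m) ≤ D := by
  refine ⟨(Finset.range n).sup (fun i => d (g ^ i • x) m), ?_⟩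
  intro hG hn t
  have hn' : (0 : ℤ) < n := by omega
  have h1 := Int.emod_nonneg t hn'.ne'
  have h2 := Int.emod_lt_of_pos t hn'
  obtain ⟨i, hi⟩ := Int.eq_ofNat_of_zero_le h1
  have e1 : g ^ t • x = g ^ ((n : ℤ) * (t / n)) • g ^ i • x := by
    rw [smul_smul, ← zpow_natCast, ← zpow_add]
    congr 2
    have := Int.mul_ediv_add_emod t n
    omega
  rw [e1, hG.iso]
  exact Finset.le_sup (f := fun i => d (g ^ i • x) m) (Finset.mem_range.2 (by omega))

/-- Chunk Tool8 (S/M). From `lox_pow` by moving the points: g^a • x is within the constant max_{i < n} d (g^i • x) m of g^(n q) • m, q = a / n (Int.ediv). -/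
theorem lox_bt (hX : Hyp δ X) (hG : Geom G X) {g : G} (hg : ¬ IsOfFinOrder g) (x : X) :
    ∃ C : ℕ, ∀ a b c : ℤ, a ≤ b → b ≤ c → Bt C (g ^ a • x) (g ^ b • x) (g ^ c • x) := by
  obtain ⟨n, m, hn, -, h2⟩ := lox_pow hX hG hg
  obtain ⟨D, hD⟩ := Tool8_near (X := X) g x m n
  refine ⟨13 * δ + 2 * D + 2 * D + 2 * D, ?_⟩
  intro a b c hab hbc
  have hn' : (0 : ℤ) < n := by omega
  have h3 := h2 (a / n) (b / n) (c / n) (Int.ediv_le_ediv hn' hab) (Int.ediv_le_ediv hn' hbc)
  have h4 : ∀ t : ℤ, d (g ^ ((n : ℤ) * (t / n)) • m) (g ^ t • x) ≤ D := by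
    intro t
    rw [d_comm]
    exact hD hG hn t
  exact (h3.ends (h4 a) (h4 c)).move (h4 b)

/-- Chunk Tool8 (S/M). The orbit is quasi-isometrically embedded. -/
theorem lox_len (hX : Hyp δ X) (hG : Geom G X) {g : G} (hg : ¬ IsOfFinOrder g) (x : X) :
    ∃ K : ℕ, ∀ i : ℤ, i.natAbs ≤ K * d x (g ^ i • x) + K := by
  obtain ⟨n, m, hn, h1, -⟩ := lox_pow hX hG hg
  obtain ⟨D, hD⟩ := Tool8_near (X := X) g x m n
  refine ⟨n * (d x m + D + 1), ?_⟩
  have hpos : ∀ i : ℕ, i ≤ n * (d x m + D + 1) * d x (g ^ i • x) + n * (d x m + D + 1) := by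
    intro i
    have h3 := hD hG hn i
    have h4 := h1 (i / n)
    have e1 : g ^ ((n : ℤ) * ((i : ℤ) / n)) • m = g ^ (n * (i / n)) • m := by
      rw [← zpow_natCast]
      congr 2
    rw [e1, zpow_natCast] at h3
    have t1 := d_tri m x (g ^ (n * (i / n)) • m)
    have t2 := d_tri x (g ^ i • x) (g ^ (n * (i / n)) • m)
    have c1 := d_comm m x
    have h5 : i / n + 1 ≤ d x (g ^ i • x) + (d x m + D + 1) := by omega
    have h6 : i < n * (i / n + 1) := by
      have := Nat.lt_mul_div_succ i (show 0 < n by omega)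
      exact this
    calc i ≤ n * (i / n + 1) := h6.le
      _ ≤ n * (d x (g ^ i • x) + (d x m + D + 1)) := Nat.mul_le_mul_left _ h5
      _ = n * d x (g ^ i • x) + n * (d x m + D + 1) := by ring
      _ ≤ n * (d x m + D + 1) * d x (g ^ i • x) + n * (d x m + D + 1) := by
          apply Nat.add_le_add_right
          apply Nat.mul_le_mul_right
          exact Nat.le_mul_of_pos_right _ (by omega)
  intro i
  rcases Int.eq_nat_or_neg i with ⟨k, hk | hk⟩
  · rw [hk, Int.natAbs_natCast, zpow_natCast]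
    exact hpos k
  · rw [hk, Int.natAbs_neg, Int.natAbs_natCast]
    have h3 : d x (g ^ (-(k : ℤ)) • x) = d x (g ^ k • x) := by
      rw [← hG.iso (g ^ k) x (g ^ (-(k : ℤ)) • x), smul_smul, ← zpow_natCast, ← zpow_add]
      simp only [add_neg_cancel, zpow_zero, one_smul]
      rw [d_comm]
    rw [h3]
    exact hpos k

/-- Chunk Tool8 (M). Every point between two points of the orbit is near a point of the orbit in between.  L := d x (g • x).  Let b be the largest b ≤ c
with d (g^a • x) (g^b • x) ≤ d (g^a • x) u + L or so (the function b ↦ d (g^a • x) (g^b • x) changes by at most L at each step and starts at 0, so there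
is b in [a, c] with |d (g^a • x) (g^b • x) - d (g^a • x) u| ≤ L + r); `lox_bt` and `Hyp.close`. -/
theorem lox_near (hX : Hyp δ X) (hG : Geom G X) {g : G} (hg : ¬ IsOfFinOrder g) (x : X)
    (r : ℕ) : ∃ C : ℕ, ∀ a c : ℤ, a ≤ c → ∀ u : X, Bt r (g ^ a • x) u (g ^ c • x) →
      ∃ b : ℤ, a ≤ b ∧ b ≤ c ∧ d u (g ^ b • x) ≤ C := by
  obtain ⟨C0, hC0⟩ := lox_bt hX hG hg x
  refine ⟨(d x (g • x) + r) + 2 * (C0 + r) + δ, ?_⟩
  intro a c hac u hu
  have hL : ∀ j : ℕ, d (g ^ (a + (j : ℤ)) • x) (g ^ (a + ((j + 1 : ℕ) : ℤ)) • x) = d x (g • x) := by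
    intro j
    have e1 : g ^ (a + ((j + 1 : ℕ) : ℤ)) • x = g ^ (a + (j : ℤ)) • g • x := by
      rw [smul_smul, ← zpow_add_one]
      congr 2
      push_cast
      ring
    rw [e1, hG.iso]
  have hstep : ∀ M t : ℕ, t ≤ d (g ^ a • x) (g ^ (a + (M : ℤ)) • x) + r → ∃ j : ℕ, j ≤ M ∧
      d (g ^ a • x) (g ^ (a + (j : ℤ)) • x) ≤ t + (d x (g • x) + r) ∧
      t ≤ d (g ^ a • x) (g ^ (a + (j : ℤ)) • x) + (d x (g • x) + r) := by
    intro M
    induction M with
    | zero =>
      intro t ht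
      refine ⟨0, le_rfl, ?_, ?_⟩
      · have : d (g ^ a • x) (g ^ (a + ((0 : ℕ) : ℤ)) • x) = 0 := by
          rw [Nat.cast_zero, add_zero, d_self]
        omega
      · omega
    | succ M ih =>
      intro t ht
      by_cases hc : t ≤ d (g ^ a • x) (g ^ (a + (M : ℤ)) • x) + r
      · obtain ⟨j, hj, h1, h2⟩ := ih t hc
        exact ⟨j, by omega, h1, h2⟩
      · refine ⟨M + 1, le_rfl, ?_, ?_⟩
        · have h1 := d_tri (g ^ a • x) (g ^ (a + (M : ℤ)) • x) (g ^ (a + ((M + 1 : ℕ) : ℤ)) • x)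
          rw [hL] at h1
          omega
        · omega
  obtain ⟨M, hM⟩ := Int.eq_ofNat_of_zero_le (sub_nonneg.2 hac)
  have eM : a + (M : ℤ) = c := by omega
  obtain ⟨j, hj, h1, h2⟩ := hstep M (d (g ^ a • x) u) (by
    rw [eM]
    unfold Bt at hu
    omega)
  refine ⟨a + j, by omega, by omega, ?_⟩
  have h3 := hC0 a (a + j) c (by omega) (by omega)
  exact hX.close (C := C0 + r) (s := d x (g • x) + r) (hu.mono (by omega)) (h3.mono (by omega))
    h2 h1

end Pool.Agent.Lib.H14E
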