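import Pool.Agent.Lib.H14E.Tool6
import Pool.Agent.Lib.H14E.Tool8

/-!
# H14E, module A: the elementary subgroup of an element of infinite order
-/

set_option autoImplicit false

namespace Pool.Agent.Lib.H14E

open Pool.Agent.Lib.H76.Morse GeoMet

variable {X : Type} [GeoMet X] {δ : ℕ} {G : Type} [Group G] [MulAction G X]

/-- The elements which commute with a positive power of `g`. -/
def EC {G : Type} [Group G] (g : G) : Subgroup G where
  carrier := {h | ∃ n : ℕ, 1 ≤ n ∧ h * g ^ n = g ^ n * h}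
  mul_mem' := by
    rintro a b ⟨n, hn, ha⟩ ⟨m, hm, hb⟩
    refine ⟨n * m, Nat.mul_pos hn hm, ?_⟩
    have h1 : Commute a (g ^ (n * m)) := by
      rw [pow_mul]
      exact (show Commute a (g ^ n) from ha).pow_right m
    have h2 : Commute b (g ^ (n * m)) := by
      rw [Nat.mul_comm, pow_mul]
      exact (show Commute b (g ^ m) from hb).pow_right n
    exact h1.mul_left h2
  one_mem' := ⟨1, le_rfl, by simp⟩
  inv_mem' := by
    rintro a ⟨n, hn, ha⟩
    exact ⟨n, hn, (show Commute a (g ^ n) from ha).inv_left⟩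

theorem mem_EC_self {G : Type} [Group G] (g : G) : g ∈ EC g := ⟨1, le_rfl, by simp⟩

/-- Chunk Tool9 (M). C0 from `lox_bt`.  h commutes with g^n, r := d x (h • x).  For k : ℕ: h • g^(± n k) • x is at distance r from g^(± n k) • x, and h • x is
C0-between h • g^(-n k) • x and h • g^(n k) • x.  For k large (`lox_len`: both distances are > 10 (r + C0 + δ + 1)) `Hyp.far` twice: h • x is (C0 + 2 δ)-between
g^(-n k) • x and g^(n k) • x.  `lox_near` with r := C0 + 2 δ gives the constant K, which does not depend on h. -/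
theorem ec_near (hX : Hyp δ X) (hG : Geom G X) {g : G} (hg : ¬ IsOfFinOrder g) (x : X) :
    ∃ K : ℕ, ∀ h ∈ EC g, ∃ i : ℤ, d (h • x) (g ^ i • x) ≤ K := by
  obtain ⟨C0, hC0⟩ := lox_bt hX hG hg x
  obtain ⟨K1, hK1⟩ := lox_near hX hG hg x (C0 + δ + δ)
  refine ⟨K1, ?_⟩
  rintro h ⟨n, hn, hcom⟩
  obtain ⟨N, hN⟩ := pow_unbounded hG hg x (2 * d x (h • x) + C0 + 2 * δ)
  have hm := hN (n * N) (Nat.le_mul_of_pos_left N hn)
  have hc : Commute h (g ^ (n * N)) := by
    rw [pow_mul]
    exact (show Commute h (g ^ n) from hcom).pow_right N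
  obtain ⟨m, hmdef⟩ : ∃ m : ℕ, m = n * N := ⟨_, rfl⟩
  rw [← hmdef] at hm hc
  have hiso := hG.iso
  have hc2 : Commute h (g ^ (m : ℤ)) := by rw [zpow_natCast]; exact hc
  have hc3 : Commute h (g ^ (-(m : ℤ))) := by rw [zpow_neg]; exact hc2.inv_right
  have e1 : ∀ f : G, Commute h f → d (f • x) (h • f • x) = d x (h • x) := by
    intro f hf
    have : h • f • x = f • h • x := by rw [← mul_smul, ← mul_smul, hf.eq]
    rw [this, hiso]
  have eA := e1 _ hc3
  have eB := e1 _ hc2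
  have lB : d x (g ^ (m : ℤ) • x) = d x (g ^ m • x) := by rw [zpow_natCast]
  have lA : d x (g ^ (-(m : ℤ)) • x) = d x (g ^ m • x) := by
    have := hiso (g ^ (m : ℤ)) x (g ^ (-(m : ℤ)) • x)
    rw [← mul_smul, ← zpow_add, add_neg_cancel, zpow_zero, one_smul] at this
    rw [← this, d_comm, zpow_natCast]
  have hb : Bt C0 (h • g ^ (-(m : ℤ)) • x) (h • x) (h • g ^ (m : ℤ) • x) := by
    have := hC0 (-(m : ℤ)) 0 (m : ℤ) (by omega) (by omega)
    rw [zpow_zero, one_smul] at this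
    unfold Bt at *
    rw [hiso, hiso, hiso]
    exact this
  have hb1 : Bt (C0 + δ) (g ^ (-(m : ℤ)) • x) (h • x) (h • g ^ (m : ℤ) • x) := by
    apply hX.far hb
    rw [hiso, d_comm (h • g ^ (-(m : ℤ)) • x), eA, d_comm (g ^ (-(m : ℤ)) • x) x, lA]
    omega
  have hb2 : Bt (C0 + δ + δ) (g ^ (m : ℤ) • x) (h • x) (g ^ (-(m : ℤ)) • x) := by
    apply hX.far hb1.symm
    rw [hiso, d_comm (h • g ^ (m : ℤ) • x), eB, d_comm (g ^ (m : ℤ) • x) x, lB]
    omega
  obtain ⟨b, _, _, hb3⟩ := hK1 (-(m : ℤ)) (m : ℤ) (by omega) (h • x) hb2.symm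
  exact ⟨b, hb3⟩

/-- Chunk Tool9 (S). `ec_near`: g^(-i) h is in the finite set {f : d x (f • x) ≤ K} (`geom_fin`). -/
theorem ec_cosets (hX : Hyp δ X) (hG : Geom G X) {g : G} (hg : ¬ IsOfFinOrder g) :
    ∃ B : Finset G, ∀ h ∈ EC g, ∃ i : ℤ, ∃ b ∈ B, b ∈ EC g ∧ h = g ^ i * b := by
  obtain ⟨x⟩ := hG.ne
  obtain ⟨K, hK⟩ := ec_near hX hG hg x
  refine ⟨(geom_fin hG x K).toFinset, fun h hh => ?_⟩
  obtain ⟨i, hi⟩ := hK h hh
  refine ⟨i, (g ^ i)⁻¹ * h, ?_, ?_, ?_⟩
  · rw [Set.Finite.mem_toFinset, Set.mem_ofPred_eq]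
    have := hG.iso (g ^ i) x (((g ^ i)⁻¹ * h) • x)
    rw [← mul_smul, mul_inv_cancel_left] at this
    rw [← this, d_comm]
    exact hi
  · exact (EC g).mul_mem ((EC g).inv_mem ((EC g).zpow_mem (mem_EC_self g) i)) hh
  · rw [mul_inv_cancel_left]

/-- Chunk Tool9 (S). The product (or lcm) n of the exponents of the b in B (`ec_cosets`). -/
theorem ec_central (hX : Hyp δ X) (hG : Geom G X) {g : G} (hg : ¬ IsOfFinOrder g) :
    ∃ n : ℕ, 1 ≤ n ∧ ∀ h ∈ EC g, h * g ^ n = g ^ n * h := by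
  classical
  obtain ⟨B, hB⟩ := ec_cosets hX hG hg
  have hch : ∀ b : G, ∃ n : ℕ, 1 ≤ n ∧ (b ∈ EC g → Commute b (g ^ n)) := by
    intro b
    by_cases hb : b ∈ EC g
    · obtain ⟨n, hn, h⟩ := hb
      exact ⟨n, hn, fun _ => h⟩
    · exact ⟨1, le_rfl, fun h => absurd h hb⟩
  choose e he1 he2 using hch
  refine ⟨∏ b ∈ B, e b, Finset.one_le_prod' (fun b _ => he1 b), fun h hh => ?_⟩
  obtain ⟨i, b, hb, hbE, rfl⟩ := hB h hh
  have h1 : Commute b (g ^ (∏ b ∈ B, e b)) := by
    obtain ⟨m, hm⟩ := Finset.dvd_prod_of_mem e hb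
    rw [hm, pow_mul]
    exact (he2 b hbE).pow_right m
  have h2 : Commute (g ^ i) (g ^ (∏ b ∈ B, e b)) := by
    exact ((Commute.refl g).pow_right _).zpow_left i
  exact h2.mul_left h1

/-- Chunk Tool9 (M). Pure group theory from `ec_cosets`, `ec_central`: H = EC g, Z = the subgroup generated by ζ = g^n in H, central, infinite cyclic, of finite
index (B × {g^i : 0 ≤ i < n} meets all cosets).  The transfer to the centre (`MonoidHom.transferCenterPow`, h ↦ h^[H : center H], needs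
(center H).FiniteIndex) followed by the power map into Z (center H / Z is finite: c ↦ c^M lies in Z for M = [H : Z]), and Z ≅ ℤ.  So τ h is
defined by h^(N) = ζ^(τ h), N = [H : center H] M.  τ g ≠ 0; if τ h = 1 then h^N = 1. -/
theorem ec_tau (hX : Hyp δ X) (hG : Geom G X) {g : G} (hg : ¬ IsOfFinOrder g) :
    ∃ (τ : EC g →* Multiplicative ℤ) (N n : ℕ), 1 ≤ N ∧ 1 ≤ n ∧
      ∀ h : EC g, ((h : G)) ^ N = (g ^ n) ^ (Multiplicative.toAdd (τ h)) := by
  classical
  obtain ⟨B, hB⟩ := ec_cosets hX hG hg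
  obtain ⟨n, hn, hc⟩ := ec_central hX hG hg
  obtain ⟨γ, hγ⟩ : ∃ γ : EC g, (γ : G) = g := ⟨⟨g, mem_EC_self g⟩, rfl⟩
  have hζc : γ ^ n ∈ Subgroup.center (EC g) := by
    rw [Subgroup.mem_center_iff]
    intro h
    apply Subtype.ext
    push_cast
    rw [hγ]
    exact hc h h.2
  have hZfin : (Subgroup.zpowers (γ ^ n)).FiniteIndex := by
    have hfin : Finite (EC g ⧸ Subgroup.zpowers (γ ^ n)) := by
      let f : (Finset.range n) × B → (EC g ⧸ Subgroup.zpowers (γ ^ n)) := fun q =>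
        if h : (q.2 : G) ∈ EC g then
          (QuotientGroup.mk (γ ^ (q.1 : ℕ) * ⟨(q.2 : G), h⟩) : EC g ⧸ Subgroup.zpowers (γ ^ n))
        else QuotientGroup.mk 1
      apply Finite.of_surjective f
      intro q
      obtain ⟨h, rfl⟩ := QuotientGroup.mk_surjective q
      obtain ⟨i, b, hb, hbE, hib⟩ := hB h h.2
      have hn' : (0 : ℤ) < n := by exact_mod_cast hn
      have hr1 : 0 ≤ i % n := Int.emod_nonneg _ hn'.ne'
      have hr2 : i % n < n := Int.emod_lt_of_pos _ hn'
      refine ⟨(⟨(i % n).toNat, by rw [Finset.mem_range]; omega⟩, ⟨b, hb⟩), ?_⟩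
      simp only [f, hbE, dif_pos]
      rw [QuotientGroup.eq]
      have hcen := Subgroup.mem_center_iff.1 hζc
      have hcz : ∀ a : EC g, Commute a ((γ ^ n) ^ (i / n)) := fun a =>
        (show Commute a (γ ^ n) from hcen a).zpow_right _
      have e1 : h = γ ^ ((i % n).toNat) * ⟨b, hbE⟩ * (γ ^ n) ^ (i / n) := by
        rw [(hcz _).eq, ← mul_assoc]
        have e2 : (γ ^ n) ^ (i / n) * γ ^ ((i % n).toNat) = γ ^ i := by
          rw [← zpow_natCast γ n, ← zpow_mul, ← zpow_natCast γ, Int.toNat_of_nonneg hr1, ← zpow_add]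
          congr 1
          exact Int.mul_ediv_add_emod i n
        rw [e2]
        apply Subtype.ext
        push_cast
        rw [hγ]
        exact hib
      rw [e1]
      exact ⟨i / n, by group⟩
    exact Subgroup.finiteIndex_of_finite_quotient
  have hle : Subgroup.zpowers (γ ^ n) ≤ Subgroup.center (EC g) := by
    rw [Subgroup.zpowers_le]
    exact hζc
  have hCfin : (Subgroup.center (EC g)).FiniteIndex := Subgroup.finiteIndex_of_le hle
  obtain ⟨ζ, hζ⟩ : ∃ ζ : Subgroup.center (EC g), (ζ : EC g) = γ ^ n := ⟨⟨γ ^ n, hζc⟩, rfl⟩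
  have hZ2 : (Subgroup.zpowers ζ).FiniteIndex := by
    have : Subgroup.zpowers ζ = (Subgroup.zpowers (γ ^ n)).subgroupOf (Subgroup.center (EC g)) := by
      ext c
      rw [Subgroup.mem_subgroupOf, Subgroup.mem_zpowers_iff, Subgroup.mem_zpowers_iff]
      constructor
      · rintro ⟨k, rfl⟩
        exact ⟨k, by push_cast; rw [hζ]⟩
      · rintro ⟨k, hk⟩
        refine ⟨k, Subtype.ext ?_⟩
        push_cast
        rw [hζ]
        exact hk
    rw [this]
    infer_instance
  have hinj : Function.Injective (zpowersHom (Subgroup.center (EC g)) ζ) := by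
    rw [injective_iff_map_eq_one]
    intro a ha
    rw [zpowersHom_apply] at ha
    by_contra hne
    apply hg
    have h0 : Multiplicative.toAdd a ≠ 0 := fun h => hne (by
      apply Multiplicative.toAdd.injective
      rw [h]
      rfl)
    have h1 : (γ ^ n) ^ (Multiplicative.toAdd a) = 1 := by
      have := congrArg (Subtype.val) ha
      push_cast at this
      rw [hζ] at this
      exact this
    have h2 : (g ^ n) ^ (Multiplicative.toAdd a) = 1 := by
      have := congrArg (Subtype.val) h1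
      push_cast at this
      rw [hγ] at this
      exact this
    have h3 : IsOfFinOrder (g ^ n) := by
      rw [isOfFinOrder_iff_zpow_eq_one]
      exact ⟨_, h0, h2⟩
    exact h3.of_pow (by omega)
  have hcomm : ∀ a b : Subgroup.center (EC g), a * b = b * a := fun a b =>
    (isMulCommutative_iff.1 (inferInstance : IsMulCommutative (Subgroup.center (EC g)))) a b
  obtain ⟨M, hM⟩ : ∃ M : ℕ, M = (Subgroup.zpowers ζ).index := ⟨_, rfl⟩
  have hM0 : M ≠ 0 := by rw [hM]; exact Subgroup.FiniteIndex.index_ne_zero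
  have : (Subgroup.zpowers ζ).Normal := ⟨fun a ha b => by
    rw [hcomm b a, mul_assoc, mul_inv_cancel, mul_one]; exact ha⟩
  have hpow : ∀ h : EC g, ∃ k : ℤ, ζ ^ k = (MonoidHom.transferCenterPow (EC g) h) ^ M := by
    intro h
    have h1 := (Subgroup.zpowers ζ).pow_index_mem (MonoidHom.transferCenterPow (EC g) h)
    rw [← hM] at h1
    exact Subgroup.mem_zpowers_iff.1 h1
  choose t ht using hpow
  have hinj' : ∀ a b : ℤ, ζ ^ a = ζ ^ b → a = b := by
    intro a b hab
    have h1 : zpowersHom (Subgroup.center (EC g)) ζ (Multiplicative.ofAdd a) =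
        zpowersHom (Subgroup.center (EC g)) ζ (Multiplicative.ofAdd b) := by
      rw [zpowersHom_apply, zpowersHom_apply]; exact hab
    exact Multiplicative.ofAdd.injective (hinj h1)
  refine ⟨MonoidHom.mk' (fun h => Multiplicative.ofAdd (t h)) ?_,
    (Subgroup.center (EC g)).index * M, n, ?_, hn, ?_⟩
  · intro a b
    rw [← ofAdd_add]
    congr 1
    apply hinj'
    rw [ht, zpow_add, ht, ht, map_mul]
    have hc : Commute ((MonoidHom.transferCenterPow (EC g)) a) ((MonoidHom.transferCenterPow (EC g)) b) :=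
      hcomm _ _
    exact hc.mul_pow M
  · exact Nat.mul_pos (Nat.pos_of_ne_zero Subgroup.FiniteIndex.index_ne_zero)
      (Nat.pos_of_ne_zero hM0)
  · intro h
    have h3 : (ζ : EC g) ^ (t h) = ((MonoidHom.transferCenterPow (EC g) h : Subgroup.center (EC g)) : EC g) ^ M := by
      have := congrArg (Subtype.val) (ht h)
      push_cast at this
      exact this
    rw [MonoidHom.transferCenterPow_apply, hζ, ← pow_mul] at h3
    have h4 : ((γ : G) ^ n) ^ (t h) = (h : G) ^ ((Subgroup.center (EC g)).index * M) := by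
      have := congrArg (Subtype.val) h3
      push_cast at this
      exact this
    rw [hγ] at h4
    rw [← h4]
    rfl

/-- Chunk Tool9 (S/M). From `ec_tau` and `fin_bound`: the kernel of τ consists of the elements of finite order of EC g; it is a subgroup, and it is finite: by
`ec_cosets` h = g^i b, and for h in the kernel and b fixed at most one i is possible (g^i b and g^j b in the kernel give g^(i-j) of finite order). -/
theorem ec_tor (hX : Hyp δ X) (hG : Geom G X) {g : G} (hg : ¬ IsOfFinOrder g) :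
    ∃ S : Subgroup G, (S : Set G).Finite ∧ S ≤ EC g ∧
      (∀ h ∈ EC g, h ∈ S ↔ IsOfFinOrder h) ∧ ∀ h ∈ EC g, ∀ s ∈ S, h * s * h⁻¹ ∈ S := by
  classical
  obtain ⟨τ, N, n, hN, hn, hτ⟩ := ec_tau hX hG hg
  obtain ⟨B, hB⟩ := ec_cosets hX hG hg
  have hfin : ∀ h : EC g, τ h = 1 ↔ IsOfFinOrder (h : G) := by
    intro h
    constructor
    · intro h1
      rw [isOfFinOrder_iff_pow_eq_one]
      refine ⟨N, hN, ?_⟩
      rw [hτ h, h1]
      simp
    · intro h1
      obtain ⟨k, hk, hk1⟩ := isOfFinOrder_iff_pow_eq_one.1 h1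
      have h2 : h ^ k = 1 := Subtype.ext (by push_cast; exact hk1)
      have h3 : (τ h) ^ k = 1 := by rw [← map_pow, h2, map_one]
      have h4 := congrArg Multiplicative.toAdd h3
      rw [toAdd_pow, toAdd_one, smul_eq_zero] at h4
      rcases h4 with h4 | h4
      · omega
      · exact Multiplicative.toAdd.injective h4
  refine ⟨τ.ker.map (EC g).subtype, ?_, ?_, ?_, ?_⟩
  · apply Set.Finite.subset (B.finite_toSet.biUnion
      (t := fun b => {h : G | h ∈ τ.ker.map (EC g).subtype ∧ ∃ i : ℤ, h = g ^ i * b}) ?_)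
    · intro h hh
      have hhE : h ∈ EC g := by
        obtain ⟨h', _, rfl⟩ := hh
        exact h'.2
      obtain ⟨i, b, hb, _, hib⟩ := hB h hhE
      rw [Set.mem_iUnion₂]
      exact ⟨b, hb, hh, i, hib⟩
    · intro b _
      apply Set.Subsingleton.finite
      rintro h₁ ⟨hh₁, i, rfl⟩ h₂ ⟨hh₂, j, rfl⟩
      have h1 : g ^ i * b * (g ^ j * b)⁻¹ ∈ τ.ker.map (EC g).subtype :=
        Subgroup.mul_mem _ hh₁ (Subgroup.inv_mem _ hh₂)
      have e : g ^ i * b * (g ^ j * b)⁻¹ = g ^ (i - j) := by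
        rw [zpow_sub]
        group
      rw [e] at h1
      obtain ⟨h', hk, hh'⟩ := h1
      have h2 : IsOfFinOrder (g ^ (i - j)) := by
        rw [← hh']
        exact (hfin h').1 hk
      by_cases hij : i = j
      · rw [hij]
      · exfalso
        apply hg
        obtain ⟨k, hk0, hk1⟩ := isOfFinOrder_iff_zpow_eq_one.1 h2
        rw [← zpow_mul] at hk1
        exact isOfFinOrder_iff_zpow_eq_one.2 ⟨_, mul_ne_zero (sub_ne_zero.2 hij) hk0, hk1⟩
  · rintro h ⟨h', _, rfl⟩
    exact h'.2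
  · intro h hh
    constructor
    · rintro ⟨h', hk, rfl⟩
      exact (hfin h').1 hk
    · intro h1
      exact ⟨⟨h, hh⟩, (hfin ⟨h, hh⟩).2 h1, rfl⟩
  · rintro h hh s ⟨s', hs', rfl⟩
    refine ⟨⟨h, hh⟩ * s' * ⟨h, hh⟩⁻¹, ?_, rfl⟩
    exact (MonoidHom.normal_ker τ).conj_mem s' hs' ⟨h, hh⟩

/-- Chunk Tool9 (M). E(g) modulo its torsion subgroup is infinite cyclic: the image of τ (`ec_tau`) is a nontrivial subgroup of ℤ, generated by τ g₀. -/
theorem ec_gen (hX : Hyp δ X) (hG : Geom G X) {g : G} (hg : ¬ IsOfFinOrder g) :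
    ∃ g₀ ∈ EC g, ¬ IsOfFinOrder g₀ ∧ ∀ h ∈ EC g, ∃ i : ℤ, IsOfFinOrder (g₀ ^ i * h) := by
  classical
  obtain ⟨τ, N, n, hN, hn, hτ⟩ := ec_tau hX hG hg
  obtain ⟨t, ht⟩ := (inferInstance : IsCyclic τ.range).exists_generator
  obtain ⟨g₀, hg₀⟩ := t.2
  have hfin : ∀ h : EC g, τ h = 1 → IsOfFinOrder (h : G) := by
    intro h h1
    rw [isOfFinOrder_iff_pow_eq_one]
    refine ⟨N, hN, ?_⟩
    rw [hτ h, h1]
    simp
  refine ⟨g₀, g₀.2, ?_, ?_⟩
  · intro h1
    obtain ⟨k, hk, hk1⟩ := isOfFinOrder_iff_pow_eq_one.1 h1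
    have h2 : g₀ ^ k = 1 := Subtype.ext (by push_cast; exact hk1)
    have h3 : (τ g₀) ^ k = 1 := by rw [← map_pow, h2, map_one]
    have h4 := congrArg Multiplicative.toAdd h3
    rw [toAdd_pow, toAdd_one, smul_eq_zero] at h4
    have h5 : τ g₀ = 1 := by
      rcases h4 with h4 | h4
      · omega
      · exact Multiplicative.toAdd.injective h4
    obtain ⟨j, hj⟩ := ht ⟨τ ⟨g, mem_EC_self g⟩, ⟨_, rfl⟩⟩
    have h6 : τ ⟨g, mem_EC_self g⟩ = 1 := by
      have := congrArg Subtype.val hj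
      simp only at this
      push_cast at this
      rw [← hg₀, h5, one_zpow] at this
      exact this.symm
    exact hg (hfin _ h6)
  · intro h hh
    obtain ⟨j, hj⟩ := ht ⟨τ ⟨h, hh⟩, ⟨_, rfl⟩⟩
    have h1 : (τ g₀) ^ j = τ ⟨h, hh⟩ := by
      have := congrArg Subtype.val hj
      simp only at this
      push_cast at this
      rw [← hg₀] at this
      exact this
    refine ⟨-j, ?_⟩
    have h2 : τ (g₀ ^ (-j) * ⟨h, hh⟩) = 1 := by
      rw [map_mul, map_zpow, zpow_neg, h1, inv_mul_cancel]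
    have := hfin _ h2
    push_cast at this
    exact this

end Pool.Agent.Lib.H14E
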