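import Pool.Agent.Lib.H14E.Disp
import Pool.Agent.Lib.H14E.N0
import Pool.Agent.Lib.H14E.Tool3
import Pool.Agent.Lib.H14E.Tool9

/-!
# H14E, module A: the statements used by module D

`H` acts by isometries on the hyperbolic integer valued geodesic space `Q`.
The constants depend only on `δ`.
-/

set_option autoImplicit false

namespace Pool.Agent.Lib.H14E

open Pool.Agent.Lib.H76.Morse GeoMet

/-- Finite groups have a quasi-centre. -/
theorem aif_centre (δ : ℕ) : ∃ C : ℕ, ∀ (H Q : Type) [Group H] [GeoMet Q] [MulAction H Q],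
    Hyp δ Q → IsoAct H Q → Nonempty Q → ∀ F : Subgroup H, (F : Set H).Finite →
      ∃ v : Q, ∀ x ∈ F, d v (x • v) ≤ C := by
  refine ⟨2 * δ + 1, ?_⟩
  intro H Q _ _ _ hQ hiso hne F hF
  obtain ⟨x⟩ := hne
  exact quasi_centre hQ hiso F hF x

/-- GROW: in a recurrence `g` and `b_j` have a common point of almost minimal displacement. -/
theorem aif_grow (δ : ℕ) : ∃ C : ℕ, ∀ (H Q : Type) [Group H] [GeoMet Q] [MulAction H Q],
    Hyp δ Q → IsoAct H Q → Nonempty Q → ∀ (g b m : H) (k : ℕ), 1 ≤ k → m * g = g * m →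
      (Tg g)^[k] b = m * b * m⁻¹ → ∀ l : ℕ, (∃ v : Q, d v (g • v) ≤ l) →
        ∀ j : ℕ, ∃ v : Q, d v (g • v) ≤ l + C ∧ d v ((Tg g)^[j] b • v) ≤ l + C := by
  refine ⟨12 * δ + 20, ?_⟩
  intro H Q _ _ _ hQ hiso hne g b m k hk hmg hrec l hl j
  obtain ⟨v₀, hv₀⟩ := hl
  have hgl : dsp g v₀ ≤ l := hv₀
  -- each `b_j` has a point of displacement `≤ l`
  have hsucc : ∀ i : ℕ, ∃ v : Q, dsp ((Tg g)^[i + 1] b) v ≤ l := by
    intro i
    refine ⟨(Tg g)^[i] b • v₀, ?_⟩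
    rw [Function.iterate_succ_apply']
    show dsp ((Tg g)^[i] b * g * ((Tg g)^[i] b)⁻¹) _ ≤ l
    rw [dsp_conj hiso, inv_smul_smul]
    exact hgl
  have hconj : ∀ (a : H) (v : Q), dsp (m * a * m⁻¹) (m • v) = dsp a v := by
    intro a v
    rw [dsp_conj hiso, inv_smul_smul]
  have hgm : ∀ v : Q, dsp g (m • v) = dsp g v := by
    intro v
    have := hconj g v
    rwa [conj_of_comm hmg] at this
  have hall : ∀ i : ℕ, ∃ v : Q, dsp ((Tg g)^[i] b) v ≤ l := by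
    intro i
    obtain ⟨v, hv⟩ := hsucc (i + (k - 1))
    have e : (Tg g)^[i + (k - 1) + 1] b = m * (Tg g)^[i] b * m⁻¹ := by
      have e1 : i + (k - 1) + 1 = k + i := by omega
      rw [e1, Function.iterate_add_apply]
      exact tg_rec_shift hmg hrec i
    rw [e] at hv
    refine ⟨m⁻¹ • v, ?_⟩
    rw [← hconj, smul_inv_smul]
    exact hv
  by_contra hcon
  push Not at hcon
  -- the growth
  have hP0 : ∀ v : Q, l + (12 * δ + 20) + 1 ≤ max (dsp g v) (dsp ((Tg g)^[j] b) v) := by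
    intro v
    have h := hcon v
    have e1 : dsp g v = d v (g • v) := rfl
    have e2 : dsp ((Tg g)^[j] b) v = d v ((Tg g)^[j] b • v) := rfl
    rw [e1, e2]
    rcases le_or_gt (d v (g • v)) (l + (12 * δ + 20)) with h1 | h1
    · have := h h1
      omega
    · omega
  have hstep : ∀ i D : ℕ, l + 12 * δ + 20 ≤ D →
      (∀ v : Q, D ≤ max (dsp g v) (dsp ((Tg g)^[i] b) v)) →
      ∀ v : Q, D + 1 ≤ max (dsp g v) (dsp ((Tg g)^[i + 1] b) v) := by
    intro i D hD hv v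
    obtain ⟨yb, hyb⟩ := hall i
    have := grow hQ hiso (a := g) (b := (Tg g)^[i] b) (r := l) (D := D) hgl hyb (by omega) hv v
    rw [Function.iterate_succ_apply']
    exact this
  have hsteps : ∀ n i D : ℕ, l + 12 * δ + 20 ≤ D →
      (∀ v : Q, D ≤ max (dsp g v) (dsp ((Tg g)^[i] b) v)) →
      ∀ v : Q, D + n ≤ max (dsp g v) (dsp ((Tg g)^[i + n] b) v) := by
    intro n
    induction n with
    | zero => intro i D _ hv v; exact hv v
    | succ n ih =>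
      intro i D hD hv v
      have h1 := ih i D hD hv
      have h2 := hstep (i + n) (D + n) (by omega) h1 v
      have e : i + (n + 1) = i + n + 1 := by omega
      rw [e]
      omega
  have hshift : ∀ D : ℕ, (∀ v : Q, D ≤ max (dsp g v) (dsp ((Tg g)^[j + k] b) v)) →
      ∀ v : Q, D ≤ max (dsp g v) (dsp ((Tg g)^[j] b) v) := by
    intro D hv v
    have h1 := hv (m • v)
    have e : (Tg g)^[j + k] b = m * (Tg g)^[j] b * m⁻¹ := by
      rw [Nat.add_comm, Function.iterate_add_apply]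
      exact tg_rec_shift hmg hrec j
    rw [e, hconj, hgm] at h1
    exact h1
  have hbig : ∀ n : ℕ, ∀ v : Q,
      l + (12 * δ + 20) + 1 + n ≤ max (dsp g v) (dsp ((Tg g)^[j] b) v) := by
    intro n
    induction n with
    | zero => intro v; exact hP0 v
    | succ n ih =>
      intro v
      have h1 := hsteps k j _ (by omega) ih
      have h2 := hshift _ h1 v
      omega
  have := hbig (max (dsp g v₀) (dsp ((Tg g)^[j] b) v₀)) v₀
  omega

/-- The centraliser of `g ^ n` is (finite)-by-abelian. -/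
theorem aif_cent {δ : ℕ} {H Q : Type} [Group H] [GeoMet Q] [MulAction H Q] (hQ : Hyp δ Q)
    (hH : Geom H Q) (g : H) (hg : ¬ IsOfFinOrder g) :
    ∃ Kf : Subgroup H, (Kf : Set H).Finite ∧
      (∀ (n : ℕ) (x : H), 1 ≤ n → x * g ^ n = g ^ n * x → ∀ s ∈ Kf, x * s * x⁻¹ ∈ Kf) ∧
      ∀ (n : ℕ) (x y : H), 1 ≤ n → x * g ^ n = g ^ n * x → y * g ^ n = g ^ n * y →
        x * y * x⁻¹ * y⁻¹ ∈ Kf := by
  obtain ⟨S, hS1, hS2, hS3, hS4⟩ := ec_tor hQ hH hg
  refine ⟨S, hS1, fun n x hn hx s hs => hS4 x ⟨n, hn, hx⟩ s hs, ?_⟩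
  intro n x y hn hx hy
  obtain ⟨τ, N', n', hN', hn', hτ⟩ := ec_tau hQ hH hg
  have hx' : x ∈ EC g := ⟨n, hn, hx⟩
  have hy' : y ∈ EC g := ⟨n, hn, hy⟩
  have hm : x * y * x⁻¹ * y⁻¹ ∈ EC g :=
    (EC g).mul_mem ((EC g).mul_mem ((EC g).mul_mem hx' hy') ((EC g).inv_mem hx'))
      ((EC g).inv_mem hy')
  rw [hS3 _ hm]
  refine isOfFinOrder_iff_pow_eq_one.2 ⟨N', hN', ?_⟩
  have h1 := hτ ⟨_, hm⟩
  have h2 : τ ⟨_, hm⟩ = 1 := by
    have e : (⟨_, hm⟩ : EC g) = ⟨x, hx'⟩ * ⟨y, hy'⟩ * ⟨x, hx'⟩⁻¹ * ⟨y, hy'⟩⁻¹ := rfl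
    rw [e, map_mul, map_mul, map_mul, map_inv, map_inv]
    rw [mul_comm (τ ⟨x, hx'⟩) (τ ⟨y, hy'⟩), mul_assoc (τ ⟨y, hy'⟩), mul_inv_cancel, mul_one,
      mul_inv_cancel]
  rw [h2] at h1
  simpa using h1

end Pool.Agent.Lib.H14E
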