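import Pool.Agent.Lib.H14E.AxDefs

/-!
# H14E, module D7: four point lemmas
-/

set_option autoImplicit false

namespace Pool.Agent.Lib.H14E.Ax

open Pool.Agent.Lib.H76.Morse GeoMet

variable {Z H : Type} [GeoMet Z] [Group H] [MulAction H Z] {δ : ℕ}

/-- Two points which are (coarsely) between `x` and `y` at (coarsely) the same distance of `x` are
near each other. -/
theorem near_geod (hZ : Hyp δ Z) {x y q a : Z} {e f : ℕ} (h1 : d x q + d q y ≤ d x y + e)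
    (h2 : d x a + d a y = d x y) (h3 : d x a ≤ d x q + f) (h4 : d x q ≤ d x a + f) :
    d q a ≤ e + f + δ := by
  have := hZ q a x y
  rw [d_comm q x, d_comm a x] at this
  omega

/-- Nearest point of a line. -/
theorem exists_near {γ : ℤ → Z} (x : Z) : ∃ t₀ : ℤ, ∀ s : ℤ, d x (γ t₀) ≤ d x (γ s) := by
  classical
  have h : ∃ n : ℕ, ∃ t : ℤ, d x (γ t) = n := ⟨_, 0, rfl⟩
  obtain ⟨t₀, ht⟩ := Nat.find_spec h
  refine ⟨t₀, fun s => ?_⟩
  rw [ht]
  exact Nat.find_min' h ⟨s, rfl⟩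

/-- The projection inequality. -/
theorem line_proj (hZ : Hyp δ Z) {γ : ℤ → Z} (hγ : IsLine γ) {x : Z} {t₀ : ℤ}
    (h : ∀ s : ℤ, d x (γ t₀) ≤ d x (γ s)) (s : ℤ) :
    d x (γ t₀) + (s - t₀).natAbs ≤ d x (γ s) + (2 * δ + 1) := by
  by_cases hs : (s - t₀).natAbs ≤ δ
  · have := h s
    omega
  · rcases le_total t₀ s with h0 | h0
    · have h1 := hZ x (γ (t₀ + (δ + 1))) (γ t₀) (γ s)
      have h2 := h (t₀ + (δ + 1))
      have e1 := hγ t₀ s
      have e2 := hγ (t₀ + (δ + 1)) s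
      have e3 := hγ (t₀ + (δ + 1)) t₀
      omega
    · have h1 := hZ x (γ (t₀ - (δ + 1))) (γ t₀) (γ s)
      have h2 := h (t₀ - (δ + 1))
      have e1 := hγ t₀ s
      have e2 := hγ (t₀ - (δ + 1)) s
      have e3 := hγ (t₀ - (δ + 1)) t₀
      omega

/-- Displacement of a long isometry. -/
theorem displ (hZ : Hyp δ Z) (hI : Iso H Z) {g : H} {γ : ℤ → Z} {l C : ℕ}
    (hg : IsAxis g γ l C) (hl : 10 * (δ + C + 1) ≤ l) (x : Z) :
    ∃ t₀ : ℤ, l + 2 * d x (γ t₀) ≤ d x (g • x) + (5 * δ + C + 2) := by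
  obtain ⟨t₀, ht⟩ := exists_near (γ := γ) x
  refine ⟨t₀, ?_⟩
  have h1 := line_proj hZ hg.line ht (t₀ + l)
  have h2 := line_proj hZ hg.line ht (t₀ - l)
  have h3 := hg.tr (t₀ - l)
  have h4 := hg.tr t₀
  have h5 := hI g x (γ (t₀ - l))
  have h6 := hI g x (γ t₀)
  have e : t₀ - (l : ℤ) + l = t₀ := by ring
  rw [e] at h3
  have t1 := d_tri (g • x) (γ t₀) (g • γ (t₀ - l))
  have t2 := d_tri (g • x) (g • γ t₀) (γ (t₀ + l))
  have e1 := hg.line t₀ (t₀ + l)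
  have h7 := hZ x (γ (t₀ + l)) (γ t₀) (g • x)
  have h8 := hZ x (γ (t₀ + l)) (g • x) (γ t₀)
  have c1 := d_comm (γ (t₀ + l)) (γ t₀)
  have c2 := d_comm (γ (t₀ + l)) (g • x)
  have c3 := d_comm (γ t₀) (g • x)
  have c4 := d_comm (γ t₀) (g • γ (t₀ - l))
  omega

/-- A point of a geodesic `A B`, far from the ends, is coarsely between `A'` and `B'`. -/
theorem quad (hZ : Hyp δ Z) {P A B A' B' : Z} {K : ℕ} (h : d P A + d P B = d A B)
    (hA : d A A' ≤ K) (hB : d B B' ≤ K) (h1 : K + 2 * δ + 1 ≤ d P A)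
    (h2 : K + 2 * δ + 1 ≤ d P B) : d P A' + d P B' ≤ d A' B' + 2 * δ := by
  have a1 := hZ P A' A B
  have a2 := hZ P B' B A'
  have c1 := d_comm A' A
  have c2 := d_comm A' B
  have c3 := d_comm B' B
  have c4 := d_comm B' A'
  have t1 := d_tri P A A'
  have t2 := d_tri P B B'
  have t3 := d_tri P A' A
  have t4 := d_tri P B' B
  omega

/-- A point `γ(r)` far inside a stretch along which `γ` is near `η` is within `3δ` of `η`. -/
theorem line_near (hZ : Hyp δ Z) {γ η : ℤ → Z} (hγ : IsLine γ) (hη : IsLine η) {K : ℕ}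
    {s s' r σ σ' : ℤ} (h1 : d (γ s) (η σ) ≤ K) (h2 : d (γ s') (η σ') ≤ K)
    (h3 : s + (K + 2 * δ + 1) ≤ r) (h4 : r + (K + 2 * δ + 1) ≤ s') :
    ∃ ρ : ℤ, d (γ r) (η ρ) ≤ 3 * δ := by
  have e1 := hγ r s
  have e2 := hγ r s'
  have e3 := hγ s s'
  have q := quad hZ (P := γ r) (A := γ s) (B := γ s') (A' := η σ) (B' := η σ') (K := K)
    (by omega) h1 h2 (by omega) (by omega)
  set D := d (γ r) (η σ) with hD
  have t1 := d_tri (γ s) (η σ) (η σ')
  have t2 := d_tri (η σ) (γ s) (γ s')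
  have t3 := d_tri (η σ) (γ s') (η σ')
  have t4 := d_tri (η σ) (γ r) (η σ')
  have c1 := d_comm (η σ) (γ r)
  have c2 := d_comm (η σ) (γ s)
  have e4 := hη σ σ'
  have key : ∀ ρ : ℤ, (σ - ρ).natAbs + (ρ - σ').natAbs = (σ - σ').natAbs →
      ((σ - ρ).natAbs = D ∨ (σ' = ρ ∧ (σ - σ').natAbs ≤ D)) → d (γ r) (η ρ) ≤ 3 * δ := by
    intro ρ hρ h
    have f1 := hη σ ρ
    have f2 := hη ρ σ'
    rcases h with h | ⟨h, h'⟩
    · have := near_geod hZ (x := η σ) (y := η σ') (q := γ r) (a := η ρ) (e := 2 * δ) (f := 0)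
        (by omega) (by omega) (by omega) (by omega)
      omega
    · subst h
      omega
  rcases le_total σ σ' with h0 | h0
  · by_cases hh : (D : ℤ) ≤ σ' - σ
    · exact ⟨σ + D, key _ (by omega) (Or.inl (by omega))⟩
    · exact ⟨σ', key _ (by omega) (Or.inr ⟨rfl, by omega⟩)⟩
  · by_cases hh : (D : ℤ) ≤ σ - σ'
    · exact ⟨σ - D, key _ (by omega) (Or.inl (by omega))⟩
    · exact ⟨σ', key _ (by omega) (Or.inr ⟨rfl, by omega⟩)⟩

end Pool.Agent.Lib.H14E.Ax
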