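import Pool.Agent.Lib.H14E.AxA

/-!
# H14E, module D7: relations `b γ(s) ~ γ(t)`
-/

set_option autoImplicit false

namespace Pool.Agent.Lib.H14E.Ax

open Pool.Agent.Lib.H76.Morse GeoMet

variable {Z H : Type} [GeoMet Z] [Group H] [MulAction H Z] {δ : ℕ}

/-- The reversed line. -/
def rev (γ : ℤ → Z) : ℤ → Z := fun t => γ (-t)

theorem IsLine.rev {γ : ℤ → Z} (h : IsLine γ) : IsLine (rev γ) := by
  intro s t
  show d (γ (-s)) (γ (-t)) = _
  rw [h]
  omega

theorem Rel.rev {γ : ℤ → Z} {b : H} {K : ℕ} {s t : ℤ} (h : Rel γ b K s t) :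
    Rel (rev γ) b K (-s) (-t) := by
  show d (b • γ (- -s)) (γ (- -t)) ≤ K
  rw [neg_neg, neg_neg]
  exact h

theorem Rel.unrev {γ : ℤ → Z} {b : H} {K : ℕ} {s t : ℤ} (h : Rel (Ax.rev γ) b K s t) :
    Rel γ b K (-s) (-t) := h

/-- Interpolation, orientation preserving. -/
theorem Rel.interp (hZ : Hyp δ Z) (hI : Iso H Z) {γ : ℤ → Z} (hγ : IsLine γ) {b : H} {K : ℕ}
    {s t s' t' r : ℤ} (h : Rel γ b K s t) (h' : Rel γ b K s' t') (h1 : s ≤ r) (h2 : r ≤ s')
    (h3 : t ≤ t') : Rel γ b (10 * K + δ) r (t + (r - s)) := by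
  obtain ⟨i1, i2⟩ := h.iso hI hγ h'
  unfold Rel at *
  have e1 := hI b (γ s) (γ r)
  have e2 := hI b (γ r) (γ s')
  have f1 := hγ s r
  have f2 := hγ r s'
  have f3 := hγ t t'
  have t1 := d_tri (γ t) (b • γ s) (b • γ r)
  have t2 := d_tri (b • γ r) (b • γ s') (γ t')
  have t3 := d_tri (b • γ s) (γ t) (b • γ r)
  have c1 := d_comm (γ t) (b • γ s)
  have c2 := d_comm (γ t) (b • γ r)
  have key : ∀ a : ℤ, t ≤ a → a ≤ t' → (a - (t + (r - s))).natAbs ≤ 2 * K →
      d (b • γ r) (γ a) ≤ 8 * K + δ := by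
    intro a ha1 ha2 ha3
    have g1 := hγ t a
    have g2 := hγ a t'
    have := near_geod hZ (x := γ t) (y := γ t') (q := b • γ r) (a := γ a) (e := 4 * K)
      (f := 4 * K) (by omega) (by omega) (by omega) (by omega)
    omega
  by_cases hh : t + (r - s) ≤ t'
  · have := key (t + (r - s)) (by omega) hh (by omega)
    omega
  · have g0 := key t' h3 le_rfl (by omega)
    have g1 := hγ t' (t + (r - s))
    have g2 := d_tri (b • γ r) (γ t') (γ (t + (r - s)))
    omega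

/-- Interpolation, orientation reversing. -/
theorem Rel.interp' (hZ : Hyp δ Z) (hI : Iso H Z) {γ : ℤ → Z} (hγ : IsLine γ) {b : H} {K : ℕ}
    {s t s' t' r : ℤ} (h : Rel γ b K s t) (h' : Rel γ b K s' t') (h1 : s ≤ r) (h2 : r ≤ s')
    (h3 : t' ≤ t) : Rel γ b (10 * K + δ) r (t - (r - s)) := by
  obtain ⟨i1, i2⟩ := h.iso hI hγ h'
  unfold Rel at *
  have e1 := hI b (γ s) (γ r)
  have e2 := hI b (γ r) (γ s')
  have f1 := hγ s r
  have f2 := hγ r s'
  have f3 := hγ t t'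
  have t1 := d_tri (γ t) (b • γ s) (b • γ r)
  have t2 := d_tri (b • γ r) (b • γ s') (γ t')
  have t3 := d_tri (b • γ s) (γ t) (b • γ r)
  have c1 := d_comm (γ t) (b • γ s)
  have c2 := d_comm (γ t) (b • γ r)
  have key : ∀ a : ℤ, a ≤ t → t' ≤ a → (a - (t - (r - s))).natAbs ≤ 2 * K →
      d (b • γ r) (γ a) ≤ 8 * K + δ := by
    intro a ha1 ha2 ha3
    have g1 := hγ t a
    have g2 := hγ a t'
    have := near_geod hZ (x := γ t) (y := γ t') (q := b • γ r) (a := γ a) (e := 4 * K)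
      (f := 4 * K) (by omega) (by omega) (by omega) (by omega)
    omega
  by_cases hh : t' ≤ t - (r - s)
  · have := key (t - (r - s)) (by omega) hh (by omega)
    omega
  · have g0 := key t' h3 le_rfl (by omega)
    have g1 := hγ t' (t - (r - s))
    have g2 := d_tri (b • γ r) (γ t') (γ (t - (r - s)))
    omega

/-- Contraction: if `b γ(s) ~ γ(t)` with `s ≤ t` then `b γ(s+e) ~ γ(s+e+l)`, where
`t - s = l + 2e` (up to rounding). -/
theorem contract (hZ : Hyp δ Z) (hI : Iso H Z) {γ : ℤ → Z} (hγ : IsLine γ) {b : H}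
    {η : ℤ → Z} {l C K : ℕ} (hb : IsAxis b η l C) (hl : 100 * (δ + C + K + 1) ≤ l) {s t : ℤ}
    (h : Rel γ b K s t) (hst : s ≤ t) :
    ∃ e : ℤ, 0 ≤ e ∧ (e = 0 ∨ 2 * e ≤ t - s - l) ∧ t - s - l ≤ 2 * e + 1 ∧
      Rel γ b (30 * (δ + C + K + 1)) (s + e) (s + e + l) := by
  have hmn := hb.rel_mn hγ h
  unfold Rel at h
  obtain ⟨σ, hσ⟩ := displ hZ hI hb (by omega) (γ s)
  set D := d (γ s) (η σ) with hD
  have f0 := hγ s t
  have t1 := d_tri (γ s) (γ t) (b • γ s)
  have c1 := d_comm (γ t) (b • γ s)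
  have t2 := d_tri (η σ) (η (σ + l)) (b • η σ)
  have t2' := hb.tr σ
  have c2 := d_comm (η (σ + l)) (b • η σ)
  have f1 := hb.line σ (σ + l)
  have e1 := hI b (η σ) (γ s)
  have c3 := d_comm (η σ) (γ s)
  have t3 := d_tri (b • η σ) (b • γ s) (γ t)
  have t4 := d_tri (η σ) (b • η σ) (γ t)
  have t5 := d_tri (γ s) (η σ) (b • η σ)
  have t6 := d_tri (γ s) (b • η σ) (γ t)
  have t7 := d_tri (γ s) (γ s) (b • γ s)
  have t8 := d_tri (γ s) (b • η σ) (b • γ s)
  have t9 := d_tri (γ s) (b • γ s) (γ t)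
  have main : ∀ e : ℤ, 0 ≤ e → (e = 0 ∨ 2 * e ≤ t - s - l) → t - s - l ≤ 2 * e + 1 →
      Rel γ b (30 * (δ + C + K + 1)) (s + e) (s + e + l) := by
    intro e he0 he1 he2
    have g1 := hγ s (s + e)
    have g2 := hγ (s + e) t
    have n1 := near_geod hZ (x := γ s) (y := γ t) (q := η σ) (a := γ (s + e))
      (e := 2 * K + (5 * δ + C + 2) + C) (f := K + (5 * δ + C + 2) + 1)
      (by omega) (by omega) (by omega) (by omega)
    have key : ∀ a : ℤ, s ≤ a → a ≤ t → (a - (s + e + l)).natAbs ≤ K →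
        d (b • η σ) (γ a) ≤ 5 * K + 11 * δ + 4 * C + 5 + δ := by
      intro a ha1 ha2 ha3
      have g3 := hγ s a
      have g4 := hγ a t
      have n2 := near_geod hZ (x := γ s) (y := γ t) (q := b • η σ) (a := γ a)
        (e := 2 * K + (5 * δ + C + 2) + C) (f := 3 * K + (5 * δ + C + 2) + C + 1)
        (by omega) (by omega) (by omega) (by omega)
      omega
    unfold Rel
    have e3 := hI b (γ (s + e)) (η σ)
    have c4 := d_comm (γ (s + e)) (η σ)
    by_cases hh : s + e + l ≤ t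
    · have k1 := key (s + e + l) (by omega) hh (by omega)
      have t10 := d_tri (b • γ (s + e)) (b • η σ) (γ (s + e + l))
      omega
    · have k1 := key t hst le_rfl (by omega)
      have t10 := d_tri (b • γ (s + e)) (b • η σ) (γ (s + e + l))
      have t11 := d_tri (b • η σ) (γ t) (γ (s + e + l))
      have f5 := hγ t (s + e + l)
      omega
  by_cases h0 : (l : ℤ) ≤ t - s
  · exact ⟨(t - s - l) / 2, by omega, by omega, by omega, main _ (by omega) (by omega) (by omega)⟩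
  · exact ⟨0, le_rfl, Or.inl rfl, by omega, main 0 le_rfl (Or.inl rfl) (by omega)⟩

/-- Contraction in the other direction. -/
theorem contract' (hZ : Hyp δ Z) (hI : Iso H Z) {γ : ℤ → Z} (hγ : IsLine γ) {b : H}
    {η : ℤ → Z} {l C K : ℕ} (hb : IsAxis b η l C) (hl : 100 * (δ + C + K + 1) ≤ l) {s t : ℤ}
    (h : Rel γ b K s t) (hst : t ≤ s) :
    ∃ e : ℤ, 0 ≤ e ∧ (e = 0 ∨ 2 * e ≤ s - t - l) ∧ s - t - l ≤ 2 * e + 1 ∧
      Rel γ b (30 * (δ + C + K + 1)) (s - e) (s - e - l) := by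
  obtain ⟨e, h0, h1, h2, h3⟩ := contract hZ hI hγ.rev hb hl h.rev (by omega)
  refine ⟨e, h0, by omega, by omega, ?_⟩
  have := h3.unrev
  have e1 : -(-s + e) = s - e := by ring
  have e2 : -(-s + e + l) = s - e - l := by ring
  rw [e1, e2] at this
  exact this

/-- A long isometry reverses no stretch containing the centre of the reflection. -/
theorem no_rev (hZ : Hyp δ Z) (hI : Iso H Z) {γ : ℤ → Z} (hγ : IsLine γ) {b : H}
    {η : ℤ → Z} {l C K : ℕ} (hb : IsAxis b η l C) (hl : 100 * (δ + C + K + 1) ≤ l)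
    {s t s' t' : ℤ} (h : Rel γ b K s t) (h' : Rel γ b K s' t') (h1 : t' ≤ t)
    (h2 : 2 * s ≤ s + t) (h3 : s + t ≤ 2 * s') : False := by
  have := h.interp' hZ hI hγ h' (r := (s + t) / 2) (by omega) (by omega) h1
  have := hb.rel_mn hγ this
  omega

end Pool.Agent.Lib.H14E.Ax
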