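import Pool.Agent.Lib.H14E.AxB

/-!
# H14E, module D7: the alternative long overlap / flip
-/

set_option autoImplicit false

namespace Pool.Agent.Lib.H14E.Ax

open Pool.Agent.Lib.H76.Morse GeoMet

variable {Z H : Type} [GeoMet Z] [Group H] [MulAction H Z] {δ : ℕ}

/-- Improvement of constants inside a stretch where `b` translates by `l` forward. -/
theorem improve (hZ : Hyp δ Z) (hI : Iso H Z) {γ : ℤ → Z} (hγ : IsLine γ) {b : H}
    {η : ℤ → Z} {l C K : ℕ} (hb : IsAxis b η l C) (hl : 100 * (δ + C + K + 1) ≤ l)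
    {s s' r : ℤ} (h : Rel γ b K s (s + l)) (h' : Rel γ b K s' (s' + l))
    (h1 : s + 20 * (δ + C + K + 1) ≤ r) (h2 : r + 20 * (δ + C + K + 1) ≤ s') :
    Rel γ b (C + 12 * δ) r (r + l) := by
  have ip := h.interp hZ hI hγ h' (r := r) (by omega) (by omega) (by omega)
  have e5 : s + (l : ℤ) + (r - s) = r + l := by ring
  rw [e5] at ip
  -- the displacement at `γ(r)`
  have near : ∀ x : ℤ, Rel γ b K x (x + l) →
      ∃ σ : ℤ, d (γ x) (η σ) ≤ K + 5 * δ + C + 2 := by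
    intro x hx
    obtain ⟨σ, hσ⟩ := displ hZ hI hb (by omega) (γ x)
    refine ⟨σ, ?_⟩
    unfold Rel at hx
    have t1 := d_tri (γ x) (γ (x + l)) (b • γ x)
    have c1 := d_comm (γ (x + l)) (b • γ x)
    have e1 := hγ x (x + l)
    omega
  obtain ⟨σ, hσ⟩ := near s h
  obtain ⟨σ', hσ'⟩ := near s' h'
  obtain ⟨ρ, hρ⟩ := line_near hZ hγ hb.line (K := K + 5 * δ + C + 2) hσ hσ' (r := r)
    (by omega) (by omega)
  have hη := hb.line
  have e0 := hb.tr ρ
  have e1 := hη ρ (ρ + l)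
  have e2 := hI b (η ρ) (γ r)
  have c0 := d_comm (η ρ) (γ r)
  have t1 := d_tri (γ r) (η ρ) (b • η ρ)
  have t2 := d_tri (η ρ) (η (ρ + l)) (b • η ρ)
  have c2 := d_comm (η (ρ + l)) (b • η ρ)
  have t3 := d_tri (γ r) (b • η ρ) (b • γ r)
  -- `b γ(r)` is near `γ`
  have hbγ : IsLine (fun t => b • γ t) := by
    intro x y
    show d (b • γ x) (b • γ y) = _
    rw [hI]; exact hγ x y
  unfold Rel at h h' ip
  obtain ⟨ρ', hρ'⟩ := line_near hZ hbγ hγ (K := K) h h' (r := r) (by omega) (by omega)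
  have hρ'' : d (b • γ r) (γ ρ') ≤ 3 * δ := hρ'
  have f1 := hγ r ρ'
  have f2 := hγ ρ' (r + l)
  have t4 := d_tri (γ r) (b • γ r) (γ ρ')
  have t5 := d_tri (γ ρ') (b • γ r) (γ (r + l))
  have c3 := d_comm (γ ρ') (b • γ r)
  have m := hb.mn (γ r)
  have t6 := d_tri (γ r) (γ ρ') (b • γ r)
  have t7 := d_tri (b • γ r) (γ ρ') (γ (r + l))
  unfold Rel
  omega

/-- Improvement, backward. -/
theorem improve' (hZ : Hyp δ Z) (hI : Iso H Z) {γ : ℤ → Z} (hγ : IsLine γ) {b : H}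
    {η : ℤ → Z} {l C K : ℕ} (hb : IsAxis b η l C) (hl : 100 * (δ + C + K + 1) ≤ l)
    {s s' r : ℤ} (h : Rel γ b K s (s - l)) (h' : Rel γ b K s' (s' - l))
    (h1 : s + 20 * (δ + C + K + 1) ≤ r) (h2 : r + 20 * (δ + C + K + 1) ≤ s') :
    Rel γ b (C + 12 * δ) r (r - l) := by
  have g1 := h'.rev
  have g2 := h.rev
  have e1 : -(s' - (l : ℤ)) = -s' + l := by ring
  have e2 : -(s - (l : ℤ)) = -s + l := by ring
  rw [e1] at g1
  rw [e2] at g2
  have := (improve hZ hI hγ.rev hb hl g1 g2 (r := -r) (by omega) (by omega)).unrev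
  have e3 : -(-r + (l : ℤ)) = r - l := by ring
  rw [e3, neg_neg] at this
  exact this

/-- (7.2): for a good element `b` some point of `γ` is translated by `l` along `γ`. -/
theorem Good.base (hZ : Hyp δ Z) (hI : Iso H Z) {γ : ℤ → Z} {g b : H} {l C C' : ℕ}
    (hg : IsAxis g γ l C) (hl : 1000 * (δ + C + C' + 1) ≤ l) (h : Good Z g b l C') :
    ∃ s : ℤ, Rel γ b (300 * (δ + C + C' + 1)) s (s + l) ∨
      Rel γ b (300 * (δ + C + C' + 1)) s (s - l) := by
  obtain ⟨u, hu⟩ := h.conj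
  have hb : IsAxis b (fun t => u • γ t) l C := by rw [hu]; exact hg.conj hI u
  obtain ⟨v, hv1, hv2⟩ := h.gb 1
  have hT : (Tg g)^[1] b = b * g * b⁻¹ := rfl
  rw [hT] at hv2
  have hb' := hg.conj hI b
  obtain ⟨t, ht⟩ := displ hZ hI hg (by omega) v
  obtain ⟨s, hs⟩ := displ hZ hI hb' (by omega) v
  have r1 : Rel γ b (C' + 5 * δ + C + 2) s t := by
    unfold Rel
    have hs' : l + 2 * d v (b • γ s) ≤ d v ((b * g * b⁻¹) • v) + (5 * δ + C + 2) := hs
    have t1 := d_tri (b • γ s) v (γ t)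
    have c1 := d_comm (b • γ s) v
    omega
  rcases le_total s t with h0 | h0
  · obtain ⟨e, _, _, _, he⟩ := contract hZ hI hg.line hb (by omega) r1 h0
    exact ⟨s + e, Or.inl (he.mono (by omega))⟩
  · obtain ⟨e, _, _, _, he⟩ := contract' hZ hI hg.line hb (by omega) r1 h0
    exact ⟨s - e, Or.inr (he.mono (by omega))⟩

/-- `T_g(b)` is good. -/
theorem Good.next {g b : H} {l C' : ℕ} (h : Good Z g b l C') : Good Z g (Tg g b) l C' := by
  refine ⟨⟨b, rfl⟩, fun k => ?_⟩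
  have := h.gb (k + 1)
  rwa [Function.iterate_succ, Function.comp_apply] at this

/-- If `T_g(b)` translates `γ(s)` by `l` along `γ`, then two points at distance `l` of `γ` are moved by
`b` to `γ(s)` and its translate. -/
theorem pull (hZ : Hyp δ Z) (hI : Iso H Z) {γ : ℤ → Z} {g b : H} {l C K : ℕ}
    (hg : IsAxis g γ l C) (hl : 10 * (δ + C + 1) ≤ l) {s s' : ℤ}
    (h : Rel γ (Tg g b) K s s') (hs : (s - s').natAbs ≤ l) :
    ∃ r : ℤ, Rel γ b (K + 5 * δ + C + 2) r s ∧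
      Rel γ b (2 * K + 5 * δ + 2 * C + 2) (r + l) s' := by
  have hb' := hg.conj hI b
  obtain ⟨r, hr⟩ := displ hZ hI hb' hl (γ s)
  have hr' : l + 2 * d (γ s) (b • γ r) ≤ d (γ s) ((b * g * b⁻¹) • γ s) + (5 * δ + C + 2) := hr
  unfold Rel Tg at h
  have t1 := d_tri (γ s) (γ s') ((b * g * b⁻¹) • γ s)
  have c1 := d_comm (γ s') ((b * g * b⁻¹) • γ s)
  have f1 := hg.line s s'
  have c2 := d_comm (γ s) (b • γ r)
  have r1 : Rel γ b (K + 5 * δ + C + 2) r s := by
    unfold Rel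
    omega
  refine ⟨r, r1, ?_⟩
  unfold Rel
  have e1 := hI b (γ (r + l)) (g • γ r)
  have e2 := hg.tr r
  have c3 := d_comm (γ (r + l)) (g • γ r)
  have e3 : (b * g * b⁻¹) • b • γ r = b • g • γ r := by
    rw [mul_smul, inv_smul_smul, mul_smul]
  have e4 := hI (b * g * b⁻¹) (b • γ r) (γ s)
  rw [e3] at e4
  have t2 := d_tri (b • γ (r + l)) (b • g • γ r) (γ s')
  have t3 := d_tri (b • g • γ r) ((b * g * b⁻¹) • γ s) (γ s')
  omega

/-- The pair of relations from which everything is deduced. -/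
theorem Good.pair (hZ : Hyp δ Z) (hI : Iso H Z) {γ : ℤ → Z} {g b : H} {l C C' : ℕ}
    (hg : IsAxis g γ l C) (hl : 1000 * (δ + C + C' + 1) ≤ l) (h : Good Z g b l C') :
    ∃ r u : ℤ, Rel γ b (1000 * (δ + C + C' + 1)) r u ∧
      (Rel γ b (1000 * (δ + C + C' + 1)) (r + l) (u + l) ∨
        Rel γ b (1000 * (δ + C + C' + 1)) (r + l) (u - l)) := by
  obtain ⟨s, hs⟩ := h.next.base hZ hI hg hl
  rcases hs with hs | hs
  · obtain ⟨r, h1, h2⟩ := pull hZ hI hg (by omega) hs (by omega)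
    exact ⟨r, s, h1.mono (by omega), Or.inl (h2.mono (by omega))⟩
  · obtain ⟨r, h1, h2⟩ := pull hZ hI hg (by omega) hs (by omega)
    exact ⟨r, s, h1.mono (by omega), Or.inr (h2.mono (by omega))⟩

/-- `b` is a flip at `s₀`: direct case `ε = 1`. -/
def FlipP (γ : ℤ → Z) (b : H) (l K : ℕ) (s₀ : ℤ) : Prop :=
  Rel γ b K s₀ (s₀ + l) ∧ Rel γ b K (s₀ - l) (s₀ + 2 * l)

/-- `b` is a flip at `s₀`: opposite case `ε = -1`. -/
def FlipM (γ : ℤ → Z) (b : H) (l K : ℕ) (s₀ : ℤ) : Prop :=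
  Rel γ b K s₀ (s₀ - l) ∧ Rel γ b K (s₀ + l) (s₀ - 2 * l)

/-- The orientation preserving pair: `u` is near `r ± l`. -/
theorem pf_pres (hZ : Hyp δ Z) (hI : Iso H Z) {γ : ℤ → Z} (hγ : IsLine γ) {b : H}
    {η : ℤ → Z} {l C K : ℕ} (hb : IsAxis b η l C) (hl : 1000 * (δ + C + K + 1) ≤ l) {r u : ℤ}
    (h : Rel γ b K r u) (h' : Rel γ b K (r + l) (u + l)) :
    (Rel γ b (300 * (δ + C + K + 1)) r (r + l) ∧
      Rel γ b (300 * (δ + C + K + 1)) (r + l) (r + l + l)) ∨
    (Rel γ b (300 * (δ + C + K + 1)) r (r - l) ∧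
      Rel γ b (300 * (δ + C + K + 1)) (r + l) (r + l - l)) := by
  have m := hb.rel_mn hγ h
  rcases le_total r u with h0 | h0
  · left
    obtain ⟨e, e0, e1, e2, he⟩ := contract hZ hI hγ hb (by omega) h h0
    have i := he.iso hI hγ h'
    constructor
    · refine (h.shift hγ (t' := r + l)).mono ?_
      omega
    · refine (h'.shift hγ (t' := r + l + l)).mono ?_
      omega
  · right
    obtain ⟨e, e0, e1, e2, he⟩ := contract' hZ hI hγ hb (by omega) h' (by omega)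
    have i := he.iso hI hγ h
    constructor
    · refine (h.shift hγ (t' := r - l)).mono ?_
      omega
    · refine (h'.shift hγ (t' := r + l - l)).mono ?_
      omega

/-- The orientation reversing pair: `b` is a flip. -/
theorem pf_rev (hZ : Hyp δ Z) (hI : Iso H Z) {γ : ℤ → Z} (hγ : IsLine γ) {b : H}
    {η : ℤ → Z} {l C K : ℕ} (hb : IsAxis b η l C) (hl : 1000 * (δ + C + K + 1) ≤ l) {r u : ℤ}
    (h : Rel γ b K r u) (h' : Rel γ b K (r + l) (u - l)) :
    ∃ s₀ : ℤ, FlipP γ b l (500 * (δ + C + K + 1)) s₀ ∨ FlipM γ b l (500 * (δ + C + K + 1)) s₀ := by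
  have m := hb.rel_mn hγ h
  have m' := hb.rel_mn hγ h'
  rcases le_total r u with h0 | h0
  · -- `u ≥ r + 3l - K`
    have hu : r + 2 * l ≤ u := by
      by_contra hc
      exact no_rev hZ hI hγ hb (by omega) h h' (by omega) (by omega) (by omega)
    obtain ⟨e, e0, e1, e2, he⟩ := contract hZ hI hγ hb (by omega) h' (by omega)
    refine ⟨r + l + e, Or.inl ⟨he.mono (by omega), ?_⟩⟩
    have := (h.mono (K' := 30 * (δ + C + K + 1)) (by omega)).interp' hZ hI hγ he
      (r := r + e) (by omega) (by omega) (by omega)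
    have e3 : r + l + e - (l : ℤ) = r + e := by ring
    rw [e3]
    refine (this.shift hγ (t' := r + l + e + 2 * l)).mono ?_
    omega
  · obtain ⟨e, e0, e1, e2, he⟩ := contract' hZ hI hγ hb (by omega) h h0
    refine ⟨r - e, Or.inr ⟨he.mono (by omega), ?_⟩⟩
    have := he.interp' hZ hI hγ (h'.mono (K' := 30 * (δ + C + K + 1)) (by omega))
      (r := r - e + l) (by omega) (by omega) (by omega)
    have e3 : r - e - (l : ℤ) - (r - e + l - (r - e)) = r - e - 2 * l := by ring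
    rw [e3] at this
    exact this.mono (by omega)

end Pool.Agent.Lib.H14E.Ax
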