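import Pool.Agent.Lib.H14E.AxC

/-!
# H14E, module D7: no flips for ever implies infinite overlap
-/

set_option autoImplicit false
set_option maxRecDepth 20000

namespace Pool.Agent.Lib.H14E.Ax

open Pool.Agent.Lib.H76.Morse GeoMet

variable {Z H : Type} [GeoMet Z] [Group H] [MulAction H Z] {δ : ℕ}

/-- The sign is unique. -/
theorem su (hZ : Hyp δ Z) (hI : Iso H Z) {γ : ℤ → Z} (hγ : IsLine γ) {b : H}
    {η : ℤ → Z} {l C K : ℕ} (hb : IsAxis b η l C) (hl : 1000 * (δ + C + K + 1) ≤ l) {s t : ℤ}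
    (h : Rel γ b K s (s + l)) (h' : Rel γ b K t (t - l)) : False := by
  have i := h.iso hI hγ h'
  have h2 : Rel γ b (5 * K) (s + l) s := by
    have h3 := (h'.shift hγ (t' := s)).mono (K' := K + (K + K)) (by omega)
    exact (h3.shiftL hI hγ (s' := s + l)).mono (by omega)
  exact no_rev hZ hI hγ hb (by omega) (h.mono (K' := 5 * K) (by omega)) h2
    (by omega) (by omega) (by omega)

/-- A stretch of length `n` of points translated by `l`. -/
def Stretch (γ : ℤ → Z) (b : H) (l K n : ℕ) : Prop :=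
  ∃ s : ℤ, (∀ x, s ≤ x → x ≤ s + n → Rel γ b K x (x + l)) ∨
    (∀ x, s ≤ x → x ≤ s + n → Rel γ b K x (x - l))

/-- `b` is not a flip. -/
def NoFlip (γ : ℤ → Z) (b : H) (l K : ℕ) : Prop :=
  ∀ s₀ : ℤ, ¬ FlipP γ b l K s₀ ∧ ¬ FlipM γ b l K s₀

/-- From two preserving pairs of relations a stretch. -/
theorem stretch_of_pres (hZ : Hyp δ Z) (hI : Iso H Z) {γ : ℤ → Z} (hγ : IsLine γ) {b : H}
    {η : ℤ → Z} {l C K : ℕ} (hb : IsAxis b η l C) (hl : 1000000 * (δ + C + K + 1) ≤ l)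
    {r r' u u' : ℤ} (h : Rel γ b K r u) (h' : Rel γ b K (r + l) (u + l)) (g : Rel γ b K r' u')
    (g' : Rel γ b K (r' + l) (u' + l)) (hu : u ≤ u') :
    ∃ s : ℤ, ∃ n : ℕ, u' - u + 1 ≤ n ∧
      ((∀ x, s ≤ x → x ≤ s + n → Rel γ b (C + 12 * δ) x (x + l)) ∨
      (∀ x, s ≤ x → x ≤ s + n → Rel γ b (C + 12 * δ) x (x - l))) := by
  set K4 := 300 * (δ + C + K + 1) with hK4
  set K5 := 20 * (δ + C + K4 + 1) with hK5
  rcases pf_pres hZ hI hγ hb (by omega) h h' with ⟨h1, h2⟩ | ⟨h1, h2⟩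
  · rcases pf_pres hZ hI hγ hb (by omega) g g' with ⟨g1, g2⟩ | ⟨g1, g2⟩
    · have i1 := h.iso hI hγ h1
      have i2 := g.iso hI hγ g1
      refine ⟨r + K5, (r' + l - r - 2 * K5).toNat, by omega, Or.inl ?_⟩
      intro x hx1 hx2
      exact improve hZ hI hγ hb (K := K4) (by omega) h1 g2 (by omega) (by omega)
    · exact (su hZ hI hγ hb (K := K4) (by omega) h1 g1).elim
  · rcases pf_pres hZ hI hγ hb (by omega) g g' with ⟨g1, g2⟩ | ⟨g1, g2⟩
    · exact (su hZ hI hγ hb (K := K4) (by omega) g1 h1).elim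
    · have i1 := h.iso hI hγ h1
      have i2 := g.iso hI hγ g1
      refine ⟨r + K5, (r' + l - r - 2 * K5).toNat, by omega, Or.inr ?_⟩
      intro x hx1 hx2
      exact improve' hZ hI hγ hb (K := K4) (by omega) h1 g2 (by omega) (by omega)

/-- The constant of `Good.pair`. -/
def kPair (δ C C' : ℕ) : ℕ := 1000 * (δ + C + C' + 1)

/-- The constant for flips. -/
def kFlip (δ C C' : ℕ) : ℕ := 500 * (δ + C + kPair δ C C' + 1)

theorem stretch_one (hZ : Hyp δ Z) (hI : Iso H Z) {γ : ℤ → Z} {g b : H} {l C C' : ℕ}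
    (hg : IsAxis g γ l C) (hl : 10000000 * (δ + C + kPair δ C C' + 1) ≤ l)
    (h : Good Z g b l C') (hn : NoFlip γ b l (kFlip δ C C')) :
    Stretch γ b l (C + 12 * δ) 1 := by
  obtain ⟨u, hu⟩ := h.conj
  have hb : IsAxis b (fun t => u • γ t) l C := by rw [hu]; exact hg.conj hI u
  unfold kPair at *
  obtain ⟨r, v, h1, h2 | h2⟩ := h.pair hZ hI hg (by omega)
  · obtain ⟨s, n, hn, hs⟩ := stretch_of_pres hZ hI hg.line hb
      (K := 1000 * (δ + C + C' + 1)) (by omega) h1 h2 h1 h2 le_rfl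
    rcases hs with hs | hs
    · exact ⟨s, Or.inl fun x h1 h2 => hs x h1 (by omega)⟩
    · exact ⟨s, Or.inr fun x h1 h2 => hs x h1 (by omega)⟩
  · obtain ⟨s₀, h3 | h3⟩ := pf_rev hZ hI hg.line hb (by omega) h1 h2
    · exact ((hn s₀).1 h3).elim
    · exact ((hn s₀).2 h3).elim

theorem stretch_succ (hZ : Hyp δ Z) (hI : Iso H Z) {γ : ℤ → Z} {g b : H} {l C C' : ℕ}
    (hg : IsAxis g γ l C) (hl : 10000000 * (δ + C + kPair δ C C' + 1) ≤ l)
    (h : Good Z g b l C') (hn : NoFlip γ b l (kFlip δ C C')) {n : ℕ}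
    (hs : Stretch γ (Tg g b) l (C + 12 * δ) n) : Stretch γ b l (C + 12 * δ) (n + 1) := by
  obtain ⟨u, hu⟩ := h.conj
  have hb : IsAxis b (fun t => u • γ t) l C := by rw [hu]; exact hg.conj hI u
  unfold kPair at *
  obtain ⟨s, hs | hs⟩ := hs
  · obtain ⟨r, h1, h2⟩ := pull hZ hI hg (by omega) (hs s le_rfl (by omega)) (by omega)
    obtain ⟨r', g1, g2⟩ := pull hZ hI hg (by omega) (hs (s + n) (by omega) le_rfl) (by omega)
    obtain ⟨s', m, hm, hs'⟩ := stretch_of_pres hZ hI hg.line hb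
      (K := 1000 * (δ + C + C' + 1)) (by omega) (h1.mono (by omega)) (h2.mono (by omega))
      (g1.mono (by omega)) (g2.mono (by omega)) (by omega)
    rcases hs' with hs' | hs'
    · exact ⟨s', Or.inl fun x h1 h2 => hs' x h1 (by push_cast at h2; omega)⟩
    · exact ⟨s', Or.inr fun x h1 h2 => hs' x h1 (by push_cast at h2; omega)⟩
  · obtain ⟨r, h1, h2⟩ := pull hZ hI hg (by omega) (hs s le_rfl (by omega)) (by omega)
    obtain ⟨s₀, h3 | h3⟩ := pf_rev hZ hI hg.line hb (K := 1000 * (δ + C + C' + 1)) (by omega)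
      (h1.mono (by omega)) (h2.mono (by omega))
    · exact ((hn s₀).1 h3).elim
    · exact ((hn s₀).2 h3).elim

/-- `T_g^k(b)` is good. -/
theorem Good.iter {g b : H} {l C' : ℕ} (h : Good Z g b l C') (k : ℕ) :
    Good Z g ((Tg g)^[k] b) l C' := by
  induction k with
  | zero => exact h
  | succ k ih => rw [Function.iterate_succ_apply']; exact ih.next

theorem stretch_all (hZ : Hyp δ Z) (hI : Iso H Z) {γ : ℤ → Z} {g b : H} {l C C' : ℕ}
    (hg : IsAxis g γ l C) (hl : 10000000 * (δ + C + kPair δ C C' + 1) ≤ l)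
    (h : Good Z g b l C') (hn : ∀ k, NoFlip γ ((Tg g)^[k] b) l (kFlip δ C C')) (n : ℕ) :
    ∀ k, Stretch γ ((Tg g)^[k] b) l (C + 12 * δ) (n + 1) := by
  induction n with
  | zero => exact fun k => stretch_one hZ hI hg hl (h.iter k) (hn k)
  | succ n ih =>
    intro k
    have := ih (k + 1)
    rw [Function.iterate_succ_apply'] at this
    exact stretch_succ hZ hI hg hl (h.iter k) (hn k) this

/-- Arbitrarily long stretches give a ray. -/
theorem ray_of_stretch (hZ : Hyp δ Z) (hI : Iso H Z) {γ : ℤ → Z} {g b : H} {η : ℤ → Z}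
    {l C K : ℕ} (hg : IsAxis g γ l C) (hb : IsAxis b η l C)
    (hl : 1000 * (δ + C + K + 1) ≤ l) (h : ∀ n : ℕ, Stretch γ b l K (n + 1)) :
    RayShort γ (10 * K + δ + C) g b := by
  -- the general step: from points in arbitrarily far away
  have gen : ∀ (σ : ℤ), (σ = l ∨ σ = -l) →
      (∀ n : ℕ, ∃ s : ℤ, ∀ x, s ≤ x → x ≤ s + n → Rel γ b K x (x + σ)) →
      ∃ s₀ : ℤ, (∀ x, s₀ ≤ x → Rel γ b (10 * K + δ) x (x + σ)) ∨
        (∀ x, x ≤ s₀ → Rel γ b (10 * K + δ) x (x + σ)) := by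
    intro σ _ hn
    obtain ⟨x₀, hx₀⟩ := hn 0
    have hx0 := hx₀ x₀ le_rfl (by simp)
    refine ⟨x₀, ?_⟩
    by_cases hA : ∀ m : ℕ, ∃ y, x₀ + m ≤ y ∧ Rel γ b K y (y + σ)
    · left
      intro x hx
      obtain ⟨y, hy, hy'⟩ := hA (x - x₀).toNat
      have := hx0.interp hZ hI hg.line hy' (r := x) (by omega) (by omega) (by omega)
      have e : x₀ + σ + (x - x₀) = x + σ := by ring
      rwa [e] at this
    · right
      push Not at hA
      obtain ⟨m, hm⟩ := hA
      intro x hx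
      obtain ⟨s, hs⟩ := hn ((x₀ - x).toNat + m)
      have h1 : s ≤ x := by
        by_contra hc
        have h2 := hs (s + ((x₀ - x).toNat + m : ℕ)) (by omega) le_rfl
        exact hm _ (by push_cast; omega) h2
      have h2 := hs s le_rfl (by omega)
      have := h2.interp hZ hI hg.line hx0 (r := x) (by omega) (by omega) (by omega)
      have e : s + σ + (x - s) = x + σ := by ring
      rwa [e] at this
  by_cases hP : ∀ n : ℕ, ∃ s : ℤ, ∀ x, s ≤ x → x ≤ s + n → Rel γ b K x (x + l)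
  · obtain ⟨s₀, hs⟩ := gen l (Or.inl rfl) hP
    refine ⟨b * g⁻¹, Or.inr rfl, ?_⟩
    have tr : ∀ x, Rel γ b (10 * K + δ) (x - l) (x - l + l) →
        d ((b * g⁻¹) • γ x) (γ x) ≤ 10 * K + δ + C := by
      intro x hx
      have h1 := (hg.rel (x - l)).inv hI
      have e : x - (l : ℤ) + l = x := by ring
      rw [e] at h1 hx
      have := h1.comp hI hx
      exact this.mono (by omega)
    rcases hs with hs | hs
    · exact ⟨s₀ + l, Or.inl fun x hx => tr x (hs _ (by omega))⟩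
    · exact ⟨s₀ + l, Or.inr fun x hx => tr x (hs _ (by omega))⟩
  · -- then all stretches are backward
    have hM : ∀ n : ℕ, ∃ s : ℤ, ∀ x, s ≤ x → x ≤ s + n → Rel γ b K x (x + (-(l : ℤ))) := by
      push Not at hP
      obtain ⟨m, hm⟩ := hP
      intro n
      obtain ⟨s, hs | hs⟩ := h (n + m)
      · obtain ⟨x, hx1, hx2, hx3⟩ := hm s
        exact (hx3 (hs x hx1 (by omega))).elim
      · refine ⟨s, fun x h1 h2 => ?_⟩
        have := hs x h1 (by omega)
        exact this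
    obtain ⟨s₀, hs⟩ := gen (-l) (Or.inr rfl) hM
    refine ⟨b * g, Or.inl rfl, ?_⟩
    have tr : ∀ x, Rel γ b (10 * K + δ) (x + l) (x + l + -(l : ℤ)) →
        d ((b * g) • γ x) (γ x) ≤ 10 * K + δ + C := by
      intro x hx
      have h1 := hg.rel x
      have e : x + (l : ℤ) + -(l : ℤ) = x := by ring
      rw [e] at hx
      have := h1.comp hI hx
      exact this.mono (by omega)
    rcases hs with hs | hs
    · exact ⟨s₀, Or.inl fun x hx => tr x (hs _ (by omega))⟩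
    · exact ⟨s₀ - l, Or.inr fun x hx => tr x (hs _ (by omega))⟩

end Pool.Agent.Lib.H14E.Ax
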