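import Pool.Agent.Lib.H14E.Core

/-!
# H14E, module D7: long isometries of a hyperbolic space (definitions)

`Z` any `GeoMet` with `Hyp δ Z`, `H` acts by isometries.
-/

set_option autoImplicit false

namespace Pool.Agent.Lib.H14E.Ax

open Pool.Agent.Lib.H76.Morse GeoMet

/-- `H` acts on `Z` by isometries. -/
def Iso (H Z : Type) [GeoMet Z] [Group H] [MulAction H Z] : Prop :=
  ∀ (h : H) (x y : Z), d (h • x) (h • y) = d x y

/-- A bi-infinite geodesic. -/
def IsLine {Z : Type} [GeoMet Z] (γ : ℤ → Z) : Prop :=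
  ∀ s t : ℤ, d (γ s) (γ t) = (s - t).natAbs

variable {Z H : Type} [GeoMet Z] [Group H] [MulAction H Z]

/-- `γ` is an axis of `g`: a geodesic line, `g` translates by `l` up to `C`, and `l` is a lower
bound of the displacement of `g`. -/
structure IsAxis (g : H) (γ : ℤ → Z) (l C : ℕ) : Prop where
  line : IsLine γ
  tr : ∀ t : ℤ, d (g • γ t) (γ (t + l)) ≤ C
  mn : ∀ x : Z, l ≤ d x (g • x)

/-- `b γ(s)` is near `γ(t)`. -/
def Rel (γ : ℤ → Z) (b : H) (K : ℕ) (s t : ℤ) : Prop := d (b • γ s) (γ t) ≤ K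

/-- `h` fixes `γ(p)` and turns `γ(p + l)` to `γ(p - l)`, up to `K`. -/
def Flip (γ : ℤ → Z) (l K : ℕ) (p : ℤ) (h : H) : Prop :=
  Rel γ h K p p ∧ Rel γ h K (p + l) (p - l)

/-- `b` is conjugate to `g`, and every `T_g^k(b)` has displacement at most `l + C'` at a point where
`g` also has. -/
structure Good (Z : Type) {H : Type} [GeoMet Z] [Group H] [MulAction H Z] (g b : H)
    (l C' : ℕ) : Prop where
  conj : ∃ u : H, b = u * g * u⁻¹
  gb : ∀ k : ℕ, ∃ v : Z, d v (g • v) ≤ l + C' ∧ d v ((Tg g)^[k] b • v) ≤ l + C'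

/-- `b g` or `b g⁻¹` moves the points of a ray of `γ` by at most `K`. -/
def RayShort (γ : ℤ → Z) (K : ℕ) (g b : H) : Prop :=
  ∃ h : H, (h = b * g ∨ h = b * g⁻¹) ∧ ∃ s₀ : ℤ,
    (∀ s, s₀ ≤ s → d (h • γ s) (γ s) ≤ K) ∨ (∀ s, s ≤ s₀ → d (h • γ s) (γ s) ≤ K)

/-- No near-inversion of a segment of length at least `3l/2`. -/
def NNI (Z H : Type) [GeoMet Z] [Group H] [MulAction H Z] (l K : ℕ) : Prop :=
  ∀ (e : H) (x y : Z), 3 * l ≤ 2 * d x y → d (e • x) y ≤ K → d (e • y) x ≤ K → False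

/-! Elementary facts. -/

theorem Rel.mono {γ : ℤ → Z} {b : H} {K K' : ℕ} {s t : ℤ} (h : Rel γ b K s t) (hK : K ≤ K') :
    Rel γ b K' s t := le_trans h hK

theorem Iso.inv (hI : Iso H Z) (h : H) (x y : Z) : d (h⁻¹ • x) y = d x (h • y) := by
  have := hI h (h⁻¹ • x) y
  rw [smul_inv_smul] at this
  exact this.symm

/-- Composition of relations. -/
theorem Rel.comp (hI : Iso H Z) {γ : ℤ → Z} {b c : H} {K K' : ℕ} {s t u : ℤ}
    (h : Rel γ b K s t) (h' : Rel γ c K' t u) : Rel γ (c * b) (K + K') s u := by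
  unfold Rel at *
  have h1 := d_tri ((c * b) • γ s) (c • γ t) (γ u)
  have h2 : d ((c * b) • γ s) (c • γ t) = d (b • γ s) (γ t) := by
    rw [mul_smul]; exact hI c _ _
  omega

/-- Inverse of a relation. -/
theorem Rel.inv (hI : Iso H Z) {γ : ℤ → Z} {b : H} {K : ℕ} {s t : ℤ}
    (h : Rel γ b K s t) : Rel γ b⁻¹ K t s := by
  unfold Rel at *
  rw [hI.inv, d_comm]
  exact h

/-- Changing the target. -/
theorem Rel.shift {γ : ℤ → Z} (hγ : IsLine γ) {b : H} {K : ℕ} {s t t' : ℤ}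
    (h : Rel γ b K s t) : Rel γ b (K + (t - t').natAbs) s t' := by
  unfold Rel at *
  have h1 := d_tri (b • γ s) (γ t) (γ t')
  have h2 := hγ t t'
  omega

/-- Changing the source. -/
theorem Rel.shiftL (hI : Iso H Z) {γ : ℤ → Z} (hγ : IsLine γ) {b : H} {K : ℕ} {s s' t : ℤ}
    (h : Rel γ b K s t) : Rel γ b (K + (s - s').natAbs) s' t := by
  unfold Rel at *
  have h1 := d_tri (b • γ s') (b • γ s) (γ t)
  have h2 := hγ s' s
  have h3 := hI b (γ s') (γ s)
  omega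

/-- Coarse isometry. -/
theorem Rel.iso (hI : Iso H Z) {γ : ℤ → Z} (hγ : IsLine γ) {b : H} {K K' : ℕ}
    {s t s' t' : ℤ} (h : Rel γ b K s t) (h' : Rel γ b K' s' t') :
    (s - s').natAbs ≤ (t - t').natAbs + (K + K') ∧
    (t - t').natAbs ≤ (s - s').natAbs + (K + K') := by
  unfold Rel at *
  have e1 := hγ s s'
  have e2 := hγ t t'
  have e3 := hI b (γ s) (γ s')
  have t1 := d_tri (b • γ s) (γ t) (b • γ s')
  have t2 := d_tri (γ t) (γ t') (b • γ s')
  have t3 := d_tri (γ t) (b • γ s) (γ t')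
  have t4 := d_tri (b • γ s) (b • γ s') (γ t')
  rw [d_comm (γ t') (b • γ s')] at t2
  rw [d_comm (γ t) (b • γ s)] at t3
  omega

/-- Minimal displacement. -/
theorem IsAxis.rel_mn {g : H} {η γ : ℤ → Z} {l C K : ℕ} (hη : IsAxis g η l C) (hγ : IsLine γ)
    {s t : ℤ} (h : Rel γ g K s t) : l ≤ (s - t).natAbs + K := by
  unfold Rel at h
  have h1 := hη.mn (γ s)
  have h2 := d_tri (γ s) (γ t) (g • γ s)
  rw [d_comm (γ t) (g • γ s)] at h2
  have h3 := hγ s t
  omega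

/-- An axis of a conjugate. -/
theorem IsAxis.conj (hI : Iso H Z) {g : H} {γ : ℤ → Z} {l C : ℕ} (h : IsAxis g γ l C) (u : H) :
    IsAxis (u * g * u⁻¹) (fun t => u • γ t) l C := by
  refine ⟨?_, ?_, ?_⟩
  · intro s t
    show d (u • γ s) (u • γ t) = _
    rw [hI]; exact h.line s t
  · intro t
    show d ((u * g * u⁻¹) • u • γ t) (u • γ (t + l)) ≤ C
    rw [mul_smul, inv_smul_smul, mul_smul, hI]
    exact h.tr t
  · intro x
    have h1 := h.mn (u⁻¹ • x)
    have h2 := hI u (u⁻¹ • x) (g • u⁻¹ • x)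
    rw [smul_inv_smul] at h2
    rw [mul_smul, mul_smul, h2]
    exact h1

theorem IsAxis.rel {g : H} {γ : ℤ → Z} {l C : ℕ} (h : IsAxis g γ l C) (t : ℤ) :
    Rel γ g C t (t + l) := h.tr t

end Pool.Agent.Lib.H14E.Ax
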