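import Pool.Agent.Lib.H14E.AxD

/-!
# H14E, module D7: after a flip comes a flip
-/

set_option autoImplicit false
set_option maxRecDepth 20000

namespace Pool.Agent.Lib.H14E.Ax

open Pool.Agent.Lib.H76.Morse GeoMet

variable {Z H : Type} [GeoMet Z] [Group H] [MulAction H Z] {δ : ℕ}

/-- No reversed stretch beginning at a point which is translated by `l` (forward). -/
theorem no_rev_fwd (hZ : Hyp δ Z) (hI : Iso H Z) {γ : ℤ → Z} (hγ : IsLine γ) {b : H}
    {η : ℤ → Z} {l C K : ℕ} (hb : IsAxis b η l C) (hl : 1000 * (δ + C + K + 1) ≤ l)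
    {s s' t' : ℤ} (h : Rel γ b K s (s + l)) (h' : Rel γ b K s' t')
    (h0 : s + 20 * (δ + K + 1) ≤ s') (h1 : t' ≤ s + l) : False := by
  have := h.interp' hZ hI hγ h' (r := s + 20 * (δ + K + 1)) (by omega) (by omega) h1
  have := hb.rel_mn hγ this
  omega

/-- No reversed stretch ending at a point which is translated by `l` (backward). -/
theorem no_rev_bwd (hZ : Hyp δ Z) (hI : Iso H Z) {γ : ℤ → Z} (hγ : IsLine γ) {b : H}
    {η : ℤ → Z} {l C K : ℕ} (hb : IsAxis b η l C) (hl : 1000 * (δ + C + K + 1) ≤ l)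
    {s s' t' : ℤ} (h : Rel γ b K s (s - l)) (h' : Rel γ b K s' t')
    (h0 : s' + 20 * (δ + K + 1) ≤ s) (h1 : s - l ≤ t') : False := by
  have h2 : Rel γ b (10 * K + δ) (s - 20 * (δ + K + 1)) (s - l + 20 * (δ + K + 1)) := by
    have h3 := h'.interp' hZ hI hγ h (r := s - 20 * (δ + K + 1)) (by omega) (by omega) h1
    have i := h.iso hI hγ h'
    have : Rel γ b (10 * K + δ + 2 * K) (s - 20 * (δ + K + 1)) (s - l + 20 * (δ + K + 1)) := by
      refine (h3.shift hγ (t' := s - l + 20 * (δ + K + 1))).mono ?_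
      omega
    have h4 := hb.rel_mn hγ this
    omega
  have := hb.rel_mn hγ h2
  omega

/-- The two cases in which `h` is the fixing part of `b`, and the next element `c` (up to
conjugation by a power of `g`). -/
def Next (g b h c : H) : Prop :=
  (b = h * g⁻¹ ∧ c = g * h * g * h⁻¹ * g⁻¹) ∨ (b = g * h⁻¹ ∧ c = h⁻¹ * g * h)

/-- (1) `c` moves `γ(p+l)` to `γ(p)`. -/
theorem next_rel (hI : Iso H Z) {γ : ℤ → Z} {g b h c : H} {l C K : ℕ}
    (hg : IsAxis g γ l C) (hn : Next g b h c) {p : ℤ} (hf : Flip γ l K p h) :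
    Rel γ c (2 * K + 3 * C) (p + l) p := by
  obtain ⟨h1, h2⟩ := hf
  have g1 := hg.rel p
  have g2 := hg.rel (p - l)
  have e : p - (l : ℤ) + l = p := by ring
  rw [e] at g2
  rcases hn with ⟨_, hc⟩ | ⟨_, hc⟩
  · have := ((((g1.inv hI).comp hI (h1.inv hI)).comp hI g1).comp hI h2).comp hI g2
    rw [hc]
    have e2 : g * (h * (g * (h⁻¹ * g⁻¹))) = g * h * g * h⁻¹ * g⁻¹ := by group
    rw [e2] at this
    exact this.mono (by omega)
  · have := (h2.comp hI g2).comp hI (h1.inv hI)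
    rw [hc]
    have e2 : h⁻¹ * (g * h) = h⁻¹ * g * h := by group
    rw [e2] at this
    exact this.mono (by omega)

/-- `b` translates `γ(p)` forward (`b = g h⁻¹`), `γ(p+l)` backward (`b = h g⁻¹`). -/
theorem next_b (hI : Iso H Z) {γ : ℤ → Z} {g h : H} {l C K : ℕ}
    (hg : IsAxis g γ l C) {p : ℤ} (hf : Rel γ h K p p) :
    Rel γ (g * h⁻¹) (K + C) p (p + l) ∧ Rel γ (h * g⁻¹) (K + C) (p + l) p := by
  have g1 := hg.rel p
  exact ⟨(hf.inv hI).comp hI g1, ((g1.inv hI).comp hI hf).mono (by omega)⟩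

/-- A long reversed stretch of `h` gives a near-inversion. -/
theorem nni_of_rev (hZ : Hyp δ Z) (hI : Iso H Z) {γ : ℤ → Z} {g h : H} {l C K K' : ℕ}
    (hg : IsAxis g γ l C) {p x y : ℤ} (h1 : Rel γ h K p p) (h2 : Rel γ h K x y)
    (hx : p + 2 * l ≤ x + 100 * (K + 1)) (hy : y ≤ p)
    (hl : 1000 * (δ + C + K + 1) ≤ l)
    (hK : 1000 * (δ + C + K + 1) ≤ K') (hN : NNI Z H l K') : False := by
  have key : Rel γ h (10 * K + δ + 400 * (K + 1)) (p + 2 * l) (p - 2 * l) := by
    by_cases hh : x ≤ p + 2 * l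
    · have i := h1.iso hI hg.line h2
      have a := (h2.shift hg.line (t' := p - 2 * l)).shiftL hI hg.line (s' := p + 2 * l)
      exact a.mono (by omega)
    · have a := h1.interp' hZ hI hg.line h2 (r := p + 2 * l) (by omega) (by omega) hy
      have e : p - (p + 2 * (l : ℤ) - p) = p - 2 * l := by ring
      rw [e] at a
      exact a.mono (by omega)
  have g1 := hg.rel p
  have g2 := hg.rel (p + l)
  have g3 := hg.rel (p - 2 * l)
  have g4 := hg.rel (p - l)
  have e1 : p - 2 * (l : ℤ) + l = p - l := by ring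
  have e2 : p - (l : ℤ) + l = p := by ring
  have e3 : p + (l : ℤ) + l = p + 2 * l := by ring
  rw [e1] at g3
  rw [e2] at g4
  rw [e3] at g2
  have a1 := (h1.comp hI g1).comp hI g2
  have a2 := (key.comp hI g3).comp hI g4
  refine hN (g * (g * h)) (γ p) (γ (p + 2 * l)) ?_ (a1.mono (by omega)) (a2.mono (by omega))
  rw [hg.line]
  omega

/-- Positions, case `b = h g⁻¹`. -/
theorem next_pos_M (hZ : Hyp δ Z) (hI : Iso H Z) {γ : ℤ → Z} {g h : H}
    {l C K K2 : ℕ} (hg : IsAxis g γ l C) (hl : 1000 * (δ + C + K + K2 + 1) ≤ l) {p : ℤ}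
    (hf : Flip γ l K p h) {x : ℤ} (hx : Rel γ (Tg g (g * h)) K2 x (x - l)) :
    Rel γ h (10 * (δ + C + K + K2 + 1)) (2 * p + l - x) (x - l) ∧
      Rel γ h (10 * (δ + C + K + K2 + 1)) (2 * p + 2 * l - x) (x - 2 * l) := by
  obtain ⟨hf1, hf2⟩ := hf
  obtain ⟨y, y1, y2⟩ := pull hZ hI hg (by omega) hx (by omega)
  have g1 := (hg.rel (x - l)).inv hI
  have g2 := (hg.rel (x - 2 * l)).inv hI
  have e1 : x - (l : ℤ) + l = x := by ring
  have e2 : x - 2 * (l : ℤ) + l = x - l := by ring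
  rw [e1] at g1
  rw [e2] at g2
  have z1 := y1.comp hI g1
  have z2 := y2.comp hI g2
  have e3 : g⁻¹ * (g * h) = h := by group
  rw [e3] at z1 z2
  have i1 := z1.iso hI hg.line hf1
  have i2 := z2.iso hI hg.line hf1
  have i3 := z1.iso hI hg.line hf2
  have i4 := z2.iso hI hg.line hf2
  constructor
  · exact (z1.shiftL hI hg.line (s' := 2 * p + l - x)).mono (by omega)
  · exact (z2.shiftL hI hg.line (s' := 2 * p + 2 * l - x)).mono (by omega)

/-- Positions, case `b = g h⁻¹`. -/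
theorem next_pos_P (hZ : Hyp δ Z) (hI : Iso H Z) {γ : ℤ → Z} {g h : H}
    {l C K K2 : ℕ} (hg : IsAxis g γ l C) (hl : 1000 * (δ + C + K + K2 + 1) ≤ l) {p : ℤ}
    (hf : Flip γ l K p h) {x : ℤ} (hx : Rel γ (Tg g h⁻¹) K2 x (x - l)) :
    Rel γ h (10 * (δ + C + K + K2 + 1)) x (2 * p - x) ∧
      Rel γ h (10 * (δ + C + K + K2 + 1)) (x - l) (2 * p - x + l) := by
  obtain ⟨hf1, hf2⟩ := hf
  obtain ⟨y, y1, y2⟩ := pull hZ hI hg (by omega) hx (by omega)
  have z1 := y1.inv hI
  have z2 := y2.inv hI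
  rw [inv_inv] at z1 z2
  have i1 := z1.iso hI hg.line hf1
  have i2 := z2.iso hI hg.line hf1
  have i3 := z1.iso hI hg.line hf2
  have i4 := z2.iso hI hg.line hf2
  constructor
  · exact (z1.shift hg.line (t' := 2 * p - x)).mono (by omega)
  · exact (z2.shift hg.line (t' := 2 * p - x + l)).mono (by omega)

/-- Long overlap after a flip is impossible. -/
theorem next_long (hZ : Hyp δ Z) (hI : Iso H Z) {γ : ℤ → Z} {g b h c : H}
    {l C K K2 K' : ℕ} (hg : IsAxis g γ l C)
    (hl : 10000000 * (δ + C + K + K2 + 1) ≤ l)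
    (hK : 10000000 * (δ + C + K + K2 + 1) ≤ K') (hbc : ∃ u : H, b = u * g * u⁻¹)
    (hn : Next g b h c) {p : ℤ} (hf : Flip γ l K p h)
    (hN : NNI Z H l K') {r : ℤ} (q1 : Rel γ c K2 r (r - l))
    (q2 : Rel γ c K2 (r + l) (r + l - l)) : False := by
  obtain ⟨u, hu⟩ := hbc
  have hb : IsAxis b (fun t => u • γ t) l C := by rw [hu]; exact hg.conj hI u
  have hb2 := next_b hI hg hf.1
  have hf1 := hf.1
  obtain ⟨K3, hK3⟩ : ∃ K3, K3 = 10 * (δ + C + K + K2 + 1) := ⟨_, rfl⟩
  rcases hn with ⟨hb', hc'⟩ | ⟨hb', hc'⟩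
  · have ec : c = Tg g (g * h) := by rw [hc']; unfold Tg; group
    rw [ec] at q1 q2
    obtain ⟨a1, a2⟩ := next_pos_M hZ hI hg (by omega) hf q1
    obtain ⟨a3, a4⟩ := next_pos_M hZ hI hg (by omega) hf q2
    rw [← hK3] at a1 a2 a3 a4
    have hr1 : r < p + 20 * (δ + (K3 + C) + 1) := by
      by_contra hc
      have g1 := (hg.rel (2 * p - r)).inv hI
      have e1 : 2 * p + (l : ℤ) - (r + l) = 2 * p - r := by ring
      have e2 : r + (l : ℤ) - l = r := by ring
      rw [e1, e2] at a3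
      have b1 := g1.comp hI a3
      rw [← hb'] at b1
      have b2 := hb2.2
      rw [← hb'] at b2
      have e3 : (p : ℤ) = p + l - l := by ring
      rw [e3] at b2
      have e4 : p + (l : ℤ) - l + l = p + l := by ring
      rw [e4] at b2
      exact no_rev_bwd hZ hI hg.line hb (K := K3 + C) (by omega) (b2.mono (by omega))
        (b1.mono (by omega)) (by omega) (by omega)
    exact nni_of_rev hZ hI hg (K := 21 * (K3 + δ + C + 1)) (hf1.mono (by omega))
      (a2.mono (by omega)) (by omega) (by omega) (by omega) (by omega) hN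
  · have ec : c = Tg g h⁻¹ := by rw [hc']; unfold Tg; group
    rw [ec] at q1 q2
    obtain ⟨a1, a2⟩ := next_pos_P hZ hI hg (by omega) hf q1
    obtain ⟨a3, a4⟩ := next_pos_P hZ hI hg (by omega) hf q2
    rw [← hK3] at a1 a2 a3 a4
    have hr1 : p + l < r + 20 * (δ + (K3 + C) + 1) := by
      by_contra hc
      have g1 := hg.rel (r - l)
      have b1 := (a2.inv hI).comp hI g1
      rw [← hb'] at b1
      have e1 : r - (l : ℤ) + l = r := by ring
      rw [e1] at b1
      have b2 := hb2.1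
      rw [← hb'] at b2
      exact no_rev_fwd hZ hI hg.line hb (K := K3 + C) (by omega) (b2.mono (by omega))
        (b1.mono (by omega)) (by omega) (by omega)
    exact nni_of_rev hZ hI hg (K := 21 * (K3 + δ + C + 1)) (hf1.mono (by omega))
      (a3.mono (by omega)) (by omega) (by omega) (by omega) (by omega) hN

/-- After a flip comes a flip. -/
theorem next_flip (hZ : Hyp δ Z) (hI : Iso H Z) {γ : ℤ → Z} {g b h c : H}
    {l C C' K K' K1 K2 : ℕ} (hg : IsAxis g γ l C)
    (hK1 : K1 = 1000 * (δ + C + C' + K + 1)) (hK2 : K2 = 500 * (δ + C + K1 + 1))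
    (hl : 10000000 * (δ + C + K + K2 + 1) ≤ l)
    (hK : 10000000 * (δ + C + K + K2 + 1) ≤ K') (hbc : ∃ u : H, b = u * g * u⁻¹)
    (hn : Next g b h c) (hc : Good Z g c l C') {p : ℤ} (hf : Flip γ l K p h)
    (hN : NNI Z H l K') : Flip γ l K' p (c * g) := by
  obtain ⟨v, hv⟩ := hc.conj
  have hcx : IsAxis c (fun t => v • γ t) l C := by rw [hv]; exact hg.conj hI v
  have hr := next_rel hI hg hn hf
  have hrr : Rel γ c K2 (p + l) (p + l - l) := by
    have e : p + (l : ℤ) - l = p := by ring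
    rw [e]
    exact hr.mono (by omega)
  obtain ⟨r, w, p1, p2 | p2⟩ := hc.pair hZ hI hg (by omega)
  · -- preserving: excluded
    exfalso
    rcases pf_pres hZ hI hg.line hcx (K := K1) (by omega) (p1.mono (by omega))
      (p2.mono (by omega)) with ⟨q1, q2⟩ | ⟨q1, q2⟩
    · exact su hZ hI hg.line hcx (K := K2) (by omega) (q1.mono (by omega)) hrr
    · exact next_long hZ hI hg hl hK hbc hn hf hN (q1.mono (by omega)) (q2.mono (by omega))
  · -- reversing: `c` is a flip
    obtain ⟨s₀, ⟨q1, _⟩ | ⟨q1, q2⟩⟩ := pf_rev hZ hI hg.line hcx (K := K1) (by omega)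
      (p1.mono (by omega)) (p2.mono (by omega))
    · rw [← hK2] at q1
      exact (su hZ hI hg.line hcx (K := K2) (by omega) q1 hrr).elim
    · rw [← hK2] at q1 q2
      have i1 := hr.iso hI hg.line q1
      have i2 := hr.iso hI hg.line q2
      have q3 : Rel γ c (100 * K2) (p + 2 * l) (p - l) :=
        ((q2.shift hg.line (t' := p - l)).shiftL hI hg.line (s' := p + 2 * l)).mono (by omega)
      have g1 := hg.rel p
      have g2 := hg.rel (p + l)
      have e3 : p + (l : ℤ) + l = p + 2 * l := by ring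
      rw [e3] at g2
      exact ⟨(g1.comp hI hr).mono (by omega), (g2.comp hI q3).mono (by omega)⟩

end Pool.Agent.Lib.H14E.Ax
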