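import Pool.Agent.Lib.H14E.AxE

/-!
# H14E, module D7: infinite overlap or flips, for an isometry with an axis
-/

set_option autoImplicit false
set_option maxRecDepth 20000

namespace Pool.Agent.Lib.H14E.Ax

open Pool.Agent.Lib.H76.Morse GeoMet

variable {Z H : Type} [GeoMet Z] [Group H] [MulAction H Z] {δ : ℕ}

theorem NNI.mono {l K K' : ℕ} (h : NNI Z H l K) (hK : K' ≤ K) : NNI Z H l K' :=
  fun e x y h1 h2 h3 => h e x y h1 (h2.trans hK) (h3.trans hK)

theorem Tg_conj_iter {g : H} (u b : H) (hu : u * g = g * u) (k : ℕ) :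
    (Tg g)^[k] (u * b * u⁻¹) = u * (Tg g)^[k] b * u⁻¹ := by
  induction k with
  | zero => rfl
  | succ k ih =>
    rw [Function.iterate_succ_apply', Function.iterate_succ_apply', ih]
    generalize (Tg g)^[k] b = x
    have e : u⁻¹ * g * u = g := by rw [mul_assoc, ← hu, inv_mul_cancel_left]
    show u * x * u⁻¹ * g * (u * x * u⁻¹)⁻¹ = u * (x * g * x⁻¹) * u⁻¹
    calc u * x * u⁻¹ * g * (u * x * u⁻¹)⁻¹
        = u * x * (u⁻¹ * g * u) * x⁻¹ * u⁻¹ := by group
      _ = _ := by rw [e]; group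

theorem Good.conjg (hI : Iso H Z) {g b : H} {l C' : ℕ} (h : Good Z g b l C') (u : H)
    (hu : u * g = g * u) : Good Z g (u * b * u⁻¹) l C' := by
  obtain ⟨v, hv⟩ := h.conj
  refine ⟨⟨u * v, by rw [hv]; group⟩, fun k => ?_⟩
  obtain ⟨x, h1, h2⟩ := h.gb k
  refine ⟨u • x, ?_, ?_⟩
  · rw [← mul_smul, ← hu, mul_smul, hI]
    exact h1
  · rw [Tg_conj_iter u b hu, ← mul_smul, inv_mul_cancel_right, mul_smul, hI]
    exact h2

/-- The sequence of the fixing parts. -/
def hseq (g h0 : H) : ℕ → H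
  | 0 => h0
  | i + 1 => g * hseq g h0 i * g * (hseq g h0 i)⁻¹

/-- The growth of constants. -/
def kNext (δ C C' K : ℕ) : ℕ :=
  10000000 * (δ + C + K + 500 * (δ + C + 1000 * (δ + C + C' + K + 1) + 1) + 1)

theorem le_kNext (δ C C' K : ℕ) : K ≤ kNext δ C C' K := by unfold kNext; omega

theorem kNext_iter_mono (δ C C' K : ℕ) {i j : ℕ} (h : i ≤ j) :
    (kNext δ C C')^[i] K ≤ (kNext δ C C')^[j] K := by
  induction h with
  | refl => exact le_rfl
  | step _ ih => rw [Function.iterate_succ_apply']; exact ih.trans (le_kNext _ _ _ _)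

theorem hseq_flip (hZ : Hyp δ Z) (hI : Iso H Z) {γ : ℤ → Z} {g h0 : H}
    {l C C' K0 : ℕ} (hg : IsAxis g γ l C) (hgood : Good Z g (h0 * g⁻¹) l C') {p : ℤ}
    (hf : Flip γ l K0 p h0) (n : ℕ) (hl : (kNext δ C C')^[n] K0 ≤ l)
    (hN : NNI Z H l ((kNext δ C C')^[n] K0)) :
    ∀ i, i ≤ n → Flip γ l ((kNext δ C C')^[i] K0) p (hseq g h0 i) ∧
      Good Z g (hseq g h0 i * g⁻¹) l C' := by
  intro i
  induction i with
  | zero => exact fun _ => ⟨hf, hgood⟩
  | succ i ih =>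
    intro hi
    obtain ⟨f, gd⟩ := ih (by omega)
    obtain ⟨h, hh⟩ : ∃ h, h = hseq g h0 i := ⟨_, rfl⟩
    rw [← hh] at f gd
    have e0 : hseq g h0 (i + 1) = g * h * g * h⁻¹ := by rw [hh]; rfl
    have e1 : g * h * g * h⁻¹ * g⁻¹ = g * Tg g (h * g⁻¹) * g⁻¹ := by unfold Tg; group
    have gd' : Good Z g (g * h * g * h⁻¹ * g⁻¹) l C' := by
      rw [e1]; exact gd.next.conjg hI g rfl
    have m1 : (kNext δ C C')^[i + 1] K0 ≤ (kNext δ C C')^[n] K0 :=
      kNext_iter_mono δ C C' K0 hi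
    rw [e0]
    refine ⟨?_, gd'⟩
    obtain ⟨K, hK⟩ : ∃ K, K = (kNext δ C C')^[i] K0 := ⟨_, rfl⟩
    have e2 : (kNext δ C C')^[i + 1] K0 = kNext δ C C' K := by
      rw [Function.iterate_succ_apply', hK]
    rw [← hK] at f
    rw [e2] at m1 ⊢
    have hN' := hN.mono m1
    have m2 := m1.trans hl
    unfold kNext at m2
    have := next_flip hZ hI hg (h := h) (b := h * g⁻¹) (K' := kNext δ C C' K) rfl rfl
      (by exact m2) (by unfold kNext; exact le_rfl) gd.conj (Or.inl ⟨rfl, rfl⟩) gd' f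
      hN'
    rw [inv_mul_cancel_right] at this
    exact this

/-- **Main theorem of D7, for an isometry with an axis.** -/
theorem main_axis (δ C C' n : ℕ) : ∃ K R : ℕ, ∀ (Z H : Type) [GeoMet Z] [Group H]
    [MulAction H Z], Hyp δ Z → Iso H Z → ∀ (γ : ℤ → Z) (g : H) (l : ℕ), IsAxis g γ l C →
    R ≤ l → ∀ b : H, Good Z g b l C' → ((∃ (p : ℤ) (h : H), Flip γ l K p h) → NNI Z H l K) →
    (∀ k, RayShort γ K g ((Tg g)^[k] b)) ∨
      ∃ (p : ℤ) (h : ℕ → H), (∀ i, i ≤ n → Flip γ l K p (h i)) ∧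
        ∀ i, h (i + 1) = g * h i * g * (h i)⁻¹ := by
  obtain ⟨K0, hK0⟩ : ∃ K0, K0 = kFlip δ C C' + 2 * C := ⟨_, rfl⟩
  obtain ⟨KM, hKM⟩ : ∃ KM, KM = (kNext δ C C')^[n + 1] K0 := ⟨_, rfl⟩
  refine ⟨KM + 10 * (C + 12 * δ) + δ + C, KM + 10000000 * (δ + C + kPair δ C C' + 1), ?_⟩
  intro Z H _ _ _ hZ hI γ g l hg hR b hb hN
  by_cases hflip : ∀ k, NoFlip γ ((Tg g)^[k] b) l (kFlip δ C C')
  · left
    intro k
    obtain ⟨u, hu⟩ := (hb.iter k).conj
    have hax : IsAxis ((Tg g)^[k] b) (fun t => u • γ t) l C := by rw [hu]; exact hg.conj hI u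
    have hs : ∀ m : ℕ, Stretch γ ((Tg g)^[k] b) l (C + 12 * δ) (m + 1) :=
      fun m => stretch_all hZ hI hg ((Nat.le_add_left _ _).trans hR) hb hflip m k
    obtain ⟨h, h1, s₀, h2⟩ := ray_of_stretch hZ hI hg hax (by omega) hs
    refine ⟨h, h1, s₀, ?_⟩
    rcases h2 with h2 | h2
    · exact Or.inl fun s hs => (h2 s hs).trans (by omega)
    · exact Or.inr fun s hs => (h2 s hs).trans (by omega)
  · right
    -- a flip
    push Not at hflip
    obtain ⟨k, hk⟩ := hflip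
    unfold NoFlip at hk
    push Not at hk
    obtain ⟨s₀, hs₀⟩ := hk
    obtain ⟨b', hb'⟩ : ∃ b', b' = (Tg g)^[k] b := ⟨_, rfl⟩
    rw [← hb'] at hs₀
    have gb' : Good Z g b' l C' := by rw [hb']; exact hb.iter k
    -- the first fixing part
    have first : ∃ (p : ℤ) (h c : H), Flip γ l K0 p h ∧ Next g b' h c ∧ Good Z g c l C' := by
      by_cases hP : FlipP γ b' l (kFlip δ C C') s₀
      · obtain ⟨f1, f2⟩ := hP
        refine ⟨s₀, b'⁻¹ * g, (b'⁻¹ * g)⁻¹ * g * (b'⁻¹ * g), ⟨?_, ?_⟩, Or.inr ⟨by group, rfl⟩, ?_⟩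
        · exact ((hg.rel s₀).comp hI (f1.inv hI)).mono (by omega)
        · have g1 := hg.rel (s₀ + l)
          have e : s₀ + (l : ℤ) + l = s₀ + 2 * l := by ring
          rw [e] at g1
          exact (g1.comp hI (f2.inv hI)).mono (by omega)
        · have e : (b'⁻¹ * g)⁻¹ * g * (b'⁻¹ * g) = g⁻¹ * Tg g b' * (g⁻¹)⁻¹ := by unfold Tg; group
          rw [e]
          exact gb'.next.conjg hI g⁻¹ (by group)
      · obtain ⟨f1, f2⟩ := hs₀ hP
        refine ⟨s₀ - l, b' * g, g * (b' * g) * g * (b' * g)⁻¹ * g⁻¹, ⟨?_, ?_⟩,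
          Or.inl ⟨by group, rfl⟩, ?_⟩
        · have g1 := hg.rel (s₀ - l)
          have e : s₀ - (l : ℤ) + l = s₀ := by ring
          rw [e] at g1
          exact (g1.comp hI f1).mono (by omega)
        · have g1 := hg.rel s₀
          have e : s₀ - (l : ℤ) + l = s₀ := by ring
          have e2 : s₀ - (l : ℤ) - l = s₀ - 2 * l := by ring
          rw [e, e2]
          exact (g1.comp hI f2).mono (by omega)
        · have e : g * (b' * g) * g * (b' * g)⁻¹ * g⁻¹ = g * Tg g b' * g⁻¹ := by unfold Tg; group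
          rw [e]
          exact gb'.next.conjg hI g rfl
    obtain ⟨p, h, c, hf, hnx, gc⟩ := first
    have m0 : K0 ≤ (kNext δ C C')^[n + 1] K0 := by
      have := kNext_iter_mono δ C C' K0 (Nat.zero_le (n + 1))
      exact this
    have hNN : NNI Z H l (KM + 10 * (C + 12 * δ) + δ + C) :=
      hN ⟨p, h, hf.1.mono (by omega), hf.2.mono (by omega)⟩
    have m1 : kNext δ C C' K0 ≤ KM := by
      have := kNext_iter_mono δ C C' K0 (show 1 ≤ n + 1 by omega)
      rw [hKM]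
      exact this
    have f0 : Flip γ l (kNext δ C C' K0) p (c * g) :=
      next_flip hZ hI hg (K' := kNext δ C C' K0) rfl rfl
        (by have m1' := m1.trans ((Nat.le_add_right _ _).trans hR)
            unfold kNext at m1'
            exact m1') (by unfold kNext; exact le_rfl) gb'.conj hnx gc hf
        (hNN.mono (m1.trans (by omega)))
    have gc' : Good Z g (c * g * g⁻¹) l C' := by rwa [mul_inv_cancel_right]
    have e3 : (kNext δ C C')^[n] (kNext δ C C' K0) = KM := by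
      rw [hKM, Function.iterate_succ_apply]
    have key := hseq_flip hZ hI hg gc' f0 n (by rw [e3]; omega)
      (by rw [e3]; exact hNN.mono (by omega))
    refine ⟨p, hseq g (c * g), fun i hi => ?_, fun i => rfl⟩
    have m2 := kNext_iter_mono δ C C' (kNext δ C C' K0) hi
    rw [e3] at m2
    exact ⟨(key i hi).1.1.mono (by omega), (key i hi).1.2.mono (by omega)⟩

end Pool.Agent.Lib.H14E.Ax
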