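import Pool.Agent.Lib.H14E.AxMain

/-!
# H14E, module D7: infinite overlap gives commutation
-/

set_option autoImplicit false

namespace Pool.Agent.Lib.H14E.Ax

open Pool.Agent.Lib.H76.Morse GeoMet

variable {Z H : Type} [GeoMet Z] [Group H] [MulAction H Z] {δ : ℕ}

/-- All iterates of `g` move `γ` near `γ`. -/
theorem pow_rel (hI : Iso H Z) {γ : ℤ → Z} {g : H} {l C : ℕ} (hg : IsAxis g γ l C) (i : ℕ)
    (t : ℤ) : Rel γ (g ^ i) (i * C) t (t + i * l) := by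
  induction i generalizing t with
  | zero =>
    unfold Rel
    simp [d_self]
  | succ i ih =>
    have h1 := (hg.rel t).comp hI (ih (t + l))
    have e : g ^ i * g = g ^ (i + 1) := (pow_succ g i).symm
    rw [e] at h1
    have e2 : t + (l : ℤ) + i * l = t + ((i + 1 : ℕ) : ℤ) * l := by push_cast; ring
    rw [e2] at h1
    exact h1.mono (by rw [Nat.succ_mul]; omega)

theorem inv_pow_rel (hI : Iso H Z) {γ : ℤ → Z} {g : H} {l C : ℕ} (hg : IsAxis g γ l C) (i : ℕ)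
    (t : ℤ) : Rel γ (g ^ i)⁻¹ (i * C) t (t - i * l) := by
  have h := (pow_rel hI hg i (t - i * l)).inv hI
  have e : t - (i : ℤ) * l + i * l = t := by ring
  rwa [e] at h

/-- An isometry which moves `γ(t)` to near `γ(t + σ)` for all `t` moves `γ(0)` within `3δ` of `γ`. -/
theorem near_of_rel (hZ : Hyp δ Z) (hI : Iso H Z) {γ : ℤ → Z} (hγ : IsLine γ) {u : H} {K : ℕ}
    {σ : ℤ} (h : ∀ t, Rel γ u K t (t + σ)) :
    ∃ ρ : ℤ, d (u • γ 0) (γ ρ) ≤ 3 * δ ∧ (ρ - σ).natAbs ≤ K + 3 * δ := by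
  have hu : IsLine (fun t => u • γ t) := by
    intro x y
    show d (u • γ x) (u • γ y) = _
    rw [hI]; exact hγ x y
  obtain ⟨ρ, hρ⟩ := line_near hZ hu hγ (K := K) (h (-(K + 2 * δ + 1))) (h (K + 2 * δ + 1))
    (r := 0) (by omega) (by omega)
  have hρ' : d (u • γ 0) (γ ρ) ≤ 3 * δ := hρ
  refine ⟨ρ, hρ', ?_⟩
  have h0 : d (u • γ 0) (γ (0 + σ)) ≤ K := h 0
  have t1 := d_tri (γ ρ) (u • γ 0) (γ (0 + σ))
  have c1 := d_comm (γ ρ) (u • γ 0)
  have e1 := hγ ρ (0 + σ)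
  omega

/-- Pigeonhole. -/
theorem comm_of_fin {h g : H} {F : Set H} (hF : F.Finite) {i₀ : ℕ}
    (hmem : ∀ i : ℕ, i₀ ≤ i → (g ^ i)⁻¹ * h * g ^ i ∈ F) : ∃ s : ℕ, 1 ≤ s ∧
      h * g ^ s = g ^ s * h := by
  have h1 : ¬ Set.InjOn (fun i : ℕ => (g ^ i)⁻¹ * h * g ^ i) (Set.Ici i₀) := by
    intro hinj
    have h2 : (Set.Ici i₀).Infinite := Set.Ici_infinite i₀
    exact h2 (Set.Finite.of_finite_image (hF.subset (by rintro _ ⟨i, hi, rfl⟩; exact hmem i hi))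
      hinj)
  simp only [Set.InjOn, Set.mem_Ici] at h1
  push Not at h1
  obtain ⟨i, hi, j, hj, he, hne⟩ := h1
  have key : ∀ i j : ℕ, i < j → (g ^ i)⁻¹ * h * g ^ i = (g ^ j)⁻¹ * h * g ^ j →
      ∃ s : ℕ, 1 ≤ s ∧ h * g ^ s = g ^ s * h := by
    intro i j hij e
    refine ⟨j - i, by omega, ?_⟩
    have e1 : g ^ j = g ^ (j - i) * g ^ i := by rw [← pow_add]; congr 1; omega
    rw [e1] at e
    have e2 : h = (g ^ (j - i))⁻¹ * h * g ^ (j - i) := by
      calc h = g ^ i * ((g ^ i)⁻¹ * h * g ^ i) * (g ^ i)⁻¹ := by group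
        _ = g ^ i * ((g ^ (j - i) * g ^ i)⁻¹ * h * (g ^ (j - i) * g ^ i)) * (g ^ i)⁻¹ := by
            rw [e]
        _ = _ := by group
    calc h * g ^ (j - i) = g ^ (j - i) * ((g ^ (j - i))⁻¹ * h * g ^ (j - i)) := by group
      _ = g ^ (j - i) * h := by rw [← e2]
  rcases lt_or_gt_of_ne hne with h3 | h3
  · exact key i j h3 he
  · exact key j i h3 he.symm

/-- Infinite overlap gives commutation with a power of `g`. -/
theorem comm_of_ray (hZ : Hyp δ Z) (hI : Iso H Z)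
    (hfin : ∀ (v : Z) (r : ℕ), {x : H | d v (x • v) ≤ r}.Finite) {γ : ℤ → Z} {g b : H}
    {l C K : ℕ} (hg : IsAxis g γ l C) (hl : 10 * (δ + C + 1) ≤ l)
    (h : RayShort γ K g b) : ∃ s : ℕ, 1 ≤ s ∧ b * g ^ s = g ^ s * b := by
  obtain ⟨h, hh, s₀, hs⟩ := h
  -- it is enough to show it for `h`
  have red : (∃ s : ℕ, 1 ≤ s ∧ h * g ^ s = g ^ s * h) →
      ∃ s : ℕ, 1 ≤ s ∧ b * g ^ s = g ^ s * b := by
    rintro ⟨s, s1, e⟩
    refine ⟨s, s1, ?_⟩
    have c : Commute g (g ^ s) := (Commute.refl g).pow_right s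
    have c1 : Commute h (g ^ s) := e
    rcases hh with hh | hh
    · have e2 : b = h * g⁻¹ := by rw [hh]; group
      rw [e2]
      exact (c1.mul_left c.inv_left).eq
    · have e2 : b = h * g := by rw [hh]; group
      rw [e2]
      exact (c1.mul_left c).eq
  apply red
  have short : ∀ u : H, ∀ ρ : ℤ, d (u • γ 0) (γ ρ) ≤ 3 * δ → d (h • γ ρ) (γ ρ) ≤ K →
      d (γ 0) ((u⁻¹ * h * u) • γ 0) ≤ K + 6 * δ := by
    intro u ρ h1 h2
    have e1 : d (γ 0) ((u⁻¹ * h * u) • γ 0) = d (u • γ 0) (h • u • γ 0) := by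
      have := hI u (γ 0) ((u⁻¹ * h * u) • γ 0)
      rw [← this, ← mul_smul, ← mul_smul]
      congr 2
      group
    rw [e1]
    have e2 := hI h (γ ρ) (u • γ 0)
    have t1 := d_tri (u • γ 0) (γ ρ) (h • u • γ 0)
    have t2 := d_tri (γ ρ) (h • γ ρ) (h • u • γ 0)
    have c1 := d_comm (γ ρ) (h • γ ρ)
    have c2 := d_comm (γ ρ) (u • γ 0)
    omega
  rcases hs with hs | hs
  · refine comm_of_fin (hfin (γ 0) (K + 6 * δ)) (i₀ := s₀.natAbs + 3 * δ) ?_
    intro i hi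
    obtain ⟨ρ, h1, h2⟩ := near_of_rel hZ hI hg.line (u := g ^ i) (K := i * C) (σ := i * l)
      (fun t => pow_rel hI hg i t)
    refine short (g ^ i) ρ h1 (hs ρ ?_)
    have h3 : i * (10 * (δ + C + 1)) ≤ i * l := Nat.mul_le_mul_left i hl
    have h4 : i * (10 * (δ + C + 1)) = 10 * (i * δ) + 10 * (i * C) + 10 * i := by ring
    have h5 : ((i : ℤ) * (l : ℤ)) = ((i * l : ℕ) : ℤ) := by push_cast; ring
    rw [h5] at h2
    omega
  · have := comm_of_fin (h := h) (g := g⁻¹) (hfin (γ 0) (K + 6 * δ)) (i₀ := s₀.natAbs + 3 * δ) ?_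
    · obtain ⟨s, s1, e⟩ := this
      refine ⟨s, s1, ?_⟩
      have c1 : Commute h (g⁻¹ ^ s) := e
      rw [inv_pow] at c1
      have := c1.inv_right
      rw [inv_inv] at this
      exact this.eq
    · intro i hi
      rw [inv_pow]
      obtain ⟨ρ, h1, h2⟩ := near_of_rel hZ hI hg.line (u := (g ^ i)⁻¹) (K := i * C)
        (σ := -(i * l)) (fun t => by
          have := inv_pow_rel hI hg i t
          have e : t - (i : ℤ) * l = t + -(i * l) := by ring
          rwa [e] at this)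
      refine short (g ^ i)⁻¹ ρ h1 (hs ρ ?_)
      have h3 : i * (10 * (δ + C + 1)) ≤ i * l := Nat.mul_le_mul_left i hl
      have h4 : i * (10 * (δ + C + 1)) = 10 * (i * δ) + 10 * (i * C) + 10 * i := by ring
      have h5 : ((i : ℤ) * (l : ℤ)) = ((i * l : ℕ) : ℤ) := by push_cast; ring
      rw [h5] at h2
      omega

end Pool.Agent.Lib.H14E.Ax
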