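import Pool.Agent.Lib.H14E.AxA

/-!
# H14E, module D7: a long isometry has an axis
-/

set_option autoImplicit false

namespace Pool.Agent.Lib.H14E.Ax

open Pool.Agent.Lib.H76.Morse GeoMet

variable {Z H : Type} [GeoMet Z] [Group H] [MulAction H Z] {δ : ℕ}

theorem orb_dist (hI : Iso H Z) (g : H) (x₀ : Z) {i j : ℤ} {n : ℕ} (h : j = i + n) :
    d (g ^ i • x₀) (g ^ j • x₀) = d x₀ (g ^ n • x₀) := by
  rw [h, zpow_add, mul_smul, hI, zpow_natCast]

/-- `D n` grows by about `l`. -/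
theorem orb_two (hZ : Hyp δ Z) (hI : Iso H Z) {g : H} {l : ℕ} {x₀ : Z}
    (hl : 100 * (δ + 1) ≤ l) (hmin : ∀ x : Z, l ≤ d x (g • x)) (h0 : d x₀ (g • x₀) = l) :
    2 * l ≤ d x₀ (g ^ 2 • x₀) + 2 * δ := by
  obtain ⟨p, p0, p1, p2⟩ := geo x₀ (g • x₀)
  have a1 := p2 0 (l / 2) (by omega) (by omega)
  have a2 := p2 (l / 2) l (by omega) (by omega)
  rw [p0] at a1
  rw [h0] at p1
  rw [p1] at a2
  set q := p (l / 2)
  have m := hmin q
  have b1 := hI g x₀ q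
  have b2 := hI g q (g • x₀)
  have b3 := hI g x₀ (g • x₀)
  have e : g ^ 2 • x₀ = g • g • x₀ := by rw [pow_two, mul_smul]
  rw [e]
  have c1 := hZ q (g • g • x₀) x₀ (g • x₀)
  have c2 := hZ q (g • q) (g • x₀) (g • g • x₀)
  have d1 := d_comm q x₀
  have d2 := d_comm (g • g • x₀) (g • x₀)
  have d3 := d_comm (g • g • x₀) x₀
  have d4 := d_comm (g • q) (g • x₀)
  omega

theorem orb_grow (hZ : Hyp δ Z) (hI : Iso H Z) {g : H} {l : ℕ} {x₀ : Z}
    (hl : 100 * (δ + 1) ≤ l) (hmin : ∀ x : Z, l ≤ d x (g • x)) (h0 : d x₀ (g • x₀) = l)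
    (n : ℕ) : d x₀ (g ^ (n + 1) • x₀) + l ≤ d x₀ (g ^ (n + 2) • x₀) + 3 * δ := by
  have h2 := orb_two hZ hI hl hmin h0
  induction n with
  | zero =>
    have e : g ^ (0 + 1) • x₀ = g • x₀ := by rw [zero_add, pow_one]
    have e2 : g ^ (0 + 2) • x₀ = g ^ 2 • x₀ := by rw [zero_add]
    rw [e, e2]
    omega
  | succ n ih =>
    have c := hZ x₀ (g ^ (n + 2) • x₀) (g ^ (n + 1) • x₀) (g ^ (n + 3) • x₀)
    have e1 : d (g ^ (n + 1) • x₀) (g ^ (n + 3) • x₀) = d x₀ (g ^ 2 • x₀) := by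
      have : g ^ (n + 3) • x₀ = g ^ (n + 1) • g ^ 2 • x₀ := by rw [← mul_smul, ← pow_add]
      rw [this, hI]
    have e2 : d (g ^ (n + 2) • x₀) (g ^ (n + 3) • x₀) = l := by
      have : g ^ (n + 3) • x₀ = g ^ (n + 2) • g • x₀ := by rw [← mul_smul, ← pow_succ]
      rw [this, hI, h0]
    have e3 : d (g ^ (n + 1) • x₀) (g ^ (n + 2) • x₀) = l := by
      have : g ^ (n + 2) • x₀ = g ^ (n + 1) • g • x₀ := by rw [← mul_smul, ← pow_succ]
      rw [this, hI, h0]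
    have e4 := d_comm (g ^ (n + 2) • x₀) (g ^ (n + 1) • x₀)
    show d x₀ (g ^ (n + 2) • x₀) + l ≤ d x₀ (g ^ (n + 3) • x₀) + 3 * δ
    omega

theorem orb_large (hZ : Hyp δ Z) (hI : Iso H Z) {g : H} {l : ℕ} {x₀ : Z}
    (hl : 100 * (δ + 1) ≤ l) (hmin : ∀ x : Z, l ≤ d x (g • x)) (h0 : d x₀ (g • x₀) = l)
    (n : ℕ) : (n + 1) + l ≤ d x₀ (g ^ (n + 1) • x₀) + 1 := by
  induction n with
  | zero =>
    have e : g ^ (0 + 1) • x₀ = g • x₀ := by rw [zero_add, pow_one]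
    rw [e]
    omega
  | succ n ih =>
    have := orb_grow hZ hI hl hmin h0 n
    show n + 1 + 1 + l ≤ d x₀ (g ^ (n + 2) • x₀) + 1
    omega

theorem orb_add (hZ : Hyp δ Z) (hI : Iso H Z) {g : H} {l : ℕ} {x₀ : Z}
    (hl : 100 * (δ + 1) ≤ l) (hmin : ∀ x : Z, l ≤ d x (g • x)) (h0 : d x₀ (g • x₀) = l)
    (i k : ℕ) : d x₀ (g ^ (i + 1) • x₀) + d x₀ (g ^ (k + 1) • x₀) ≤
      d x₀ (g ^ (i + k + 2) • x₀) + 4 * δ := by
  cases k with
  | zero =>
    have := orb_grow hZ hI hl hmin h0 i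
    have e : g ^ (0 + 1) • x₀ = g • x₀ := by rw [zero_add, pow_one]
    have e2 : i + 0 + 2 = i + 2 := rfl
    rw [e, e2]
    omega
  | succ k =>
    have g1 := orb_grow hZ hI hl hmin h0 i
    have g2 := orb_grow hZ hI hl hmin h0 k
    have c := hZ x₀ (g ^ (i + 2) • x₀) (g ^ (i + 1) • x₀) (g ^ (i + (k + 1) + 2) • x₀)
    have e1 : d (g ^ (i + 1) • x₀) (g ^ (i + (k + 1) + 2) • x₀) = d x₀ (g ^ (k + 2) • x₀) := by
      have : g ^ (i + (k + 1) + 2) • x₀ = g ^ (i + 1) • g ^ (k + 2) • x₀ := by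
        rw [← mul_smul, ← pow_add]; congr 2; omega
      rw [this, hI]
    have e2 : d (g ^ (i + 2) • x₀) (g ^ (i + (k + 1) + 2) • x₀) = d x₀ (g ^ (k + 1) • x₀) := by
      have : g ^ (i + (k + 1) + 2) • x₀ = g ^ (i + 2) • g ^ (k + 1) • x₀ := by
        rw [← mul_smul, ← pow_add]; congr 2; omega
      rw [this, hI]
    have e3 : d (g ^ (i + 1) • x₀) (g ^ (i + 2) • x₀) = l := by
      have : g ^ (i + 2) • x₀ = g ^ (i + 1) • g • x₀ := by rw [← mul_smul, ← pow_succ]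
      rw [this, hI, h0]
    have e4 := d_comm (g ^ (i + 2) • x₀) (g ^ (i + 1) • x₀)
    show d x₀ (g ^ (i + 1) • x₀) + d x₀ (g ^ (k + 2) • x₀) ≤ _
    omega

omit [GeoMet Z] in
/-- A limit of a sequence of points of a finite set along an ultrafilter. -/
theorem ultra_lim (U : Ultrafilter ℕ) (f : ℕ → Z) {F : Set Z} (hF : F.Finite)
    (h : ∀ᶠ n in (U : Filter ℕ), f n ∈ F) : ∃ y, ∀ᶠ n in (U : Filter ℕ), f n = y := by
  have h1 : (⋃ y ∈ F, {n | f n = y}) ∈ U := by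
    refine Filter.mem_of_superset h ?_
    intro n hn
    simp only [Set.mem_iUnion]
    exact ⟨f n, hn, rfl⟩
  obtain ⟨y, _, hy⟩ := (Ultrafilter.finite_biUnion_mem_iff hF).1 h1
  exact ⟨y, hy⟩

/-- **A long isometry has an axis.** -/
theorem exists_axis (hZ : Hyp δ Z) (hI : Iso H Z)
    (hfin : ∀ (x : Z) (r : ℕ), {y : Z | d x y ≤ r}.Finite) {g : H} {l : ℕ} {x₀ : Z}
    (hl : 100 * (δ + 1) ≤ l) (hmin : ∀ x : Z, l ≤ d x (g • x)) (h0 : d x₀ (g • x₀) = l) :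
    ∃ γ : ℤ → Z, IsAxis g γ l (9 * δ) ∧ d (γ 0) x₀ ≤ 5 * δ := by
  -- geodesics
  have hp : ∀ n : ℕ, ∃ p : ℕ → Z, p 0 = g ^ (-(n : ℤ)) • x₀ ∧
      p (d x₀ (g ^ (2 * n) • x₀)) = g ^ (n : ℤ) • x₀ ∧
      ∀ i j, i ≤ j → j ≤ d x₀ (g ^ (2 * n) • x₀) → d (p i) (p j) = j - i := by
    intro n
    obtain ⟨p, a, b, c⟩ := geo (g ^ (-(n : ℤ)) • x₀) (g ^ (n : ℤ) • x₀)
    have e : d (g ^ (-(n : ℤ)) • x₀) (g ^ (n : ℤ) • x₀) = d x₀ (g ^ (2 * n) • x₀) :=
      orb_dist hI g x₀ (by push_cast; ring)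
    rw [e] at b c
    exact ⟨p, a, b, c⟩
  choose p p0 p1 p2 using hp
  obtain ⟨D, hD⟩ : ∃ D : ℕ → ℕ, ∀ n, D n = d x₀ (g ^ n • x₀) := ⟨_, fun _ => rfl⟩
  simp only [← hD] at p1 p2
  have hgrow : ∀ n, D (n + 1) + l ≤ D (n + 2) + 3 * δ := by
    intro n; rw [hD, hD]; exact orb_grow hZ hI hl hmin h0 n
  have hlarge : ∀ n, (n + 1) + l ≤ D (n + 1) + 1 := by
    intro n; rw [hD]; exact orb_large hZ hI hl hmin h0 n
  have hadd : ∀ n, D (n + 1) + D (n + 1) ≤ D (2 * (n + 1)) + 4 * δ := by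
    intro n
    have := orb_add hZ hI hl hmin h0 n n
    rw [hD, hD]
    have e : n + n + 2 = 2 * (n + 1) := by ring
    rwa [e] at this
  -- the parametrization
  set γn : ℕ → ℤ → Z := fun n t => p n ((D n : ℤ) + t).toNat with hγn
  have gd : ∀ (n : ℕ) (s t : ℤ), 0 ≤ D n + s → 0 ≤ D n + t → D n + s ≤ D (2 * n) →
      D n + t ≤ D (2 * n) → d (γn n s) (γn n t) = (s - t).natAbs := by
    intro n s t h1 h2 h3 h4
    show d (p n ((D n : ℤ) + s).toNat) (p n ((D n : ℤ) + t).toNat) = _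
    rcases le_total s t with h | h
    · rw [p2 n _ _ (by omega) (by omega)]
      omega
    · rw [d_comm, p2 n _ _ (by omega) (by omega)]
      omega
  have gA : ∀ (n : ℕ) (t : ℤ), 0 ≤ D n + t → D n + t ≤ D (2 * n) →
      (d (g ^ (-(n : ℤ)) • x₀) (γn n t) : ℤ) = D n + t ∧
      (d (γn n t) (g ^ (n : ℤ) • x₀) : ℤ) = D (2 * n) - D n - t := by
    intro n t h1 h2
    constructor
    · rw [← p0 n]
      show (d (p n 0) (p n ((D n : ℤ) + t).toNat) : ℤ) = _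
      rw [p2 n _ _ (by omega) (by omega)]
      omega
    · rw [← p1 n]
      show (d (p n ((D n : ℤ) + t).toNat) (p n (D (2 * n))) : ℤ) = _
      rw [p2 n _ _ (by omega) (by omega)]
      omega
  have near0 : ∀ n : ℕ, 1 ≤ n → d x₀ (γn n 0) ≤ 5 * δ := by
    intro n hn
    obtain ⟨m, rfl⟩ : ∃ m, n = m + 1 := ⟨n - 1, by omega⟩
    have h1 := hadd m
    have h2 := hlarge m
    obtain ⟨a1, a2⟩ := gA (m + 1) 0 (by omega) (by omega)
    have b1 : d (g ^ (-((m + 1 : ℕ) : ℤ)) • x₀) x₀ = D (m + 1) := by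
      have := orb_dist hI g x₀ (i := -((m + 1 : ℕ) : ℤ)) (j := 0) (n := m + 1) (by push_cast; ring)
      rw [zpow_zero, one_smul] at this
      rw [this, hD]
    have b2 : d x₀ (g ^ ((m + 1 : ℕ) : ℤ) • x₀) = D (m + 1) := by rw [zpow_natCast, hD]
    have b3 : d (g ^ (-((m + 1 : ℕ) : ℤ)) • x₀) (g ^ ((m + 1 : ℕ) : ℤ) • x₀) =
        D (2 * (m + 1)) := by
      rw [hD]
      exact orb_dist hI g x₀ (by push_cast; ring)
    have := near_geod hZ (x := g ^ (-((m + 1 : ℕ) : ℤ)) • x₀) (y := g ^ ((m + 1 : ℕ) : ℤ) • x₀)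
      (q := x₀) (a := γn (m + 1) 0) (e := 4 * δ) (f := 0) (by omega) (by omega) (by omega)
      (by omega)
    omega
  -- the limit
  obtain ⟨U, hU⟩ : ∃ U : Ultrafilter ℕ, (U : Filter ℕ) ≤ Filter.atTop :=
    ⟨Filter.hyperfilter ℕ, Nat.hyperfilter_le_atTop⟩
  have large : ∀ m : ℕ, ∀ᶠ n in (U : Filter ℕ), m ≤ n := fun m =>
    hU (Filter.eventually_ge_atTop m)
  have lim : ∀ t : ℤ, ∃ y, ∀ᶠ n in (U : Filter ℕ), γn n t = y := by
    intro t
    refine ultra_lim U _ (hfin x₀ (5 * δ + t.natAbs)) ?_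
    filter_upwards [large (t.natAbs + 1)] with n hn
    obtain ⟨m, rfl⟩ : ∃ m, n = m + 1 := ⟨n - 1, by omega⟩
    have h1 := hadd m
    have h2 := hlarge m
    have h3 := near0 (m + 1) (by omega)
    have h4 := gd (m + 1) 0 t (by omega) (by omega) (by omega) (by omega)
    have h5 := d_tri x₀ (γn (m + 1) 0) (γn (m + 1) t)
    show d x₀ (γn (m + 1) t) ≤ _
    omega
  choose γ hγ using lim
  refine ⟨γ, ⟨?_, ?_, hmin⟩, ?_⟩
  · intro s t
    obtain ⟨n, h1, h2, h3⟩ := ((hγ s).and ((hγ t).and (large (s.natAbs + t.natAbs + 1)))).exists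
    obtain ⟨m, rfl⟩ : ∃ m, n = m + 1 := ⟨n - 1, by omega⟩
    have h4 := hadd m
    have h5 := hlarge m
    rw [← h1, ← h2]
    exact gd (m + 1) s t (by omega) (by omega) (by omega) (by omega)
  · intro t
    obtain ⟨n, h1, h2, h3⟩ := ((hγ t).and ((hγ (t + l)).and
      (large (t.natAbs + l + 100 * (δ + 1) + 1)))).exists
    obtain ⟨m, rfl⟩ : ∃ m, n = m + 1 := ⟨n - 1, by omega⟩
    have h4 := hadd m
    have h5 := hlarge m
    rw [← h1, ← h2]
    obtain ⟨a1, a2⟩ := gA (m + 1) t (by omega) (by omega)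
    obtain ⟨a3, a4⟩ := gA (m + 1) (t + l) (by omega) (by omega)
    set A := g ^ (-((m + 1 : ℕ) : ℤ)) • x₀ with hA
    set B := g ^ ((m + 1 : ℕ) : ℤ) • x₀ with hB
    set y := γn (m + 1) t with hy
    have b3 : d A B = D (2 * (m + 1)) := by
      rw [hD]
      exact orb_dist hI g x₀ (by push_cast; ring)
    have gA' : g • A = g ^ (-((m + 1 : ℕ) : ℤ) + 1) • x₀ := by
      rw [hA, ← mul_smul, ← zpow_one_add, add_comm]
    have gB' : g • B = g ^ (((m + 1 : ℕ) : ℤ) + 1) • x₀ := by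
      rw [hB, ← mul_smul, ← zpow_one_add, add_comm]
    have c1 : d A (g • A) = l := by
      rw [gA', ← h0]
      have := orb_dist hI g x₀ (i := -((m + 1 : ℕ) : ℤ)) (j := -((m + 1 : ℕ) : ℤ) + 1) (n := 1)
        (by push_cast; ring)
      rw [this, pow_one]
    have c2 : d B (g • B) = l := by
      rw [gB', ← h0]
      have := orb_dist hI g x₀ (i := ((m + 1 : ℕ) : ℤ)) (j := ((m + 1 : ℕ) : ℤ) + 1) (n := 1)
        (by push_cast; ring)
      rw [this, pow_one]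
    have c3 : d A (g • B) = D (2 * m + 1 + 2) := by
      rw [gB', hD]
      exact orb_dist hI g x₀ (by push_cast; ring)
    have c4 : d (g • A) B = D (2 * m + 1) := by
      rw [gA', hD]
      exact orb_dist hI g x₀ (by push_cast; ring)
    have c5 := hI g A y
    have c6 := hI g y B
    have c7 := hI g A B
    have g1 := hgrow (2 * m + 1)
    have g2 := hgrow (2 * m)
    have e1 : 2 * (m + 1) = 2 * m + 1 + 1 := by ring
    rw [e1] at b3 h4 a2 a4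
    have e2 : D (2 * m + 2) = D (2 * m + 1 + 1) := rfl
    rw [e2] at g2
    -- `d A (g y)`
    have f1 := hZ A (g • B) (g • y) (g • A)
    have f2 := hZ (g • y) B (g • A) (g • B)
    have s1 := d_comm (g • B) (g • A)
    have s2 := d_comm (g • B) (g • y)
    have s3 := d_comm (g • y) (g • A)
    have s4 := d_comm B (g • A)
    have t1 := d_tri A (g • A) (g • y)
    exact (near_geod hZ (x := A) (y := B) (q := g • y) (a := γn (m + 1) (t + l)) (e := 4 * δ)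
      (f := 4 * δ) (by omega) (by omega) (by omega) (by omega)).trans (by omega)
  · obtain ⟨n, h1, h2⟩ := ((hγ 0).and (large 1)).exists
    rw [← h1, d_comm]
    exact near0 n h2

end Pool.Agent.Lib.H14E.Ax
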