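import Pool.Agent.Lib.H14E.AxF
import Pool.Agent.Lib.H14E.AxL

/-!
# H14E, module D7: main theorem

`g` of large minimal displacement `l`, attained at `x₀`.  `b` conjugate to `g`, and for all `k` there
is a point where both `g` and `T_g^k(b)` have displacement at most `l + C'` (this is what (GROW)
gives for a recurrence).  Then, unless all `T_g^k(b) g^{±1}` are short on a ray of the axis, there is
a sequence of `n + 1` flips at the same point `γ(p)` of the axis.  The hypothesis NNI (no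
near-inversion of a segment of length `≥ 3l/2`) may use that there is a flip.
-/

set_option autoImplicit false
set_option maxRecDepth 20000

namespace Pool.Agent.Lib.H14E.Ax

open Pool.Agent.Lib.H76.Morse GeoMet

theorem Flip.mono {Z H : Type} [GeoMet Z] [Group H] [MulAction H Z] {γ : ℤ → Z} {l K K' : ℕ}
    {p : ℤ} {h : H} (hf : Flip γ l K p h) (hK : K ≤ K') : Flip γ l K' p h :=
  ⟨hf.1.mono hK, hf.2.mono hK⟩

theorem IsAxis.mono {Z H : Type} [GeoMet Z] [Group H] [MulAction H Z] {γ : ℤ → Z} {l K K' : ℕ}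
    {g : H} (h : IsAxis g γ l K) (hK : K ≤ K') : IsAxis g γ l K' :=
  ⟨h.line, fun t => (h.tr t).trans hK, h.mn⟩

theorem d7_main (δ C' n : ℕ) : ∃ K R : ℕ, ∀ (Z H : Type) [GeoMet Z] [Group H]
    [MulAction H Z], Hyp δ Z → Iso H Z → (∀ (x : Z) (r : ℕ), {y : Z | d x y ≤ r}.Finite) →
    ∀ (g : H) (l : ℕ) (x₀ : Z), R ≤ l → (∀ x : Z, l ≤ d x (g • x)) → d x₀ (g • x₀) = l →
    ∃ γ : ℤ → Z, IsAxis g γ l K ∧ d (γ 0) x₀ ≤ K ∧ ∀ b : H, Good Z g b l C' →
      ((∃ (p : ℤ) (h : H), Flip γ l K p h) → NNI Z H l K) →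
      (∀ k, RayShort γ K g ((Tg g)^[k] b)) ∨
      ∃ (p : ℤ) (h : ℕ → H), (∀ i, i ≤ n → Flip γ l K p (h i)) ∧
        ∀ i, h (i + 1) = g * h i * g * (h i)⁻¹ := by
  obtain ⟨K, R, h⟩ := main_axis δ (9 * δ) C' n
  refine ⟨K + 9 * δ, R + 100 * (δ + 1), ?_⟩
  intro Z H _ _ _ hZ hI hfin g l x₀ hR hmin h0
  obtain ⟨γ, h1, h2⟩ := exists_axis hZ hI hfin (by omega) hmin h0
  refine ⟨γ, h1.mono (by omega), h2.trans (by omega), fun b hb hN => ?_⟩
  rcases h Z H hZ hI γ g l h1 (by omega) b hb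
    (fun ⟨p, e, he⟩ => (hN ⟨p, e, he.mono (by omega)⟩).mono (by omega)) with h3 | ⟨p, e, h3, h4⟩
  · left
    intro k
    obtain ⟨f, f1, s₀, f2⟩ := h3 k
    refine ⟨f, f1, s₀, ?_⟩
    rcases f2 with f2 | f2
    · exact Or.inl fun s hs => (f2 s hs).trans (by omega)
    · exact Or.inr fun s hs => (f2 s hs).trans (by omega)
  · exact Or.inr ⟨p, e, fun i hi => (h3 i hi).mono (by omega), h4⟩

end Pool.Agent.Lib.H14E.Ax
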