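import Pool.Agent.Lib.H14E.Dot

/-!
# H14E module B: definitions for the uniform hyperbolicity of `Dot P ρ`

See PROOF_B.md and PROOF_B2.md.  `C` is a constant of the base space and of the family `P` only.
-/

set_option autoImplicit false

namespace Pool.Agent.Lib.H14E

open Pool.Agent.Lib.H76.Morse GeoMet

/-- `z` is `r`-between `x` and `y`. -/
def Nr {X : Type} [GeoMet X] (r : ℕ) (x z y : X) : Prop := d x z + d z y ≤ d x y + r

/-- Projections on the sets of the family: everything that is used about the base space. -/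
structure PSys {X ι : Type} [GeoMet X] (P : PFam X ι) (C : ℕ) where
  /-- the projection on `P.Y c` -/
  π : ι → X → X
  hyp : Hyp C X
  mem : ∀ c x, π c x ∈ P.Y c
  fix : ∀ c x, x ∈ P.Y c → π c x = x
  a1 : ∀ c x y, d (π c x) (π c y) ≤ C ∨
    d x (π c x) + d (π c x) (π c y) + d (π c y) y ≤ d x y + C
  a2 : ∀ c x y, y ∈ P.Y c → d x (π c x) + d (π c x) y ≤ d x y + C
  a3 : ∀ c e, c ≠ e → ∀ x y, x ∈ P.Y e → y ∈ P.Y e → d (π c x) (π c y) ≤ C

/-- Base point in `X` of a vertex (for an apex: a chosen point of `Y c`). -/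
noncomputable def Dot.xb {X ι : Type} {P : PFam X ι} {ρ : ℕ} : Dot P ρ → X
  | .base x => x
  | .hor _ y _ _ _ _ => y
  | .apex c => (P.ne c).some

open Classical in
/-- The level relative to the horoball `c`. -/
noncomputable def lv {X ι : Type} {P : PFam X ι} {ρ : ℕ} (c : ι) (v : Dot P ρ) : ℕ :=
  if v.own = some c then v.lev else 0

/-- `v` lies in the closed horoball `c`. -/
def InB {X ι : Type} {P : PFam X ι} {ρ : ℕ} (c : ι) (v : Dot P ρ) : Prop :=
  v.own = some c ∨ ∃ y ∈ P.Y c, v = .base y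

/-- Logarithmic distance truncated at `ρ + 1`. -/
def Mlg {X : Type} [GeoMet X] (ρ : ℕ) (a b : X) : ℕ := min (Nat.clog 2 (d a b)) (ρ + 1)

section

variable {X ι : Type} [GeoMet X] {P : PFam X ι} {C ρ : ℕ}

/-- Projection of a vertex to `P.Y c`. -/
noncomputable def PSys.pr (S : PSys P C) (c : ι) (v : Dot P ρ) : X := S.π c v.xb

theorem PSys.pr_mem (S : PSys P C) (c : ι) (v : Dot P ρ) : S.pr c v ∈ P.Y c := S.mem c _

/-- The point of level `k` of the column over the projection of `v` to `P.Y c`. -/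
noncomputable def PSys.cv (S : PSys P C) (c : ι) (v : Dot P ρ) (k : ℕ) : Dot P ρ :=
  Dot.col c (S.pr c v) (S.pr_mem c v) k

/-- The meeting level of `v` and `v'` in the horoball `c`. -/
noncomputable def PSys.mm (S : PSys P C) (c : ι) (v v' : Dot P ρ) : ℕ :=
  max (max (lv c v) (lv c v')) (Mlg ρ (S.pr c v) (S.pr c v'))

/-- threshold for active horoballs -/
def k1 (C : ℕ) : ℕ := C + 3

/-- threshold for deep points -/
def k3 (C : ℕ) : ℕ := C + 4

/-- The `X`-part of the guessed path. -/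
def PSys.LX (S : PSys P C) (v v' : Dot P ρ) : Set (Dot P ρ) :=
  {z | ∃ x : X, z = .base x ∧ Nr (C + 1) v.xb x v'.xb ∧
    ∀ c, S.mm c v (.base x) ≤ k3 C ∨ S.mm c v' (.base x) ≤ k3 C}

/-- The columns of the guessed path. -/
def PSys.LC (S : PSys P C) (v v' : Dot P ρ) : Set (Dot P ρ) :=
  {z | ∃ (c : ι) (i : ℕ), k1 C ≤ S.mm c v v' ∧ i ≤ S.mm c v v' ∧
    ((lv c v ≤ i ∧ z = S.cv c v i) ∨ (lv c v' ≤ i ∧ z = S.cv c v' i))}

/-- The guessed path. -/
def PSys.LL (S : PSys P C) (v v' : Dot P ρ) : Set (Dot P ρ) :=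
  {z | z = v ∨ z = v' ∨ z ∈ S.LX v v' ∨ z ∈ S.LC v v'}

end

/-- The hypotheses of the guessing lemma. -/
structure Guess (h : ℕ) {V : Type} [GeoMet V] (L : V → V → Set V) : Prop where
  small : ∀ v v', d v v' ≤ 1 → ∀ z ∈ L v v', d v z ≤ h
  tri : ∀ v v' t, ∀ z ∈ L v v', ∃ z', (z' ∈ L v t ∨ z' ∈ L t v') ∧ d z z' ≤ h
  cen : ∀ v v' t, ∃ μ, (∃ a ∈ L v v', d μ a ≤ h) ∧ (∃ a ∈ L v' t, d μ a ≤ h) ∧
    (∃ a ∈ L t v, d μ a ≤ h)

/-- Slim triangles. -/
def Slim (D : ℕ) (V : Type) [GeoMet V] : Prop :=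
  ∀ (x y z : V) (p q r : ℕ → V), IsGeo p x y → IsGeo q x z → IsGeo r z y →
    ∀ i ≤ d x y, (∃ j ≤ d x z, d (p i) (q j) ≤ D) ∨ (∃ j ≤ d z y, d (p i) (r j) ≤ D)

/-- The constant of the guessing properties of `LL`. -/
def hB (C : ℕ) : ℕ := 7 * C + 17

/-- The constant of the guessing lemma. -/
def FG (h : ℕ) : ℕ := 2 ^ (2 * h + 20)

/-- Every point of `LL v v'` is within `FB C` of every geodesic from `v` to `v'`. -/
def FB (C : ℕ) : ℕ := FG (hB C)

/-- The hyperbolicity constant of `Dot P ρ`, independent of `ρ`. -/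
def dB (C : ℕ) : ℕ := 6 * (4 * FB C + 5 * hB C) + 2

/-- Last columns of the geodesics from `v` to the apex `c`. -/
def SS {X ι : Type} [GeoMet X] {P : PFam X ι} {ρ : ℕ} (c : ι) (v : Dot P ρ) : Set X :=
  {y | ∃ hy : y ∈ P.Y c, d v (Dot.col c y hy ρ) + 1 = d v (.apex c)}

end Pool.Agent.Lib.H14E
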