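import Pool.Agent.Lib.H14E.BM2

set_option autoImplicit false

namespace Pool.Agent.Lib.H14E

open Pool.Agent.Lib.H76.Morse GeoMet

variable {X ι : Type} [GeoMet X] {P : PFam X ι} {C ρ : ℕ}

/-- PROOF. `Dot.Rel u v` implies `d u v ≤ 1`: `u = v` or adjacent
(`SimpleGraph.dist_eq_one_iff_adj`, `Dot.graph_adj_of_rel`). -/
theorem d_le_of_rel {u v : Dot P ρ} (h : Dot.Rel u v) : d u v ≤ 1 := by
  by_cases hne : u = v
  · subst hne
    rw [d_self]
    omega
  · rw [Dot.dist_def]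
    exact le_of_eq (SimpleGraph.dist_eq_one_iff_adj.2 (Dot.graph_adj_of_rel h hne))

/-- PROOF. Induction along a geodesic of `X` (`geo`), `Dot.Rel.base`, `d_tri`. -/
theorem d_base_le (x x' : X) : d (.base x : Dot P ρ) (.base x') ≤ d x x' := by
  obtain ⟨p, h0, h1, h2⟩ := geo x x'
  have key : ∀ i, i ≤ d x x' → d (.base (p 0) : Dot P ρ) (.base (p i)) ≤ i := by
    intro i
    induction i with
    | zero => intro _; rw [d_self]
    | succ i ih =>
      intro hi
      have e : d (p i) (p (i + 1)) = 1 := by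
        rw [h2 i (i + 1) (by omega) hi]
        omega
      have h3 := d_le_of_rel (ρ := ρ) (P := P) (Dot.Rel.base e)
      have h4 := d_tri (.base (p 0) : Dot P ρ) (.base (p i)) (.base (p (i + 1)))
      have := ih (by omega)
      omega
  have := key _ le_rfl
  rwa [h0, h1] at this

/-- PROOF. Induction on `j`, `Dot.Rel.vert`. -/
theorem d_col_le (c : ι) {y : X} (hy : y ∈ P.Y c) {i j : ℕ} (hij : i ≤ j) (hj : j ≤ ρ + 1) :
    d (Dot.col c y hy i : Dot P ρ) (Dot.col c y hy j) ≤ j - i := by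
  obtain ⟨k, rfl⟩ := Nat.exists_eq_add_of_le hij
  have key : ∀ m, i + m ≤ ρ + 1 →
      d (Dot.col c y hy i : Dot P ρ) (Dot.col c y hy (i + m)) ≤ m := by
    intro m
    induction m with
    | zero => intro _; rw [Nat.add_zero, d_self]
    | succ m ih =>
      intro hm
      have h4 := d_tri (Dot.col c y hy i : Dot P ρ) (Dot.col c y hy (i + m))
        (Dot.col c y hy (i + (m + 1)))
      have h3 : d (Dot.col c y hy (i + m) : Dot P ρ) (Dot.col c y hy (i + (m + 1))) ≤ 1 :=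
        d_le_of_rel (Dot.Rel.vert hy (by omega))
      have := ih (by omega)
      omega
  have := key k hj
  omega

/-- PROOF. `k = 0`: `d_base_le`; `1 ≤ k ≤ ρ`: equal if `y = y'`, otherwise `Dot.Rel.hor`;
`k > ρ`: both are the apex. -/
theorem d_col_hor (c : ι) {y y' : X} (hy : y ∈ P.Y c) (hy' : y' ∈ P.Y c) {k : ℕ}
    (h : ρ < k ∨ d y y' ≤ 2 ^ k) :
    d (Dot.col c y hy k : Dot P ρ) (Dot.col c y' hy' k) ≤ 1 := by
  rcases Nat.lt_or_ge ρ k with hk | hk
  · rw [Dot.col_apex c y hy hk, Dot.col_apex c y' hy' hk, d_self]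
    omega
  · have hd : d y y' ≤ 2 ^ k := by
      rcases h with h | h
      · omega
      · exact h
    rcases Nat.eq_zero_or_pos k with h0 | h0
    · subst h0
      rw [Dot.col_zero, Dot.col_zero]
      have := d_base_le (P := P) (ρ := ρ) y y'
      rw [pow_zero] at hd
      omega
    · by_cases hyy : y = y'
      · subst hyy
        rw [d_self]
        omega
      · rw [Dot.col_hor c y hy h0 hk, Dot.col_hor c y' hy' h0 hk]
        exact d_le_of_rel (Dot.Rel.hor hy hy' h0 hk hyy hd)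

/-- Upper bound for distances in a closed horoball.
PROOF. `m := max (max i j) (Mlg ρ y y') ≤ ρ + 1`.  `d_col_le` from `i` to `m`, `d_col_hor` at
level `m` (if `m ≤ ρ` then `d y y' ≤ 2 ^ m` by `le_of_Mlg`), `d_col_le` from `m` down to `j`. -/
theorem d_col_col (c : ι) {y y' : X} (hy : y ∈ P.Y c) (hy' : y' ∈ P.Y c) {i j : ℕ}
    (hi : i ≤ ρ + 1) (hj : j ≤ ρ + 1) :
    d (Dot.col c y hy i : Dot P ρ) (Dot.col c y' hy' j) + i + j ≤
      2 * max (max i j) (Mlg ρ y y') + 1 := by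
  obtain ⟨m, hm⟩ : ∃ m, m = max (max i j) (Mlg ρ y y') := ⟨_, rfl⟩
  have hM := Mlg_le_top (ρ := ρ) y y'
  have him : i ≤ m := by omega
  have hjm : j ≤ m := by omega
  have hMm : Mlg ρ y y' ≤ m := by omega
  have hmr : m ≤ ρ + 1 := by omega
  rw [← hm]
  have h1 := d_col_le (ρ := ρ) c hy him hmr
  have h2 := d_col_le (ρ := ρ) c hy' hjm hmr
  have h3 : d (Dot.col c y hy m : Dot P ρ) (Dot.col c y' hy' m) ≤ 1 := by
    apply d_col_hor
    rcases Nat.lt_or_ge ρ m with hk | hk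
    · exact Or.inl hk
    · exact Or.inr (le_of_Mlg hMm (by omega))
  have t1 := d_tri (Dot.col c y hy i : Dot P ρ) (Dot.col c y hy m) (Dot.col c y' hy' j)
  have t2 := d_tri (Dot.col c y hy m : Dot P ρ) (Dot.col c y' hy' m) (Dot.col c y' hy' j)
  have t3 := d_comm (Dot.col c y' hy' m : Dot P ρ) (Dot.col c y' hy' j)
  omega

theorem PSys.d_cv (S : PSys P C) (c : ι) (v v' : Dot P ρ) {i j : ℕ} (hi : i ≤ ρ + 1)
    (hj : j ≤ ρ + 1) : d (S.cv c v i) (S.cv c v' j) + i + j ≤
      2 * max (max i j) (Mlg ρ (S.pr c v) (S.pr c v')) + 1 :=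
  d_col_col c _ _ hi hj

theorem PSys.d_cv_self (S : PSys P C) (c : ι) (v : Dot P ρ) {i j : ℕ} (hij : i ≤ j)
    (hj : j ≤ ρ + 1) : d (S.cv c v i) (S.cv c v j) ≤ j - i :=
  d_col_le c _ hij hj

end Pool.Agent.Lib.H14E
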