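import Pool.Agent.Lib.H14E.BD1

set_option autoImplicit false

namespace Pool.Agent.Lib.H14E

open Pool.Agent.Lib.H76.Morse GeoMet

variable {X ι : Type} [GeoMet X] {P : PFam X ι} {C ρ : ℕ}

/-- PROOF. Cases on `v`. -/
theorem xb_mem_of_InB {c : ι} {v : Dot P ρ} (h : InB c v) : v.xb ∈ P.Y c := by
  rcases h with h | ⟨y, hy, rfl⟩
  · cases v with
    | base x => simp [Dot.own] at h
    | hor e y k hy h1 h2 =>
      simp only [Dot.own, Option.some.injEq] at h
      subst h
      exact hy
    | apex e =>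
      simp only [Dot.own, Option.some.injEq] at h
      subst h
      exact (P.ne e).some_mem
  · exact hy

/-- PROOF. If `v = base y` the level is `0`; otherwise the owner of `v` is `c ≠ e`. -/
theorem lv_of_InB_ne {c e : ι} {v : Dot P ρ} (h : InB c v) (hce : c ≠ e) : lv e v = 0 := by
  rcases h with h | ⟨y, hy, rfl⟩
  · unfold lv
    rw [if_neg]
    rw [h]
    intro h1
    exact hce (Option.some.inj h1)
  · exact lv_base e y

theorem InB_of_lv {c : ι} {v : Dot P ρ} (h : 1 ≤ lv c v) : InB c v := Or.inl (own_of_lv h)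

/-- PROOF. If `lv c v ≥ 1`: `S.cv_self`.  Otherwise `v = base y`, `y ∈ P.Y c` (a vertex owned by
`c` has positive level), and `S.cv_zero`, `S.pr_base_mem`. -/
theorem PSys.cv_InB (S : PSys P C) {c : ι} {v : Dot P ρ} (h : InB c v) :
    S.cv c v (lv c v) = v := by
  rcases Nat.eq_zero_or_pos (lv c v) with h0 | h0
  · rcases h with h | ⟨y, hy, rfl⟩
    · exfalso
      cases v with
      | base x => simp [Dot.own] at h
      | hor e y k hy h1 h2 =>
        simp only [Dot.own, Option.some.injEq] at h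
        subst h
        rw [lv_hor_self] at h0
        omega
      | apex e =>
        simp only [Dot.own, Option.some.injEq] at h
        subst h
        rw [lv_apex_self] at h0
        omega
    · rw [h0, S.cv_zero, S.pr_base_mem hy]
  · exact S.cv_self h0

/-- PROOF. `Dot.col` is `base`, `hor c` or `apex c`. -/
theorem InB_cv (S : PSys P C) (c : ι) (v : Dot P ρ) (k : ℕ) : InB c (S.cv c v k) := by
  unfold PSys.cv
  rcases Nat.eq_zero_or_pos k with h0 | h0
  · subst h0
    rw [Dot.col_zero]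
    exact Or.inr ⟨_, S.pr_mem c v, rfl⟩
  · rcases Nat.lt_or_ge ρ k with h1 | h1
    · rw [Dot.col_apex c _ _ h1]
      exact Or.inl rfl
    · rw [Dot.col_hor c _ _ h0 h1]
      exact Or.inl rfl

/-- PROOF. `S.cv_InB` and `S.d_cv`. -/
theorem PSys.d_InB (S : PSys P C) {c : ι} {v v' : Dot P ρ} (h : InB c v) (h' : InB c v') :
    d v v' + lv c v + lv c v' ≤ 2 * S.mm c v v' + 1 := by
  have h1 := S.d_cv c v v' (lv_le c v) (lv_le c v')
  rw [S.cv_InB h, S.cv_InB h'] at h1
  exact h1

/-- PROOF. `S.cv_InB` and `S.d_cv`. -/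
theorem PSys.d_InB_cv (S : PSys P C) {c : ι} {v v' : Dot P ρ} (h : InB c v) {j : ℕ}
    (hj : j ≤ ρ + 1) : d v (S.cv c v' j) + lv c v + j ≤
      2 * max (max (lv c v) j) (Mlg ρ (S.pr c v) (S.pr c v')) + 1 := by
  have h1 := S.d_cv c v v' (lv_le c v) hj
  rw [S.cv_InB h] at h1
  exact h1

/-- Related vertices. -/
theorem bd2_rel (S : PSys P C) {v v' : Dot P ρ} (h : Dot.Rel v v') :
    (∃ x y : X, v = .base x ∧ v' = .base y ∧ d x y ≤ 1) ∨
    (∃ c : ι, InB c v ∧ InB c v' ∧ S.mm c v v' ≤ lv c v + 1 ∧ S.mm c v v' ≤ lv c v' + 1) := by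
  induction h with
  | @base x x' hx => exact Or.inl ⟨x, x', rfl, rfl, hx.le⟩
  | @vert c y hy k hk =>
    right
    have hcol : ∀ j, j ≤ ρ → S.pr c (Dot.col c y hy j : Dot P ρ) = y := by
      intro j hj
      rcases Nat.eq_zero_or_pos j with h0 | h0
      · subst h0
        rw [Dot.col_zero]
        exact S.pr_base_mem hy
      · rw [S.pr_of_lv (by rw [lv_col c y hy (by omega)]; exact h0), Dot.col_hor c y hy h0 hj]
        rfl
    have hin : ∀ j, InB c (Dot.col c y hy j : Dot P ρ) := by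
      intro j
      rcases Nat.eq_zero_or_pos j with h0 | h0
      · subst h0
        rw [Dot.col_zero]
        exact Or.inr ⟨_, hy, rfl⟩
      · rcases Nat.lt_or_ge ρ j with h1 | h1
        · rw [Dot.col_apex c _ _ h1]
          exact Or.inl rfl
        · rw [Dot.col_hor c _ _ h0 h1]
          exact Or.inl rfl
    have e1 : lv c (Dot.col c y hy k : Dot P ρ) = k := lv_col c y hy (by omega)
    have e2 : lv c (Dot.col c y hy (k + 1) : Dot P ρ) = k + 1 := lv_col c y hy (by omega)
    have hmm : S.mm c (Dot.col c y hy k : Dot P ρ) (Dot.col c y hy (k + 1)) ≤ k + 1 := by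
      rcases Nat.lt_or_ge k ρ with h1 | h1
      · unfold PSys.mm
        rw [hcol k (by omega), hcol (k + 1) (by omega), Mlg_self, e1, e2]
        omega
      · have := S.mm_le_top c (Dot.col c y hy k : Dot P ρ) (Dot.col c y hy (k + 1))
        omega
    exact ⟨c, hin k, hin (k + 1), by omega, by omega⟩
  | @hor c y y' hy hy' k h1 h2 h3 h4 =>
    right
    refine ⟨c, Or.inl rfl, Or.inl rfl, ?_⟩
    have e1 := lv_hor_self c y k hy h1 h2
    have e2 := lv_hor_self c y' k hy' h1 h2
    have p1 : S.pr c (.hor c y k hy h1 h2 : Dot P ρ) = y := S.pr_of_lv (by rw [e1]; exact h1)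
    have p2 : S.pr c (.hor c y' k hy' h1 h2 : Dot P ρ) = y' := S.pr_of_lv (by rw [e2]; exact h1)
    have hM := Mlg_le (ρ := ρ) h4
    have hmm : S.mm c (.hor c y k hy h1 h2 : Dot P ρ) (.hor c y' k hy' h1 h2) ≤ k := by
      unfold PSys.mm
      rw [p1, p2, e1, e2]
      omega
    rw [e1, e2]
    omega

/-- Two equal or adjacent vertices are both in `X`, or both in one closed horoball and near the
meeting level.
PROOF. `d v v' = 0`: `v = v'` (`eq_of_d`).  If `v = base x`: first case.  If `v = hor c y k` or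
`v = apex c`: second case with this `c`: `S.mm c v v = lv c v` because `Mlg _ y y = 0`.
`d v v' = 1`: adjacent (`SimpleGraph.dist_eq_one_iff_adj`, `Dot.graph`,
`SimpleGraph.fromRel_adj`), `Dot.Rel v v'` or `Dot.Rel v' v`; the statement is symmetric.
`Rel.base`: first case.  `Rel.vert hy (k ≤ ρ)`: levels `k`, `k + 1` (`lv_col`), both in `InB c`; if
`k + 1 ≤ ρ` both projections are `y` (if `k = 0`, `S.fix`; `S.pr_of_lv`), so `Mlg = 0` and `S.mm = k + 1`;
if `k = ρ` use `S.mm ≤ ρ + 1 = k + 1` (`S.mm_le_top`).  `Rel.hor`: both levels are `k`, the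
projections are `y, y'` and `Mlg ρ y y' ≤ k` (`Mlg_le`), so `S.mm = k`. -/
theorem PSys.adj_cases (S : PSys P C) {v v' : Dot P ρ} (h : d v v' ≤ 1) :
    (∃ x y : X, v = .base x ∧ v' = .base y ∧ d x y ≤ 1) ∨
    (∃ c : ι, InB c v ∧ InB c v' ∧ S.mm c v v' ≤ lv c v + 1 ∧ S.mm c v v' ≤ lv c v' + 1) := by
  rcases Nat.eq_zero_or_pos (d v v') with h0 | h0
  · have e := eq_of_d v v' h0
    subst e
    have hmm : ∀ c, S.mm c v v = lv c v := by
      intro c
      unfold PSys.mm
      rw [Mlg_self]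
      omega
    cases v with
    | base x => exact Or.inl ⟨x, x, rfl, rfl, by rw [d_self]; omega⟩
    | hor c y k hy h1 h2 =>
      refine Or.inr ⟨c, Or.inl rfl, Or.inl rfl, ?_⟩
      rw [hmm]
      omega
    | apex c =>
      refine Or.inr ⟨c, Or.inl rfl, Or.inl rfl, ?_⟩
      rw [hmm]
      omega
  · have h1 : d v v' = 1 := by omega
    rw [Dot.dist_def] at h1
    have hadj := SimpleGraph.dist_eq_one_iff_adj.1 h1
    rw [Dot.graph, SimpleGraph.fromRel_adj] at hadj
    rcases hadj.2 with hr | hr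
    · exact bd2_rel S hr
    · rcases bd2_rel S hr with ⟨x, y, hx, hy, hxy⟩ | ⟨c, a1, a2, a3, a4⟩
      · exact Or.inl ⟨y, x, hy, hx, by rw [d_comm]; exact hxy⟩
      · exact Or.inr ⟨c, a2, a1, by rw [S.mm_comm]; exact a4, by rw [S.mm_comm]; exact a3⟩

end Pool.Agent.Lib.H14E
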