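import Pool.Agent.Lib.H14E.B1

set_option autoImplicit false

namespace Pool.Agent.Lib.H14E

open Pool.Agent.Lib.H76.Morse GeoMet

/-- Logarithmic bound for guessed paths.
PROOF. Induction on `k`, for all `p, n`.
`k = 0`: `n ≤ 1`, so `d (p 0) (p n) ≤ 1` (`n = 0`: `d_self`; `n = 1`: the step hypothesis), and
`H.small` gives `d (p 0) z ≤ h`; take `i = 0`.
Step `k → k + 1`: let `a := n / 2`, `b := n - a`, so `a, b ≤ 2 ^ k`.  `H.tri` with `t := p a`
gives `z' ∈ L (p 0) (p a)` or `z' ∈ L (p a) (p n)` with `d z z' ≤ h`.  In the first case apply the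
induction hypothesis to `p` and `a`; in the second to `fun i => p (a + i)` and `b`
(`p (a + 0) = p a`, `p (a + b) = p n`).  One gets `i` with `d z' (p i) ≤ (k + 1) * h`, so
`d z (p i) ≤ h + (k + 1) * h`. -/
theorem guess_log {h : ℕ} {V : Type} [GeoMet V] {L : V → V → Set V} (H : Guess h L) (k : ℕ) :
    ∀ (p : ℕ → V) (n : ℕ), n ≤ 2 ^ k → (∀ i < n, d (p i) (p (i + 1)) ≤ 1) →
      ∀ z ∈ L (p 0) (p n), ∃ i ≤ n, d z (p i) ≤ (k + 1) * h := by
  induction k with
  | zero =>
    intro p n hn hs z hz
    refine ⟨0, Nat.zero_le _, ?_⟩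
    have h1 : d (p 0) (p n) ≤ 1 := by
      rcases Nat.eq_zero_or_pos n with h0 | h0
      · subst h0
        rw [d_self]
        exact Nat.zero_le _
      · have h2 : n = 1 := by
          rw [pow_zero] at hn
          omega
        subst h2
        exact hs 0 (by omega)
    have h2 := H.small _ _ h1 z hz
    rw [d_comm]
    simpa using h2
  | succ k ih =>
    intro p n hn hs z hz
    rw [pow_succ] at hn
    have e : (k + 1 + 1) * h = (k + 1) * h + h := by ring
    obtain ⟨z', hz', hd⟩ := H.tri (p 0) (p n) (p (n / 2)) z hz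
    rcases hz' with h1 | h1
    · obtain ⟨i, hi, hd2⟩ := ih p (n / 2) (by omega) (fun i hi => hs i (by omega)) z' h1
      refine ⟨i, by omega, ?_⟩
      have h3 := d_tri z z' (p i)
      omega
    · have h2 : n / 2 + (n - n / 2) = n := by omega
      obtain ⟨i, hi, hd2⟩ := ih (fun i => p (n / 2 + i)) (n - n / 2) (by omega)
        (fun i hi => hs (n / 2 + i) (by omega)) z' (by
          show z' ∈ L (p (n / 2 + 0)) (p (n / 2 + (n - n / 2)))
          rw [h2, add_zero]
          exact h1)
      refine ⟨n / 2 + i, by omega, ?_⟩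
      have h3 := d_tri z z' (p (n / 2 + i))
      have h4 : d z' (p (n / 2 + i)) ≤ (k + 1) * h := hd2
      omega

end Pool.Agent.Lib.H14E
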