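import Pool.Agent.Lib.H14E.B1

set_option autoImplicit false

namespace Pool.Agent.Lib.H14E

/-- The numerical inequality behind the guessing lemma, `FG h = 2 ^ (2 * h + 20)`.
PROOF. `4 * FG h + 8 * h + 2 ≤ 2 ^ (2 * h + 22) + 8 * h + 2 ≤ 2 ^ (2 * h + 23)` (because
`8 * h + 2 ≤ 2 ^ (2 * h + 22)`, from `h < 2 ^ h`), so the `clog` is at most `2 * h + 23`
(`Nat.clog_le_of_le_pow`), and
`(2 * h + 26) * h ≤ 2 ^ (2 * h + 20)`: with `h < 2 ^ h` we have
`(2 * h + 26) * h ≤ 28 * (h + 1) * h ≤ 28 * 2 ^ h * 2 ^ h`. -/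
theorem fg_num (h : ℕ) : (Nat.clog 2 (4 * FG h + 8 * h + 2) + 3) * h ≤ FG h := by
  have h0 : h < 2 ^ h := Nat.lt_two_pow_self
  obtain ⟨t, ht⟩ : ∃ t, t = 2 ^ h := ⟨_, rfl⟩
  have h1 : 1 ≤ t := by omega
  have e20 : FG h = 1048576 * (t * t) := by
    unfold FG
    rw [ht, ← pow_add, ← two_mul, pow_add]
    norm_num
    ring
  have e23 : 2 ^ (2 * h + 23) = 8388608 * (t * t) := by
    rw [ht, ← pow_add, ← two_mul, pow_add]
    norm_num
    ring
  have htt : t ≤ t * t := Nat.le_mul_of_pos_left t (by omega)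
  have hc : Nat.clog 2 (4 * FG h + 8 * h + 2) ≤ 2 * h + 23 := by
    apply Nat.clog_le_of_le_pow
    rw [e23, e20]
    omega
  have h2 : (Nat.clog 2 (4 * FG h + 8 * h + 2) + 3) * h ≤ (2 * h + 26) * h :=
    Nat.mul_le_mul_right h (by omega)
  have h3 : (2 * h + 26) * h ≤ (28 * t) * t := Nat.mul_le_mul (by omega) (by omega)
  have h4 : (28 * t) * t = 28 * (t * t) := by ring
  omega

end Pool.Agent.Lib.H14E
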