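import Pool.Agent.Lib.H14E.BG1
import Pool.Agent.Lib.H14E.BG2

set_option autoImplicit false

namespace Pool.Agent.Lib.H14E

open Pool.Agent.Lib.H76.Morse GeoMet

theorem bg3_sub {V : Type} [GeoMet V] {p : ℕ → V} {v v' : V} (hp : IsGeo p v v') {a b : ℕ}
    (hab : a ≤ b) (hb : b ≤ d v v') : IsGeo (fun i => p (a + i)) (p a) (p b) := by
  have hd : d (p a) (p b) = b - a := hp.2.2 a b hab hb
  refine ⟨rfl, ?_, ?_⟩
  · show p (a + d (p a) (p b)) = p b
    rw [hd]
    congr 1
    omega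
  · intro i j hij hj
    show d (p (a + i)) (p (a + j)) = j - i
    rw [hd] at hj
    rw [hp.2.2 (a + i) (a + j) (by omega) (by omega)]
    omega

theorem bg3_rev {V : Type} [GeoMet V] {p : ℕ → V} {v v' : V} (hp : IsGeo p v v') :
    IsGeo (fun i => p (d v v' - i)) v' v := by
  have hd : d v' v = d v v' := d_comm v' v
  refine ⟨?_, ?_, ?_⟩
  · show p (d v v' - 0) = v'
    rw [Nat.sub_zero]
    exact hp.2.1
  · show p (d v v' - d v' v) = v
    rw [hd, Nat.sub_self]
    exact hp.1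
  · intro i j hij hj
    show d (p (d v v' - i)) (p (d v v' - j)) = j - i
    rw [hd] at hj
    rw [d_comm, hp.2.2 (d v v' - j) (d v v' - i) (by omega) (by omega)]
    omega

/-- Guessed paths are near geodesics.
PROOF. Put `F := FG h`, `R := 2 * F + 4 * h + 1`, `K := Nat.clog 2 (2 * R)`, so
`2 * R = 4 * F + 8 * h + 2 ≤ 2 ^ K` (`Nat.le_pow_clog`) and `(K + 3) * h ≤ F` (`fg_num`).
Strong induction on `n = d v v'` (for all `v, v', p, z`).  Let `p` be a geodesic from `v` to `v'`
(`p 0 = v`, `p n = v'`, `d (p i) (p j) = j - i` for `i ≤ j ≤ n`), `z ∈ L v v'`.  Let `i0 ≤ n` be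
such that `d z (p i0) ≤ d z (p i)` for all `i ≤ n` (`exists_nearest`), `D := d z (p i0)`; we must
show `D ≤ F`.  Let `a := i0 - R` (truncated) and `b := min n (i0 + R)`.
(1) If `b < n`, so `b = i0 + R`, apply `H.tri` with `t := p b`: `z1 ∈ L v (p b)` or
`z1 ∈ L (p b) v'`, `d z z1 ≤ h`.  In the second case `fun i => p (b + i)` is a geodesic from `p b`
to `v'` of length `n - b < n` and the induction hypothesis gives `i ≥ b` with
`d z1 (p i) ≤ F`; so `D ≤ d z (p i) ≤ F + h` and
`i - i0 = d (p i0) (p i) ≤ D + (F + h) ≤ 2 * F + 2 * h < R ≤ i - i0`: contradiction.  So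
`z1 ∈ L v (p b)` with `d z z1 ≤ h`.  If `b = n` put `z1 := z` (`p b = v'`).
(2) If `a > 0` (so `a = i0 - R`, `i0 > R`) apply `H.tri` to `z1 ∈ L v (p b)` with `t := p a`: `z2 ∈ L v (p a)` or
`z2 ∈ L (p a) (p b)`, `d z1 z2 ≤ h`, so `d z z2 ≤ 2 * h`.  In the first case `p` is a geodesic
from `v` to `p a` of length `a < n`; the induction hypothesis gives `i ≤ a` with
`d z2 (p i) ≤ F`, so `D ≤ F + 2 * h`, and `i0 - i = d (p i) (p i0) ≤ D + F + 2 * h ≤
2 * F + 4 * h < R ≤ i0 - i`: contradiction.  If `a = 0` put `z2 := z1`.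
(3) Now `z2 ∈ L (p a) (p b)` with `d z z2 ≤ 2 * h` and `b - a ≤ 2 * R ≤ 2 ^ K`: `guess_log` for
`fun i => p (a + i)` gives `i ≤ b - a` with `d z2 (p (a + i)) ≤ (K + 1) * h`, so
`D ≤ d z (p (a + i)) ≤ 2 * h + (K + 1) * h = (K + 3) * h ≤ F`. -/
theorem guess_upper {h : ℕ} {V : Type} [GeoMet V] {L : V → V → Set V} (H : Guess h L) :
    ∀ (n : ℕ) (v v' : V) (p : ℕ → V), d v v' = n → IsGeo p v v' → ∀ z ∈ L v v',
      ∃ i ≤ d v v', d z (p i) ≤ FG h := by
  intro n
  induction n using Nat.strong_induction_on with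
  | _ n ih =>
  intro v v' p hn hp z hz
  have hnum := fg_num h
  obtain ⟨i0, hi0, hmin⟩ := exists_nearest p n z
  refine ⟨i0, by omega, ?_⟩
  by_contra hcon
  set F := FG h with hF
  set R := 2 * F + 4 * h + 1 with hR
  have hgeo : ∀ i j, i ≤ j → j ≤ n → d (p i) (p j) = j - i := by
    intro i j h1 h2
    exact hp.2.2 i j h1 (by omega)
  have h0 : p 0 = v := hp.1
  have hn' : p n = v' := by rw [← hn]; exact hp.2.1
  -- the point b
  obtain ⟨b, hb1, hb2, hb3, z1, hz1, hdz1⟩ : ∃ b, b ≤ n ∧ i0 ≤ b ∧ b ≤ i0 + R ∧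
      ∃ z1 ∈ L v (p b), d z z1 ≤ h := by
    by_cases hb : i0 + R < n
    · refine ⟨i0 + R, by omega, by omega, le_rfl, ?_⟩
      obtain ⟨z1, hz1, hd1⟩ := H.tri v v' (p (i0 + R)) z hz
      rcases hz1 with hz1 | hz1
      · exact ⟨z1, hz1, hd1⟩
      · exfalso
        have hg := bg3_sub hp (a := i0 + R) (b := n) (by omega) (by omega)
        rw [hn'] at hg
        have hlen : d (p (i0 + R)) v' = n - (i0 + R) := by
          rw [← hn']; exact hgeo _ _ (by omega) le_rfl
        obtain ⟨i, hi, hdi⟩ := ih (n - (i0 + R)) (by omega) _ _ _ hlen hg z1 hz1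
        have hdi' : d z1 (p (i0 + R + i)) ≤ F := hdi
        have h1 := hmin (i0 + R + i) (by omega)
        have h2 := d_tri z z1 (p (i0 + R + i))
        have h3 := hgeo i0 (i0 + R + i) (by omega) (by omega)
        have h4 := d_tri (p i0) z (p (i0 + R + i))
        rw [d_comm (p i0) z] at h4
        omega
    · refine ⟨n, le_rfl, hi0, by omega, z, ?_, ?_⟩
      · rw [hn']; exact hz
      · rw [d_self]; omega
  -- the point a
  obtain ⟨a, ha1, ha2, z2, hz2, hdz2⟩ : ∃ a, a ≤ i0 ∧ i0 ≤ a + R ∧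
      ∃ z2 ∈ L (p a) (p b), d z z2 ≤ 2 * h := by
    by_cases ha : R < i0
    · refine ⟨i0 - R, by omega, by omega, ?_⟩
      obtain ⟨z2, hz2, hd2⟩ := H.tri v (p b) (p (i0 - R)) z1 hz1
      rcases hz2 with hz2 | hz2
      · exfalso
        have hg := bg3_sub hp (a := 0) (b := i0 - R) (by omega) (by omega)
        rw [h0] at hg
        have hlen : d v (p (i0 - R)) = i0 - R := by
          have := hgeo 0 (i0 - R) (by omega) (by omega)
          rw [h0] at this
          simpa using this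
        obtain ⟨i, hi, hdi⟩ := ih (i0 - R) (by omega) _ _ _ hlen hg z2 hz2
        have hdi' : d z2 (p (0 + i)) ≤ F := hdi
        rw [zero_add] at hdi'
        have h1 := hmin i (by omega)
        have h2 := d_tri z z1 (p i)
        have h2' := d_tri z1 z2 (p i)
        have h3 := hgeo i i0 (by omega) (by omega)
        have h4 := d_tri (p i) z (p i0)
        rw [d_comm (p i) z] at h4
        omega
      · refine ⟨z2, hz2, ?_⟩
        have := d_tri z z1 z2
        omega
    · refine ⟨0, by omega, by omega, z1, ?_, by omega⟩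
      rw [h0]; exact hz1
  -- the short guessed path
  have hle : b - a ≤ 2 ^ Nat.clog 2 (4 * F + 8 * h + 2) := by
    have := Nat.le_pow_clog (b := 2) (by norm_num) (4 * F + 8 * h + 2)
    omega
  have hz2' : z2 ∈ L ((fun i => p (a + i)) 0) ((fun i => p (a + i)) (b - a)) := by
    show z2 ∈ L (p (a + 0)) (p (a + (b - a)))
    have e : a + (b - a) = b := by omega
    rw [e, add_zero]
    exact hz2
  obtain ⟨i, hi, hdi⟩ := guess_log H (Nat.clog 2 (4 * F + 8 * h + 2)) (fun i => p (a + i)) (b - a)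
    hle (by
      intro i hi
      show d (p (a + i)) (p (a + (i + 1))) ≤ 1
      rw [hgeo (a + i) (a + (i + 1)) (by omega) (by omega)]
      omega) z2 hz2'
  have hdi' : d z2 (p (a + i)) ≤ (Nat.clog 2 (4 * F + 8 * h + 2) + 1) * h := hdi
  have h1 := hmin (a + i) (by omega)
  have h2 := d_tri z z2 (p (a + i))
  have h3 : (Nat.clog 2 (4 * F + 8 * h + 2) + 3) * h =
      (Nat.clog 2 (4 * F + 8 * h + 2) + 1) * h + 2 * h := by ring
  omega

end Pool.Agent.Lib.H14E
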