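import Pool.Agent.Lib.H14E.BG3

set_option autoImplicit false

namespace Pool.Agent.Lib.H14E

open Pool.Agent.Lib.H76.Morse GeoMet

/-- Geodesics are near guessed paths.
PROOF. `F := FG h`.  Put `t := p i`.  `H.cen v v' t` gives `μ`, `a ∈ L v v'`, `b ∈ L v' t`,
`c ∈ L t v` within `h` of `μ`.  The path `fun j => p (i - j)` is a geodesic from `t` to `v` (length
`i`), and `guess_upper` gives `j ≤ i` with `d c (p j) ≤ F` (index `i - j`); the path
`fun j => p (n - j)`, `n = d v v'`, is a geodesic from `v'` to `t` (length `n - i`), and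
`guess_upper` gives `l` with `i ≤ l ≤ n`, `d b (p l) ≤ F`.  Then
`l - j = d (p j) (p l) ≤ 2 * F + 2 * h`, so `i - j ≤ 2 * F + 2 * h` and
`d (p i) a ≤ d (p i) (p j) + d (p j) c + d c μ + d μ a ≤ 3 * F + 4 * h`. -/
theorem guess_lower {h : ℕ} {V : Type} [GeoMet V] {L : V → V → Set V} (H : Guess h L)
    {v v' : V} {p : ℕ → V} (hp : IsGeo p v v') {i : ℕ} (hi : i ≤ d v v') :
    ∃ a ∈ L v v', d (p i) a ≤ 3 * FG h + 4 * h := by
  obtain ⟨μ, ⟨a, ha, hda⟩, ⟨b, hb, hdb⟩, ⟨c, hc, hdc⟩⟩ := H.cen v v' (p i)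
  refine ⟨a, ha, ?_⟩
  have h0 : p 0 = v := hp.1
  have hn : p (d v v') = v' := hp.2.1
  have hg1 := bg3_rev (bg3_sub hp (a := 0) (b := i) (by omega) hi)
  have hg2 := bg3_rev (bg3_sub hp (a := i) (b := d v v') hi le_rfl)
  have hl1 : d (p 0) (p i) = i := by
    have := hp.2.2 0 i (by omega) hi
    simpa using this
  have hl2 : d (p i) (p (d v v')) = d v v' - i := hp.2.2 i _ hi le_rfl
  rw [hl1] at hg1
  rw [hl2] at hg2
  rw [h0] at hg1
  rw [hn] at hg2
  obtain ⟨j, hj, hdj⟩ := guess_upper H _ _ _ _ rfl hg1 c hc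
  obtain ⟨l, hl, hdl⟩ := guess_upper H _ _ _ _ rfl hg2 b hb
  have hdj' : d c (p (0 + (i - j))) ≤ FG h := hdj
  have hdl' : d b (p (i + (d v v' - i - l))) ≤ FG h := hdl
  rw [zero_add] at hdj'
  have h1 := hp.2.2 (i - j) (i + (d v v' - i - l)) (by omega) (by omega)
  have h2 := hp.2.2 (i - j) i (by omega) hi
  have t1 := d_tri (p (i - j)) c (p (i + (d v v' - i - l)))
  have t2 := d_tri c μ (p (i + (d v v' - i - l)))
  have t3 := d_tri μ b (p (i + (d v v' - i - l)))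
  have t4 := d_tri (p i) (p (i - j)) a
  have t5 := d_tri (p (i - j)) c a
  have t6 := d_tri c μ a
  rw [d_comm (p (i - j)) c] at t1 t5
  rw [d_comm c μ] at t2 t6
  rw [d_comm (p i) (p (i - j))] at t4
  omega

end Pool.Agent.Lib.H14E
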