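import Pool.Agent.Lib.H14E.BG4

set_option autoImplicit false

namespace Pool.Agent.Lib.H14E

open Pool.Agent.Lib.H76.Morse GeoMet

/-- Triangles are slim.
PROOF. `p i` is within `3 * F + 4 * h` of some `a ∈ L x y` (`guess_lower`), `a` is within `h` of
some `a' ∈ L x z` or `a' ∈ L z y` (`H.tri` with `t := z`), and `a'` is within `F` of a point of
`q`, resp. `r` (`guess_upper`). -/
theorem guess_slim {h : ℕ} {V : Type} [GeoMet V] {L : V → V → Set V} (H : Guess h L) :
    Slim (4 * FG h + 5 * h) V := by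
  intro x y z p q r hp hq hr i hi
  obtain ⟨a, ha, hda⟩ := guess_lower H hp hi
  obtain ⟨a', ha', hd'⟩ := H.tri x y z a ha
  rcases ha' with h1 | h1
  · left
    obtain ⟨j, hj, hdj⟩ := guess_upper H (d x z) x z q rfl hq a' h1
    refine ⟨j, hj, ?_⟩
    have t1 := d_tri (p i) a (q j)
    have t2 := d_tri a a' (q j)
    omega
  · right
    obtain ⟨j, hj, hdj⟩ := guess_upper H (d z y) z y r rfl hr a' h1
    refine ⟨j, hj, ?_⟩
    have t1 := d_tri (p i) a (r j)
    have t2 := d_tri a a' (r j)
    omega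

end Pool.Agent.Lib.H14E
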