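import Pool.Agent.Lib.H14E.BL1

set_option autoImplicit false

namespace Pool.Agent.Lib.H14E

open Pool.Agent.Lib.H76.Morse GeoMet

variable {X ι : Type} [GeoMet X] {P : PFam X ι} {C ρ : ℕ} (S : PSys P C)

/-- Smallness, two points of `X`.
PROOF. `z = v` or `v'`: clear.  `z = base x`: `d v.xb x + d x v'.xb ≤ 1 + (C + 1)`, `d_base_le`.
`z ∈ LC`: impossible, because `S.mm c v v' = Mlg` (levels `0`), `S.lip`:
`d (π c x) (π c y) ≤ 1 + C ≤ 2 ^ C`, so `Mlg ≤ C < k1 C`. -/
theorem PSys.small_base {x y : X} (h : d x y ≤ 1) {z : Dot P ρ}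
    (hz : z ∈ S.LL (.base x) (.base y)) : d (.base x : Dot P ρ) z ≤ C + 2 := by
  rcases hz with rfl | rfl | hz | hz
  · rw [d_self]
    omega
  · exact ((d_base_le x y).trans h).trans (by omega)
  · obtain ⟨x', rfl, hx', -⟩ := hz
    have h1 := d_base_le (P := P) (ρ := ρ) x x'
    have h2 : d x x' + d x' y ≤ d x y + (C + 1) := hx'
    omega
  · exfalso
    obtain ⟨c, i, hk, -, -⟩ := hz
    have h1 := S.lip c x y
    have h2 := two_pow_ge C
    have h3 : Mlg ρ (S.π c x) (S.π c y) ≤ C := Mlg_le (by omega)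
    have h4 : S.mm c (.base x : Dot P ρ) (.base y) =
        max (max 0 0) (Mlg ρ (S.π c x) (S.π c y)) := by
      unfold PSys.mm
      rw [lv_base, lv_base]
      rfl
    rw [h4] at hk
    unfold k1 at hk
    omega

/-- Smallness, two points of one closed horoball, the point of `X`.
PROOF. `v.xb, v'.xb ∈ P.Y c` (`xb_mem_of_InB`), so `S.near_Y` (second alternatives) gives
`2 * d x (π c x) ≤ (C + 1) + 2 * C`.  Let `w := v` or `v'` with `S.mm c w (.base x) ≤ k3 C`.
`d w (.base (π c x)) ≤ 2 * k3 C + 1`: `S.d_InB` for `w` and `.base (π c x)` (`InB` by definition),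
with `S.mm c w (.base (π c x)) = S.mm c w (.base x)` (`S.fix`).  And `d v w ≤ 1`. -/
theorem PSys.small_inB_x {c : ι} {v v' : Dot P ρ} (hd : d v v' ≤ 1) (h : InB c v)
    (h' : InB c v') {x : X} (hx : Nr (C + 1) v.xb x v'.xb)
    (hc : S.mm c v (.base x) ≤ k3 C ∨ S.mm c v' (.base x) ≤ k3 C) :
    d v (.base x) ≤ 4 * C + 11 := by
  have e1 := S.near_Y c hx (Or.inr (xb_mem_of_InB h)) (Or.inr (xb_mem_of_InB h'))
  have e2 := d_base_le (P := P) (ρ := ρ) (S.π c x) x
  have e3 : ∀ w : Dot P ρ, InB c w → S.mm c w (.base x) ≤ k3 C →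
      d w (.base (S.π c x)) ≤ 2 * k3 C + 1 := by
    intro w hw hk
    have f1 := S.d_InB hw (Or.inr ⟨S.π c x, S.mem c x, rfl⟩ : InB c (.base (S.π c x) : Dot P ρ))
    have f2 : S.mm c w (.base (S.π c x)) = S.mm c w (.base x) := by
      unfold PSys.mm
      rw [lv_base, lv_base, S.pr_base, S.pr_base, S.fix _ _ (S.mem c x)]
    omega
  have e4 : d (S.π c x) x = d x (S.π c x) := d_comm _ _
  have e5 : k3 C = C + 4 := rfl
  rcases hc with hc | hc
  · have g1 := e3 v h hc
    have g2 := d_tri v (.base (S.π c x)) (.base x)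
    omega
  · have g1 := e3 v' h' hc
    have g2 := d_tri v' (.base (S.π c x)) (.base x)
    have g3 := d_tri v v' (.base x)
    omega

/-- Smallness, two points of one closed horoball, the columns.
PROOF. `z = S.cv e v i` or `S.cv e v' i`.  If `e ≠ c`: the levels at `e` are `0`
(`lv_of_InB_ne`), `v.xb, v'.xb ∈ P.Y c`, so `S.a3` gives `d (pr e v) (pr e v') ≤ C ≤ 2 ^ C` and
`S.mm e v v' ≤ C < k1 C`: contradiction.  If `e = c`: `lv c v ≤ i ≤ lv c v + 1`, and
`v = S.cv c v (lv c v)` (`cv_InB`), `d_cv_self`: distance `≤ 1`; in the second case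
`d v z ≤ d v v' + d v' z ≤ 2`. -/
theorem PSys.small_inB_c {c : ι} {v v' z : Dot P ρ} (hd : d v v' ≤ 1) (h : InB c v)
    (h' : InB c v') (h1 : S.mm c v v' ≤ lv c v + 1) (h2 : S.mm c v v' ≤ lv c v' + 1)
    (hz : z ∈ S.LC v v') : d v z ≤ 2 := by
  obtain ⟨e, i, hk, hi, hcase⟩ := hz
  by_cases hec : e = c
  · subst hec
    have hi2 : i ≤ ρ + 1 := hi.trans (S.mm_le_top _ _ _)
    rcases hcase with ⟨hl, rfl⟩ | ⟨hl, rfl⟩
    · have f1 := S.d_cv_self e v hl hi2
      rw [S.cv_InB h] at f1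
      omega
    · have f1 := S.d_cv_self e v' hl hi2
      rw [S.cv_InB h'] at f1
      have f2 := d_tri v v' (S.cv e v' i)
      omega
  · exfalso
    have f1 := lv_of_InB_ne h (Ne.symm hec)
    have f2 := lv_of_InB_ne h' (Ne.symm hec)
    have f3 := S.a3 e c hec _ _ (xb_mem_of_InB h) (xb_mem_of_InB h')
    have f4 := two_pow_ge C
    have f5 : Mlg ρ (S.pr e v) (S.pr e v') ≤ C := Mlg_le (f3.trans (by omega))
    unfold PSys.mm at hk
    rw [f1, f2] at hk
    unfold k1 at hk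
    omega

/-- Smallness.
PROOF. `S.adj_cases`, then the three lemmas above. -/
theorem PSys.LL_small (v v' : Dot P ρ) (h : d v v' ≤ 1) (z : Dot P ρ) (hz : z ∈ S.LL v v') :
    d v z ≤ hB C := by
  have hB' : hB C = 7 * C + 17 := rfl
  rcases S.adj_cases h with ⟨x, y, rfl, rfl, hxy⟩ | ⟨c, h1, h2, h3, h4⟩
  · have := S.small_base hxy hz
    omega
  · rcases hz with rfl | rfl | hz | hz
    · rw [d_self]
      omega
    · omega
    · obtain ⟨x, rfl, hx, hc⟩ := hz
      have := S.small_inB_x h h1 h2 hx (hc c)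
      omega
    · have := S.small_inB_c h h1 h2 h3 h4 hz
      omega

end Pool.Agent.Lib.H14E
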