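import Pool.Agent.Lib.H14E.BL1

set_option autoImplicit false

namespace Pool.Agent.Lib.H14E

open Pool.Agent.Lib.H76.Morse GeoMet

variable {X ι : Type} [GeoMet X] {P : PFam X ι} {C ρ : ℕ} (S : PSys P C)

/-- Centre in a horoball, the pair `v, v'` has the lowest meeting level.
PROOF. `n := S.mm e v v'`, `μ := S.cv e v n`.  `μ ∈ S.LL v v'` (`LL_col`).
`S.cv e v n ∈ S.LL t v` (`LL_col'`, `lv e v ≤ n ≤ S.mm e t v`, `mm_comm`).
`S.cv e v' n ∈ S.LL v' t` (`LL_col`), and `d μ (S.cv e v' n) ≤ 1` by `S.d_cv` (`i = j = n`,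
`Mlg ≤ n`, `Mlg_le_mm`). -/
theorem PSys.cen_hor {e : ι} {v v' t : Dot P ρ} (h0 : k1 C ≤ S.mm e v v')
    (h1 : S.mm e v v' ≤ S.mm e v' t) (h2 : S.mm e v v' ≤ S.mm e t v) :
    ∃ μ, (∃ a ∈ S.LL v v', d μ a ≤ 1) ∧ (∃ a ∈ S.LL v' t, d μ a ≤ 1) ∧
      (∃ a ∈ S.LL t v, d μ a ≤ 1) := by
  refine ⟨S.cv e v (S.mm e v v'), ⟨_, S.LL_col h0 (S.lv_le_mm e v v') le_rfl, ?_⟩,
    ⟨S.cv e v' (S.mm e v v'), S.LL_col (h0.trans h1) (S.lv_le_mm' e v v') h1, ?_⟩,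
    ⟨S.cv e v (S.mm e v v'), S.LL_col' (h0.trans h2) (S.lv_le_mm e v v') h2, ?_⟩⟩
  · rw [d_self]
    omega
  · have h3 := S.d_cv e v v' (S.mm_le_top e v v') (S.mm_le_top e v v')
    have h4 := S.Mlg_le_mm e v v'
    omega
  · rw [d_self]
    omega

/-- Centre in a horoball which is active for all three pairs.
PROOF. `cen_hor` for the pair with the lowest meeting level, after a cyclic permutation of
`v, v', t` (and of the conclusion). -/
theorem PSys.cen_act {e : ι} {v v' t : Dot P ρ} (h0 : k1 C ≤ S.mm e v v')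
    (h1 : k1 C ≤ S.mm e v' t) (h2 : k1 C ≤ S.mm e t v) :
    ∃ μ, (∃ a ∈ S.LL v v', d μ a ≤ 1) ∧ (∃ a ∈ S.LL v' t, d μ a ≤ 1) ∧
      (∃ a ∈ S.LL t v, d μ a ≤ 1) := by
  rcases le_total (S.mm e v v') (S.mm e v' t) with hAB | hAB
  · rcases le_total (S.mm e v v') (S.mm e t v) with hAD | hAD
    · exact S.cen_hor h0 hAB hAD
    · obtain ⟨μ, ha, hb, hc⟩ := S.cen_hor h2 hAD (hAD.trans hAB)
      exact ⟨μ, hb, hc, ha⟩
  · rcases le_total (S.mm e v' t) (S.mm e t v) with hBD | hBD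
    · obtain ⟨μ, ha, hb, hc⟩ := S.cen_hor h1 hBD hAB
      exact ⟨μ, hc, ha, hb⟩
    · obtain ⟨μ, ha, hb, hc⟩ := S.cen_hor h2 (hBD.trans hAB) hBD
      exact ⟨μ, hb, hc, ha⟩

/-- The centre property.
PROOF. `centre3 S.hyp v.xb v'.xb t.xb` gives `m` with `Nr (C + 1)` for the three pairs.
If for every `c` at most one of `S.mm c v (.base m)`, `S.mm c v' (.base m)`,
`S.mm c t (.base m)` is larger than `k3 C`, then `.base m` is in `S.LX` of all three pairs, so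
`μ := .base m`.  Otherwise there is `e` with two of them larger than `k3 C`, say for `v` and `v'`
(the other cases are the same after a cyclic permutation of `v, v', t`).  Then
`S.deep_act` (with `v`, and `v'` or `t`; and with `v'` and `t`, using `Nr.symm` where necessary)
gives `k1 C ≤ S.mm e v v'`, `k1 C ≤ S.mm e v' t`, `k1 C ≤ S.mm e t v` (`mm_comm`), and
`cen_act` applies. -/
theorem PSys.LL_cen (v v' t : Dot P ρ) :
    ∃ μ, (∃ a ∈ S.LL v v', d μ a ≤ 1) ∧ (∃ a ∈ S.LL v' t, d μ a ≤ 1) ∧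
      (∃ a ∈ S.LL t v, d μ a ≤ 1) := by
  obtain ⟨m, m1, m2, m3⟩ := centre3 S.hyp v.xb v'.xb t.xb
  by_cases H : ∃ e, (k3 C < S.mm e v (.base m) ∧ k3 C < S.mm e v' (.base m)) ∨
      (k3 C < S.mm e v' (.base m) ∧ k3 C < S.mm e t (.base m)) ∨
      (k3 C < S.mm e t (.base m) ∧ k3 C < S.mm e v (.base m))
  · obtain ⟨e, he⟩ := H
    have dv : k3 C < S.mm e v (.base m) → k1 C ≤ S.mm e v v' ∧ k1 C ≤ S.mm e t v := fun h =>
      ⟨S.deep_act le_rfl m1 h, by rw [S.mm_comm]; exact S.deep_act le_rfl m3.symm h⟩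
    have dv' : k3 C < S.mm e v' (.base m) → k1 C ≤ S.mm e v v' ∧ k1 C ≤ S.mm e v' t := fun h =>
      ⟨by rw [S.mm_comm]; exact S.deep_act le_rfl m1.symm h, S.deep_act le_rfl m2 h⟩
    have dt : k3 C < S.mm e t (.base m) → k1 C ≤ S.mm e v' t ∧ k1 C ≤ S.mm e t v := fun h =>
      ⟨by rw [S.mm_comm]; exact S.deep_act le_rfl m2.symm h, S.deep_act le_rfl m3 h⟩
    have key : k1 C ≤ S.mm e v v' ∧ k1 C ≤ S.mm e v' t ∧ k1 C ≤ S.mm e t v := by
      rcases he with ⟨ha, hb⟩ | ⟨ha, hb⟩ | ⟨ha, hb⟩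
      · exact ⟨(dv ha).1, (dv' hb).2, (dv ha).2⟩
      · exact ⟨(dv' ha).1, (dv' ha).2, (dt hb).2⟩
      · exact ⟨(dv hb).1, (dt ha).1, (dv hb).2⟩
    exact S.cen_act key.1 key.2.1 key.2.2
  · have H' : ∀ e, ¬ ((k3 C < S.mm e v (.base m) ∧ k3 C < S.mm e v' (.base m)) ∨
      (k3 C < S.mm e v' (.base m) ∧ k3 C < S.mm e t (.base m)) ∨
      (k3 C < S.mm e t (.base m) ∧ k3 C < S.mm e v (.base m))) := fun e he => H ⟨e, he⟩
    refine ⟨.base m, ⟨.base m, Or.inr (Or.inr (Or.inl ⟨m, rfl, m1, fun c => ?_⟩)), ?_⟩,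
      ⟨.base m, Or.inr (Or.inr (Or.inl ⟨m, rfl, m2, fun c => ?_⟩)), ?_⟩,
      ⟨.base m, Or.inr (Or.inr (Or.inl ⟨m, rfl, m3, fun c => ?_⟩)), ?_⟩⟩
    · have := H' c
      omega
    · rw [d_self]
      omega
    · have := H' c
      omega
    · rw [d_self]
      omega
    · have := H' c
      omega
    · rw [d_self]
      omega

end Pool.Agent.Lib.H14E
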