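import Pool.Agent.Lib.H14E.Tool1

/-!
# H14E, module A: slim triangles and the four point condition
-/

set_option autoImplicit false

namespace Pool.Agent.Lib.H14E

open Pool.Agent.Lib.H76.Morse GeoMet

variable {X : Type} [GeoMet X] {δ D : ℕ}

/-- Chunk Tool4 (S/M). The points p i: p 0 = q 0 is near q, p (d x y) = r (d w y) is near r.  So there is i with p i near a point q j of q (≤ D) and p i or
p (i+1) near a point of r: d (p i) (r k) ≤ D + 1 for some k (induction / Nat.find on the least i such that p i is within D of r; if it is 0 take i = 0,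
otherwise take its predecessor, which is near q by slimness).  u = p i: d w u ≤ d w (q j) + D = d w x - d x (q j) + D ≤ d w x - d x u + 2 D, and
d w u ≤ d w y - d u y + 2 (D + 1).  Add. -/
theorem slim_dist
    (h : ∀ (x y z : X) (p q r : ℕ → X), IsGeo p x y → IsGeo q x z → IsGeo r z y →
      ∀ i ≤ d x y, (∃ j ≤ d x z, d (p i) (q j) ≤ D) ∨ (∃ j ≤ d z y, d (p i) (r j) ≤ D))
    (x y w : X) {p : ℕ → X} (hp : IsGeo p x y) :
    ∃ i ≤ d x y, 2 * d w (p i) ≤ gp w x y + 4 * D + 2 := by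
  classical
  obtain ⟨q, hq⟩ := exists_isGeo x w
  obtain ⟨r, hr⟩ := exists_isGeo w y
  have key : ∃ i ≤ d x y, (∃ j ≤ d x w, d (p i) (q j) ≤ D) ∧
      (∃ k ≤ d w y, d (p i) (r k) ≤ D + 1) := by
    have hex : ∃ i, i ≤ d x y ∧ ∃ k ≤ d w y, d (p i) (r k) ≤ D := by
      refine ⟨d x y, le_rfl, d w y, le_rfl, ?_⟩
      rw [hp.2.1, hr.2.1, d_self]
      exact Nat.zero_le _
    obtain ⟨hi1, k, hk1, hk2⟩ := Nat.find_spec hex
    rcases Nat.eq_zero_or_pos (Nat.find hex) with h0 | h0
    · refine ⟨0, Nat.zero_le _, ⟨0, Nat.zero_le _, ?_⟩, k, hk1, ?_⟩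
      · rw [hp.1, hq.1, d_self]
        exact Nat.zero_le _
      · rw [h0] at hk2
        omega
    · have hnot := Nat.find_min hex (m := Nat.find hex - 1) (by omega)
      have hs := h x y w p q r hp hq hr (Nat.find hex - 1) (by omega)
      rcases hs with hs | hs
      · refine ⟨Nat.find hex - 1, by omega, hs, k, hk1, ?_⟩
        have h1 := hp.2.2 (Nat.find hex - 1) (Nat.find hex) (by omega) hi1
        have h2 := d_tri (p (Nat.find hex - 1)) (p (Nat.find hex)) (r k)
        omega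
      · exact absurd ⟨by omega, hs⟩ hnot
  obtain ⟨i, hi, ⟨j, hj, hj2⟩, k, hk, hk2⟩ := key
  refine ⟨i, hi, ?_⟩
  have e1 := hp.dist_left hi
  have e2 := hp.dist_right hi
  have e3 := hq.dist_left hj
  have e4 := hq.dist_right hj
  have e5 := hr.dist_left hk
  have e6 := hr.dist_right hk
  have t1 := d_tri w (q j) (p i)
  have t2 := d_tri x (q j) (p i)
  have t3 := d_tri w (r k) (p i)
  have t4 := d_tri (p i) (r k) y
  have c1 := d_comm (q j) (p i)
  have c2 := d_comm (r k) (p i)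
  have c3 := d_comm w (q j)
  have c4 := d_comm w x
  have g := gp_add w x y
  omega

/-- Chunk Tool4 (S). `hyp_of_gp`: o, x, y, z; a geodesic p from x to z, `slim_dist`: u = p i with 2 d o u ≤ gp o x z + 4 D + 2.  u is within D of a point v of a
geodesic from x to y or from y to z, and gp o x y ≤ 2 d o v for v between x and y. -/
theorem hyp_of_slim
    (h : ∀ (x y z : X) (p q r : ℕ → X), IsGeo p x y → IsGeo q x z → IsGeo r z y →
      ∀ i ≤ d x y, (∃ j ≤ d x z, d (p i) (q j) ≤ D) ∨ (∃ j ≤ d z y, d (p i) (r j) ≤ D)) :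
    Hyp (6 * D + 2) X := by
  apply hyp_of_gp
  intro o x y z
  obtain ⟨p, hp⟩ := exists_isGeo x z
  obtain ⟨q, hq⟩ := exists_isGeo x y
  obtain ⟨r, hr⟩ := exists_isGeo y z
  obtain ⟨i, hi, hu⟩ := slim_dist h x z o hp
  rcases h x z y p q r hp hq hr i hi with ⟨j, hj, hd⟩ | ⟨j, hj, hd⟩
  · have e3 := hq.dist_left hj
    have e4 := hq.dist_right hj
    have g := gp_add o x y
    have t1 := d_tri o (q j) x
    have t2 := d_tri o (q j) y
    have t3 := d_tri o (p i) (q j)
    have c1 := d_comm (q j) x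
    omega
  · have e3 := hr.dist_left hj
    have e4 := hr.dist_right hj
    have g := gp_add o y z
    have t1 := d_tri o (r j) y
    have t2 := d_tri o (r j) z
    have t3 := d_tri o (p i) (r j)
    have c1 := d_comm (r j) y
    omega

/-- Chunk Tool4 (S). `bt_geo`, `Hyp.bt` with w = z, `Hyp.near_geo` (2 δ + δ). -/
theorem slim_of_hyp (hX : Hyp δ X) (x y z : X) (p q r : ℕ → X) (hp : IsGeo p x y)
    (hq : IsGeo q x z) (hr : IsGeo r z y) (i : ℕ) (hi : i ≤ d x y) :
    (∃ j ≤ d x z, d (p i) (q j) ≤ 3 * δ) ∨ (∃ j ≤ d z y, d (p i) (r j) ≤ 3 * δ) := by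
  rcases hX.bt (bt_geo hp hi) z with h1 | h1
  · left
    obtain ⟨j, hj, hd⟩ := hX.near_geo h1 hq
    exact ⟨j, hj, by omega⟩
  · right
    obtain ⟨j, hj, hd⟩ := hX.near_geo h1 hr
    exact ⟨j, hj, by omega⟩

end Pool.Agent.Lib.H14E
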