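import Pool.Agent.Lib.H14E.BL3
import Pool.Agent.Lib.H14E.BL4
import Pool.Agent.Lib.H14E.BL5
import Pool.Agent.Lib.H14E.BG5
import Pool.Agent.Lib.H14E.Tool4

/-!
# H14E module B: uniform hyperbolicity of the cone-off (assembly)
-/

set_option autoImplicit false

namespace Pool.Agent.Lib.H14E

open Pool.Agent.Lib.H76.Morse GeoMet

variable {X ι : Type} [GeoMet X] {P : PFam X ι} {C ρ : ℕ} (S : PSys P C)

theorem PSys.LL_guess : Guess (hB C) (S.LL (ρ := ρ)) where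
  small := S.LL_small
  tri := S.LL_tri
  cen := fun v v' t => by
    obtain ⟨μ, ⟨a, ha, ha'⟩, ⟨b, hb, hb'⟩, ⟨c, hc, hc'⟩⟩ := S.LL_cen v v' t
    have h1 : 1 ≤ hB C := by unfold hB; omega
    exact ⟨μ, ⟨a, ha, ha'.trans h1⟩, ⟨b, hb, hb'.trans h1⟩, ⟨c, hc, hc'.trans h1⟩⟩

include S in
/-- Uniform hyperbolicity of the cone-off: the constant `dB C` does not depend on `ρ`. -/
theorem PSys.dot_hyp : Hyp (dB C) (Dot P ρ) := by
  have := hyp_of_slim (guess_slim (S.LL_guess (ρ := ρ)))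
  exact this

/-- The guessed path is near every geodesic. -/
theorem PSys.LL_near {v v' : Dot P ρ} {p : ℕ → Dot P ρ} (hp : IsGeo p v v') {z : Dot P ρ}
    (hz : z ∈ S.LL v v') : ∃ i ≤ d v v', d z (p i) ≤ FB C :=
  guess_upper S.LL_guess _ v v' p rfl hp z hz

end Pool.Agent.Lib.H14E
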