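import Pool.Agent.Lib.H14E.BX2

set_option autoImplicit false

namespace Pool.Agent.Lib.H14E

open Pool.Agent.Lib.H76.Morse GeoMet

variable {X ι : Type} [GeoMet X] {P : PFam X ι} {C : ℕ}

/-- Notation in the proofs of this file: `y := π e w`, `y2 := π e w'`, `a := π c w`, `b := π c y`,
`b2 := π c y2`, `a' := π c w'`.  `S.a3` (for `c`, and `y, y2 ∈ Y e`): `d b b2 ≤ C`.
PROOF. Suppose `C < d a b` and `2 * C < d a' b`, so `C < d a' b2`.
`S.pair c w y`: `d w a + d a b + d b y ≤ d w y + C`;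
`S.pair c w' y2`: `d w' a' + d a' b2 + d b2 y2 ≤ d w' y2 + C`;
`S.pair e w w'`: `d w y + d y y2 + d y2 w' ≤ d w w' + C`.
Triangle: `d w w' ≤ d w a + d a b + d b b2 + d b2 a' + d a' w'`.  Adding,
`d y y2 ≤ 4 * C`: contradiction. -/
theorem PSys.nd0 (S : PSys P C) {c e : ι} (hce : c ≠ e) {w w' : X}
    (h : 4 * C < d (S.π e w) (S.π e w')) :
    d (S.π c w) (S.π c (S.π e w)) ≤ C ∨ d (S.π c w') (S.π c (S.π e w)) ≤ 2 * C := by
  by_contra hn
  rw [not_or, not_le, not_le] at hn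
  obtain ⟨h1, h2⟩ := hn
  have a3 := S.a3 c e hce _ _ (S.mem e w) (S.mem e w')
  have t0 := d_tri (S.π c w') (S.π c (S.π e w')) (S.π c (S.π e w))
  rw [d_comm (S.π c (S.π e w')) (S.π c (S.π e w))] at t0
  have p1 := S.pair c w (S.π e w) (Or.inl h1)
  have p2 := S.pair c w' (S.π e w') (Or.inl (by omega))
  have p3 := S.pair e w w' (Or.inl (by omega))
  have t1 := d_tri w (S.π c w) w'
  have t2 := d_tri (S.π c w) (S.π c (S.π e w)) w'
  have t3 := d_tri (S.π c (S.π e w)) (S.π c (S.π e w')) w'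
  have t4 := d_tri (S.π c (S.π e w')) (S.π c w') w'
  rw [d_comm (S.π c (S.π e w')) (S.π c w'), d_comm (S.π c w') w'] at t4
  rw [d_comm (S.π e w') w'] at p3
  omega

/-- PROOF. Suppose `2 * C < d a' b`, so `C < d a' b2`.
`S.pair c w' y2`: `d w' a' + d a' b2 + d b2 y2 ≤ d w' y2 + C`.  As `w, b2 ∈ Y c`, `S.a3` (for `e`)
gives `d (π e w) (π e b2) ≤ C`, so with `o := π e b2`: `d o y2 ≥ d y y2 - C > C`, and
`S.pair e b2 w'`: `d b2 o + d o y2 + d y2 w' ≤ d b2 w' + C ≤ d b2 a' + d a' w' + C`.  Together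
`d o y2 ≤ 2 * C`, so `d y y2 ≤ 3 * C`: contradiction. -/
theorem PSys.nd1 (S : PSys P C) {c e : ι} (hce : c ≠ e) {w w' : X}
    (h : 4 * C < d (S.π e w) (S.π e w')) (hw : w ∈ P.Y c) :
    d (S.π c w') (S.π c (S.π e w)) ≤ 2 * C := by
  by_contra h2
  rw [not_le] at h2
  have a3 := S.a3 c e hce _ _ (S.mem e w) (S.mem e w')
  have t0 := d_tri (S.π c w') (S.π c (S.π e w')) (S.π c (S.π e w))
  rw [d_comm (S.π c (S.π e w')) (S.π c (S.π e w))] at t0
  have p2 := S.pair c w' (S.π e w') (Or.inl (by omega))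
  have a4 := S.a3 e c (Ne.symm hce) w (S.π c (S.π e w')) hw (S.mem c _)
  have t1 := d_tri (S.π e w) (S.π e (S.π c (S.π e w'))) (S.π e w')
  have p3 := S.pair e (S.π c (S.π e w')) w' (Or.inl (by omega))
  have t4 := d_tri (S.π c (S.π e w')) (S.π c w') w'
  rw [d_comm (S.π c (S.π e w')) (S.π c w'), d_comm (S.π c w') w'] at t4
  rw [d_comm (S.π e w') w'] at p3
  omega

/-- PROOF. Suppose `C < d a b`.  `S.pair c w y`: `d w a + d a b + d b y ≤ d w y + C`.  As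
`w', b ∈ Y c`, `S.a3` gives `d (π e w') (π e b) ≤ C`, so with `o := π e b`:
`d o y ≥ d y y2 - C > C` and `S.pair e b w`: `d b o + d o y + d y w ≤ d b w + C ≤
d b a + d a w + C`.  Together `d o y ≤ 2 * C`, so `d y y2 ≤ 3 * C`: contradiction. -/
theorem PSys.nd2 (S : PSys P C) {c e : ι} (hce : c ≠ e) {w w' : X}
    (h : 4 * C < d (S.π e w) (S.π e w')) (hw : w' ∈ P.Y c) :
    d (S.π c w) (S.π c (S.π e w)) ≤ C := by
  by_contra h1
  rw [not_le] at h1
  have p1 := S.pair c w (S.π e w) (Or.inl h1)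
  have a4 := S.a3 e c (Ne.symm hce) w' (S.π c (S.π e w)) hw (S.mem c _)
  have t1 := d_tri (S.π e w') (S.π e (S.π c (S.π e w))) (S.π e w)
  rw [d_comm (S.π e w') (S.π e w)] at t1
  have p3 := S.pair e (S.π c (S.π e w)) w (Or.inl (by omega))
  have t4 := d_tri (S.π c (S.π e w)) (S.π c w) w
  rw [d_comm (S.π c (S.π e w)) (S.π c w), d_comm (S.π c w) w] at t4
  rw [d_comm (S.π e w) w] at p3
  omega

/-- PROOF. `S.a3` for `e` and the points `w, w'` of `Y c`. -/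
theorem PSys.nd3 (S : PSys P C) {c e : ι} (hce : c ≠ e) {w w' : X}
    (h : 4 * C < d (S.π e w) (S.π e w')) : ¬ (w ∈ P.Y c ∧ w' ∈ P.Y c) := by
  rintro ⟨h1, h2⟩
  have a3 := S.a3 e c (Ne.symm hce) w w' h1 h2
  omega

end Pool.Agent.Lib.H14E
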