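import Pool.Agent.Lib.H14E.BD2
import Pool.Agent.Lib.H14E.BX3

set_option autoImplicit false

namespace Pool.Agent.Lib.H14E

open Pool.Agent.Lib.H76.Morse GeoMet

variable {X ι : Type} [GeoMet X] {P : PFam X ι} {C ρ : ℕ} (S : PSys P C)

/-- PROOF. By definition `x := v.xb`, `y := v'.xb`; `k1 C ≤ S.mm e v v' = Mlg` because the two
levels are `0`; `lt_of_Mlg` with `k = k1 C - 1 = C + 2` gives
`2 ^ (C + 2) < d (pr e v) (pr e v')`, and `2 ^ (C + 2) ≥ 4 * (C + 1)` (`two_pow_ge`). -/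
theorem PSys.far_of_mm {e : ι} {v v' : Dot P ρ} (h : k1 C ≤ S.mm e v v') (h0 : lv e v = 0)
    (h0' : lv e v' = 0) : 4 * C < d (S.pr e v) (S.pr e v') := by
  have h1 : C + 2 < Mlg ρ (S.pr e v) (S.pr e v') := by
    unfold PSys.mm k1 at h
    rw [h0, h0'] at h
    omega
  have h2 := (lt_of_Mlg h1).1
  have h3 := two_pow_ge C
  have h4 : 2 ^ (C + 2) = 4 * 2 ^ C := by ring
  omega

/-- No double depth: if the horoball `e` is active for `v, v'` (both of level `0` at `e`) then the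
point `base (pr e v)` is not deep for `v, v'` in any other horoball `c`.
PROOF. `w := v.xb`, `w' := v'.xb`, `y := S.π e w = S.pr e v`; `S.far_of_mm` is the hypothesis of
`nd0` … `nd3`.  `S.mm c v (.base y) = max (lv c v) (Mlg ρ (π c w) (π c y))` (`lv_base`).
If `lv c v ≥ 1`: `w ∈ P.Y c` (`xb_mem_of_lv`), so `w' ∉ P.Y c` (`nd3`) and `lv c v' = 0`
(otherwise `xb_mem_of_lv`), and `nd1` gives `d (π c w') (π c y) ≤ 2 * C ≤ 2 ^ (C + 1)`, so `Mlg ≤ C + 1`
(`Mlg_le`) and `S.mm c v' (.base y) ≤ C + 1 ≤ k3 C`.  If `lv c v' ≥ 1`: `lv c v = 0` in the same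
way and `nd2` gives `d (π c w) (π c y) ≤ C ≤ 2 ^ C`.  If both levels are `0`: `nd0`. -/
theorem PSys.nd_dot {c e : ι} (hce : c ≠ e) {v v' : Dot P ρ} (h : k1 C ≤ S.mm e v v')
    (h0 : lv e v = 0) (h0' : lv e v' = 0) :
    S.mm c v (.base (S.pr e v)) ≤ k3 C ∨ S.mm c v' (.base (S.pr e v)) ≤ k3 C := by
  have hf := S.far_of_mm h h0 h0'
  have hpb : S.pr c (.base (S.pr e v) : Dot P ρ) = S.π c (S.π e v.xb) := rfl
  have h3 := two_pow_ge C
  have h4 : 2 ^ (C + 1) = 2 * 2 ^ C := by ring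
  have m1 : d (S.π c v'.xb) (S.π c (S.π e v.xb)) ≤ 2 * C → lv c v' = 0 →
      S.mm c v' (.base (S.pr e v)) ≤ k3 C := by
    intro hd hl
    have h5 : Mlg ρ (S.pr c v') (S.pr c (.base (S.pr e v) : Dot P ρ)) ≤ C + 1 := by
      apply Mlg_le
      rw [hpb]
      unfold PSys.pr
      omega
    unfold PSys.mm k3
    rw [lv_base, hl]
    omega
  have m2 : d (S.π c v.xb) (S.π c (S.π e v.xb)) ≤ C → lv c v = 0 →
      S.mm c v (.base (S.pr e v)) ≤ k3 C := by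
    intro hd hl
    have h5 : Mlg ρ (S.pr c v) (S.pr c (.base (S.pr e v) : Dot P ρ)) ≤ C + 1 := by
      apply Mlg_le
      rw [hpb]
      unfold PSys.pr
      omega
    unfold PSys.mm k3
    rw [lv_base, hl]
    omega
  rcases Nat.eq_zero_or_pos (lv c v) with hv | hv
  · rcases Nat.eq_zero_or_pos (lv c v') with hv' | hv'
    · rcases S.nd0 hce hf with h6 | h6
      · exact Or.inl (m2 h6 hv)
      · exact Or.inr (m1 h6 hv')
    · exact Or.inl (m2 (S.nd2 hce hf (xb_mem_of_lv hv')) hv)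
  · right
    have hw := xb_mem_of_lv hv
    have hv' : lv c v' = 0 := by
      by_contra hne
      exact S.nd3 hce hf ⟨hw, xb_mem_of_lv (Nat.pos_of_ne_zero hne)⟩
    exact m1 (S.nd1 hce hf hw) hv'

/-- A point of `X` which is deep for `v, t` in the horoball `e` is near `P.Y e`.
PROOF. `S.near_Y e h`: if `lv e v ≥ 1` then `v.xb ∈ P.Y e` (`xb_mem_of_lv`); otherwise
`k3 C < Mlg ρ (S.pr e v) (S.π e x)` and `lt_of_Mlg` gives `C < 2 ^ (k3 C) < d …`; the same for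
`t` (with `d_comm`). -/
theorem PSys.deep_Y {e : ι} {v t : Dot P ρ} {x : X} {r : ℕ} (h : Nr r v.xb x t.xb)
    (h1 : k3 C < S.mm e v (.base x)) (h2 : k3 C < S.mm e t (.base x)) :
    2 * d x (S.π e x) ≤ r + 2 * C := by
  have key : ∀ u : Dot P ρ, k3 C < S.mm e u (.base x) →
      C < d (S.pr e u) (S.π e x) ∨ u.xb ∈ P.Y e := by
    intro u hu
    rcases Nat.eq_zero_or_pos (lv e u) with h0 | h0
    · left
      have h4 := (S.dist_of_mm_base hu (by omega)).1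
      have h5 := two_pow_k3 C
      omega
    · exact Or.inr (xb_mem_of_lv h0)
  apply S.near_Y e h
  · exact key v h1
  · rcases key t h2 with h3 | h3
    · left
      rw [d_comm]
      exact h3
    · exact Or.inr h3

/-- If `x` is between `v` and `t` and far from `v` at `e` then `e` is active for `v, t`.
PROOF. Suppose `S.mm e v t < k1 C`.  Then `lv e v, lv e t < k1 C ≤ k3 C`, so
`S.dist_of_mm_base` gives `2 ^ (k3 C) < d a o` (`a := S.pr e v`, `o := S.π e x`,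
`q := S.pr e t`) and `k3 C < ρ + 1`.  `Mlg ρ a q < k1 C < ρ + 1`, so `d a q ≤ 2 ^ (k1 C)`
(`le_of_Mlg`).  With `2 ^ (k3 C) = 2 * 2 ^ (k1 C)`, `2 ^ (k1 C) ≥ 8 * (C + 1)`
(`two_pow_k1`): `d o q ≥ d a o - d a q > C`.  `S.betw e h`:
`d a o + d o q ≤ d a q + r + 2 * C ≤ 2 ^ (k1 C) + 3 * C + 1`, but
`d a o > 2 * 2 ^ (k1 C)`: contradiction. -/
theorem PSys.deep_act {e : ι} {v t : Dot P ρ} {x : X} {r : ℕ} (hr : r ≤ C + 1)
    (h : Nr r v.xb x t.xb) (h1 : k3 C < S.mm e v (.base x)) : k1 C ≤ S.mm e v t := by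
  by_contra hcon
  have hlt : S.mm e v t < k1 C := by omega
  have hk : k3 C = k1 C + 1 := rfl
  have l1 := S.lv_le_mm e v t
  have l2 := S.Mlg_le_mm e v t
  obtain ⟨a1, a2⟩ := S.dist_of_mm_base h1 (by omega)
  have a3 : d (S.pr e v) (S.pr e t) ≤ 2 ^ (k1 C) := le_of_Mlg (ρ := ρ) (by omega) (by omega)
  obtain ⟨a4, a5⟩ := two_pow_k1 C
  have t1 := d_tri (S.pr e v) (S.pr e t) (S.π e x)
  have c1 := d_comm (S.π e x) (S.pr e t)
  have b1 := S.betw e h (by unfold PSys.pr at a1; omega) (by unfold PSys.pr at *; omega)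
  unfold PSys.pr at *
  omega

theorem PSys.LL_left (v v' : Dot P ρ) : v ∈ S.LL v v' := Or.inl rfl

theorem PSys.LL_right (v v' : Dot P ρ) : v' ∈ S.LL v v' := Or.inr (Or.inl rfl)

/-- PROOF. Everything is symmetric: `Nr.symm`, `S.mm_comm`, exchange the alternatives. -/
theorem PSys.LL_symm {v v' z : Dot P ρ} (h : z ∈ S.LL v v') : z ∈ S.LL v' v := by
  rcases h with h | h | h | h
  · exact Or.inr (Or.inl h)
  · exact Or.inl h
  · right; right; left
    obtain ⟨x, hx, hn, hc⟩ := h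
    exact ⟨x, hx, hn.symm, fun c => (hc c).symm⟩
  · right; right; right
    obtain ⟨c, i, h1, h2, h3⟩ := h
    rw [S.mm_comm] at h1 h2
    exact ⟨c, i, h1, h2, h3.symm⟩

/-- PROOF. By definition of `LC`. -/
theorem PSys.LL_col {c : ι} {v v' : Dot P ρ} {i : ℕ} (h : k1 C ≤ S.mm c v v')
    (h1 : lv c v ≤ i) (h2 : i ≤ S.mm c v v') : S.cv c v i ∈ S.LL v v' :=
  Or.inr (Or.inr (Or.inr ⟨c, i, h, h2, Or.inl ⟨h1, rfl⟩⟩))

theorem PSys.LL_col' {c : ι} {v v' : Dot P ρ} {i : ℕ} (h : k1 C ≤ S.mm c v v')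
    (h1 : lv c v' ≤ i) (h2 : i ≤ S.mm c v v') : S.cv c v' i ∈ S.LL v v' :=
  Or.inr (Or.inr (Or.inr ⟨c, i, h, h2, Or.inr ⟨h1, rfl⟩⟩))

end Pool.Agent.Lib.H14E
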