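import Pool.Agent.Lib.H14E.BL1

set_option autoImplicit false

namespace Pool.Agent.Lib.H14E

open Pool.Agent.Lib.H76.Morse GeoMet

variable {X ι : Type} [GeoMet X] {P : PFam X ι} {C ρ : ℕ} (S : PSys P C)

/-- The column point used below.
PROOF. `d (base x) (base x') ≤ d x x'`, `d (base x') (base (π e x')) ≤ d x' (π e x')`
(`d_base_le`), `base (π e x') = S.cv e (.base x') 0` (`S.cv_zero`, `S.pr_base`), and `S.d_cv` with
`i = 0`, `j = lv e w`, where `max (max 0 (lv e w)) (Mlg …) ≤ S.mm e w (.base x')`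
(`Mlg_comm`). -/
theorem PSys.d_to_col {e : ι} {w : Dot P ρ} {x x' : X} {a b m : ℕ} (h1 : d x x' ≤ a)
    (h2 : d x' (S.π e x') ≤ b) (h3 : S.mm e w (.base x') ≤ m) :
    d (.base x : Dot P ρ) (S.cv e w (lv e w)) ≤ a + b + 2 * m + 1 := by
  have b1 := d_base_le (P := P) (ρ := ρ) x x'
  have b2 := d_base_le (P := P) (ρ := ρ) x' (S.π e x')
  have e1 : (.base (S.π e x') : Dot P ρ) = S.cv e (.base x' : Dot P ρ) 0 := by
    rw [S.cv_zero, S.pr_base]
  have b3 := S.d_cv e (.base x' : Dot P ρ) w (i := 0) (j := lv e w) (Nat.zero_le _) (lv_le e w)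
  rw [← e1, Mlg_comm] at b3
  have l1 := S.lv_le_mm e w (.base x')
  have l2 := S.Mlg_le_mm e w (.base x')
  have t1 := d_tri (.base x : Dot P ρ) (.base x') (S.cv e w (lv e w))
  have t2 := d_tri (.base x' : Dot P ρ) (.base (S.π e x')) (S.cv e w (lv e w))
  omega

/-- The triangle property for points of `X`, main part.
PROOF. `nr_geo` (with `r = 2 * C + 1`): `x'` with `d v.xb x' + d x' t.xb = d v.xb t.xb` (so
`Nr 0 v.xb x' t.xb` and `Nr (C + 1) …`) and `d x x' ≤ 3 * C + 1`.  If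
`∀ c, S.mm c v (.base x') ≤ k3 C ∨ S.mm c t (.base x') ≤ k3 C` then `.base x' ∈ S.LX v t` and
`d_base_le`.  Otherwise there is `e` with `k3 C < S.mm e v (.base x')` and
`k3 C < S.mm e t (.base x')`.  Then `d x' (π e x') ≤ C` (`S.deep_Y`, `r = 0`) and
`k1 C ≤ S.mm e v t` (`S.deep_act`).  `S.lip`: `d (π e x) (π e x') ≤ 4 * C + 1 ≤ 2 ^ (C + 3)`, so
`S.mm e (.base x) (.base x') ≤ C + 3` (levels `0`, `Mlg_le`).
(i) `S.mm e v (.base x) ≤ k3 C`: by `S.mm_tri`, `S.mm e v (.base x') ≤ k3 C + 1`; take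
`z' := S.cv e v (lv e v) ∈ S.LL v t` (`LL_col`, `lv_le_mm`) and `d_to_col` with
`a = 3 * C + 1`, `b = C`, `m = k3 C + 1`: `d ≤ 4 * C + 1 + 2 * (C + 5) + 1`.
(ii) `S.mm e v' (.base x) ≤ k3 C`, so `S.mm e v' (.base x') ≤ k3 C + 1`.
(ii-a) if `k1 C ≤ S.mm e t v'`: `z' := S.cv e v' (lv e v') ∈ S.LL t v'` (`LL_col'`), the same bound.
(ii-b) if `S.mm e t v' < k1 C`: `S.mm e t (.base x') ≤ max (S.mm e t v') (S.mm e v' (.base x')) + 1
≤ k3 C + 2`; `z' := S.cv e t (lv e t) ∈ S.LL v t` (`LL_col'`), `m = k3 C + 2`. -/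
theorem PSys.tx_aux {v v' t : Dot P ρ} {x : X} (h : Nr (2 * C + 1) v.xb x t.xb)
    (hc : ∀ c, S.mm c v (.base x) ≤ k3 C ∨ S.mm c v' (.base x) ≤ k3 C) :
    ∃ z', (z' ∈ S.LL v t ∨ z' ∈ S.LL t v') ∧ d (.base x : Dot P ρ) z' ≤ 6 * C + 14 := by
  obtain ⟨x', hx1, hx2⟩ := nr_geo S.hyp h
  have n0 : Nr 0 v.xb x' t.xb := by unfold Nr; omega
  by_cases hall : ∀ c, S.mm c v (.base x') ≤ k3 C ∨ S.mm c t (.base x') ≤ k3 C
  · refine ⟨.base x', Or.inl (Or.inr (Or.inr (Or.inl ⟨x', rfl, n0.mono (by omega), hall⟩))), ?_⟩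
    have := d_base_le (P := P) (ρ := ρ) x x'
    omega
  · push Not at hall
    obtain ⟨e, he1, he2⟩ := hall
    have a1 : 2 * d x' (S.π e x') ≤ 0 + 2 * C := S.deep_Y n0 he1 he2
    have a2 : k1 C ≤ S.mm e v t := S.deep_act (Nat.zero_le _) n0 he1
    have a3 := S.lip e x x'
    have a4 := two_pow_ge C
    have a5 : 2 ^ (C + 3) = 8 * 2 ^ C := by ring
    have a6 : S.mm e (.base x : Dot P ρ) (.base x') ≤ C + 3 := by
      have : Mlg ρ (S.pr e (.base x : Dot P ρ)) (S.pr e (.base x' : Dot P ρ)) ≤ C + 3 := by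
        apply Mlg_le
        rw [S.pr_base, S.pr_base]
        omega
      unfold PSys.mm
      rw [lv_base, lv_base]
      omega
    have hk3 : k3 C = C + 4 := rfl
    rcases hc e with hc | hc
    · have b1 := S.mm_tri e v (.base x) (.base x')
      refine ⟨S.cv e v (lv e v), Or.inl (S.LL_col a2 le_rfl (S.lv_le_mm e v t)), ?_⟩
      have b2 := S.d_to_col (x := x) (x' := x') (e := e) (w := v) (a := 3 * C + 1) (b := C)
        (m := k3 C + 1) (by omega) (by omega) (by omega)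
      omega
    · have b1 := S.mm_tri e v' (.base x) (.base x')
      by_cases hd : k1 C ≤ S.mm e t v'
      · refine ⟨S.cv e v' (lv e v'), Or.inr (S.LL_col' hd le_rfl (S.lv_le_mm' e t v')), ?_⟩
        have b2 := S.d_to_col (x := x) (x' := x') (e := e) (w := v') (a := 3 * C + 1) (b := C)
          (m := k3 C + 1) (by omega) (by omega) (by omega)
        omega
      · have b3 := S.mm_tri e t v' (.base x')
        have hk1 : k1 C = C + 3 := rfl
        refine ⟨S.cv e t (lv e t), Or.inl (S.LL_col' a2 le_rfl (S.lv_le_mm' e v t)), ?_⟩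
        have b2 := S.d_to_col (x := x) (x' := x') (e := e) (w := t) (a := 3 * C + 1) (b := C)
          (m := k3 C + 2) (by omega) (by omega) (by omega)
        omega

/-- The triangle property for points of `X`.
PROOF. `nr_split` with `s := t.xb`: `Nr (2 * C + 1) v.xb x t.xb` (then `tx_aux`) or
`Nr (2 * C + 1) t.xb x v'.xb`; in the second case use `Nr.symm` and `tx_aux` for `v', v, t`
(with the alternatives of `hc` exchanged), and `LL_symm`. -/
theorem PSys.tx {v v' : Dot P ρ} (t : Dot P ρ) {x : X} (h : Nr (C + 1) v.xb x v'.xb)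
    (hc : ∀ c, S.mm c v (.base x) ≤ k3 C ∨ S.mm c v' (.base x) ≤ k3 C) :
    ∃ z', (z' ∈ S.LL v t ∨ z' ∈ S.LL t v') ∧ d (.base x : Dot P ρ) z' ≤ 6 * C + 14 := by
  rcases nr_split S.hyp h t.xb with h1 | h1
  · exact S.tx_aux (h1.mono (by omega)) hc
  · obtain ⟨z', h2, h3⟩ := S.tx_aux (v := v') (v' := v) (t := t) ((h1.symm).mono (by omega))
      (fun c => (hc c).symm)
    refine ⟨z', ?_, h3⟩
    rcases h2 with h2 | h2
    · exact Or.inr (S.LL_symm h2)
    · exact Or.inl (S.LL_symm h2)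

end Pool.Agent.Lib.H14E
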