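import Pool.Agent.Lib.H14E.BL2

set_option autoImplicit false

namespace Pool.Agent.Lib.H14E

open Pool.Agent.Lib.H76.Morse GeoMet

variable {X ι : Type} [GeoMet X] {P : PFam X ι} {C ρ : ℕ} (S : PSys P C)

/-- Barely active horoball: low points of a column.
PROOF. Write `n1 := S.mm e v t < k1 C = C + 3`, `n2 := S.mm e t v'`, `n := S.mm e v v'`,
`z := S.cv e v j`, `j ≤ k1 C`, `j ≤ ρ + 1` (`mm_le_top`).
(1) `lv e v ≥ 1`: `v = S.cv e v (lv e v)` (`cv_self`), `d z v ≤ j` (`d_cv_self`, `d_comm`),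
`v ∈ S.LL v t`.
(2) `lv e t ≥ 1`: `t = S.cv e t (lv e t)`; `S.d_cv`: `d z t ≤ 2 * max (max j (lv e t)) (Mlg …) + 1
≤ 2 * k1 C + 1` (`lv_le_mm'`, `Mlg_le_mm`); `t ∈ S.LL v t`.
(3) `lv e v = lv e t = 0` and `k1 C ≤ n2`: `z' := S.cv e t 0 ∈ S.LL t v'` (`LL_col`), `S.d_cv`:
`d z z' ≤ 2 * max j (Mlg …) + 1 ≤ 2 * k1 C + 1`.
(4) `n2 < k1 C` and `lv e v' ≥ 1`: `n ≤ max n1 n2 + 1 ≤ k1 C` (`mm_tri`), `v' = S.cv e v' (lv e v')`,
`S.d_cv`: `d z v' ≤ 2 * max (max j (lv e v')) (Mlg …) + 1 ≤ 2 * k1 C + 1`; `v' ∈ S.LL t v'`.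
(5) all three levels at `e` are `0`: let `y := S.pr e v`.  `S.far_of_mm` gives
`C < d (pr e v) (pr e v')`, so `S.near_pr`: `Nr C v.xb y v'.xb`, hence `Nr (C + 1) …`.  For every
`c`: `S.mm c v (.base y) ≤ k3 C ∨ S.mm c v' (.base y) ≤ k3 C`: for `c ≠ e` this is `nd_dot`; for
`c = e`, `S.mm e v (.base y) = max (max 0 0) (Mlg ρ y y) = 0` (`S.pr_base_mem`, `Mlg_self`).  `S.tx` gives `z'` with
`d (.base y) z' ≤ 6 * C + 14`, and `d z (.base y) ≤ j ≤ C + 3` (`S.cv_zero`, `d_cv_self`). -/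
theorem PSys.col_low {e : ι} {v v' t : Dot P ρ} {j : ℕ} (hn : k1 C ≤ S.mm e v v')
    (hj : lv e v ≤ j) (hj2 : j ≤ S.mm e v v') (hn1 : S.mm e v t < k1 C) (hjk : j ≤ k1 C) :
    ∃ z', (z' ∈ S.LL v t ∨ z' ∈ S.LL t v') ∧ d (S.cv e v j) z' ≤ 7 * C + 17 := by
  have hk : k1 C = C + 3 := rfl
  have htop := S.mm_le_top e v v'
  have hjt : j ≤ ρ + 1 := hj2.trans htop
  rcases Nat.eq_zero_or_pos (lv e v) with h0 | h0
  swap
  · refine ⟨v, Or.inl (S.LL_left v t), ?_⟩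
    have h1 := S.d_cv_self e v hj hjt
    rw [S.cv_self h0, d_comm] at h1
    omega
  rcases Nat.eq_zero_or_pos (lv e t) with h0t | h0t
  swap
  · refine ⟨t, Or.inl (S.LL_right v t), ?_⟩
    have h1 := S.d_cv e v t hjt (lv_le e t)
    rw [S.cv_self h0t] at h1
    have h2 := S.lv_le_mm' e v t
    have h3 := S.Mlg_le_mm e v t
    omega
  by_cases hn2 : k1 C ≤ S.mm e t v'
  · refine ⟨S.cv e t 0, Or.inr (S.LL_col hn2 h0t.le (Nat.zero_le _)), ?_⟩
    have h1 := S.d_cv e v t hjt (Nat.zero_le (ρ + 1))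
    have h3 := S.Mlg_le_mm e v t
    omega
  rw [not_le] at hn2
  rcases Nat.eq_zero_or_pos (lv e v') with h0' | h0'
  swap
  · refine ⟨v', Or.inr (S.LL_right t v'), ?_⟩
    have h1 := S.d_cv e v v' hjt (lv_le e v')
    rw [S.cv_self h0'] at h1
    have h2 := S.lv_le_mm' e v v'
    have h3 := S.Mlg_le_mm e v v'
    have h4 := S.mm_tri e v t v'
    omega
  · have hfar := S.far_of_mm hn h0 h0'
    have hnr : Nr (C + 1) v.xb (S.pr e v) v'.xb :=
      (S.near_pr e (x := v.xb) (y := v'.xb) (by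
        have h1 : C < d (S.pr e v) (S.pr e v') := by omega
        exact h1)).1.mono (Nat.le_succ C)
    have hall : ∀ c, S.mm c v (.base (S.pr e v)) ≤ k3 C ∨
        S.mm c v' (.base (S.pr e v)) ≤ k3 C := by
      intro c
      by_cases hce : c = e
      · subst hce
        left
        have h1 : S.mm c v (.base (S.pr c v)) = 0 := by
          unfold PSys.mm
          rw [S.pr_base_mem (S.pr_mem c v), Mlg_self, lv_base, h0]
          rfl
        rw [h1]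
        exact Nat.zero_le _
      · exact S.nd_dot hce hn h0 h0'
    obtain ⟨z', hz', hd⟩ := S.tx t hnr hall
    refine ⟨z', hz', ?_⟩
    have h1 := S.d_cv_self e v (Nat.zero_le j) hjt
    rw [S.cv_zero, d_comm] at h1
    have h2 := d_tri (S.cv e v j) (.base (S.pr e v)) z'
    omega

/-- The triangle property for the points of a column.
PROOF. `n := S.mm e v v'`, `n1 := S.mm e v t`, `n2 := S.mm e t v'`; `n ≤ max n1 n2 + 1`.
(1) `j ≤ n1`, `k1 C ≤ n1`: the point itself is in `S.LL v t` (`LL_col`), distance `0`.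
(2) `j ≤ n1 < k1 C`: `col_low`.
(3) `n1 < j` and `n ≤ n1 + 1`: so `j = n = n1 + 1`.  If `k1 C ≤ n1`: `z' := S.cv e v n1`
(`LL_col`; `lv e v ≤ n1` by `lv_le_mm`), distance `≤ 1` (`d_cv_self`).  If `n1 < k1 C`: `j ≤ k1 C`, `col_low`.
(4) `n1 < j` and `n1 + 1 < n`: then `n ≤ n2 + 1`.  If `k1 C ≤ n2`: `i := min j n2`,
`z' := S.cv e t i ∈ S.LL t v'` (`LL_col`, `lv e t ≤ n1 < j`, `lv e t ≤ n2`); `S.cv e t j` is
within `1` of `S.cv e v j` because `Mlg (pr e v) (pr e t) ≤ n1 < j` (`S.d_cv` with `i = j`), and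
within `j - i ≤ 1` of `z'` (`d_cv_self`).  If `n2 < k1 C`: `j ≤ n ≤ n2 + 1 ≤ k1 C` and
`n1 < k1 C`: `col_low`. -/
theorem PSys.col_tri {e : ι} {v v' : Dot P ρ} (t : Dot P ρ) {j : ℕ} (hn : k1 C ≤ S.mm e v v')
    (hj : lv e v ≤ j) (hj2 : j ≤ S.mm e v v') :
    ∃ z', (z' ∈ S.LL v t ∨ z' ∈ S.LL t v') ∧ d (S.cv e v j) z' ≤ 7 * C + 17 := by
  have hk : k1 C = C + 3 := rfl
  have htop := S.mm_le_top e v v'
  have htop1 := S.mm_le_top e v t
  have htop2 := S.mm_le_top e t v'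
  have hjt : j ≤ ρ + 1 := hj2.trans htop
  have hmt := S.mm_tri e v t v'
  by_cases h1 : S.mm e v t < k1 C
  · by_cases h2 : j ≤ k1 C
    · exact S.col_low hn hj hj2 h1 h2
    · have hn2 : k1 C ≤ S.mm e t v' := by omega
      have hl2 := S.lv_le_mm' e v t
      have hl3 := S.Mlg_le_mm e v t
      refine ⟨S.cv e t (min j (S.mm e t v')), Or.inr (S.LL_col hn2 (by omega) (min_le_right _ _)),
        ?_⟩
      have h3 := S.d_cv e v t hjt hjt
      have h4 := S.d_cv_self e t (min_le_left j (S.mm e t v')) hjt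
      rw [d_comm] at h4
      have h5 := d_tri (S.cv e v j) (S.cv e t j) (S.cv e t (min j (S.mm e t v')))
      omega
  · rw [not_lt] at h1
    by_cases h2 : j ≤ S.mm e v t
    · refine ⟨S.cv e v j, Or.inl (S.LL_col h1 hj h2), ?_⟩
      rw [d_self]
      exact Nat.zero_le _
    · rw [not_le] at h2
      by_cases h3 : j ≤ S.mm e v t + 1
      · refine ⟨S.cv e v (S.mm e v t), Or.inl (S.LL_col h1 (S.lv_le_mm e v t) le_rfl), ?_⟩
        have h4 := S.d_cv_self e v h2.le hjt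
        rw [d_comm] at h4
        omega
      · have hn2 : k1 C ≤ S.mm e t v' := by omega
        have hl2 := S.lv_le_mm' e v t
        have hl3 := S.Mlg_le_mm e v t
        have hl4 := S.lv_le_mm e t v'
        refine ⟨S.cv e t (min j (S.mm e t v')),
          Or.inr (S.LL_col hn2 (by omega) (min_le_right _ _)), ?_⟩
        have h3 := S.d_cv e v t hjt hjt
        have h4 := S.d_cv_self e t (min_le_left j (S.mm e t v')) hjt
        rw [d_comm] at h4
        have h5 := d_tri (S.cv e v j) (S.cv e t j) (S.cv e t (min j (S.mm e t v')))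
        omega

/-- The triangle property.
PROOF. Cases of `z ∈ S.LL v v'`: `z = v`: `LL_left`; `z = v'`: `LL_right`; `z ∈ LX`: `S.tx`;
`z = S.cv c v i`: `col_tri`; `z = S.cv c v' i`: `col_tri` for `v', v` (`mm_comm`) and `LL_symm`. -/
theorem PSys.LL_tri (v v' t z : Dot P ρ) (hz : z ∈ S.LL v v') :
    ∃ z', (z' ∈ S.LL v t ∨ z' ∈ S.LL t v') ∧ d z z' ≤ hB C := by
  have hB' : hB C = 7 * C + 17 := rfl
  rcases hz with h | h | h | h
  · refine ⟨v, Or.inl (S.LL_left v t), ?_⟩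
    rw [h, d_self]
    exact Nat.zero_le _
  · refine ⟨v', Or.inr (S.LL_right t v'), ?_⟩
    rw [h, d_self]
    exact Nat.zero_le _
  · obtain ⟨x, rfl, hx, hc⟩ := h
    obtain ⟨z', hz', hd⟩ := S.tx t hx hc
    exact ⟨z', hz', by omega⟩
  · obtain ⟨c, i, hk, hi, h | h⟩ := h
    · obtain ⟨hl, rfl⟩ := h
      obtain ⟨z', hz', hd⟩ := S.col_tri t hk hl hi
      exact ⟨z', hz', by omega⟩
    · obtain ⟨hl, rfl⟩ := h
      rw [S.mm_comm] at hk hi
      obtain ⟨z', hz', hd⟩ := S.col_tri t hk hl hi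
      refine ⟨z', ?_, by omega⟩
      rcases hz' with h | h
      · exact Or.inr (S.LL_symm h)
      · exact Or.inl (S.LL_symm h)

end Pool.Agent.Lib.H14E
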