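import Pool.Agent.Lib.H14E.B1

set_option autoImplicit false

namespace Pool.Agent.Lib.H14E

open Pool.Agent.Lib.H76.Morse GeoMet

variable {X ι : Type} [GeoMet X] {P : PFam X ι} {C ρ : ℕ}

theorem Mlg_comm (a b : X) : Mlg ρ a b = Mlg ρ b a := by
  unfold Mlg
  rw [d_comm]

theorem Mlg_self (a : X) : Mlg ρ a a = 0 := by
  unfold Mlg
  rw [d_self]
  simp

/-- PROOF. `Nat.clog_le_of_le_pow`. -/
theorem Mlg_le {a b : X} {k : ℕ} (h : d a b ≤ 2 ^ k) : Mlg ρ a b ≤ k := by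
  unfold Mlg
  exact le_trans (min_le_left _ _) (Nat.clog_le_of_le_pow h)

theorem Mlg_le_top (a b : X) : Mlg ρ a b ≤ ρ + 1 := min_le_right _ _

/-- PROOF. `Nat.clog 2 (d a b) ≤ k` since `k < ρ + 1`, and `Nat.le_pow_clog`. -/
theorem le_of_Mlg {a b : X} {k : ℕ} (h : Mlg ρ a b ≤ k) (hk : k < ρ + 1) : d a b ≤ 2 ^ k := by
  unfold Mlg at h
  have h1 : Nat.clog 2 (d a b) ≤ k := by
    rcases min_le_iff.mp h with h2 | h2
    · exact h2
    · omega
  exact le_trans (Nat.le_pow_clog (by norm_num) (d a b)) (Nat.pow_le_pow_right (by norm_num) h1)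

/-- PROOF. Contrapositive of `Mlg_le`, and `Mlg_le_top`. -/
theorem lt_of_Mlg {a b : X} {k : ℕ} (h : k < Mlg ρ a b) : 2 ^ k < d a b ∧ k < ρ + 1 := by
  refine ⟨?_, lt_of_lt_of_le h (Mlg_le_top a b)⟩
  by_contra hc
  exact absurd (Mlg_le (ρ := ρ) (not_lt.mp hc)) (by omega)

/-- PROOF. Let `k` be the maximum on the right.  If `k ≥ ρ + 1`: `Mlg_le_top`.  Otherwise
`d a b, d b c ≤ 2 ^ k` (`le_of_Mlg`), so `d a c ≤ 2 ^ (k + 1)` and `Mlg_le`. -/
theorem Mlg_tri (a b c : X) : Mlg ρ a c ≤ max (Mlg ρ a b) (Mlg ρ b c) + 1 := by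
  obtain ⟨k, hk⟩ : ∃ k, k = max (Mlg ρ a b) (Mlg ρ b c) := ⟨_, rfl⟩
  rw [← hk]
  by_cases h : ρ + 1 ≤ k
  · exact le_trans (Mlg_le_top a c) (by omega)
  · have h1 : d a b ≤ 2 ^ k := le_of_Mlg (ρ := ρ) (by rw [hk]; exact le_max_left _ _) (by omega)
    have h2 : d b c ≤ 2 ^ k := le_of_Mlg (ρ := ρ) (by rw [hk]; exact le_max_right _ _) (by omega)
    apply Mlg_le
    have h3 := d_tri a b c
    rw [pow_succ]
    omega

theorem lv_le (c : ι) (v : Dot P ρ) : lv c v ≤ ρ + 1 := by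
  unfold lv
  split
  · cases v with
    | base x => exact Nat.zero_le _
    | hor e y k hy h1 h2 => exact h2.trans (Nat.le_succ _)
    | apex e => exact le_rfl
  · exact Nat.zero_le _

@[simp] theorem lv_base (c : ι) (x : X) : lv c (.base x : Dot P ρ) = 0 := by
  simp [lv, Dot.own]

theorem lv_hor_self (c : ι) (y : X) (k : ℕ) (hy : y ∈ P.Y c) (h1 : 1 ≤ k) (h2 : k ≤ ρ) :
    lv c (.hor c y k hy h1 h2 : Dot P ρ) = k := by
  simp [lv, Dot.own, Dot.lev]

theorem lv_hor_ne {c e : ι} (hce : e ≠ c) (y : X) (k : ℕ) (hy : y ∈ P.Y e) (h1 : 1 ≤ k)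
    (h2 : k ≤ ρ) : lv c (.hor e y k hy h1 h2 : Dot P ρ) = 0 := by
  simp [lv, Dot.own, hce]

theorem lv_apex_self (c : ι) : lv c (.apex c : Dot P ρ) = ρ + 1 := by
  simp [lv, Dot.own, Dot.lev]

theorem lv_apex_ne {c e : ι} (hce : e ≠ c) : lv c (.apex e : Dot P ρ) = 0 := by
  simp [lv, Dot.own, hce]

theorem lv_col (c : ι) (y : X) (hy : y ∈ P.Y c) {k : ℕ} (hk : k ≤ ρ + 1) :
    lv c (Dot.col c y hy k : Dot P ρ) = k := by
  rcases Nat.eq_zero_or_pos k with h0 | h0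
  · subst h0
    rw [Dot.col_zero, lv_base]
  · rcases Nat.lt_or_ge ρ k with h1 | h1
    · rw [Dot.col_apex c y hy h1, lv_apex_self]
      omega
    · rw [Dot.col_hor c y hy h0 h1, lv_hor_self]

/-- PROOF. `v` cannot be `base` (level `0`); for `hor e` and `apex e` the level relative to `c`
is positive only if `e = c`. -/
theorem own_of_lv {c : ι} {v : Dot P ρ} (h : 1 ≤ lv c v) : v.own = some c := by
  unfold lv at h
  split at h
  · assumption
  · omega

/-- PROOF. Cases on `v` (`own_of_lv`): `hor c y k` has base point `y ∈ P.Y c`; for the apex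
`(P.ne c).some_mem`. -/
theorem xb_mem_of_lv {c : ι} {v : Dot P ρ} (h : 1 ≤ lv c v) : v.xb ∈ P.Y c := by
  have h1 := own_of_lv h
  cases v with
  | base x => simp [Dot.own] at h1
  | hor e y k hy h2 h3 =>
    have h4 : e = c := by simpa [Dot.own] using h1
    subst h4
    exact hy
  | apex e =>
    have h4 : e = c := by simpa [Dot.own] using h1
    subst h4
    exact (P.ne e).some_mem

/-- PROOF. Two different owners. -/
theorem lv_ne {c e : ι} (hce : c ≠ e) {v : Dot P ρ} (h : 1 ≤ lv c v) : lv e v = 0 := by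
  by_contra h0
  have h1 := own_of_lv h
  have h2 := own_of_lv (c := e) (v := v) (by omega)
  rw [h1] at h2
  exact hce (Option.some.inj h2)

end Pool.Agent.Lib.H14E
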