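import Pool.Agent.Lib.H14E.BX1

set_option autoImplicit false

namespace Pool.Agent.Lib.H14E

open Pool.Agent.Lib.H76.Morse GeoMet

variable {X ι : Type} [GeoMet X] {P : PFam X ι} {C : ℕ}

/-- PROOF. First case: `S.a1`.  If `x ∈ P.Y c` then `S.π c x = x` and this is `S.a2` for `(y, x)`;
if `y ∈ P.Y c` it is `S.a2` for `(x, y)`, with `S.π c y = y`. -/
theorem PSys.pair (S : PSys P C) (c : ι) (x y : X)
    (h : C < d (S.π c x) (S.π c y) ∨ x ∈ P.Y c ∨ y ∈ P.Y c) :
    d x (S.π c x) + d (S.π c x) (S.π c y) + d (S.π c y) y ≤ d x y + C := by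
  by_cases hx : x ∈ P.Y c
  · have h1 := S.a2 c y x hx
    have h2 := S.fix c x hx
    rw [h2, d_self]
    have c1 := d_comm x (S.π c y)
    have c2 := d_comm y (S.π c y)
    have c3 := d_comm y x
    omega
  · by_cases hy : y ∈ P.Y c
    · have h1 := S.a2 c x y hy
      have h2 := S.fix c y hy
      rw [h2, d_self]
      omega
    · have h0 : C < d (S.π c x) (S.π c y) := by
        rcases h with h | h | h
        · exact h
        · exact absurd h hx
        · exact absurd h hy
      rcases S.a1 c x y with h1 | h1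
      · omega
      · exact h1

/-- PROOF. Put `p, o, q` for the projections of `x, z, y`.  `S.pair` for `(x, z)` and for
`(z, y)`, added; the left side is `≥ d x y + 2 * d z o - …` by the triangle inequality
`d x y ≤ d x p + d p o + d o q + d q y`, the right side is `≤ d x y + r + 2 * C`. -/
theorem PSys.near_Y (S : PSys P C) (c : ι) {r : ℕ} {x z y : X} (h : Nr r x z y)
    (h1 : C < d (S.π c x) (S.π c z) ∨ x ∈ P.Y c) (h2 : C < d (S.π c z) (S.π c y) ∨ y ∈ P.Y c) :
    2 * d z (S.π c z) ≤ r + 2 * C := by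
  unfold Nr at h
  have a1 := S.pair c x z (by tauto)
  have a2 := S.pair c z y (by tauto)
  have t1 := d_tri x (S.π c x) y
  have t2 := d_tri (S.π c x) (S.π c z) y
  have t3 := d_tri (S.π c z) (S.π c y) y
  have c1 := d_comm z (S.π c z)
  omega

/-- PROOF. The same sum, with `d x y ≤ d x p + d p q + d q y`. -/
theorem PSys.betw (S : PSys P C) (c : ι) {r : ℕ} {x z y : X} (h : Nr r x z y)
    (h1 : C < d (S.π c x) (S.π c z)) (h2 : C < d (S.π c z) (S.π c y)) :
    d (S.π c x) (S.π c z) + d (S.π c z) (S.π c y) ≤ d (S.π c x) (S.π c y) + r + 2 * C := by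
  unfold Nr at h
  have a1 := S.pair c x z (Or.inl h1)
  have a2 := S.pair c z y (Or.inl h2)
  have t1 := d_tri x (S.π c x) y
  have t2 := d_tri (S.π c x) (S.π c y) y
  omega

/-- PROOF. `S.a1`. -/
theorem PSys.lip (S : PSys P C) (c : ι) (x y : X) :
    d (S.π c x) (S.π c y) ≤ d x y + C := by
  rcases S.a1 c x y with h1 | h1 <;> omega

/-- PROOF. `S.a1` and the triangle inequality `d p y ≤ d p q + d q y`, `d x q ≤ d x p + d p q`. -/
theorem PSys.near_pr (S : PSys P C) (c : ι) {x y : X} (h : C < d (S.π c x) (S.π c y)) :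
    Nr C x (S.π c x) y ∧ Nr C x (S.π c y) y := by
  have a1 := S.pair c x y (Or.inl h)
  have t1 := d_tri (S.π c x) (S.π c y) y
  have t2 := d_tri x (S.π c x) (S.π c y)
  unfold Nr
  constructor <;> omega

end Pool.Agent.Lib.H14E
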