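import Pool.Agent.Lib.H14E.BM1
import Pool.Agent.Lib.H14E.BX2

set_option autoImplicit false

namespace Pool.Agent.Lib.H14E

open Pool.Agent.Lib.H76.Morse GeoMet

variable {X ι : Type} [GeoMet X] {P : PFam X ι} {C ρ : ℕ} (S : PSys P C)

theorem PSys.mm_comm (c : ι) (v v' : Dot P ρ) : S.mm c v v' = S.mm c v' v := by
  unfold PSys.mm
  rw [Mlg_comm, max_comm (lv c v)]

theorem PSys.lv_le_mm (c : ι) (v v' : Dot P ρ) : lv c v ≤ S.mm c v v' := by
  unfold PSys.mm
  omega

theorem PSys.lv_le_mm' (c : ι) (v v' : Dot P ρ) : lv c v' ≤ S.mm c v v' := by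
  unfold PSys.mm
  omega

theorem PSys.Mlg_le_mm (c : ι) (v v' : Dot P ρ) : Mlg ρ (S.pr c v) (S.pr c v') ≤ S.mm c v v' := by
  unfold PSys.mm
  omega

theorem PSys.mm_le_top (c : ι) (v v' : Dot P ρ) : S.mm c v v' ≤ ρ + 1 := by
  unfold PSys.mm
  have := lv_le c v
  have := lv_le c v'
  have := Mlg_le_top (ρ := ρ) (S.pr c v) (S.pr c v')
  omega

/-- Quasi-ultrametric inequality.
PROOF. `Mlg_tri` and `lv_le_mm`. -/
theorem PSys.mm_tri (c : ι) (v v' t : Dot P ρ) :
    S.mm c v t ≤ max (S.mm c v v') (S.mm c v' t) + 1 := by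
  unfold PSys.mm
  have := Mlg_tri (ρ := ρ) (S.pr c v) (S.pr c v') (S.pr c t)
  omega

/-- PROOF. If `lv c v ≥ 1` then `v.xb ∈ P.Y c` (`xb_mem_of_lv`) and `S.fix`. -/
theorem PSys.pr_of_lv {c : ι} {v : Dot P ρ} (h : 1 ≤ lv c v) : S.pr c v = v.xb :=
  S.fix c _ (xb_mem_of_lv h)

theorem PSys.pr_base (c : ι) (x : X) : S.pr c (.base x : Dot P ρ) = S.π c x := rfl

/-- PROOF. `S.fix`. -/
theorem PSys.pr_base_mem {c : ι} {x : X} (h : x ∈ P.Y c) :
    S.pr c (.base x : Dot P ρ) = x :=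
  S.fix c _ h

/-- A vertex of positive level is on its column.
PROOF. Cases on `v`; `own_of_lv`: `v = hor c y k` and `S.pr c v = y` (`pr_of_lv`),
`Dot.col_hor`; or `v = apex c`, `Dot.col_apex`. (Use `congr`/`subst` for the membership proof:
`Dot.col c y hy k` with `y = y'` : `subst`.) -/
theorem PSys.cv_self {c : ι} {v : Dot P ρ} (h : 1 ≤ lv c v) : S.cv c v (lv c v) = v := by
  have h2 : v.own = some c := own_of_lv h
  have h3 : S.pr c v = v.xb := S.pr_of_lv h
  have key : ∀ (y : X) (hy : y ∈ P.Y c), y = v.xb → Dot.col c y hy (lv c v) = v := by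
    intro y hy e
    have hl : lv c v = v.lev := by
      unfold lv
      rw [if_pos h2]
    rw [hl] at h ⊢
    cases v with
    | base x => simp [Dot.own] at h2
    | hor e' y' k hy' h1' h2' =>
      have he : e' = c := by simpa [Dot.own] using h2
      subst he
      have e2 : y = y' := e
      subst e2
      exact Dot.col_hor e' y hy h1' h2'
    | apex e' =>
      have he : e' = c := by simpa [Dot.own] using h2
      subst he
      exact Dot.col_apex e' y hy (Nat.lt_succ_self ρ)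
  exact key _ _ h3

/-- PROOF. `Dot.col_zero`. -/
theorem PSys.cv_zero (c : ι) (v : Dot P ρ) : S.cv c v 0 = .base (S.pr c v) := by
  unfold PSys.cv
  rw [Dot.col_zero]

/-- PROOF. `lv_col`. -/
theorem PSys.lv_cv (c : ι) (v : Dot P ρ) {k : ℕ} (hk : k ≤ ρ + 1) : lv c (S.cv c v k) = k :=
  lv_col c _ _ hk

/-- If the meeting level with a base point is larger than `k ≥ lv c v` then the `X`-distance of the
projections is larger than `2 ^ k`.
PROOF. `lv_base`, so `k < Mlg`, and `lt_of_Mlg`. -/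
theorem PSys.dist_of_mm_base {c : ι} {v : Dot P ρ} {x : X} {k : ℕ}
    (h : k < S.mm c v (.base x)) (hl : lv c v ≤ k) :
    2 ^ k < d (S.pr c v) (S.π c x) ∧ k < ρ + 1 := by
  unfold PSys.mm at h
  rw [lv_base] at h
  have h2 : k < Mlg ρ (S.pr c v) (S.pr c (.base x : Dot P ρ)) := by omega
  exact lt_of_Mlg h2

theorem two_pow_ge (C : ℕ) : C + 1 ≤ 2 ^ C := Nat.lt_two_pow_self

/-- PROOF. `two_pow_ge`, `pow_add`. -/
theorem two_pow_k3 (C : ℕ) : 16 * (C + 1) ≤ 2 ^ (k3 C) := by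
  have h := two_pow_ge C
  unfold k3
  rw [pow_add]
  omega

/-- PROOF. `two_pow_ge`, `pow_add`. -/
theorem two_pow_k1 (C : ℕ) : 8 * (C + 1) ≤ 2 ^ (k1 C) ∧ 2 ^ (k3 C) = 2 * 2 ^ (k1 C) := by
  have h := two_pow_ge C
  unfold k1 k3
  rw [pow_add, pow_add]
  constructor <;> omega

end Pool.Agent.Lib.H14E
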