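import Pool.Agent.Lib.H14E.Core

/-!
# H14E: isometric actions
-/

set_option autoImplicit false

namespace Pool.Agent.Lib.H14E

open Pool.Agent.Lib.H76.Morse GeoMet

/-- `E` acts by isometries. -/
def IsoAct (E Γ : Type) [Group E] [MulAction E Γ] [GeoMet Γ] : Prop :=
  ∀ (g : E) (u v : Γ), d (g • u) (g • v) = d u v

end Pool.Agent.Lib.H14E
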