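import Pool.Agent.Lib.H14E.Tool2

/-!
# H14E, module A: projections to quasiconvex sets
-/

set_option autoImplicit false

namespace Pool.Agent.Lib.H14E

open Pool.Agent.Lib.H76.Morse GeoMet

variable {X : Type} [GeoMet X] {δ κ : ℕ}

/-- `Y` is `κ`-quasiconvex. -/
def QC (κ : ℕ) (Y : Set X) : Prop :=
  ∀ y ∈ Y, ∀ y' ∈ Y, ∀ x, Bt 0 y x y' → ∃ y'' ∈ Y, d x y'' ≤ κ

/-- `π` is a nearest point of `Y` to `x`. -/
def IsProj (Y : Set X) (x π : X) : Prop := π ∈ Y ∧ ∀ y ∈ Y, d x π ≤ d x y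

/-- Chunk Tool11 (S). -/
theorem exists_proj {Y : Set X} (hY : Y.Nonempty) (x : X) : ∃ π, IsProj Y x π := by
  classical
  have h : ∃ n, ∃ y ∈ Y, d x y = n := by
    obtain ⟨y, hy⟩ := hY
    exact ⟨d x y, y, hy, rfl⟩
  obtain ⟨y, hy, hn⟩ := Nat.find_spec h
  refine ⟨y, hy, fun z hz => ?_⟩
  rw [hn]
  exact Nat.find_min' h ⟨z, hz, rfl⟩

/-- Chunk Tool11 (S). `Hyp.near_geo` and QC. -/
theorem QC.bt (hX : Hyp δ X) {Y : Set X} (hY : QC κ Y) {C : ℕ} {y y' x : X} (hy : y ∈ Y)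
    (hy' : y' ∈ Y) (h : Bt C y x y') : ∃ y'' ∈ Y, d x y'' ≤ κ + 2 * C + δ := by
  obtain ⟨p, hp⟩ := exists_isGeo y y'
  obtain ⟨i, hi, hd⟩ := hX.near_geo h hp
  obtain ⟨y'', hy'', hk⟩ := hY y hy y' hy' (p i) (bt_geo hp hi)
  refine ⟨y'', hy'', ?_⟩
  have := d_tri x (p i) y''
  omega

/-- Chunk Tool11 (M). (P1) θ = 2 δ + 2 κ + 1.  P := gp π x y, t := P / 2 ≤ d π y.  u on a geodesic from π to y with d π u = t.  `Hyp.bt` for u between π and y, w = x: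
d x u ≤ d x π - t + δ or d x u + d u y ≤ d x y + δ, and d x y = d x π + d π y - P gives d x u ≤ d x π + t - P + δ ≤ d x π - t + δ too.  QC: y'' in Y with
d x y'' ≤ d x π - t + δ + κ, and d x π ≤ d x y'': t ≤ δ + κ. -/
theorem proj_bt (hX : Hyp δ X) {Y : Set X} (hY : QC κ Y) {x π y : X} (hπ : IsProj Y x π)
    (hy : y ∈ Y) : Bt (2 * δ + 2 * κ + 1) x π y := by
  rw [bt_iff_gp]
  have h0 := gp_add π x y
  have h1 := d_tri y π x
  have h1' := d_tri x y π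
  have ht : gp π x y / 2 ≤ d π y := by
    rw [d_comm y π] at h1'
    rw [d_comm x π] at h1'
    omega
  obtain ⟨u, hu1, hu2, hu3⟩ := exists_bpt π y ht
  obtain ⟨y'', hy'', hk⟩ := hY π hπ.1 y hy u hu3
  have h2 := hπ.2 y'' hy''
  have h3 := d_tri x u y''
  rw [d_comm x π] at h2
  rcases hX.bt hu3 x with h4 | h4
  · unfold Bt at h4
    rw [d_comm u x] at h4
    omega
  · unfold Bt at h4
    omega

/-- Chunk Tool11 (S/M). (P2) θ = 2 δ + 2 κ + 1.  Broken geodesic x, π, π', x' : gp π x π' ≤ θ, gp π' π x' ≤ θ (`proj_bt`).  `Hyp.gp4` at π with x, x', π':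
gp π x' π' = 2 d π π' - gp π' π x' > θ + δ, so gp π x x' ≤ θ + δ.  Then d x x' = d x π + d π x' - gp π x x' and d π x' = d π π' + d π' x' - gp π' π x'. -/
theorem proj_pass (hX : Hyp δ X) {Y : Set X} (hY : QC κ Y) {x π x' π' : X}
    (hπ : IsProj Y x π) (hπ' : IsProj Y x' π') (h : 4 * δ + 4 * κ + 3 ≤ d π π') :
    d x π + d π π' + d π' x' ≤ d x x' + 5 * δ + 4 * κ + 2 := by
  have h1 := bt_iff_gp.1 (proj_bt hX hY hπ hπ'.1)
  have h2 := bt_iff_gp.1 (proj_bt hX hY hπ' hπ.1)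
  have h3 := hX.gp4 π x x' π'
  have a1 := gp_add π x x'
  have a2 := gp_add π x' π'
  have a3 := gp_add π x π'
  have a4 := gp_add π' x' π
  rw [d_comm x π]
  rw [d_comm π' π] at a4
  rw [d_comm x' π] at a4
  rw [d_comm x' π'] at a2
  omega

/-- Chunk Tool11 (S). (P3) by cases with `proj_pass`. -/
theorem proj_lip (hX : Hyp δ X) {Y : Set X} (hY : QC κ Y) {x π x' π' : X}
    (hπ : IsProj Y x π) (hπ' : IsProj Y x' π') : d π π' ≤ d x x' + 5 * δ + 4 * κ + 3 := by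
  by_cases h : 4 * δ + 4 * κ + 3 ≤ d π π'
  · have := proj_pass hX hY hπ hπ' h
    omega
  · omega

/-- Chunk Tool11 (S). An r-neighbourhood of a quasiconvex set is quasiconvex, with points r-close replaced by points of Y (`Bt.ends`, `QC.bt`). -/
theorem QC.near (hX : Hyp δ X) {Y : Set X} (hY : QC κ Y) {C r : ℕ} {u v x y y' : X}
    (hy : y ∈ Y) (hy' : y' ∈ Y) (hu : d u y ≤ r) (hv : d v y' ≤ r) (h : Bt C u x v) :
    ∃ y'' ∈ Y, d x y'' ≤ κ + 2 * (C + 4 * r) + δ := by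
  have h1 := h.ends hu hv
  exact hY.bt hX hy hy' (h1.mono (by omega))

end Pool.Agent.Lib.H14E
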