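import Pool.Agent.Lib.H14E.B1
import Pool.Agent.Lib.H14E.Tool11
import Pool.Agent.Lib.H14E.Iso

/-!
# H14E, module B: a peripheral pair gives a projection system
-/

set_option autoImplicit false
set_option linter.unusedSectionVars false

namespace Pool.Agent.Lib.H14E

open Pool.Agent.Lib.H76.Morse GeoMet

variable {G X : Type} [Group G] [GeoMet X] [MulAction G X] {D : Subgroup G} {y₀ : X}

/-- The translates of `D y₀` are uniformly quasiconvex. -/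
theorem bp_qc (hiso : IsoAct G X) (hP : Periph D y₀) :
    ∃ κ : ℕ, ∀ c : G ⧸ D, QC κ ((perFam D y₀).Y c) := by
  obtain ⟨κ, hκ⟩ := hP.qc
  refine ⟨κ, ?_⟩
  intro c y hy y' hy' x hx
  obtain ⟨g, rfl, rfl⟩ := hy
  obtain ⟨g', hg', rfl⟩ := hy'
  have h1 : g⁻¹ * g' ∈ D := QuotientGroup.eq.1 hg'.symm
  have e1 : ∀ u v : X, d (g⁻¹ • u) (g⁻¹ • v) = d u v := fun u v => hiso g⁻¹ u v
  have h2 : d ((1 : G) • y₀) (g⁻¹ • x) + d (g⁻¹ • x) ((g⁻¹ * g') • y₀) =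
      d ((1 : G) • y₀) ((g⁻¹ * g') • y₀) := by
    have e2 : (1 : G) • y₀ = g⁻¹ • (g • y₀) := by rw [inv_smul_smul, one_smul]
    rw [e2, mul_smul, e1, e1, e1]
    have t := d_tri (g • y₀) x (g' • y₀)
    unfold Bt at hx
    omega
  obtain ⟨a, ha, hd⟩ := hκ 1 D.one_mem _ h1 _ h2
  refine ⟨(g * a) • y₀, ⟨g * a, ?_, rfl⟩, ?_⟩
  · rw [QuotientGroup.eq]
    simpa using D.inv_mem ha
  · rw [one_mul] at hd
    have := hiso g (g⁻¹ • x) (a • y₀)
    rw [smul_inv_smul, ← mul_smul] at this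
    omega

/-- Two different translates have bounded coarse intersection. -/
theorem bp_ovl (hiso : IsoAct G X) (hP : Periph D y₀) (r : ℕ) :
    ∃ L : ℕ, ∀ c e : G ⧸ D, c ≠ e → ∀ u ∈ (perFam D y₀).Y c, ∀ v ∈ (perFam D y₀).Y c,
      ∀ u' ∈ (perFam D y₀).Y e, ∀ v' ∈ (perFam D y₀).Y e, d u u' ≤ r → d v v' ≤ r →
        d u v ≤ L := by
  obtain ⟨L, hL⟩ := hP.ovl r
  refine ⟨L, ?_⟩
  intro c e hce u hu v hv u' hu' v' hv' h1 h2
  obtain ⟨g, rfl, rfl⟩ := hu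
  obtain ⟨g₁, hg₁, rfl⟩ := hv
  obtain ⟨k, rfl, rfl⟩ := hu'
  obtain ⟨k₁, hk₁, rfl⟩ := hv'
  have m1 : g⁻¹ * g₁ ∈ D := QuotientGroup.eq.1 hg₁.symm
  have m2 : k⁻¹ * k₁ ∈ D := QuotientGroup.eq.1 hk₁.symm
  have hn : g⁻¹ * k ∉ D := fun h => hce (QuotientGroup.eq.2 h)
  have key := hL (g⁻¹ * k) hn (g⁻¹ • (g • y₀)) (g⁻¹ • (g₁ • y₀))
    ⟨1, D.one_mem, by rw [inv_smul_smul, one_mul, one_smul, d_self]; exact Nat.zero_le _⟩
    ⟨g⁻¹ * g₁, m1, by rw [one_mul, mul_smul, d_self]; exact Nat.zero_le _⟩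
    ⟨1, D.one_mem, by rw [mul_one, mul_smul, hiso]; exact h1⟩
    ⟨k⁻¹ * k₁, m2, by
      have e : g⁻¹ * k * (k⁻¹ * k₁) = g⁻¹ * k₁ := by group
      rw [e, mul_smul, hiso]
      exact h2⟩
  rwa [hiso] at key

/-- A peripheral pair gives a projection system. -/
theorem bp_psys {δ : ℕ} (hX : Hyp δ X) (hiso : IsoAct G X) (hP : Periph D y₀) :
    ∃ C : ℕ, Nonempty (PSys (perFam D y₀) C) := by
  obtain ⟨κ, hκ⟩ := bp_qc hiso hP
  obtain ⟨L, hL⟩ := bp_ovl hiso hP (κ + 2 * (5 * δ + 4 * κ + 2) + δ)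
  choose π hπ using fun (c : G ⧸ D) (x : X) => exists_proj ((perFam D y₀).ne c) x
  refine ⟨5 * δ + 4 * κ + 3 + L, ⟨⟨π, ?_, ?_, ?_, ?_, ?_, ?_⟩⟩⟩
  · intro x y z w
    have := hX x y z w
    omega
  · intro c x
    exact (hπ c x).1
  · intro c x hx
    have h1 := (hπ c x).2 x hx
    rw [d_self] at h1
    exact (eq_of_d _ _ (Nat.le_zero.1 h1)).symm
  · intro c x y
    by_cases h : 4 * δ + 4 * κ + 3 ≤ d (π c x) (π c y)
    · right
      have := proj_pass hX (hκ c) (hπ c x) (hπ c y) h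
      omega
    · left
      omega
  · intro c x y hy
    have := proj_bt hX (hκ c) (hπ c x) hy
    unfold Bt at this
    omega
  · intro c e hce x y hx hy
    by_cases h : 4 * δ + 4 * κ + 3 ≤ d (π c x) (π c y)
    · have h1 := proj_pass hX (hκ c) (hπ c x) (hπ c y) h
      have t1 := d_tri (π c x) (π c y) y
      have t2 := d_tri x (π c x) (π c y)
      have b1 : Bt (5 * δ + 4 * κ + 2) x (π c x) y := by
        unfold Bt
        omega
      have b2 : Bt (5 * δ + 4 * κ + 2) x (π c y) y := by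
        unfold Bt
        omega
      obtain ⟨z, hz, hz'⟩ := (hκ e).bt hX hx hy b1
      obtain ⟨w, hw, hw'⟩ := (hκ e).bt hX hx hy b2
      have := hL c e hce _ (hπ c x).1 _ (hπ c y).1 z hz w hw hz' hw'
      omega
    · omega

end Pool.Agent.Lib.H14E
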