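import Pool.Agent.Lib.H14E.DotAct

/-!
# H14E: easy upper bounds for distances in the cone-off
-/

set_option autoImplicit false
set_option linter.unusedSectionVars false

namespace Pool.Agent.Lib.H14E

open Pool.Agent.Lib.H76.Morse GeoMet

variable {X ι : Type} [GeoMet X] {P : PFam X ι} {ρ : ℕ}

namespace Dot

theorem d_rel_le {u v : Dot P ρ} (h : Rel u v) : d u v ≤ 1 := by
  by_cases hne : u = v
  · subst hne
    rw [d_self]
    omega
  · rw [dist_def]
    exact le_of_eq (SimpleGraph.dist_eq_one_iff_adj.2 (graph_adj_of_rel h hne))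

theorem base_le (x x' : X) : d (base x : Dot P ρ) (base x') ≤ d x x' := by
  obtain ⟨p, h0, h1, h2⟩ := geo x x'
  have key : ∀ i, i ≤ d x x' → d (base (p 0) : Dot P ρ) (base (p i)) ≤ i := by
    intro i
    induction i with
    | zero => intro _; rw [d_self]
    | succ i ih =>
      intro hi
      have e : d (p i) (p (i + 1)) = 1 := by
        rw [h2 i (i + 1) (by omega) hi]
        omega
      have h3 := d_rel_le (ρ := ρ) (P := P) (Rel.base e)
      have h4 := d_tri (base (p 0) : Dot P ρ) (base (p i)) (base (p (i + 1)))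
      have := ih (by omega)
      omega
  have := key _ le_rfl
  rwa [h0, h1] at this

theorem col_le {c : ι} {y : X} (hy : y ∈ P.Y c) (i j : ℕ) :
    d (col c y hy i : Dot P ρ) (col c y hy (i + j)) ≤ j := by
  induction j with
  | zero => rw [Nat.add_zero, d_self]
  | succ j ih =>
    have h4 := d_tri (col c y hy i : Dot P ρ) (col c y hy (i + j)) (col c y hy (i + (j + 1)))
    have h3 : d (col c y hy (i + j) : Dot P ρ) (col c y hy (i + (j + 1))) ≤ 1 := by
      by_cases hk : i + j ≤ ρ
      · exact d_rel_le (Rel.vert hy hk)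
      · rw [col_apex c y hy (by omega), col_apex c y hy (by omega), d_self]
        omega
    omega

theorem base_apex_le {c : ι} {y : X} (hy : y ∈ P.Y c) :
    d (base y : Dot P ρ) (apex c) ≤ ρ + 1 := by
  have := col_le (ρ := ρ) hy 0 (ρ + 1)
  rwa [col_zero, col_apex c y hy (by omega)] at this

end Dot

end Pool.Agent.Lib.H14E
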