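import Pool.Agent.Lib.H14E.B1
import Pool.Agent.Lib.H14E.DotB

/-!
# H14E, module D1: the input from module B, and elementary facts on the cone-off

`ConeOK P ρ th δ'` collects what is used of module B for one depth `ρ`.
-/

set_option autoImplicit false
set_option linter.unusedSectionVars false

namespace Pool.Agent.Lib.H14E

open Pool.Agent.Lib.H76.Morse GeoMet

/-- What is used of module B. `th` may depend on `ρ`. -/
structure ConeOK {X ι : Type} [GeoMet X] (P : PFam X ι) (ρ th δ' : ℕ) : Prop where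
  hyp : Hyp δ' (Dot P ρ)
  diag : ∀ (c : ι) (u : Dot P ρ), u ≠ .apex c → ∀ y ∈ SS c u, ∀ y' ∈ SS c u, d y y' ≤ th
  pass : ∀ (c : ι) (u v : Dot P ρ), u ≠ .apex c → v ≠ .apex c → ∀ y ∈ SS c u, ∀ y' ∈ SS c v,
    th < d y y' → ∀ p : ℕ → Dot P ρ, IsGeo p u v → ∃ i ≤ d u v, p i = .apex c

section

variable {X ι : Type} [GeoMet X] {P : PFam X ι} {ρ : ℕ}

theorem d1_lip (f : Dot P ρ → ℤ) (hf : ∀ u v, Dot.Rel u v → |f u - f v| ≤ 1) (u v : Dot P ρ) :
    |f u - f v| ≤ d u v := by
  obtain ⟨p, h0, h1, h2⟩ := geo u v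
  have hstep : ∀ i, i + 1 ≤ d u v → |f (p i) - f (p (i + 1))| ≤ 1 := by
    intro i hi
    have e : d (p i) (p (i + 1)) = 1 := by
      rw [h2 i (i + 1) (by omega) hi]
      omega
    rw [Dot.dist_def, SimpleGraph.dist_eq_one_iff_adj, Dot.graph,
      SimpleGraph.fromRel_adj] at e
    rcases e.2 with h | h
    · exact hf _ _ h
    · rw [abs_sub_comm]
      exact hf _ _ h
  have key : ∀ i, i ≤ d u v → |f (p 0) - f (p i)| ≤ i := by
    intro i
    induction i with
    | zero => intro _; simp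
    | succ i ih =>
      intro hi
      have h3 := ih (by omega)
      have h4 := hstep i hi
      have h5 := abs_sub_le (f (p 0)) (f (p i)) (f (p (i + 1)))
      push_cast
      linarith
  have := key _ le_rfl
  rwa [h0, h1] at this

theorem d1_lev_col (c : ι) (y : X) (hy : y ∈ P.Y c) {k : ℕ} (hk : k ≤ ρ + 1) :
    (Dot.col c y hy k : Dot P ρ).lev = k := by
  unfold Dot.col
  split_ifs with h1 h2
  · rfl
  · show ρ + 1 = k
    omega
  · show 0 = k
    omega

theorem d1_lev_lip (u v : Dot P ρ) : u.lev ≤ v.lev + d u v := by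
  have := d1_lip (P := P) (ρ := ρ) (fun u => (u.lev : ℤ)) (by
    intro u v h
    cases h with
    | base h => simp [Dot.lev]
    | vert hy h =>
      rw [d1_lev_col _ _ hy (by omega), d1_lev_col _ _ hy (by omega)]
      push_cast
      rw [abs_le]
      constructor <;> linarith
    | hor hy hy' h1 h2 h3 h4 => simp [Dot.lev]) u v
  rw [abs_le] at this
  omega

open Classical in
/-- The signed level with respect to the cone `c`. -/
noncomputable def d1_sl (c : ι) (u : Dot P ρ) : ℤ := if u.own = some c then u.lev else - u.lev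

theorem d1_sl_eq {c : ι} {u v : Dot P ρ} (h1 : u.own = v.own) (h2 : u.lev = v.lev) :
    d1_sl c u = d1_sl c v := by
  unfold d1_sl
  rw [h1, h2]

theorem d1_own_col (c : ι) (y : X) (hy : y ∈ P.Y c) {k : ℕ} (hk : 1 ≤ k) :
    (Dot.col c y hy k : Dot P ρ).own = some c := by
  unfold Dot.col
  split_ifs with h2
  · rfl
  · rfl

theorem d1_apex_sep {c c' : ι} (h : c ≠ c') :
    2 * ρ + 2 ≤ d (Dot.apex c : Dot P ρ) (Dot.apex c') := by
  have := d1_lip (P := P) (ρ := ρ) (d1_sl c) (by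
    intro u v h
    cases h with
    | base h => simp [Dot.lev, d1_sl]
    | @vert e y hy k h =>
      have l1 := d1_lev_col (ρ := ρ) e y hy (k := k) (by omega)
      have l2 := d1_lev_col (ρ := ρ) e y hy (k := k + 1) (by omega)
      have o2 := d1_own_col (ρ := ρ) e y hy (k := k + 1) (by omega)
      unfold d1_sl
      rw [l1, l2, o2]
      rcases Nat.eq_zero_or_pos k with rfl | hk
      · split_ifs <;> simp
      · have o1 := d1_own_col (ρ := ρ) e y hy (k := k) hk
        rw [o1]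
        split_ifs
        · push_cast
          rw [abs_le]
          constructor <;> linarith
        · push_cast
          rw [abs_le]
          constructor <;> linarith
    | hor hy hy' h1 h2 h3 h4 =>
      rw [d1_sl_eq (c := c) (u := Dot.hor _ _ _ hy h1 h2) (v := Dot.hor _ _ _ hy' h1 h2) rfl rfl,
        sub_self, abs_zero]
      exact zero_le_one) (Dot.apex c) (Dot.apex c')
  have hc : ¬ c' = c := fun e => h e.symm
  unfold d1_sl at this
  simp only [Dot.own, Dot.lev, Option.some.injEq, if_true, hc, if_false] at this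
  rw [abs_le] at this
  push_cast at this
  omega

theorem d1_apex_far (u : Dot P ρ) (c : ι) : ρ + 1 ≤ u.lev + d u (Dot.apex c) := by
  have := d1_lev_lip (Dot.apex c : Dot P ρ) u
  rw [d_comm] at this
  exact this

theorem d1_rel_apex {u v : Dot P ρ} (h : Dot.Rel u v) {c : ι} (hv : v = .apex c) :
    ∃ (y : X) (hy : y ∈ P.Y c), u = Dot.col c y hy ρ := by
  cases h with
  | base h => cases hv
  | @vert e y hy k hk =>
    have hl := congrArg Dot.lev hv
    rw [d1_lev_col _ _ hy (by omega)] at hl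
    have hk2 : k = ρ := by
      simp only [Dot.lev] at hl
      omega
    subst hk2
    rw [Dot.col_apex _ _ _ (by omega)] at hv
    obtain rfl : e = c := by
      injection hv
    exact ⟨y, hy, rfl⟩
  | hor hy hy' h1 h2 h3 h4 => cases hv

theorem d1_rel_apex' {u v : Dot P ρ} (h : Dot.Rel u v) {c : ι} (hu : u = .apex c) : False := by
  cases h with
  | base h => cases hu
  | @vert e y hy k hk =>
    have hl := congrArg Dot.lev hu
    rw [d1_lev_col _ _ hy (by omega)] at hl
    simp only [Dot.lev] at hl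
    omega
  | hor hy hy' h1 h2 h3 h4 => cases hu

/-- The neighbours of the apex. -/
theorem d1_near_apex {u : Dot P ρ} {c : ι} (h : d u (.apex c) = 1) :
    ∃ (y : X) (hy : y ∈ P.Y c), u = Dot.col c y hy ρ := by
  rw [Dot.dist_def, SimpleGraph.dist_eq_one_iff_adj, Dot.graph, SimpleGraph.fromRel_adj] at h
  rcases h.2 with h | h
  · exact d1_rel_apex h rfl
  · exact (d1_rel_apex' h rfl).elim

theorem d1_col_apex_one {c : ι} {y : X} (hy : y ∈ P.Y c) :
    d (Dot.col c y hy ρ : Dot P ρ) (.apex c) = 1 := by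
  have h1 : d (Dot.col c y hy ρ : Dot P ρ) (.apex c) ≤ 1 := by
    have := Dot.col_le (ρ := ρ) hy ρ 1
    rwa [Dot.col_apex c y hy (show ρ < ρ + 1 by omega)] at this
  have h2 : d (Dot.col c y hy ρ : Dot P ρ) (.apex c) ≠ 0 := by
    intro h
    have := congrArg Dot.lev (eq_of_d _ _ h)
    rw [d1_lev_col _ _ hy (by omega)] at this
    simp only [Dot.lev] at this
    omega
  omega

theorem d1_SS_ne {c : ι} {u : Dot P ρ} (hu : u ≠ .apex c) : (SS c u).Nonempty := by
  obtain ⟨p, h0, h1, h2⟩ := geo u (.apex c)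
  have hpos : d u (.apex c) ≠ 0 := fun h => hu (eq_of_d _ _ h)
  have e1 := h2 (d u (.apex c) - 1) (d u (.apex c)) (by omega) le_rfl
  rw [h1] at e1
  obtain ⟨y, hy, e2⟩ := d1_near_apex (u := p (d u (.apex c) - 1)) (by rw [e1]; omega)
  refine ⟨y, hy, ?_⟩
  have e3 := h2 0 (d u (.apex c) - 1) (Nat.zero_le _) (by omega)
  rw [h0, e2] at e3
  rw [e3]
  omega

theorem d1_SS_mem {c : ι} {u : Dot P ρ} {y : X} (h : y ∈ SS c u) : y ∈ P.Y c := h.1

/-- `S_b(u) = S_b(apex c)` when every geodesic from `u` to the apex of `b` passes through the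
apex of `c`. -/
theorem d1_exact {c b : ι} {u : Dot P ρ} (hcb : c ≠ b)
    (h : ∀ p : ℕ → Dot P ρ, IsGeo p u (.apex b) → ∃ i ≤ d u (.apex b), p i = .apex c) :
    SS b u = SS b (.apex c : Dot P ρ) := by
  -- the distances add up
  have hadd : d u (.apex b) = d u (.apex c) + d (.apex c : Dot P ρ) (.apex b) := by
    obtain ⟨p, h0, h1, h2⟩ := geo u (.apex b)
    obtain ⟨i, hi, e⟩ := h p ⟨h0, h1, h2⟩
    have e1 := h2 0 i (Nat.zero_le _) hi
    have e2 := h2 i _ hi le_rfl
    rw [h0, e] at e1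
    rw [h1, e] at e2
    omega
  ext y
  constructor
  · rintro ⟨hy, e⟩
    refine ⟨hy, ?_⟩
    obtain ⟨q, h0, h1, h2⟩ := geo u (Dot.col b y hy ρ : Dot P ρ)
    have hcol := d1_col_apex_one (ρ := ρ) hy
    set w : Dot P ρ := Dot.col b y hy ρ with hw
    have hgeo : IsGeo (fun i => if i ≤ d u w then q i else (.apex b : Dot P ρ)) u (.apex b) := by
      refine ⟨?_, ?_, ?_⟩
      · simp [h0]
      · have : ¬ d u (.apex b) ≤ d u w := by omega
        simp [this]
      · intro i j hij hj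
        by_cases hj2 : j ≤ d u w
        · have hi2 : i ≤ d u w := by omega
          simp only [hj2, hi2, if_true]
          exact h2 i j hij hj2
        · have hjn : j = d u (.apex b) := by omega
          by_cases hi2 : i ≤ d u w
          · simp only [hj2, hi2, if_true, if_false]
            have e1 := h2 i (d u w) hi2 le_rfl
            rw [h1] at e1
            have e2 := h2 0 i (Nat.zero_le _) hi2
            rw [h0] at e2
            have t1 := d_tri (q i) w (.apex b)
            have t2 := d_tri u (q i) (.apex b)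
            omega
          · simp only [hj2, hi2, if_false]
            rw [d_self]
            omega
    obtain ⟨i, hi, ei⟩ := h _ hgeo
    have hi2 : i ≤ d u w := by
      by_contra hc
      simp only [hc, if_false] at ei
      injection ei with h5
      exact hcb h5.symm
    simp only [hi2, if_true] at ei
    have e1 := h2 i (d u w) hi2 le_rfl
    rw [h1, ei] at e1
    have e2 := h2 0 i (Nat.zero_le _) hi2
    rw [h0, ei] at e2
    omega
  · rintro ⟨hy, e⟩
    refine ⟨hy, ?_⟩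
    have hcol := d1_col_apex_one (ρ := ρ) hy
    have t1 := d_tri u (.apex c) (Dot.col b y hy ρ : Dot P ρ)
    have t2 := d_tri u (Dot.col b y hy ρ : Dot P ρ) (.apex b)
    omega

/-- The angle at the apex of `c`. -/
noncomputable def d1_ang (c : ι) (u v : Dot P ρ) : ℕ :=
  sSup {n | ∃ y ∈ SS c u, ∃ y' ∈ SS c v, n = d y y'}

theorem d1_ang_comm (c : ι) (u v : Dot P ρ) : d1_ang c u v = d1_ang c v u := by
  unfold d1_ang
  congr 1
  ext n
  constructor
  · rintro ⟨y, hy, y', hy', rfl⟩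
    exact ⟨y', hy', y, hy, d_comm _ _⟩
  · rintro ⟨y, hy, y', hy', rfl⟩
    exact ⟨y', hy', y, hy, d_comm _ _⟩

variable {th δ' : ℕ} (hC : ConeOK P ρ th δ')

include hC

theorem d1_bdd {c : ι} {u v : Dot P ρ} (hu : u ≠ .apex c) (hv : v ≠ .apex c) :
    BddAbove {n | ∃ y ∈ SS c u, ∃ y' ∈ SS c v, n = d y y'} := by
  obtain ⟨a, ha⟩ := d1_SS_ne hu
  obtain ⟨b, hb⟩ := d1_SS_ne hv
  refine ⟨th + d a b + th, ?_⟩
  rintro n ⟨y, hy, y', hy', rfl⟩
  have h1 := hC.diag c u hu y hy a ha
  have h2 := hC.diag c v hv b hb y' hy'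
  have t1 := d_tri y a y'
  have t2 := d_tri a b y'
  omega

theorem d1_le_ang {c : ι} {u v : Dot P ρ} (hu : u ≠ .apex c) (hv : v ≠ .apex c) {y y' : X}
    (hy : y ∈ SS c u) (hy' : y' ∈ SS c v) : d y y' ≤ d1_ang c u v :=
  le_csSup (d1_bdd hC hu hv) ⟨y, hy, y', hy', rfl⟩

theorem d1_ang_mem {c : ι} {u v : Dot P ρ} (hu : u ≠ .apex c) (hv : v ≠ .apex c) :
    ∃ y ∈ SS c u, ∃ y' ∈ SS c v, d1_ang c u v = d y y' := by
  obtain ⟨a, ha⟩ := d1_SS_ne hu
  obtain ⟨b, hb⟩ := d1_SS_ne hv
  have hne : {n | ∃ y ∈ SS c u, ∃ y' ∈ SS c v, n = d y y'}.Nonempty := ⟨_, a, ha, b, hb, rfl⟩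
  exact Nat.sSup_mem hne (d1_bdd hC hu hv)

theorem d1_ang_tri {c : ι} {u v w : Dot P ρ} (hu : u ≠ .apex c) (hv : v ≠ .apex c)
    (hw : w ≠ .apex c) : d1_ang c u w ≤ d1_ang c u v + d1_ang c v w := by
  obtain ⟨y, hy, y', hy', e⟩ := d1_ang_mem hC hu hw
  obtain ⟨a, ha⟩ := d1_SS_ne hv
  have h1 := d1_le_ang hC hu hv hy ha
  have h2 := d1_le_ang hC hv hw ha hy'
  have t := d_tri y a y'
  omega

theorem d1_ang_diag {c : ι} {u : Dot P ρ} (hu : u ≠ .apex c) : d1_ang c u u ≤ th := by
  obtain ⟨y, hy, y', hy', e⟩ := d1_ang_mem hC hu hu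
  rw [e]
  exact hC.diag c u hu y hy y' hy'

theorem d1_ang_pass {c : ι} {u v : Dot P ρ} (hu : u ≠ .apex c) (hv : v ≠ .apex c)
    (h : th < d1_ang c u v) {p : ℕ → Dot P ρ} (hp : IsGeo p u v) :
    ∃ i ≤ d u v, p i = .apex c := by
  obtain ⟨y, hy, y', hy', e⟩ := d1_ang_mem hC hu hv
  exact hC.pass c u v hu hv y hy y' hy' (by omega) p hp

theorem d1_ang_add {c : ι} {u v : Dot P ρ} (hu : u ≠ .apex c) (hv : v ≠ .apex c)
    (h : th < d1_ang c u v) : d u v = d u (.apex c) + d (.apex c) v := by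
  obtain ⟨p, h0, h1, h2⟩ := geo u v
  obtain ⟨i, hi, e⟩ := d1_ang_pass hC hu hv h ⟨h0, h1, h2⟩
  have e1 := h2 0 i (Nat.zero_le _) hi
  have e2 := h2 i _ hi le_rfl
  rw [h0, e] at e1
  rw [h1, e] at e2
  omega

theorem d1_strong {c b : ι} {u : Dot P ρ} (hcb : c ≠ b) (hu : u ≠ .apex c)
    (h : th < d1_ang c u (.apex b)) (v : Dot P ρ) :
    d1_ang b u v = d1_ang b (.apex c) v := by
  have hb : (Dot.apex b : Dot P ρ) ≠ .apex c := by
    intro e
    injection e with h5
    exact hcb h5.symm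
  unfold d1_ang
  rw [d1_exact hcb (fun p hp => d1_ang_pass hC hu hb h hp)]

theorem d1_fin (u v : Dot P ρ) :
    {c : ι | u ≠ .apex c ∧ v ≠ .apex c ∧ th < d1_ang c u v}.Finite := by
  obtain ⟨p, h0, h1, h2⟩ := geo u v
  have hinj : Function.Injective (fun c : ι => (Dot.apex c : Dot P ρ)) := by
    intro c c' h
    injection h
  refine Set.Finite.of_finite_image (f := fun c : ι => (Dot.apex c : Dot P ρ)) ?_ hinj.injOn
  refine Set.Finite.subset ((Set.finite_Iic (d u v)).image p) ?_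
  rintro _ ⟨c, ⟨hu, hv, h⟩, rfl⟩
  obtain ⟨i, hi, e⟩ := d1_ang_pass hC hu hv h ⟨h0, h1, h2⟩
  exact ⟨i, hi, e⟩

/-- The point of level `ρ` of a column is near the apex and sees the other cones as the apex. -/
theorem d1_near (hρ : 1 ≤ ρ) (c : ι) : ∃ u : Dot P ρ, (∀ z : ι, u ≠ .apex z) ∧
    d u (.apex c) ≤ 1 ∧ ∀ z : ι, z ≠ c → d1_ang z u (.apex c) ≤ th := by
  obtain ⟨y, hy⟩ := P.ne c
  have hcol := d1_col_apex_one (ρ := ρ) hy
  have hna : ∀ z : ι, (Dot.col c y hy ρ : Dot P ρ) ≠ .apex z := by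
    intro z h
    have := congrArg Dot.lev h
    rw [d1_lev_col _ _ hy (by omega)] at this
    simp only [Dot.lev] at this
    omega
  refine ⟨_, hna, hcol.le, ?_⟩
  intro z hz
  by_contra hc
  rw [not_le] at hc
  have hzc : (Dot.apex c : Dot P ρ) ≠ .apex z := by
    intro e
    injection e with h5
    exact hz h5.symm
  have h1 := d1_ang_add hC (hna z) hzc hc
  have h2 := d1_apex_sep (P := P) (ρ := ρ) hz
  omega

end

end Pool.Agent.Lib.H14E
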