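import Pool.Agent.Lib.H14E.BS3
import Pool.Agent.Lib.H14E.BP
import Pool.Agent.Lib.H14E.D1A

/-!
# H14E module B: the main theorem (input of module D1)
-/

set_option autoImplicit false

namespace Pool.Agent.Lib.H14E

open Pool.Agent.Lib.H76.Morse GeoMet

theorem coneOK_of_psys {X ι : Type} [GeoMet X] {P : PFam X ι} {C ρ : ℕ} (S : PSys P C)
    (hρ : KB C ≤ ρ) : ConeOK P ρ (2 ^ (ρ + 4)) (dB C) where
  hyp := S.dot_hyp
  diag := by
    intro c u hu y hy y' hy'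
    have h1 := S.SS_near hρ hu hy
    have h2 := S.SS_near hρ hu hy'
    rw [d_comm] at h2
    have t := d_tri y (S.pr c u) y'
    have h3 : 2 ^ (KB C) ≤ 2 ^ ρ := Nat.pow_le_pow_right (by norm_num) hρ
    have h4 : (2 : ℕ) ^ (ρ + 4) = 16 * 2 ^ ρ := by rw [pow_add]; ring
    omega
  pass := by
    intro c u v hu hv y hy y' hy' h
    exact S.passing hρ hu hv hy hy' h.le

/-- **Main theorem of module B**: uniform hyperbolicity of the cone-off and the passing lemma. -/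
theorem b_main {G X : Type} [Group G] [GeoMet X] [MulAction G X] {δ : ℕ} {D : Subgroup G}
    {y₀ : X} (hX : Hyp δ X) (hG : Geom G X) (hP : Periph D y₀) :
    ∃ δ' ρ₀ : ℕ, ∀ ρ ≥ ρ₀, ∃ th : ℕ, ConeOK (perFam D y₀) ρ th δ' := by
  obtain ⟨C, ⟨S⟩⟩ := bp_psys hX hG.iso hP
  exact ⟨dB C, KB C, fun ρ hρ => ⟨_, coneOK_of_psys S hρ⟩⟩

end Pool.Agent.Lib.H14E
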