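import Pool.Agent.Lib.H14E.BD2

set_option autoImplicit false

namespace Pool.Agent.Lib.H14E

open Pool.Agent.Lib.H76.Morse GeoMet

variable {X ι : Type} [GeoMet X] {P : PFam X ι} {C ρ : ℕ}

/-- Level relative to `c` of a column of another horoball. -/
theorem bs0_lv_col_ne {c e : ι} (h : e ≠ c) {y : X} (hy : y ∈ P.Y e) (k : ℕ) :
    lv c (Dot.col e y hy k : Dot P ρ) = 0 := by
  rcases Nat.eq_zero_or_pos k with h0 | h0
  · subst h0
    rw [Dot.col_zero, lv_base]
  · rcases Nat.lt_or_ge ρ k with h1 | h1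
    · rw [Dot.col_apex e y hy h1, lv_apex_ne h]
    · rw [Dot.col_hor e y hy h0 h1, lv_hor_ne h]

theorem bs0_rel (c : ι) {v v' : Dot P ρ} (h : Dot.Rel v v') :
    (lv c v = lv c v' ∧ lv c v = 0) ∨
    (∃ (y : X) (hy : y ∈ P.Y c) (k : ℕ), k ≤ ρ ∧ v = Dot.col c y hy k ∧
      v' = Dot.col c y hy (k + 1)) ∨
    (∃ (y y' : X) (hy : y ∈ P.Y c) (hy' : y' ∈ P.Y c) (k : ℕ), 1 ≤ k ∧ k ≤ ρ ∧
      d y y' ≤ 2 ^ k ∧ v = Dot.col c y hy k ∧ v' = Dot.col c y' hy' k) := by
  induction h with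
  | @base x x' hx => exact Or.inl ⟨by rw [lv_base, lv_base], lv_base _ _⟩
  | @vert e y hy k hk =>
    by_cases he : e = c
    · subst he
      exact Or.inr (Or.inl ⟨y, hy, k, hk, rfl, rfl⟩)
    · exact Or.inl ⟨by rw [bs0_lv_col_ne he hy, bs0_lv_col_ne he hy], bs0_lv_col_ne he hy _⟩
  | @hor e y y' hy hy' k h1 h2 h3 h4 =>
    by_cases he : e = c
    · subst he
      exact Or.inr (Or.inr ⟨y, y', hy, hy', k, h1, h2, h4, by rw [Dot.col_hor _ _ _ h1 h2],
        by rw [Dot.col_hor _ _ _ h1 h2]⟩)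
    · exact Or.inl ⟨by rw [lv_hor_ne he, lv_hor_ne he], lv_hor_ne he _ _ _ _ _⟩

/-- Classification of an edge by the horoball `c`.
PROOF. Adjacent means `Dot.Rel v v'` or `Dot.Rel v' v` (`SimpleGraph.dist_eq_one_iff_adj`,
`SimpleGraph.fromRel_adj`), or `v = v'` if the distance is `0`.  `Rel.base`: (1).
`Rel.vert hy` in the horoball `e`, levels `k, k + 1`: if `e = c`: (2) or (3); if `e ≠ c`: the levels
relative to `c` are `0` (`lv` of `Dot.col e …`): (1).  `Rel.hor` in the horoball `e`: if `e = c` (4),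
otherwise (1). -/
theorem bs_edge (c : ι) {v v' : Dot P ρ} (h : d v v' ≤ 1) :
    (lv c v = lv c v' ∧ (v = v' ∨ lv c v = 0)) ∨
    (∃ (y : X) (hy : y ∈ P.Y c) (k : ℕ), k ≤ ρ ∧ v = Dot.col c y hy k ∧
      v' = Dot.col c y hy (k + 1)) ∨
    (∃ (y : X) (hy : y ∈ P.Y c) (k : ℕ), k ≤ ρ ∧ v' = Dot.col c y hy k ∧
      v = Dot.col c y hy (k + 1)) ∨
    (∃ (y y' : X) (hy : y ∈ P.Y c) (hy' : y' ∈ P.Y c) (k : ℕ), 1 ≤ k ∧ k ≤ ρ ∧
      d y y' ≤ 2 ^ k ∧ v = Dot.col c y hy k ∧ v' = Dot.col c y' hy' k) := by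
  rcases Nat.eq_zero_or_pos (d v v') with h0 | h0
  · have e := eq_of_d v v' h0
    subst e
    exact Or.inl ⟨rfl, Or.inl rfl⟩
  · have h1 : d v v' = 1 := by omega
    have h2 : (Dot.graph P ρ).Adj v v' := SimpleGraph.dist_eq_one_iff_adj.1 h1
    rw [Dot.graph, SimpleGraph.fromRel_adj] at h2
    rcases h2.2 with h3 | h3
    · rcases bs0_rel c h3 with h4 | h4 | h4
      · exact Or.inl ⟨h4.1, Or.inr h4.2⟩
      · exact Or.inr (Or.inl h4)
      · exact Or.inr (Or.inr (Or.inr h4))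
    · rcases bs0_rel c h3 with h4 | h4 | ⟨y, y', hy, hy', k, a1, a2, a3, a4, a5⟩
      · exact Or.inl ⟨h4.1.symm, Or.inr (by rw [← h4.1]; exact h4.2)⟩
      · exact Or.inr (Or.inr (Or.inl h4))
      · exact Or.inr (Or.inr (Or.inr ⟨y', y, hy', hy, k, a1, a2, by rw [d_comm]; exact a3, a5, a4⟩))

/-- PROOF. `bs_edge` and `lv_col`. -/
theorem lv_step (c : ι) {v v' : Dot P ρ} (h : d v v' ≤ 1) : lv c v ≤ lv c v' + 1 := by
  rcases bs_edge c h with h1 | ⟨y, hy, k, hk, h1, h2⟩ | ⟨y, hy, k, hk, h1, h2⟩ |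
    ⟨y, y', hy, hy', k, a1, a2, a3, h1, h2⟩
  · omega
  · rw [h1, h2, lv_col c y hy (by omega), lv_col c y hy (by omega)]
    omega
  · rw [h1, h2, lv_col c y hy (by omega), lv_col c y hy (by omega)]
  · rw [h1, h2, lv_col c y hy (by omega), lv_col c y' hy' (by omega)]
    omega

theorem bs0_lip_path (c : ι) {q : ℕ → Dot P ρ} {n : ℕ} (hq : ∀ i < n, d (q i) (q (i + 1)) ≤ 1)
    (i m : ℕ) (him : i + m ≤ n) : lv c (q i) ≤ lv c (q (i + m)) + m ∧
      lv c (q (i + m)) ≤ lv c (q i) + m := by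
  induction m with
  | zero => simp
  | succ m ih =>
    have h1 := ih (by omega)
    have h2 := lv_step c (hq (i + m) (by omega))
    have h3 := lv_step c (v := q (i + m + 1)) (v' := q (i + m)) (by
      rw [d_comm]; exact hq (i + m) (by omega))
    have e : i + (m + 1) = i + m + 1 := by omega
    rw [e]
    omega

/-- PROOF. Induction along a geodesic (`geo`) from `v'` to `v`. -/
theorem lv_lip (c : ι) (v v' : Dot P ρ) : lv c v ≤ lv c v' + d v v' := by
  obtain ⟨p, h0, h1, h2⟩ := geo v v'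
  have := (bs0_lip_path c (q := p) (n := d v v') (fun i hi => by
    rw [h2 i (i + 1) (by omega) (by omega)]; omega) 0 (d v v') (by omega)).1
  rw [Nat.zero_add, h0, h1] at this
  exact this

/-- PROOF. `bs_edge` and `lv_col`: only the second case is possible. -/
theorem bs_up {c : ι} {v v' : Dot P ρ} (h : d v v' ≤ 1) (hl : lv c v' = lv c v + 1) :
    ∃ (y : X) (hy : y ∈ P.Y c), v = Dot.col c y hy (lv c v) ∧
      v' = Dot.col c y hy (lv c v + 1) := by
  rcases bs_edge c h with h1 | ⟨y, hy, k, hk, h1, h2⟩ | ⟨y, hy, k, hk, h1, h2⟩ |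
    ⟨y, y', hy, hy', k, a1, a2, a3, h1, h2⟩
  · omega
  · have e : lv c v = k := by rw [h1, lv_col c y hy (by omega)]
    exact ⟨y, hy, by rw [e]; exact h1, by rw [e]; exact h2⟩
  · exfalso
    have e : lv c v = k + 1 := by rw [h2, lv_col c y hy (by omega)]
    have e' : lv c v' = k := by rw [h1, lv_col c y hy (by omega)]
    omega
  · exfalso
    have e : lv c v = k := by rw [h1, lv_col c y hy (by omega)]
    have e' : lv c v' = k := by rw [h2, lv_col c y' hy' (by omega)]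
    omega

/-- PROOF. `≤`: `d_col_le` to the level `ρ + 1` (`Dot.col_apex`).  `≥`: `lv_lip`, `lv_apex_self`,
`lv_col`. -/
theorem bs_apex_col (c : ι) {y : X} (hy : y ∈ P.Y c) {k : ℕ} (hk : k ≤ ρ + 1) :
    d (Dot.col c y hy k : Dot P ρ) (.apex c) = ρ + 1 - k := by
  have h1 := d_col_le (ρ := ρ) c hy hk le_rfl
  rw [Dot.col_apex c y hy (by omega : ρ < ρ + 1)] at h1
  have h2 := lv_lip c (.apex c : Dot P ρ) (Dot.col c y hy k)
  rw [lv_apex_self, lv_col c y hy hk, d_comm] at h2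
  omega

/-- PROOF. `lv_lip`, `lv_apex_self`. -/
theorem bs_apex_ge (c : ι) (v : Dot P ρ) : ρ + 1 ≤ d v (.apex c) + lv c v := by
  have h2 := lv_lip c (.apex c : Dot P ρ) v
  rw [lv_apex_self, d_comm] at h2
  omega

theorem bs0_col_of_InB {c : ι} {v : Dot P ρ} (h : InB c v) :
    ∃ (y : X) (hy : y ∈ P.Y c), v = Dot.col c y hy (lv c v) := by
  rcases h with h | ⟨y, hy, rfl⟩
  · cases v with
    | base x => simp [Dot.own] at h
    | hor e y k hy h1 h2 =>
      simp only [Dot.own, Option.some.injEq] at h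
      subst h
      exact ⟨y, hy, by rw [lv_hor_self, Dot.col_hor _ _ _ h1 h2]⟩
    | apex e =>
      simp only [Dot.own, Option.some.injEq] at h
      subst h
      exact ⟨(P.ne e).some, (P.ne e).some_mem, by rw [lv_apex_self, Dot.col_apex _ _ _ (by omega)]⟩
  · exact ⟨y, hy, by rw [lv_base, Dot.col_zero]⟩

/-- PROOF. `v = Dot.col c y hy k` with `k = lv c v` (cases on `v`), `bs_apex_col`. -/
theorem bs_apex_InB {c : ι} {v : Dot P ρ} (h : InB c v) : d v (.apex c) + lv c v = ρ + 1 := by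
  obtain ⟨y, hy, e⟩ := bs0_col_of_InB h
  have h1 := bs_apex_col (ρ := ρ) c hy (lv_le c v)
  rw [← e] at h1
  have := lv_le c v
  omega

/-- Last entrance in the horoball `c`.
PROOF. Let `k` be the largest index with `i ≤ k < j` and `lv c (q k) = 0` (`i` is one).  Then
`lv c (q (k + 1)) ≥ 1`, so `= 1` by `lv_step`, and `bs_up` gives `q k = Dot.col c y hy 0 = base y`. -/
theorem bs_enter {c : ι} {q : ℕ → Dot P ρ} {n : ℕ} (hq : ∀ i < n, d (q i) (q (i + 1)) ≤ 1)
    {i j : ℕ} (hij : i ≤ j) (hj : j ≤ n) (h0 : lv c (q i) = 0) (h1 : 1 ≤ lv c (q j)) :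
    ∃ k, i ≤ k ∧ k < j ∧ (∃ y ∈ P.Y c, q k = .base y) ∧ ∀ l, k < l → l ≤ j → 1 ≤ lv c (q l) := by
  induction j, hij using Nat.le_induction with
  | base => omega
  | succ j hij ih =>
    by_cases h2 : 1 ≤ lv c (q j)
    · obtain ⟨k, hk1, hk2, hk3, hk4⟩ := ih (by omega) h2
      refine ⟨k, hk1, by omega, hk3, fun l hl1 hl2 => ?_⟩
      rcases Nat.lt_or_ge j l with h3 | h3
      · have : l = j + 1 := by omega
        rw [this]
        exact h1
      · exact hk4 l hl1 h3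
    · have h3 := hq j (by omega)
      have h4 := lv_step c (v := q (j + 1)) (v' := q j) (by rw [d_comm]; exact h3)
      have h5 : lv c (q j) = 0 := by omega
      obtain ⟨y, hy, e1, e2⟩ := bs_up (c := c) h3 (by omega)
      rw [h5, Dot.col_zero] at e1
      refine ⟨j, hij, by omega, ⟨y, hy, e1⟩, fun l hl1 hl2 => ?_⟩
      have : l = j + 1 := by omega
      rw [this]
      exact h1

/-- A path which climbs by `1` at every step is in one column.
PROOF. Induction on `m`.  Let `l := lv c (q i)`.  `m = 0`: the hypothesis.  Step: `bs_up` for `q (i + m), q (i + m + 1)`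
(levels `l + m`, `l + m + 1`) gives `y'` with `q (i + m) = Dot.col c y' hy' (l + m)` and
`q (i + m + 1) = Dot.col c y' hy' (l + m + 1)`; comparing with `htop`, `y' = y` (`Dot.col_hor`,
`1 ≤ l + m + 1 ≤ ρ`, injectivity of `hor`); induction hypothesis for `m`. -/
theorem bs_climb {c : ι} {q : ℕ → Dot P ρ} {i : ℕ} {y : X} {hy : y ∈ P.Y c} (m : ℕ)
    (hstep : ∀ j < m, d (q (i + j)) (q (i + j + 1)) ≤ 1)
    (hl : ∀ j ≤ m, lv c (q (i + j)) = lv c (q i) + j)
    (htop : q (i + m) = Dot.col c y hy (lv c (q i) + m)) (hm : lv c (q i) + m ≤ ρ) :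
    q i = Dot.col c y hy (lv c (q i)) := by
  induction m with
  | zero => exact htop
  | succ m ih =>
    refine ih (fun j hj => hstep j (by omega)) (fun j hj => hl j (by omega)) ?_ (by omega)
    have e1 := hl m (by omega)
    have e2 := hl (m + 1) (by omega)
    have e3 : i + (m + 1) = i + m + 1 := by omega
    rw [e3] at e2 htop
    obtain ⟨y', hy', a1, a2⟩ := bs_up (c := c) (hstep m (by omega)) (by omega)
    rw [e1] at a1 a2
    rw [a2, Dot.col_hor c y' hy' (by omega) (by omega),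
      Dot.col_hor c y hy (by omega) (by omega)] at htop
    have e4 : y' = y := by
      simp only [Dot.hor.injEq] at htop
      exact htop.2.1
    subst e4
    exact a1

end Pool.Agent.Lib.H14E
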