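import Pool.Agent.Lib.H14E.BS0

set_option autoImplicit false

namespace Pool.Agent.Lib.H14E

open Pool.Agent.Lib.H76.Morse GeoMet

variable {X ι : Type} [GeoMet X] {P : PFam X ι} {C ρ : ℕ}

/-- A vertex of level `ρ + 1` is the apex. -/
theorem bs1_top {c : ι} {w : Dot P ρ} (h : lv c w = ρ + 1) : w = .apex c := by
  have h1 := own_of_lv (c := c) (v := w) (by omega)
  cases w with
  | base x => simp [Dot.own] at h1
  | hor e y k hy h2 h3 =>
    simp only [Dot.own, Option.some.injEq] at h1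
    subst h1
    rw [lv_hor_self] at h
    omega
  | apex e =>
    simp only [Dot.own, Option.some.injEq] at h1
    rw [h1]

/-- PROOF. Let `q` be a geodesic from `v` to `apex c`, `n := d v (apex c) ≥ 1`.  `w := q (n - 1)`:
`d w (apex c) = 1`, `w ≠ apex c`, so `lv c w < ρ + 1` (a vertex of level `ρ + 1` at `c` is
`apex c`), `lv c w = ρ` by `lv_step`, and `bs_up` gives `w = Dot.col c y hy ρ`.
`d v w = n - 1`. -/
theorem SS_nonempty {c : ι} {v : Dot P ρ} (hv : v ≠ .apex c) : (SS c v).Nonempty := by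
  obtain ⟨q, hq⟩ := exists_isGeo v (.apex c : Dot P ρ)
  have hn : 1 ≤ d v (.apex c : Dot P ρ) := by
    rcases Nat.eq_zero_or_pos (d v (.apex c : Dot P ρ)) with h0 | h0
    · exact absurd (eq_of_d _ _ h0) hv
    · exact h0
  obtain ⟨n, hn'⟩ : ∃ n, n = d v (.apex c : Dot P ρ) := ⟨_, rfl⟩
  have h1 : d v (q (n - 1)) = n - 1 := hq.dist_left (by omega)
  have h2 : d (q (n - 1)) (.apex c) = 1 := by
    rw [hq.dist_right (by omega)]
    omega
  obtain ⟨w, hw⟩ : ∃ w, w = q (n - 1) := ⟨_, rfl⟩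
  rw [← hw] at h1 h2
  have h3 := bs_apex_ge c w
  have h4 := lv_le c w
  have h5 : lv c w ≠ ρ + 1 := by
    intro h
    have := bs1_top h
    rw [this, d_self] at h2
    omega
  have h6 : lv c w = ρ := by omega
  obtain ⟨y, hy, hy1, -⟩ := bs_up (c := c) (v := w) (v' := .apex c) (by omega)
    (by rw [lv_apex_self, h6])
  rw [h6] at hy1
  refine ⟨y, hy, ?_⟩
  rw [← hy1, h1, ← hn']
  omega

/-- PROOF. `d w (apex c) = 1` for `w := Dot.col c y hy ρ` (`bs_apex_col`), triangle
inequality. -/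
theorem SS_le {c : ι} {v : Dot P ρ} {y : X} (hy : y ∈ P.Y c)
    (h : d v (Dot.col c y hy ρ) + 1 ≤ d v (.apex c)) : y ∈ SS c v := by
  refine ⟨hy, le_antisymm h ?_⟩
  have h1 := bs_apex_col (ρ := ρ) c hy (k := ρ) (by omega)
  have h2 := d_tri v (Dot.col c y hy ρ : Dot P ρ) (.apex c)
  omega

/-- PROOF. `⊆`: let `y' ∈ SS c v`, `q` a geodesic from `v = hor c y k` to `Dot.col c y' _ ρ`, of
length `ρ - k` (`bs_apex_InB`: `d v (apex c) = ρ + 1 - k`).  `lv_lip` from both ends gives
`lv c (q j) = k + j`, and `bs_climb` (`i = 0`, `m = ρ - k`) gives `q 0 = Dot.col c y' _ k`, so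
`y' = y`.  `⊇`: `d_col_le`, `SS_le`, `bs_apex_InB`. -/
theorem SS_hor (c : ι) (y : X) (k : ℕ) (hy : y ∈ P.Y c) (h1 : 1 ≤ k) (h2 : k ≤ ρ) :
    SS c (.hor c y k hy h1 h2 : Dot P ρ) = {y} := by
  have hcol : (.hor c y k hy h1 h2 : Dot P ρ) = Dot.col c y hy k := (Dot.col_hor c y hy h1 h2).symm
  have hlv : lv c (.hor c y k hy h1 h2 : Dot P ρ) = k := lv_hor_self c y k hy h1 h2
  have hIn : InB c (.hor c y k hy h1 h2 : Dot P ρ) := Or.inl rfl
  have hA := bs_apex_InB hIn
  rw [hlv] at hA
  ext y'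
  constructor
  · rintro ⟨hy', hd⟩
    obtain ⟨v, hv⟩ : ∃ v : Dot P ρ, v = .hor c y k hy h1 h2 := ⟨_, rfl⟩
    rw [← hv] at hlv hA hd
    obtain ⟨w, hw⟩ : ∃ w : Dot P ρ, w = Dot.col c y' hy' ρ := ⟨_, rfl⟩
    rw [← hw] at hd
    have hlw : lv c w = ρ := by rw [hw, lv_col c y' hy' (by omega)]
    obtain ⟨q, hq⟩ := exists_isGeo v w
    have hn : d v w = ρ - k := by omega
    have hl : ∀ j ≤ ρ - k, lv c (q (0 + j)) = lv c (q 0) + j := by
      intro j hj
      rw [Nat.zero_add, hq.1, hlv]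
      have e1 := hq.dist_left (i := j) (by omega)
      have e2 := hq.dist_right (i := j) (by omega)
      have l1 := lv_lip c (q j) v
      have l2 := lv_lip c w (q j)
      rw [d_comm (q j) v] at l1
      rw [d_comm w (q j)] at l2
      omega
    have hstep : ∀ j < ρ - k, d (q (0 + j)) (q (0 + j + 1)) ≤ 1 := by
      intro j hj
      rw [hq.2.2 (0 + j) (0 + j + 1) (by omega) (by omega)]
      omega
    have h0 : q 0 = v := hq.1
    have htop : q (0 + (ρ - k)) = Dot.col c y' hy' (lv c (q 0) + (ρ - k)) := by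
      have e : k + (ρ - k) = ρ := by omega
      rw [h0, hlv, e, Nat.zero_add, ← hn, hq.2.1, hw]
    have := bs_climb (hy := hy') (ρ - k) hstep hl htop (by rw [h0, hlv]; omega)
    rw [h0, hlv, Dot.col_hor c y' hy' h1 h2, hv] at this
    injection this with _ e _
    exact e.symm
  · intro h
    rw [Set.mem_singleton_iff] at h
    subst h
    apply SS_le hy
    rw [hcol] at hA ⊢
    have := d_col_le (ρ := ρ) c hy (i := k) (j := ρ) h2 (by omega)
    omega

/-- PROOF. Let `q` be a geodesic from `v` to `w := Dot.col c y hy ρ`, `n := d v w`,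
`d v (apex c) = n + 1`.  If `ρ = 0`: `w = base y`, clear.  If `ρ ≥ 1`: `bs_enter` with `i = 0`,
`j = n` (`lv c w = ρ ≥ 1`): `k` with `q k = base y'`, `y' ∈ P.Y c` and levels `≥ 1` on `(k, n]`.
`d (base y') (apex c) = ρ + 1` (`bs_apex_col` with level `0`), and `≤ d (q k) w + 1 = n - k + 1`; also
`n + 1 = d v (apex c) ≤ k + (ρ + 1)`.  So `n - k = ρ`.  `lv_lip` from both ends: `lv c (q (k + j)) = j`
for `j ≤ ρ`, `bs_climb` (`i = k`, `m = ρ`): `q k = base y`.  So `d v (base y) = k = n - ρ`. -/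
theorem SS_zero {c : ι} {v : Dot P ρ} {y : X} (h0 : lv c v = 0) (hy : y ∈ SS c v) :
    d v (.base y) + (ρ + 1) = d v (.apex c) := by
  obtain ⟨hy, hd⟩ := hy
  obtain ⟨w, hw⟩ : ∃ w : Dot P ρ, w = Dot.col c y hy ρ := ⟨_, rfl⟩
  rw [← hw] at hd
  have hlw : lv c w = ρ := by rw [hw, lv_col c y hy (by omega)]
  rcases Nat.eq_zero_or_pos ρ with hr | hr
  · have : w = .base y := by
      rw [hw]
      have : (Dot.col c y hy ρ : Dot P ρ) = Dot.col c y hy 0 := by
        congr 1
      rw [this, Dot.col_zero]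
    rw [this] at hd
    omega
  · obtain ⟨q, hq⟩ := exists_isGeo v w
    have hst : ∀ i < d v w, d (q i) (q (i + 1)) ≤ 1 := by
      intro i hi
      rw [hq.2.2 i (i + 1) (by omega) (by omega)]
      omega
    obtain ⟨k, -, hk, ⟨y', hy', hqk⟩, -⟩ := bs_enter (c := c) (q := q) (n := d v w) hst
      (i := 0) (j := d v w) (Nat.zero_le _) le_rfl (by rw [hq.1, h0])
      (by rw [hq.2.1, hlw]; exact hr)
    have a1 := bs_apex_col (ρ := ρ) c hy' (k := 0) (by omega)
    rw [Dot.col_zero, ← hqk] at a1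
    have a2 := bs_apex_col (ρ := ρ) c hy (k := ρ) (by omega)
    rw [← hw] at a2
    have e1 := hq.dist_left (i := k) (by omega)
    have e2 := hq.dist_right (i := k) (by omega)
    have t1 := d_tri v (q k) (.apex c)
    have t2 := d_tri (q k) w (.apex c)
    have hn : d v w = k + ρ := by omega
    have hlk : lv c (q k) = 0 := by rw [hqk, lv_base]
    have hl : ∀ j ≤ ρ, lv c (q (k + j)) = lv c (q k) + j := by
      intro j hj
      have l1 := lv_lip c (q (k + j)) (q k)
      have l2 := lv_lip c w (q (k + j))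
      have d1 := hq.2.2 k (k + j) (by omega) (by omega)
      have d2 := hq.dist_right (i := k + j) (by omega)
      rw [d_comm (q (k + j)) (q k)] at l1
      rw [d_comm w (q (k + j))] at l2
      omega
    have htop : q (k + ρ) = Dot.col c y hy (lv c (q k) + ρ) := by
      rw [← hn, hq.2.1, hlk, hw]
      congr 1
      omega
    have := bs_climb (hy := hy) (i := k) ρ (fun j hj => hst (k + j) (by omega)) hl htop
      (by rw [hlk]; omega)
    rw [hlk, Dot.col_zero] at this
    rw [← this, e1]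
    omega

/-- PROOF. `d v (col ρ) ≤ d v (base y) + ρ` (`d_col_le`, `Dot.col_zero`), `SS_le`. -/
theorem SS_of_base {c : ι} {v : Dot P ρ} {y : X} (hy : y ∈ P.Y c)
    (h : d v (.base y) + (ρ + 1) ≤ d v (.apex c)) : y ∈ SS c v := by
  apply SS_le hy
  have h1 := d_col_le (ρ := ρ) c hy (i := 0) (j := ρ) (Nat.zero_le _) (by omega)
  rw [Dot.col_zero] at h1
  have h2 := d_tri v (.base y) (Dot.col c y hy ρ : Dot P ρ)
  omega

/-- A geodesic from `v` to the nearest point `base y` of the horosphere stays outside.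
PROOF. If `lv c (q i) ≥ 1` then `d v (apex c) ≤ i + (ρ + 1 - lv c (q i)) < d v (base y) + ρ + 1`
if `i ≤ d v (base y)` (`bs_apex_InB`, `own_of_lv`), contradiction with `SS_zero`. -/
theorem SS_outside {c : ι} {v : Dot P ρ} {y : X} (h0 : lv c v = 0) (hy : y ∈ SS c v)
    {q : ℕ → Dot P ρ} (hq : IsGeo q v (.base y)) {i : ℕ} (hi : i ≤ d v (.base y)) :
    lv c (q i) = 0 := by
  by_contra hne
  have h1 : 1 ≤ lv c (q i) := by omega
  have h2 := bs_apex_InB (InB_of_lv h1)
  have h3 := SS_zero h0 hy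
  have h4 := hq.dist_left hi
  have h5 := d_tri v (q i) (.apex c)
  omega

/-- Shortcut at the apex.
PROOF. `Dot.col c y _ ρ` and `Dot.col c y' _ ρ` are within `1` (`d_col_hor`), so
`d v v' ≤ (d v (apex c) - 1) + 1 + (d v' (apex c) - 1)`, where both are `≥ 1`. -/
theorem SS_short {c : ι} {v v' : Dot P ρ} {y y' : X} (hy : y ∈ SS c v) (hy' : y' ∈ SS c v')
    (h : d y y' ≤ 2 ^ ρ) : d v v' < d v (.apex c) + d (.apex c) v' := by
  obtain ⟨hy, hd⟩ := hy
  obtain ⟨hy', hd'⟩ := hy'
  have h1 := d_col_hor (ρ := ρ) c hy hy' (k := ρ) (Or.inr h)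
  have t1 := d_tri v (Dot.col c y hy ρ : Dot P ρ) v'
  have t2 := d_tri (Dot.col c y hy ρ : Dot P ρ) (Dot.col c y' hy' ρ) v'
  have c1 := d_comm v' (Dot.col c y' hy' ρ : Dot P ρ)
  have c2 := d_comm v' (.apex c : Dot P ρ)
  omega

/-- Every geodesic from `v` to `w` passes through the apex `c`. -/
def Thru (c : ι) (v w : Dot P ρ) : Prop :=
  ∀ p : ℕ → Dot P ρ, IsGeo p v w → ∃ i ≤ d v w, p i = .apex c

/-- PROOF. A geodesic exists (`exists_isGeo`), `IsGeo.dist_left`, `IsGeo.dist_right`. -/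
theorem Thru.dist {c : ι} {v w : Dot P ρ} (h : Thru c v w) :
    d v w = d v (.apex c) + d (.apex c) w := by
  obtain ⟨p, hp⟩ := exists_isGeo v w
  obtain ⟨i, hi, hpi⟩ := h p hp
  have h1 := hp.dist_left hi
  have h2 := hp.dist_right hi
  rw [hpi] at h1 h2
  omega

/-- PROOF. Reverse the geodesic (`revp`). -/
theorem Thru.symm {c : ι} {v w : Dot P ρ} (h : Thru c v w) : Thru c w v := by
  intro p hp
  have hd : d v w = d w v := d_comm v w
  have hp' : IsGeo (fun i => p (d w v - i)) v w := by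
    refine ⟨?_, ?_, ?_⟩
    · show p (d w v - 0) = v
      rw [Nat.sub_zero]
      exact hp.2.1
    · show p (d w v - d v w) = w
      rw [hd, Nat.sub_self]
      exact hp.1
    · intro i j hij hj
      show d (p (d w v - i)) (p (d w v - j)) = j - i
      rw [hd] at hj
      rw [d_comm, hp.2.2 (d w v - j) (d w v - i) (by omega) (by omega)]
      omega
  obtain ⟨i, hi, hpi⟩ := h _ hp'
  exact ⟨d w v - i, by omega, hpi⟩

/-- Exactness of the projections.
PROOF. `⊆`: `y ∈ SS e v`, `w := Dot.col e y _ ρ`, `d v w + 1 = d v (apex e)`.  A geodesic from `v`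
to `w` followed by `apex e` (index `d v w + 1`) is a geodesic `p` from `v` to `apex e`; by `h`
`p i = apex c` for some `i`, and `i ≤ d v w` because `apex c ≠ apex e`.  So
`d v w = d v (apex c) + d (apex c) w`, and `d v (apex e) = d v (apex c) + d (apex c) (apex e)`
(`Thru.dist`): `d (apex c) w + 1 = d (apex c) (apex e)`.
`⊇`: `y ∈ SS e (apex c)`: `d v w ≤ d v (apex c) + d (apex c) w`, so
`d v w + 1 ≤ d v (apex e)` (`Thru.dist`), `SS_le`. -/
theorem SS_exact {c e : ι} {v : Dot P ρ} (hce : c ≠ e) (h : Thru c v (.apex e)) :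
    SS e v = SS e (.apex c : Dot P ρ) := by
  have hTd := h.dist
  ext y
  constructor
  · rintro ⟨hy, hd⟩
    obtain ⟨w, hw⟩ : ∃ w : Dot P ρ, w = Dot.col e y hy ρ := ⟨_, rfl⟩
    rw [← hw] at hd
    have hwa := bs_apex_col (ρ := ρ) e hy (k := ρ) (by omega)
    rw [← hw] at hwa
    obtain ⟨q, hq⟩ := exists_isGeo v w
    obtain ⟨n, hn⟩ : ∃ n, n = d v w := ⟨_, rfl⟩
    rw [← hn] at hd
    have hp : IsGeo (fun j => if j ≤ n then q j else (.apex e : Dot P ρ)) v (.apex e) := by
      refine ⟨?_, ?_, ?_⟩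
      · show (if 0 ≤ n then q 0 else (.apex e : Dot P ρ)) = v
        rw [if_pos (Nat.zero_le _)]
        exact hq.1
      · show (if d v (.apex e) ≤ n then q (d v (.apex e)) else (.apex e : Dot P ρ)) = .apex e
        rw [if_neg (by omega)]
      · intro i j hij hj
        show d (if i ≤ n then q i else (.apex e : Dot P ρ))
          (if j ≤ n then q j else (.apex e : Dot P ρ)) = j - i
        by_cases hjn : j ≤ n
        · rw [if_pos hjn, if_pos (hij.trans hjn)]
          exact hq.2.2 i j hij (by omega)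
        · rw [if_neg hjn]
          by_cases hin : i ≤ n
          · rw [if_pos hin]
            have e1 := hq.dist_left (i := i) (by omega)
            have e2 := hq.dist_right (i := i) (by omega)
            have t1 := d_tri v (q i) (.apex e)
            have t2 := d_tri (q i) w (.apex e)
            omega
          · rw [if_neg hin, d_self]
            omega
    obtain ⟨i, hi, hpi⟩ := h _ hp
    change (if i ≤ n then q i else (.apex e : Dot P ρ)) = .apex c at hpi
    by_cases hin : i ≤ n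
    · rw [if_pos hin] at hpi
      have e1 := hq.dist_left (i := i) (by omega)
      have e2 := hq.dist_right (i := i) (by omega)
      rw [hpi] at e1 e2
      refine ⟨hy, ?_⟩
      rw [← hw]
      omega
    · rw [if_neg hin] at hpi
      injection hpi with hec
      exact absurd hec.symm hce
  · rintro ⟨hy, hd⟩
    apply SS_le hy
    have := d_tri v (.apex c) (Dot.col e y hy ρ : Dot P ρ)
    omega

end Pool.Agent.Lib.H14E
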