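import Pool.Agent.Lib.H14E.BS1

set_option autoImplicit false

namespace Pool.Agent.Lib.H14E

open Pool.Agent.Lib.H76.Morse GeoMet

variable {X ι : Type} [GeoMet X] {P : PFam X ι} {C ρ : ℕ}

theorem bs2_col_ne_base {c : ι} {y : X} (hy : y ∈ P.Y c) {k : ℕ} (hk : 1 ≤ k) (x : X) :
    (Dot.col c y hy k : Dot P ρ) ≠ .base x := by
  rcases Nat.lt_or_ge ρ k with h1 | h1
  · rw [Dot.col_apex c y hy h1]
    intro h
    cases h
  · rw [Dot.col_hor c y hy hk h1]
    intro h
    cases h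

theorem bs2_rel_base {u v : Dot P ρ} (h : Dot.Rel u v) :
    ∀ x x' : X, u = .base x → v = .base x' → d x x' = 1 := by
  induction h with
  | @base x x' hx =>
    intro a b ha hb
    cases ha
    cases hb
    exact hx
  | @vert c y hy k hk =>
    intro a b _ hb
    exact absurd hb (bs2_col_ne_base hy (by omega) b)
  | @hor c y y' hy hy' k h1 h2 h3 h4 =>
    intro a b ha _
    cases ha

theorem bs2_base_base {x x' : X} (h : d (.base x : Dot P ρ) (.base x') ≤ 1) : d x x' ≤ 1 := by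
  rcases Nat.eq_zero_or_pos (d (.base x : Dot P ρ) (.base x')) with h0 | h0
  · have e := eq_of_d _ _ h0
    cases e
    rw [d_self]
    omega
  · have h1 : d (.base x : Dot P ρ) (.base x') = 1 := by omega
    rw [Dot.dist_def] at h1
    have hadj := SimpleGraph.dist_eq_one_iff_adj.1 h1
    rw [Dot.graph, SimpleGraph.fromRel_adj] at hadj
    rcases hadj.2 with hr | hr
    · exact le_of_eq (bs2_rel_base hr _ _ rfl rfl)
    · rw [d_comm]
      exact le_of_eq (bs2_rel_base hr _ _ rfl rfl)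

theorem bs2_xb_col {c : ι} {y : X} (hy : y ∈ P.Y c) {k : ℕ} (hk : k ≤ ρ) :
    (Dot.col c y hy k : Dot P ρ).xb = y := by
  rcases Nat.eq_zero_or_pos k with h0 | h0
  · subst h0
    rw [Dot.col_zero]
    rfl
  · rw [Dot.col_hor c y hy h0 hk]
    rfl

theorem bs2_base_of {c : ι} {v : Dot P ρ} (hv : InB c v) (h0 : lv c v = 0) :
    ∃ y : X, v = .base y := by
  rcases hv with h | ⟨y, _, rfl⟩
  · exfalso
    cases v with
    | base x => simp [Dot.own] at h
    | hor e y k hy h1 h2 =>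
      simp only [Dot.own, Option.some.injEq] at h
      subst h
      rw [lv_hor_self] at h0
      omega
    | apex e =>
      simp only [Dot.own, Option.some.injEq] at h
      subst h
      rw [lv_apex_self] at h0
      omega
  · exact ⟨y, rfl⟩

/-- One step inside a closed horoball, away from the apex.
PROOF. Cases on `v, v'` (both `base y`, `y ∈ P.Y c`, or `hor c …`), adjacency as in `bs_edge`:
`base y, base y'`: `d y y' ≤ 1` (adjacent in `X`, `Rel.base`; if `v = v'`, `d_self`);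
vertical edge: the same base point, distance `0`; horizontal edge of level `k = lv c v`:
`d y y' ≤ 2 ^ k`.  (`base y` and `hor c y' 1` are adjacent only if `y = y'`.) -/
theorem bs_step_x {c : ι} {v v' : Dot P ρ} (h : d v v' ≤ 1) (hv : InB c v) (hv' : InB c v')
    (ha : v ≠ .apex c) (ha' : v' ≠ .apex c) : d v.xb v'.xb ≤ 2 ^ (lv c v) := by
  have hp : 1 ≤ 2 ^ (lv c v) := Nat.one_le_two_pow
  rcases bs_edge c h with ⟨e1, e2⟩ | ⟨y, hy, k, hk, e1, e2⟩ | ⟨y, hy, k, hk, e1, e2⟩ |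
    ⟨y, y', hy, hy', k, h1, h2, h3, e1, e2⟩
  · rcases e2 with e2 | e2
    · subst e2
      rw [d_self]
      omega
    · obtain ⟨y, rfl⟩ := bs2_base_of hv e2
      obtain ⟨y', rfl⟩ := bs2_base_of hv' (by rw [← e1]; exact e2)
      have := bs2_base_base h
      show d y y' ≤ _
      omega
  · have hk' : k + 1 ≤ ρ := by
      by_contra hc
      apply ha'
      rw [e2, Dot.col_apex c y hy (by omega)]
    rw [e1, e2, bs2_xb_col hy (by omega), bs2_xb_col hy hk', d_self]
    exact Nat.zero_le _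
  · have hk' : k + 1 ≤ ρ := by
      by_contra hc
      apply ha
      rw [e2, Dot.col_apex c y hy (by omega)]
    rw [e1, e2, bs2_xb_col hy hk', bs2_xb_col hy (by omega), d_self]
    exact Nat.zero_le _
  · rw [e1, e2, bs2_xb_col hy h2, bs2_xb_col hy' h2, lv_col c y hy (by omega)]
    exact h3

theorem bs2_lv_up {c : ι} {q : ℕ → Dot P ρ} {n : ℕ} (hq : ∀ i < n, d (q i) (q (i + 1)) ≤ 1) :
    ∀ m ≤ n, lv c (q m) ≤ lv c (q 0) + m := by
  intro m
  induction m with
  | zero => intro _; omega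
  | succ m ih =>
    intro hm
    have h1 := ih (by omega)
    have h2 := hq m (by omega)
    rw [d_comm] at h2
    have h3 := lv_step c h2
    omega

/-- Displacement in `X` of a path in a horoball, from the level of its first point.
PROOF. Induction on `m`: `lv c (q m) ≤ lv c (q 0) + m` (`lv_step`), so the step from `m` to
`m + 1` moves the base point by at most `2 ^ (lv c (q 0) + m)` (`bs_step_x`), and
`2 ^ (l + m) + 2 ^ (l + m) = 2 ^ (l + m + 1)`. -/
theorem bs_disp_up {c : ι} {q : ℕ → Dot P ρ} {n : ℕ} (hq : ∀ i < n, d (q i) (q (i + 1)) ≤ 1)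
    (hB : ∀ i ≤ n, InB c (q i)) (hA : ∀ i ≤ n, q i ≠ .apex c) :
    ∀ m ≤ n, d (q 0).xb (q m).xb + 2 ^ (lv c (q 0)) ≤ 2 ^ (lv c (q 0) + m) := by
  intro m
  induction m with
  | zero =>
    intro _
    rw [d_self, Nat.add_zero, Nat.zero_add]
  | succ m ih =>
    intro hm
    have h1 := ih (by omega)
    have h2 := bs_step_x (hq m (by omega)) (hB m (by omega)) (hB (m + 1) hm) (hA m (by omega))
      (hA (m + 1) hm)
    have h3 := bs2_lv_up (c := c) hq m (by omega)
    have h4 : 2 ^ (lv c (q m)) ≤ 2 ^ (lv c (q 0) + m) := Nat.pow_le_pow_right (by norm_num) h3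
    have h5 := d_tri (q 0).xb (q m).xb (q (m + 1)).xb
    have h6 : 2 ^ (lv c (q 0) + (m + 1)) = 2 ^ (lv c (q 0) + m) + 2 ^ (lv c (q 0) + m) := by
      rw [← Nat.add_assoc, pow_succ]
      omega
    omega

/-- PROOF. `m := min n (ρ + 1 - lv c (q 0))`.  `bs_disp_up` for `m` gives
`d (q 0).xb (q m).xb < 2 ^ (ρ + 1)`.  `bs_disp_up` for the reversed path `fun i => q (n - i)` and
`n - m ≤ ρ + 1 - lv c (q n)` gives `d (q n).xb (q m).xb < 2 ^ (ρ + 1)`. -/
theorem bs_disp {c : ι} {q : ℕ → Dot P ρ} {n : ℕ} (hq : ∀ i < n, d (q i) (q (i + 1)) ≤ 1)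
    (hB : ∀ i ≤ n, InB c (q i)) (hA : ∀ i ≤ n, q i ≠ .apex c)
    (hn : n + lv c (q 0) + lv c (q n) ≤ 2 * (ρ + 1)) :
    d (q 0).xb (q n).xb < 2 ^ (ρ + 2) := by
  obtain ⟨m, hm⟩ : ∃ m, m = min n (ρ + 1 - lv c (q 0)) := ⟨_, rfl⟩
  have l0 := lv_le c (q 0)
  have ln := lv_le c (q n)
  have hmn : m ≤ n := by omega
  have h1 := bs_disp_up hq hB hA m hmn
  have h2 : 2 ^ (lv c (q 0) + m) ≤ 2 ^ (ρ + 1) := Nat.pow_le_pow_right (by norm_num) (by omega)
  have h3 : 1 ≤ 2 ^ (lv c (q 0)) := Nat.one_le_two_pow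
  have hq' : ∀ i < n, d ((fun i => q (n - i)) i) ((fun i => q (n - i)) (i + 1)) ≤ 1 := by
    intro i hi
    show d (q (n - i)) (q (n - (i + 1))) ≤ 1
    have e : n - i = (n - (i + 1)) + 1 := by omega
    rw [e, d_comm]
    exact hq _ (by omega)
  have h4 := bs_disp_up (c := c) hq' (fun i hi => hB _ (by omega)) (fun i hi => hA _ (by omega))
    (n - m) (by omega)
  simp only [Nat.sub_zero] at h4
  have e : n - (n - m) = m := by omega
  rw [e] at h4
  have h5 : 2 ^ (lv c (q n) + (n - m)) ≤ 2 ^ (ρ + 1) :=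
    Nat.pow_le_pow_right (by norm_num) (by omega)
  have h6 : 1 ≤ 2 ^ (lv c (q n)) := Nat.one_le_two_pow
  have h7 := d_tri (q 0).xb (q m).xb (q n).xb
  have h8 := d_comm (q n).xb (q m).xb
  have h9 : 2 ^ (ρ + 2) = 2 ^ (ρ + 1) + 2 ^ (ρ + 1) := by
    rw [pow_succ]
    omega
  omega

end Pool.Agent.Lib.H14E
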