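import Pool.Agent.Lib.H14E.BS2
import Pool.Agent.Lib.H14E.BH

set_option autoImplicit false

namespace Pool.Agent.Lib.H14E

open Pool.Agent.Lib.H76.Morse GeoMet

variable {X ι : Type} [GeoMet X] {P : PFam X ι} {C ρ : ℕ}

/-- The lower bound for `ρ` in the passing lemma. -/
def KB (C : ℕ) : ℕ := 2 * FB C + C + 10

/-- If the meeting level of `v, v'` at `c` is `n ≥ k1 C` then every geodesic from `v` to `v'`
reaches at least the level `n - FB C`.
PROOF. `z := S.cv c v n`, `n := S.mm c v v'`, is in `S.LL v v'` (`LL_col`, `lv_le_mm`), so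
`S.LL_near hp` gives `i` with `d z (p i) ≤ FB C`; `lv c z = n` (`lv_cv`, `mm_le_top`) and
`lv_lip`. -/
theorem PSys.low_mm (S : PSys P C) {c : ι} {v v' : Dot P ρ} {p : ℕ → Dot P ρ}
    (hp : IsGeo p v v') (hn : k1 C ≤ S.mm c v v') :
    ∃ i ≤ d v v', S.mm c v v' ≤ lv c (p i) + FB C := by
  have hz : S.cv c v (S.mm c v v') ∈ S.LL v v' := S.LL_col hn (S.lv_le_mm c v v') le_rfl
  obtain ⟨i, hi, hd⟩ := S.LL_near hp hz
  refine ⟨i, hi, ?_⟩
  have h1 := lv_lip c (S.cv c v (S.mm c v v')) (p i)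
  rw [S.lv_cv c v (S.mm_le_top c v v')] at h1
  omega

theorem bs3_lv_le {c : ι} {v : Dot P ρ} (hv : v ≠ .apex c) : lv c v ≤ ρ := by
  cases v with
  | base x => rw [lv_base]; exact Nat.zero_le _
  | hor e y k hy h1 h2 =>
    by_cases he : e = c
    · subst he
      rw [lv_hor_self]
      exact h2
    · rw [lv_hor_ne he]
      exact Nat.zero_le _
  | apex e =>
    have he : e ≠ c := fun h => hv (by rw [h])
    rw [lv_apex_ne he]
    exact Nat.zero_le _

/-- The last columns are near the projection.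
PROOF. If `lv c v ≥ 1`: `v = hor c y0 k` (not the apex), `SS_hor`: `y = y0 = v.xb = S.pr c v`
(`pr_of_lv`).  If `lv c v = 0`: let `q` be a geodesic from `v` to `base y`; all levels at `c` on it
are `0` (`SS_outside`).  `n := S.mm c v (.base y) = Mlg ρ (S.pr c v) y`.  If `n ≥ k1 C`, `low_mm`
gives `n ≤ FB C`; so `n ≤ KB C`, and `le_of_Mlg` with `KB C < ρ + 1`. -/
theorem PSys.SS_near (S : PSys P C) (hρ : KB C ≤ ρ) {c : ι} {v : Dot P ρ} {y : X}
    (hv : v ≠ .apex c) (hy : y ∈ SS c v) : d y (S.pr c v) ≤ 2 ^ (KB C) := by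
  rcases Nat.eq_zero_or_pos (lv c v) with h0 | h0
  · obtain ⟨q, hq⟩ := exists_isGeo v (.base y : Dot P ρ)
    obtain ⟨hyY, _⟩ := id hy
    have hn : S.mm c v (.base y) ≤ KB C := by
      by_contra hcon
      have hk : k1 C ≤ S.mm c v (.base y) := by
        unfold k1
        unfold KB at hcon
        omega
      obtain ⟨i, hi, h1⟩ := S.low_mm hq hk
      rw [SS_outside h0 hy hq hi] at h1
      unfold KB at hcon
      omega
    have h2 := S.Mlg_le_mm c v (.base y)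
    rw [S.pr_base_mem hyY] at h2
    rw [d_comm]
    exact le_of_Mlg (ρ := ρ) (h2.trans hn) (by omega)
  · have hpr := S.pr_of_lv h0
    have hown := own_of_lv h0
    rw [hpr]
    cases v with
    | base x => simp [Dot.own] at hown
    | apex e =>
      simp only [Dot.own, Option.some.injEq] at hown
      exact absurd (by rw [hown]) hv
    | hor e y0 k hy0 h1 h2 =>
      simp only [Dot.own, Option.some.injEq] at hown
      subst hown
      rw [SS_hor] at hy
      have hy' : y = y0 := hy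
      have e1 : (Dot.hor e y0 k hy0 h1 h2 : Dot P ρ).xb = y0 := rfl
      rw [e1, hy', d_self]
      exact Nat.zero_le _

/-- Entrance points of a geodesic which goes deep in the horoball `c`.
PROOF. `n := S.mm c v (p i)`.  If `n < k1 C` done.  `p` restricted to `[0, i]` is a geodesic from
`v` to `p i`; `low_mm` gives `i' ≤ i` with `n ≤ lv c (p i') + FB C`.  If `lv c (p i') = 0` done.
`lv c (p j) ≥ 1` since `ρ ≥ KB C`.  `lv_lip`: `lv c (p i') ≤ i - i'`, `lv c (p j) ≤ j - i` (level `0` at `i`).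
`bs_apex_InB`: `j - i' = d (p i') (p j) ≤ (ρ + 1 - lv c (p i')) + (ρ + 1 - lv c (p j))`.  So
`lv c (p i') + lv c (p j) ≤ ρ + 1`, and `lv c (p j) ≥ ρ + 1 - FB C`, so
`lv c (p i') ≤ FB C` and `n ≤ 2 * FB C`. -/
theorem PSys.enter_bound (S : PSys P C) (hρ : KB C ≤ ρ) {c : ι} {v v' : Dot P ρ}
    {p : ℕ → Dot P ρ} (hp : IsGeo p v v') {i j : ℕ} (hij : i ≤ j) (hj : j ≤ d v v')
    (h0 : lv c (p i) = 0) (h1 : ρ + 1 ≤ lv c (p j) + FB C) :
    S.mm c v (p i) ≤ 2 * FB C + k1 C := by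
  rcases Nat.lt_or_ge (S.mm c v (p i)) (k1 C) with hk | hk
  · omega
  have hdi : d v (p i) = i := hp.dist_left (hij.trans hj)
  have hq : IsGeo p v (p i) :=
    ⟨hp.1, by rw [hdi], fun a b hab hb => hp.2.2 a b hab (by omega)⟩
  obtain ⟨i', hi', h2⟩ := S.low_mm hq hk
  rw [hdi] at hi'
  rcases Nat.eq_zero_or_pos (lv c (p i')) with h3 | h3
  · omega
  have hKB : KB C = 2 * FB C + C + 10 := rfl
  have h4 : 1 ≤ lv c (p j) := by omega
  have a1 := lv_lip c (p i') (p i)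
  rw [h0, hp.2.2 i' i hi' (hij.trans hj)] at a1
  have a2 := lv_lip c (p j) (p i)
  rw [h0, d_comm, hp.2.2 i j hij hj] at a2
  have a3 := bs_apex_InB (InB_of_lv h3)
  have a4 := bs_apex_InB (InB_of_lv h4)
  have a5 := d_tri (p i') (.apex c) (p j)
  rw [hp.2.2 i' j (by omega) hj, d_comm (.apex c) (p j)] at a5
  omega

/-- The entrance point.
PROOF. If some index `≤ j` has level `0` at `c`: `bs_enter` gives `i < j` with `p i = base y`,
`y ∈ P.Y c` and levels `≥ 1` on `(i, j]`; `InB` on `[i, j]`.  `enter_bound`: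
`Mlg ρ (S.pr c v) y ≤ 2 * FB C + k1 C ≤ KB C` (`Mlg_le_mm`, `S.pr_base_mem`), so
`d (S.pr c v) y ≤ 2 ^ (KB C)` (`le_of_Mlg`).  Otherwise take `i = 0`: `p 0 = v` has positive
level, `S.pr c v = v.xb` (`pr_of_lv`), distance `0`. -/
theorem PSys.left_pt (S : PSys P C) (hρ : KB C ≤ ρ) {c : ι} {v v' : Dot P ρ}
    {p : ℕ → Dot P ρ} (hp : IsGeo p v v') {j : ℕ} (hj : j ≤ d v v')
    (h1 : ρ + 1 ≤ lv c (p j) + FB C) :
    ∃ i ≤ j, (∀ l, i ≤ l → l ≤ j → InB c (p l)) ∧ d (p i).xb (S.pr c v) ≤ 2 ^ (KB C) := by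
  have hKB : KB C = 2 * FB C + C + 10 := rfl
  have hstep : ∀ i < d v v', d (p i) (p (i + 1)) ≤ 1 := by
    intro i hi
    rw [hp.2.2 i (i + 1) (by omega) (by omega)]
    omega
  by_cases h : ∃ l ≤ j, lv c (p l) = 0
  · obtain ⟨l, hl, h0⟩ := h
    obtain ⟨k, hk1, hk2, ⟨y, hy, e⟩, hk4⟩ :=
      bs_enter (c := c) hstep hl hj h0 (by omega)
    have e0 : lv c (p k) = 0 := by rw [e, lv_base]
    refine ⟨k, hk2.le, ?_, ?_⟩
    · intro l' h3 h4
      rcases Nat.eq_or_lt_of_le h3 with h5 | h5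
      · rw [← h5]
        exact Or.inr ⟨y, hy, e⟩
      · exact InB_of_lv (hk4 l' h5 h4)
    · have h3 := S.enter_bound hρ hp hk2.le hj e0 h1
      have h4 := S.Mlg_le_mm c v (p k)
      rw [e, S.pr_base_mem hy] at h4
      rw [e] at h3
      have e2 : (p k).xb = y := by rw [e]; rfl
      rw [e2, d_comm]
      have h5 : Mlg ρ (S.pr c v) y ≤ KB C := by
        unfold k1 at h3
        omega
      exact le_of_Mlg (ρ := ρ) h5 (by omega)
  · have h2 : ∀ l ≤ j, 1 ≤ lv c (p l) := by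
      intro l hl
      by_contra hcon
      exact h ⟨l, hl, by omega⟩
    refine ⟨0, Nat.zero_le _, fun l _ hl => InB_of_lv (h2 l hl), ?_⟩
    have h3 := h2 0 (Nat.zero_le _)
    rw [hp.1] at h3 ⊢
    rw [S.pr_of_lv h3, d_self]
    exact Nat.zero_le _

/-- **Passing lemma.**
PROOF. Suppose `p` avoids `apex c`.  `a := S.pr c v`, `a' := S.pr c v'`; `SS_near`:
`d y a, d y' a' ≤ 2 ^ (KB C) ≤ 2 ^ ρ`, so `d a a' ≥ 2 ^ (ρ + 4) - 2 ^ (ρ + 1) > 2 ^ ρ`, so
`Mlg ρ a a' = ρ + 1` (`le_of_Mlg`) and `S.mm c v v' = ρ + 1 ≥ k1 C`.  `low_mm`: `j` with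
`ρ + 1 ≤ lv c (p j) + FB C`.  `left_pt` gives `i1 ≤ j`; `left_pt` for the reversed geodesic
(`revp p (d v v')`, index `d v v' - j`) gives `i2 ≥ j`, with `InB c (p l)` for `i1 ≤ l ≤ i2`,
`d (p i1).xb a ≤ 2 ^ ρ`, `d (p i2).xb a' ≤ 2 ^ ρ`.  `bs_apex_InB` gives
`i2 - i1 ≤ (ρ + 1 - lv) + (ρ + 1 - lv)`, so `bs_disp` for `fun l => p (i1 + l)` gives
`d (p i1).xb (p i2).xb < 2 ^ (ρ + 2)`.  Sum: `d y y' < 4 * 2 ^ ρ + 2 ^ (ρ + 2) ≤ 2 ^ (ρ + 4)`:
contradiction. -/
theorem PSys.passing (S : PSys P C) (hρ : KB C ≤ ρ) {c : ι} {v v' : Dot P ρ} {y y' : X}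
    (hv : v ≠ .apex c) (hv' : v' ≠ .apex c) (hy : y ∈ SS c v) (hy' : y' ∈ SS c v')
    (h : 2 ^ (ρ + 4) ≤ d y y') : Thru c v v' := by
  intro p hp
  by_contra hno
  have hno' : ∀ i ≤ d v v', p i ≠ .apex c := fun i hi h => hno ⟨i, hi, h⟩
  have hKB : KB C = 2 * FB C + C + 10 := rfl
  have hpow : 2 ^ (KB C) ≤ 2 ^ ρ := Nat.pow_le_pow_right (by norm_num) hρ
  have h4 : 2 ^ (ρ + 4) = 16 * 2 ^ ρ := by rw [pow_add]; ring
  have h2 : 2 ^ (ρ + 2) = 4 * 2 ^ ρ := by rw [pow_add]; ring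
  have hpos : 0 < 2 ^ ρ := Nat.pos_of_ne_zero (by positivity)
  have n1 := S.SS_near hρ hv hy
  have n2 := S.SS_near hρ hv' hy'
  have t1 := d_tri y (S.pr c v) y'
  have t2 := d_tri (S.pr c v) (S.pr c v') y'
  have c1 := d_comm y' (S.pr c v')
  have hM : ρ + 1 ≤ Mlg ρ (S.pr c v) (S.pr c v') := by
    by_contra hcon
    have := le_of_Mlg (ρ := ρ) (a := S.pr c v) (b := S.pr c v') (k := ρ) (by omega) (by omega)
    omega
  have hmm : ρ + 1 ≤ S.mm c v v' := hM.trans (S.Mlg_le_mm c v v')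
  obtain ⟨j, hj, hj'⟩ := S.low_mm (c := c) hp (by unfold k1; omega)
  have hj2 : ρ + 1 ≤ lv c (p j) + FB C := hmm.trans hj'
  obtain ⟨i1, hi1, hB1, hD1⟩ := S.left_pt hρ hp hj hj2
  have hrev := bg3_rev hp
  have hdc : d v' v = d v v' := d_comm v' v
  obtain ⟨i', hi', hB2, hD2⟩ := S.left_pt (c := c) hρ hrev (j := d v v' - j) (by omega) (by
    have e : d v v' - (d v v' - j) = j := by omega
    rw [e]
    exact hj2)
  have hi2 : j ≤ d v v' - i' := by omega
  have hB : ∀ l, i1 ≤ l → l ≤ d v v' - i' → InB c (p l) := by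
    intro l hl1 hl2
    rcases Nat.lt_or_ge j l with h5 | h5
    · have := hB2 (d v v' - l) (by omega) (by omega)
      have e : d v v' - (d v v' - l) = l := by omega
      rw [e] at this
      exact this
    · exact hB1 l hl1 h5
  have b1 := bs_apex_InB (hB i1 le_rfl (by omega))
  have b2 := bs_apex_InB (hB (d v v' - i') (by omega) le_rfl)
  have b3 := d_tri (p i1) (.apex c) (p (d v v' - i'))
  rw [hp.2.2 i1 (d v v' - i') (by omega) (by omega), d_comm (.apex c) (p (d v v' - i'))] at b3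
  have hq := bs_disp (c := c) (q := fun l => p (i1 + l)) (n := d v v' - i' - i1)
    (fun i hi => by
      have := hp.2.2 (i1 + i) (i1 + i + 1) (by omega) (by omega)
      show d (p (i1 + i)) (p (i1 + (i + 1))) ≤ 1
      rw [show i1 + (i + 1) = i1 + i + 1 by omega, this]
      omega)
    (fun i hi => hB (i1 + i) (by omega) (by omega))
    (fun i hi => hno' (i1 + i) (by omega))
    (by
      show d v v' - i' - i1 + lv c (p (i1 + 0)) + lv c (p (i1 + (d v v' - i' - i1))) ≤ _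
      rw [Nat.add_zero, show i1 + (d v v' - i' - i1) = d v v' - i' by omega]
      omega)
  have hq' : d (p i1).xb (p (d v v' - i')).xb < 2 ^ (ρ + 2) := by
    have e1 : i1 + (d v v' - i' - i1) = d v v' - i' := by omega
    simp only [Nat.add_zero, e1] at hq
    exact hq
  have t3 := d_tri (S.pr c v) (p i1).xb (S.pr c v')
  have t4 := d_tri (p i1).xb (p (d v v' - i')).xb (S.pr c v')
  have c2 := d_comm (S.pr c v) (p i1).xb
  have hD2' : d (p (d v v' - i')).xb (S.pr c v') ≤ 2 ^ (KB C) := hD2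
  omega

/-- Adjacent vertices have close last columns.
PROOF. `d y y' ≤ d y (pr v) + d (pr v) (pr v') + d (pr v') y'`, the outer terms are `≤ 2 ^ ρ`
(`SS_near`).  `S.adj_cases`: two points of `X`: `S.lip`, `≤ 1 + C ≤ 2 ^ ρ`.  Both in the closed
horoball `e`: if `e ≠ c`, both base points are in `P.Y e` (`xb_mem_of_InB`) and `S.a3` gives `≤ C`;
if `e = c`, the projections are the base points (`S.fix`) and `bs_step_x` gives `≤ 2 ^ ρ`
(`lv c v ≤ ρ` since `v` is not the apex). -/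
theorem PSys.SS_lip (S : PSys P C) (hρ : KB C ≤ ρ) {c : ι} {v v' : Dot P ρ} {y y' : X}
    (hd : d v v' ≤ 1) (hv : v ≠ .apex c) (hv' : v' ≠ .apex c) (hy : y ∈ SS c v)
    (hy' : y' ∈ SS c v') : d y y' ≤ 2 ^ (ρ + 2) := by
  have hKB : KB C = 2 * FB C + C + 10 := rfl
  have hpow : 2 ^ (KB C) ≤ 2 ^ ρ := Nat.pow_le_pow_right (by norm_num) hρ
  have hpowC : 2 ^ C ≤ 2 ^ ρ := Nat.pow_le_pow_right (by norm_num) (by omega)
  have hC := two_pow_ge C
  have h2 : 2 ^ (ρ + 2) = 4 * 2 ^ ρ := by rw [pow_add]; ring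
  have n1 := S.SS_near hρ hv hy
  have n2 := S.SS_near hρ hv' hy'
  have t1 := d_tri y (S.pr c v) y'
  have t2 := d_tri (S.pr c v) (S.pr c v') y'
  have c1 := d_comm y' (S.pr c v')
  have key : d (S.pr c v) (S.pr c v') ≤ 2 ^ ρ := by
    rcases S.adj_cases hd with ⟨x, x', e1, e2, hx⟩ | ⟨e, hB, hB', -, -⟩
    · have := S.lip c x x'
      rw [e1, e2, S.pr_base, S.pr_base]
      omega
    · by_cases he : e = c
      · subst he
        have m1 := xb_mem_of_InB hB
        have m2 := xb_mem_of_InB hB'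
        have e1 : S.pr e v = v.xb := S.fix e _ m1
        have e2 : S.pr e v' = v'.xb := S.fix e _ m2
        rw [e1, e2]
        exact (bs_step_x hd hB hB' hv hv').trans
          (Nat.pow_le_pow_right (by norm_num) (bs3_lv_le hv))
      · have := S.a3 c e (fun h => he h.symm) v.xb v'.xb (xb_mem_of_InB hB) (xb_mem_of_InB hB')
        have h3 : d (S.pr c v) (S.pr c v') ≤ C := this
        omega
  omega

end Pool.Agent.Lib.H14E
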