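import Pool.Agent.Lib.H14E.BS3

/-!
# H14E module B: the angle function at the apices (input of the rotation family of module C)
-/

set_option autoImplicit false

namespace Pool.Agent.Lib.H14E

open Pool.Agent.Lib.H76.Morse GeoMet

variable {X ι : Type} [GeoMet X] {P : PFam X ι} {C ρ : ℕ}

/-- The angle at the apex `c` between `u` and `v`. -/
noncomputable def dcS (c : ι) (u v : Dot P ρ) : ℕ :=
  sSup {n | ∃ y ∈ SS c u, ∃ y' ∈ SS c v, n = d y y'}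

/-- PROOF. `SS_near`: all elements are at most
`2 ^ (KB C) + d (S.pr c u) (S.pr c v) + 2 ^ (KB C)`. -/
theorem PSys.dcS_bdd (S : PSys P C) (hρ : KB C ≤ ρ) {c : ι} {u v : Dot P ρ}
    (hu : u ≠ .apex c) (hv : v ≠ .apex c) :
    BddAbove {n | ∃ y ∈ SS c u, ∃ y' ∈ SS c v, n = d y y'} := by
  refine ⟨2 ^ (KB C) + d (S.pr c u) (S.pr c v) + 2 ^ (KB C), ?_⟩
  rintro n ⟨y, hy, y', hy', rfl⟩
  have h1 := S.SS_near hρ hu hy
  have h2 := S.SS_near hρ hv hy'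
  have h3 := d_tri y (S.pr c u) y'
  have h4 := d_tri (S.pr c u) (S.pr c v) y'
  have h5 := d_comm y' (S.pr c v)
  omega

/-- PROOF. `le_csSup`, `dcS_bdd`. -/
theorem PSys.le_dcS (S : PSys P C) (hρ : KB C ≤ ρ) {c : ι} {u v : Dot P ρ} {y y' : X}
    (hu : u ≠ .apex c) (hv : v ≠ .apex c) (hy : y ∈ SS c u) (hy' : y' ∈ SS c v) :
    d y y' ≤ dcS c u v :=
  le_csSup (S.dcS_bdd hρ hu hv) ⟨y, hy, y', hy', rfl⟩

/-- The supremum is attained.
PROOF. `Nat.sSup_mem`, `SS_nonempty`, `dcS_bdd`. -/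
theorem PSys.dcS_att (S : PSys P C) (hρ : KB C ≤ ρ) {c : ι} {u v : Dot P ρ}
    (hu : u ≠ .apex c) (hv : v ≠ .apex c) :
    ∃ y ∈ SS c u, ∃ y' ∈ SS c v, dcS c u v = d y y' := by
  obtain ⟨y, hy⟩ := SS_nonempty hu
  obtain ⟨y', hy'⟩ := SS_nonempty hv
  exact Nat.sSup_mem (s := {n | ∃ y ∈ SS c u, ∃ y' ∈ SS c v, n = d y y'})
    ⟨d y y', y, hy, y', hy', rfl⟩ (S.dcS_bdd hρ hu hv)

/-- PROOF. The two sets are equal (`d_comm`). -/
theorem dcS_comm (c : ι) (u v : Dot P ρ) : dcS c u v = dcS c v u := by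
  unfold dcS
  congr 1
  ext n
  constructor
  · rintro ⟨y, hy, y', hy', rfl⟩
    exact ⟨y', hy', y, hy, d_comm _ _⟩
  · rintro ⟨y, hy, y', hy', rfl⟩
    exact ⟨y', hy', y, hy, d_comm _ _⟩

/-- PROOF. `dcS_att` for `u, w`: `y, y'`; any `z ∈ SS c v` (`SS_nonempty`); `d_tri`, `le_dcS`. -/
theorem PSys.dcS_tri (S : PSys P C) (hρ : KB C ≤ ρ) {c : ι} {u v w : Dot P ρ}
    (hu : u ≠ .apex c) (hv : v ≠ .apex c) (hw : w ≠ .apex c) :
    dcS c u w ≤ dcS c u v + dcS c v w := by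
  obtain ⟨y, hy, y', hy', e⟩ := S.dcS_att hρ hu hw
  obtain ⟨z, hz⟩ := SS_nonempty hv
  have h1 := S.le_dcS hρ hu hv hy hz
  have h2 := S.le_dcS hρ hv hw hz hy'
  have h3 := d_tri y z y'
  omega

/-- PROOF. `dcS_att`, `SS_near` twice, `KB C ≤ ρ`. -/
theorem PSys.dcS_diag (S : PSys P C) (hρ : KB C ≤ ρ) {c : ι} {u : Dot P ρ}
    (hu : u ≠ .apex c) : dcS c u u ≤ 2 ^ (ρ + 1) := by
  obtain ⟨y, hy, y', hy', e⟩ := S.dcS_att hρ hu hu
  have h1 := S.SS_near hρ hu hy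
  have h2 := S.SS_near hρ hu hy'
  have h3 := d_tri y (S.pr c u) y'
  have h4 := d_comm y' (S.pr c u)
  have h5 : 2 ^ (KB C) ≤ 2 ^ ρ := Nat.pow_le_pow_right (by norm_num) hρ
  have h6 : 2 ^ (ρ + 1) = 2 ^ ρ + 2 ^ ρ := by
    rw [pow_succ]
    omega
  omega

/-- PROOF. `dcS_att`, `S.passing`. -/
theorem PSys.dcS_thru (S : PSys P C) (hρ : KB C ≤ ρ) {c : ι} {u v : Dot P ρ}
    (hu : u ≠ .apex c) (hv : v ≠ .apex c) (h : 2 ^ (ρ + 4) ≤ dcS c u v) : Thru c u v := by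
  obtain ⟨y, hy, y', hy', e⟩ := S.dcS_att hρ hu hv
  exact S.passing hρ hu hv hy hy' (by rw [← e]; exact h)

/-- PROOF. `dcS_thru`, `Thru.dist`. -/
theorem PSys.dcS_geo (S : PSys P C) (hρ : KB C ≤ ρ) {c : ι} {u v : Dot P ρ}
    (hu : u ≠ .apex c) (hv : v ≠ .apex c) (h : 2 ^ (ρ + 4) ≤ dcS c u v) :
    d u v = d u (.apex c) + d (.apex c) v :=
  (S.dcS_thru hρ hu hv h).dist

/-- PROOF. `dcS_thru`, `SS_exact`: `SS e u = SS e (apex c)`; unfold `dcS`. -/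
theorem PSys.dcS_strong (S : PSys P C) (hρ : KB C ≤ ρ) {c e : ι} {u : Dot P ρ} (hce : c ≠ e)
    (hu : u ≠ .apex c) (h : 2 ^ (ρ + 4) ≤ dcS c u (.apex e)) (v : Dot P ρ) :
    dcS e u v = dcS e (.apex c) v := by
  have he : (.apex e : Dot P ρ) ≠ .apex c := by
    intro h
    cases h
    exact hce rfl
  have h1 := SS_exact hce (S.dcS_thru hρ hu he h)
  unfold dcS
  rw [h1]

/-- PROOF. Fix one geodesic `p` from `u` to `v`.  Every such `c` has an index `i ≤ d u v` with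
`p i = apex c` (`dcS_thru`), and `c` is determined by `i`. -/
theorem PSys.dcS_fin (S : PSys P C) (hρ : KB C ≤ ρ) (u v : Dot P ρ) :
    {c : ι | u ≠ .apex c ∧ v ≠ .apex c ∧ 2 ^ (ρ + 4) ≤ dcS c u v}.Finite := by
  obtain ⟨p, hp⟩ := exists_isGeo u v
  have h1 : ((fun c : ι => (.apex c : Dot P ρ)) ''
      {c : ι | u ≠ .apex c ∧ v ≠ .apex c ∧ 2 ^ (ρ + 4) ≤ dcS c u v}).Finite := by
    apply Set.Finite.subset ((Set.finite_Iic (d u v)).image p)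
    rintro _ ⟨c, ⟨hu, hv, h⟩, rfl⟩
    obtain ⟨i, hi, e⟩ := S.dcS_thru hρ hu hv h p hp
    exact ⟨i, hi, e⟩
  refine Set.Finite.of_finite_image h1 ?_
  intro a _ b _ h
  simp only [Dot.apex.injEq] at h
  exact h

/-- A point near the apex `c` which sees the other cones as the apex does.
PROOF. `y ∈ P.Y c` (`P.ne c`), `x := Dot.col c y _ ρ`, which is not an apex (`hor` or `base`),
`d x (apex c) = 1` (`bs_apex_col`).  `dcS_att` and `S.SS_lip` (the two vertices are adjacent). -/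
theorem PSys.dcS_near (S : PSys P C) (hρ : KB C ≤ ρ) (c : ι) :
    ∃ x : Dot P ρ, (∀ e : ι, x ≠ .apex e) ∧ d x (.apex c) ≤ 1 ∧
      ∀ e : ι, e ≠ c → dcS e x (.apex c) ≤ 2 ^ (ρ + 2) := by
  obtain ⟨y, hy⟩ := P.ne c
  have hx : ∀ e : ι, (Dot.col c y hy ρ : Dot P ρ) ≠ .apex e := by
    intro e h
    rcases Nat.eq_zero_or_pos ρ with h0 | h0
    · have h1 : (Dot.col c y hy ρ : Dot P ρ) = .base y := by
        unfold Dot.col
        rw [dif_neg (by omega)]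
      rw [h1] at h
      cases h
    · rw [Dot.col_hor c y hy h0 le_rfl] at h
      cases h
  have hd : d (Dot.col c y hy ρ : Dot P ρ) (.apex c) ≤ 1 := by
    rw [bs_apex_col c hy (by omega)]
    omega
  refine ⟨Dot.col c y hy ρ, hx, hd, ?_⟩
  intro e hec
  have hc : (.apex c : Dot P ρ) ≠ .apex e := by
    intro h
    cases h
    exact hec rfl
  obtain ⟨z, hz, z', hz', e1⟩ := S.dcS_att hρ (hx e) hc
  rw [e1]
  exact S.SS_lip hρ hd (hx e) hc hz hz'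

end Pool.Agent.Lib.H14E
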