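import Pool.Agent.Lib.H14E.B1

set_option autoImplicit false

namespace Pool.Agent.Lib.H14E

open Pool.Agent.Lib.H76.Morse GeoMet

/-- PROOF. Four point condition for `(x, y; z, s)`; in each of the two cases substitute
`d x z + d z y ≤ d x y + r` (after `simp only [Nr]`, `le_max_iff`-case split, `d_comm`, omega). -/
theorem nr_split {X : Type} [GeoMet X] {C : ℕ} (hX : Hyp C X) {r : ℕ} {x z y : X}
    (h : Nr r x z y) (s : X) : Nr (r + C) x z s ∨ Nr (r + C) s z y := by
  unfold Nr at *
  have h1 := hX x y z s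
  have h2 := d_comm z y
  have h3 := d_comm z s
  have h4 := d_comm x s
  have h5 := d_comm s y
  have h6 := d_comm s z
  rcases le_total (d x z + d y s) (d x s + d y z) with h7 | h7
  · left
    rw [max_eq_right h7] at h1
    omega
  · right
    rw [max_eq_left h7] at h1
    omega

/-- PROOF. Let `p` be a geodesic from `x` to `y`.  If `d x z ≤ d x y` take `z' := p (d x z)`;
four point condition for `(x, y; z, z')`: `d x y + d z z' ≤
max (d x z + d y z') (d x z' + d y z) + C = max (d x y) (d x z + d y z) + C ≤ d x y + r + C`.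
Otherwise take `z' := y`: `d z y ≤ d x y + r - d x z ≤ r`. -/
theorem nr_geo {X : Type} [GeoMet X] {C : ℕ} (hX : Hyp C X) {r : ℕ} {x z y : X}
    (h : Nr r x z y) : ∃ z', d x z' + d z' y = d x y ∧ d z z' ≤ r + C := by
  unfold Nr at *
  obtain ⟨p, h0, h1, h2⟩ := geo x y
  rcases le_total (d x z) (d x y) with h3 | h3
  · refine ⟨p (d x z), ?_, ?_⟩
    · have a1 := h2 0 (d x z) (by omega) h3
      have a2 := h2 (d x z) (d x y) h3 le_rfl
      rw [h0] at a1
      rw [h1] at a2
      omega
    · have a1 := h2 0 (d x z) (by omega) h3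
      have a2 := h2 (d x z) (d x y) h3 le_rfl
      rw [h0] at a1
      rw [h1] at a2
      have a3 := hX x y z (p (d x z))
      have a4 := d_comm z y
      have a5 := d_comm (p (d x z)) y
      omega
  · refine ⟨y, ?_, ?_⟩
    · rw [d_self]
      omega
    · omega

/-- PROOF. `t := (d x y + d x s - d y s) / 2` (`≤ d x y`), `m := p t` on a geodesic from `x` to
`y`.  Four point condition for `(x, y; m, s)`: `d x y + d m s ≤
max (t + d y s) (d x s + (d x y - t)) + C`, and `d x s + d x y - t ≤ t + 1 + d y s`.  So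
`d m s ≤ t + 1 + d y s + C - d x y`, which gives the three inequalities. -/
theorem centre3 {X : Type} [GeoMet X] {C : ℕ} (hX : Hyp C X) (x y s : X) :
    ∃ m, Nr (C + 1) x m y ∧ Nr (C + 1) y m s ∧ Nr (C + 1) s m x := by
  obtain ⟨p, h0, h1, h2⟩ := geo x y
  have t1 := d_tri x y s
  have t2 := d_tri x s y
  have t3 := d_tri y x s
  have c1 := d_comm s y
  have c2 := d_comm y x
  have ht : (d x y + d x s - d y s) / 2 ≤ d x y := by omega
  generalize hm : (d x y + d x s - d y s) / 2 = t at ht
  have a1 := h2 0 t (by omega) ht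
  have a2 := h2 t (d x y) ht le_rfl
  rw [h0] at a1
  rw [h1] at a2
  have a3 := hX x y (p t) s
  have c3 := d_comm (p t) y
  have c4 := d_comm s (p t)
  have c5 := d_comm (p t) x
  have c6 := d_comm s x
  refine ⟨p t, ?_, ?_, ?_⟩
  · unfold Nr
    omega
  · unfold Nr
    omega
  · unfold Nr
    omega

theorem Nr.symm {X : Type} [GeoMet X] {r : ℕ} {x z y : X} (h : Nr r x z y) : Nr r y z x := by
  unfold Nr at *
  rw [d_comm y z, d_comm z x, d_comm y x]
  omega

theorem Nr.mono {X : Type} [GeoMet X] {r r' : ℕ} {x z y : X} (h : Nr r x z y) (hr : r ≤ r') :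
    Nr r' x z y := by
  unfold Nr at *
  omega

end Pool.Agent.Lib.H14E
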