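import Mathlib
import Pool.Agent.Lib.H76.Morse.Basic

/-!
# H14E: core definitions (MP_f3e693_al, frozen S03538)

See Lib/H14E/INVARIANTS.md and Lib/H14E/PROOF.md.  `p` is an odd prime.
`GeoMet X` (helper76): integer valued geodesic metric (vertex set of a connected graph).
-/

set_option autoImplicit false

namespace Pool.Agent.Lib.H14E

open Pool.Agent.Lib.H76.Morse GeoMet

/-- Gromov hyperbolicity, four point condition. -/
def Hyp (δ : ℕ) (X : Type) [GeoMet X] : Prop :=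
  ∀ x y z w : X, d x y + d z w ≤ max (d x z + d y w) (d x w + d y z) + δ

/-- Geometric action of `G` on (the vertex set of) a locally finite connected graph. -/
structure Geom (G X : Type) [Group G] [GeoMet X] [MulAction G X] : Prop where
  ne : Nonempty X
  iso : ∀ (g : G) (x y : X), d (g • x) (g • y) = d x y
  ball : ∀ (x : X) (r : ℕ), {y : X | d x y ≤ r}.Finite
  stab : ∀ x : X, {g : G | g • x = x}.Finite
  cof : ∃ F : Finset X, ∀ x : X, ∃ g : G, ∃ y ∈ F, g • y = x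

/-- `T_g(b) = b g b⁻¹`. -/
def Tg {G : Type} [Group G] (g b : G) : G := b * g * b⁻¹

/-- Every element of finite order has `p`-power order. -/
def PTors (p : ℕ) (G : Type) [Group G] : Prop :=
  ∀ g : G, IsOfFinOrder g → ∃ k : ℕ, g ^ (p ^ k) = 1

/-- No recurrences. -/
def NoRec (G : Type) [Group G] : Prop :=
  ∀ (g b m : G) (k : ℕ), 1 ≤ k → m * g = g * m → (Tg g)^[k] b = m * b * m⁻¹ → b = g

/-- The group `G` is a stage. -/
structure Stage (p : ℕ) (G : Type) [Group G] : Prop where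
  hyp : ∃ (X : Type) (_ : GeoMet X) (_ : MulAction G X) (δ : ℕ), Hyp δ X ∧ Geom G X
  tors : PTors p G
  norec : NoRec G

/-- `π : E → G` is a central extension with kernel the infinite cyclic group `⟨z⟩`. -/
structure CExt {E G : Type} [Group E] [Group G] (π : E →* G) (z : E) : Prop where
  surj : Function.Surjective π
  ker : π.ker = Subgroup.zpowers z
  cent : ∀ x : E, z * x = x * z
  inf : ∀ n : ℤ, z ^ n = 1 → n = 0

/-- `u` is at distance at most `r` from the coset orbit `g D y₀`. -/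
def Near {G X : Type} [Group G] [GeoMet X] [MulAction G X] (D : Subgroup G) (y₀ : X) (r : ℕ)
    (g : G) (u : X) : Prop :=
  ∃ a ∈ D, d u ((g * a) • y₀) ≤ r

/-- `(D, D y₀)` is a peripheral pair: quasiconvex, bounded overlap. -/
structure Periph {G X : Type} [Group G] [GeoMet X] [MulAction G X] (D : Subgroup G) (y₀ : X) :
    Prop where
  qc : ∃ κ : ℕ, ∀ a ∈ D, ∀ b ∈ D, ∀ x : X,
    d (a • y₀) x + d x (b • y₀) = d (a • y₀) (b • y₀) → Near D y₀ κ 1 x
  ovl : ∀ r : ℕ, ∃ L : ℕ, ∀ g : G, g ∉ D → ∀ u v : X,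
    Near D y₀ r 1 u → Near D y₀ r 1 v → Near D y₀ r g u → Near D y₀ r g v → d u v ≤ L

/-- `S` is a finite normal subgroup of `D`. -/
structure FinNormal {G : Type} [Group G] (S D : Subgroup G) : Prop where
  fin : (S : Set G).Finite
  le : S ≤ D
  nrm : ∀ g ∈ D, ∀ s ∈ S, g * s * g⁻¹ ∈ S

/-- Fusion: two embeddings of a finite `p`-group in `D` which agree modulo `M` are conjugate
in `G`. -/
def Fus (p : ℕ) {G : Type} [Group G] (D M : Subgroup G) : Prop :=
  ∀ (F : Type) [Group F] [Finite F], IsPGroup p F → ∀ f₁ f₂ : F →* G,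
    Function.Injective f₁ → Function.Injective f₂ → (∀ x, f₁ x ∈ D) → (∀ x, f₂ x ∈ D) →
    (∀ x, (f₁ x)⁻¹ * f₂ x ∈ M) → ∃ t : G, ∀ x, f₂ x = t * f₁ x * t⁻¹

/-- (HT): `e` with `e² = k` modulo `M` and `e⁻¹ σ e = ζ` modulo `M`, `σ` of finite order not
in `S`, `σ, ζ, k` in `F₁`, is in `F₂` modulo `M`. -/
def HT {G : Type} [Group G] (D S M : Subgroup G) (F₁ F₂ : Finset G) : Prop :=
  ∀ σ ζ k e : G, σ ∈ F₁ → ζ ∈ F₁ → k ∈ F₁ → σ ∈ D → ζ ∈ D → k ∈ D → e ∈ D →
    IsOfFinOrder σ → σ ∉ S → k⁻¹ * (e * e) ∈ M → ζ⁻¹ * (e⁻¹ * σ * e) ∈ M →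
    ∃ f ∈ F₂, f ∈ D ∧ f⁻¹ * e ∈ M

/-- The conditions on the subgroup `Mt` of `E` (a lift of `M = π(Mt)`) used for the filling. -/
structure FillData (p : ℕ) {E G : Type} [Group E] [Group G] (π : E →* G) (z : E)
    (D S : Subgroup G) (F₁ F₂ Φ : Finset G) (Mt : Subgroup E) : Prop where
  le : ∀ m ∈ Mt, π m ∈ D
  nrm : ∀ x : E, π x ∈ D → ∀ m ∈ Mt, x * m * x⁻¹ ∈ Mt
  zfree : ∀ n : ℤ, z ^ n ∈ Mt → n = 0
  pidx : ∃ k : ℕ, (Mt.map π).relIndex D = p ^ k
  avoid : ∀ x ∈ Mt.map π, x ∈ Φ → x = 1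
  fus : Fus p D (Mt.map π)
  ht : HT D S (Mt.map π) F₁ F₂

/-- Type P: `D = A *_S B` (inside `G`), `A = ⟨a⟩ S`, `B = ⟨b⟩ S = t A t⁻¹`, `t` centralises
`S`. The list condition says that alternating products of elements of `A \ S`, `B \ S` are not
trivial, i.e. the natural map from the amalgam is injective. -/
structure TypeP {G : Type} [Group G] (D A B S : Subgroup G) (a b t : G) : Prop where
  fin : (S : Set G).Finite
  nrm : ∀ s ∈ S, a * s * a⁻¹ ∈ S
  afin : IsOfFinOrder a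
  hA : A = Subgroup.zpowers a ⊔ S
  hB : B = Subgroup.zpowers b ⊔ S
  hD : D = A ⊔ B
  hb : b = t * a * t⁻¹
  ht : ∀ s ∈ S, t * s = s * t
  red : ∀ l : List (Bool × G), l ≠ [] →
    (∀ q ∈ l, q.2 ∈ (if q.1 then A else B) ∧ q.2 ∉ S) →
    l.IsChain (fun q q' => q.1 ≠ q'.1) → (l.map Prod.snd).prod ≠ 1

end Pool.Agent.Lib.H14E
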