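import Pool.Agent.Lib.H14E.D1C
import Pool.Agent.Lib.H14E.BMain

/-!
# H14E, module D1: the rotation family gives `QD`

See PROOF_D.md, D1.  `δ'` does not depend on `ρ`; `Φ` depends on `ρ`.
-/

set_option autoImplicit false

namespace Pool.Agent.Lib.H14E

open Pool.Agent.Lib.H76.Morse GeoMet

theorem d1_qd {p : ℕ} (hp : p.Prime) {G X : Type} [Group G] [GeoMet X] [MulAction G X] {δ : ℕ}
    (hX : Hyp δ X) (hG : Geom G X) {D : Subgroup G} {y₀ : X} (hP : Periph D y₀) :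
    ∃ δ' ρ₀ : ℕ, ∀ ρ, ρ₀ ≤ ρ → ∃ Φ : Finset G, ∀ (E : Type) [Group E] (π : E →* G) (z : E),
      CExt π z → ∀ (Mt : Subgroup E) (S : Subgroup G) (F₁ F₂ : Finset G),
      FillData p π z D S F₁ F₂ Φ Mt →
        QD p D (Mt.map π) (Subgroup.normalClosure ((Mt.map π : Subgroup G) : Set G)) y₀ ρ δ' ∧
        ∀ n : ℤ, z ^ n ∈ Subgroup.normalClosure (Mt : Set E) → n = 0 := by
  obtain ⟨δ', ρ₀, h⟩ := b_main hX hG hP
  refine ⟨δ' + 2, max ρ₀ 1, ?_⟩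
  intro ρ hρ
  obtain ⟨th, hC⟩ := h ρ (le_trans (le_max_left _ _) hρ)
  exact d1_of_cone hG (le_trans (le_max_right _ _) hρ) hC

end Pool.Agent.Lib.H14E
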