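import Pool.Agent.Lib.H14E.D10b

/-!
# H14E, module D10: NoRec for the quotient
-/

set_option autoImplicit false
set_option linter.unusedSectionVars false

namespace Pool.Agent.Lib.H14E

open Pool.Agent.Lib.H76.Morse GeoMet

/-- **NoRec passes to the quotient.** -/
theorem norec_quot {p : ℕ} (hp : p.Prime) (hp2 : p ≠ 2) {G X : Type} [Group G] [GeoMet X]
    [MulAction G X] {δ : ℕ} (hX : Hyp δ X) (hG : Geom G X) (hT : PTors p G) (hN : NoRec G)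
    {D S : Subgroup G} {y₀ : X} (hP : Periph D y₀) (hS : FinNormal S D) (δ' : ℕ) :
    ∃ F₁ : Finset G, ∀ F₂ : Finset G, ∃ ρ₀ : ℕ, ∀ ρ, ρ₀ ≤ ρ → ∀ (M N : Subgroup G) [N.Normal],
      QD p D M N y₀ ρ δ' → HT D S M F₁ F₂ → PTors p (G ⧸ N) → NoRec (G ⧸ N) := by
  obtain ⟨C', hgrow⟩ := aif_grow δ'
  obtain ⟨K, L₀, h7⟩ := d7_main δ' C' 5
  obtain ⟨ρ₈, L₁, h8⟩ := d10_inf hp hG hT hN D y₀ δ'
  obtain ⟨F₁, R₁, hflip⟩ := d10_flip hp hp2 hX hG hT hP hS δ' K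
  obtain ⟨ρ₅, h5⟩ := short_case hp hG hN D y₀ δ' (L₀ + L₁ + R₁ + 1 + C')
  refine ⟨F₁, fun F₂ => ?_⟩
  obtain ⟨ρ₆, hflip⟩ := hflip F₂
  refine ⟨ρ₈ + ρ₅ + ρ₆, ?_⟩
  intro ρ hρ M N _ hqd hHT hT' g b m k hk hmg hrec
  let _ : GeoMet (Quo N (Dot (perFam D y₀) ρ)) := quoGeo (dot_iso hG.iso) N
  have hgeom : Geom (G ⧸ N) (Quo N (Dot (perFam D y₀) ρ)) := d2_geom hp hG hqd
  have hhyp : Hyp δ' (Quo N (Dot (perFam D y₀) ρ)) := lf0 hG.iso hqd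
  -- the minimal displacement
  obtain ⟨l, hl1, hl2⟩ : ∃ l : ℕ, (∃ v : Quo N (Dot (perFam D y₀) ρ), d v (g • v) = l) ∧
      ∀ v : Quo N (Dot (perFam D y₀) ρ), l ≤ d v (g • v) := by
    classical
    have hex : ∃ l : ℕ, ∃ v : Quo N (Dot (perFam D y₀) ρ), d v (g • v) = l := by
      obtain ⟨v⟩ := hgeom.ne
      exact ⟨_, v, rfl⟩
    exact ⟨Nat.find hex, Nat.find_spec hex, fun v => Nat.find_min' hex ⟨v, rfl⟩⟩
  have hg := hgrow (G ⧸ N) (Quo N (Dot (perFam D y₀) ρ)) hhyp hgeom.iso hgeom.ne g b m k hk hmg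
    hrec l (by obtain ⟨v, hv⟩ := hl1; exact ⟨v, hv.le⟩)
  by_cases hshort : l ≤ L₀ + L₁ + R₁ + 1
  · refine h5 ρ (by omega) M N hqd g b m k hk hmg hrec ?_
    intro j
    obtain ⟨v, hv1, hv2⟩ := hg j
    exact ⟨v, le_trans (b := l + C') hv1 (by omega), le_trans (b := l + C') hv2 (by omega)⟩
  · obtain ⟨hNI, hsix⟩ := hflip ρ (by omega) M N hqd hHT g l (by omega) (by omega) hl2
    rcases h7 (G ⧸ N) (Quo N (Dot (perFam D y₀) ρ)) hhyp hgeom.iso hgeom.ball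
      (fun v r => hgeom.finite_move v v r) g b l (by omega) hl1 hl2 hg
      (by
        rintro ⟨h, v, hv1, hv2, hv3⟩
        exact hNI ⟨h, v, hv1, hv2, hv3⟩) with ⟨j, s, hs, hcomm⟩ | ⟨v, h, hv1, hv2, hv3⟩
    · obtain ⟨i, hi⟩ := h8 ρ (by omega) M N hqd hT' g b l (by omega) hl2 j s hs hcomm
      exact rec_eq_of_reach hmg hk hrec hi
    · exact (hsix v h hv1 hv2 hv3).elim

end Pool.Agent.Lib.H14E
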