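import Pool.Agent.Lib.H14E.QC2

/-!
# H14E, module D2: the quotient graph is geometric

See PROOF_D.md, D2.
-/

set_option autoImplicit false

namespace Pool.Agent.Lib.H14E

open Pool.Agent.Lib.H76.Morse GeoMet

theorem d2_geom {p : ℕ} (hp : p.Prime) {G X : Type} [Group G] [GeoMet X] [MulAction G X]
    (hG : Geom G X) {D M N : Subgroup G} [N.Normal] {y₀ : X} {ρ δ' : ℕ}
    (h : QD p D M N y₀ ρ δ') :
    @Geom (G ⧸ N) (Quo N (Dot (perFam D y₀) ρ)) _ (quoGeo (dot_iso hG.iso) N) (quoAct N) := by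
  refine qc_geom hG h.MN ?_ h.Mnrm
  obtain ⟨k, hk⟩ := h.pidx
  rw [hk]
  exact pow_ne_zero _ hp.ne_zero

end Pool.Agent.Lib.H14E
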