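import Pool.Agent.Lib.H14E.D6e
import Pool.Agent.Lib.H14E.Tool9

/-!
# H14E, D6, part f: the near-inversion theorem
-/

set_option autoImplicit false
set_option linter.unusedSectionVars false

namespace Pool.Agent.Lib.H14E

open Pool.Agent.Lib.H76.Morse GeoMet

/-- the centralizer of an element of infinite order maps to `ℤ` with finite kernel -/
theorem d6_tau {G X : Type} [Group G] [GeoMet X] [MulAction G X] {δ : ℕ} (hX : Hyp δ X)
    (hG : Geom G X) (k : G) (hk : ¬ IsOfFinOrder k) :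
    ∃ τ : Subgroup.centralizer {k} →* Multiplicative ℤ,
      (τ.ker : Set (Subgroup.centralizer {k})).Finite := by
  obtain ⟨τ, n, m, hn, hm, hτ⟩ := ec_tau hX hG hk
  obtain ⟨S, hS, -, hS2, -⟩ := ec_tor hX hG hk
  have hle : Subgroup.centralizer ({k} : Set G) ≤ EC k := by
    intro x hx
    rw [Subgroup.mem_centralizer_iff] at hx
    exact ⟨1, le_rfl, by rw [pow_one]; exact (hx k rfl).symm⟩
  refine ⟨τ.comp (Subgroup.inclusion hle), ?_⟩
  refine Set.Finite.of_finite_image (f := fun x : Subgroup.centralizer ({k} : Set G) => (x : G))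
    (hS.subset ?_) (Set.injOn_of_injective Subtype.coe_injective)
  rintro _ ⟨x, hx, rfl⟩
  have hx' : τ (Subgroup.inclusion hle x) = 1 := hx
  have h1 := hτ (Subgroup.inclusion hle x)
  rw [hx'] at h1
  refine (hS2 (x : G) (hle x.2)).2 (isOfFinOrder_iff_pow_eq_one.2 ⟨n, by omega, ?_⟩)
  simpa using h1

section

variable {p : ℕ} {G X : Type} [Group G] [GeoMet X] [MulAction G X]
  {D M N : Subgroup G} [N.Normal] {y₀ : X} {ρ δ' : ℕ}

theorem d6_qd_comm (hiso : IsoAct G X) (a b : Quo N (Dot (perFam D y₀) ρ)) :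
    qd hiso N a b = qd hiso N b a := by
  let I := quoGeo (dot_iso (D := D) (y₀ := y₀) (ρ := ρ) hiso) N
  exact I.d_comm a b

/-- **Step 5**, case (i) is impossible in the presence of `h`. -/
theorem inv_case_i (hG : Geom G X)
    {u : ℕ → Dot (perFam D y₀) ρ} {l : ℕ}
    (hu : LG N u l) {e : G ⧸ N} {K C C₂' : ℕ} {c : G ⧸ D} {g : G} (hge : (g : G ⧸ N) = e)
    (hgc : g • c = c) (hgl : ∀ i ≤ l, d (u (l - i)) (g • u i) ≤ K)
    (ho : (u 0).own = some c)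
    {h' : G ⧸ N} (hh : qd hG.iso N (qmk N (u 0)) (h' • qmk N (u 0)) ≤ C)
    (hne : ∀ c, e * h'⁻¹ ∉ PC D N c)
    (hC₂ : ∀ (x : X) (g : G), d x ((g * g) • x) ≤
      (2 * K + 2 * C) * 2 ^ (2 * K + 2 * C) → d x (g • x) ≤ C₂')
    (hρ : 2 * K + 2 * C < ρ) (hl : 2 * C + C₂' + K < l) : False := by
  have hiso := hG.iso
  have hlev : (u 0).lev ≤ C := by
    by_contra hcon
    obtain ⟨c', hc', hpc, -⟩ := lf4 hiso h' (u 0) C (by omega) hh
    rw [ho] at hc'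
    obtain rfl : c = c' := by simpa using hc'
    have he : e ∈ PC D N c := ⟨g, hgc, hge⟩
    exact hne c ((PC D N c).mul_mem he ((PC D N c).inv_mem hpc))
  -- the base point below
  obtain ⟨y, hy⟩ : ∃ y : X, d (u 0) (Dot.base y) ≤ C := by
    refine ⟨(u 0).qb, ?_⟩
    have h2 : d (u 0) (Dot.base (u 0).qb) ≤ (u 0).lev := by
      cases hu0 : u 0 with
      | base x => simp [Dot.qb, d_self]
      | hor c' y k hy hk1 hk2 =>
        have h3 := Dot.col_le (P := perFam D y₀) (ρ := ρ) hy 0 k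
        rw [Nat.zero_add, Dot.col_zero, Dot.col_hor c' y hy hk1 hk2] at h3
        rw [d_comm]
        exact h3
      | apex c' =>
        have h3 := Dot.base_apex_le (P := perFam D y₀) (ρ := ρ) ((perFam D y₀).ne c').some_mem
        rw [d_comm]
        exact h3
    omega
  have h3 := inv_lift_sq hiso (hgl 0 (Nat.zero_le _)) (hgl (l - 0) (by omega)) (Nat.zero_le _)
  have h4 : d (Dot.base y : Dot (perFam D y₀) ρ) (Dot.base ((g * g) • y)) ≤ 2 * K + 2 * C := by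
    have t1 := d_tri (Dot.base y : Dot (perFam D y₀) ρ) (u 0) ((g * g) • Dot.base y)
    have t2 := d_tri (u 0) ((g * g) • u 0) ((g * g) • (Dot.base y : Dot (perFam D y₀) ρ))
    rw [dot_iso hiso] at t2
    rw [d_comm (Dot.base y) (u 0)] at t1
    rw [Dot.smul_base] at t1 t2
    omega
  have h5 := hC₂ y g (d6_base h4 (by omega))
  have h6 : d (u 0) (g • u 0) ≤ 2 * C + C₂' := by
    have t1 := d_tri (u 0) (Dot.base y) (g • u 0)
    have t2 := d_tri (Dot.base y) (g • (Dot.base y : Dot (perFam D y₀) ρ)) (g • u 0)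
    rw [dot_iso hiso, d_comm (Dot.base y) (u 0), Dot.smul_base] at t2
    have t3 := d6_base_le (P := perFam D y₀) (ρ := ρ) y (g • y)
    omega
  have h7 := hgl 0 (Nat.zero_le _)
  rw [Nat.sub_zero] at h7
  have h8 := d_tri (u 0) (g • u 0) (u l)
  rw [d_comm (g • u 0)] at h8
  have h9 := hu.du 0 l (Nat.zero_le _) le_rfl
  omega

end

/-- **The near-inversion theorem** (D6). -/
theorem d6_near_inv {p : ℕ} (hp : p.Prime) (hp2 : p ≠ 2) {G X : Type} [Group G] [GeoMet X]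
    [MulAction G X] {δ : ℕ} (hX : Hyp δ X) (hG : Geom G X) (hT : PTors p G) {D : Subgroup G}
    {y₀ : X} (hP : Periph D y₀) (δ' C' : ℕ) :
    ∃ R₁ C₄ ρ₀ : ℕ, ∀ ρ, ρ₀ ≤ ρ → ∀ (M N : Subgroup G) [N.Normal], QD p D M N y₀ ρ δ' →
      ∀ (e : G ⧸ N) (u : ℕ → Dot (perFam D y₀) ρ) (n : ℕ), R₁ ≤ n →
        (∀ i j, i ≤ j → j ≤ n → d (u i) (u j) = j - i ∧
          qd hG.iso N (qmk N (u i)) (qmk N (u j)) = j - i) →
        qd hG.iso N (e • qmk N (u 0)) (qmk N (u n)) ≤ C' →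
        qd hG.iso N (e • qmk N (u n)) (qmk N (u 0)) ≤ C' →
        n ≤ 2 * ρ + C₄ ∧ (∃ c, e ∈ PC D N c) ∧
        ∀ h : G ⧸ N, qd hG.iso N (qmk N (u 0)) (h • qmk N (u 0)) ≤ C' →
          (∀ c, e * h⁻¹ ∉ PC D N c) →
          2 * ρ ≤ n + C₄ ∧ ∃ c : G ⧸ D, e ∈ PC D N c ∧ d (u (n / 2)) (Dot.apex c) ≤ C₄ ∧
            (∃ y ∈ (perFam D y₀).Y c, d (u 0) (Dot.base y) ≤ C₄) ∧
            (∃ k : G, k • c = c ∧ (k : G ⧸ N) = e * e ∧ d (u 0) (k • u 0) ≤ C₄) ∧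
            ∃ h' : G, (h' : G ⧸ N) = h ∧ d (u 0) (h' • u 0) ≤ C' ∧ h' • c ≠ c := by
  have hiso := hG.iso
  -- constants
  obtain ⟨n₀, hn₀⟩ := ord_bound hX hG
  obtain ⟨C₂, hC₂⟩ := sq_bound hp hp2 hG hT (d6_tau hX hG)
    (2 * (C' + δ') * 2 ^ (2 * (C' + δ')))
  obtain ⟨C₂', hC₂'⟩ := sq_bound hp hp2 hG hT (d6_tau hX hG)
    ((2 * (C' + δ') + 2 * C') * 2 ^ (2 * (C' + δ') + 2 * C'))
  obtain ⟨C₃, hC₃⟩ := ny_bound hG hP (2 * (C' + δ') * 2 ^ (2 * (C' + δ')))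
  obtain ⟨N₀, hN₀⟩ := d6_long (2 * (C' + δ'))
  obtain ⟨K, hK⟩ : ∃ K, K = C' + δ' := ⟨_, rfl⟩
  rw [← hK] at hC₂ hC₂' hC₃ hN₀
  obtain ⟨K₁, hK₁⟩ : ∃ K₁, K₁ = C₂ + N₀ + 4 * K + 10 := ⟨_, rfl⟩
  obtain ⟨C₈, hC₈⟩ : ∃ C₈, C₈ = 2 * K₁ := ⟨_, rfl⟩
  obtain ⟨t₃, ht₃⟩ : ∃ t₃, t₃ = C₈ + 2 * K + 4 := ⟨_, rfl⟩
  obtain ⟨E, hE⟩ : ∃ E, E = (n₀ + 1) * (C' + δ') := ⟨_, rfl⟩
  refine ⟨2 * K₁ + 2 * t₃ + 2 * N₀ + 2 * C' + C₂' + K + E + 10,
    4 * (C₃ + C₈ + N₀ + C' + K + 4), C₈ + t₃ + 4 * K + 2 * C' + 5, ?_⟩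
  intro ρ hρ M N hNn h e u l hl hgeo he1 he2
  have hu : LG N u l := ⟨fun i j hij hj => (hgeo i j hij hj).1,
    fun i j hij hj => (hgeo i j hij hj).2⟩
  rw [d6_qd_comm] at he1 he2
  obtain ⟨a, ha⟩ : ∃ a, a = l / 2 := ⟨_, rfl⟩
  have hl' : C' + (n₀ + 1) * (C' + δ') < l := by omega
  have hNu : ∀ s : ℕ, (∀ i j, s ≤ i → i ≤ j → j ≤ s + N₀ → d (u i) (u j) = j - i) →
      (∀ i, s ≤ i → i ≤ s + N₀ → 1 ≤ (u i).lev) →
      ∃ i, s ≤ i ∧ i ≤ s + N₀ ∧ 2 * K < (u i).lev := fun s => hN₀ X _ (perFam D y₀) ρ u s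
  -- facts in case (ii)
  have hii : ∀ c : G ⧸ D, e ∈ PC D N c → d (u a) (Dot.apex c) ≤ C₈ →
      a ≤ ρ + 1 + C₃ + C₈ + N₀ ∧ ∃ k : G, (k : G ⧸ N) = e * e ∧ k • c = c ∧
        d (u 0) (k • u 0) ≤ 2 * K := by
    intro c hec hc
    obtain ⟨k, hk, hkc, hkf, hkk⟩ := inv_sq_lift hp hp2 hG hT hP h hu he1 he2 ha hK hn₀ hl'
      hec hc ht₃ (by omega) (by omega)
    refine ⟨inv_upper hG hu (by omega) hc hkc hkf hkk hNu hC₃ (by omega) (by omega),
      k, hk, hkc, (hkk 0 (by omega)).2.1⟩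
  rcases inv_dich hp hp2 hG hT hP h hu he1 he2 ha hK hn₀ hl' hC₂ hNu hK₁.ge (by omega)
    (by omega) with ⟨c, g, hge, hgc, -, hgl, ho0, hol⟩ | ⟨c, hec, hc⟩
  · -- case (i)
    refine ⟨?_, ⟨c, g, hgc, hge⟩, ?_⟩
    · have h3 := d6_apex ho0
      have h4 := d6_apex hol
      have h5 := d_tri (u 0) (Dot.apex c) (u l)
      rw [d_comm (Dot.apex c)] at h5
      have h6 := hu.du 0 l (Nat.zero_le _) le_rfl
      omega
    · intro h' hh hne
      exact (inv_case_i hG hu hge hgc hgl ho0 hh hne hC₂' (by omega) (by omega)).elim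
  · -- case (ii)
    rw [← hC₈] at hc
    obtain ⟨hup, k, hk, hkc, hk0⟩ := hii c hec hc
    refine ⟨by omega, ⟨c, hec⟩, ?_⟩
    intro h' hh hne
    have hlev : (u 0).own = some c → (u 0).lev ≤ C' := by
      intro ho
      by_contra hcon
      obtain ⟨c', hc', hpc, -⟩ := lf4 hiso h' (u 0) C' (by omega) hh
      rw [ho] at hc'
      obtain rfl : c = c' := by simpa using hc'
      exact hne c ((PC D N c).mul_mem hec ((PC D N c).inv_mem hpc))
    have hlow : ρ + 1 ≤ a + C₈ + C' := by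
      have h3 : ρ + 1 ≤ d (u 0) (Dot.apex c) + C' := by
        by_cases ho : (u 0).own = some c
        · have := d6_apex ho
          have := hlev ho
          omega
        · have := d6_apex_far ho
          omega
      have h4 := d_tri (u 0) (u a) (Dot.apex c)
      have h5 := hu.du 0 a (Nat.zero_le _) (by omega)
      omega
    refine ⟨by omega, c, hec, ?_, ?_, ?_, ?_⟩
    · rw [← ha]
      omega
    · obtain ⟨y, hy, hyd⟩ := inv_base hu (by omega) hc (by omega) hlev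
      exact ⟨y, hy, by omega⟩
    · exact ⟨k, hkc, hk, by omega⟩
    · obtain ⟨h'', hh'', hd⟩ := lf1 (N := N) hiso h' (u 0) (u 0)
      refine ⟨h'', hh'', by rw [hd]; exact hh, ?_⟩
      intro hfix
      have hpc : h' ∈ PC D N c := ⟨h'', hfix, hh''⟩
      exact hne c ((PC D N c).mul_mem hec ((PC D N c).inv_mem hpc))

end Pool.Agent.Lib.H14E
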