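import Pool.Agent.Lib.H14E.QD
import Pool.Agent.Lib.H14E.AMalPf
import Pool.Agent.Lib.H14E.D6f

/-!
# H14E, module D6: near-inversions

See PROOF_D.md, D6.  `u 0, ..., u n` is a lift of a geodesic of the quotient graph; `e` almost
exchanges its end points.
-/

set_option autoImplicit false

namespace Pool.Agent.Lib.H14E

open Pool.Agent.Lib.H76.Morse GeoMet

theorem near_inv {p : ℕ} (hp : p.Prime) (hp2 : p ≠ 2) {G X : Type} [Group G] [GeoMet X]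
    [MulAction G X] {δ : ℕ} (hX : Hyp δ X) (hG : Geom G X) (hT : PTors p G) {D : Subgroup G}
    {y₀ : X} (hP : Periph D y₀) (δ' C' : ℕ) :
    ∃ R₁ C₄ ρ₀ : ℕ, ∀ ρ, ρ₀ ≤ ρ → ∀ (M N : Subgroup G) [N.Normal], QD p D M N y₀ ρ δ' →
      ∀ (e : G ⧸ N) (u : ℕ → Dot (perFam D y₀) ρ) (n : ℕ), R₁ ≤ n →
        (∀ i j, i ≤ j → j ≤ n → d (u i) (u j) = j - i ∧
          qd hG.iso N (qmk N (u i)) (qmk N (u j)) = j - i) →
        qd hG.iso N (e • qmk N (u 0)) (qmk N (u n)) ≤ C' →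
        qd hG.iso N (e • qmk N (u n)) (qmk N (u 0)) ≤ C' →
        n ≤ 2 * ρ + C₄ ∧ (∃ c, e ∈ PC D N c) ∧
        ∀ h : G ⧸ N, qd hG.iso N (qmk N (u 0)) (h • qmk N (u 0)) ≤ C' →
          (∀ c, e * h⁻¹ ∉ PC D N c) →
          2 * ρ ≤ n + C₄ ∧ ∃ c : G ⧸ D, e ∈ PC D N c ∧ d (u (n / 2)) (Dot.apex c) ≤ C₄ ∧
            (∃ y ∈ (perFam D y₀).Y c, d (u 0) (Dot.base y) ≤ C₄) ∧
            (∃ k : G, k • c = c ∧ (k : G ⧸ N) = e * e ∧ d (u 0) (k • u 0) ≤ C₄) ∧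
            ∃ h' : G, (h' : G ⧸ N) = h ∧ d (u 0) (h' • u 0) ≤ C' ∧ h' • c ≠ c :=
  d6_near_inv hp hp2 hX hG hT hP δ' C'

end Pool.Agent.Lib.H14E
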