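import Pool.Agent.Lib.H14E.Quo
import Pool.Agent.Lib.H14E.AxG

/-!
# H14E, module D7: long elements, geometry

See PROOF_D.md, D7 and the files Ax*.lean (helper68).
-/

set_option autoImplicit false

namespace Pool.Agent.Lib.H14E

open Pool.Agent.Lib.H76.Morse GeoMet

/-- `h` moves `v` by at most `K` and `g h` almost exchanges `v` and `g v`. -/
def Flip {H Q : Type} [Group H] [GeoMet Q] [MulAction H Q] (K : ℕ) (g h : H) (v : Q) : Prop :=
  d v (h • v) ≤ K ∧ d v ((g * h * g) • v) ≤ K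

theorem d7_main (δ C' n : ℕ) : ∃ K L₀ : ℕ, ∀ (H Q : Type) [Group H] [GeoMet Q]
    [MulAction H Q], Hyp δ Q → IsoAct H Q → (∀ (v : Q) (r : ℕ), {w : Q | d v w ≤ r}.Finite) →
    (∀ (v : Q) (r : ℕ), {x : H | d v (x • v) ≤ r}.Finite) →
    ∀ (g b : H) (l : ℕ), L₀ ≤ l → (∃ v : Q, d v (g • v) = l) → (∀ v : Q, l ≤ d v (g • v)) →
      (∀ j : ℕ, ∃ v : Q, d v (g • v) ≤ l + C' ∧ d v ((Tg g)^[j] b • v) ≤ l + C') →
      ((∃ (h : H) (v : Q), d v (g • v) ≤ l + K ∧ Flip K g h v) →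
        ∀ (e : H) (x y : Q), 3 * l ≤ 2 * d x y → d (e • x) y ≤ K → d (e • y) x ≤ K → False) →
      (∃ j s : ℕ, 1 ≤ s ∧ (Tg g)^[j] b * g ^ s = g ^ s * (Tg g)^[j] b) ∨
      ∃ (v : Q) (h : ℕ → H), d v (g • v) ≤ l + K ∧
        (∀ i, h (i + 1) = g * h i * g * (h i)⁻¹) ∧ ∀ i ≤ n, Flip K g (h i) v := by
  obtain ⟨K, R, h⟩ := Ax.d7_main δ C' n
  refine ⟨3 * K, R + 10 * (δ + K + 1), ?_⟩
  intro H Q _ _ _ hZ hI hball hfin g b l hl ⟨x₀, h0⟩ hmin hgb hN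
  have hI' : Ax.Iso H Q := hI
  obtain ⟨γ, hγ, _, hγ2⟩ := h Q H hZ hI hball g l x₀ (by omega) hmin h0
  -- conversion of flips
  have conv : ∀ (p : ℤ) (f : H), Ax.Flip γ l K p f →
      d (γ p) (g • γ p) ≤ l + 3 * K ∧ Flip (3 * K) g f (γ p) := by
    intro p f hf
    obtain ⟨f1, f2⟩ := hf
    have g1 := hγ.rel p
    have g2 := hγ.rel (p - l)
    have e : p - (l : ℤ) + l = p := by ring
    rw [e] at g2
    have a := (g1.comp hI' f2).comp hI' g2
    refine ⟨?_, ?_, ?_⟩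
    · have t1 := d_tri (γ p) (γ (p + l)) (g • γ p)
      have c1 := d_comm (γ (p + l)) (g • γ p)
      have e1 := hγ.line p (p + l)
      have g3 := hγ.tr p
      omega
    · rw [d_comm]
      exact f1.trans (by omega)
    · rw [d_comm]
      have e2 : g * (f * g) = g * f * g := by group
      rw [e2] at a
      exact a.trans (by omega)
  have hgood : Ax.Good Q g (Tg g b) l C' := by
    refine ⟨⟨b, rfl⟩, fun k => ?_⟩
    have := hgb (k + 1)
    rwa [Function.iterate_succ_apply] at this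
  have hNN : (∃ (p : ℤ) (f : H), Ax.Flip γ l K p f) → Ax.NNI Q H l K := by
    rintro ⟨p, f, hf⟩ e x y h1 h2 h3
    obtain ⟨c1, c2⟩ := conv p f hf
    exact hN ⟨f, γ p, c1, c2⟩ e x y h1 (h2.trans (by omega)) (h3.trans (by omega))
  rcases hγ2 (Tg g b) hgood hNN with h1 | ⟨p, f, h1, h2⟩
  · left
    obtain ⟨s, s1, hs⟩ := Ax.comm_of_ray hZ hI' hfin hγ (by omega) (h1 0)
    exact ⟨1, s, s1, hs⟩
  · right
    exact ⟨γ p, f, (conv p (f 0) (h1 0 (by omega))).1, h2, fun i hi => (conv p (f i) (h1 i hi)).2⟩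

end Pool.Agent.Lib.H14E
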