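import Pool.Agent.Lib.H14E.EFc

/-!
# H14E, module D8: a long element normalising a finite subgroup

See PROOF_D.md, D8.  The proof is in the files EFa, EFb, EFc (helper88).
-/

set_option autoImplicit false

namespace Pool.Agent.Lib.H14E

open Pool.Agent.Lib.H76.Morse GeoMet

theorem ef_long {p : ℕ} (hp : p.Prime) {G X : Type} [Group G] [GeoMet X] [MulAction G X]
    (hG : Geom G X) (hT : PTors p G) (hN : NoRec G) (D : Subgroup G) (y₀ : X) (δ' : ℕ) :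
    ∃ ρ₀ : ℕ, ∀ ρ, ρ₀ ≤ ρ → ∀ (M N : Subgroup G) [N.Normal], QD p D M N y₀ ρ δ' →
      PTors p (G ⧸ N) → ∀ (g : G ⧸ N) (Kf : Subgroup (G ⧸ N)), (Kf : Set (G ⧸ N)).Finite →
        (∀ s ∈ Kf, g * s * g⁻¹ ∈ Kf) → (∀ c, g ∉ PC D N c) →
        ∀ s ∈ Kf, ∃ i : ℕ, (Ph g)^[i] s = 1 := by
  refine ⟨9 * δ' + 7, fun ρ hρ M N _ hQ hT' g Kf hKf hK hg => ?_⟩
  exact ef_long_aux hG.iso hQ hρ hT' hN hg hKf hK

end Pool.Agent.Lib.H14E
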