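import Pool.Agent.Lib.H14E.D5
import Pool.Agent.Lib.H14E.D6
import Pool.Agent.Lib.H14E.D7
import Pool.Agent.Lib.H14E.D8
import Pool.Agent.Lib.H14E.D2
import Pool.Agent.Lib.H14E.DotB
import Pool.Agent.Lib.H14E.Aif

/-!
# H14E, module D10: cases of NoRec for the quotient
-/

set_option autoImplicit false
set_option linter.unusedSectionVars false

namespace Pool.Agent.Lib.H14E

open Pool.Agent.Lib.H76.Morse GeoMet

section

variable {p : ℕ} {G X : Type} [Group G] [GeoMet X] [MulAction G X]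
  {D M N : Subgroup G} [N.Normal] {y₀ : X} {ρ δ' : ℕ}

/-- Elements of `P_c` fix the image of the apex. -/
theorem d10_fix {c : G ⧸ D} {x : G ⧸ N} (hx : x ∈ PC D N c) :
    x • qmk N (Dot.apex c : Dot (perFam D y₀) ρ) = qmk N (Dot.apex c) := by
  obtain ⟨g, hg, rfl⟩ := hx
  have hg' : g • c = c := hg
  show qmk N (g • (Dot.apex c : Dot (perFam D y₀) ρ)) = _
  rw [Dot.smul_apex, hg']

/-- A long element is in no `P_c`. -/
theorem d10_notin (hG : Geom G X) {g : G ⧸ N} {l : ℕ} (hl : 1 ≤ l)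
    (hmin : ∀ v : Quo N (Dot (perFam D y₀) ρ), l ≤ qd hG.iso N v (g • v)) (c : G ⧸ D) :
    g ∉ PC D N c := by
  intro hg
  have h1 := hmin (qmk N (Dot.apex c))
  rw [d10_fix hg] at h1
  have h2 : qd hG.iso N (qmk N (Dot.apex c : Dot (perFam D y₀) ρ)) (qmk N (Dot.apex c)) = 0 :=
    (quoGeo (dot_iso hG.iso) N).d_self _
  omega

/-- The case of infinite overlap. -/
theorem d10_inf (hp : p.Prime) (hG : Geom G X) (hT : PTors p G) (hN : NoRec G) (D : Subgroup G)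
    (y₀ : X) (δ' : ℕ) :
    ∃ ρ₀ L₁ : ℕ, ∀ ρ, ρ₀ ≤ ρ → ∀ (M N : Subgroup G) [N.Normal], QD p D M N y₀ ρ δ' →
      PTors p (G ⧸ N) → ∀ (g b : G ⧸ N) (l : ℕ), L₁ ≤ l →
        (∀ v : Quo N (Dot (perFam D y₀) ρ), l ≤ qd hG.iso N v (g • v)) →
        ∀ j s : ℕ, 1 ≤ s → (Tg g)^[j] b * g ^ s = g ^ s * (Tg g)^[j] b →
          ∃ i : ℕ, (Tg g)^[i] b = g := by
  obtain ⟨ρ₀, h8⟩ := ef_long hp hG hT hN D y₀ δ'
  obtain ⟨C, hC⟩ := aif_centre δ'
  refine ⟨ρ₀, C + 1, ?_⟩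
  intro ρ hρ M N _ hqd hT' g b l hl hmin j s hs hcomm
  letI : GeoMet (Quo N (Dot (perFam D y₀) ρ)) := quoGeo (dot_iso hG.iso) N
  have hgeom : Geom (G ⧸ N) (Quo N (Dot (perFam D y₀) ρ)) := d2_geom hp hG hqd
  have hhyp : Hyp δ' (Quo N (Dot (perFam D y₀) ρ)) := lf0 hG.iso hqd
  -- `g` has infinite order
  have hinf : ¬ IsOfFinOrder g := by
    intro hfin
    have hF : ((Subgroup.zpowers g : Subgroup (G ⧸ N)) : Set (G ⧸ N)).Finite :=
      finite_zpowers.2 hfin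
    obtain ⟨v, hv⟩ := hC (G ⧸ N) (Quo N (Dot (perFam D y₀) ρ)) hhyp hgeom.iso hgeom.ne _ hF
    have h1 := hv g (Subgroup.mem_zpowers g)
    have h2 := hmin v
    have h3 : qd hG.iso N v (g • v) = d v (g • v) := rfl
    omega
  obtain ⟨Kf, hK1, hK2, hK3⟩ := aif_cent hhyp hgeom g hinf
  have hgK : ∀ s ∈ Kf, g * s * g⁻¹ ∈ Kf := hK2 1 g le_rfl (by rw [pow_one])
  have hs0 : (Tg g)^[j] b * g * ((Tg g)^[j] b)⁻¹ * g⁻¹ ∈ Kf :=
    hK3 s _ _ hs hcomm (by rw [← pow_succ, ← pow_succ'])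
  obtain ⟨i, hi⟩ := h8 ρ hρ M N hqd hT' g Kf hK1 hgK
    (d10_notin hG (by omega : 1 ≤ l) hmin) _ hs0
  refine ⟨i + (j + 1), ?_⟩
  rw [Function.iterate_add_apply, Function.iterate_succ_apply']
  have e : Tg g ((Tg g)^[j] b) = ((Tg g)^[j] b * g * ((Tg g)^[j] b)⁻¹ * g⁻¹) * g := by
    simp only [Tg]
    group
  rw [e, tg_iter_mul_self, hi, one_mul]

end

end Pool.Agent.Lib.H14E
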