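import Pool.Agent.Lib.H14E.N0

/-!
# H14E, module N, part 2: `Tg` in nilpotent groups, residually nilpotent groups have `NoRec`
-/

set_option autoImplicit false

namespace Pool.Agent.Lib.H14E

variable {G : Type} [Group G]

/-- `Tg g` moves every element closer to `g` with respect to the lower central series -/
theorem tg_iter_lcs (g b : G) (j : ℕ) :
    (Tg g)^[j + 1] b * g⁻¹ ∈ (⊤ : Subgroup G).lowerCentralSeries (j + 1) := by
  induction j with
  | zero =>
    have e : (Tg g)^[0 + 1] b * g⁻¹ = b * g * b⁻¹ * g⁻¹ := by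
      simp [Tg]
    rw [e, (⊤ : Subgroup G).mem_lowerCentralSeries_succ_iff]
    exact Subgroup.subset_closure ⟨b, by simp, g, Subgroup.mem_top _, rfl⟩
  | succ j ih =>
    set x := (Tg g)^[j + 1] b * g⁻¹ with hx
    have hb : (Tg g)^[j + 1] b = x * g := by rw [hx, inv_mul_cancel_right]
    have e : (Tg g)^[j + 1 + 1] b * g⁻¹ = x * g * x⁻¹ * g⁻¹ := by
      rw [Function.iterate_succ_apply', hb]
      simp only [Tg]
      group
    rw [e, (⊤ : Subgroup G).mem_lowerCentralSeries_succ_iff]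
    exact Subgroup.subset_closure ⟨x, ih, g, Subgroup.mem_top _, rfl⟩

/-- in a nilpotent group every orbit of `Tg g` reaches `g` -/
theorem tg_reach_of_nilpotent [hG : Group.IsNilpotent G] (g b : G) :
    ∃ i₀ : ℕ, ∀ i, i₀ ≤ i → (Tg g)^[i] b = g := by
  obtain ⟨n, hn⟩ := Subgroup.nilpotent_iff_lowerCentralSeries.1 hG
  refine ⟨n + 1, fun i hi => ?_⟩
  obtain ⟨r, rfl⟩ := Nat.exists_eq_add_of_le' hi
  have h1 : (Tg g)^[n + 1] b * g⁻¹ ∈ (⊤ : Subgroup G).lowerCentralSeries (n + 1) :=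
    tg_iter_lcs g b n
  have h2 : (⊤ : Subgroup G).lowerCentralSeries (n + 1) ≤ (⊤ : Subgroup G).lowerCentralSeries n :=
    (⊤ : Subgroup G).lowerCentralSeries_antitone (Nat.le_succ n)
  have h3 := h2 h1
  rw [hn, Subgroup.mem_bot, mul_inv_eq_one] at h3
  rw [Function.iterate_add_apply, h3, tg_iter_self]

/-- the same for elements of a nilpotent subgroup -/
theorem tg_reach_of_mem (P : Subgroup G) [hP : Group.IsNilpotent P] {g b : G} (hg : g ∈ P)
    (hb : b ∈ P) : ∃ i₀ : ℕ, ∀ i, i₀ ≤ i → (Tg g)^[i] b = g := by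
  obtain ⟨i₀, h⟩ := tg_reach_of_nilpotent (⟨g, hg⟩ : P) ⟨b, hb⟩
  refine ⟨i₀, fun i hi => ?_⟩
  have h1 := congrArg P.subtype (h i hi)
  rw [map_tg_iter] at h1
  exact h1

/-- finite `p`-subgroups -/
theorem tg_reach_of_pGroup {p : ℕ} [Fact p.Prime] (P : Subgroup G) [Finite P] (hP : IsPGroup p P)
    {g b : G} (hg : g ∈ P) (hb : b ∈ P) : ∃ i₀ : ℕ, ∀ i, i₀ ≤ i → (Tg g)^[i] b = g := by
  have : Group.IsNilpotent P := hP.isNilpotent
  exact tg_reach_of_mem P hg hb

/-- images in nilpotent groups -/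
theorem tg_reach_map {P : Type} [Group P] [Group.IsNilpotent P] (φ : G →* P) (g b : G) :
    ∃ i₀ : ℕ, ∀ i, i₀ ≤ i → φ ((Tg g)^[i] b) = φ g := by
  obtain ⟨i₀, h⟩ := tg_reach_of_nilpotent (φ g) (φ b)
  exact ⟨i₀, fun i hi => by rw [map_tg_iter, h i hi]⟩

/-- a recurrence in a nilpotent subgroup is trivial -/
theorem rec_eq_of_mem_nilpotent (P : Subgroup G) [hP : Group.IsNilpotent P] {g b m : G}
    (hg : g ∈ P) (hb : b ∈ P) {k : ℕ} (hk : 1 ≤ k) (hm : m * g = g * m)
    (he : (Tg g)^[k] b = m * b * m⁻¹) : b = g := by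
  obtain ⟨i₀, h⟩ := tg_reach_of_mem P hg hb
  exact rec_eq_of_reach hm hk he (h i₀ le_rfl)

/-- a nilpotent group has no recurrences -/
theorem noRec_of_nilpotent [Group.IsNilpotent G] : NoRec G := by
  intro g b m k hk hm he
  obtain ⟨i₀, h⟩ := tg_reach_of_nilpotent g b
  exact rec_eq_of_reach hm hk he (h i₀ le_rfl)

/-- **A residually nilpotent group has no recurrences.** -/
theorem noRec_of_residually
    (h : ∀ x : G, x ≠ 1 → ∃ (P : Type) (_ : Group P) (_ : Group.IsNilpotent P) (φ : G →* P),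
      φ x ≠ 1) : NoRec G := by
  intro g b m k hk hm he
  by_contra hne
  obtain ⟨P, hP1, hP2, φ, hφ⟩ := h (b * g⁻¹) (fun h1 => hne (mul_inv_eq_one.1 h1))
  apply hφ
  rw [map_mul, map_inv, mul_inv_eq_one]
  refine noRec_of_nilpotent (φ g) (φ b) (φ m) k hk ?_ ?_
  · rw [← map_mul, hm, map_mul]
  · rw [← map_tg_iter, he]
    simp

/-- the form with the intersection of the lower central series -/
theorem noRec_of_iInf_lcs
    (h : ∀ x : G, (∀ n : ℕ, x ∈ (⊤ : Subgroup G).lowerCentralSeries n) → x = 1) : NoRec G := by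
  intro g b m k hk hm he
  have h0 : ∀ n : ℕ, b * g⁻¹ ∈ (⊤ : Subgroup G).lowerCentralSeries n := by
    intro n
    cases n with
    | zero => exact Subgroup.mem_top _
    | succ n =>
      have h1 := tg_iter_lcs g b n
      have h2 := tg_iter_rec hm he (n + 1)
      have h3 : n + 1 ≤ (n + 1) * k := Nat.le_mul_of_pos_right _ hk
      obtain ⟨r, hr⟩ := Nat.exists_eq_add_of_le h3
      obtain ⟨s, hs⟩ : ∃ s, (n + 1) * k = s + 1 := ⟨n + r, by omega⟩
      have h4 := tg_iter_lcs g b s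
      rw [← hs, h2] at h4
      have h5 : (⊤ : Subgroup G).lowerCentralSeries (s + 1)
          ≤ (⊤ : Subgroup G).lowerCentralSeries (n + 1) :=
        (⊤ : Subgroup G).lowerCentralSeries_antitone (by omega)
      rw [← hs] at h5
      have h6 := h5 h4
      have hmn : m ^ (n + 1) * g = g * m ^ (n + 1) := (show Commute m g from hm).pow_left _
      have e : b * g⁻¹ = (m ^ (n + 1))⁻¹ * (m ^ (n + 1) * b * (m ^ (n + 1))⁻¹ * g⁻¹)
          * ((m ^ (n + 1))⁻¹)⁻¹ := by
        have h7 : (m ^ (n + 1))⁻¹ * g⁻¹ = g⁻¹ * (m ^ (n + 1))⁻¹ := by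
          rw [← mul_inv_rev, ← mul_inv_rev, hmn]
        calc b * g⁻¹ = b * (g⁻¹ * (m ^ (n + 1))⁻¹) * m ^ (n + 1) := by group
          _ = b * ((m ^ (n + 1))⁻¹ * g⁻¹) * m ^ (n + 1) := by rw [h7]
          _ = _ := by group
      rw [e]
      exact ((inferInstance : ((⊤ : Subgroup G).lowerCentralSeries (n + 1)).Normal)).conj_mem _ h6 _
  exact mul_inv_eq_one.1 (h _ h0)

end Pool.Agent.Lib.H14E
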