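import Pool.Agent.Lib.H14E.QC2
import Pool.Agent.Lib.H14E.N2

/-!
# H14E, D3: (LF4), (LF5), (LF7)
-/

set_option autoImplicit false
set_option linter.unusedSectionVars false

namespace Pool.Agent.Lib.H14E

open Pool.Agent.Lib.H76.Morse GeoMet

namespace Dot

section

variable {X ι : Type} [GeoMet X] {P : PFam X ι} {ρ : ℕ}

/-- A relation changes the level by at most one and keeps the horoball while the levels are
positive. -/
theorem lf_rel {u v : Dot P ρ} (h : Rel u v) :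
    u.lev ≤ v.lev + 1 ∧ v.lev ≤ u.lev + 1 ∧ (1 ≤ u.lev → 1 ≤ v.lev → u.own = v.own) := by
  cases h with
  | @base x x' h =>
    refine ⟨Nat.zero_le _, Nat.zero_le _, fun _ _ => rfl⟩
  | @vert c y hy k hk =>
    rw [lev_col c y hy (by omega), lev_col c y hy (by omega)]
    refine ⟨by omega, by omega, fun h1 _ => ?_⟩
    have e : ∀ j, 1 ≤ j → (col c y hy j : Dot P ρ).own = some c := by
      intro j hj
      unfold col
      by_cases h2 : j ≤ ρ
      · simp only [hj, h2, dif_pos, own]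
      · simp only [hj, h2, dif_pos, dif_neg, not_false_iff, own]
    rw [e k h1, e (k + 1) (by omega)]
  | @hor c y y' hy hy' k h1 h2 h3 h4 =>
    exact ⟨Nat.le_succ _, Nat.le_succ _, fun _ _ => rfl⟩

theorem lf_step {u v : Dot P ρ} (h : d u v ≤ 1) :
    u.lev ≤ v.lev + 1 ∧ (1 ≤ u.lev → 1 ≤ v.lev → u.own = v.own) := by
  rcases rel_of_d h with h | h | h
  · subst h
    exact ⟨Nat.le_succ _, fun _ _ => rfl⟩
  · exact ⟨(lf_rel h).1, (lf_rel h).2.2⟩
  · exact ⟨(lf_rel h).2.1, fun h1 h2 => ((lf_rel h).2.2 h2 h1).symm⟩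

/-- (D1), (D2): levels are 1-Lipschitz and the horoball is constant on `d u v < lev u`. -/
theorem lf_lev (u v : Dot P ρ) :
    u.lev ≤ v.lev + d u v ∧ (d u v < u.lev → v.own = u.own) := by
  obtain ⟨p, h0, h1, h2⟩ := geo u v
  have key : ∀ i, i ≤ d u v → u.lev ≤ (p i).lev + i ∧ (i < u.lev → (p i).own = u.own) := by
    intro i
    induction i with
    | zero =>
      intro _
      rw [h0]
      exact ⟨le_rfl, fun _ => rfl⟩
    | succ i ih =>
      intro hi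
      obtain ⟨ih1, ih2⟩ := ih (by omega)
      have hs : d (p i) (p (i + 1)) ≤ 1 := by
        rw [h2 i (i + 1) (by omega) hi]
        omega
      obtain ⟨s1, s2⟩ := lf_step hs
      refine ⟨by omega, fun hl => ?_⟩
      rw [← s2 (by omega) (by omega)]
      exact ih2 (by omega)
  have := key (d u v) le_rfl
  rwa [h1] at this

theorem lf_own (u : Dot P ρ) (h : 1 ≤ u.lev) : ∃ c, u.own = some c := by
  cases u with
  | base x => simp [lev] at h
  | hor c y k hy h1 h2 => exact ⟨c, rfl⟩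
  | apex c => exact ⟨c, rfl⟩

end

end Dot

variable {p : ℕ} {G X : Type} [Group G] [GeoMet X] [MulAction G X]
  {D M N : Subgroup G} [N.Normal] {y₀ : X} {ρ δ' : ℕ}

/-- (LF4) Short elements at a deep point. -/
theorem lf4 (hiso : IsoAct G X) (x : G ⧸ N) (u : Dot (perFam D y₀) ρ) (r : ℕ) (hr : r < u.lev)
    (hd : qd hiso N (qmk N u) (x • qmk N u) ≤ r) :
    ∃ c : G ⧸ D, u.own = some c ∧ x ∈ PC D N c ∧
      ∀ g : G, (g : G ⧸ N) = x → d u (g • u) ≤ r → g • c = c := by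
  obtain ⟨c, hc⟩ := u.lf_own (by omega)
  have key : ∀ g : G, d u (g • u) ≤ r → g • c = c := by
    intro g hg
    have h1 := (Dot.lf_lev u (g • u)).2 (by omega)
    rw [Dot.own_smul, hc] at h1
    simpa using h1
  refine ⟨c, hc, ?_, fun g _ hg => key g hg⟩
  obtain ⟨g, hg, e⟩ := lf1 (N := N) hiso x u u
  exact ⟨g, key g (by rw [e]; exact hd), hg⟩

/-- The group `P_c` is a finite `p`-group. -/
theorem lf_PC (hp : p.Prime) (h : QD p D M N y₀ ρ δ') (c : G ⧸ D) :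
    Finite (PC D N c) ∧ IsPGroup p (PC D N c) := by
  have hidx : M.relIndex D ≠ 0 := by
    obtain ⟨k, hk⟩ := h.pidx
    rw [hk]
    exact pow_ne_zero _ hp.ne_zero
  refine ⟨(qc_PC_finite h.MN hidx h.Mnrm c).to_subtype, ?_⟩
  rintro ⟨x, hx⟩
  obtain ⟨g, hg, rfl⟩ := hx
  obtain ⟨k, hk⟩ := h.pidx
  refine ⟨k, ?_⟩
  ext
  obtain ⟨g₀, rfl⟩ := QuotientGroup.mk_surjective c
  have hg' : g • (g₀ : G ⧸ D) = (g₀ : G ⧸ D) := hg
  have h1 : g₀⁻¹ * (g * g₀) ∈ D := by
    rw [← QuotientGroup.eq]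
    exact hg'.symm
  haveI : (M.subgroupOf D).Normal := ⟨fun m hm g => h.Mnrm g g.2 m hm⟩
  have h2 : (⟨_, h1⟩ : D) ^ (M.subgroupOf D).index ∈ M.subgroupOf D :=
    Subgroup.pow_index_mem _ _
  have h3 : (M.subgroupOf D).index = p ^ k := hk
  rw [h3] at h2
  have h4 : (g₀⁻¹ * (g * g₀)) ^ p ^ k ∈ M := h2
  have h5 : g ^ p ^ k ∈ N := by
    have h6 := ‹N.Normal›.conj_mem _ (h.MN h4) g₀
    have e : g₀⁻¹ * (g * g₀) = g₀⁻¹ * g * (g₀⁻¹)⁻¹ := by group
    rw [e, conj_pow] at h6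
    simpa [mul_assoc] using h6
  show ((QuotientGroup.mk' N g) ^ p ^ k : G ⧸ N) = 1
  rw [← map_pow]
  exact (QuotientGroup.eq_one_iff _).2 h5

/-- (LF5) In one `P_c` the orbits reach `g`. -/
theorem lf5 (hp : p.Prime) (h : QD p D M N y₀ ρ δ') {c : G ⧸ D} {g b : G ⧸ N}
    (hg : g ∈ PC D N c) (hb : b ∈ PC D N c) :
    ∃ i₀ : ℕ, ∀ i, i₀ ≤ i → (Tg g)^[i] b = g := by
  haveI : Fact p.Prime := ⟨hp⟩
  obtain ⟨h1, h2⟩ := lf_PC hp h c
  haveI := h1
  exact tg_reach_of_pGroup (PC D N c) h2 hg hb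

/-- (LF7) An element fixing the image of the apex `c` is in `P_c`. -/
theorem lf7 (x : G ⧸ N) (c : G ⧸ D)
    (h : x • qmk N (.apex c : Dot (perFam D y₀) ρ) = qmk N (.apex c)) : x ∈ PC D N c := by
  obtain ⟨g, hg, hgu⟩ := qa_lift_move x (Dot.apex c) (Dot.apex c) h
  refine ⟨g, ?_, hg⟩
  rw [Dot.smul_apex] at hgu
  show g • c = c
  injection hgu

end Pool.Agent.Lib.H14E
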