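import Pool.Agent.Lib.H14E.D1A
import Pool.Agent.Lib.H14E.LF

/-!
# H14E: lower bounds for distances in the cone-off
-/

set_option autoImplicit false
set_option linter.unusedSectionVars false

namespace Pool.Agent.Lib.H14E

open Pool.Agent.Lib.H76.Morse GeoMet

variable {X ι : Type} [GeoMet X] {P : PFam X ι} {ρ : ℕ}

theorem d10x_apex_sep {c c' : ι} (h : c ≠ c') :
    2 * ρ + 2 ≤ d (Dot.apex c : Dot P ρ) (Dot.apex c') := d1_apex_sep h

theorem d10x_xb_col {c : ι} {y : X} (hy : y ∈ P.Y c) {k : ℕ} (hk : k ≤ ρ) :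
    (Dot.col c y hy k : Dot P ρ).xb = y := by
  unfold Dot.col
  by_cases h1 : 1 ≤ k
  · rw [dif_pos h1, dif_pos hk]
    rfl
  · rw [dif_neg h1]
    rfl

theorem d10x_rel {u v : Dot P ρ} (h : Dot.Rel u v) (hv : v.lev ≤ ρ) :
    d u.xb v.xb ≤ 2 ^ u.lev := by
  cases h with
  | @base x x' h =>
    show d x x' ≤ 2 ^ 0
    rw [h]
    exact le_rfl
  | @vert c y hy k hk =>
    rw [Dot.lev_col c y hy (by omega)] at hv
    rw [d10x_xb_col hy hk, d10x_xb_col hy (by omega), d_self]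
    exact Nat.zero_le _
  | @hor c y y' hy hy' k h1 h2 h3 h4 => exact h4

theorem d10x_step {u v : Dot P ρ} (h : d u v ≤ 1) {k : ℕ} (hk : k ≤ ρ) (hu : u.lev ≤ k)
    (hv : v.lev ≤ k) : d u.xb v.xb ≤ 2 ^ k := by
  rcases Dot.rel_of_d h with h | h | h
  · subst h
    rw [d_self]
    exact Nat.zero_le _
  · exact (d10x_rel h (by omega)).trans (Nat.pow_le_pow_right (by norm_num) hu)
  · rw [d_comm]
    exact (d10x_rel h (by omega)).trans (Nat.pow_le_pow_right (by norm_num) hv)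

theorem d10x_base {x x' : X} {r : ℕ} (h : d (Dot.base x : Dot P ρ) (Dot.base x') ≤ r)
    (hr : r < 2 * ρ + 2) : d x x' ≤ r * 2 ^ r := by
  obtain ⟨q, h0, h1, h2⟩ := geo (Dot.base x : Dot P ρ) (Dot.base x')
  obtain ⟨n, hn⟩ : ∃ n, n = d (Dot.base x : Dot P ρ) (Dot.base x') := ⟨_, rfl⟩
  rw [← hn] at h h1 h2
  have hlev : ∀ i, i ≤ n → (q i).lev ≤ n / 2 := by
    intro i hi
    have e1 := (Dot.lf_lev (q i) (q 0)).1
    have e2 := (Dot.lf_lev (q i) (q n)).1
    have e3 := h2 0 i (Nat.zero_le _) hi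
    have e4 := h2 i n hi le_rfl
    rw [h0] at e1 e3
    rw [h1] at e2 e4
    have e5 : (Dot.base x : Dot P ρ).lev = 0 := rfl
    have e6 : (Dot.base x' : Dot P ρ).lev = 0 := rfl
    have e7 := d_comm (q i) (Dot.base x : Dot P ρ)
    omega
  have key : ∀ i, i ≤ n → d (q 0).xb (q i).xb ≤ i * 2 ^ r := by
    intro i
    induction i with
    | zero =>
      intro _
      rw [d_self]
      exact Nat.zero_le _
    | succ i ih =>
      intro hi
      have e1 := ih (by omega)
      have e2 := d10x_step (u := q i) (v := q (i + 1)) (k := n / 2)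
        (by rw [h2 i (i + 1) (by omega) hi]; omega) (by omega) (hlev i (by omega))
        (hlev (i + 1) hi)
      have e3 : 2 ^ (n / 2) ≤ 2 ^ r := Nat.pow_le_pow_right (by norm_num) (by omega)
      have e4 := d_tri (q 0).xb (q i).xb (q (i + 1)).xb
      rw [Nat.succ_mul]
      omega
  have h3 := key n le_rfl
  rw [h0, h1] at h3
  have e8 : (Dot.base x : Dot P ρ).xb = x := rfl
  have e9 : (Dot.base x' : Dot P ρ).xb = x' := rfl
  rw [e8, e9] at h3
  exact h3.trans (Nat.mul_le_mul_right _ h)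

end Pool.Agent.Lib.H14E
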