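import Pool.Agent.Lib.H14E.D10a
import Pool.Agent.Lib.H14E.D10x

/-!
# H14E, module D10: flips
-/

set_option autoImplicit false
set_option linter.unusedSectionVars false

namespace Pool.Agent.Lib.H14E

open Pool.Agent.Lib.H76.Morse GeoMet

/-- Geodesics of the quotient lift. -/
theorem d10_lift {G X : Type} [Group G] [GeoMet X] [MulAction G X] (hG : Geom G X)
    {D : Subgroup G} (N : Subgroup G) [N.Normal] {y₀ : X} {ρ : ℕ}
    (a b : Quo N (Dot (perFam D y₀) ρ)) :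
    ∃ u : ℕ → Dot (perFam D y₀) ρ, qmk N (u 0) = a ∧ qmk N (u (qd hG.iso N a b)) = b ∧
      ∀ i j, i ≤ j → j ≤ qd hG.iso N a b → d (u i) (u j) = j - i ∧
        qd hG.iso N (qmk N (u i)) (qmk N (u j)) = j - i := by
  obtain ⟨q, h0, h1, h2⟩ := (quoGeo (dot_iso hG.iso) N).geo a b
  obtain ⟨x, hx⟩ := qmk_surj N a
  obtain ⟨u, hu0, hu1, hu2⟩ := qa_geo_lift (dot_iso hG.iso) N q (qd hG.iso N a b)
    (fun i j hij hj => h2 i j hij hj) x (by rw [hx, h0])
  refine ⟨u, ?_, ?_, ?_⟩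
  · rw [hu0, hx]
  · rw [hu1 _ le_rfl]
    exact h1
  · intro i j hij hj
    refine ⟨hu2 i j hij hj, ?_⟩
    rw [hu1 i (by omega), hu1 j hj]
    exact h2 i j hij hj

section

variable {p : ℕ} {G X : Type} [Group G] [GeoMet X] [MulAction G X]

theorem d10_flip (hp : p.Prime) (hp2 : p ≠ 2) {δ : ℕ} (hX : Hyp δ X) (hG : Geom G X)
    (hT : PTors p G) {D S : Subgroup G} {y₀ : X} (hP : Periph D y₀) (hS : FinNormal S D)
    (δ' K : ℕ) :
    ∃ (F₁ : Finset G) (R₁ : ℕ), ∀ F₂ : Finset G, ∃ ρ₀ : ℕ, ∀ ρ, ρ₀ ≤ ρ →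
      ∀ (M N : Subgroup G) [N.Normal], QD p D M N y₀ ρ δ' → HT D S M F₁ F₂ →
      ∀ (g : G ⧸ N) (l : ℕ), R₁ ≤ l → 1 ≤ l →
        (∀ v : Quo N (Dot (perFam D y₀) ρ), l ≤ qd hG.iso N v (g • v)) →
        ((∃ (h : G ⧸ N) (v : Quo N (Dot (perFam D y₀) ρ)), qd hG.iso N v (g • v) ≤ l + K ∧
            qd hG.iso N v (h • v) ≤ K ∧ qd hG.iso N v ((g * h * g) • v) ≤ K) →
          ∀ (e : G ⧸ N) (x y : Quo N (Dot (perFam D y₀) ρ)), 3 * l ≤ 2 * qd hG.iso N x y →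
            qd hG.iso N (e • x) y ≤ K → qd hG.iso N (e • y) x ≤ K → False) ∧
        ∀ (v : Quo N (Dot (perFam D y₀) ρ)) (h : ℕ → G ⧸ N), qd hG.iso N v (g • v) ≤ l + K →
          (∀ i, h (i + 1) = g * h i * g * (h i)⁻¹) →
          (∀ i ≤ 5, qd hG.iso N v (h i • v) ≤ K ∧ qd hG.iso N v ((g * h i * g) • v) ≤ K) →
          False := by
  obtain ⟨R₁, C₄, ρ₆, h6⟩ := near_inv hp hp2 hX hG hT hP δ' K
  obtain ⟨r, hr⟩ : ∃ r, r = 3 * C₄ + K := ⟨_, rfl⟩
  obtain ⟨F₁, Φ, hflip⟩ := flip_false_quot hp hp2 hT hS (hP.amal hG)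
    (hG.finite_move y₀ y₀ (r * 2 ^ r)).toFinset
  refine ⟨F₁, R₁, fun F₂ => ?_⟩
  obtain ⟨F₃, hflip⟩ := hflip F₂
  obtain ⟨BΦ, hBΦ⟩ : ∃ B, ∀ x ∈ Φ, d y₀ (x • y₀) ≤ B :=
    ⟨Φ.sup (fun x => d y₀ (x • y₀)), fun x hx => Finset.le_sup (f := fun x => d y₀ (x • y₀)) hx⟩
  obtain ⟨B₃, hB₃⟩ : ∃ B, ∀ x ∈ F₃, d y₀ (x • y₀) ≤ B :=
    ⟨F₃.sup (fun x => d y₀ (x • y₀)),
      fun x hx => Finset.le_sup (f := fun x => d y₀ (x • y₀)) hx⟩
  refine ⟨ρ₆ + r + BΦ + B₃ + 5 * C₄ + 3 * K + 10, ?_⟩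
  intro ρ hρ M N _ hqd hHT g l hRl hl1 hmin
  let _ : GeoMet (Quo N (Dot (perFam D y₀) ρ)) := quoGeo (dot_iso hG.iso) N
  have eqd : ∀ a b : Quo N (Dot (perFam D y₀) ρ), qd hG.iso N a b = d a b := fun _ _ => rfl
  have hiso : IsoAct (G ⧸ N) (Quo N (Dot (perFam D y₀) ρ)) := quo_isoAct (dot_iso hG.iso) N
  -- the near-inversion attached to a flip
  have hinv : ∀ (h : G ⧸ N) (u : ℕ → Dot (perFam D y₀) ρ),
      (∀ i j, i ≤ j → j ≤ qd hG.iso N (qmk N (u 0)) (g • qmk N (u 0)) →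
        d (u i) (u j) = j - i ∧ qd hG.iso N (qmk N (u i)) (qmk N (u j)) = j - i) →
      qmk N (u (qd hG.iso N (qmk N (u 0)) (g • qmk N (u 0)))) = g • qmk N (u 0) →
      qd hG.iso N (qmk N (u 0)) (h • qmk N (u 0)) ≤ K →
      qd hG.iso N (qmk N (u 0)) ((g * h * g) • qmk N (u 0)) ≤ K →
      2 * ρ ≤ qd hG.iso N (qmk N (u 0)) (g • qmk N (u 0)) + C₄ ∧ ∃ c : G ⧸ D,
        g * h ∈ PC D N c ∧
        d (u (qd hG.iso N (qmk N (u 0)) (g • qmk N (u 0)) / 2)) (Dot.apex c) ≤ C₄ ∧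
            (∃ y ∈ (perFam D y₀).Y c, d (u 0) (Dot.base y) ≤ C₄) ∧
            (∃ k : G, k • c = c ∧ (k : G ⧸ N) = (g * h) * (g * h) ∧
              d (u 0) (k • u 0) ≤ C₄) ∧
            ∃ h' : G, (h' : G ⧸ N) = h ∧ d (u 0) (h' • u 0) ≤ K ∧ h' • c ≠ c := by
    intro h u hu hun hh1 hh2
    have hn := hmin (qmk N (u 0))
    refine (h6 ρ (by omega) M N hqd (g * h) u _ (by omega) hu ?_ ?_).2.2 h hh1 ?_
    · rw [hun, mul_smul, eqd, hiso, d_comm]
      exact hh1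
    · rw [hun, ← mul_smul, eqd, d_comm]
      exact hh2
    · intro c
      rw [mul_inv_cancel_right]
      exact d10_notin hG hl1 hmin c
  refine ⟨?_, ?_⟩
  · rintro ⟨h, v, hv1, hv2, hv3⟩ e x y hxy he1 he2
    obtain ⟨u, hu0, hu1, hu2⟩ := d10_lift hG N v (g • v)
    subst hu0
    have h1 := (hinv h u hu2 hu1 hv2 hv3).1
    obtain ⟨w, hw0, hw1, hw2⟩ := d10_lift hG N x y
    have h2 := (h6 ρ (by omega) M N hqd e w _ (by omega) hw2 (by rw [hw0, hw1]; exact he1)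
      (by rw [hw0, hw1]; exact he2)).1
    omega
  · intro v h hv hrec hh
    obtain ⟨u, hu0, hu1, hu2⟩ := d10_lift hG N v (g • v)
    subst hu0
    have hdata := fun i hi => hinv (h i) u hu2 hu1 (hh i hi).1 (hh i hi).2
    have hn := hmin (qmk N (u 0))
    obtain ⟨hρn, c, hc1, hc2, ⟨y, hy, hc3⟩, _, _⟩ := hdata 0 (by omega)
    -- the cone is the same for the six flips
    have hdata' : ∀ i, i ≤ 5 → g * h i ∈ PC D N c ∧
        (∃ k : G, k • c = c ∧ (k : G ⧸ N) = (g * h i) * (g * h i) ∧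
              d (u 0) (k • u 0) ≤ C₄) ∧
            ∃ h' : G, (h' : G ⧸ N) = h i ∧ d (u 0) (h' • u 0) ≤ K ∧ h' • c ≠ c := by
      intro i hi
      obtain ⟨_, c', hc1', hc2', _, hk', hh'⟩ := hdata i hi
      have e : c' = c := by
        by_contra hne
        have h1 := d10x_apex_sep (P := perFam D y₀) (ρ := ρ) hne
        have h2 := d_tri (Dot.apex c' : Dot (perFam D y₀) ρ)
          (u (qd hG.iso N (qmk N (u 0)) (g • qmk N (u 0)) / 2)) (Dot.apex c)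
        rw [d_comm (Dot.apex c' : Dot (perFam D y₀) ρ)
          (u (qd hG.iso N (qmk N (u 0)) (g • qmk N (u 0)) / 2))] at h2
        omega
      rw [e] at hc1' hk' hh'
      exact ⟨hc1', hk', hh'⟩
    have hc1' : ∀ i, i ≤ 5 → ∃ s : G, s • c = c ∧ (s : G ⧸ N) = g * h i := by
      intro i hi
      obtain ⟨s, hs, hs'⟩ := (hdata' i hi).1
      exact ⟨s, hs, hs'⟩
    choose! s hs1 hs2 using hc1'
    choose! k hk1 hk2 hk3 using fun i hi => (hdata' i hi).2.1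
    choose! h' hh1 hh2 hh3 using fun i hi => (hdata' i hi).2.2
    obtain ⟨x, hx, hyx⟩ := hy
    -- transport to `D`, `y₀`
    have hfix : ∀ a : G, a • c = c ↔ x⁻¹ * a * x ∈ D := by
      intro a
      rw [← hx]
      have e1 : a • (x : G ⧸ D) = ((a * x : G) : G ⧸ D) := rfl
      rw [e1, eq_comm, QuotientGroup.eq, mul_assoc]
    have hbase : ∀ (a : G) (t : ℕ), d (u 0) (a • u 0) ≤ t →
        d (Dot.base y : Dot (perFam D y₀) ρ) (Dot.base (a • y)) ≤ 2 * C₄ + t := by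
      intro a t ha
      have e1 : (Dot.base (a • y) : Dot (perFam D y₀) ρ) = a • Dot.base y := rfl
      have i1 := dot_iso hG.iso a (u 0) (Dot.base y : Dot (perFam D y₀) ρ)
      have t1 := d_tri (Dot.base y : Dot (perFam D y₀) ρ) (u 0) (a • Dot.base y)
      have t2 := d_tri (u 0) (a • u 0) (a • Dot.base y)
      have c1 := d_comm (Dot.base y : Dot (perFam D y₀) ρ) (u 0)
      rw [e1]
      omega
    have hmemF : ∀ (a : G) (t : ℕ), d (u 0) (a • u 0) ≤ t → 2 * C₄ + t ≤ r →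
        x⁻¹ * a * x ∈ (hG.finite_move y₀ y₀ (r * 2 ^ r)).toFinset := by
      intro a t ha htr
      rw [Set.Finite.mem_toFinset]
      show d y₀ ((x⁻¹ * a * x) • y₀) ≤ r * 2 ^ r
      have h1 := d10x_base ((hbase a t ha).trans htr) (by omega)
      have e2 : d y₀ ((x⁻¹ * a * x) • y₀) = d y (a • y) := by
        rw [hyx, ← hG.iso x, smul_smul x, smul_smul a]
        congr 2
        group
      rw [e2]
      exact h1
    have hq : ∀ a : G, (QuotientGroup.mk' N) a = (a : G ⧸ N) := fun _ => rfl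
    have hΦ1 : ∀ a ∈ Φ, d (Dot.base y₀ : Dot (perFam D y₀) ρ) (a • Dot.base y₀) ≤ BΦ := by
      intro a ha
      exact (Dot.base_le y₀ (a • y₀)).trans (hBΦ a ha)
    have key : ∃ i ≤ 5, ∃ f ∈ F₃, f ∈ D ∧ (QuotientGroup.mk' N) f =
        ((x : G ⧸ N)⁻¹ * g * (x : G ⧸ N)) * (QuotientGroup.mk' N) (x⁻¹ * h' i * x) := by
      refine hflip (G ⧸ N) (QuotientGroup.mk' N) M ?_ hqd.pidx hHT ?_ ?_
        ((x : G ⧸ N)⁻¹ * g * (x : G ⧸ N)) (fun i => x⁻¹ * h' i * x) (fun i => x⁻¹ * k i * x)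
        ?_ ?_ ?_ ?_ ?_ ?_
      · -- `M = D ⊓ N`
        ext a
        rw [Subgroup.mem_inf, QuotientGroup.ker_mk']
        exact ⟨fun ha => ⟨hqd.MD ha, hqd.MN ha⟩, fun ha => hqd.n1 a ha.2 ha.1⟩
      · intro a ha hqa
        by_contra hne
        have haN : a ∈ N := (QuotientGroup.eq_one_iff a).1 hqa
        have h1 := hqd.n2 a haN hne (Dot.base y₀) (Nat.zero_le _)
        have h2 := hΦ1 a ha
        have h3 : (Dot.base y₀ : Dot (perFam D y₀) ρ).lev = 0 := rfl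
        rw [h3] at h1
        omega
      · rintro a ha ⟨b, hb, hba⟩
        by_contra hne
        have hN : a * b⁻¹ ∈ N := by
          rw [← QuotientGroup.eq_one_iff]
          have h0 : (b : G ⧸ N) = (a : G ⧸ N) := hba
          rw [QuotientGroup.mk_mul, QuotientGroup.mk_inv, h0, mul_inv_cancel]
        have hcc : (a * b⁻¹) • ((1 : G) : G ⧸ D) = (a : G ⧸ D) := by
          have e1 : (a * b⁻¹) • ((1 : G) : G ⧸ D) = ((a * b⁻¹ * 1 : G) : G ⧸ D) := rfl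
          rw [e1, mul_one, QuotientGroup.eq]
          have e2 : (a * b⁻¹)⁻¹ * a = b := by group
          rw [e2]
          exact hb
        have hcc' : (a * b⁻¹) • ((1 : G) : G ⧸ D) ≠ ((1 : G) : G ⧸ D) := by
          rw [hcc]
          intro e
          have e' := QuotientGroup.eq.1 e.symm
          rw [inv_one, one_mul] at e'
          exact hne e'
        have h1 := hqd.n3 _ hN _ hcc'
        rw [Dot.smul_apex, hcc] at h1
        have h2 := hΦ1 a ha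
        have m1 : y₀ ∈ (perFam D y₀).Y ((1 : G) : G ⧸ D) := ⟨1, rfl, by rw [one_smul]⟩
        have m2 : a • y₀ ∈ (perFam D y₀).Y (a : G ⧸ D) := ⟨a, rfl, rfl⟩
        have b1 := Dot.base_apex_le (ρ := ρ) m1
        have b2 := Dot.base_apex_le (ρ := ρ) m2
        have t1 := d_tri (Dot.apex ((1 : G) : G ⧸ D) : Dot (perFam D y₀) ρ) (Dot.base y₀)
          (Dot.apex (a : G ⧸ D))
        have t2 := d_tri (Dot.base y₀ : Dot (perFam D y₀) ρ) (Dot.base (a • y₀))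
          (Dot.apex (a : G ⧸ D))
        have c1 := d_comm (Dot.apex ((1 : G) : G ⧸ D) : Dot (perFam D y₀) ρ) (Dot.base y₀)
        have e3 : (a • Dot.base y₀ : Dot (perFam D y₀) ρ) = Dot.base (a • y₀) := rfl
        rw [e3] at h2
        omega
      · intro i hi
        exact hmemF (h' i) K (hh2 i hi) (by omega)
      · intro i hi
        exact hmemF (k i) C₄ (hk3 i hi) (by omega)
      · intro i hi hD
        exact hh3 i hi ((hfix _).2 hD)
      · intro i hi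
        refine ⟨x⁻¹ * s i * x, (hfix _).1 (hs1 i hi), ?_⟩
        show ((x⁻¹ * s i * x : G) : G ⧸ N) = (x : G ⧸ N)⁻¹ * g * (x : G ⧸ N) *
          ((x⁻¹ * h' i * x : G) : G ⧸ N)
        rw [QuotientGroup.mk_mul, QuotientGroup.mk_mul, QuotientGroup.mk_mul,
          QuotientGroup.mk_mul, QuotientGroup.mk_inv, hs2 i hi, hh1 i hi]
        group
      · intro i hi
        show ((x⁻¹ * k i * x : G) : G ⧸ N) = ((x : G ⧸ N)⁻¹ * g * (x : G ⧸ N) *
          ((x⁻¹ * h' i * x : G) : G ⧸ N)) * ((x : G ⧸ N)⁻¹ * g * (x : G ⧸ N) *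
          ((x⁻¹ * h' i * x : G) : G ⧸ N))
        rw [QuotientGroup.mk_mul, QuotientGroup.mk_mul, QuotientGroup.mk_mul,
          QuotientGroup.mk_mul, QuotientGroup.mk_inv, hk2 i hi, hh1 i hi]
        group
      · intro i hi
        show ((x⁻¹ * h' (i + 1) * x : G) : G ⧸ N) = (x : G ⧸ N)⁻¹ * g * (x : G ⧸ N) *
          ((x⁻¹ * h' i * x : G) : G ⧸ N) * ((x : G ⧸ N)⁻¹ * g * (x : G ⧸ N)) *
          ((x⁻¹ * h' i * x : G) : G ⧸ N)⁻¹
        rw [QuotientGroup.mk_mul, QuotientGroup.mk_mul, QuotientGroup.mk_mul,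
          QuotientGroup.mk_mul, QuotientGroup.mk_inv, hh1 i (by omega), hh1 (i + 1) (by omega),
          hrec i]
        group
    obtain ⟨i, hi, f, hf, hfD, hfe⟩ := key
    -- the contradiction: `e_i` is the image of a short element
    have e1 : g * h i = (x : G ⧸ N) * (f : G ⧸ N) * (x : G ⧸ N)⁻¹ := by
      have h0 : (f : G ⧸ N) = (x : G ⧸ N)⁻¹ * g * (x : G ⧸ N) *
          ((x : G ⧸ N)⁻¹ * (h' i : G ⧸ N) * (x : G ⧸ N)) := hfe
      rw [h0, hh1 i hi]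
      group
    have h1 : d (qmk N (Dot.base y : Dot (perFam D y₀) ρ))
        ((g * h i) • qmk N (Dot.base y : Dot (perFam D y₀) ρ)) ≤ B₃ := by
      have e2 : qmk N (Dot.base y : Dot (perFam D y₀) ρ) =
          (x : G ⧸ N) • qmk N (Dot.base y₀) := by
        rw [hyx]
        rfl
      rw [e1, e2, smul_smul, inv_mul_cancel_right, mul_smul, hiso]
      have e3 : (f : G ⧸ N) • qmk N (Dot.base y₀ : Dot (perFam D y₀) ρ) =
        qmk N (Dot.base (f • y₀)) := rfl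
      rw [e3]
      refine (qa_d_mk_le (dot_iso hG.iso) N _ _).trans ?_
      exact (Dot.base_le y₀ (f • y₀)).trans (hB₃ f hf)
    have h2 : d (qmk N (u 0)) (qmk N (Dot.base y : Dot (perFam D y₀) ρ)) ≤ C₄ :=
      (qa_d_mk_le (dot_iso hG.iso) N _ _).trans hc3
    have h3 : d (qmk N (u 0)) ((g * h i) • qmk N (u 0)) ≤ 2 * C₄ + B₃ := by
      have i1 := hiso (g * h i) (qmk N (u 0)) (qmk N (Dot.base y : Dot (perFam D y₀) ρ))
      have t1 := d_tri (qmk N (u 0)) (qmk N (Dot.base y : Dot (perFam D y₀) ρ))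
        ((g * h i) • qmk N (u 0))
      have t2 := d_tri (qmk N (Dot.base y : Dot (perFam D y₀) ρ))
        ((g * h i) • qmk N (Dot.base y : Dot (perFam D y₀) ρ)) ((g * h i) • qmk N (u 0))
      have c1 := d_comm ((g * h i) • qmk N (Dot.base y : Dot (perFam D y₀) ρ))
        ((g * h i) • qmk N (u 0))
      omega
    have h4 : d ((g * h i) • qmk N (u 0)) (g • qmk N (u 0)) ≤ K := by
      rw [mul_smul, hiso, d_comm]
      exact (hh i hi).1
    have h5 := d_tri (qmk N (u 0)) ((g * h i) • qmk N (u 0)) (g • qmk N (u 0))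
    have h6' := hρn
    rw [eqd] at h6'
    omega

end

end Pool.Agent.Lib.H14E
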