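import Pool.Agent.Lib.H14E.GraphGeo
import Pool.Agent.Lib.H14E.Iso

/-!
# H14E: orbit spaces of isometric actions are `GeoMet`
-/

set_option autoImplicit false

namespace Pool.Agent.Lib.H14E

open Pool.Agent.Lib.H76.Morse GeoMet

/-- The orbit space of the subgroup `N`. -/
abbrev Quo {E : Type} [Group E] (N : Subgroup E) (Γ : Type) [MulAction E Γ] : Type :=
  MulAction.orbitRel.Quotient N Γ

variable {E Γ : Type} [Group E] [MulAction E Γ]

/-- The class of a point. -/
def qmk (N : Subgroup E) (u : Γ) : Quo N Γ := Quotient.mk _ u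

theorem qmk_surj (N : Subgroup E) (a : Quo N Γ) : ∃ u : Γ, qmk N u = a :=
  Quotient.exists_rep a

theorem qmk_eq {N : Subgroup E} {u v : Γ} : qmk N u = qmk N v ↔ ∃ n ∈ N, n • v = u := by
  unfold qmk
  rw [Quotient.eq]
  rw [MulAction.orbitRel_apply]
  constructor
  · rintro ⟨n, hn⟩
    exact ⟨n.1, n.2, hn⟩
  · rintro ⟨n, hn, h⟩
    exact ⟨⟨n, hn⟩, h⟩

variable [GeoMet Γ]

/-- The orbit distance. -/
noncomputable def od (N : Subgroup E) (u v : Γ) : ℕ := sInf {k | ∃ n ∈ N, k = d u (n • v)}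

theorem od_le {N : Subgroup E} {n : E} (hn : n ∈ N) (u v : Γ) : od N u v ≤ d u (n • v) :=
  Nat.sInf_le ⟨n, hn, rfl⟩

theorem od_le_d (N : Subgroup E) (u v : Γ) : od N u v ≤ d u v := by
  have := od_le N.one_mem u v
  rwa [one_smul] at this

theorem exists_od (N : Subgroup E) (u v : Γ) : ∃ n ∈ N, od N u v = d u (n • v) :=
  Nat.sInf_mem (s := {k | ∃ n ∈ N, k = d u (n • v)}) ⟨_, 1, N.one_mem, rfl⟩

theorem od_smul_right {N : Subgroup E} {m : E} (hm : m ∈ N) (u v : Γ) :
    od N u (m • v) = od N u v := by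
  apply le_antisymm
  · obtain ⟨n, hn, h⟩ := exists_od N u v
    rw [h]
    have := od_le (N.mul_mem hn (N.inv_mem hm)) u (m • v)
    rwa [← mul_smul, inv_mul_cancel_right] at this
  · obtain ⟨n, hn, h⟩ := exists_od N u (m • v)
    rw [h]
    have := od_le (N.mul_mem hn hm) u v
    rwa [mul_smul] at this

theorem od_comm (h : IsoAct E Γ) (N : Subgroup E) (u v : Γ) : od N u v = od N v u := by
  have key : ∀ u v : Γ, od N u v ≤ od N v u := by
    intro u v
    obtain ⟨n, hn, e⟩ := exists_od N v u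
    rw [e, ← h n⁻¹ v (n • u), inv_smul_smul, d_comm]
    exact od_le (N.inv_mem hn) u v
  exact le_antisymm (key u v) (key v u)

theorem od_smul_left (h : IsoAct E Γ) {N : Subgroup E} {m : E} (hm : m ∈ N) (u v : Γ) :
    od N (m • u) v = od N u v := by
  rw [od_comm h, od_smul_right hm, od_comm h]

theorem od_tri (h : IsoAct E Γ) (N : Subgroup E) (u v w : Γ) :
    od N u w ≤ od N u v + od N v w := by
  obtain ⟨n, hn, e⟩ := exists_od N u v
  obtain ⟨m, hm, e'⟩ := exists_od N v w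
  rw [e, e']
  have h1 := od_le (N.mul_mem hn hm) u w
  rw [mul_smul] at h1
  have h2 := d_tri u (n • v) (n • (m • w))
  rw [h n v (m • w)] at h2
  exact h1.trans h2

/-- Distance on the orbit space. -/
noncomputable def quoD (h : IsoAct E Γ) (N : Subgroup E) (a b : Quo N Γ) : ℕ :=
  Quotient.lift₂ (fun u v => od N u v) (by
    intro u v u' v' hu hv
    have hu' : qmk N u = qmk N u' := Quotient.sound hu
    have hv' : qmk N v = qmk N v' := Quotient.sound hv
    rw [qmk_eq] at hu' hv'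
    obtain ⟨n, hn, rfl⟩ := hu'
    obtain ⟨m, hm, rfl⟩ := hv'
    show od N (n • u') (m • v') = od N u' v'
    rw [od_smul_left h hn, od_smul_right hm]) a b

theorem quoD_mk (h : IsoAct E Γ) (N : Subgroup E) (u v : Γ) :
    quoD h N (qmk N u) (qmk N v) = od N u v := rfl

/-- The `GeoMet` structure of the orbit space. -/
@[reducible] noncomputable def quoGeo (h : IsoAct E Γ) (N : Subgroup E) : GeoMet (Quo N Γ) where
  d := quoD h N
  d_self a := by
    obtain ⟨u, rfl⟩ := qmk_surj N a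
    rw [quoD_mk]
    have := od_le_d N u u
    rw [d_self] at this
    omega
  eq_of_d a b hab := by
    obtain ⟨u, rfl⟩ := qmk_surj N a
    obtain ⟨v, rfl⟩ := qmk_surj N b
    rw [quoD_mk] at hab
    obtain ⟨n, hn, e⟩ := exists_od N u v
    rw [hab] at e
    exact qmk_eq.2 ⟨n, hn, (eq_of_d _ _ e.symm).symm⟩
  d_comm a b := by
    obtain ⟨u, rfl⟩ := qmk_surj N a
    obtain ⟨v, rfl⟩ := qmk_surj N b
    rw [quoD_mk, quoD_mk, od_comm h]
  d_tri a b c := by
    obtain ⟨u, rfl⟩ := qmk_surj N a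
    obtain ⟨v, rfl⟩ := qmk_surj N b
    obtain ⟨w, rfl⟩ := qmk_surj N c
    rw [quoD_mk, quoD_mk, quoD_mk]
    exact od_tri h N u v w
  geo a b := by
    obtain ⟨u, rfl⟩ := qmk_surj N a
    obtain ⟨v, rfl⟩ := qmk_surj N b
    obtain ⟨n, hn, e⟩ := exists_od N u v
    obtain ⟨p, h0, h1, h2⟩ := geo u (n • v)
    refine ⟨fun i => qmk N (p i), ?_, ?_, ?_⟩
    · show qmk N (p 0) = _
      rw [h0]
    · show qmk N (p (quoD h N (qmk N u) (qmk N v))) = _
      rw [quoD_mk, e, h1]
      exact qmk_eq.2 ⟨n, hn, rfl⟩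
    · intro i j hij hj
      rw [quoD_mk, e] at hj
      show quoD h N (qmk N (p i)) (qmk N (p j)) = j - i
      rw [quoD_mk]
      have l1 := od_le_d N (p i) (p j)
      rw [h2 i j hij hj] at l1
      have l2 := od_le_d N u (p i)
      have l2' : d u (p i) = i := by
        have := h2 0 i (Nat.zero_le _) (by omega)
        rwa [h0, Nat.sub_zero] at this
      have l3 : od N (p j) v ≤ d (p j) (n • v) := od_le hn _ _
      have l3' : d (p j) (n • v) = d u (n • v) - j := by
        have := h2 j _ hj le_rfl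
        rwa [h1] at this
      have t1 := od_tri h N u (p i) v
      have t2 := od_tri h N (p i) (p j) v
      omega

omit [GeoMet Γ] in
/-- The quotient group acts on the orbit space. -/
instance quoAct (N : Subgroup E) [N.Normal] : MulAction (E ⧸ N) (Quo N Γ) where
  smul x a := Quotient.liftOn₂' x a (fun g u => qmk N (g • u)) (by
    intro g u g' u' hg hu
    rw [QuotientGroup.leftRel_apply] at hg
    have hu' : qmk N u = qmk N u' := Quotient.sound' hu
    rw [qmk_eq] at hu'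
    obtain ⟨n, hn, rfl⟩ := hu'
    show qmk N (g • n • u') = qmk N (g' • u')
    rw [qmk_eq]
    refine ⟨g * n * g'⁻¹, ?_, ?_⟩
    · have h1 : g * n * g⁻¹ ∈ N := ‹N.Normal›.conj_mem n hn g
      have h2 : g * (g⁻¹ * g')⁻¹ * g⁻¹ ∈ N := ‹N.Normal›.conj_mem _ (N.inv_mem hg) g
      have h3 := N.mul_mem h1 h2
      have e : g * n * g⁻¹ * (g * (g⁻¹ * g')⁻¹ * g⁻¹) = g * n * g'⁻¹ := by group
      rwa [e] at h3
    · rw [mul_smul, mul_smul, inv_smul_smul])
  one_smul a := by
    obtain ⟨u, rfl⟩ := qmk_surj N a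
    show qmk N ((1 : E) • u) = qmk N u
    rw [one_smul]
  mul_smul x y a := by
    obtain ⟨u, rfl⟩ := qmk_surj N a
    obtain ⟨g, rfl⟩ := QuotientGroup.mk_surjective x
    obtain ⟨h, rfl⟩ := QuotientGroup.mk_surjective y
    show qmk N ((g * h) • u) = qmk N (g • h • u)
    rw [mul_smul]

omit [GeoMet Γ] in
theorem mk_smul_qmk (N : Subgroup E) [N.Normal] (g : E) (u : Γ) :
    ((g : E ⧸ N)) • (qmk N u) = qmk N (g • u) := rfl

theorem quo_isoAct (h : IsoAct E Γ) (N : Subgroup E) [N.Normal] :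
    @IsoAct (E ⧸ N) (Quo N Γ) _ _ (quoGeo h N) := by
  intro x a b
  obtain ⟨g, rfl⟩ := QuotientGroup.mk_surjective x
  obtain ⟨u, rfl⟩ := qmk_surj N a
  obtain ⟨v, rfl⟩ := qmk_surj N b
  rw [mk_smul_qmk, mk_smul_qmk]
  show quoD h N (qmk N (g • u)) (qmk N (g • v)) = quoD h N (qmk N u) (qmk N v)
  rw [quoD_mk, quoD_mk]
  have key : ∀ (g : E) (u v : Γ), od N (g • u) (g • v) ≤ od N u v := by
    intro g u v
    obtain ⟨n, hn, e⟩ := exists_od N u v
    rw [e, ← h g]
    have := od_le (‹N.Normal›.conj_mem n hn g) (g • u) (g • v)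
    rwa [← mul_smul, inv_mul_cancel_right, mul_smul] at this
  apply le_antisymm (key g u v)
  have := key g⁻¹ (g • u) (g • v)
  rwa [inv_smul_smul, inv_smul_smul] at this

end Pool.Agent.Lib.H14E
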