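import Pool.Agent.Lib.H14E.Pk13
import Pool.Agent.Lib.H14E.Quo

/-!
# H14E, module C: output (peak reduction)
-/

set_option autoImplicit false

namespace Pool.Agent.Lib.H14E

open Pool.Agent.Lib.H76.Morse GeoMet

namespace Rot

variable {E V C : Type} [Group E] [GeoMet V] [MulAction E V] [MulAction E C] (R : Rot E V C)

theorem qd_eq_od (x y : V) : R.qd x y = od R.N x y := by
  unfold qd od
  congr 1
  ext k
  constructor
  · rintro ⟨n, hn, h⟩
    exact ⟨n, hn, h.symm⟩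
  · rintro ⟨n, hn, h⟩
    exact ⟨n, hn, h.symm⟩

theorem iso_act (hG : RotGeo R) : IsoAct E V := fun g u v => hG.iso g u v

/-- The orbit space of a hyperbolic space by the group generated by the rotations is
hyperbolic, with almost the same constant. -/
theorem hyp_quo (hG : RotGeo R) {δ : ℕ} (hV : Hyp δ V) :
    @Hyp (δ + 2) (Quo R.N V) (quoGeo (R.iso_act hG) R.N) := by
  intro a b c e
  obtain ⟨x, rfl⟩ := qmk_surj R.N a
  obtain ⟨y, rfl⟩ := qmk_surj R.N b
  obtain ⟨z, rfl⟩ := qmk_surj R.N c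
  obtain ⟨w, rfl⟩ := qmk_surj R.N e
  have h := R.qd_hyp hG hV x y z w
  simp only [R.qd_eq_od] at h
  exact h

/-- A nontrivial element of `N` moves a point which is not an apex across an apex. -/
theorem N_far (hG : RotGeo R) {x : V} (hx : ∀ c : C, x ≠ R.ap c) {n : E} (hn : n ∈ R.N)
    (h1 : n ≠ 1) : ∃ c : C, R.L0 ≤ 2 * R.dc c x (n • x) ∧
      d x (n • x) = d x (R.ap c) + d (R.ap c) (n • x) := by
  obtain ⟨c, m, hm, hm1, hlt, hL⟩ := R.exists_rot hx hn h1
  refine ⟨c, hL, hG.geo c x (n • x) (hx c) (R.nap_smul hx n c) ?_⟩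
  have := R.big
  omega

theorem M_inter (hG : RotGeo R) {c : C} {n : E} (hn : n ∈ R.N) (hc : n • c = c) :
    n ∈ R.M c := by
  obtain ⟨x, hx, _, hz⟩ := hG.near c
  exact R.N_stab hx hz hn hc

/-- An element of `N` which moves the cone `c` moves its apex across another apex. -/
theorem N_apex (hG : RotGeo R) {c : C} {n : E} (hn : n ∈ R.N) (hc : n • c ≠ c) :
    ∃ z : C, z ≠ c ∧ z ≠ n • c ∧ R.L0 ≤ 2 * R.dc z (R.ap c) (n • R.ap c) + 4 * R.th ∧
      d (R.ap c) (n • R.ap c) = d (R.ap c) (R.ap z) + d (R.ap z) (n • R.ap c) := by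
  classical
  obtain ⟨x, hx, _, hz⟩ := hG.near c
  -- choose `k, k'` in `M c` with minimal weight of `k n k'`
  let P : ℕ → Prop := fun w => ∃ k ∈ R.M c, ∃ k' ∈ R.M c, R.sg x ((k * n * k') • x) = w
  have hP : ∃ w, P w := ⟨_, 1, (R.M c).one_mem, 1, (R.M c).one_mem, rfl⟩
  obtain ⟨k, hk, k', hk', hw⟩ := Nat.find_spec hP
  set n1 := k * n * k' with hn1
  have hn1N : n1 ∈ R.N := R.N.mul_mem (R.N.mul_mem (R.M_le c hk) hn) (R.M_le c hk')
  have hkc : k • c = c := R.M_fix c k hk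
  have hk'c : k' • c = c := R.M_fix c k' hk'
  have hkc' : k⁻¹ • c = c := by rw [inv_smul_eq_iff, hkc]
  have hn1c : n1 • c = k • n • c := by rw [hn1, mul_smul, mul_smul, hk'c]
  have hne : n1 ≠ 1 := by
    intro h
    apply hc
    rw [h, one_smul] at hn1c
    have := congrArg (fun t => k⁻¹ • t) hn1c
    simp only [inv_smul_smul] at this
    rw [hkc'] at this
    exact this.symm
  obtain ⟨z, m, hm, hm1, hlt, hL⟩ := R.exists_rot hx hn1N hne
  have hmin : ∀ w, P w → R.sg x (n1 • x) ≤ w := by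
    intro w hw'
    rw [hw]
    exact Nat.find_min' hP hw'
  have hzc : z ≠ c := by
    intro h
    rw [h] at hm
    have h1 := hmin _ ⟨m * k, (R.M c).mul_mem hm hk, k', hk', rfl⟩
    have e : m * k * n * k' = m * n1 := by
      rw [hn1]
      group
    rw [e] at h1
    omega
  have hznc : z ≠ n1 • c := by
    intro h
    rw [h] at hm
    have h2 : n1⁻¹ * m * n1 ∈ R.M c := by
      have := R.M_conj n1⁻¹ (n1 • c) m hm
      rwa [inv_smul_smul, inv_inv] at this
    have h1 := hmin _ ⟨k, hk, k' * (n1⁻¹ * m * n1), (R.M c).mul_mem hk' h2, rfl⟩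
    have e : k * n * (k' * (n1⁻¹ * m * n1)) = m * n1 := by
      rw [← mul_assoc, ← hn1]
      group
    rw [e] at h1
    omega
  -- the angle at `z` between `ap c` and `n1 ap c`
  have hapc : R.ap c ≠ R.ap z := R.ap_ne (Ne.symm hzc)
  have hapn : n1 • R.ap c ≠ R.ap z := by
    rw [← R.ap_smul]
    exact R.ap_ne (Ne.symm hznc)
  have hxz : x ≠ R.ap z := hx z
  have hnx : n1 • x ≠ R.ap z := R.nap_smul hx n1 z
  have t1 := R.dc_tri z x (R.ap c) (n1 • x) hxz hapc hnx
  have t2 := R.dc_tri z (R.ap c) (n1 • R.ap c) (n1 • x) hapc hapn hnx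
  have t3 : R.dc z x (R.ap c) ≤ R.th := hz z hzc
  have t4 : R.dc z (n1 • R.ap c) (n1 • x) ≤ R.th := by
    have h3 : n1⁻¹ • z ≠ c := by
      intro h
      apply hznc
      rw [← h, smul_inv_smul]
    have h4 := hz (n1⁻¹ • z) h3
    have h5 := R.dc_smul n1 (n1⁻¹ • z) (R.ap c) x
    rw [smul_inv_smul] at h5
    rw [h5, R.dc_comm]
    exact h4
  -- pull back by `k`
  have hkap : k • R.ap c = R.ap c := R.M_ap hk
  have hkap' : k⁻¹ • R.ap c = R.ap c := by rw [inv_smul_eq_iff, hkap]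
  have hk'ap : k' • R.ap c = R.ap c := R.M_ap hk'
  have hn1ap : n1 • R.ap c = k • n • R.ap c := by rw [hn1, mul_smul, mul_smul, hk'ap]
  have hang : R.dc (k⁻¹ • z) (R.ap c) (n • R.ap c) = R.dc z (R.ap c) (n1 • R.ap c) := by
    have h5 := R.dc_smul k (k⁻¹ • z) (R.ap c) (n • R.ap c)
    rw [smul_inv_smul, hkap, ← hn1ap] at h5
    exact h5.symm
  have hz1 : k⁻¹ • z ≠ c := by
    intro h
    apply hzc
    rw [inv_smul_eq_iff, hkc] at h
    exact h
  have hz2 : k⁻¹ • z ≠ n • c := by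
    intro h
    apply hznc
    rw [inv_smul_eq_iff] at h
    rw [h, hn1c]
  have hbig := R.big
  refine ⟨k⁻¹ • z, hz1, hz2, ?_, ?_⟩
  · rw [hang]
    omega
  · apply hG.geo
    · exact R.ap_ne (Ne.symm hz1)
    · rw [← R.ap_smul]
      exact R.ap_ne (Ne.symm hz2)
    · rw [hang]
      omega

end Rot

end Pool.Agent.Lib.H14E
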