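import Pool.Agent.Lib.H14E.DotAct

/-!
# H14E: the data used by modules D5 - D10

`QD` collects what modules B and C (and D1) give for one depth `ρ`: `N` is the normal closure of
`M` in `G`, `Γ = Dot (perFam D y₀) ρ`, the quotient graph is `Quo N Γ` with the metric
`quoGeo (dot_iso hiso) N` and the action of `G ⧸ N`.
-/

set_option autoImplicit false
set_option linter.unusedSectionVars false

namespace Pool.Agent.Lib.H14E

open Pool.Agent.Lib.H76.Morse GeoMet

structure QD (p : ℕ) {G X : Type} [Group G] [GeoMet X] [MulAction G X]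
    (D M N : Subgroup G) (y₀ : X) (ρ δ' : ℕ) : Prop where
  MD : M ≤ D
  MN : M ≤ N
  Mnrm : ∀ g ∈ D, ∀ m ∈ M, g * m * g⁻¹ ∈ M
  pidx : ∃ k : ℕ, M.relIndex D = p ^ k
  fus : Fus p D M
  n1 : ∀ n ∈ N, n ∈ D → n ∈ M
  n2 : ∀ n ∈ N, n ≠ 1 → ∀ u : Dot (perFam D y₀) ρ, u.lev ≤ ρ →
    2 * (ρ + 1 - u.lev) ≤ d u (n • u)
  n3 : ∀ n ∈ N, ∀ c : G ⧸ D, n • c ≠ c →
    4 * ρ + 4 ≤ d (Dot.apex c : Dot (perFam D y₀) ρ) (n • Dot.apex c)
  hyp : ∀ u v w t : Dot (perFam D y₀) ρ,
    od N u v + od N w t ≤ max (od N u w + od N v t) (od N u t + od N v w) + δ'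

/-- The image in `G ⧸ N` of the stabiliser of the apex `c`. -/
def PC {G : Type} [Group G] (D N : Subgroup G) [N.Normal] (c : G ⧸ D) : Subgroup (G ⧸ N) :=
  (MulAction.stabilizer G c).map (QuotientGroup.mk' N)

section LF

variable {p : ℕ} {G X : Type} [Group G] [GeoMet X] [MulAction G X]
  {D M N : Subgroup G} [N.Normal] {y₀ : X} {ρ δ' : ℕ}

/-- Distance in the quotient graph. -/
noncomputable abbrev qd (hiso : IsoAct G X) (N : Subgroup G) {D : Subgroup G} {y₀ : X} {ρ : ℕ}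
    (a b : Quo N (Dot (perFam D y₀) ρ)) : ℕ :=
  quoD (dot_iso hiso) N a b

/-- (LF0) the quotient graph is hyperbolic. -/
theorem lf0 (hiso : IsoAct G X) (h : QD p D M N y₀ ρ δ') :
    @Hyp δ' (Quo N (Dot (perFam D y₀) ρ)) (quoGeo (dot_iso hiso) N) := by
  intro a b c e
  obtain ⟨u, rfl⟩ := qmk_surj N a
  obtain ⟨v, rfl⟩ := qmk_surj N b
  obtain ⟨w, rfl⟩ := qmk_surj N c
  obtain ⟨t, rfl⟩ := qmk_surj N e
  exact h.hyp u v w t

/-- (LF1) a lift realising the distance. -/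
theorem lf1 (hiso : IsoAct G X) (x : G ⧸ N) (u v : Dot (perFam D y₀) ρ) :
    ∃ g : G, (g : G ⧸ N) = x ∧ d u (g • v) = qd hiso N (qmk N u) (x • qmk N v) := by
  obtain ⟨g₀, rfl⟩ := QuotientGroup.mk_surjective x
  obtain ⟨n, hn, e⟩ := exists_od N u (g₀ • v)
  refine ⟨n * g₀, ?_, ?_⟩
  · rw [QuotientGroup.eq]
    have := ‹N.Normal›.conj_mem _ (N.inv_mem hn) g₀⁻¹
    simpa [mul_assoc] using this
  · rw [mk_smul_qmk]
    show _ = od N u (g₀ • v)
    rw [e, mul_smul]

/-- (LF2) uniqueness of short lifts. -/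
theorem lf2 (hiso : IsoAct G X) (h : QD p D M N y₀ ρ δ') {g₁ g₂ : G}
    (he : (g₁ : G ⧸ N) = (g₂ : G ⧸ N)) {u : Dot (perFam D y₀) ρ} {r : ℕ} (hu : u.lev + r ≤ ρ)
    (h1 : d u (g₁ • u) ≤ r) (h2 : d u (g₂ • u) ≤ r) : g₁ = g₂ := by
  by_contra hne
  rw [QuotientGroup.eq] at he
  have hn : g₁⁻¹ * g₂ ≠ 1 := by
    intro e
    exact hne (by rw [← mul_one g₁, ← e, mul_inv_cancel_left])
  have hN : g₂ * g₁⁻¹ ∈ N := by
    have := ‹N.Normal›.conj_mem _ he g₁
    simpa [mul_assoc] using this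
  have hn' : g₂ * g₁⁻¹ ≠ 1 := by
    intro e
    exact hne (mul_inv_eq_one.1 e).symm
  have := h.n2 _ hN hn' (g₁ • u) (by rw [Dot.lev_smul]; omega)
  rw [Dot.lev_smul, ← mul_smul, inv_mul_cancel_right] at this
  have t := d_tri (g₁ • u) u (g₂ • u)
  rw [d_comm (g₁ • u) u] at t
  omega

/-- (LF3) a short lift stays short along a path. -/
theorem lf3 (hiso : IsoAct G X) (h : QD p D M N y₀ ρ δ') {q : ℕ → Dot (perFam D y₀) ρ} {n : ℕ}
    (hq : ∀ i < n, d (q i) (q (i + 1)) ≤ 1) {r : ℕ} (hl : ∀ i ≤ n, (q i).lev + r + 2 ≤ ρ)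
    {x : G ⧸ N} (hx : ∀ i ≤ n, qd hiso N (qmk N (q i)) (x • qmk N (q i)) ≤ r)
    {g : G} (hg : (g : G ⧸ N) = x) (h0 : d (q 0) (g • q 0) ≤ r) :
    ∀ i ≤ n, d (q i) (g • q i) ≤ r := by
  intro i
  induction i with
  | zero => intro _; exact h0
  | succ i ih =>
    intro hi
    have h1 := ih (by omega)
    obtain ⟨g', hg', e⟩ := lf1 (N := N) hiso x (q (i + 1)) (q (i + 1))
    have h2 := hx (i + 1) hi
    rw [← e] at h2
    have h3 : d (q (i + 1)) (g • q (i + 1)) ≤ r + 2 := by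
      have t1 := d_tri (q (i + 1)) (q i) (g • q (i + 1))
      have t2 := d_tri (q i) (g • q i) (g • q (i + 1))
      rw [dot_iso hiso g (q i) (q (i + 1))] at t2
      rw [d_comm (q (i + 1)) (q i)] at t1
      have := hq i (by omega)
      omega
    have h4 : g = g' := lf2 hiso h (hg.trans hg'.symm) (u := q (i + 1)) (r := r + 2)
      (by have := hl (i + 1) hi; omega) h3 (by omega)
    rw [h4]
    exact h2

/-- (LF6) lifting a geodesic path of the quotient graph. -/
theorem lf6 (hiso : IsoAct G X) (N : Subgroup G) [N.Normal] {D : Subgroup G} {y₀ : X} {ρ : ℕ}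
    {P : ℕ → Quo N (Dot (perFam D y₀) ρ)} {n : ℕ}
    (hP : ∀ i < n, qd hiso N (P i) (P (i + 1)) ≤ 1) (u : Dot (perFam D y₀) ρ)
    (hu : qmk N u = P 0) :
    ∃ q : ℕ → Dot (perFam D y₀) ρ, q 0 = u ∧ (∀ i ≤ n, qmk N (q i) = P i) ∧
      ∀ i < n, d (q i) (q (i + 1)) ≤ 1 := by
  have key : ∀ m, m ≤ n → ∃ q : ℕ → Dot (perFam D y₀) ρ, q 0 = u ∧
      (∀ i ≤ m, qmk N (q i) = P i) ∧ ∀ i < m, d (q i) (q (i + 1)) ≤ 1 := by
    intro m
    induction m with
    | zero =>
      intro _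
      refine ⟨fun _ => u, rfl, ?_, ?_⟩
      · intro i hi
        obtain rfl : i = 0 := by omega
        exact hu
      · intro i hi
        omega
    | succ m ih =>
      intro hm
      obtain ⟨q, h0, h1, h2⟩ := ih (by omega)
      obtain ⟨v, hv⟩ := qmk_surj N (P (m + 1))
      obtain ⟨k, hk, e⟩ := exists_od N (q m) v
      have e2 : od N (q m) v ≤ 1 := by
        have := hP m (by omega)
        rw [← h1 m le_rfl, ← hv] at this
        exact this
      refine ⟨fun i => if i ≤ m then q i else k • v, by simp [h0], ?_, ?_⟩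
      · intro i hi
        by_cases him : i ≤ m
        · simp only [him, if_true]
          exact h1 i him
        · obtain rfl : i = m + 1 := by omega
          simp only [him, if_false]
          rw [← hv]
          exact qmk_eq.2 ⟨k, hk, rfl⟩
      · intro i hi
        by_cases him : i + 1 ≤ m
        · have h3 : i ≤ m := by omega
          simp only [him, h3, if_true]
          exact h2 i (by omega)
        · obtain rfl : i = m := by omega
          simp only [le_refl, if_true, him, if_false]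
          omega
  exact key n le_rfl

end LF

end Pool.Agent.Lib.H14E
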