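import Pool.Agent.Lib.H14E.D1A
import Pool.Agent.Lib.H14E.PkMain
import Pool.Agent.Lib.H14E.QD

/-!
# H14E, module D1: the rotation family on the cone-off

`E` acts on `Dot (perFam D y₀) ρ` through `π : E →* G`.
-/

set_option autoImplicit false
set_option linter.unusedSectionVars false

namespace Pool.Agent.Lib.H14E

open Pool.Agent.Lib.H76.Morse GeoMet

variable {G X : Type} [Group G] [GeoMet X] [MulAction G X] {D : Subgroup G} {y₀ : X} {ρ : ℕ}

theorem d1_SS_smul (hiso : IsoAct G X) (g : G) {c : G ⧸ D} {u : Dot (perFam D y₀) ρ} {y : X}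
    (h : y ∈ SS c u) : g • y ∈ SS (g • c) (g • u) := by
  obtain ⟨hy, e⟩ := h
  refine ⟨smul_mem_perFam g hy, ?_⟩
  have e1 : (Dot.col (g • c) (g • y) (smul_mem_perFam g hy) ρ : Dot (perFam D y₀) ρ) =
      g • Dot.col c y hy ρ := (Dot.smul_col g c y hy ρ).symm
  have e2 : (Dot.apex (g • c) : Dot (perFam D y₀) ρ) = g • Dot.apex c := rfl
  rw [e1, e2, dot_iso hiso, dot_iso hiso, e]

theorem d1_SS_smul_iff (hiso : IsoAct G X) (g : G) {c : G ⧸ D} {u : Dot (perFam D y₀) ρ}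
    {y : X} : y ∈ SS (g • c) (g • u) ↔ ∃ y' ∈ SS c u, y = g • y' := by
  constructor
  · intro h
    refine ⟨g⁻¹ • y, ?_, by rw [smul_inv_smul]⟩
    have := d1_SS_smul hiso g⁻¹ h
    rwa [inv_smul_smul, inv_smul_smul] at this
  · rintro ⟨y', h, rfl⟩
    exact d1_SS_smul hiso g h

theorem d1_ang_smul (hiso : IsoAct G X) (g : G) (c : G ⧸ D) (u v : Dot (perFam D y₀) ρ) :
    d1_ang (g • c) (g • u) (g • v) = d1_ang c u v := by
  unfold d1_ang
  congr 1
  ext n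
  constructor
  · rintro ⟨y, hy, y', hy', rfl⟩
    obtain ⟨a, ha, rfl⟩ := (d1_SS_smul_iff hiso g).1 hy
    obtain ⟨b, hb, rfl⟩ := (d1_SS_smul_iff hiso g).1 hy'
    exact ⟨a, ha, b, hb, hiso g a b⟩
  · rintro ⟨y, hy, y', hy', rfl⟩
    exact ⟨g • y, d1_SS_smul hiso g hy, g • y', d1_SS_smul hiso g hy', (hiso g y y').symm⟩

/-- The hypotheses on `Mt` used for the rotation family. -/
structure D1Hyp {E : Type} [Group E] (D : Subgroup G) (y₀ : X) (ρ : ℕ)
    [MulAction E (Dot (perFam D y₀) ρ)] [MulAction E (G ⧸ D)] (π : E →* G) (Mt : Subgroup E)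
    (iota : ℕ) : Prop where
  surj : Function.Surjective π
  actV : ∀ (e : E) (u : Dot (perFam D y₀) ρ), e • u = π e • u
  actC : ∀ (e : E) (c : G ⧸ D), e • c = π e • c
  le : ∀ m ∈ Mt, π m ∈ D
  nrm : ∀ x : E, π x ∈ D → ∀ m ∈ Mt, x * m * x⁻¹ ∈ Mt
  av : ∀ m ∈ Mt, m ≠ 1 → iota ≤ d y₀ (π m • y₀)

section

variable {E : Type} [Group E] [MulAction E (Dot (perFam D y₀) ρ)] [MulAction E (G ⧸ D)]

/-- The rotations at `c`. -/
def d1_M (D : Subgroup G) (π : E →* G) (Mt : Subgroup E) (c : G ⧸ D) : Subgroup E where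
  carrier := {m | ∀ x : E, ((π x : G) : G ⧸ D) = c → x⁻¹ * m * x ∈ Mt}
  one_mem' := by
    intro x _
    rw [mul_one, inv_mul_cancel]
    exact Mt.one_mem
  mul_mem' := by
    intro a b ha hb x hx
    have := Mt.mul_mem (ha x hx) (hb x hx)
    have e : x⁻¹ * a * x * (x⁻¹ * b * x) = x⁻¹ * (a * b) * x := by group
    rwa [e] at this
  inv_mem' := by
    intro a ha x hx
    have := Mt.inv_mem (ha x hx)
    have e : (x⁻¹ * a * x)⁻¹ = x⁻¹ * a⁻¹ * x := by group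
    rwa [e] at this

variable {π : E →* G} {Mt : Subgroup E} {iota : ℕ}

theorem D1Hyp.mem_M (h : D1Hyp D y₀ ρ π Mt iota) {c : G ⧸ D} {x : E}
    (hx : ((π x : G) : G ⧸ D) = c) {m : E} : m ∈ d1_M D π Mt c ↔ x⁻¹ * m * x ∈ Mt := by
  constructor
  · intro hm
    exact hm x hx
  · intro hm x' hx'
    have h1 : ((π x : G) : G ⧸ D) = ((π x' : G) : G ⧸ D) := by rw [hx, hx']
    rw [QuotientGroup.eq] at h1
    have h2 : π (x'⁻¹ * x) ∈ D := by
      have := D.inv_mem h1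
      rwa [mul_inv_rev, inv_inv, ← map_inv, ← map_mul] at this
    have := h.nrm _ h2 _ hm
    have e : x'⁻¹ * x * (x⁻¹ * m * x) * (x'⁻¹ * x)⁻¹ = x'⁻¹ * m * x' := by group
    rwa [e] at this

theorem D1Hyp.exists_x (h : D1Hyp D y₀ ρ π Mt iota) (c : G ⧸ D) :
    ∃ x : E, ((π x : G) : G ⧸ D) = c := by
  obtain ⟨g, rfl⟩ := QuotientGroup.mk_surjective c
  obtain ⟨x, rfl⟩ := h.surj g
  exact ⟨x, rfl⟩

theorem D1Hyp.M_fix (h : D1Hyp D y₀ ρ π Mt iota) (c : G ⧸ D) (m : E)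
    (hm : m ∈ d1_M D π Mt c) : m • c = c := by
  obtain ⟨x, rfl⟩ := h.exists_x c
  have h1 := h.le _ (hm x rfl)
  rw [h.actC]
  show ((π m * π x : G) : G ⧸ D) = ((π x : G) : G ⧸ D)
  symm
  rw [QuotientGroup.eq]
  rw [map_mul, map_mul, map_inv] at h1
  rwa [← mul_assoc]

theorem D1Hyp.M_conj (h : D1Hyp D y₀ ρ π Mt iota) (g : E) (c : G ⧸ D) (m : E)
    (hm : m ∈ d1_M D π Mt c) : g * m * g⁻¹ ∈ d1_M D π Mt (g • c) := by
  intro x hx
  have h1 : ((π (g⁻¹ * x) : G) : G ⧸ D) = c := by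
    have h2 : π g • c = ((π x : G) : G ⧸ D) := by rw [hx, h.actC]
    have h3 : c = (π g)⁻¹ • ((π x : G) : G ⧸ D) := by rw [← h2, inv_smul_smul]
    rw [h3, map_mul, map_inv]
    rfl
  have := hm _ h1
  have e : (g⁻¹ * x)⁻¹ * m * (g⁻¹ * x) = x⁻¹ * (g * m * g⁻¹) * x := by group
  rwa [e] at this

theorem D1Hyp.M_sep (hiso : IsoAct G X) {th δ' : ℕ} (hC : ConeOK (perFam D y₀) ρ th δ')
    (h : D1Hyp D y₀ ρ π Mt iota) (c : G ⧸ D) (m : E)
    (hm : m ∈ d1_M D π Mt c) (hm1 : m ≠ 1) (u : Dot (perFam D y₀) ρ) (hu : u ≠ .apex c) :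
    iota ≤ d1_ang c u (m • u) := by
  obtain ⟨y, hy⟩ := d1_SS_ne hu
  obtain ⟨g, hg, hyg⟩ := d1_SS_mem hy
  obtain ⟨x, rfl⟩ := h.surj g
  have hx := hm x hg
  have hne : x⁻¹ * m * x ≠ 1 := by
    intro e
    apply hm1
    have : m = x * (x⁻¹ * m * x) * x⁻¹ := by group
    rw [this, e]
    group
  have hav := h.av _ hx hne
  have hc : π m • c = c := by rw [← h.actC]; exact h.M_fix c m hm
  have hu' : m • u ≠ .apex c := by
    intro e
    apply hu
    rw [h.actV] at e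
    have e2 : (Dot.apex c : Dot (perFam D y₀) ρ) = π m • Dot.apex c := by
      show _ = Dot.apex (π m • c)
      rw [hc]
    rw [e2] at e
    exact MulAction.injective (π m) e
  have hy2 : π m • y ∈ SS c (m • u) := by
    have := d1_SS_smul hiso (π m) hy
    rwa [hc, ← h.actV] at this
  have h1 := d1_le_ang hC hu hu' hy hy2
  have e : d y (π m • y) = d y₀ (π (x⁻¹ * m * x) • y₀) := by
    rw [hyg, ← hiso (π x)⁻¹, inv_smul_smul, map_mul, map_mul, map_inv, mul_smul, mul_smul]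
  rw [e] at h1
  exact hav.trans h1

/-- The rotation family. -/
noncomputable def mkRot (hiso : IsoAct G X) {th δ' : ℕ} (hC : ConeOK (perFam D y₀) ρ th δ')
    (h : D1Hyp D y₀ ρ π Mt iota) (hbig : 40 * th < iota) :
    Rot E (Dot (perFam D y₀) ρ) (G ⧸ D) where
  ap := Dot.apex
  dc := d1_ang
  th := th
  L0 := iota
  M := d1_M D π Mt
  ap_inj := by
    intro c c' e
    injection e
  ap_smul g c := by
    rw [h.actV, h.actC]
    rfl
  dc_smul g c u v := by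
    rw [h.actV, h.actV, h.actC]
    exact d1_ang_smul hiso _ _ _ _
  dc_comm := d1_ang_comm
  dc_tri c u v w hu hv hw := d1_ang_tri hC hu hv hw
  dc_diag c u hu := d1_ang_diag hC hu
  strong c z u hcz hu _ hth v _ := d1_strong hC hcz hu hth v
  fin u v := d1_fin hC u v
  M_fix := h.M_fix
  M_conj := h.M_conj
  M_sep c m hm hm1 u hu := h.M_sep hiso hC c m hm hm1 u hu
  big := hbig

theorem mkRot_geo (hρ : 1 ≤ ρ) (hiso : IsoAct G X) {th δ' : ℕ}
    (hC : ConeOK (perFam D y₀) ρ th δ') (h : D1Hyp D y₀ ρ π Mt iota) (hbig : 40 * th < iota) :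
    RotGeo (mkRot hiso hC h hbig) where
  iso g u v := by
    rw [h.actV, h.actV]
    exact dot_iso hiso _ _ _
  geo c u v hu hv hth := d1_ang_add hC hu hv hth
  near c := d1_near hC hρ c

theorem mkRot_N (hiso : IsoAct G X) {th δ' : ℕ} (hC : ConeOK (perFam D y₀) ρ th δ')
    (h : D1Hyp D y₀ ρ π Mt iota) (hbig : 40 * th < iota) :
    (mkRot hiso hC h hbig).N = Subgroup.normalClosure (Mt : Set E) := by
  apply le_antisymm
  · refine (Subgroup.closure_le _).2 ?_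
    rintro m ⟨c, hm⟩
    obtain ⟨x, hx⟩ := h.exists_x c
    have h1 : x⁻¹ * m * x ∈ Mt := hm x hx
    have h2 : x⁻¹ * m * x ∈ Subgroup.normalClosure (Mt : Set E) :=
      Subgroup.subset_normalClosure h1
    have h3 := Subgroup.normalClosure_normal.conj_mem _ h2 x
    have e : x * (x⁻¹ * m * x) * x⁻¹ = m := by group
    rwa [e] at h3
  · have : (mkRot hiso hC h hbig).N.Normal := Rot.N_normal _
    refine Subgroup.normalClosure_le_normal ?_
    intro m hm
    refine Subgroup.subset_closure ⟨((1 : G) : G ⧸ D), ?_⟩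
    show m ∈ d1_M D π Mt _
    rw [h.mem_M (x := 1) (by rw [map_one])]
    simpa using hm

end

end Pool.Agent.Lib.H14E
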