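import Pool.Agent.Lib.H14E.DispGp

/-!
# H14E / DispFin: finiteness for a geometric action
-/

set_option autoImplicit false

namespace Pool.Agent.Lib.H14E

open Pool.Agent.Lib.H76.Morse GeoMet

variable {X : Type} [GeoMet X] {G : Type} [Group G] [MulAction G X]

theorem dsp_one (x : X) : dsp (1 : G) x = 0 := by
  unfold dsp
  rw [one_smul, d_self]

theorem finite_dsp (hG : Geom G X) (x : X) (r : ℕ) : {g : G | dsp g x ≤ r}.Finite := by
  -- fibres of `g ↦ g • x` over the finite ball are finite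
  have hfib : ∀ y : X, {g : G | g • x = y}.Finite := by
    intro y
    by_cases h : ∃ g0 : G, g0 • x = y
    · obtain ⟨g0, hg0⟩ := h
      refine ((hG.stab x).image (fun g => g0 * g)).subset ?_
      intro g hg
      refine ⟨g0⁻¹ * g, ?_, by group⟩
      show (g0⁻¹ * g) • x = x
      rw [mul_smul, hg, ← hg0, inv_smul_smul]
    · refine Set.finite_empty.subset ?_
      intro g hg
      exact (h ⟨g, hg⟩).elim
  have h : {g : G | dsp g x ≤ r} ⊆ ⋃ y ∈ {y : X | d x y ≤ r}, {g : G | g • x = y} := by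
    intro g hg
    simp only [Set.mem_iUnion]
    exact ⟨g • x, hg, rfl⟩
  exact ((hG.ball x r).biUnion (fun y _ => hfib y)).subset h

/-- Uniform bound for the number of elements of small displacement. -/
theorem exists_card (hG : Geom G X) (r : ℕ) :
    ∃ N : ℕ, ∀ (x : X) (s : Finset G), (∀ g ∈ s, dsp g x ≤ r) → s.card ≤ N := by
  classical
  obtain ⟨F, hF⟩ := hG.cof
  refine ⟨∑ y ∈ F, (finite_dsp hG y r).toFinset.card, ?_⟩
  intro x s hs
  obtain ⟨h, y, hy, hhy⟩ := hF x
  have h1 : (s.image (fun g => h⁻¹ * g * h)) ⊆ (finite_dsp hG y r).toFinset := by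
    intro g' hg'
    rw [Finset.mem_image] at hg'
    obtain ⟨g, hg, rfl⟩ := hg'
    rw [Set.Finite.mem_toFinset]
    show dsp (h⁻¹ * g * h) y ≤ r
    have := dsp_conj hG.iso g h⁻¹ y
    rw [inv_inv, hhy] at this
    rw [this]
    exact hs g hg
  have h2 : (s.image (fun g => h⁻¹ * g * h)).card = s.card := by
    apply Finset.card_image_of_injective
    intro a b hab
    simpa using hab
  rw [← h2]
  exact (Finset.card_le_card h1).trans
    (Finset.single_le_sum (f := fun y => (finite_dsp hG y r).toFinset.card)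
      (fun _ _ => Nat.zero_le _) hy)

/-- Pigeonhole: a sequence of elements moving some point by at most `r` has a repetition. -/
theorem exists_pigeon (hG : Geom G X) (r : ℕ) :
    ∃ N : ℕ, ∀ (x : X) (f : ℕ → G), (∀ i ≤ N, dsp (f i) x ≤ r) →
      ∃ i j, i < j ∧ j ≤ N ∧ f i = f j := by
  classical
  obtain ⟨N, hN⟩ := exists_card hG r
  refine ⟨N, ?_⟩
  intro x f hf
  by_contra hcon
  push Not at hcon
  have hinj : Set.InjOn f (Finset.range (N + 1) : Set ℕ) := by
    intro i hi j hj hij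
    rw [Finset.coe_range, Set.mem_Iio] at hi hj
    rcases lt_trichotomy i j with h | h | h
    · exact (hcon i j h (by omega) hij).elim
    · exact h
    · exact (hcon j i h (by omega) hij.symm).elim
  have h1 := hN x ((Finset.range (N + 1)).image f) (by
    intro g hg
    rw [Finset.mem_image] at hg
    obtain ⟨i, hi, rfl⟩ := hg
    exact hf i (by rw [Finset.mem_range] at hi; omega))
  rw [Finset.card_image_of_injOn hinj, Finset.card_range] at h1
  omega

/-- Infinite pigeonhole for pairs of elements, up to conjugation. -/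
theorem exists_conj_pair (hG : Geom G X) (r : ℕ) (f f' : ℕ → G) (y : ℕ → X)
    (h : ∀ i, dsp (f i) (y i) ≤ r) (h' : ∀ i, dsp (f' i) (y i) ≤ r) :
    ∃ i j, i < j ∧ ∃ g : G, g * f i * g⁻¹ = f j ∧ g * f' i * g⁻¹ = f' j := by
  classical
  obtain ⟨F, hF⟩ := hG.cof
  choose g z hz hgz using fun i => hF (y i)
  -- the triples live in a finite set
  set T : Set (X × G × G) := (F : Set X) ×ˢ ((⋃ w ∈ (F : Set X), {g : G | dsp g w ≤ r}) ×ˢ
    (⋃ w ∈ (F : Set X), {g : G | dsp g w ≤ r})) with hT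
  have hfin : T.Finite := by
    have h1 : (⋃ w ∈ (F : Set X), {g : G | dsp g w ≤ r}).Finite :=
      F.finite_toSet.biUnion (fun w _ => finite_dsp hG w r)
    exact F.finite_toSet.prod (h1.prod h1)
  have hmem : ∀ i, ((z i, (g i)⁻¹ * f i * g i, (g i)⁻¹ * f' i * g i) : X × G × G) ∈ T := by
    intro i
    have e1 : dsp ((g i)⁻¹ * f i * g i) (z i) ≤ r := by
      have := dsp_conj hG.iso (f i) (g i)⁻¹ (z i)
      rw [inv_inv, hgz] at this
      rw [this]
      exact h i
    have e2 : dsp ((g i)⁻¹ * f' i * g i) (z i) ≤ r := by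
      have := dsp_conj hG.iso (f' i) (g i)⁻¹ (z i)
      rw [inv_inv, hgz] at this
      rw [this]
      exact h' i
    refine ⟨hz i, ?_, ?_⟩
    · exact Set.mem_biUnion (hz i) e1
    · exact Set.mem_biUnion (hz i) e2
  obtain ⟨i, j, hij, he⟩ := Set.Finite.exists_lt_map_eq_of_forall_mem (t := T)
    (f := fun i => ((z i, (g i)⁻¹ * f i * g i, (g i)⁻¹ * f' i * g i) : X × G × G))
    hmem hfin
  simp only [Prod.mk.injEq] at he
  refine ⟨i, j, hij, g j * (g i)⁻¹, ?_, ?_⟩
  · calc g j * (g i)⁻¹ * f i * (g j * (g i)⁻¹)⁻¹ = g j * ((g i)⁻¹ * f i * g i) * (g j)⁻¹ := by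
          group
      _ = g j * ((g j)⁻¹ * f j * g j) * (g j)⁻¹ := by rw [he.2.1]
      _ = f j := by group
  · calc g j * (g i)⁻¹ * f' i * (g j * (g i)⁻¹)⁻¹ = g j * ((g i)⁻¹ * f' i * g i) * (g j)⁻¹ := by
          group
      _ = g j * ((g j)⁻¹ * f' j * g j) * (g j)⁻¹ := by rw [he.2.2]
      _ = f' j := by group

end Pool.Agent.Lib.H14E
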