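import Pool.Agent.Lib.H14E.D1B
import Pool.Agent.Lib.H14E.DispFin

/-!
# H14E, module D1: `QD` and the powers of `z`, from `ConeOK`
-/

set_option autoImplicit false
set_option linter.unusedSectionVars false

namespace Pool.Agent.Lib.H14E

open Pool.Agent.Lib.H76.Morse GeoMet

variable {G X : Type} [Group G] [GeoMet X] [MulAction G X] {D : Subgroup G} {y₀ : X} {ρ : ℕ}

theorem d1_hyp_G {M : Subgroup G} {iota : ℕ} (hle : M ≤ D)
    (hnrm : ∀ g ∈ D, ∀ m ∈ M, g * m * g⁻¹ ∈ M)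
    (hav : ∀ m ∈ M, m ≠ 1 → iota ≤ d y₀ (m • y₀)) :
    D1Hyp D y₀ ρ (MonoidHom.id G) M iota where
  surj := fun g => ⟨g, rfl⟩
  actV _ _ := rfl
  actC _ _ := rfl
  le := hle
  nrm := hnrm
  av := hav

theorem d1_zpow {E : Type} [Group E] {π : E →* G} {z : E} (hE : CExt π z) {Mt : Subgroup E}
    {iota : ℕ} (hiso : IsoAct G X) (hρ : 1 ≤ ρ) {th δ' : ℕ}
    (hC : ConeOK (perFam D y₀) ρ th δ') (hbig : 40 * th < iota)
    (hle : ∀ m ∈ Mt, π m ∈ D) (hnrm : ∀ x : E, π x ∈ D → ∀ m ∈ Mt, x * m * x⁻¹ ∈ Mt)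
    (hav : ∀ m ∈ Mt, m ≠ 1 → iota ≤ d y₀ (π m • y₀)) (n : ℤ)
    (hn : z ^ n ∈ Subgroup.normalClosure (Mt : Set E)) : n = 0 := by
  let _ : MulAction E (Dot (perFam D y₀) ρ) := MulAction.compHom _ π
  let _ : MulAction E (G ⧸ D) := MulAction.compHom _ π
  have h : D1Hyp D y₀ ρ π Mt iota :=
    { surj := hE.surj
      actV := fun _ _ => rfl
      actC := fun _ _ => rfl
      le := hle
      nrm := hnrm
      av := hav }
  have hG := mkRot_geo hρ hiso hC h hbig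
  rw [← mkRot_N hiso hC h hbig] at hn
  have hπ : π (z ^ n) = 1 := by
    have : z ^ n ∈ π.ker := by
      rw [hE.ker]
      exact Subgroup.zpow_mem _ (Subgroup.mem_zpowers z) n
    exact this
  by_contra hne
  have h1 : z ^ n ≠ 1 := fun e => hne (hE.inf n e)
  have hx : ∀ c : G ⧸ D, (Dot.base y₀ : Dot (perFam D y₀) ρ) ≠
      (mkRot hiso hC h hbig).ap c := by
    intro c e
    change (Dot.base y₀ : Dot (perFam D y₀) ρ) = Dot.apex c at e
    cases e
  obtain ⟨c, _, hd⟩ := Rot.N_far _ hG hx hn h1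
  have hfix : z ^ n • (Dot.base y₀ : Dot (perFam D y₀) ρ) = Dot.base y₀ := by
    rw [h.actV, hπ, one_smul]
  rw [hfix, d_self] at hd
  have h0 : d (Dot.base y₀ : Dot (perFam D y₀) ρ) ((mkRot hiso hC h hbig).ap c) = 0 := by
    omega
  exact hx c (eq_of_d _ _ h0)

theorem d1_of_cone {p : ℕ} (hG : Geom G X) (hρ : 1 ≤ ρ) {th δ' : ℕ}
    (hC : ConeOK (perFam D y₀) ρ th δ') :
    ∃ Φ : Finset G, ∀ (E : Type) [Group E] (π : E →* G) (z : E),
      CExt π z → ∀ (Mt : Subgroup E) (S : Subgroup G) (F₁ F₂ : Finset G),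
      FillData p π z D S F₁ F₂ Φ Mt →
        QD p D (Mt.map π) (Subgroup.normalClosure ((Mt.map π : Subgroup G) : Set G)) y₀ ρ
          (δ' + 2) ∧
        ∀ n : ℤ, z ^ n ∈ Subgroup.normalClosure (Mt : Set E) → n = 0 := by
  classical
  have hiso : IsoAct G X := hG.iso
  set iota := 40 * th + 1 with hiota
  have hbig : 40 * th < iota := by omega
  refine ⟨(finite_dsp hG y₀ iota).toFinset, ?_⟩
  intro E _ π z hE Mt S F₁ F₂ hF
  set M := Mt.map π with hM
  have hMD : M ≤ D := by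
    rintro _ ⟨m, hm, rfl⟩
    exact hF.le m hm
  have hMn : ∀ g ∈ D, ∀ m ∈ M, g * m * g⁻¹ ∈ M := by
    rintro g hg _ ⟨m, hm, rfl⟩
    obtain ⟨x, rfl⟩ := hE.surj g
    refine ⟨x * m * x⁻¹, hF.nrm x hg m hm, ?_⟩
    rw [map_mul, map_mul, map_inv]
  have hMav : ∀ m ∈ M, m ≠ 1 → iota ≤ d y₀ (m • y₀) := by
    intro m hm hm1
    by_contra hc
    apply hm1
    refine hF.avoid m hm ?_
    rw [Set.Finite.mem_toFinset]
    show dsp m y₀ ≤ iota
    unfold dsp
    omega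
  have hEav : ∀ m ∈ Mt, m ≠ 1 → iota ≤ d y₀ (π m • y₀) := by
    intro m hm hm1
    refine hMav _ ⟨m, hm, rfl⟩ ?_
    intro e
    have h1 : m ∈ π.ker := e
    rw [hE.ker] at h1
    obtain ⟨n, rfl⟩ := Subgroup.mem_zpowers_iff.1 h1
    have := hF.zfree n hm
    rw [this, zpow_zero] at hm1
    exact hm1 rfl
  refine ⟨?_, fun n hn => d1_zpow hE hiso hρ hC hbig hF.le hF.nrm hEav n hn⟩
  have h : D1Hyp D y₀ ρ (MonoidHom.id G) M iota := d1_hyp_G hMD hMn hMav
  have hR := mkRot_geo hρ hiso hC h hbig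
  have hN := mkRot_N hiso hC h hbig
  refine
    { MD := hMD
      MN := Subgroup.subset_normalClosure
      Mnrm := hMn
      pidx := hF.pidx
      fus := hF.fus
      n1 := ?_
      n2 := ?_
      n3 := ?_
      hyp := ?_ }
  · intro n hn hnD
    rw [← hN] at hn
    have hc : n • ((1 : G) : G ⧸ D) = ((1 : G) : G ⧸ D) := by
      show ((n * 1 : G) : G ⧸ D) = ((1 : G) : G ⧸ D)
      symm
      rw [QuotientGroup.eq]
      simpa using hnD
    have h1 : n ∈ d1_M D (MonoidHom.id G) M ((1 : G) : G ⧸ D) := Rot.M_inter _ hR hn hc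
    rw [h.mem_M (x := 1) (by rw [map_one])] at h1
    simpa using h1
  · intro n hn hn1 u hu
    rw [← hN] at hn
    have hx : ∀ c : G ⧸ D, u ≠ (mkRot hiso hC h hbig).ap c := by
      rintro c rfl
      change (Dot.apex c : Dot (perFam D y₀) ρ).lev ≤ ρ at hu
      simp only [Dot.lev] at hu
      omega
    obtain ⟨c, _, hd⟩ := Rot.N_far _ hR hx hn hn1
    have h1 := d1_apex_far u c
    have h2 := d1_apex_far (n • u) c
    rw [Dot.lev_smul] at h2
    change d u (n • u) = d u (Dot.apex c) + d (Dot.apex c) (n • u) at hd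
    rw [d_comm (Dot.apex c) (n • u)] at hd
    omega
  · intro n hn c hc
    rw [← hN] at hn
    obtain ⟨z, hz1, hz2, _, hd⟩ := Rot.N_apex _ hR hn hc
    have h1 := d1_apex_sep (P := perFam D y₀) (ρ := ρ) (Ne.symm hz1)
    have h2 := d1_apex_sep (P := perFam D y₀) (ρ := ρ) hz2
    change d (Dot.apex c : Dot (perFam D y₀) ρ) (n • Dot.apex c) =
      d (Dot.apex c : Dot (perFam D y₀) ρ) (Dot.apex z) + d (Dot.apex z) (n • Dot.apex c) at hd
    have h3 : (n • Dot.apex c : Dot (perFam D y₀) ρ) = Dot.apex (n • c) := rfl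
    rw [h3] at hd ⊢
    omega
  · intro u v w t
    have := Rot.qd_hyp _ hR hC.hyp u v w t
    simp only [Rot.qd_eq_od, hN] at this
    exact this

end Pool.Agent.Lib.H14E
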