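import Pool.Agent.Lib.H14E.QE

/-!
# H14E, module D4: torsion of the quotient

See PROOF_D.md, D4.
-/

set_option autoImplicit false

namespace Pool.Agent.Lib.H14E

open Pool.Agent.Lib.H76.Morse GeoMet

theorem d4_ptors {p : ℕ} (hp : p.Prime) {G X : Type} [Group G] [GeoMet X] [MulAction G X]
    (hG : Geom G X) (hT : PTors p G) (D : Subgroup G) (y₀ : X) (δ' : ℕ) :
    ∃ ρ₀ : ℕ, ∀ ρ, ρ₀ ≤ ρ → ∀ (M N : Subgroup G) [N.Normal], QD p D M N y₀ ρ δ' →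
      PTors p (G ⧸ N) :=
  ⟨6 * δ' + 3, fun _ hρ _ _ _ h => qe_ptors hp hG hT h hρ⟩

end Pool.Agent.Lib.H14E
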