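import Pool.Agent.Lib.H14E.Iso

/-!
# H14E / Disp: displacement calculus in a discrete hyperbolic space

Everything in this file follows from the four point inequality `Hyp δ X` and the existence of
geodesics.  `dsp g x = d x (g • x)`, `gp x y z` is twice the Gromov product `(y | z)_x`.
-/

set_option autoImplicit false

namespace Pool.Agent.Lib.H14E

open Pool.Agent.Lib.H76.Morse GeoMet

variable {X : Type} [GeoMet X] {G : Type} [Group G] [MulAction G X]

/-- The four point inequality with the points in cyclic order. -/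
theorem four {δ : ℕ} (hyp : Hyp δ X) (x y z w : X) :
    d x z + d y w ≤ max (d x y + d z w) (d x w + d y z) + δ := by
  have h := hyp x z y w
  have c := d_comm z y
  omega

/-- Displacement. -/
def dsp (g : G) (x : X) : ℕ := d x (g • x)

/-- A point at distance `t` on a geodesic. -/
theorem exists_pt (x y : X) {t : ℕ} (ht : t ≤ d x y) :
    ∃ q : X, d x q = t ∧ d q y = d x y - t := by
  obtain ⟨p, hp⟩ := exists_isGeo x y
  exact ⟨p t, hp.dist_left ht, hp.dist_right ht⟩

theorem dsp_conj (hiso : IsoAct G X) (g h : G) (x : X) :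
    dsp (h * g * h⁻¹) x = dsp g (h⁻¹ • x) := by
  unfold dsp
  have := hiso h (h⁻¹ • x) (g • h⁻¹ • x)
  rw [← this, smul_inv_smul, mul_smul, mul_smul]

theorem dsp_inv (hiso : IsoAct G X) (g : G) (x : X) : dsp g⁻¹ x = dsp g x := by
  unfold dsp
  have := hiso g x (g⁻¹ • x)
  rw [smul_inv_smul] at this
  rw [← this, d_comm]

theorem dsp_mul_le (hiso : IsoAct G X) (g h : G) (x : X) : dsp (g * h) x ≤ dsp g x + dsp h x := by
  unfold dsp
  have h1 := hiso g x (h • x)
  have h2 := d_tri x (g • x) ((g * h) • x)
  rw [mul_smul] at *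
  omega

theorem dsp_move (hiso : IsoAct G X) (g : G) (x y : X) : dsp g y ≤ dsp g x + 2 * d x y := by
  unfold dsp
  have h1 := hiso g x y
  have h2 := d_tri y x (g • y)
  have h3 := d_tri x (g • x) (g • y)
  have h4 := d_comm x y
  omega

/-- A point `q` almost between `w` and `y`: its displacement. -/
theorem dsp_between {δ : ℕ} (hyp : Hyp δ X) (hiso : IsoAct G X) (g : G) {w q y : X}
    (h : d w q + d q y ≤ d w y + δ) :
    dsp g q ≤ max (dsp g y) (dsp g w - 2 * d w q) + 4 * δ := by
  unfold dsp
  have i1 := hiso g q y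
  have i2 := hiso g q w
  have i3 := hiso g w y
  -- points: w, q, y, g w, g q, g y
  have a1 := four hyp q w (g • q) y
  have a2 := four hyp (g • q) (g • w) y (g • y)
  have a3 := four hyp (g • q) (g • w) w (g • y)
  have c1 := d_comm q w
  have c2 := d_comm (g • q) w
  have c3 := d_comm (g • q) y
  have c4 := d_comm (g • w) w
  have c5 := d_comm (g • w) y
  have c6 := d_comm (g • y) y
  have c7 := d_comm (g • y) w
  have c8 := d_comm (g • q) (g • w)
  have t1 := d_tri w y (g • y)
  have t2 := d_tri y (g • y) (g • w)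
  have c9 := d_comm (g • w) (g • y)
  have c10 := d_comm w y
  have c11 := d_comm (g • q) q
  have c12 := d_comm q y
  have c13 := d_comm (g • q) (g • y)
  omega

/-- Displacement lemma: `q` on a geodesic from `w'` to `w`, `y` arbitrary. -/
theorem dsp_convex {δ : ℕ} (hyp : Hyp δ X) (hiso : IsoAct G X) (g : G) {w w' q : X} (y : X)
    (h : d w q + d q w' = d w w') :
    dsp g q ≤ max (dsp g y) (max (dsp g w - 2 * d w q) (dsp g w' - 2 * d w' q)) + 4 * δ := by
  have h4 := four hyp q w y w'
  have c1 := d_comm q w
  have c2 := d_comm y w'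
  have c3 := d_comm q w'
  rcases le_total (d q w + d y w') (d q w' + d w y) with hh | hh
  · have := dsp_between hyp hiso g (w := w) (q := q) (y := y) (by omega)
    omega
  · have := dsp_between hyp hiso g (w := w') (q := q) (y := y) (by omega)
    omega

/-- The square moves a point at most as far as `g`, up to the translation length. -/
theorem dsp_sq {δ : ℕ} (hyp : Hyp δ X) (hiso : IsoAct G X) (g : G) (x y : X) :
    d x (g • g • x) ≤ dsp g x + dsp g y + δ := by
  unfold dsp
  have h4 := four hyp x (g • x) (g • g • x) (g • y)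
  have i1 := hiso g x y
  have i2 := hiso g x (g • x)
  have i3 := hiso g (g • x) y
  have t1 := d_tri x y (g • y)
  have t2 := d_tri (g • x) (g • y) y
  have c1 := d_comm y (g • y)
  have c2 := d_comm (g • g • x) (g • y)
  omega

/-- Displacement of a point on a geodesic from `x` to `g x`, before the middle. -/
theorem dsp_half {δ : ℕ} (hyp : Hyp δ X) (hiso : IsoAct G X) (g : G) {x q : X} (y : X)
    (h : d x q + d q (g • x) = dsp g x) (ht : d x q ≤ d q (g • x) + 1) :
    dsp g q ≤ max (dsp g y + δ) (dsp g x - 2 * d x q + 2) + 2 * δ := by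
  have hs := dsp_sq hyp hiso g x y
  unfold dsp at *
  have i1 := hiso g x q
  have i2 := hiso g q (g • x)
  have i3 := hiso g x (g • x)
  have a1 := four hyp q x (g • q) (g • x)
  have a2 := four hyp (g • q) (g • x) x (g • g • x)
  have c1 := d_comm q x
  have c2 := d_comm (g • q) x
  have c3 := d_comm (g • q) (g • x)
  have c4 := d_comm (g • x) x
  have c5 := d_comm x (g • g • x)
  have c6 := d_comm (g • q) (g • g • x)
  have c7 := d_comm (g • g • x) (g • x)
  omega

/-- The middle of a geodesic from `x` to `g x` is moved by at most the translation length. -/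
theorem exists_mid {δ : ℕ} (hyp : Hyp δ X) (hiso : IsoAct G X) (g : G) (x y : X) :
    ∃ q, d x q = dsp g x / 2 ∧ d q (g • x) = dsp g x - dsp g x / 2 ∧
      dsp g q ≤ dsp g y + 3 * δ + 3 := by
  obtain ⟨q, h1, h2⟩ := exists_pt x (g • x) (t := dsp g x / 2) (by unfold dsp; omega)
  have h2' : d q (g • x) = dsp g x - dsp g x / 2 := h2
  refine ⟨q, h1, h2', ?_⟩
  have := dsp_half hyp hiso g (x := x) (q := q) y (by omega) (by omega)
  omega

/-- Growth: if all points are moved far by `a` or by `b`, then the same holds with a better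
constant for `a` and `b a b⁻¹`. -/
theorem grow {δ : ℕ} (hyp : Hyp δ X) (hiso : IsoAct G X) {a b : G} {r D : ℕ} {ya yb : X}
    (ha : dsp a ya ≤ r) (hb : dsp b yb ≤ r) (hD : r + 12 * δ + 20 ≤ D)
    (hab : ∀ y : X, D ≤ max (dsp a y) (dsp b y)) (y : X) :
    D + 1 ≤ max (dsp a y) (dsp (b * a * b⁻¹) y) := by
  by_contra hcon
  rw [dsp_conj hiso] at hcon
  set v' : X := b⁻¹ • y with hv'
  have hbv : b • v' = y := by rw [hv', smul_inv_smul]
  have e1 : dsp b v' = d v' y := by unfold dsp; rw [hbv]
  by_cases hc : d v' y ≤ 4 * δ + 2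
  · -- `b` moves `v'` a little: go towards the centre of `a`
    have h1 := hab v'
    obtain ⟨q, hq1, hq2⟩ := exists_pt v' (a • v') (t := δ + 2) (by
      have e2 : dsp a v' = d v' (a • v') := rfl
      have h5 : dsp b v' ≤ 4 * δ + 2 := by omega
      omega)
    have h2 := dsp_half hyp hiso a (x := v') (q := q) ya (by unfold dsp at *; omega)
      (by unfold dsp at *; omega)
    have h3 := dsp_move hiso b v' q
    have h4 := hab q
    omega
  · obtain ⟨q, hq1, hq2, hq3⟩ := exists_mid hyp hiso b v' yb
    rw [hbv] at hq2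
    have h1 := dsp_convex hyp hiso a (w := v') (w' := y) (q := q) ya (by omega)
    have h2 := hab q
    have c1 := d_comm q y
    omega

end Pool.Agent.Lib.H14E
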