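import Pool.Agent.Lib.H14E.Quo

/-!
# H14E, D3: lifting from the orbit space (LF1, LF6)

Everything is stated with the orbit distance `od N` and with the metric `quoGeo h N`.
-/

set_option autoImplicit false

namespace Pool.Agent.Lib.H14E

open Pool.Agent.Lib.H76.Morse GeoMet

variable {E Γ : Type} [Group E] [MulAction E Γ]

theorem qa_qmk_smul {N : Subgroup E} {n : E} (hn : n ∈ N) (u : Γ) :
    qmk N (n • u) = qmk N u := qmk_eq.2 ⟨n, hn, rfl⟩

/-- (LF6) If `g` maps the image of `u` to the image of `v` some lift of `g` maps `u` to `v`. -/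
theorem qa_lift_move {N : Subgroup E} [N.Normal] (g : E ⧸ N) (u v : Γ)
    (h : g • qmk N u = qmk N v) : ∃ g' : E, (g' : E ⧸ N) = g ∧ g' • u = v := by
  obtain ⟨g, rfl⟩ := QuotientGroup.mk_surjective g
  rw [mk_smul_qmk] at h
  obtain ⟨n, hn, h⟩ := qmk_eq.1 h.symm
  refine ⟨n * g, ?_, ?_⟩
  · rw [QuotientGroup.mk_mul, (QuotientGroup.eq_one_iff n).2 hn, one_mul]
  · rw [mul_smul, h]

variable [GeoMet Γ]

theorem qa_d_mk (h : IsoAct E Γ) (N : Subgroup E) (u v : Γ) :
    (quoGeo h N).d (qmk N u) (qmk N v) = od N u v := rfl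

theorem qa_d_mk_le (h : IsoAct E Γ) (N : Subgroup E) (u v : Γ) :
    (quoGeo h N).d (qmk N u) (qmk N v) ≤ d u v := od_le_d N u v

/-- Lifting the second point. -/
theorem qa_d_lift (h : IsoAct E Γ) (N : Subgroup E) (u : Γ) (b : Quo N Γ) :
    ∃ v : Γ, qmk N v = b ∧ d u v = (quoGeo h N).d (qmk N u) b := by
  obtain ⟨v, rfl⟩ := qmk_surj N b
  obtain ⟨n, hn, e⟩ := exists_od N u v
  exact ⟨n • v, qa_qmk_smul hn v, by rw [qa_d_mk, e]⟩

/-- (LF1) A lift of `g` realising the displacement. -/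
theorem qa_lift_disp (h : IsoAct E Γ) {N : Subgroup E} [N.Normal] (g : E ⧸ N) (u : Γ) :
    ∃ g' : E, (g' : E ⧸ N) = g ∧ d u (g' • u) = (quoGeo h N).d (qmk N u) (g • qmk N u) := by
  obtain ⟨v, hv, hd⟩ := qa_d_lift h N u (g • qmk N u)
  obtain ⟨g', hg, hg'⟩ := qa_lift_move g u v hv.symm
  exact ⟨g', hg, by rw [hg', hd]⟩

/-- (LF1) for two points. -/
theorem qa_lift_disp₂ (h : IsoAct E Γ) {N : Subgroup E} [N.Normal] (g : E ⧸ N) (u v : Γ) :
    ∃ g' : E, (g' : E ⧸ N) = g ∧ d u (g' • v) = (quoGeo h N).d (qmk N u) (g • qmk N v) := by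
  obtain ⟨w, hw, hd⟩ := qa_d_lift h N u (g • qmk N v)
  obtain ⟨g', hg, hg'⟩ := qa_lift_move g v w hw.symm
  exact ⟨g', hg, by rw [hg', hd]⟩

/-- (LF6) Paths of the quotient lift to paths, from any lift of the first point. -/
theorem qa_path_lift (h : IsoAct E Γ) (N : Subgroup E) (q : ℕ → Quo N Γ) (x : Γ)
    (hx : qmk N x = q 0) :
    ∃ p : ℕ → Γ, p 0 = x ∧ (∀ i, qmk N (p i) = q i) ∧
      ∀ i, d (p i) (p (i + 1)) = (quoGeo h N).d (q i) (q (i + 1)) := by
  classical
  have step : ∀ (i : ℕ) (u : Γ), ∃ v : Γ, qmk N u = q i →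
      qmk N v = q (i + 1) ∧ d u v = (quoGeo h N).d (q i) (q (i + 1)) := by
    intro i u
    by_cases h' : qmk N u = q i
    · obtain ⟨v, hv, hd⟩ := qa_d_lift h N u (q (i + 1))
      exact ⟨v, fun _ => ⟨hv, by rw [hd, h']⟩⟩
    · exact ⟨u, fun h'' => absurd h'' h'⟩
  choose f hf using step
  let p : ℕ → Γ := fun i => Nat.rec x (fun i u => f i u) i
  have hp : ∀ i, qmk N (p i) = q i := by
    intro i
    induction i with
    | zero => exact hx
    | succ i ih => exact (hf i (p i) ih).1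
  exact ⟨p, rfl, hp, fun i => (hf i (p i) (hp i)).2⟩

/-- Geodesics of the quotient lift to geodesics, from any lift of the first point. -/
theorem qa_geo_lift (h : IsoAct E Γ) (N : Subgroup E) (q : ℕ → Quo N Γ) (n : ℕ)
    (hq : ∀ i j, i ≤ j → j ≤ n → (quoGeo h N).d (q i) (q j) = j - i) (x : Γ)
    (hx : qmk N x = q 0) :
    ∃ p : ℕ → Γ, p 0 = x ∧ (∀ i ≤ n, qmk N (p i) = q i) ∧
      ∀ i j, i ≤ j → j ≤ n → d (p i) (p j) = j - i := by
  obtain ⟨p, h0, hp, hd⟩ := qa_path_lift h N q x hx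
  refine ⟨p, h0, fun i _ => hp i, ?_⟩
  have up : ∀ i j, i ≤ j → j ≤ n → d (p i) (p j) ≤ j - i := by
    intro i j hij hj
    induction j with
    | zero =>
      have : i = 0 := by omega
      subst this
      rw [d_self]
    | succ j ih =>
      by_cases hi : i = j + 1
      · subst hi
        rw [d_self]
        omega
      · have h1 := ih (by omega) (by omega)
        have h2 := hd j
        rw [hq j (j + 1) (by omega) hj] at h2
        have := d_tri (p i) (p j) (p (j + 1))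
        omega
  intro i j hij hj
  apply le_antisymm (up i j hij hj)
  have := qa_d_mk_le h N (p i) (p j)
  rw [hp, hp, hq i j hij hj] at this
  exact this

end Pool.Agent.Lib.H14E
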