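import Pool.Agent.Lib.H14E.QD
import Pool.Agent.Lib.H14E.LF
import Pool.Agent.Lib.H14E.QA
import Pool.Agent.Lib.H14E.Disp
import Pool.Agent.Lib.H14E.N0

/-!
# H14E, module D5: no short recurrence

See PROOF_D.md, D5.  Uses LF.lean (helper70): lf4, lf5.
-/

set_option autoImplicit false

namespace Pool.Agent.Lib.H14E

open Pool.Agent.Lib.H76.Morse GeoMet

theorem d5_mk_tg {G : Type} [Group G] {N : Subgroup G} [N.Normal] (g b : G) (j : ℕ) :
    (((Tg g)^[j] b : G) : G ⧸ N) = (Tg (g : G ⧸ N))^[j] (b : G ⧸ N) := by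
  induction j with
  | zero => rfl
  | succ j ih =>
    rw [Function.iterate_succ_apply', Function.iterate_succ_apply', ← ih]
    rfl

theorem short_case {p : ℕ} (hp : p.Prime) {G X : Type} [Group G] [GeoMet X] [MulAction G X]
    (hG : Geom G X) (hN : NoRec G) (D : Subgroup G) (y₀ : X) (δ' R : ℕ) :
    ∃ ρ₀ : ℕ, ∀ ρ, ρ₀ ≤ ρ → ∀ (M N : Subgroup G) [N.Normal], QD p D M N y₀ ρ δ' →
      ∀ (g b m : G ⧸ N) (k : ℕ), 1 ≤ k → m * g = g * m → (Tg g)^[k] b = m * b * m⁻¹ →
        (∀ j, ∃ v : Quo N (Dot (perFam D y₀) ρ), qd hG.iso N v (g • v) ≤ R ∧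
          qd hG.iso N v ((Tg g)^[j] b • v) ≤ R) → b = g := by
  refine ⟨2 * (3 * R + 4 * δ') + 2, ?_⟩
  intro ρ hρ M N _ h g b m k hk hmg hrec hv
  by_contra hne
  have hiso : IsoAct G X := hG.iso
  letI geoQ : GeoMet (Quo N (Dot (perFam D y₀) ρ)) := quoGeo (dot_iso hiso) N
  have hQ : Hyp δ' (Quo N (Dot (perFam D y₀) ρ)) := lf0 hiso h
  have hQi : IsoAct (G ⧸ N) (Quo N (Dot (perFam D y₀) ρ)) := quo_isoAct (dot_iso hiso) N
  obtain ⟨r, hr⟩ : ∃ r, r = 3 * R + 4 * δ' := ⟨_, rfl⟩
  choose v hv1 hv2 using hv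
  -- the points
  obtain ⟨w, hw⟩ : ∃ w : ℕ → Quo N (Dot (perFam D y₀) ρ),
      w = fun j => if j < k then v j else m • v 0 := ⟨_, rfl⟩
  have hw0 : w 0 = v 0 := by
    rw [hw]
    simp only [show 0 < k from hk, if_true]
  have hwk : w k = m • w 0 := by
    rw [hw0, hw]
    simp only [lt_irrefl, if_false]
  have hw1 : ∀ j, j ≤ k → dsp g (w j) ≤ R := by
    intro j hj
    by_cases hjk : j < k
    · have e : w j = v j := by
        rw [hw]
        simp only [hjk, if_true]
      rw [e]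
      exact hv1 j
    · obtain rfl : j = k := by omega
      rw [hwk, hw0]
      show d (m • v 0) (g • m • v 0) ≤ R
      rw [← mul_smul, ← hmg, mul_smul, hQi]
      exact hv1 0
  have hw2 : ∀ j, j ≤ k → dsp ((Tg g)^[j] b) (w j) ≤ R := by
    intro j hj
    by_cases hjk : j < k
    · have e : w j = v j := by
        rw [hw]
        simp only [hjk, if_true]
      rw [e]
      exact hv2 j
    · obtain rfl : j = k := by omega
      rw [hwk, hw0, hrec]
      show d (m • v 0) ((m * b * m⁻¹) • m • v 0) ≤ R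
      rw [← mul_smul, inv_mul_cancel_right, mul_smul, hQi]
      exact hv2 0
  have hw3 : ∀ j, j < k → dsp ((Tg g)^[j + 1] b) (w j) ≤ 3 * R := by
    intro j hj
    rw [Function.iterate_succ_apply']
    show dsp ((Tg g)^[j] b * g * ((Tg g)^[j] b)⁻¹) (w j) ≤ 3 * R
    have a1 := dsp_mul_le hQi ((Tg g)^[j] b * g) ((Tg g)^[j] b)⁻¹ (w j)
    have a2 := dsp_mul_le hQi ((Tg g)^[j] b) g (w j)
    rw [dsp_inv hQi] at a1
    have a3 := hw1 j (by omega)
    have a4 := hw2 j (by omega)
    omega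
  -- no deep point
  have deep : ∀ (u : Dot (perFam D y₀) ρ) (j : ℕ), dsp g (qmk N u) ≤ r →
      dsp ((Tg g)^[j] b) (qmk N u) ≤ r → u.lev ≤ r := by
    intro u j h1 h2
    by_contra hlt
    push Not at hlt
    obtain ⟨c, hc, hgc, _⟩ := lf4 (N := N) hiso g u r hlt h1
    obtain ⟨c', hc', hbc, _⟩ := lf4 (N := N) hiso ((Tg g)^[j] b) u r hlt h2
    rw [hc] at hc'
    obtain rfl := Option.some.inj hc'
    obtain ⟨i₀, hi⟩ := lf5 hp h hgc hbc
    have h3 := hi i₀ le_rfl
    rw [← Function.iterate_add_apply] at h3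
    exact hne (rec_eq_of_reach hmg hk hrec h3)
  -- a lift which is `r`-short is `R`-short
  have short : ∀ (u : Dot (perFam D y₀) ρ) (x : G), u.lev ≤ r → dsp (x : G ⧸ N) (qmk N u) ≤ R →
      d u (x • u) ≤ r → d u (x • u) ≤ R := by
    intro u x hu h1 h2
    obtain ⟨x', hx', e⟩ := lf1 (N := N) hiso (x : G ⧸ N) u u
    have h3 : d u (x' • u) ≤ R := by
      rw [e]
      exact h1
    have h4 : x = x' := lf2 hiso h (u := u) (r := r) hx'.symm (by omega) h2 (by omega)
    rw [h4]
    exact h3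
  -- the start
  obtain ⟨u₀, hu₀⟩ := qmk_surj N (w 0)
  obtain ⟨gt, hgt, egt⟩ := lf1 (N := N) hiso g u₀ u₀
  obtain ⟨B, hB, eB⟩ := lf1 (N := N) hiso b u₀ u₀
  have hgt0 : d u₀ (gt • u₀) ≤ R := by
    rw [egt, hu₀]
    exact hw1 0 (by omega)
  have hB0 : d u₀ (B • u₀) ≤ R := by
    rw [eB, hu₀]
    exact hw2 0 (by omega)
  have hBj : ∀ j, (((Tg gt)^[j] B : G) : G ⧸ N) = (Tg g)^[j] b := by
    intro j
    rw [d5_mk_tg, hgt, hB]
  have key : ∀ j, j ≤ k → ∃ u : Dot (perFam D y₀) ρ, qmk N u = w j ∧ u.lev ≤ r ∧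
      d u (gt • u) ≤ R ∧ d u ((Tg gt)^[j] B • u) ≤ R := by
    intro j
    induction j with
    | zero =>
      intro _
      refine ⟨u₀, hu₀, ?_, hgt0, hB0⟩
      refine deep u₀ 0 ?_ ?_
      · rw [hu₀]
        have := hw1 0 (by omega)
        omega
      · rw [hu₀]
        have := hw2 0 (by omega)
        omega
    | succ j ih =>
      intro hj
      obtain ⟨u, hu, hul, hug, huB⟩ := ih (by omega)
      obtain ⟨P, hP0, hP1, hP2⟩ := geo (w j) (w (j + 1))
      obtain ⟨q, hq0, hq1, hq2⟩ := lf6 hiso N (P := P) (n := d (w j) (w (j + 1)))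
        (by
          intro i hi
          have : d (P i) (P (i + 1)) = (i + 1) - i := hP2 i (i + 1) (by omega) (by omega)
          have h2 : d (P i) (P (i + 1)) ≤ 1 := by omega
          exact h2) u (by rw [hu, hP0])
      obtain ⟨n, hn⟩ : ∃ n, n = d (w j) (w (j + 1)) := ⟨_, rfl⟩
      rw [← hn] at hq1 hq2 hP1 hP2
      have hgeo : ∀ i, i ≤ n → d (w (j + 1)) (P i) + d (P i) (w j) = d (w (j + 1)) (w j) := by
        intro i hi
        have e1 := hP2 0 i (Nat.zero_le _) hi
        have e2 := hP2 i n hi le_rfl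
        rw [hP0] at e1
        rw [hP1] at e2
        rw [d_comm (w (j + 1)) (P i), d_comm (P i) (w j), d_comm (w (j + 1)) (w j), e1, e2, ← hn]
        omega
      have hgP : ∀ i, i ≤ n → dsp g (P i) ≤ R + 4 * δ' := by
        intro i hi
        have a := dsp_convex hQ hQi g (w j) (hgeo i hi)
        have a1 := hw1 j (by omega)
        have a2 := hw1 (j + 1) hj
        omega
      have hbP : ∀ i, i ≤ n → dsp ((Tg g)^[j + 1] b) (P i) ≤ 3 * R + 4 * δ' := by
        intro i hi
        have a := dsp_convex hQ hQi ((Tg g)^[j + 1] b) (w j) (hgeo i hi)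
        have a1 := hw3 j (by omega)
        have a2 := hw2 (j + 1) hj
        omega
      have hlev : ∀ i, i ≤ n → (q i).lev ≤ r := by
        intro i hi
        refine deep (q i) (j + 1) ?_ ?_
        · rw [hq1 i hi]
          have := hgP i hi
          omega
        · rw [hq1 i hi]
          have := hbP i hi
          omega
      have hqn : qmk N (q n) = w (j + 1) := by rw [hq1 n le_rfl, hP1]
      have s1 : d (q n) (gt • q n) ≤ r := by
        refine lf3 hiso h hq2 (r := r) (x := g) ?_ ?_ hgt ?_ n le_rfl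
        · intro i hi
          have := hlev i hi
          omega
        · intro i hi
          have h1 := hgP i hi
          have h2 : dsp g (qmk N (q i)) ≤ r := by
            rw [hq1 i hi]
            omega
          exact h2
        · rw [hq0]
          omega
      have s2 : d (q n) ((Tg gt)^[j + 1] B • q n) ≤ r := by
        refine lf3 hiso h hq2 (r := r) (x := (Tg g)^[j + 1] b) ?_ ?_ (hBj (j + 1)) ?_ n le_rfl
        · intro i hi
          have := hlev i hi
          omega
        · intro i hi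
          have h1 := hbP i hi
          have h2 : dsp ((Tg g)^[j + 1] b) (qmk N (q i)) ≤ r := by
            rw [hq1 i hi]
            omega
          exact h2
        · rw [hq0, Function.iterate_succ_apply']
          show dsp ((Tg gt)^[j] B * gt * ((Tg gt)^[j] B)⁻¹) u ≤ r
          have a1 := dsp_mul_le (dot_iso hiso) ((Tg gt)^[j] B * gt) ((Tg gt)^[j] B)⁻¹ u
          have a2 := dsp_mul_le (dot_iso hiso) ((Tg gt)^[j] B) gt u
          rw [dsp_inv (dot_iso hiso)] at a1
          have a3 : dsp gt u ≤ R := hug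
          have a4 : dsp ((Tg gt)^[j] B) u ≤ R := huB
          omega
      refine ⟨q n, hqn, hlev n le_rfl, ?_, ?_⟩
      · refine short (q n) gt (hlev n le_rfl) ?_ s1
        rw [hgt, hqn]
        exact hw1 (j + 1) hj
      · refine short (q n) _ (hlev n le_rfl) ?_ s2
        rw [hBj (j + 1), hqn]
        exact hw2 (j + 1) hj
  obtain ⟨uk, huk, hukl, hukg, hukB⟩ := key k le_rfl
  obtain ⟨mt, hmt, emt⟩ := qa_lift_move m u₀ uk (by rw [hu₀, huk, hwk])
  have e0 : mt⁻¹ • uk = u₀ := by rw [← emt, inv_smul_smul]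
  have c1 : mt * gt * mt⁻¹ = gt := by
    refine lf2 hiso h (u := uk) (r := r) ?_ (by omega) ?_ (by omega)
    · rw [QuotientGroup.mk_mul, QuotientGroup.mk_mul, QuotientGroup.mk_inv, hmt, hgt]
      exact conj_of_comm hmg
    · rw [mul_smul, mul_smul, e0, ← emt, dot_iso hiso]
      omega
  have c2 : mt * B * mt⁻¹ = (Tg gt)^[k] B := by
    refine lf2 hiso h (u := uk) (r := r) ?_ (by omega) ?_ (by omega)
    · rw [QuotientGroup.mk_mul, QuotientGroup.mk_mul, QuotientGroup.mk_inv, hmt, hB, hBj k]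
      exact hrec.symm
    · rw [mul_smul, mul_smul, e0, ← emt, dot_iso hiso]
      omega
  have c3 : mt * gt = gt * mt := mul_inv_eq_iff_eq_mul.1 c1
  have c4 := hN gt B mt k hk c3 c2.symm
  apply hne
  rw [← hB, ← hgt, c4]

end Pool.Agent.Lib.H14E
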