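import Pool.Agent.Lib.H14E.N2

/-!
# H14E, module N, part 3: (E4) algebraic part, (E2): finite `p`-subgroups of groups without
recurrences
-/

set_option autoImplicit false

namespace Pool.Agent.Lib.H14E

variable {G : Type} [Group G]

/-- **(E4), algebraic part.**  If infinitely many members of the orbit of `b` under `Tg g` are in a
finite set up to conjugation by the centralizer of `g`, then the orbit reaches `g`. -/
theorem tg_reach_of_frequently (hN : NoRec G) {g b : G} {F : Set G} (hF : F.Finite)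
    (h : ∀ n : ℕ, ∃ j, n ≤ j ∧ ∃ m : G, m * g = g * m ∧ m * (Tg g)^[j] b * m⁻¹ ∈ F) :
    ∃ i₀ : ℕ, ∀ i, i₀ ≤ i → (Tg g)^[i] b = g := by
  choose j hj m hm hF' using h
  have : Finite F := hF
  -- a strictly increasing sequence of good indices
  let u : ℕ → ℕ := fun n => Nat.rec (j 0) (fun _ r => j (r + 1)) n
  have hu : ∀ n, u (n + 1) = j (u n + 1) := fun n => rfl
  have hmono : StrictMono u := strictMono_nat_of_lt_succ (fun n => by
    rw [hu]
    exact Nat.lt_of_lt_of_le (Nat.lt_succ_self _) (hj (u n + 1)))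
  let q : ℕ → ℕ := fun n => Nat.rec 0 (fun n _ => u n + 1) n
  have hq : ∀ n, u n = j (q n) := by
    intro n
    cases n with
    | zero => rfl
    | succ n => rfl
  obtain ⟨n₁, n₂, hne, he⟩ := Finite.exists_ne_map_eq_of_infinite
    (fun n : ℕ => (⟨m (q n) * (Tg g)^[u n] b * (m (q n))⁻¹, by
      rw [hq n]; exact hF' (q n)⟩ : F))
  have key : ∀ n₁ n₂ : ℕ, n₁ < n₂ →
      m (q n₁) * (Tg g)^[u n₁] b * (m (q n₁))⁻¹ = m (q n₂) * (Tg g)^[u n₂] b * (m (q n₂))⁻¹ →
      (Tg g)^[u n₁] b = g := by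
    intro n₁ n₂ h12 he
    have h1 := hmono h12
    obtain ⟨r, hr⟩ := Nat.exists_eq_add_of_le' h1.le
    have hr1 : 1 ≤ r := by omega
    have hc1 := hm (q n₁)
    have hc2 := hm (q n₂)
    refine hN g _ ((m (q n₂))⁻¹ * m (q n₁)) r hr1 ?_ ?_
    · exact ((show Commute (m (q n₂)) g from hc2).inv_left.mul_left
        (show Commute (m (q n₁)) g from hc1))
    · rw [← Function.iterate_add_apply, ← hr]
      calc (Tg g)^[u n₂] b
          = (m (q n₂))⁻¹ * (m (q n₂) * (Tg g)^[u n₂] b * (m (q n₂))⁻¹) * m (q n₂) := by group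
        _ = (m (q n₂))⁻¹ * (m (q n₁) * (Tg g)^[u n₁] b * (m (q n₁))⁻¹) * m (q n₂) := by rw [he]
        _ = _ := by group
  have h3 : ∃ i₀, (Tg g)^[i₀] b = g := by
    rcases lt_or_gt_of_ne hne with hlt | hlt
    · exact ⟨_, key n₁ n₂ hlt (congrArg Subtype.val he)⟩
    · exact ⟨_, key n₂ n₁ hlt (congrArg Subtype.val he).symm⟩
  obtain ⟨i₀, h4⟩ := h3
  refine ⟨i₀, fun i hi => ?_⟩
  obtain ⟨r, rfl⟩ := Nat.exists_eq_add_of_le' hi
  rw [Function.iterate_add_apply, h4, tg_iter_self]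

/-- an orbit of `Tg g` in a finite set reaches `g` -/
theorem tg_reach_of_finite (hN : NoRec G) {g b : G} {F : Set G} (hF : F.Finite)
    (h : ∀ n : ℕ, (Tg g)^[n] b ∈ F) : ∃ i₀ : ℕ, ∀ i, i₀ ≤ i → (Tg g)^[i] b = g :=
  tg_reach_of_frequently hN hF (fun n => ⟨n, le_rfl, 1, by simp, by simpa using h n⟩)

/-- `φ_x(s) = s (x s⁻¹ x⁻¹)` -/
def Ph (x s : G) : G := s * (x * s⁻¹ * x⁻¹)

theorem ph_one (x : G) : Ph x 1 = 1 := by simp [Ph]

theorem ph_iter_one (x : G) (n : ℕ) : (Ph x)^[n] 1 = 1 := by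
  induction n with
  | zero => rfl
  | succ n ih => rw [Function.iterate_succ_apply, ph_one, ih]

theorem ph_mem {S : Subgroup G} {x : G} (hx : ∀ s ∈ S, x * s * x⁻¹ ∈ S) {s : G} (hs : s ∈ S) :
    Ph x s ∈ S := S.mul_mem hs (hx _ (S.inv_mem hs))

theorem ph_iter_mem {S : Subgroup G} {x : G} (hx : ∀ s ∈ S, x * s * x⁻¹ ∈ S) {s : G}
    (hs : s ∈ S) (n : ℕ) : (Ph x)^[n] s ∈ S := by
  induction n with
  | zero => exact hs
  | succ n ih =>
    rw [Function.iterate_succ_apply']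
    exact ph_mem hx ih

/-- `T_x (s x) = φ_x(s) x` -/
theorem tg_mul_self (x s : G) : Tg x (s * x) = Ph x s * x := by
  simp only [Tg, Ph]
  group

theorem tg_iter_mul_self (x s : G) (n : ℕ) : (Tg x)^[n] (s * x) = (Ph x)^[n] s * x := by
  induction n with
  | zero => rfl
  | succ n ih =>
    rw [Function.iterate_succ_apply', ih, tg_mul_self, Function.iterate_succ_apply']

theorem ph_eq_one_iff (x s : G) : Ph x s = 1 ↔ x * s = s * x := by
  constructor
  · intro h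
    have h1 : s * (x * s⁻¹ * x⁻¹) * x * s = x * s → s * x = x * s := by
      intro h2
      rw [← h2]
      group
    exact (h1 (by rw [show s * (x * s⁻¹ * x⁻¹) = Ph x s from rfl, h, one_mul])).symm
  · intro h
    have h1 : x * s⁻¹ * x⁻¹ = (x * s * x⁻¹)⁻¹ := by group
    simp only [Ph]
    rw [h1, h, mul_inv_cancel_right, mul_inv_cancel]

/-- **(E2), first part**: if `x` normalises the finite subgroup `S` then every orbit of `Tg x` in
`S x` reaches `x`. -/
theorem tg_reach_normalizer (hN : NoRec G) {S : Subgroup G} (hS : (S : Set G).Finite) {x : G}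
    (hx : ∀ s ∈ S, x * s * x⁻¹ ∈ S) {s : G} (hs : s ∈ S) :
    ∃ i₀ : ℕ, ∀ i, i₀ ≤ i → (Tg x)^[i] (s * x) = x := by
  refine tg_reach_of_finite hN (F := (fun t => t * x) '' (S : Set G)) (hS.image _) (fun n => ?_)
  rw [tg_iter_mul_self]
  exact ⟨_, ph_iter_mem hx hs n, rfl⟩

/-- **(E2), first part, for `φ_x`**. -/
theorem ph_reach (hN : NoRec G) {S : Subgroup G} (hS : (S : Set G).Finite) {x : G}
    (hx : ∀ s ∈ S, x * s * x⁻¹ ∈ S) {s : G} (hs : s ∈ S) :
    ∃ i₀ : ℕ, ∀ i, i₀ ≤ i → (Ph x)^[i] s = 1 := by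
  obtain ⟨i₀, h⟩ := tg_reach_normalizer hN hS hx hs
  refine ⟨i₀, fun i hi => ?_⟩
  have h1 := h i hi
  rw [tg_iter_mul_self] at h1
  exact mul_eq_right.1 h1

/-- powers of an element which normalises (maps into itself) a subgroup -/
theorem conj_pow_mem {S : Subgroup G} {x : G} (hx : ∀ s ∈ S, x * s * x⁻¹ ∈ S) (n : ℕ) :
    ∀ s ∈ S, x ^ n * s * (x ^ n)⁻¹ ∈ S := by
  induction n with
  | zero => intro s hs; simpa using hs
  | succ n ih =>
    intro s hs
    have e : x ^ (n + 1) * s * (x ^ (n + 1))⁻¹ = x * (x ^ n * s * (x ^ n)⁻¹) * x⁻¹ := by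
      rw [pow_succ']
      group
    rw [e]
    exact hx _ (ih s hs)

/-- some positive power of `x` centralises the finite subgroup `S` -/
theorem exists_pow_comm_finite {S : Subgroup G} (hS : (S : Set G).Finite) {x : G}
    (hx : ∀ s ∈ S, x * s * x⁻¹ ∈ S) : ∃ N : ℕ, 0 < N ∧ ∀ s ∈ S, x ^ N * s = s * x ^ N := by
  have : Finite S := hS
  -- the maps `s ↦ x^n s x^{-n}` of `S` to itself
  obtain ⟨n₁, n₂, hne, he⟩ := Finite.exists_ne_map_eq_of_infinite
    (fun n : ℕ => (fun s : S => (⟨x ^ n * s * (x ^ n)⁻¹, conj_pow_mem hx n s s.2⟩ : S)))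
  have key : ∀ n₁ n₂ : ℕ, n₁ < n₂ →
      (∀ s ∈ S, x ^ n₁ * s * (x ^ n₁)⁻¹ = x ^ n₂ * s * (x ^ n₂)⁻¹) →
      ∃ N : ℕ, 0 < N ∧ ∀ s ∈ S, x ^ N * s = s * x ^ N := by
    intro n₁ n₂ h12 h
    obtain ⟨r, rfl⟩ := Nat.exists_eq_add_of_le h12.le
    refine ⟨r, by omega, fun s hs => ?_⟩
    have h1 := h s hs
    rw [pow_add] at h1
    have h2 : s = x ^ r * s * (x ^ r)⁻¹ := by
      have h3 := congrArg (fun t => (x ^ n₁)⁻¹ * t * x ^ n₁) h1
      calc s = (x ^ n₁)⁻¹ * (x ^ n₁ * s * (x ^ n₁)⁻¹) * x ^ n₁ := by group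
        _ = (x ^ n₁)⁻¹ * (x ^ n₁ * x ^ r * s * (x ^ n₁ * x ^ r)⁻¹) * x ^ n₁ := h3
        _ = _ := by group
    calc x ^ r * s = x ^ r * s * (x ^ r)⁻¹ * x ^ r := by group
      _ = s * x ^ r := by rw [← h2]
  rcases lt_or_gt_of_ne hne with hlt | hlt
  · refine key n₁ n₂ hlt (fun s hs => ?_)
    exact congrArg Subtype.val (congrFun he ⟨s, hs⟩)
  · refine key n₂ n₁ hlt (fun s hs => ?_)
    exact (congrArg Subtype.val (congrFun he ⟨s, hs⟩)).symm

/-- coprime action: if `y^r` centralises the finite `p`-group `S`, `r` prime to `p`, and all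
`φ_y`-orbits in `S` reach `1`, then `y` centralises `S`. -/
theorem comm_of_coprime {p : ℕ} {S : Subgroup G} (hS : ∀ s ∈ S, ∃ k : ℕ, s ^ (p ^ k) = 1) {y : G}
    (hy : ∀ s ∈ S, y * s * y⁻¹ ∈ S) {r : ℕ} (hr : Nat.Coprime r p)
    (hyr : ∀ s ∈ S, y ^ r * s = s * y ^ r)
    (h : ∀ s ∈ S, ∃ i : ℕ, (Ph y)^[i] s = 1) : ∀ s ∈ S, y * s = s * y := by
  -- `φ(S) ∩ C(y) = 1`
  have h1 : ∀ s ∈ S, y * Ph y s = Ph y s * y → Ph y s = 1 := by
    intro s hs hc
    set c := Ph y s with hcdef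
    have hcS : c ∈ S := ph_mem hy hs
    have e1 : y * s * y⁻¹ = c⁻¹ * s := by
      rw [hcdef]
      simp only [Ph]
      group
    have e2 : ∀ j : ℕ, y ^ j * s * (y ^ j)⁻¹ = (c ^ j)⁻¹ * s := by
      intro j
      induction j with
      | zero => simp
      | succ j ih =>
        have hcj : y * (c ^ j)⁻¹ * y⁻¹ = (c ^ j)⁻¹ := by
          have : Commute y (c ^ j)⁻¹ := (Commute.pow_right (show Commute y c from hc) j).inv_right
          rw [this.eq, mul_inv_cancel_right]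
        calc y ^ (j + 1) * s * (y ^ (j + 1))⁻¹ = y * (y ^ j * s * (y ^ j)⁻¹) * y⁻¹ := by
              rw [pow_succ']; group
          _ = y * ((c ^ j)⁻¹ * s) * y⁻¹ := by rw [ih]
          _ = (y * (c ^ j)⁻¹ * y⁻¹) * (y * s * y⁻¹) := by group
          _ = (c ^ j)⁻¹ * (c⁻¹ * s) := by rw [hcj, e1]
          _ = (c ^ (j + 1))⁻¹ * s := by rw [pow_succ']; group
    have e3 := e2 r
    rw [hyr s hs, mul_inv_cancel_right] at e3
    have e4 : c ^ r = 1 := by
      have := (mul_eq_right.1 e3.symm)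
      exact inv_eq_one.1 this
    obtain ⟨k, hk⟩ := hS c hcS
    have e5 : orderOf c ∣ Nat.gcd r (p ^ k) :=
      Nat.dvd_gcd (orderOf_dvd_of_pow_eq_one e4) (orderOf_dvd_of_pow_eq_one hk)
    rw [(Nat.Coprime.pow_right k hr : Nat.gcd r (p ^ k) = 1), Nat.dvd_one, orderOf_eq_one_iff] at e5
    exact e5
  intro s hs
  obtain ⟨i, hi⟩ := h s hs
  rw [← ph_eq_one_iff]
  -- descend from `φ^i(s) = 1`
  have h2 : ∀ i : ℕ, (Ph y)^[i + 1] s = 1 → Ph y s = 1 := by
    intro i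
    induction i with
    | zero => intro h; exact h
    | succ i ih =>
      intro h
      apply ih
      rw [Function.iterate_succ_apply'] at h
      rw [ph_eq_one_iff, Function.iterate_succ_apply'] at h
      rw [Function.iterate_succ_apply']
      exact h1 _ (ph_iter_mem hy hs i) h
  refine h2 i ?_
  rw [Function.iterate_succ_apply', hi, ph_one]

/-- **(E2), second part**: in a group without recurrences every `x` normalising a finite
`p`-subgroup acts on it with `p`-power order. -/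
theorem exists_pPow_comm (hN : NoRec G) {p : ℕ} (hp : p.Prime) {S : Subgroup G}
    (hS : (S : Set G).Finite) (hSp : ∀ s ∈ S, ∃ k : ℕ, s ^ (p ^ k) = 1) {x : G}
    (hx : ∀ s ∈ S, x * s * x⁻¹ ∈ S) : ∃ a : ℕ, ∀ s ∈ S, x ^ (p ^ a) * s = s * x ^ (p ^ a) := by
  obtain ⟨N, hN0, hNc⟩ := exists_pow_comm_finite hS hx
  obtain ⟨a, r, hr, hNr⟩ := Nat.exists_eq_pow_mul_and_not_dvd hN0.ne' p hp.ne_one
  refine ⟨a, ?_⟩
  have hy := conj_pow_mem hx (p ^ a)
  refine comm_of_coprime hSp hy (r := r) ?_ ?_ ?_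
  · exact ((Nat.Prime.coprime_iff_not_dvd hp).2 hr).symm
  · intro s hs
    rw [← pow_mul, ← hNr]
    exact hNc s hs
  · intro s hs
    obtain ⟨i, hi⟩ := ph_reach hN hS hy hs
    exact ⟨i, hi i le_rfl⟩

/-- the same with `PTors` -/
theorem exists_pPow_comm' (hN : NoRec G) {p : ℕ} (hp : p.Prime) (hT : PTors p G)
    {S : Subgroup G} (hS : (S : Set G).Finite) {x : G} (hx : ∀ s ∈ S, x * s * x⁻¹ ∈ S) :
    ∃ a : ℕ, ∀ s ∈ S, x ^ (p ^ a) * s = s * x ^ (p ^ a) := by
  refine exists_pPow_comm hN hp hS (fun s hs => hT s ?_) hx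
  have : Finite S := hS
  exact Submonoid.isOfFinOrder_coe.2 (isOfFinOrder_of_finite (⟨s, hs⟩ : S))

/-- a finite subgroup of a group with `PTors p` is a `p`-group -/
theorem isPGroup_of_finite {p : ℕ} (hT : PTors p G) {S : Subgroup G}
    (hS : (S : Set G).Finite) : IsPGroup p S := by
  intro s
  have : Finite S := hS
  obtain ⟨k, hk⟩ := hT s (Submonoid.isOfFinOrder_coe.2 (isOfFinOrder_of_finite s))
  exact ⟨k, Subtype.ext (by simpa using hk)⟩

/-- a recurrence with both members in a finite subgroup is trivial -/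
theorem rec_eq_of_mem_finite {p : ℕ} (hp : p.Prime) (hT : PTors p G) {P : Subgroup G}
    (hP : (P : Set G).Finite) {g b : G} (hg : g ∈ P) (hb : b ∈ P) :
    ∃ i₀ : ℕ, ∀ i, i₀ ≤ i → (Tg g)^[i] b = g := by
  have : Finite P := hP
  have : Fact p.Prime := ⟨hp⟩
  exact tg_reach_of_pGroup P (isPGroup_of_finite hT hP) hg hb

end Pool.Agent.Lib.H14E
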