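import Pool.Agent.Lib.H14E.DotAct
import Pool.Agent.Lib.H14E.N3

/-!
# H14E, D6, part a: constants of the group `G`: (MAL), (NY), (SQ), order bound
-/

set_option autoImplicit false

namespace Pool.Agent.Lib.H14E

open Pool.Agent.Lib.H76.Morse GeoMet

variable {G X : Type} [Group G] [GeoMet X] [MulAction G X]

theorem Geom.isoAct (hG : Geom G X) : IsoAct G X := hG.iso

/-- elements which move `x` a bounded distance: finitely many -/
theorem finite_short (hG : Geom G X) (x y : X) (r : ℕ) : {g : G | d x (g • y) ≤ r}.Finite := by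
  have h1 := hG.ball x r
  -- the fibres of `g ↦ g • y` are finite
  refine Set.Finite.of_finite_fibers (f := fun g : G => g • y) (h1.subset ?_) ?_
  · rintro _ ⟨g, hg, rfl⟩
    exact hg
  · rintro z -
    by_cases hz : ∃ g₀ : G, g₀ • y = z
    · obtain ⟨g₀, rfl⟩ := hz
      refine ((hG.stab y).image (fun s => g₀ * s)).subset ?_
      rintro g ⟨-, hg⟩
      have hg' : g • y = g₀ • y := hg
      refine ⟨g₀⁻¹ * g, ?_, by simp⟩
      show (g₀⁻¹ * g) • y = y
      rw [mul_smul, hg', inv_smul_smul]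
    · refine Set.Finite.subset (Set.finite_empty (α := G)) ?_
      rintro g ⟨-, hg⟩
      exact hz ⟨g, hg⟩

/-- **(MAL)** if `x` and `h x h⁻¹` are in `D` and `h` is not, then `x` has finite order. -/
theorem mal (hG : Geom G X) {D : Subgroup G} {y₀ : X} (hP : Periph D y₀) {h x : G} (hh : h ∉ D)
    (hx : x ∈ D) (hhx : h * x * h⁻¹ ∈ D) : IsOfFinOrder x := by
  obtain ⟨L, hL⟩ := hP.ovl (d (h • y₀) y₀)
  -- all points `h x^n y₀` are within `r` of `Y` and of `h Y`
  have key : ∀ n : ℕ, d (h • y₀) ((h * x ^ n) • y₀) ≤ L := by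
    intro n
    have e : ∀ m : ℕ, Near D y₀ (d (h • y₀) y₀) 1 ((h * x ^ m) • y₀) := by
      intro m
      refine ⟨(h * x * h⁻¹) ^ m, D.pow_mem hhx m, ?_⟩
      have e1 : h * x ^ m = (h * x * h⁻¹) ^ m * h := by
        rw [conj_pow]
        group
      rw [e1, one_mul, mul_smul, hG.iso]
    have e' : ∀ m : ℕ, Near D y₀ (d (h • y₀) y₀) h ((h * x ^ m) • y₀) := by
      intro m
      exact ⟨x ^ m, D.pow_mem hx m, by rw [d_self]; exact Nat.zero_le _⟩
    have := hL h hh _ _ (e 0) (e n) (e' 0) (e' n)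
    simpa using this
  by_contra hfo
  have hinj : Function.Injective (fun n : ℕ => x ^ n) := injective_pow_iff_not_isOfFinOrder.2 hfo
  have hinj2 : Function.Injective (fun n : ℕ => h * x ^ n) := by
    intro a b hab
    exact hinj (mul_left_cancel hab)
  exact (Set.infinite_range_of_injective hinj2)
    ((finite_short hG (h • y₀) y₀ L).subset (by rintro _ ⟨n, rfl⟩; exact key n))

/-- (MAL) in terms of the cosets: an element which fixes two different cosets has finite order. -/
theorem mal_coset (hG : Geom G X) {D : Subgroup G} {y₀ : X} (hP : Periph D y₀) {k : G}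
    {c c' : G ⧸ D} (h : k • c = c) (h' : k • c' = c') (hne : c ≠ c') : IsOfFinOrder k := by
  obtain ⟨a, rfl⟩ := QuotientGroup.mk_surjective c
  obtain ⟨b, rfl⟩ := QuotientGroup.mk_surjective c'
  have h1 : a⁻¹ * k * a ∈ D := by
    have h1' : ((a : G) : G ⧸ D) = ((k * a : G) : G ⧸ D) := h.symm
    have := QuotientGroup.eq.1 h1'
    rwa [← mul_assoc] at this
  have h2 : b⁻¹ * k * b ∈ D := by
    have h1' : ((b : G) : G ⧸ D) = ((k * b : G) : G ⧸ D) := h'.symm
    have := QuotientGroup.eq.1 h1'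
    rwa [← mul_assoc] at this
  have h3 : b⁻¹ * a ∉ D := by
    intro h4
    exact hne (QuotientGroup.eq.2 h4).symm
  have h5 : IsOfFinOrder (a⁻¹ * k * a) := by
    refine mal hG hP h3 h1 ?_
    have e : b⁻¹ * a * (a⁻¹ * k * a) * (b⁻¹ * a)⁻¹ = b⁻¹ * k * b := by group
    rw [e]
    exact h2
  obtain ⟨n, hn, h6⟩ := isOfFinOrder_iff_pow_eq_one.1 h5
  refine isOfFinOrder_iff_pow_eq_one.2 ⟨n, hn, ?_⟩
  have e : a⁻¹ * k * a = a⁻¹ * k * a⁻¹⁻¹ := by group
  rw [e, conj_pow] at h6
  have h7 : k ^ n = a * (a⁻¹ * k ^ n * a⁻¹⁻¹) * a⁻¹ := by group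
  rw [h7, h6]
  group

/-- **(NY)** `k` of infinite order fixes the coset `c` and moves `x` by at most `r`: then `x` is
near `Y_c`. -/
theorem ny_bound (hG : Geom G X) {D : Subgroup G} {y₀ : X} (hP : Periph D y₀) (r : ℕ) :
    ∃ C : ℕ, ∀ (x : X) (k : G) (c : G ⧸ D), ¬ IsOfFinOrder k → k • c = c → d x (k • x) ≤ r →
      ∃ y ∈ (perFam D y₀).Y c, d x y ≤ C := by
  classical
  obtain ⟨F, hF⟩ := hG.cof
  -- for each `y ∈ F` and each `k` short at `y` choose a bound
  have h1 : ∀ (y : X) (k : G), ∃ C : ℕ, ∀ c : G ⧸ D, ¬ IsOfFinOrder k → k • c = c →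
      ∃ z ∈ (perFam D y₀).Y c, d y z ≤ C := by
    intro y k
    by_cases h : ∃ c : G ⧸ D, ¬ IsOfFinOrder k ∧ k • c = c
    · obtain ⟨c₀, hk, hc₀⟩ := h
      obtain ⟨z, hz⟩ := (perFam D y₀).ne c₀
      refine ⟨d y z, fun c _ hc => ?_⟩
      have : c = c₀ := by
        by_contra hne
        exact hk (mal_coset hG hP hc hc₀ hne)
      subst this
      exact ⟨z, hz, le_rfl⟩
    · exact ⟨0, fun c hk hc => absurd ⟨c, hk, hc⟩ h⟩
  choose C hC using h1
  have hfin : ∀ y : X, ({k : G | d y (k • y) ≤ r}).Finite := fun y => finite_short hG y y r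
  refine ⟨F.sup (fun y => (hfin y).toFinset.sup (fun k => C y k)), ?_⟩
  intro x k c hk hc hd
  obtain ⟨g, y, hy, rfl⟩ := hF x
  set k' := g⁻¹ * k * g with hk'
  have hk1 : ¬ IsOfFinOrder k' := by
    intro h
    apply hk
    obtain ⟨n, hn, h6⟩ := isOfFinOrder_iff_pow_eq_one.1 h
    refine isOfFinOrder_iff_pow_eq_one.2 ⟨n, hn, ?_⟩
    have e : k' = g⁻¹ * k * g⁻¹⁻¹ := by rw [hk']; group
    rw [e, conj_pow] at h6
    have h7 : k ^ n = g * (g⁻¹ * k ^ n * g⁻¹⁻¹) * g⁻¹ := by group
    rw [h7, h6]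
    group
  have hk2 : k' • (g⁻¹ • c) = g⁻¹ • c := by
    rw [hk', mul_smul, mul_smul, smul_inv_smul, hc]
  have hk3 : d y (k' • y) ≤ r := by
    rw [hk', mul_smul, mul_smul, ← hG.iso g, smul_inv_smul]
    exact hd
  obtain ⟨z, hz, hz2⟩ := hC y k' (g⁻¹ • c) hk1 hk2
  refine ⟨g • z, ?_, ?_⟩
  · have := smul_mem_perFam g hz
    rwa [smul_inv_smul] at this
  · rw [hG.iso]
    refine hz2.trans ?_
    refine le_trans ?_ (Finset.le_sup (f := fun y => (hfin y).toFinset.sup (fun k => C y k)) hy)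
    exact Finset.le_sup (f := fun k => C y k) ((hfin y).mem_toFinset.2 hk3)

/-- **(SQ)**, from: for `k` of infinite order there is a homomorphism with finite kernel from the
centralizer of `k` to `ℤ`. -/
theorem sq_bound {p : ℕ} (hp : p.Prime) (hp2 : p ≠ 2) (hG : Geom G X) (hT : PTors p G)
    (hτ : ∀ k : G, ¬ IsOfFinOrder k → ∃ τ : Subgroup.centralizer {k} →* Multiplicative ℤ,
      (τ.ker : Set (Subgroup.centralizer {k})).Finite) (r : ℕ) :
    ∃ C : ℕ, ∀ (x : X) (g : G), d x ((g * g) • x) ≤ r → d x (g • x) ≤ C := by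
  classical
  obtain ⟨F, hF⟩ := hG.cof
  -- the square roots of `k` are finitely many
  have hsq : ∀ k : G, {g : G | g * g = k}.Finite := by
    intro k
    by_cases hk : IsOfFinOrder k
    · refine Set.Subsingleton.finite ?_
      -- `g` is a power of `k` determined by `k`
      obtain ⟨a, ha⟩ := hT k hk
      have h1 : ∀ g : G, g * g = k → g = k ^ ((p ^ a + 1) / 2) := by
        intro g hg
        have hgf : IsOfFinOrder g := by
          refine isOfFinOrder_iff_pow_eq_one.2 ⟨2 * p ^ a, ?_, ?_⟩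
          · have := pow_pos hp.pos a
            omega
          · rw [pow_mul, pow_two, hg, ha]
        obtain ⟨b, hb⟩ := hT g hgf
        have hodd : Odd (p ^ a) := (hp.odd_of_ne_two hp2).pow
        have hodd' : Odd (p ^ b) := (hp.odd_of_ne_two hp2).pow
        have h2 : g ^ (p ^ a) = 1 := by
          have h3 : (g ^ (p ^ a)) ^ 2 = 1 := by
            rw [← pow_mul, mul_comm, pow_mul, pow_two, hg, ha]
          have h4 : (g ^ (p ^ a)) ^ (p ^ b) = 1 := by
            rw [← pow_mul, mul_comm, pow_mul, hb, one_pow]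
          have h5 : orderOf (g ^ (p ^ a)) ∣ Nat.gcd 2 (p ^ b) :=
            Nat.dvd_gcd (orderOf_dvd_of_pow_eq_one h3) (orderOf_dvd_of_pow_eq_one h4)
          rw [(Nat.coprime_two_left.2 hodd' : Nat.gcd 2 (p ^ b) = 1), Nat.dvd_one,
            orderOf_eq_one_iff] at h5
          exact h5
        obtain ⟨q, hq⟩ := hodd
        have e1 : (p ^ a + 1) / 2 = q + 1 := by omega
        rw [e1, ← hg, ← pow_two, ← pow_mul]
        have e2 : 2 * (q + 1) = p ^ a + 1 := by omega
        rw [e2, pow_succ, h2, one_mul]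
      intro g hg g' hg'
      rw [h1 g hg, h1 g' hg']
    · obtain ⟨τ, hτ⟩ := hτ k hk
      have hc : ∀ g : G, g * g = k → g ∈ Subgroup.centralizer ({k} : Set G) := by
        intro g hg
        rw [Subgroup.mem_centralizer_iff]
        intro h hh
        rw [Set.mem_singleton_iff] at hh
        rw [hh, ← hg]
        group
      by_cases hne : ∃ g₀ : G, g₀ * g₀ = k
      · obtain ⟨g₀, hg₀⟩ := hne
        refine (hτ.image (fun s : Subgroup.centralizer ({k} : Set G) => g₀ * (s : G))).subset ?_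
        intro g hg
        have hg' : g * g = k := hg
        refine ⟨⟨g₀, hc g₀ hg₀⟩⁻¹ * ⟨g, hc g hg'⟩, ?_, by simp⟩
        show _ ∈ τ.ker
        rw [MonoidHom.mem_ker, map_mul, map_inv]
        have e1 : τ ⟨g₀, hc g₀ hg₀⟩ * τ ⟨g₀, hc g₀ hg₀⟩ = τ ⟨g, hc g hg'⟩ * τ ⟨g, hc g hg'⟩ := by
          rw [← map_mul, ← map_mul]
          congr 1
          apply Subtype.ext
          show g₀ * g₀ = g * g
          rw [hg₀, hg']
        have e2 : τ ⟨g₀, hc g₀ hg₀⟩ = τ ⟨g, hc g hg'⟩ := by
          have e3 := congrArg Multiplicative.toAdd e1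
          simp only [toAdd_mul] at e3
          apply Multiplicative.toAdd.injective
          omega
        rw [e2, inv_mul_cancel]
      · refine Set.Finite.subset (Set.finite_empty (α := G)) ?_
        intro g hg
        exact hne ⟨g, hg⟩
  have hfin : ∀ y : X, ({k : G | d y (k • y) ≤ r}).Finite := fun y => finite_short hG y y r
  refine ⟨F.sup (fun y => (hfin y).toFinset.sup
    (fun k => (hsq k).toFinset.sup (fun g => d y (g • y)))), ?_⟩
  intro x g hd
  obtain ⟨a, y, hy, rfl⟩ := hF x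
  set g' := a⁻¹ * g * a with hg'
  have h3 : d y ((g' * g') • y) ≤ r := by
    have e : g' * g' = a⁻¹ * (g * g) * a := by rw [hg']; group
    rw [e, mul_smul, mul_smul, ← hG.iso a, smul_inv_smul]
    exact hd
  have h4 : d (a • y) (g • a • y) = d y (g' • y) := by
    rw [hg', mul_smul, mul_smul, ← hG.iso a y, smul_inv_smul]
  rw [h4]
  refine le_trans ?_ (Finset.le_sup (f := fun y => (hfin y).toFinset.sup
    (fun k => (hsq k).toFinset.sup (fun g => d y (g • y)))) hy)
  refine le_trans ?_ (Finset.le_sup (f := fun k => (hsq k).toFinset.sup (fun g => d y (g • y)))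
    ((hfin y).mem_toFinset.2 h3))
  exact Finset.le_sup (f := fun g => d y (g • y)) ((hsq _).mem_toFinset.2 rfl)

/-- **order bound**, from: elements of finite order have a point moved by all powers by at most
`C`. -/
theorem order_bound (hG : Geom G X) {C : ℕ}
    (hqc : ∀ g : G, IsOfFinOrder g → ∃ x : X, ∀ i : ℕ, d x (g ^ i • x) ≤ C) :
    ∃ n₀ : ℕ, ∀ g : G, IsOfFinOrder g → orderOf g ≤ n₀ := by
  classical
  obtain ⟨F, hF⟩ := hG.cof
  have hfin : ∀ y : X, ({k : G | d y (k • y) ≤ C}).Finite := fun y => finite_short hG y y C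
  refine ⟨F.sup (fun y => (hfin y).toFinset.card), ?_⟩
  intro g hg
  obtain ⟨x, hx⟩ := hqc g hg
  obtain ⟨a, y, hy, rfl⟩ := hF x
  refine le_trans ?_ (Finset.le_sup (f := fun y => (hfin y).toFinset.card) hy)
  have h0 : orderOf g = (Finset.range (orderOf g)).card := (Finset.card_range _).symm
  rw [h0]
  refine Finset.card_le_card_of_injOn (fun i => a⁻¹ * g ^ i * a) ?_ ?_
  · intro i _
    show a⁻¹ * g ^ i * a ∈ ((hfin y).toFinset : Set G)
    rw [Set.Finite.coe_toFinset]
    show d y ((a⁻¹ * g ^ i * a) • y) ≤ C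
    rw [mul_smul, mul_smul, ← hG.iso a, smul_inv_smul]
    exact hx i
  · intro i hi j hj he
    have h1 : a⁻¹ * g ^ i * a = a⁻¹ * g ^ j * a := he
    have h2 : g ^ i = g ^ j := mul_left_cancel (mul_right_cancel h1)
    exact pow_injOn_Iio_orderOf (by simpa using hi) (by simpa using hj) h2

end Pool.Agent.Lib.H14E
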