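import Pool.Agent.Lib.H14E.QD
import Pool.Agent.Lib.H14E.D6a

/-!
# H14E, D6, part b: lifted geodesics, uniqueness of lifts between different points
-/

set_option autoImplicit false
set_option linter.unusedSectionVars false
set_option linter.style.haveILetI false

namespace Pool.Agent.Lib.H14E

open Pool.Agent.Lib.H76.Morse GeoMet

section

variable {p : ℕ} {G X : Type} [Group G] [GeoMet X] [MulAction G X]
  {D M N : Subgroup G} [N.Normal] {y₀ : X} {ρ δ' : ℕ}

/-- uniqueness of lifts which move `u` near `v` -/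
theorem lf2' (h : QD p D M N y₀ ρ δ') {g₁ g₂ : G}
    (he : (g₁ : G ⧸ N) = (g₂ : G ⧸ N)) {u v : Dot (perFam D y₀) ρ} {r₁ r₂ : ℕ}
    (h1 : d v (g₁ • u) ≤ r₁) (h2 : d v (g₂ • u) ≤ r₂) (hu : 2 * u.lev + r₁ + r₂ ≤ 2 * ρ) :
    g₁ = g₂ := by
  by_contra hne
  rw [QuotientGroup.eq] at he
  have hN : g₂ * g₁⁻¹ ∈ N := by
    have := ‹N.Normal›.conj_mem _ he g₁
    simpa [mul_assoc] using this
  have hn' : g₂ * g₁⁻¹ ≠ 1 := by
    intro e
    exact hne (mul_inv_eq_one.1 e).symm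
  have := h.n2 _ hN hn' (g₁ • u) (by rw [Dot.lev_smul]; omega)
  rw [Dot.lev_smul, ← mul_smul, inv_mul_cancel_right] at this
  have t := d_tri (g₁ • u) v (g₂ • u)
  rw [d_comm (g₁ • u) v] at t
  omega

/-- a short lift stays short along two paths -/
theorem lf3' (hiso : IsoAct G X) (h : QD p D M N y₀ ρ δ') {q q' : ℕ → Dot (perFam D y₀) ρ}
    {n : ℕ} (hq : ∀ i < n, d (q i) (q (i + 1)) ≤ 1) (hq' : ∀ i < n, d (q' i) (q' (i + 1)) ≤ 1)
    {r : ℕ} (hl : ∀ i ≤ n, (q i).lev + r + 1 ≤ ρ)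
    {x : G ⧸ N} (hx : ∀ i ≤ n, qd hiso N (qmk N (q' i)) (x • qmk N (q i)) ≤ r)
    {g : G} (hg : (g : G ⧸ N) = x) (h0 : d (q' 0) (g • q 0) ≤ r) :
    ∀ i ≤ n, d (q' i) (g • q i) ≤ r := by
  intro i
  induction i with
  | zero => intro _; exact h0
  | succ i ih =>
    intro hi
    have h1 := ih (by omega)
    obtain ⟨g', hg', e⟩ := lf1 (N := N) hiso x (q' (i + 1)) (q (i + 1))
    have h2 := hx (i + 1) hi
    rw [← e] at h2
    have h3 : d (q' (i + 1)) (g • q (i + 1)) ≤ r + 2 := by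
      have t1 := d_tri (q' (i + 1)) (q' i) (g • q (i + 1))
      have t2 := d_tri (q' i) (g • q i) (g • q (i + 1))
      rw [dot_iso hiso g (q i) (q (i + 1))] at t2
      rw [d_comm (q' (i + 1)) (q' i)] at t1
      have := hq i (by omega)
      have := hq' i (by omega)
      omega
    have h4 : g = g' := lf2' h (hg.trans hg'.symm) h3 h2
      (by have := hl (i + 1) hi; omega)
    rw [h4]
    exact h2

/-- `u` is a lift of a geodesic of length `l` of the quotient graph. -/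
structure LG (N : Subgroup G) (u : ℕ → Dot (perFam D y₀) ρ) (l : ℕ) : Prop where
  du : ∀ i j, i ≤ j → j ≤ l → d (u i) (u j) = j - i
  dq : ∀ i j, i ≤ j → j ≤ l → od N (u i) (u j) = j - i

/-- existence of lifted geodesics -/
theorem lg_exists (hiso : IsoAct G X) (u₀ : Dot (perFam D y₀) ρ)
    (b : Quo N (Dot (perFam D y₀) ρ)) :
    ∃ u : ℕ → Dot (perFam D y₀) ρ, u 0 = u₀ ∧ qmk N (u (qd hiso N (qmk N u₀) b)) = b ∧
      LG N u (qd hiso N (qmk N u₀) b) := by
  letI := quoGeo (dot_iso (D := D) (y₀ := y₀) (ρ := ρ) hiso) N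
  obtain ⟨P, hP0, hP1, hP2⟩ := GeoMet.geo (qmk N u₀) b
  obtain ⟨u, hu0, hu1, hu2⟩ := lf6 (N := N) (P := P) (n := qd hiso N (qmk N u₀) b) hiso
    (fun i hi => by
      have := hP2 i (i + 1) (by omega) (by exact hi)
      have e : qd hiso N (P i) (P (i + 1)) = i + 1 - i := this
      rw [e]; omega) u₀ hP0.symm
  refine ⟨u, hu0, ?_, ?_⟩
  · rw [hu1 _ le_rfl]
    exact hP1
  · have hdq : ∀ i j, i ≤ j → j ≤ qd hiso N (qmk N u₀) b → od N (u i) (u j) = j - i := by
      intro i j hij hj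
      have := hP2 i j hij hj
      rw [← hu1 i (hij.trans hj), ← hu1 j hj] at this
      exact this
    refine ⟨?_, hdq⟩
    intro i j hij hj
    apply le_antisymm
    · -- chain
      obtain ⟨m, rfl⟩ := Nat.exists_eq_add_of_le hij
      have : ∀ m, i + m ≤ qd hiso N (qmk N u₀) b → d (u i) (u (i + m)) ≤ m := by
        intro m
        induction m with
        | zero => intro _; rw [Nat.add_zero, d_self]
        | succ m ih =>
          intro hm
          have t := d_tri (u i) (u (i + m)) (u (i + m + 1))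
          have t1 := ih (by omega)
          have t2 := hu2 (i + m) (by omega)
          have e : i + (m + 1) = i + m + 1 := by omega
          rw [e]
          omega
      have := this m hj
      omega
    · rw [← hdq i j hij hj]
      exact od_le_d N _ _

/-- the reversed lifted geodesic -/
theorem LG.rev {u : ℕ → Dot (perFam D y₀) ρ} {l : ℕ} (hiso : IsoAct G X) (h : LG N u l) :
    LG N (fun i => u (l - i)) l := by
  constructor
  · intro i j hij hj
    have := h.du (l - j) (l - i) (by omega) (by omega)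
    rw [d_comm, this]
    omega
  · intro i j hij hj
    have := h.dq (l - j) (l - i) (by omega) (by omega)
    rw [od_comm (dot_iso hiso), this]
    omega

/-- **Step A.** A near-inversion of the end points maps `m(i)` near `m(l - i)`. -/
theorem inv_mid (hiso : IsoAct G X) (h : QD p D M N y₀ ρ δ') {u : ℕ → Dot (perFam D y₀) ρ}
    {l : ℕ} (hu : LG N u l) {e : G ⧸ N} {C : ℕ}
    (h1 : qd hiso N (qmk N (u l)) (e • qmk N (u 0)) ≤ C)
    (h2 : qd hiso N (qmk N (u 0)) (e • qmk N (u l)) ≤ C) {i : ℕ} (hi : i ≤ l) :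
    qd hiso N (qmk N (u (l - i))) (e • qmk N (u i)) ≤ C + δ' := by
  letI := quoGeo (dot_iso (D := D) (y₀ := y₀) (ρ := ρ) hiso) N
  have hyp := lf0 hiso h
  have hact : ∀ a b : Quo N (Dot (perFam D y₀) ρ), d (e • a) (e • b) = d a b :=
    fun a b => quo_isoAct (dot_iso hiso) N e a b
  have h1' : d (qmk N (u l)) (e • qmk N (u 0)) ≤ C := h1
  have h2' : d (qmk N (u 0)) (e • qmk N (u l)) ≤ C := h2
  have a1 : d (qmk N (u 0)) (qmk N (u i)) = i := by
    have := hu.dq 0 i (Nat.zero_le _) hi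
    rw [Nat.sub_zero] at this
    exact this
  have a2 : d (qmk N (u i)) (qmk N (u l)) = l - i := hu.dq i l hi le_rfl
  have a3 : d (qmk N (u 0)) (qmk N (u (l - i))) = l - i := by
    have := hu.dq 0 (l - i) (Nat.zero_le _) (by omega)
    rw [Nat.sub_zero] at this
    exact this
  have a4 : d (qmk N (u (l - i))) (qmk N (u l)) = i := by
    have := hu.dq (l - i) l (by omega) le_rfl
    have e : l - (l - i) = i := by omega
    rw [e] at this
    exact this
  have a5 : d (qmk N (u 0)) (qmk N (u l)) = l := by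
    have := hu.dq 0 l (Nat.zero_le _) le_rfl
    rw [Nat.sub_zero] at this
    exact this
  have key := hyp (qmk N (u (l - i))) (e • qmk N (u i)) (qmk N (u 0)) (qmk N (u l))
  have b1 := hact (qmk N (u 0)) (qmk N (u i))
  have b2 := hact (qmk N (u i)) (qmk N (u l))
  have t1 := d_tri (e • qmk N (u i)) (e • qmk N (u l)) (qmk N (u 0))
  have t2 := d_tri (e • qmk N (u i)) (e • qmk N (u 0)) (qmk N (u l))
  rw [b2, d_comm (e • qmk N (u l))] at t1
  rw [d_comm (e • qmk N (u i)) (e • qmk N (u 0)), b1, d_comm (e • qmk N (u 0)) (qmk N (u l))] at t2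
  have c1 := d_comm (qmk N (u (l - i))) (qmk N (u 0))
  show d (qmk N (u (l - i))) (e • qmk N (u i)) ≤ C + δ'
  rcases le_total (d (qmk N (u (l - i))) (qmk N (u 0)) + d (e • qmk N (u i)) (qmk N (u l)))
    (d (qmk N (u (l - i))) (qmk N (u l)) + d (e • qmk N (u i)) (qmk N (u 0))) with hm | hm
  · rw [max_eq_right hm] at key
    omega
  · rw [max_eq_left hm] at key
    omega

/-- the square of a near-inversion is short -/
theorem inv_sq (hiso : IsoAct G X) (h : QD p D M N y₀ ρ δ') {u : ℕ → Dot (perFam D y₀) ρ}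
    {l : ℕ} (hu : LG N u l) {e : G ⧸ N} {C : ℕ}
    (h1 : qd hiso N (qmk N (u l)) (e • qmk N (u 0)) ≤ C)
    (h2 : qd hiso N (qmk N (u 0)) (e • qmk N (u l)) ≤ C) {i : ℕ} (hi : i ≤ l) :
    qd hiso N (qmk N (u i)) ((e * e) • qmk N (u i)) ≤ 2 * (C + δ') := by
  letI := quoGeo (dot_iso (D := D) (y₀ := y₀) (ρ := ρ) hiso) N
  have hact : ∀ a b : Quo N (Dot (perFam D y₀) ρ), d (e • a) (e • b) = d a b :=
    fun a b => quo_isoAct (dot_iso hiso) N e a b
  have k1 : d (qmk N (u (l - i))) (e • qmk N (u i)) ≤ C + δ' := inv_mid hiso h hu h1 h2 hi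
  have k2 : d (qmk N (u i)) (e • qmk N (u (l - i))) ≤ C + δ' := by
    have := inv_mid hiso h hu h1 h2 (i := l - i) (by omega)
    have e' : l - (l - i) = i := by omega
    rw [e'] at this
    exact this
  have t := d_tri (qmk N (u i)) (e • qmk N (u (l - i))) ((e * e) • qmk N (u i))
  rw [mul_smul, hact] at t
  show d (qmk N (u i)) ((e * e) • qmk N (u i)) ≤ _
  rw [mul_smul]
  omega

/-- the difference of two near-inversions is short -/
theorem inv_quot (hiso : IsoAct G X) (h : QD p D M N y₀ ρ δ') {u : ℕ → Dot (perFam D y₀) ρ}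
    {l : ℕ} (hu : LG N u l) {e e' : G ⧸ N} {C : ℕ}
    (h1 : qd hiso N (qmk N (u l)) (e • qmk N (u 0)) ≤ C)
    (h2 : qd hiso N (qmk N (u 0)) (e • qmk N (u l)) ≤ C)
    (h1' : qd hiso N (qmk N (u l)) (e' • qmk N (u 0)) ≤ C)
    (h2' : qd hiso N (qmk N (u 0)) (e' • qmk N (u l)) ≤ C) {i : ℕ} (hi : i ≤ l) :
    qd hiso N (qmk N (u i)) ((e⁻¹ * e') • qmk N (u i)) ≤ 2 * (C + δ') := by
  letI := quoGeo (dot_iso (D := D) (y₀ := y₀) (ρ := ρ) hiso) N
  have hact : ∀ a b : Quo N (Dot (perFam D y₀) ρ), d (e • a) (e • b) = d a b :=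
    fun a b => quo_isoAct (dot_iso hiso) N e a b
  have k1 : d (qmk N (u (l - i))) (e • qmk N (u i)) ≤ C + δ' := inv_mid hiso h hu h1 h2 hi
  have k2 : d (qmk N (u (l - i))) (e' • qmk N (u i)) ≤ C + δ' := inv_mid hiso h hu h1' h2' hi
  show d (qmk N (u i)) ((e⁻¹ * e') • qmk N (u i)) ≤ _
  rw [← hact, ← mul_smul, mul_inv_cancel_left]
  have t := d_tri (e • qmk N (u i)) (qmk N (u (l - i))) (e' • qmk N (u i))
  rw [d_comm (e • qmk N (u i)) (qmk N (u (l - i)))] at t
  omega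

/-- powers of a short element -/
theorem qd_pow (hiso : IsoAct G X) (a : Quo N (Dot (perFam D y₀) ρ)) (x : G ⧸ N) {C : ℕ}
    (hx : qd hiso N a (x • a) ≤ C) (n : ℕ) : qd hiso N a (x ^ n • a) ≤ n * C := by
  letI := quoGeo (dot_iso (D := D) (y₀ := y₀) (ρ := ρ) hiso) N
  have hact : ∀ (g : G ⧸ N) (a b : Quo N (Dot (perFam D y₀) ρ)), d (g • a) (g • b) = d a b :=
    fun g a b => quo_isoAct (dot_iso hiso) N g a b
  induction n with
  | zero =>
    show d a (x ^ 0 • a) ≤ _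
    rw [pow_zero, one_smul, d_self]
    exact Nat.zero_le _
  | succ n ih =>
    have ih' : d a (x ^ n • a) ≤ n * C := ih
    have hx' : d a (x • a) ≤ C := hx
    have t := d_tri a (x ^ n • a) (x ^ (n + 1) • a)
    rw [pow_succ, mul_smul, hact] at t
    show d a (x ^ (n + 1) • a) ≤ _
    rw [pow_succ, mul_smul]
    have : (n + 1) * C = n * C + C := by ring
    omega

/-- a near-inversion of a long segment has no small odd order -/
theorem inv_order (hiso : IsoAct G X) (h : QD p D M N y₀ ρ δ') {u : ℕ → Dot (perFam D y₀) ρ}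
    {l : ℕ} (hu : LG N u l) {e : G ⧸ N} {C : ℕ}
    (h1 : qd hiso N (qmk N (u l)) (e • qmk N (u 0)) ≤ C)
    (h2 : qd hiso N (qmk N (u 0)) (e • qmk N (u l)) ≤ C) {n : ℕ} (hn : Odd n)
    (hen : e ^ n = 1) : l ≤ C + (n + 1) * (C + δ') := by
  letI := quoGeo (dot_iso (D := D) (y₀ := y₀) (ρ := ρ) hiso) N
  obtain ⟨k, rfl⟩ := hn
  have e1 : e = (e * e) ^ (k + 1) := by
    rw [← pow_two, ← pow_mul]
    have : 2 * (k + 1) = (2 * k + 1) + 1 := by ring
    rw [this, pow_succ, hen, one_mul]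
  have h3 := inv_sq hiso h hu h1 h2 (Nat.zero_le l)
  have h4 : d (qmk N (u 0)) (e • qmk N (u 0)) ≤ (k + 1) * (2 * (C + δ')) := by
    have := qd_pow hiso _ _ h3 (k + 1)
    rw [← e1] at this
    exact this
  have a5 : d (qmk N (u 0)) (qmk N (u l)) = l := by
    have := hu.dq 0 l (Nat.zero_le _) le_rfl
    rw [Nat.sub_zero] at this
    exact this
  have h1' : d (qmk N (u l)) (e • qmk N (u 0)) ≤ C := h1
  have t := d_tri (qmk N (u 0)) (e • qmk N (u 0)) (qmk N (u l))
  rw [d_comm (e • qmk N (u 0))] at t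
  have : (2 * k + 1 + 1) * (C + δ') = (k + 1) * (2 * (C + δ')) := by ring
  omega

/-- elements of `P_c` have `p`-power order -/
theorem pc_pow (h : QD p D M N y₀ ρ δ') {c : G ⧸ D} {x : G ⧸ N} (hx : x ∈ PC D N c) :
    ∃ k : ℕ, x ^ (p ^ k) = 1 := by
  obtain ⟨k, hk⟩ := h.pidx
  obtain ⟨a, rfl⟩ := QuotientGroup.mk_surjective c
  obtain ⟨g, hg, rfl⟩ := hx
  have h1 : a⁻¹ * g * a ∈ D := by
    have hg' : g • ((a : G) : G ⧸ D) = ((a : G) : G ⧸ D) := hg
    have h1' : ((a : G) : G ⧸ D) = ((g * a : G) : G ⧸ D) := hg'.symm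
    have := QuotientGroup.eq.1 h1'
    rwa [← mul_assoc] at this
  -- the power is in `M`
  have hnrm : (M.subgroupOf D).Normal := by
    constructor
    intro m hm g
    exact h.Mnrm g g.2 m hm
  have h2 : (⟨a⁻¹ * g * a, h1⟩ : D) ^ (p ^ k) ∈ M.subgroupOf D := by
    have := Subgroup.pow_index_mem (H := M.subgroupOf D) (⟨a⁻¹ * g * a, h1⟩ : D)
    have e : (M.subgroupOf D).index = p ^ k := hk
    rwa [e] at this
  have h3 : (a⁻¹ * g * a) ^ (p ^ k) ∈ M := h2
  have h4 : (a⁻¹ * g * a) ^ (p ^ k) ∈ N := h.MN h3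
  refine ⟨k, ?_⟩
  rw [← map_pow]
  show ((g ^ (p ^ k) : G) : G ⧸ N) = 1
  rw [QuotientGroup.eq_one_iff]
  have e : a⁻¹ * g * a = a⁻¹ * g * a⁻¹⁻¹ := by group
  rw [e, conj_pow] at h4
  have := ‹N.Normal›.conj_mem _ h4 a
  have e2 : a * (a⁻¹ * g ^ (p ^ k) * a⁻¹⁻¹) * a⁻¹ = g ^ (p ^ k) := by group
  rwa [e2] at this

end

end Pool.Agent.Lib.H14E
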