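import Pool.Agent.Lib.H14E.LF
import Pool.Agent.Lib.H14E.DotB

/-!
# H14E, D6: facts on the cone-off used by module D6
-/

set_option autoImplicit false
set_option linter.unusedSectionVars false

namespace Pool.Agent.Lib.H14E

open Pool.Agent.Lib.H76.Morse GeoMet

section

variable {X ι : Type} [GeoMet X] {P : PFam X ι} {ρ : ℕ}

/-- (D3) distance to the apex of the own horoball -/
theorem d6_apex {u : Dot P ρ} {c : ι} (h : u.own = some c) :
    d u (Dot.apex c) + u.lev = ρ + 1 := by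
  have h1 := (Dot.lf_lev (Dot.apex c) u).1
  rw [d_comm] at h1
  have h2 : (Dot.apex c : Dot P ρ).lev = ρ + 1 := rfl
  cases u with
  | base x => simp [Dot.own] at h
  | hor c' y k hy hk1 hk2 =>
    simp only [Dot.own, Option.some.injEq] at h
    subst h
    have h3 := Dot.col_le (P := P) (ρ := ρ) hy k (ρ + 1 - k)
    rw [Dot.col_hor c' y hy hk1 hk2, Dot.col_apex c' y hy (by omega)] at h3
    have h4 : (Dot.hor c' y k hy hk1 hk2 : Dot P ρ).lev = k := rfl
    omega
  | apex c' =>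
    simp only [Dot.own, Option.some.injEq] at h
    subst h
    rw [d_self]
    have h4 : (Dot.apex c' : Dot P ρ).lev = ρ + 1 := rfl
    omega

theorem d6_apex_far {u : Dot P ρ} {c : ι} (h : u.own ≠ some c) :
    ρ + 1 ≤ d u (Dot.apex c) := by
  by_contra hcon
  have h1 := (Dot.lf_lev (Dot.apex c) u).2 (by
    rw [d_comm]
    have h2 : (Dot.apex c : Dot P ρ).lev = ρ + 1 := rfl
    omega)
  exact h h1

theorem d6_lev_pos {u : Dot P ρ} {c : ι} (h : u.own = some c) : 1 ≤ u.lev := by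
  cases u with
  | base x => simp [Dot.own] at h
  | hor c' y k hy hk1 hk2 => exact hk1
  | apex c' => simp [Dot.lev]

theorem d6_apex_sep {c c' : ι} (h : c ≠ c') :
    2 * ρ + 2 ≤ d (Dot.apex c : Dot P ρ) (Dot.apex c') := by
  obtain ⟨q, h0, h1, h2⟩ := geo (Dot.apex c : Dot P ρ) (Dot.apex c')
  obtain ⟨n, hn⟩ : ∃ n, n = d (Dot.apex c : Dot P ρ) (Dot.apex c') := ⟨_, rfl⟩
  rw [← hn] at h1 h2 ⊢
  by_contra hcon
  have hn0 : n ≠ 0 := by
    intro h3
    rw [h3, h0] at h1
    exact h (by simpa using h1)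
  obtain ⟨m, hm⟩ : ∃ m, m = n / 2 := ⟨_, rfl⟩
  have h3 := h2 0 m (Nat.zero_le _) (by omega)
  have h4 := h2 (m + 1) n (by omega) le_rfl
  rw [h0] at h3
  rw [h1] at h4
  have h5 : (q m).own = some c := by
    by_contra hne
    have := d6_apex_far hne
    rw [d_comm] at this
    omega
  have h6 : (q (m + 1)).own = some c' := by
    by_contra hne
    have := d6_apex_far hne
    omega
  have h7 := (Dot.lf_step (u := q m) (v := q (m + 1)) (by
    rw [h2 m (m + 1) (by omega) (by omega)]; omega)).2 (d6_lev_pos h5) (d6_lev_pos h6)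
  rw [h5, h6] at h7
  exact h (by simpa using h7)

theorem d6_base_le (x x' : X) : d (Dot.base x : Dot P ρ) (Dot.base x') ≤ d x x' :=
  Dot.base_le x x'

/-- a step moves the base point by at most `2 ^ lev` -/
theorem d6_rel_qb {u v : Dot P ρ} (h : Dot.Rel u v) (hu : u.lev ≤ ρ) (hv : v.lev ≤ ρ) :
    d u.qb v.qb ≤ 2 ^ (max u.lev v.lev) := by
  cases h with
  | @base x x' h =>
    show d x x' ≤ _
    rw [h]
    exact Nat.one_le_two_pow
  | @vert c y hy k hk =>
    rw [Dot.lev_col c y hy (by omega)] at hv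
    rw [Dot.qb_col c y hy hk, Dot.qb_col c y hy hv, d_self]
    exact Nat.zero_le _
  | @hor c y y' hy hy' k h1 h2 h3 h4 =>
    show d y y' ≤ 2 ^ (max k k)
    rw [max_self]
    exact h4

theorem d6_step_qb {u v : Dot P ρ} (h : d u v ≤ 1) (hu : u.lev ≤ ρ) (hv : v.lev ≤ ρ) {r : ℕ}
    (hur : u.lev ≤ r) (hvr : v.lev ≤ r) : d u.qb v.qb ≤ 2 ^ r := by
  rcases Dot.rel_of_d h with h | h | h
  · subst h
    rw [d_self]
    exact Nat.zero_le _
  · exact (d6_rel_qb h hu hv).trans (Nat.pow_le_pow_right (by norm_num) (max_le hur hvr))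
  · rw [d_comm]
    exact (d6_rel_qb h hv hu).trans (Nat.pow_le_pow_right (by norm_num) (max_le hvr hur))

/-- a path of levels `≤ min r ρ` moves the base point by at most `2 ^ r` at each step -/
theorem d6_path_qb {q : ℕ → Dot P ρ} {s n r : ℕ}
    (hq : ∀ i, s ≤ i → i < s + n → d (q i) (q (i + 1)) ≤ 1)
    (hl : ∀ i, s ≤ i → i ≤ s + n → (q i).lev ≤ ρ ∧ (q i).lev ≤ r) :
    d (q s).qb (q (s + n)).qb ≤ n * 2 ^ r := by
  induction n with
  | zero => rw [Nat.add_zero, d_self]; exact Nat.zero_le _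
  | succ n ih =>
    have h1 := ih (fun i h1 h2 => hq i h1 (by omega)) (fun i h1 h2 => hl i h1 (by omega))
    have h2 := d6_step_qb (hq (s + n) (by omega) (by omega)) (hl (s + n) (by omega) (by omega)).1
      (hl (s + n + 1) (by omega) (by omega)).1 (hl (s + n) (by omega) (by omega)).2
      (hl (s + n + 1) (by omega) (by omega)).2
    have h3 := d_tri (q s).qb (q (s + n)).qb (q (s + n + 1)).qb
    have e : (n + 1) * 2 ^ r = n * 2 ^ r + 2 ^ r := by ring
    rw [e]
    exact h3.trans (Nat.add_le_add h1 h2)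

/-- (D5) -/
theorem d6_base {x x' : X} {r : ℕ} (h : d (Dot.base x : Dot P ρ) (Dot.base x') ≤ r)
    (hr : r < 2 * ρ + 2) : d x x' ≤ r * 2 ^ r := by
  obtain ⟨q, h0, h1, h2⟩ := geo (Dot.base x : Dot P ρ) (Dot.base x')
  obtain ⟨n, hn⟩ : ∃ n, n = d (Dot.base x : Dot P ρ) (Dot.base x') := ⟨_, rfl⟩
  rw [← hn] at h1 h2 h
  have hlev : ∀ i ≤ n, (q i).lev ≤ i ∧ (q i).lev ≤ n - i := by
    intro i hi
    have h3 := (Dot.lf_lev (q i) (q 0)).1
    have h4 := (Dot.lf_lev (q i) (q n)).1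
    rw [d_comm, h2 0 i (Nat.zero_le _) hi, h0] at h3
    rw [h2 i n hi le_rfl, h1] at h4
    have e1 : (Dot.base x : Dot P ρ).lev = 0 := rfl
    have e2 : (Dot.base x' : Dot P ρ).lev = 0 := rfl
    omega
  have key := d6_path_qb (q := q) (s := 0) (n := n) (r := r)
    (fun i _ hi => by rw [h2 i (i + 1) (by omega) (by omega)]; omega)
    (fun i _ hi => by have := hlev i (by omega); omega)
  rw [Nat.zero_add, h0, h1] at key
  have key' : d x x' ≤ n * 2 ^ r := key
  exact key'.trans (Nat.mul_le_mul_right _ h)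

theorem d6_adj_base {x : X} {u : Dot P ρ} {c : ι} (h : d (Dot.base x : Dot P ρ) u ≤ 1)
    (hu : u.own = some c) (hl : u.lev ≤ ρ) : x ∈ P.Y c := by
  have hul : 1 ≤ u.lev := by
    cases u with
    | base x => simp [Dot.own] at hu
    | hor c' y k hy hk1 hk2 => exact hk1
    | apex c' => simp [Dot.lev]
  have hrel : Dot.Rel (Dot.base x : Dot P ρ) u ∨ Dot.Rel u (Dot.base x) := by
    rcases Dot.rel_of_d h with h | h | h
    · subst h
      simp [Dot.lev] at hul
    · exact Or.inl h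
    · exact Or.inr h
  have hqb : (u.qb) ∈ P.Y c := Dot.qb_mem u c hu
  -- the step does not change the base point
  have key : ∀ v w : Dot P ρ, Dot.Rel v w → v.lev ≤ ρ → w.lev ≤ ρ →
      (v.lev = 0 ∧ 1 ≤ w.lev) ∨ (w.lev = 0 ∧ 1 ≤ v.lev) → v.qb = w.qb := by
    intro v w hvw hv hw hc
    cases hvw with
    | @base x x' h =>
      simp [Dot.lev] at hc
    | @vert c y hy k hk =>
      rw [Dot.lev_col c y hy (by omega)] at hw
      rw [Dot.qb_col c y hy hk, Dot.qb_col c y hy hw]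
    | @hor c y y' hy hy' k h1 h2 h3 h4 =>
      simp only [Dot.lev] at hc
      omega
  have e1 : (Dot.base x : Dot P ρ).lev = 0 := rfl
  have e2 : (Dot.base x : Dot P ρ).qb = x := rfl
  rcases hrel with h | h
  · have := key _ _ h (by rw [e1]; exact Nat.zero_le _) hl (Or.inl ⟨e1, hul⟩)
    rw [e2] at this
    rw [this]
    exact hqb
  · have := key _ _ h hl (by rw [e1]; exact Nat.zero_le _) (Or.inr ⟨e1, hul⟩)
    rw [e2] at this
    rw [← this]
    exact hqb

theorem d6_lev_zero {u : Dot P ρ} (h : u.lev = 0) : ∃ x, u = Dot.base x := by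
  cases u with
  | base x => exact ⟨x, rfl⟩
  | hor c y k hy h1 h2 =>
    simp only [Dot.lev] at h
    omega
  | apex c => simp [Dot.lev] at h

/-- the owner is constant along a path of positive levels -/
theorem d6_own_const {u : ℕ → Dot P ρ} {s m : ℕ}
    (hu : ∀ i, s ≤ i → i < s + m → d (u i) (u (i + 1)) ≤ 1)
    (hl : ∀ i, s ≤ i → i ≤ s + m → 1 ≤ (u i).lev) :
    ∀ i, s ≤ i → i ≤ s + m → (u i).own = (u s).own := by
  intro i hi
  obtain ⟨j, rfl⟩ := Nat.exists_eq_add_of_le hi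
  induction j with
  | zero => intro _; rfl
  | succ j ih =>
    intro hj
    rw [← ih (by omega) (by omega)]
    exact ((Dot.lf_step (hu (s + j) (by omega) (by omega))).2 (hl _ (by omega) (by omega))
      (hl _ (by omega) hj)).symm

/-- a vertex of level `k ≤ ρ` is the point of level `k` of the column over its base point -/
theorem d6_col_qb {u : Dot P ρ} {c : ι} (h : u.own = some c) (hl : u.lev ≤ ρ) :
    u = Dot.col c u.qb (Dot.qb_mem u c h) u.lev := by
  cases u with
  | base x => simp [Dot.own] at h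
  | hor c' y k hy hk1 hk2 =>
    simp only [Dot.own, Option.some.injEq] at h
    subst h
    exact (Dot.col_hor c' y hy hk1 hk2).symm
  | apex c' => simp [Dot.lev] at hl

/-- two vertices of a horoball over near points are near -/
theorem d6_col_near {c : ι} {y y' : X} (hy : y ∈ P.Y c) (hy' : y' ∈ P.Y c) {j : ℕ}
    (hj1 : 1 ≤ j) (h : d y y' ≤ 2 ^ j) :
    d (Dot.col c y hy j : Dot P ρ) (Dot.col c y' hy' j) ≤ 1 := by
  by_cases hj : j ≤ ρ
  · by_cases hne : y = y'
    · subst hne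
      rw [d_self]
      omega
    · rw [Dot.col_hor c y hy hj1 hj, Dot.col_hor c y' hy' hj1 hj]
      exact Dot.d_rel_le (Dot.Rel.hor hy hy' hj1 hj hne h)
  · rw [Dot.col_apex c y hy (by omega), Dot.col_apex c y' hy' (by omega), d_self]
    omega

end

/-- (D6 of section B) a long geodesic with positive levels has a high point -/
theorem d6_long (r : ℕ) : ∃ N₀ : ℕ, ∀ (X ι : Type) [GeoMet X] (P : PFam X ι) (ρ : ℕ)
    (u : ℕ → Dot P ρ) (s : ℕ),
    (∀ i j, s ≤ i → i ≤ j → j ≤ s + N₀ → d (u i) (u j) = j - i) →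
    (∀ i, s ≤ i → i ≤ s + N₀ → 1 ≤ (u i).lev) →
    ∃ i, s ≤ i ∧ i ≤ s + N₀ ∧ r < (u i).lev := by
  refine ⟨2 ^ (2 * r + 4), ?_⟩
  intro X ι _ P ρ u s hd hl
  by_contra hcon
  push Not at hcon
  obtain ⟨N, hN⟩ : ∃ N, N = 2 ^ (2 * r + 4) := ⟨_, rfl⟩
  rw [← hN] at hd hl hcon
  have hstep : ∀ i, s ≤ i → i < s + N → d (u i) (u (i + 1)) ≤ 1 := by
    intro i h1 h2
    rw [hd i (i + 1) h1 (by omega) (by omega)]
    omega
  have hNbig : 6 * r + 10 ≤ N := by
    have h1 : r + 1 ≤ 2 ^ r := Nat.lt_two_pow_self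
    have h2 : N = 16 * (2 ^ r * 2 ^ r) := by
      rw [hN, show 2 * r + 4 = r + r + 4 by ring, pow_add, pow_add]
      ring
    have h3 : 1 ≤ 2 ^ r := Nat.one_le_two_pow
    nlinarith
  obtain ⟨c, hc⟩ := Dot.lf_own (u s) (hl s le_rfl (by omega))
  have ho := d6_own_const (u := u) hstep hl
  have hc' : (u (s + N)).own = some c := by rw [ho _ (by omega) le_rfl, hc]
  have hdist := hd s (s + N) le_rfl (by omega) le_rfl
  by_cases hρ : r ≤ ρ
  · -- go up to level `3 r + 4`
    have hlev : ∀ i, s ≤ i → i ≤ s + N → (u i).lev ≤ ρ ∧ (u i).lev ≤ r := by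
      intro i h1 h2
      have := hcon i h1 h2
      omega
    have h1 := d6_path_qb (q := u) (s := s) (n := N) (r := r) hstep hlev
    have h2 : N * 2 ^ r = 2 ^ (3 * r + 4) := by
      rw [hN, ← pow_add]
      congr 1
      ring
    rw [h2] at h1
    have e1 := d6_col_qb hc (hlev s le_rfl (by omega)).1
    have e2 := d6_col_qb hc' (hlev (s + N) (by omega) le_rfl).1
    have l1 := (hlev s le_rfl (by omega)).2
    have l2 := (hlev (s + N) (by omega) le_rfl).2
    have m1 := Dot.qb_mem (u s) c hc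
    have m2 := Dot.qb_mem (u (s + N)) c hc'
    have c1 := Dot.col_le (P := P) (ρ := ρ) m1 (u s).lev (3 * r + 4 - (u s).lev)
    have c2 := Dot.col_le (P := P) (ρ := ρ) m2 (u (s + N)).lev (3 * r + 4 - (u (s + N)).lev)
    have c3 := d6_col_near (P := P) (ρ := ρ) m1 m2 (j := 3 * r + 4) (by omega) h1
    rw [show (u s).lev + (3 * r + 4 - (u s).lev) = 3 * r + 4 by omega, ← e1] at c1
    rw [show (u (s + N)).lev + (3 * r + 4 - (u (s + N)).lev) = 3 * r + 4 by omega, ← e2] at c2
    have t1 := d_tri (u s) (Dot.col c (u s).qb m1 (3 * r + 4)) (u (s + N))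
    have t2 := d_tri (Dot.col c (u s).qb m1 (3 * r + 4) : Dot P ρ)
      (Dot.col c (u (s + N)).qb m2 (3 * r + 4)) (u (s + N))
    rw [d_comm (Dot.col c (u (s + N)).qb m2 (3 * r + 4))] at t2
    omega
  · have h3 := d6_apex hc
    have h4 := d6_apex hc'
    have t := d_tri (u s) (Dot.apex c) (u (s + N))
    rw [d_comm (Dot.apex c)] at t
    omega

end Pool.Agent.Lib.H14E
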