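import Pool.Agent.Lib.H14E.D6b
import Pool.Agent.Lib.H14E.D6z

/-!
# H14E, D6, part c: the middle of a near-inversion
-/

set_option autoImplicit false
set_option linter.unusedSectionVars false
set_option linter.style.haveILetI false

namespace Pool.Agent.Lib.H14E

open Pool.Agent.Lib.H76.Morse GeoMet

section

variable {p : ℕ} {G X : Type} [Group G] [GeoMet X] [MulAction G X]
  {D M N : Subgroup G} [N.Normal] {y₀ : X} {ρ δ' : ℕ}

theorem LG.step {u : ℕ → Dot (perFam D y₀) ρ} {l : ℕ} (hu : LG N u l) {i : ℕ} (hi : i < l) :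
    d (u i) (u (i + 1)) ≤ 1 := by
  rw [hu.du i (i + 1) (by omega) hi]
  omega

theorem orderOf_odd (hp : p.Prime) (hp2 : p ≠ 2) (hT : PTors p G) {g : G}
    (hg : IsOfFinOrder g) : Odd (orderOf g) := by
  obtain ⟨k, hk⟩ := hT g hg
  have h1 : Odd (p ^ k) := (hp.odd_of_ne_two hp2).pow
  exact h1.of_dvd_nat (orderOf_dvd_of_pow_eq_one hk)

/-- lifts of near-inversions have infinite order -/
theorem inv_not_fin (hp : p.Prime) (hp2 : p ≠ 2) (hT : PTors p G) (hiso : IsoAct G X)
    (h : QD p D M N y₀ ρ δ') {u : ℕ → Dot (perFam D y₀) ρ} {l : ℕ} (hu : LG N u l)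
    {e : G ⧸ N} {C : ℕ}
    (h1 : qd hiso N (qmk N (u l)) (e • qmk N (u 0)) ≤ C)
    (h2 : qd hiso N (qmk N (u 0)) (e • qmk N (u l)) ≤ C) {n₀ : ℕ}
    (hn₀ : ∀ g : G, IsOfFinOrder g → orderOf g ≤ n₀) (hl : C + (n₀ + 1) * (C + δ') < l)
    {g : G} (hg : (g : G ⧸ N) = e) : ¬ IsOfFinOrder g := by
  intro hf
  have h3 : e ^ (orderOf g) = 1 := by
    rw [← hg]
    show ((g ^ orderOf g : G) : G ⧸ N) = 1
    rw [pow_orderOf_eq_one]
    rfl
  have h4 := inv_order hiso h hu h1 h2 (orderOf_odd hp hp2 hT hf) h3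
  have h5 : (orderOf g + 1) * (C + δ') ≤ (n₀ + 1) * (C + δ') :=
    Nat.mul_le_mul_right _ (by have := hn₀ g hf; omega)
  omega

/-- lifts of the squares have infinite order -/
theorem inv_sq_not_fin (hp : p.Prime) (hp2 : p ≠ 2) (hT : PTors p G) (hiso : IsoAct G X)
    (h : QD p D M N y₀ ρ δ') {u : ℕ → Dot (perFam D y₀) ρ} {l : ℕ} (hu : LG N u l)
    {e : G ⧸ N} {C : ℕ}
    (h1 : qd hiso N (qmk N (u l)) (e • qmk N (u 0)) ≤ C)
    (h2 : qd hiso N (qmk N (u 0)) (e • qmk N (u l)) ≤ C) {n₀ : ℕ}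
    (hn₀ : ∀ g : G, IsOfFinOrder g → orderOf g ≤ n₀) (hl : C + (n₀ + 1) * (C + δ') < l)
    {c : G ⧸ D} (hec : e ∈ PC D N c)
    {k : G} (hk : (k : G ⧸ N) = e * e) : ¬ IsOfFinOrder k := by
  intro hf
  have hodd := orderOf_odd hp hp2 hT hf
  obtain ⟨a, ha⟩ := pc_pow h hec
  have h3 : e ^ (orderOf k) = 1 := by
    have h4 : (e ^ orderOf k) ^ 2 = 1 := by
      rw [← pow_mul, mul_comm, pow_mul, pow_two, ← hk]
      show ((k ^ orderOf k : G) : G ⧸ N) = 1
      rw [pow_orderOf_eq_one]
      rfl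
    have h5 : (e ^ orderOf k) ^ (p ^ a) = 1 := by
      rw [← pow_mul, mul_comm, pow_mul, ha, one_pow]
    have h6 : orderOf (e ^ orderOf k) ∣ Nat.gcd 2 (p ^ a) :=
      Nat.dvd_gcd (orderOf_dvd_of_pow_eq_one h4) (orderOf_dvd_of_pow_eq_one h5)
    have hodd' : Odd (p ^ a) := (hp.odd_of_ne_two hp2).pow
    rw [(Nat.coprime_two_left.2 hodd' : Nat.gcd 2 (p ^ a) = 1), Nat.dvd_one,
      orderOf_eq_one_iff] at h6
    exact h6
  have h4 := inv_order hiso h hu h1 h2 hodd h3
  have h5 : (orderOf k + 1) * (C + δ') ≤ (n₀ + 1) * (C + δ') :=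
    Nat.mul_le_mul_right _ (by have := hn₀ k hf; omega)
  omega

/-- **A1.** The lift of a near-inversion along the good range. -/
theorem inv_lift (hiso : IsoAct G X)
    (h : QD p D M N y₀ ρ δ') {u : ℕ → Dot (perFam D y₀) ρ} {l : ℕ} (hu : LG N u l)
    {e : G ⧸ N} {C : ℕ}
    (h1 : qd hiso N (qmk N (u l)) (e • qmk N (u 0)) ≤ C)
    (h2 : qd hiso N (qmk N (u 0)) (e • qmk N (u l)) ≤ C) {k a : ℕ} (ha : a = l / 2)
    (hk : k ≤ a) (hR : ∀ i, a - k ≤ i → i ≤ l - a + k → (u i).lev + (C + δ') + 1 ≤ ρ)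
    {g : G} (hg : (g : G ⧸ N) = e) (hg0 : d (u (l - a)) (g • u a) ≤ C + δ') :
    ∀ i, a - k ≤ i → i ≤ l - a + k → d (u (l - i)) (g • u i) ≤ C + δ' := by
  intro i hi1 hi2
  rcases le_total i a with hia | hia
  · -- left
    have key := lf3' hiso h (q := fun j => u (a - j)) (q' := fun j => u (l - a + j)) (n := k)
      (r := C + δ') (x := e) (g := g)
      (fun j hj => by
        have e1 : a - j = a - (j + 1) + 1 := by omega
        rw [e1, d_comm]
        exact hu.step (by omega))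
      (fun j hj => by
        exact hu.step (i := l - a + j) (by omega))
      (fun j hj => hR _ (by omega) (by omega))
      (fun j hj => by
        have := inv_mid hiso h hu h1 h2 (i := a - j) (by omega)
        have e1 : l - (a - j) = l - a + j := by omega
        rwa [e1] at this)
      hg (by simpa using hg0) (a - i) (by omega)
    have e1 : a - (a - i) = i := by omega
    have e2 : l - a + (a - i) = l - i := by omega
    simp only [e1, e2] at key
    exact key
  · -- right
    have key := lf3' hiso h (q := fun j => u (a + j)) (q' := fun j => u (l - a - j))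
      (n := l - a + k - a)
      (r := C + δ') (x := e) (g := g)
      (fun j hj => by
        exact hu.step (i := a + j) (by omega))
      (fun j hj => by
        have e1 : l - a - j = l - a - (j + 1) + 1 := by omega
        rw [e1, d_comm]
        exact hu.step (by omega))
      (fun j hj => hR _ (by omega) (by omega))
      (fun j hj => by
        have := inv_mid hiso h hu h1 h2 (i := a + j) (by omega)
        have e1 : l - (a + j) = l - a - j := by omega
        rwa [e1] at this)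
      hg (by simpa using hg0) (i - a) (by omega)
    have e1 : a + (i - a) = i := by omega
    have e2 : l - a - (i - a) = l - i := by omega
    simp only [e1, e2] at key
    exact key

/-- the square of the lift is short -/
theorem inv_lift_sq (hiso : IsoAct G X) {u : ℕ → Dot (perFam D y₀) ρ} {l K i : ℕ} {g : G}
    (h1 : d (u (l - i)) (g • u i) ≤ K) (h2 : d (u (l - (l - i))) (g • u (l - i)) ≤ K)
    (hi : i ≤ l) : d (u i) ((g * g) • u i) ≤ 2 * K := by
  have e : l - (l - i) = i := by omega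
  rw [e] at h2
  have t := d_tri (u i) (g • u (l - i)) ((g * g) • u i)
  rw [mul_smul, dot_iso hiso] at t
  rw [mul_smul]
  omega

/-- **A3.** Points of level `0` of the good range are near the middle. -/
theorem inv_lev_zero (hiso : IsoAct G X)
    {u : ℕ → Dot (perFam D y₀) ρ} {l : ℕ} (hu : LG N u l) {K i C₂ : ℕ} {g : G}
    (h1 : d (u (l - i)) (g • u i) ≤ K) (h2 : d (u (l - (l - i))) (g • u (l - i)) ≤ K)
    (hi : i ≤ l) (hlev : (u i).lev = 0)
    (hC₂ : ∀ (x : X) (g : G), d x ((g * g) • x) ≤ 2 * K * 2 ^ (2 * K) → d x (g • x) ≤ C₂)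
    (hρ : K ≤ ρ) : l - 2 * i ≤ C₂ + K ∧ 2 * i - l ≤ C₂ + K := by
  obtain ⟨x, hx⟩ := d6_lev_zero hlev
  have h3 := inv_lift_sq hiso h1 h2 hi
  rw [hx, Dot.smul_base] at h3
  have h4 := hC₂ x g (d6_base h3 (by omega))
  have h5 : d (u i) (g • u i) ≤ C₂ := by
    rw [hx, Dot.smul_base]
    exact (d6_base_le x (g • x)).trans h4
  have t := d_tri (u i) (g • u i) (u (l - i))
  rw [d_comm (g • u i)] at t
  rcases le_total i (l - i) with hil | hil
  · have := hu.du i (l - i) hil (by omega)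
    omega
  · have := hu.du (l - i) i hil hi
    rw [d_comm] at this
    omega

end

end Pool.Agent.Lib.H14E
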