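import Pool.Agent.Lib.H14E.D6c

/-!
# H14E, D6, part d: the dichotomy of the middle of a near-inversion
-/

set_option autoImplicit false
set_option linter.unusedSectionVars false

namespace Pool.Agent.Lib.H14E

open Pool.Agent.Lib.H76.Morse GeoMet

section

variable {p : ℕ} {G X : Type} [Group G] [GeoMet X] [MulAction G X]
  {D M N : Subgroup G} [N.Normal] {y₀ : X} {ρ δ' : ℕ}

/-- **A4.** The two wings of the good range are in one horoball fixed by the lift. -/
theorem inv_own (hG : Geom G X) (hP : Periph D y₀)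
    {u : ℕ → Dot (perFam D y₀) ρ} {l : ℕ} (hu : LG N u l) {K C₂ N₀ k a : ℕ} (ha : a = l / 2)
    (hk : k ≤ a) {g : G} (hgf : ¬ IsOfFinOrder g)
    (hg : ∀ i, a - k ≤ i → i ≤ l - a + k → d (u (l - i)) (g • u i) ≤ K)
    (hC₂ : ∀ (x : X) (g : G), d x ((g * g) • x) ≤ 2 * K * 2 ^ (2 * K) → d x (g • x) ≤ C₂)
    (hN₀ : ∀ s : ℕ, (∀ i j, s ≤ i → i ≤ j → j ≤ s + N₀ → d (u i) (u j) = j - i) →
      (∀ i, s ≤ i → i ≤ s + N₀ → 1 ≤ (u i).lev) →
      ∃ i, s ≤ i ∧ i ≤ s + N₀ ∧ 2 * K < (u i).lev)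
    (hρ : K ≤ ρ) (hkK : C₂ + K + 1 + N₀ ≤ k) :
    ∃ c : G ⧸ D, g • c = c ∧
      (∀ i, a - k ≤ i → i ≤ a - (C₂ + K + 1) → (u i).own = some c) ∧
      (∀ i, l - a + (C₂ + K + 1) ≤ i → i ≤ l - a + k → (u i).own = some c) := by
  have hiso := hG.iso
  -- positive levels on the wings
  have hz : ∀ i, a - k ≤ i → i ≤ l - a + k → (u i).lev = 0 →
      l - 2 * i ≤ C₂ + K ∧ 2 * i - l ≤ C₂ + K := by
    intro i hi1 hi2 hlev
    exact inv_lev_zero hiso hu (hg i hi1 hi2) (hg (l - i) (by omega) (by omega)) (by omega) hlev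
      hC₂ hρ
  have hleft : ∀ i, a - k ≤ i → i ≤ a - (C₂ + K + 1) → 1 ≤ (u i).lev := by
    intro i hi1 hi2
    by_contra h0
    have := hz i hi1 (by omega) (by omega)
    omega
  have hright : ∀ i, l - a + (C₂ + K + 1) ≤ i → i ≤ l - a + k → 1 ≤ (u i).lev := by
    intro i hi1 hi2
    by_contra h0
    have := hz i (by omega) hi2 (by omega)
    omega
  -- owners are constant
  obtain ⟨c₂, hc₂⟩ := Dot.lf_own (u (a - k)) (hleft _ le_rfl (by omega))
  obtain ⟨c₁, hc₁⟩ := Dot.lf_own (u (l - a + (C₂ + K + 1))) (hright _ le_rfl (by omega))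
  have ho2 : ∀ i, a - k ≤ i → i ≤ a - (C₂ + K + 1) → (u i).own = some c₂ := by
    intro i hi1 hi2
    rw [← hc₂]
    exact d6_own_const (u := u) (s := a - k) (m := a - (C₂ + K + 1) - (a - k))
      (fun i h1 h2 => hu.step (by omega)) (fun i h1 h2 => hleft i h1 (by omega)) i hi1 (by omega)
  have ho1 : ∀ i, l - a + (C₂ + K + 1) ≤ i → i ≤ l - a + k → (u i).own = some c₁ := by
    intro i hi1 hi2
    rw [← hc₁]
    exact d6_own_const (u := u) (s := l - a + (C₂ + K + 1)) (m := l - a + k - (l - a + (C₂ + K + 1)))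
      (fun i h1 h2 => hu.step (by omega)) (fun i h1 h2 => hright i h1 (by omega)) i hi1 (by omega)
  -- a deep point
  obtain ⟨i₁, hi1, hi2, hlev⟩ := hN₀ (a - k) (fun i j _ hij hj => hu.du i j hij (by omega))
    (fun i h1 h2 => hleft i h1 (by omega))
  have hoi := ho2 i₁ hi1 (by omega)
  have hsq := inv_lift_sq hiso (hg i₁ hi1 (by omega)) (hg (l - i₁) (by omega) (by omega))
    (by omega)
  -- `g * g` fixes `c₂`
  have hgg : (g * g) • c₂ = c₂ := by
    have h1 := (Dot.lf_lev (u i₁) ((g * g) • u i₁)).2 (by omega)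
    rw [Dot.own_smul, hoi] at h1
    simpa using h1
  -- `c₁ = g c₂`
  have hgc : g • c₂ = c₁ := by
    have h1 := (Dot.lf_lev (g • u i₁) (u (l - i₁))).2 (by
      rw [Dot.lev_smul, d_comm]
      have := hg i₁ hi1 (by omega)
      omega)
    rw [Dot.own_smul, hoi, ho1 (l - i₁) (by omega) (by omega)] at h1
    simpa using h1.symm
  by_cases hne : c₁ = c₂
  · subst hne
    exact ⟨c₁, hgc, ho2, ho1⟩
  · exfalso
    have h1 : (g * g) • c₁ = c₁ := by
      rw [← hgc, ← mul_smul, mul_assoc, mul_smul, hgg]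
    have h2 := mal_coset hG hP h1 hgg hne
    apply hgf
    obtain ⟨n, hn, h6⟩ := isOfFinOrder_iff_pow_eq_one.1 h2
    refine isOfFinOrder_iff_pow_eq_one.2 ⟨2 * n, by omega, ?_⟩
    rw [pow_mul, pow_two, h6]

/-- (LF4) for `e` at the middle -/
theorem inv_pc_mid (hiso : IsoAct G X)
    (h : QD p D M N y₀ ρ δ') {u : ℕ → Dot (perFam D y₀) ρ} {l : ℕ} (hu : LG N u l)
    {e : G ⧸ N} {C : ℕ}
    (h1 : qd hiso N (qmk N (u l)) (e • qmk N (u 0)) ≤ C)
    (h2 : qd hiso N (qmk N (u 0)) (e • qmk N (u l)) ≤ C) {a : ℕ} (ha : a = l / 2)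
    (hlev : C + δ' + 1 < (u a).lev) :
    ∃ c : G ⧸ D, (u a).own = some c ∧ e ∈ PC D N c := by
  have h3 := inv_mid hiso h hu h1 h2 (i := a) (by omega)
  have h4 : qd hiso N (qmk N (u a)) (e • qmk N (u a)) ≤ C + δ' + 1 := by
    have t : od N (u a) (u (l - a)) ≤ 1 := by
      rw [hu.dq a (l - a) (by omega) (by omega)]
      omega
    have t' : qd hiso N (qmk N (u a)) (qmk N (u (l - a))) ≤ 1 := t
    let I := quoGeo (dot_iso (D := D) (y₀ := y₀) (ρ := ρ) hiso) N
    have t2 : qd hiso N (qmk N (u a)) (e • qmk N (u a)) ≤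
        qd hiso N (qmk N (u a)) (qmk N (u (l - a))) +
        qd hiso N (qmk N (u (l - a))) (e • qmk N (u a)) :=
      I.d_tri _ _ _
    omega
  obtain ⟨c, hc, hpc, -⟩ := lf4 hiso e (u a) _ hlev h4
  exact ⟨c, hc, hpc⟩

/-- **Dichotomy** for the middle of a near-inversion. -/
theorem inv_dich (hp : p.Prime) (hp2 : p ≠ 2) (hG : Geom G X) (hT : PTors p G)
    (hP : Periph D y₀) (h : QD p D M N y₀ ρ δ') {u : ℕ → Dot (perFam D y₀) ρ} {l : ℕ}
    (hu : LG N u l) {e : G ⧸ N} {C : ℕ}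
    (h1 : qd hG.iso N (qmk N (u l)) (e • qmk N (u 0)) ≤ C)
    (h2 : qd hG.iso N (qmk N (u 0)) (e • qmk N (u l)) ≤ C) {n₀ C₂ N₀ K₁ a K : ℕ}
    (ha : a = l / 2) (hK : K = C + δ')
    (hn₀ : ∀ g : G, IsOfFinOrder g → orderOf g ≤ n₀) (hl : C + (n₀ + 1) * (C + δ') < l)
    (hC₂ : ∀ (x : X) (g : G), d x ((g * g) • x) ≤ 2 * K * 2 ^ (2 * K) → d x (g • x) ≤ C₂)
    (hN₀ : ∀ s : ℕ, (∀ i j, s ≤ i → i ≤ j → j ≤ s + N₀ → d (u i) (u j) = j - i) →
      (∀ i, s ≤ i → i ≤ s + N₀ → 1 ≤ (u i).lev) →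
      ∃ i, s ≤ i ∧ i ≤ s + N₀ ∧ 2 * K < (u i).lev)
    (hK₁ : C₂ + N₀ + 4 * K + 10 ≤ K₁) (haK : K₁ ≤ a) (hρ : 2 * K₁ ≤ ρ) :
    (∃ (c : G ⧸ D) (g : G), (g : G ⧸ N) = e ∧ g • c = c ∧ (∀ i ≤ l, (u i).lev + K + 1 ≤ ρ) ∧
      (∀ i ≤ l, d (u (l - i)) (g • u i) ≤ K) ∧ (u 0).own = some c ∧ (u l).own = some c) ∨
    (∃ c : G ⧸ D, e ∈ PC D N c ∧ d (u a) (Dot.apex c) ≤ 2 * K₁) := by
  have hiso := hG.iso
  -- the lift
  obtain ⟨g, hge, hgd⟩ := lf1 (N := N) hiso e (u (l - a)) (u a)
  have hg0 : d (u (l - a)) (g • u a) ≤ C + δ' := by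
    rw [hgd]
    exact inv_mid hiso h hu h1 h2 (by omega)
  have hgf := inv_not_fin hp hp2 hT hiso h hu h1 h2 hn₀ hl hge
  by_cases hall : ∀ i ≤ l, (u i).lev + K + 1 ≤ ρ
  · left
    have hgl := inv_lift hiso h hu h1 h2 ha le_rfl
      (fun i _ hi => by have := hall i (by omega); omega) hge hg0
    obtain ⟨c, hc, hc1, hc2⟩ := inv_own (N₀ := N₀) (K := K) hG hP hu ha le_rfl hgf
      (fun i h1 h2 => by have := hgl i h1 h2; omega) hC₂ hN₀ (by omega) (by omega)
    refine ⟨c, g, hge, hc, hall, fun i hi => ?_, hc1 0 (by omega) (by omega),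
      hc2 l (by omega) (by omega)⟩
    have := hgl i (by omega) (by omega)
    omega
  · right
    push Not at hall
    -- near the apex from the middle
    have hmid : ∀ j, j ≤ l → (∀ t : ℕ, t ≤ K₁ → a ≤ j + t + 2 → j ≤ a + t + 2 → 
        ρ < (u j).lev + K + 1 →
        ∃ c : G ⧸ D, e ∈ PC D N c ∧ d (u a) (Dot.apex c) ≤ 2 * K₁) := by
      intro j hj t ht h3 h4 h5
      obtain ⟨c, hc⟩ := Dot.lf_own (u j) (by omega)
      have h6 := d6_apex hc
      have h7 : d (u a) (u j) ≤ t + 2 := by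
        rcases le_total a j with hh | hh
        · rw [hu.du a j hh hj]
          omega
        · rw [d_comm, hu.du j a hh (by omega)]
          omega
      have h8 := d_tri (u a) (u j) (Dot.apex c)
      have h9 : (u a).own = some c := by
        by_contra hne
        have := d6_apex_far hne
        omega
      have h10 := d6_apex h9
      obtain ⟨c', hc', hpc⟩ := inv_pc_mid hiso h hu h1 h2 ha (by omega)
      rw [h9] at hc'
      obtain rfl : c = c' := by simpa using hc'
      exact ⟨c, hpc, by omega⟩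
    obtain ⟨j₀, hj₀, hbad⟩ := hall
    -- maximal good range
    have hex : ∃ k, ∃ j, j ≤ l ∧ a ≤ j + k ∧ j ≤ l - a + k ∧ ρ < (u j).lev + K + 1 :=
      ⟨l, j₀, hj₀, by omega, by omega, hbad⟩
    classical
    obtain ⟨j, hj, hj1, hj2, hj3⟩ := Nat.find_spec hex
    set k' := Nat.find hex with hk'
    have hmin : ∀ k, k < k' → ∀ j, j ≤ l → a ≤ j + k → j ≤ l - a + k →
        (u j).lev + K + 1 ≤ ρ := by
      intro k hk j h3 h4 h5
      by_contra h6
      exact Nat.find_min hex hk ⟨j, h3, h4, h5, by omega⟩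
    by_cases hk'K : k' ≤ K₁
    · exact hmid j hj k' hk'K (by omega) (by omega) hj3
    · exfalso
      obtain ⟨k, hkk⟩ : ∃ k, k' = k + 1 := ⟨k' - 1, by omega⟩
      have hgood : ∀ i, a - k ≤ i → i ≤ l - a + k → i ≤ l → (u i).lev + K + 1 ≤ ρ :=
        fun i h3 h4 h5 => hmin k (by omega) i h5 (by omega) (by omega)
      -- `k < a`
      have hka : k < a := by
        by_contra hka
        have := hmin k (by omega) j hj (by omega) (by omega)
        omega
      have hgl := inv_lift hiso h hu h1 h2 ha hka.le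
        (fun i h3 h4 => by have := hgood i h3 h4 (by omega); omega) hge hg0
      have hgl' : ∀ i, a - k ≤ i → i ≤ l - a + k → d (u (l - i)) (g • u i) ≤ K :=
        fun i h3 h4 => by have := hgl i h3 h4; omega
      obtain ⟨c, hc, hc1, hc2⟩ := inv_own (N₀ := N₀) (K := K) hG hP hu ha hka.le hgf
        hgl' hC₂ hN₀ (by omega) (by omega)
      -- the bad point is next to the range
      have hjj : j + k + 1 = a ∨ j = l - a + k + 1 := by
        by_contra hcon
        have := hmin k (by omega) j hj (by omega) (by omega)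
        omega
      rcases hjj with hjj | hjj
      · have hst := Dot.lf_step (hu.step (i := j) (by omega))
        have hst' := Dot.lf_step (u := u j) (v := u (j + 1)) (hu.step (i := j) (by omega))
        have e1 : j + 1 = a - k := by omega
        have ho := hc1 (j + 1) (by omega) (by omega)
        have h3 := d6_apex ho
        have h4 : d (u (l - (j + 1))) (Dot.apex c) ≤ K + d (u (j + 1)) (Dot.apex c) := by
          have h5 := d_tri (u (l - (j + 1))) (g • u (j + 1)) (Dot.apex c)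
          have h6 : d (g • u (j + 1)) (Dot.apex c) = d (u (j + 1)) (Dot.apex c) := by
            have := dot_iso hiso g (u (j + 1)) (Dot.apex c)
            rwa [Dot.smul_apex, hc] at this
          have h7 := hgl' (j + 1) (by omega) (by omega)
          omega
        have h5 := hu.du (j + 1) (l - (j + 1)) (by omega) (by omega)
        have h6 := d_tri (u (j + 1)) (Dot.apex c) (u (l - (j + 1)))
        rw [d_comm (Dot.apex c)] at h6
        omega
      · have e1 : j = (l - a + k) + 1 := by omega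
        subst e1
        have hst := Dot.lf_step (u := u (l - a + k + 1)) (v := u (l - a + k))
          (by rw [d_comm]; exact hu.step (i := l - a + k) (by omega))
        have ho := hc2 (l - a + k) (by omega) (by omega)
        have h3 := d6_apex ho
        have h4 : d (u (l - (l - a + k))) (Dot.apex c) ≤ K + d (u (l - a + k)) (Dot.apex c) := by
          have h5 := d_tri (u (l - (l - a + k))) (g • u (l - a + k)) (Dot.apex c)
          have h6 : d (g • u (l - a + k)) (Dot.apex c) = d (u (l - a + k)) (Dot.apex c) := by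
            have := dot_iso hiso g (u (l - a + k)) (Dot.apex c)
            rwa [Dot.smul_apex, hc] at this
          have h7 := hgl' (l - a + k) (by omega) (by omega)
          omega
        have h5 := hu.du (l - (l - a + k)) (l - a + k) (by omega) (by omega)
        have h6 := d_tri (u (l - (l - a + k))) (Dot.apex c) (u (l - a + k))
        rw [d_comm (Dot.apex c)] at h6
        omega

end

end Pool.Agent.Lib.H14E
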