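import Pool.Agent.Lib.H14E.D6d
import Pool.Agent.Lib.H14E.DotB

/-!
# H14E, D6, part e: the cone on a near-inversion, seen from the end point
-/

set_option autoImplicit false
set_option linter.unusedSectionVars false

namespace Pool.Agent.Lib.H14E

open Pool.Agent.Lib.H76.Morse GeoMet

section

variable {p : ℕ} {G X : Type} [Group G] [GeoMet X] [MulAction G X]
  {D M N : Subgroup G} [N.Normal] {y₀ : X} {ρ δ' : ℕ}

/-- **Step 4.** The lift of `e * e` from the cone to the end point. -/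
theorem inv_sq_lift (hp : p.Prime) (hp2 : p ≠ 2) (hG : Geom G X) (hT : PTors p G)
    (hP : Periph D y₀) (h : QD p D M N y₀ ρ δ') {u : ℕ → Dot (perFam D y₀) ρ} {l : ℕ}
    (hu : LG N u l) {e : G ⧸ N} {C : ℕ}
    (h1 : qd hG.iso N (qmk N (u l)) (e • qmk N (u 0)) ≤ C)
    (h2 : qd hG.iso N (qmk N (u 0)) (e • qmk N (u l)) ≤ C) {n₀ a K C₈ t₃ : ℕ}
    (ha : a = l / 2) (hK : K = C + δ')
    (hn₀ : ∀ g : G, IsOfFinOrder g → orderOf g ≤ n₀) (hl : C + (n₀ + 1) * (C + δ') < l)
    {c : G ⧸ D} (hec : e ∈ PC D N c) (hc : d (u a) (Dot.apex c) ≤ C₈)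
    (ht₃ : t₃ = C₈ + 2 * K + 4) (hat : t₃ ≤ a) (hρ : C₈ + t₃ + 4 * K + 4 ≤ ρ) :
    ∃ k : G, (k : G ⧸ N) = e * e ∧ k • c = c ∧ ¬ IsOfFinOrder k ∧
      ∀ i ≤ a - t₃, (u i).lev + 2 * K + 2 ≤ ρ ∧ d (u i) (k • u i) ≤ 2 * K ∧
        ((u i).own ≠ some c → (u i).lev ≤ 2 * K) := by
  have hiso := hG.iso
  -- distance to the apex
  have hfar : ∀ i ≤ a, a - i ≤ d (u i) (Dot.apex c) + C₈ ∧
      d (u i) (Dot.apex c) ≤ a - i + C₈ := by
    intro i hi
    have h3 := hu.du i a hi (by omega)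
    have h4 := d_tri (u i) (Dot.apex c) (u a)
    have h5 := d_tri (u i) (u a) (Dot.apex c)
    rw [d_comm (Dot.apex c)] at h4
    omega
  have hown₃ : (u (a - t₃)).own = some c := by
    by_contra hne
    have h3 := d6_apex_far hne
    have h4 := hfar (a - t₃) (by omega)
    omega
  have hlev₃ := d6_apex hown₃
  have hf₃ := hfar (a - t₃) (by omega)
  have hsq : ∀ i ≤ l, qd hiso N (qmk N (u i)) ((e * e) • qmk N (u i)) ≤ 2 * K := by
    intro i hi
    have := inv_sq hiso h hu h1 h2 hi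
    omega
  obtain ⟨k, hk, hkd⟩ := lf1 (N := N) hiso (e * e) (u (a - t₃)) (u (a - t₃))
  have hk0 : d (u (a - t₃)) (k • u (a - t₃)) ≤ 2 * K := by
    rw [hkd]
    exact hsq _ (by omega)
  -- fixing owners of deep points
  have hfix : ∀ (v : Dot (perFam D y₀) ρ) (c' : G ⧸ D), v.own = some c' → 2 * K < v.lev →
      d v (k • v) ≤ 2 * K → k • c' = c' := by
    intro v c' hv hlv hdv
    have h3 := (Dot.lf_lev v (k • v)).2 (by omega)
    rw [Dot.own_smul, hv] at h3
    simpa using h3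
  have hkc : k • c = c := hfix _ c hown₃ (by omega) hk0
  have hkf : ¬ IsOfFinOrder k :=
    inv_sq_not_fin hp hp2 hT hiso h hu h1 h2 hn₀ hl hec hk
  have hfix' : ∀ (v : Dot (perFam D y₀) ρ) (c' : G ⧸ D), v.own = some c' → 2 * K < v.lev →
      d v (k • v) ≤ 2 * K → c' = c := by
    intro v c' hv hlv hdv
    by_contra hne
    exact hkf (mal_coset hG hP (hfix v c' hv hlv hdv) hkc hne)
  have key : ∀ j ≤ a - t₃, (u (a - t₃ - j)).lev + 2 * K + 2 ≤ ρ ∧
      d (u (a - t₃ - j)) (k • u (a - t₃ - j)) ≤ 2 * K := by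
    intro j
    induction j with
    | zero =>
      intro _
      rw [Nat.sub_zero]
      exact ⟨by omega, hk0⟩
    | succ j ih =>
      intro hj
      obtain ⟨ih1, ih2⟩ := ih (by omega)
      have e1 : a - t₃ - j = a - t₃ - (j + 1) + 1 := by omega
      rw [e1] at ih1 ih2
      set i := a - t₃ - (j + 1) with hi
      have hst : d (u i) (u (i + 1)) ≤ 1 := hu.step (by omega)
      have hlv : (u i).lev + 2 * K + 2 ≤ ρ := by
        by_contra hcon
        obtain ⟨c', hc'⟩ := Dot.lf_own (u i) (by omega)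
        have hs := Dot.lf_step hst
        have ho : (u (i + 1)).own = some c' := by
          rw [← hc']
          exact (hs.2 (by omega) (by omega)).symm
        have hcc := hfix' _ c' ho (by omega) ih2
        subst hcc
        have h3 := d6_apex hc'
        have h4 := hfar i (by omega)
        omega
      refine ⟨hlv, ?_⟩
      obtain ⟨k', hk', hkd'⟩ := lf1 (N := N) hiso (e * e) (u i) (u i)
      have h3 : d (u i) (k' • u i) ≤ 2 * K := by
        rw [hkd']
        exact hsq _ (by omega)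
      have h4 : d (u i) (k • u i) ≤ 2 * K + 2 := by
        have t1 := d_tri (u i) (u (i + 1)) (k • u i)
        have t2 := d_tri (u (i + 1)) (k • u (i + 1)) (k • u i)
        rw [dot_iso hiso k, d_comm (u (i + 1)) (u i)] at t2
        omega
      have h5 : k = k' := lf2' h (hk.trans hk'.symm) h4 h3 (by omega)
      rw [h5]
      exact h3
  refine ⟨k, hk, hkc, hkf, ?_⟩
  intro i hi
  have h3 := key (a - t₃ - i) (by omega)
  have e1 : a - t₃ - (a - t₃ - i) = i := by omega
  rw [e1] at h3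
  refine ⟨h3.1, h3.2, ?_⟩
  intro hne
  by_contra hlv
  obtain ⟨c', hc'⟩ := Dot.lf_own (u i) (by omega)
  have := hfix' _ c' hc' (by omega) h3.2
  exact hne (by rw [hc', this])

/-- upper bound for the distance of the cone -/
theorem inv_upper (hG : Geom G X) {u : ℕ → Dot (perFam D y₀) ρ} {l : ℕ}
    (hu : LG N u l) {a K C₈ t₃ N₀ C₃ : ℕ} (ha : a ≤ l)
    {c : G ⧸ D} (hc : d (u a) (Dot.apex c) ≤ C₈) {k : G} (hkc : k • c = c)
    (hkf : ¬ IsOfFinOrder k)
    (hk : ∀ i ≤ a - t₃, (u i).lev + 2 * K + 2 ≤ ρ ∧ d (u i) (k • u i) ≤ 2 * K ∧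
        ((u i).own ≠ some c → (u i).lev ≤ 2 * K))
    (hN₀ : ∀ s : ℕ, (∀ i j, s ≤ i → i ≤ j → j ≤ s + N₀ → d (u i) (u j) = j - i) →
      (∀ i, s ≤ i → i ≤ s + N₀ → 1 ≤ (u i).lev) →
      ∃ i, s ≤ i ∧ i ≤ s + N₀ ∧ 2 * K < (u i).lev)
    (hC₃ : ∀ (x : X) (k : G) (c : G ⧸ D), ¬ IsOfFinOrder k → k • c = c →
      d x (k • x) ≤ 2 * K * 2 ^ (2 * K) → ∃ y ∈ (perFam D y₀).Y c, d x y ≤ C₃)
    (haN : N₀ + t₃ ≤ a) (hρ : K ≤ ρ) : a ≤ ρ + 1 + C₃ + C₈ + N₀ := by
  by_cases ho : (u 0).own = some c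
  · have h3 := d6_apex ho
    have h4 := d_tri (u 0) (Dot.apex c) (u a)
    rw [d_comm (Dot.apex c)] at h4
    have h5 := hu.du 0 a (Nat.zero_le _) ha
    omega
  · have h3 : ∃ j ≤ N₀, (u j).lev = 0 := by
      by_contra hcon
      push Not at hcon
      have h4 : ∀ i, 0 ≤ i → i ≤ 0 + N₀ → 1 ≤ (u i).lev := by
        intro i _ hi
        have := hcon i (by omega)
        omega
      obtain ⟨i, -, hi, hlv⟩ := hN₀ 0 (fun i j _ hij hj => hu.du i j hij (by omega)) h4
      have h5 := d6_own_const (u := u) (s := 0) (m := N₀) (fun i h1 h2 => hu.step (by omega))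
        h4 i (Nat.zero_le _) hi
      have h6 := (hk i (by omega)).2.2 (by rw [h5]; exact ho)
      omega
    obtain ⟨j, hj, hlv⟩ := h3
    obtain ⟨x, hx⟩ := d6_lev_zero hlv
    have h4 := (hk j (by omega)).2.1
    rw [hx, Dot.smul_base] at h4
    obtain ⟨y, hy, hxy⟩ := hC₃ x k c hkf hkc (d6_base h4 (by omega))
    have h5 : d (u j) (Dot.apex c) ≤ C₃ + (ρ + 1) := by
      rw [hx]
      have t := d_tri (Dot.base x : Dot (perFam D y₀) ρ) (Dot.base y) (Dot.apex c)
      have t1 := Dot.base_le (P := perFam D y₀) (ρ := ρ) x y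
      have t2 := Dot.base_apex_le (P := perFam D y₀) (ρ := ρ) hy
      omega
    have h6 := d_tri (u j) (Dot.apex c) (u a)
    rw [d_comm (Dot.apex c)] at h6
    have h7 := hu.du j a (by omega) ha
    omega

/-- the base point of the cone seen from the end point -/
theorem inv_base {u : ℕ → Dot (perFam D y₀) ρ} {l : ℕ}
    (hu : LG N u l) {a C₈ : ℕ} (ha : a ≤ l)
    {c : G ⧸ D} (hc : d (u a) (Dot.apex c) ≤ C₈) (hρ : C₈ < ρ) {C : ℕ}
    (h0 : (u 0).own = some c → (u 0).lev ≤ C) :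
    ∃ y ∈ (perFam D y₀).Y c, d (u 0) (Dot.base y) ≤ C + (a + C₈ - ρ) := by
  by_cases ho : (u 0).own = some c
  · have h1 := h0 ho
    refine ⟨(u 0).qb, Dot.qb_mem _ c ho, ?_⟩
    have h2 : d (u 0) (Dot.base (u 0).qb) ≤ (u 0).lev := by
      cases hu0 : u 0 with
      | base x => simp [Dot.qb, d_self]
      | hor c' y k hy hk1 hk2 =>
        have h3 := Dot.col_le (P := perFam D y₀) (ρ := ρ) hy 0 k
        rw [Nat.zero_add, Dot.col_zero, Dot.col_hor c' y hy hk1 hk2] at h3
        rw [d_comm]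
        exact h3
      | apex c' =>
        have h3 := Dot.base_apex_le (P := perFam D y₀) (ρ := ρ) ((perFam D y₀).ne c').some_mem
        rw [d_comm]
        exact h3
    omega
  · -- the last index with another owner
    have hua : (u a).own = some c := by
      by_contra hne
      have := d6_apex_far hne
      omega
    have hex : ∃ m, (u m).own = some c := ⟨a, hua⟩
    classical
    set m := Nat.find hex with hm
    have hm1 : (u m).own = some c := Nat.find_spec hex
    have hm2 : m ≤ a := Nat.find_min' hex hua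
    have hm0 : m ≠ 0 := by
      intro h3
      rw [h3] at hm1
      exact ho hm1
    obtain ⟨j, hj⟩ : ∃ j, m = j + 1 := ⟨m - 1, by omega⟩
    have hj1 : (u j).own ≠ some c := fun h3 => Nat.find_min hex (m := j) (by omega) h3
    rw [hj] at hm1
    have hst : d (u j) (u (j + 1)) ≤ 1 := hu.step (by omega)
    have hs := Dot.lf_step hst
    have hlv1 : 1 ≤ (u (j + 1)).lev := by
      by_contra h3
      obtain ⟨x, hx⟩ := d6_lev_zero (u := u (j + 1)) (by omega)
      rw [hx] at hm1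
      simp [Dot.own] at hm1
    have hlv0 : (u j).lev = 0 := by
      by_contra h3
      exact hj1 (by rw [hs.2 (by omega) hlv1, hm1])
    obtain ⟨x, hx⟩ := d6_lev_zero hlv0
    have hfar := d6_apex_far hj1
    have h5 := hu.du j a (by omega) ha
    have h6 := d_tri (u j) (u a) (Dot.apex c)
    have h7 : (u (j + 1)).lev ≤ 1 := by
      have := (Dot.lf_step (u := u (j + 1)) (v := u j) (by rw [d_comm]; exact hst)).1
      omega
    refine ⟨x, d6_adj_base (u := u (j + 1)) (c := c) (by rw [← hx]; exact hst) hm1 (by omega), ?_⟩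
    rw [← hx]
    have h8 := hu.du 0 j (Nat.zero_le _) (by omega)
    omega

end

end Pool.Agent.Lib.H14E
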