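import Pool.Agent.Lib.H14E.Disp

/-!
# H14E / DispGp: Gromov products, almost geodesic points, chains

`gp x y z` is twice the Gromov product of `y, z` seen from `x`.
-/

set_option autoImplicit false

namespace Pool.Agent.Lib.H14E

open Pool.Agent.Lib.H76.Morse GeoMet

variable {X : Type} [GeoMet X] {G : Type} [Group G] [MulAction G X]

/-- Twice the Gromov product. -/
def gp (x y z : X) : ℕ := d x y + d x z - d y z

theorem gp_add (x y z : X) : gp x y z + d y z = d x y + d x z := by
  have h := d_tri y x z
  have c := d_comm x y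
  unfold gp
  omega

theorem gp_comm (x y z : X) : gp x y z = gp x z y := by
  have h1 := gp_add x y z
  have h2 := gp_add x z y
  have c := d_comm y z
  omega

theorem gp_le_left (x y z : X) : gp x y z ≤ 2 * d x y := by
  have h1 := gp_add x y z
  have h2 := d_tri x y z
  omega

theorem gp_le_right (x y z : X) : gp x y z ≤ 2 * d x z := by
  rw [gp_comm]
  exact gp_le_left x z y

theorem gp_four {δ : ℕ} (hyp : Hyp δ X) (x y z w : X) :
    min (gp x y z) (gp x z w) ≤ gp x y w + δ := by
  have h1 := gp_add x y z
  have h2 := gp_add x z w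
  have h3 := gp_add x y w
  have h4 := hyp y w x z
  have c1 := d_comm x y
  have c2 := d_comm x z
  have c3 := d_comm x w
  have c4 := d_comm w z
  omega

theorem gp_move_base (x x' y z : X) : gp x y z ≤ gp x' y z + 2 * d x x' := by
  have h1 := gp_add x y z
  have h2 := gp_add x' y z
  have t1 := d_tri x x' y
  have t2 := d_tri x x' z
  omega

theorem gp_move_right (x y z z' : X) : gp x y z ≤ gp x y z' + 2 * d z z' := by
  have h1 := gp_add x y z
  have h2 := gp_add x y z'
  have t1 := d_tri x z' z
  have t2 := d_tri y z z'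
  have c := d_comm z z'
  omega

theorem gp_move_left (x y y' z : X) : gp x y z ≤ gp x y' z + 2 * d y y' := by
  rw [gp_comm x y z, gp_comm x y' z]
  exact gp_move_right x z y y'

theorem gp_smul (hiso : IsoAct G X) (g : G) (x y z : X) :
    gp (g • x) (g • y) (g • z) = gp x y z := by
  unfold gp
  rw [hiso, hiso, hiso]

theorem gp_smul_smul (hiso : IsoAct G X) (g : G) (x y z : X) :
    gp x y z ≤ gp x (g • y) (g • z) + 2 * dsp g x := by
  have h1 := gp_smul hiso g x y z
  have h2 := gp_move_base (g • x) x (g • y) (g • z)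
  have c := d_comm (g • x) x
  unfold dsp
  omega

theorem gp_smul_smul' (hiso : IsoAct G X) (g : G) (x y z : X) :
    gp x (g • y) (g • z) ≤ gp x y z + 2 * dsp g x := by
  have h1 := gp_smul hiso g x y z
  have h2 := gp_move_base x (g • x) (g • y) (g • z)
  unfold dsp
  omega

theorem dsp_gp (x y : X) (g : G) : gp x y (g • y) + dsp g y = d x y + d x (g • y) :=
  gp_add x y (g • y)

/-- Two points at the same distance `t` from `x` on geodesics to `y` and `z`. -/
theorem near_of_gp {δ : ℕ} (hyp : Hyp δ X) {x y z q q' : X} (hq : d x q + d q y = d x y)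
    (hq' : d x q' + d q' z = d x z) (h : d x q' = d x q) (hg : 2 * d x q ≤ gp x y z) :
    d q q' ≤ 2 * δ := by
  have h1 := gp_four hyp x q y z
  have h2 := gp_four hyp x q z q'
  have a1 := gp_add x q y
  have a2 := gp_add x z q'
  have a3 := gp_add x q q'
  have a4 := gp_add x q z
  have c := d_comm z q'
  omega

/-- A point of a geodesic from `x` to `y` before the branching of `y` and `a y`. -/
theorem dsp_of_gp {δ : ℕ} (hyp : Hyp δ X) (hiso : IsoAct G X) (a : G) {x y q : X}
    (hq : d x q + d q y = d x y) (hg : 2 * d x q ≤ gp x y (a • y) + 1) :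
    dsp a q ≤ 3 * dsp a x + 2 * δ + 1 := by
  unfold dsp at *
  have h1 := gp_four hyp x q y (a • y)
  have h2 := gp_four hyp x q (a • y) (a • q)
  have a1 := gp_add x q y
  have a2 := gp_add x (a • y) (a • q)
  have a3 := gp_add x q (a • q)
  have a4 := gp_add x q (a • y)
  have i1 := hiso a y q
  have i2 := hiso a x q
  have i3 := hiso a x y
  have t1 := d_tri x (a • x) (a • q)
  have t2 := d_tri (a • x) x (a • q)
  have t3 := d_tri (a • x) x (a • y)
  have c1 := d_comm (a • x) x
  have c2 := d_comm y q
  omega

/-- Two almost geodesic points. -/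
theorem near_line {δ η η' : ℕ} (hyp : Hyp δ X) {u v y y' : X}
    (h : d u y + d y v ≤ d u v + η) (h' : d u y' + d y' v ≤ d u v + η') :
    d y y' ≤ (d u y - d u y') + (d u y' - d u y) + max η η' + δ := by
  have h4 := hyp y y' u v
  have c1 := d_comm y u
  have c2 := d_comm y' u
  omega

/-- Almost geodesic points in the order of their positions. -/
theorem line_order {δ η : ℕ} (hyp : Hyp δ X) {u v y y' y'' : X}
    (h : d u y + d y v ≤ d u v + η) (h' : d u y' + d y' v ≤ d u v + η)
    (h'' : d u y'' + d y'' v ≤ d u v + η) (h1 : d u y ≤ d u y') (h2 : d u y' ≤ d u y'') :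
    d y y' + d y' y'' ≤ d y y'' + 2 * (η + δ) := by
  have e1 := near_line hyp h h'
  have e2 := near_line hyp h' h''
  have e3 := d_tri u y y''
  omega

/-- The image of a point of `[w, w']` far from `w`: its distance to `w`. -/
theorem translate {δ : ℕ} (hyp : Hyp δ X) (hiso : IsoAct G X) (k : G) {w w' q : X}
    (hq : d w q + d q w' = d w w') (h1 : dsp k w ≤ d w q) (h2 : dsp k w' ≤ d w q) :
    d w (k • w') + d w q ≤ d w (k • q) + d w w' ∧
      d w (k • q) + d w w' ≤ d w (k • w') + d w q + δ + (dsp k w + dsp k w' - d w q) := by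
  unfold dsp at *
  have i1 := hiso k q w'
  have i2 := hiso k w q
  have i3 := hiso k w w'
  have t1 := d_tri w (k • q) (k • w')
  have t2 := d_tri w (k • w') w'
  have h4 := hyp w (k • q) (k • w) (k • w')
  have c1 := d_comm w' (k • w')
  have c2 := d_comm (k • q) (k • w')
  have c3 := d_comm (k • q) (k • w)
  have t3 := d_tri w' (k • w') w
  have c4 := d_comm w w'
  have c5 := d_comm w (k • w')
  constructor
  · omega
  · omega

end Pool.Agent.Lib.H14E
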