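import Pool.Agent.Lib.H14E.GraphGeo

/-!
# H14E: the cone-off `Dot P ρ` of a family of subsets

`X` with a combinatorial horoball of depth `ρ` and an apex glued on every `P.Y c`.
The distances used in the horoballs are those of `X`.
-/

set_option autoImplicit false

namespace Pool.Agent.Lib.H14E

open Pool.Agent.Lib.H76.Morse GeoMet

/-- A family of non empty subsets of `X`. -/
structure PFam (X ι : Type) where
  Y : ι → Set X
  ne : ∀ c, (Y c).Nonempty

variable {X ι : Type}

/-- Vertices of the cone-off of depth `ρ`. -/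
inductive Dot (P : PFam X ι) (ρ : ℕ) : Type
  | base (x : X) : Dot P ρ
  | hor (c : ι) (y : X) (k : ℕ) (hy : y ∈ P.Y c) (h1 : 1 ≤ k) (h2 : k ≤ ρ) : Dot P ρ
  | apex (c : ι) : Dot P ρ

namespace Dot

variable {P : PFam X ι} {ρ : ℕ}

/-- The column over `y`: level `0` is the point `y` of `X`, level `ρ + 1` (and more) the apex. -/
def col (c : ι) (y : X) (hy : y ∈ P.Y c) (k : ℕ) : Dot P ρ :=
  if h1 : 1 ≤ k then (if h2 : k ≤ ρ then .hor c y k hy h1 h2 else .apex c) else .base y

@[simp] theorem col_zero (c : ι) (y : X) (hy : y ∈ P.Y c) :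
    (col c y hy 0 : Dot P ρ) = .base y := by simp [col]

theorem col_hor (c : ι) (y : X) (hy : y ∈ P.Y c) {k : ℕ} (h1 : 1 ≤ k) (h2 : k ≤ ρ) :
    (col c y hy k : Dot P ρ) = .hor c y k hy h1 h2 := by simp [col, h1, h2]

theorem col_apex (c : ι) (y : X) (hy : y ∈ P.Y c) {k : ℕ} (h : ρ < k) :
    (col c y hy k : Dot P ρ) = .apex c := by
  have h1 : 1 ≤ k := by omega
  simp [col, h1, not_le.mpr h]

/-- The level of a vertex: `0` on `X`, `ρ + 1` at the apices. -/
def lev : Dot P ρ → ℕ
  | .base _ => 0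
  | .hor _ _ k _ _ _ => k
  | .apex _ => ρ + 1

/-- The horoball to which a vertex of positive level belongs. -/
def own : Dot P ρ → Option ι
  | .base _ => none
  | .hor c _ _ _ _ _ => some c
  | .apex c => some c

variable [GeoMet X]

/-- The generating adjacencies. -/
inductive Rel : Dot P ρ → Dot P ρ → Prop
  | base {x x' : X} (h : d x x' = 1) : Rel (.base x) (.base x')
  | vert {c : ι} {y : X} (hy : y ∈ P.Y c) {k : ℕ} (h : k ≤ ρ) :
      Rel (col c y hy k) (col c y hy (k + 1))
  | hor {c : ι} {y y' : X} (hy : y ∈ P.Y c) (hy' : y' ∈ P.Y c) {k : ℕ} (h1 : 1 ≤ k)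
      (h2 : k ≤ ρ) (h3 : y ≠ y') (h4 : d y y' ≤ 2 ^ k) :
      Rel (.hor c y k hy h1 h2) (.hor c y' k hy' h1 h2)

variable (P ρ) in
/-- The graph of the cone-off. -/
def graph : SimpleGraph (Dot P ρ) := SimpleGraph.fromRel Rel

theorem graph_adj_of_rel {u v : Dot P ρ} (h : Rel u v) (hne : u ≠ v) : (graph P ρ).Adj u v := by
  rw [graph, SimpleGraph.fromRel_adj]
  exact ⟨hne, Or.inl h⟩

theorem reach_of_rel {u v : Dot P ρ} (h : Rel u v) : (graph P ρ).Reachable u v := by
  by_cases hne : u = v
  · subst hne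
    exact SimpleGraph.Reachable.refl _
  · exact (graph_adj_of_rel h hne).reachable

theorem reach_base (x x' : X) : (graph P ρ).Reachable (.base x) (.base x') := by
  obtain ⟨p, h0, h1, h2⟩ := geo x x'
  have key : ∀ i, i ≤ d x x' → (graph P ρ).Reachable (.base (p 0)) (.base (p i)) := by
    intro i
    induction i with
    | zero => intro _; exact SimpleGraph.Reachable.refl _
    | succ i ih =>
      intro hi
      refine (ih (by omega)).trans (reach_of_rel (Rel.base ?_))
      rw [h2 i (i + 1) (by omega) hi]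
      omega
  have := key _ le_rfl
  rwa [h0, h1] at this

theorem reach_col {c : ι} {y : X} (hy : y ∈ P.Y c) (k : ℕ) (hk : k ≤ ρ + 1) :
    (graph P ρ).Reachable (.base y) (col c y hy k) := by
  induction k with
  | zero => rw [col_zero]
  | succ k ih => exact (ih (by omega)).trans (reach_of_rel (Rel.vert hy (by omega)))

theorem exists_base (u : Dot P ρ) : ∃ x : X, (graph P ρ).Reachable (.base x) u := by
  cases u with
  | base x => exact ⟨x, SimpleGraph.Reachable.refl _⟩
  | hor c y k hy h1 h2 =>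
    refine ⟨y, ?_⟩
    have := reach_col (P := P) (ρ := ρ) hy k (by omega)
    rwa [col_hor c y hy h1 h2] at this
  | apex c =>
    obtain ⟨y, hy⟩ := P.ne c
    refine ⟨y, ?_⟩
    have := reach_col (P := P) (ρ := ρ) hy (ρ + 1) le_rfl
    rwa [col_apex c y hy (by omega)] at this

theorem preconnected : (graph P ρ).Preconnected := by
  intro u v
  obtain ⟨x, hx⟩ := exists_base u
  obtain ⟨x', hx'⟩ := exists_base v
  exact hx.symm.trans ((reach_base x x').trans hx')

noncomputable instance instGeoMet : GeoMet (Dot P ρ) := graphGeo (graph P ρ) preconnected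

theorem dist_def (u v : Dot P ρ) : d u v = (graph P ρ).dist u v := rfl

end Dot

section Action

variable {G : Type} [Group G] [MulAction G X]

/-- The family of the translates of `D y₀`. -/
def perFam (D : Subgroup G) (y₀ : X) : PFam X (G ⧸ D) where
  Y c := {x | ∃ g : G, (g : G ⧸ D) = c ∧ x = g • y₀}
  ne c := by
    obtain ⟨g, rfl⟩ := QuotientGroup.mk_surjective c
    exact ⟨g • y₀, g, rfl, rfl⟩

theorem smul_mem_perFam {D : Subgroup G} {y₀ : X} (g : G) {c : G ⧸ D} {y : X}
    (hy : y ∈ (perFam D y₀).Y c) : g • y ∈ (perFam D y₀).Y (g • c) := by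
  obtain ⟨h, rfl, rfl⟩ := hy
  exact ⟨g * h, rfl, by rw [mul_smul]⟩

/-- The action on the vertices of the cone-off. -/
def Dot.act {D : Subgroup G} {y₀ : X} {ρ : ℕ} (g : G) :
    Dot (perFam D y₀) ρ → Dot (perFam D y₀) ρ
  | .base x => .base (g • x)
  | .hor c y k hy h1 h2 => .hor (g • c) (g • y) k (smul_mem_perFam g hy) h1 h2
  | .apex c => .apex (g • c)

instance Dot.instAct {D : Subgroup G} {y₀ : X} {ρ : ℕ} : MulAction G (Dot (perFam D y₀) ρ) where
  smul g u := Dot.act g u
  one_smul u := by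
    show Dot.act 1 u = u
    cases u <;> simp [Dot.act]
  mul_smul g h u := by
    show Dot.act (g * h) u = Dot.act g (Dot.act h u)
    cases u <;> simp [Dot.act, mul_smul]

end Action

end Pool.Agent.Lib.H14E
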