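import Pool.Agent.Lib.H14E.Dot
import Pool.Agent.Lib.H14E.Quo

/-!
# H14E: the group acts on the cone-off by isometries
-/

set_option autoImplicit false
set_option linter.unusedSectionVars false

namespace Pool.Agent.Lib.H14E

open Pool.Agent.Lib.H76.Morse GeoMet

variable {G X : Type} [Group G] [GeoMet X] [MulAction G X] {D : Subgroup G} {y₀ : X} {ρ : ℕ}

namespace Dot

@[simp] theorem smul_base (g : G) (x : X) :
    g • (Dot.base x : Dot (perFam D y₀) ρ) = Dot.base (g • x) := rfl

@[simp] theorem smul_apex (g : G) (c : G ⧸ D) :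
    g • (Dot.apex c : Dot (perFam D y₀) ρ) = Dot.apex (g • c) := rfl

@[simp] theorem smul_hor (g : G) (c : G ⧸ D) (y : X) (k : ℕ) (hy : y ∈ (perFam D y₀).Y c)
    (h1 : 1 ≤ k) (h2 : k ≤ ρ) :
    g • (Dot.hor c y k hy h1 h2 : Dot (perFam D y₀) ρ) =
      Dot.hor (g • c) (g • y) k (smul_mem_perFam g hy) h1 h2 := rfl

theorem smul_col (g : G) (c : G ⧸ D) (y : X) (hy : y ∈ (perFam D y₀).Y c) (k : ℕ) :
    g • (col c y hy k : Dot (perFam D y₀) ρ) = col (g • c) (g • y) (smul_mem_perFam g hy) k := by
  unfold col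
  split_ifs <;> rfl

@[simp] theorem lev_smul (g : G) (u : Dot (perFam D y₀) ρ) : (g • u).lev = u.lev := by
  cases u <;> rfl

theorem own_smul (g : G) (u : Dot (perFam D y₀) ρ) :
    (g • u).own = u.own.map (fun c => g • c) := by
  cases u <;> rfl

theorem rel_smul (hiso : IsoAct G X) (g : G) {u v : Dot (perFam D y₀) ρ} (h : Rel u v) :
    Rel (g • u) (g • v) := by
  cases h with
  | base h => exact Rel.base (by rw [hiso, h])
  | vert hy h =>
    rw [smul_col, smul_col]
    exact Rel.vert _ h
  | hor hy hy' h1 h2 h3 h4 =>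
    refine Rel.hor _ _ h1 h2 ?_ (by rw [hiso]; exact h4)
    intro e
    exact h3 (MulAction.injective g e)

/-- The action of `g` as a graph homomorphism. -/
def actHom (hiso : IsoAct G X) (g : G) : graph (perFam D y₀) ρ →g graph (perFam D y₀) ρ where
  toFun u := g • u
  map_rel' := by
    intro u v h
    rw [graph, SimpleGraph.fromRel_adj] at h ⊢
    refine ⟨fun e => h.1 (MulAction.injective g e), ?_⟩
    rcases h.2 with h | h
    · exact Or.inl (rel_smul hiso g h)
    · exact Or.inr (rel_smul hiso g h)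

theorem dist_smul_le (hiso : IsoAct G X) (g : G) (u v : Dot (perFam D y₀) ρ) :
    d (g • u) (g • v) ≤ d u v := by
  rw [dist_def, dist_def]
  obtain ⟨p, hp⟩ := (preconnected u v).exists_walk_length_eq_dist
  rw [← hp]
  have := SimpleGraph.dist_le (p.map (actHom hiso g))
  rwa [SimpleGraph.Walk.length_map] at this

end Dot

/-- The action on the cone-off is isometric. -/
theorem dot_iso (hiso : IsoAct G X) : IsoAct G (Dot (perFam D y₀) ρ) := by
  intro g u v
  apply le_antisymm (Dot.dist_smul_le hiso g u v)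
  have := Dot.dist_smul_le hiso g⁻¹ (g • u) (g • v)
  rwa [inv_smul_smul, inv_smul_smul] at this

end Pool.Agent.Lib.H14E
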