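import Pool.Agent.Lib.H14E.QD
import Pool.Agent.Lib.H14E.QA
import Pool.Agent.Lib.H14E.N3

/-!
# H14E, D8: transport of finite subgroups of the quotient along paths (helper88)
-/

set_option autoImplicit false
set_option linter.unusedSectionVars false

namespace Pool.Agent.Lib.H14E

open Pool.Agent.Lib.H76.Morse GeoMet

section generic

variable {H Z : Type} [Group H] [GeoMet Z] [MulAction H Z]

/-- Displacement on a geodesic. -/
theorem ef_disp {δ : ℕ} (hZ : Hyp δ Z) (hiso : IsoAct H Z) (k : H) {C : ℕ} {v w x : Z}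
    (hx : d v x + d x w = d v w) (hv : d v (k • v) ≤ C) (hw : d w (k • w) ≤ C) :
    d x (k • x) ≤ C + δ := by
  have h1 := hZ x (k • x) v w
  have h2 : d (k • x) w ≤ d x w + C := by
    have t := d_tri (k • x) (k • w) w
    rw [hiso k x w, d_comm (k • w) w] at t
    omega
  have h3 : d (k • x) v ≤ d x v + C := by
    have t := d_tri (k • x) (k • v) v
    rw [hiso k x v, d_comm (k • v) v] at t
    omega
  have c1 := d_comm x v
  have h4 := max_le (a := d x v + d (k • x) w) (b := d x w + d (k • x) v) (c := d v w + C)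
    (by omega) (by omega)
  omega

/-- Quasi-centre of a finite group of isometries. -/
theorem ef_quasi_centre {δ : ℕ} (hZ : Hyp δ Z) (hiso : IsoAct H Z) (K : Subgroup H)
    (hK : (K : Set H).Finite) (x₀ : Z) : ∃ v : Z, ∀ k ∈ K, d v (k • v) ≤ 2 * δ + 1 := by
  have hfin : ((K : Set H) ×ˢ (K : Set H)).Finite := hK.prod hK
  have hne : ((K : Set H) ×ˢ (K : Set H)).Nonempty := ⟨(1, 1), K.one_mem, K.one_mem⟩
  obtain ⟨ab, hab, hmax⟩ := Set.exists_max_image _
    (fun c : H × H => d (c.1 • x₀) (c.2 • x₀)) hfin hne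
  obtain ⟨a, b⟩ := ab
  obtain ⟨ha, hb⟩ := hab
  have hmax' : ∀ c ∈ K, ∀ e ∈ K, d (c • x₀) (e • x₀) ≤ d (a • x₀) (b • x₀) :=
    fun c hc e he => hmax (c, e) ⟨hc, he⟩
  obtain ⟨p, h0, h1, h2⟩ := geo (a • x₀) (b • x₀)
  set n := d (a • x₀) (b • x₀) with hn
  have m1 : d (a • x₀) (p (n / 2)) = n / 2 := by
    have := h2 0 (n / 2) (Nat.zero_le _) (Nat.div_le_self _ _)
    rwa [h0, Nat.sub_zero] at this
  have m2 : d (p (n / 2)) (b • x₀) = n - n / 2 := by
    have := h2 (n / 2) n (Nat.div_le_self _ _) le_rfl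
    rwa [h1] at this
  have rad : ∀ c ∈ K, d (c • x₀) (p (n / 2)) ≤ (n - n / 2) + δ := by
    intro c hc
    have h := hZ (c • x₀) (p (n / 2)) (a • x₀) (b • x₀)
    have e1 := hmax' c hc a ha
    have e2 := hmax' c hc b hb
    have c1 := d_comm (p (n / 2)) (a • x₀)
    have h4 := max_le (a := d (c • x₀) (a • x₀) + d (p (n / 2)) (b • x₀))
      (b := d (c • x₀) (b • x₀) + d (p (n / 2)) (a • x₀)) (c := n + (n - n / 2))
      (by omega) (by omega)
    omega
  refine ⟨p (n / 2), fun k hk => ?_⟩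
  have hkr : ∀ c ∈ K, d (k • p (n / 2)) (c • x₀) ≤ (n - n / 2) + δ := by
    intro c hc
    have := rad (k⁻¹ * c) (K.mul_mem (K.inv_mem hk) hc)
    rw [← hiso k, smul_smul, mul_inv_cancel_left, d_comm] at this
    exact this
  have h := hZ (p (n / 2)) (k • p (n / 2)) (a • x₀) (b • x₀)
  have e1 := hkr a ha
  have e2 := hkr b hb
  have c1 := d_comm (p (n / 2)) (a • x₀)
  have h4 := max_le (a := d (p (n / 2)) (a • x₀) + d (k • p (n / 2)) (b • x₀))
    (b := d (p (n / 2)) (b • x₀) + d (k • p (n / 2)) (a • x₀))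
    (c := (n - n / 2) + ((n - n / 2) + δ)) (by omega) (by omega)
  omega

end generic

namespace Dot

variable {X ι : Type} [GeoMet X] {P : PFam X ι} {ρ : ℕ}

theorem ef_lev_col (c : ι) (y : X) (hy : y ∈ P.Y c) {k : ℕ} (hk : k ≤ ρ + 1) :
    (col c y hy k : Dot P ρ).lev = k := by
  unfold col
  split_ifs with h1 h2
  · rfl
  · show ρ + 1 = k
    omega
  · show 0 = k
    omega

theorem ef_own_col (c : ι) (y : X) (hy : y ∈ P.Y c) {k : ℕ} (hk : 1 ≤ k) :
    (col c y hy k : Dot P ρ).own = some c := by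
  unfold col
  split_ifs with h2
  · rfl
  · rfl

theorem ef_rel_of_d {u v : Dot P ρ} (h : d u v ≤ 1) : u = v ∨ Rel u v ∨ Rel v u := by
  by_cases h0 : d u v = 0
  · exact Or.inl (eq_of_d _ _ h0)
  · have h1 : (graph P ρ).dist u v = 1 := by
      have : d u v = 1 := by omega
      exact this
    rw [SimpleGraph.dist_eq_one_iff_adj, graph, SimpleGraph.fromRel_adj] at h1
    exact Or.inr h1.2

theorem ef_rel_lev {u v : Dot P ρ} (h : Rel u v) : u.lev ≤ v.lev + 1 ∧ v.lev ≤ u.lev + 1 := by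
  cases h with
  | base h => exact ⟨Nat.zero_le _, Nat.zero_le _⟩
  | vert hy h =>
    rw [ef_lev_col _ _ _ (by omega), ef_lev_col _ _ _ (by omega)]
    omega
  | hor hy hy' h1 h2 h3 h4 => exact ⟨Nat.le_succ _, Nat.le_succ _⟩

theorem ef_rel_own {u v : Dot P ρ} (h : Rel u v) (hu : 1 ≤ u.lev) (hv : 1 ≤ v.lev) :
    u.own = v.own := by
  cases h with
  | base h => exact absurd hu (by simp [lev])
  | vert hy h =>
    rw [ef_lev_col _ _ _ (by omega)] at hu
    rw [ef_own_col _ _ _ hu, ef_own_col _ _ _ (by omega)]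
  | hor hy hy' h1 h2 h3 h4 => rfl

theorem ef_lev_step {u v : Dot P ρ} (h : d u v ≤ 1) : u.lev ≤ v.lev + 1 ∧ v.lev ≤ u.lev + 1 := by
  rcases ef_rel_of_d h with rfl | h | h
  · exact ⟨Nat.le_succ _, Nat.le_succ _⟩
  · exact ef_rel_lev h
  · exact (ef_rel_lev h).symm

theorem ef_own_step {u v : Dot P ρ} (h : d u v ≤ 1) (hu : 1 ≤ u.lev) (hv : 1 ≤ v.lev) :
    u.own = v.own := by
  rcases ef_rel_of_d h with rfl | h | h
  · rfl
  · exact ef_rel_own h hu hv
  · exact (ef_rel_own h hv hu).symm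

/-- Along a path in positive levels the horoball is constant. -/
theorem ef_own_path {q : ℕ → Dot P ρ} {i j : ℕ} (hij : i ≤ j)
    (hq : ∀ k, i ≤ k → k < j → d (q k) (q (k + 1)) ≤ 1)
    (hl : ∀ k, i ≤ k → k ≤ j → 1 ≤ (q k).lev) : (q j).own = (q i).own := by
  induction j, hij using Nat.le_induction with
  | base => rfl
  | succ j hij ih =>
    rw [← ih (fun k h1 h2 => hq k h1 (by omega)) (fun k h1 h2 => hl k h1 (by omega))]
    exact (ef_own_step (hq j hij (by omega)) (hl j hij (by omega))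
      (hl (j + 1) (by omega) le_rfl)).symm

theorem ef_lev_path {q : ℕ → Dot P ρ} {n : ℕ} (hq : ∀ k < n, d (q k) (q (k + 1)) ≤ 1) :
    ∀ i ≤ n, (q 0).lev ≤ (q i).lev + i := by
  intro i
  induction i with
  | zero => intro _; exact le_rfl
  | succ i ih =>
    intro hi
    have h1 := ih (by omega)
    have h2 := (ef_lev_step (hq i (by omega))).1
    omega

/-- A point at distance less than the level is in the same horoball. -/
theorem ef_own_ball {u v : Dot P ρ} (h : d u v < u.lev) : v.own = u.own := by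
  obtain ⟨p, h0, h1, h2⟩ := geo u v
  have hq : ∀ k < d u v, d (p k) (p (k + 1)) ≤ 1 := by
    intro k hk
    rw [h2 k (k + 1) (by omega) (by omega)]
    omega
  have hl := ef_lev_path hq
  rw [h0] at hl
  have := ef_own_path (q := p) (Nat.zero_le (d u v)) (fun k _ hk => hq k hk) (fun k _ hk => by
    have := hl k hk
    omega)
  rwa [h0, h1] at this

end Dot

section transport

variable {p : ℕ} {G X : Type} [Group G] [GeoMet X] [MulAction G X]
  {D M N : Subgroup G} [N.Normal] {y₀ : X} {ρ δ' : ℕ}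

/-- A short element at a point of large level fixes its cone. -/
theorem ef_fix {u : Dot (perFam D y₀) ρ} {c : G ⧸ D} (hc : u.own = some c) {g : G}
    (h : d u (g • u) < u.lev) : g • c = c := by
  have h1 := Dot.ef_own_ball h
  rw [Dot.own_smul, hc] at h1
  simpa using h1

/-- Short lifts of a finite subgroup form a homomorphism. -/
theorem ef_hom (hiso : IsoAct G X) (h : QD p D M N y₀ ρ δ') (K : Subgroup (G ⧸ N))
    {u : Dot (perFam D y₀) ρ} {r : ℕ} (hu : u.lev + 2 * r ≤ ρ)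
    (hK : ∀ s ∈ K, qd hiso N (qmk N u) (s • qmk N u) ≤ r) :
    ∃ σ : K →* G, ∀ s : K, ((σ s : G) : G ⧸ N) = s ∧ d u (σ s • u) ≤ r := by
  have h1 : ∀ s : K, ∃ g : G, (g : G ⧸ N) = s ∧ d u (g • u) ≤ r := by
    intro s
    obtain ⟨g, hg, hd⟩ := lf1 (N := N) hiso (s : G ⧸ N) u u
    exact ⟨g, hg, by rw [hd]; exact hK s s.2⟩
  choose σ hσ1 hσ2 using h1
  refine ⟨MonoidHom.mk' σ ?_, fun s => ⟨hσ1 s, hσ2 s⟩⟩
  intro s t
  refine lf2 hiso h (u := u) (r := 2 * r) ?_ hu ?_ ?_
  · rw [hσ1, QuotientGroup.mk_mul, hσ1, hσ1, Subgroup.coe_mul]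
  · have := hσ2 (s * t)
    omega
  · have t1 := d_tri u (σ s • u) ((σ s * σ t) • u)
    rw [mul_smul, dot_iso hiso (σ s) u (σ t • u)] at t1
    have a1 := hσ2 s
    have a2 := hσ2 t
    rw [mul_smul]
    omega

end transport

end Pool.Agent.Lib.H14E
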