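import Pool.Agent.Lib.H14E.EFa

/-!
# H14E, D8: transport through a cone and along a path (helper88)
-/

set_option autoImplicit false
set_option linter.unusedSectionVars false

namespace Pool.Agent.Lib.H14E

open Pool.Agent.Lib.H76.Morse GeoMet

variable {p : ℕ} {G X : Type} [Group G] [GeoMet X] [MulAction G X]
  {D M N : Subgroup G} [N.Normal] {y₀ : X} {ρ δ' : ℕ}

/-- `σ` consists of lifts of the elements of `K` which are `r`-short at `u`. -/
def SLift (N : Subgroup G) [N.Normal] {D : Subgroup G} {y₀ : X} {ρ : ℕ} {K : Subgroup (G ⧸ N)}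
    (σ : K →* G) (u : Dot (perFam D y₀) ρ) (r : ℕ) : Prop :=
  ∀ s : K, ((σ s : G) : G ⧸ N) = s ∧ d u (σ s • u) ≤ r

/-- conjugate homomorphism -/
def cHom {K : Subgroup (G ⧸ N)} (t : G) (σ : K →* G) : K →* G :=
  (MulAut.conj t).toMonoidHom.comp σ

theorem cHom_apply {K : Subgroup (G ⧸ N)} (t : G) (σ : K →* G) (s : K) :
    cHom t σ s = t * σ s * t⁻¹ := rfl

theorem SLift.inj {K : Subgroup (G ⧸ N)} {σ : K →* G} {u : Dot (perFam D y₀) ρ} {r : ℕ}
    (h : SLift N σ u r) : Function.Injective σ := by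
  intro s t hst
  apply Subtype.ext
  rw [← (h s).1, ← (h t).1, hst]

/-- Uniqueness. -/
theorem SLift.unique (hiso : IsoAct G X) (h : QD p D M N y₀ ρ δ') {K : Subgroup (G ⧸ N)}
    {σ τ : K →* G} {u : Dot (perFam D y₀) ρ} {r : ℕ} (hu : u.lev + r ≤ ρ) (h1 : SLift N σ u r)
    (h2 : SLift N τ u r) (s : K) : σ s = τ s :=
  lf2 hiso h ((h1 s).1.trans (h2 s).1.symm) hu (h1 s).2 (h2 s).2

/-- One step. -/
theorem SLift.step (hiso : IsoAct G X) (h : QD p D M N y₀ ρ δ') {K : Subgroup (G ⧸ N)}
    {σ : K →* G} {u v : Dot (perFam D y₀) ρ} {r : ℕ} (hu : u.lev + r + 2 ≤ ρ)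
    (hv : v.lev + r + 2 ≤ ρ) (huv : d u v ≤ 1)
    (hKu : ∀ s ∈ K, qd hiso N (qmk N u) (s • qmk N u) ≤ r)
    (hKv : ∀ s ∈ K, qd hiso N (qmk N v) (s • qmk N v) ≤ r)
    (h1 : SLift N σ u r) : SLift N σ v r := by
  intro s
  refine ⟨(h1 s).1, ?_⟩
  have := lf3 hiso h (q := fun i => if i = 0 then u else v) (n := 1) (r := r)
    (x := (s : G ⧸ N)) (g := σ s) (by
      intro i hi
      have : i = 0 := by omega
      subst this
      simpa using huv) (by
      intro i hi
      by_cases h0 : i = 0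
      · simp only [h0, if_true]; exact hu
      · simp only [h0, if_false]; exact hv) (by
      intro i hi
      by_cases h0 : i = 0
      · simp only [h0, if_true]; exact hKu s s.2
      · simp only [h0, if_false]; exact hKv s s.2) (h1 s).1 (by simpa using (h1 s).2) 1 le_rfl
  simpa using this

/-- Passage through a cone. -/
theorem SLift.jump (hiso : IsoAct G X) (h : QD p D M N y₀ ρ δ') {K : Subgroup (G ⧸ N)}
    (hKf : (K : Set (G ⧸ N)).Finite) (hKp : IsPGroup p K) {σ : K →* G}
    {u v : Dot (perFam D y₀) ρ} {r : ℕ} (hvr : v.lev + 2 * r ≤ ρ)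
    (hru : r < u.lev) (hrv : r < v.lev) (hown : v.own = u.own)
    (hKv : ∀ s ∈ K, qd hiso N (qmk N v) (s • qmk N v) ≤ r)
    (h1 : SLift N σ u r) : ∃ t : G, SLift N (cHom t σ) v r := by
  obtain ⟨τ, hτ⟩ := ef_hom hiso h K hvr hKv
  have hc : ∃ c, u.own = some c := by
    cases u with
    | base x => exact absurd hru (by simp [Dot.lev])
    | hor c y k hy h1 h2 => exact ⟨c, rfl⟩
    | apex c => exact ⟨c, rfl⟩
  obtain ⟨c, hc⟩ := hc
  have hσc : ∀ s : K, σ s • c = c := fun s => ef_fix hc (lt_of_le_of_lt (h1 s).2 hru)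
  have hτc : ∀ s : K, τ s • c = c := fun s =>
    ef_fix (hown.trans hc) (lt_of_le_of_lt (hτ s).2 hrv)
  obtain ⟨a, rfl⟩ := QuotientGroup.mk_surjective c
  have hD : ∀ g : G, g • (a : G ⧸ D) = (a : G ⧸ D) → a⁻¹ * g * a ∈ D := by
    intro g hg
    have h0 : ((a : G) : G ⧸ D) = ((g * a : G) : G ⧸ D) := hg.symm
    have := QuotientGroup.eq.1 h0
    rwa [← mul_assoc] at this
  have : Finite K := hKf
  obtain ⟨t, ht⟩ := h.fus K hKp (cHom a⁻¹ σ) (cHom a⁻¹ τ)
    (fun s s' hs => h1.inj (by
      rw [cHom_apply, cHom_apply] at hs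
      exact mul_left_cancel (mul_right_cancel hs)))
    (fun s s' hs => (show Function.Injective τ from SLift.inj (u := v) (r := r) hτ) (by
      rw [cHom_apply, cHom_apply] at hs
      exact mul_left_cancel (mul_right_cancel hs)))
    (fun s => by
      rw [cHom_apply, inv_inv]
      exact hD _ (hσc s))
    (fun s => by
      rw [cHom_apply, inv_inv]
      exact hD _ (hτc s))
    (fun s => by
      apply h.n1
      · have e1 : (cHom a⁻¹ σ s)⁻¹ * cHom a⁻¹ τ s = a⁻¹ * ((σ s)⁻¹ * τ s) * a := by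
          rw [cHom_apply, cHom_apply]; group
        rw [e1]
        have h2 : (σ s)⁻¹ * τ s ∈ N := by
          rw [← QuotientGroup.eq, (h1 s).1, (hτ s).1]
        have := ‹N.Normal›.conj_mem _ h2 a⁻¹
        rwa [inv_inv] at this
      · apply D.mul_mem
        · apply D.inv_mem
          rw [cHom_apply, inv_inv]
          exact hD _ (hσc s)
        · rw [cHom_apply, inv_inv]
          exact hD _ (hτc s))
  refine ⟨a * t * a⁻¹, fun s => ?_⟩
  have e2 : cHom (a * t * a⁻¹) σ s = τ s := by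
    have h3 := ht s
    rw [cHom_apply, cHom_apply] at h3
    rw [cHom_apply]
    calc a * t * a⁻¹ * σ s * (a * t * a⁻¹)⁻¹ = a * (t * (a⁻¹ * σ s * a⁻¹⁻¹) * t⁻¹) * a⁻¹ := by
          group
      _ = a * (a⁻¹ * τ s * a⁻¹⁻¹) * a⁻¹ := by rw [h3]
      _ = τ s := by group
  rw [e2]
  exact hτ s

/-- Transport along a path whose end points are far from the apices. -/
theorem SLift.path (hiso : IsoAct G X) (h : QD p D M N y₀ ρ δ') {K : Subgroup (G ⧸ N)}
    (hKf : (K : Set (G ⧸ N)).Finite) (hKp : IsPGroup p K) {σ : K →* G}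
    {q : ℕ → Dot (perFam D y₀) ρ} {n r : ℕ} (hρ : 3 * r + 4 ≤ ρ)
    (hq : ∀ i < n, d (q i) (q (i + 1)) ≤ 1)
    (hK : ∀ i ≤ n, ∀ s ∈ K, qd hiso N (qmk N (q i)) (s • qmk N (q i)) ≤ r)
    (h0 : (q 0).lev + (2 * r + 2) ≤ ρ) (h1 : SLift N σ (q 0) r) :
    ∀ i ≤ n, (q i).lev + (2 * r + 2) ≤ ρ → ∃ t : G, SLift N (cHom t σ) (q i) r := by
  intro i
  induction i using Nat.strong_induction_on with
  | _ i ih =>
    intro hin hi
    by_cases hi0 : i = 0
    · subst hi0
      refine ⟨1, fun s => ?_⟩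
      rw [cHom_apply, one_mul, inv_one, mul_one]
      exact h1 s
    -- the last good index before `i`
    have hex : ∃ j, j < i ∧ (q j).lev + (2 * r + 2) ≤ ρ ∧
        ∀ k, j < k → k < i → ρ < (q k).lev + (2 * r + 2) := by
      classical
      have hP : ∃ m, m < i ∧ (q (i - 1 - m)).lev + (2 * r + 2) ≤ ρ := by
        refine ⟨i - 1, by omega, ?_⟩
        rw [Nat.sub_self]
        exact h0
      obtain ⟨hm1, hm2⟩ := Nat.find_spec hP
      refine ⟨i - 1 - Nat.find hP, by omega, hm2, ?_⟩
      intro k hk1 hk2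
      have hlt : i - 1 - k < Nat.find hP := by omega
      have := Nat.find_min hP hlt
      rw [not_and] at this
      have h3 := this (by omega)
      have e : i - 1 - (i - 1 - k) = k := by omega
      rw [e] at h3
      omega
    obtain ⟨j, hji, hj, hbad⟩ := hex
    obtain ⟨t, ht⟩ := ih j hji (by omega) hj
    by_cases hj1 : j + 1 = i
    · subst hj1
      exact ⟨t, ht.step hiso h (by omega) (by omega) (hq j (by omega)) (hK j (by omega))
        (hK (j + 1) hin)⟩
    · have l1 := Dot.ef_lev_step (hq j (by omega))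
      have b1 := hbad (j + 1) (by omega) (by omega)
      have l2 := Dot.ef_lev_step (hq (i - 1) (by omega))
      have e : i - 1 + 1 = i := by omega
      rw [e] at l2
      have b2 := hbad (i - 1) (by omega) (by omega)
      have hown : (q i).own = (q j).own := by
        refine Dot.ef_own_path hji.le (fun k _ hk => hq k (by omega)) ?_
        intro k hk1 hk2
        by_cases hkj : k = j
        · subst hkj
          omega
        by_cases hki : k = i
        · subst hki
          omega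
        have := hbad k (by omega) (by omega)
        omega
      obtain ⟨t', ht'⟩ := ht.jump hiso h hKf hKp (v := q i) (by omega) (by omega) (by omega)
        hown (hK i hin)
      refine ⟨t' * t, fun s => ?_⟩
      have e2 : cHom (t' * t) σ s = cHom t' (cHom t σ) s := by
        rw [cHom_apply, cHom_apply, cHom_apply]; group
      rw [e2]
      exact ht' s

end Pool.Agent.Lib.H14E
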