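import Pool.Agent.Lib.H14E.EFb

/-!
# H14E, D8: the EF theorem (helper88)

A long element `g` of `G' = G ⧸ N` which normalises a finite subgroup `K` of `G'` acts on it
like an element of `G` normalising a finite subgroup of `G`.
-/

set_option autoImplicit false
set_option linter.unusedSectionVars false

namespace Pool.Agent.Lib.H14E

open Pool.Agent.Lib.H76.Morse GeoMet

variable {p : ℕ} {G X : Type} [Group G] [GeoMet X] [MulAction G X]
  {D M N : Subgroup G} [N.Normal] {y₀ : X} {ρ δ' : ℕ}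

/-- A conjugation which maps a finite subgroup into itself maps it onto itself. -/
theorem ef_conj_inv {H : Type} [Group H] {K : Subgroup H} (hK : (K : Set H).Finite) {g : H}
    (hg : ∀ s ∈ K, g * s * g⁻¹ ∈ K) : ∀ s ∈ K, g⁻¹ * s * g ∈ K := by
  have : Finite K := hK
  let f : K → K := fun s => ⟨g * s * g⁻¹, hg s s.2⟩
  have hf : Function.Injective f := by
    intro s t hst
    apply Subtype.ext
    have h1 : g * (s : H) * g⁻¹ = g * (t : H) * g⁻¹ := congrArg Subtype.val hst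
    exact mul_left_cancel (mul_right_cancel h1)
  intro s hs
  obtain ⟨t, ht⟩ := Finite.surjective_of_injective hf ⟨s, hs⟩
  have h1 : g * (t : H) * g⁻¹ = s := congrArg Subtype.val ht
  have h2 : g⁻¹ * s * g = t := by rw [← h1]; group
  rw [h2]
  exact t.2

/-- A finite subgroup of a group with `PTors` is a `p`-group. -/
theorem ef_pgroup {H : Type} [Group H] (hT : PTors p H) {K : Subgroup H}
    (hK : (K : Set H).Finite) : IsPGroup p K := isPGroup_of_finite hT hK

/-- **EF theorem.** -/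
theorem ef_long_aux (hiso : IsoAct G X) (h : QD p D M N y₀ ρ δ') (hρ : 9 * δ' + 7 ≤ ρ)
    (hT : PTors p (G ⧸ N)) (hNr : NoRec G) {g : G ⧸ N}
    (hg : ∀ c : G ⧸ D, g ∉ PC D N c) {K : Subgroup (G ⧸ N)} (hKf : (K : Set (G ⧸ N)).Finite)
    (hK : ∀ s ∈ K, g * s * g⁻¹ ∈ K) : ∀ s ∈ K, ∃ i : ℕ, (Ph g)^[i] s = 1 := by
  letI : GeoMet (Quo N (Dot (perFam D y₀) ρ)) := quoGeo (dot_iso hiso) N
  have hZ : Hyp δ' (Quo N (Dot (perFam D y₀) ρ)) := lf0 hiso h
  have hi : IsoAct (G ⧸ N) (Quo N (Dot (perFam D y₀) ρ)) := quo_isoAct (dot_iso hiso) N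
  have hKp : IsPGroup p K := ef_pgroup hT hKf
  have hK' := ef_conj_inv hKf hK
  obtain ⟨v, hv⟩ := ef_quasi_centre hZ hi K hKf (qmk N (Dot.base y₀))
  have hgv : ∀ s ∈ K, d (g • v) (s • g • v) ≤ 2 * δ' + 1 := by
    intro s hs
    have h1 := hv _ (hK' s hs)
    have e1 : s • g • v = g • ((g⁻¹ * s * g) • v) := by
      rw [smul_smul, smul_smul]; congr 1; group
    rw [e1, hi g]
    exact h1
  obtain ⟨P, P0, P1, P2⟩ := geo v (g • v)
  set n := d v (g • v) with hn
  have hPK : ∀ i ≤ n, ∀ s ∈ K, d (P i) (s • P i) ≤ 3 * δ' + 1 := by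
    intro i hin s hs
    have a1 : d v (P i) = i := by
      have := P2 0 i (Nat.zero_le _) hin
      rwa [P0, Nat.sub_zero] at this
    have a2 : d (P i) (g • v) = n - i := by
      have := P2 i n hin le_rfl
      rwa [P1] at this
    have := ef_disp hZ hi s (C := 2 * δ' + 1) (v := v) (w := g • v) (x := P i)
      (by rw [a1, a2]; omega) (hv s hs) (hgv s hs)
    omega
  -- lift the geodesic
  obtain ⟨u0, hu0⟩ := qmk_surj N v
  obtain ⟨q, q0, q1, q2⟩ := lf6 (n := n) hiso N (P := P) (by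
    intro i hin
    have := P2 i (i + 1) (by omega) (by omega)
    show d (P i) (P (i + 1)) ≤ 1
    omega) u0 (by rw [hu0, P0])
  obtain ⟨g₀, hg₀, hg₀'⟩ := qa_lift_move (N := N) g (q 0) (q n) (by
    rw [q1 0 (Nat.zero_le _), q1 n le_rfl, P0, P1])
  -- a good index
  have hgood : ∃ i ≤ n, (q i).lev + (2 * (3 * δ' + 1) + 2) ≤ ρ := by
    by_contra hcon
    push Not at hcon
    have hl : ∀ k, 0 ≤ k → k ≤ n → 1 ≤ (q k).lev := by
      intro k _ hk
      have := hcon k hk
      omega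
    have ho := Dot.ef_own_path (Nat.zero_le n) (fun k _ hk => q2 k hk) hl
    have hc : ∃ c, (q 0).own = some c := by
      have := hl 0 le_rfl (Nat.zero_le _)
      cases hq0 : q 0 with
      | base x => rw [hq0] at this; exact absurd this (by simp [Dot.lev])
      | hor c y k hy h1 h2 => exact ⟨c, rfl⟩
      | apex c => exact ⟨c, rfl⟩
    obtain ⟨c, hc⟩ := hc
    rw [← hg₀', Dot.own_smul, hc] at ho
    have ho' : g₀ • c = c := by simpa using ho
    apply hg c
    exact ⟨g₀, ho', hg₀⟩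
  obtain ⟨m, hm, hml⟩ := hgood
  -- the path from `q m` to `g₀ • q m`
  let w : ℕ → Dot (perFam D y₀) ρ := fun i => if i ≤ n - m then q (m + i) else g₀ • q (i - (n - m))
  have hw0 : w 0 = q m := by
    show (if 0 ≤ n - m then q (m + 0) else _) = _
    simp
  have hwn : w n = g₀ • q m := by
    show (if n ≤ n - m then q (m + n) else g₀ • q (n - (n - m))) = _
    by_cases hm0 : n ≤ n - m
    · have e : m = 0 := by omega
      subst e
      simp only [Nat.sub_zero, le_refl, if_true, Nat.zero_add]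
      exact hg₀'.symm
    · rw [if_neg hm0]
      congr 2
      omega
  have hwq : ∀ i < n, d (w i) (w (i + 1)) ≤ 1 := by
    intro i hin
    show d (if i ≤ n - m then q (m + i) else g₀ • q (i - (n - m)))
      (if i + 1 ≤ n - m then q (m + (i + 1)) else g₀ • q (i + 1 - (n - m))) ≤ 1
    by_cases h1 : i + 1 ≤ n - m
    · rw [if_pos (by omega), if_pos h1]
      exact q2 (m + i) (by omega)
    · by_cases h2 : i ≤ n - m
      · have e : i = n - m := by omega
        rw [if_pos h2, if_neg h1]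
        have e1 : m + i = n := by omega
        have e2 : i + 1 - (n - m) = 0 + 1 := by omega
        rw [e1, e2, ← hg₀', dot_iso hiso g₀]
        exact q2 0 (by omega)
      · rw [if_neg h2, if_neg h1]
        have e1 : i + 1 - (n - m) = i - (n - m) + 1 := by omega
        rw [e1, dot_iso hiso g₀]
        exact q2 _ (by omega)
  have hwK : ∀ i ≤ n, ∀ s ∈ K, qd hiso N (qmk N (w i)) (s • qmk N (w i)) ≤ 3 * δ' + 1 := by
    intro i hin s hs
    by_cases h2 : i ≤ n - m
    · have e : w i = q (m + i) := if_pos h2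
      rw [e, q1 _ (by omega)]
      exact hPK _ (by omega) s hs
    · have e : w i = g₀ • q (i - (n - m)) := if_neg h2
      rw [e, ← mk_smul_qmk, hg₀, q1 _ (by omega)]
      have h3 := hPK (i - (n - m)) (by omega) _ (hK' s hs)
      have e1 : s • g • P (i - (n - m)) = g • ((g⁻¹ * s * g) • P (i - (n - m))) := by
        rw [smul_smul, smul_smul]; congr 1; group
      rw [e1]
      show d (g • P (i - (n - m))) (g • ((g⁻¹ * s * g) • P (i - (n - m)))) ≤ 3 * δ' + 1
      rw [hi g]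
      exact h3
  -- the lift at `q m` and its transport
  obtain ⟨σ, hσ⟩ := ef_hom hiso h K (u := q m) (r := 3 * δ' + 1) (by omega) (by
    have := hwK 0 (Nat.zero_le _)
    rwa [hw0] at this)
  have hσ' : SLift N σ (q m) (3 * δ' + 1) := hσ
  obtain ⟨t, ht⟩ := SLift.path hiso h hKf hKp (σ := σ) (q := w) (n := n) (r := 3 * δ' + 1)
    (by omega) hwq hwK (by rw [hw0]; exact hml) (by rw [hw0]; exact hσ') n le_rfl
    (by rw [hwn, Dot.lev_smul]; exact hml)
  rw [hwn] at ht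
  -- conjugation by `g₀`
  have hconj : ∀ s : K, t * σ ⟨g * s * g⁻¹, hK s s.2⟩ * t⁻¹ = g₀ * σ s * g₀⁻¹ := by
    intro s
    refine lf2 hiso h (u := g₀ • q m) (r := 3 * δ' + 1) ?_ (by rw [Dot.lev_smul]; omega)
      (ht ⟨g * s * g⁻¹, hK s s.2⟩).2 ?_
    · have h1 := (ht ⟨g * s * g⁻¹, hK s s.2⟩).1
      rw [cHom_apply] at h1
      rw [h1, QuotientGroup.mk_mul, QuotientGroup.mk_mul, QuotientGroup.mk_inv, hg₀, (hσ s).1]
    · have e1 : (g₀ * σ s * g₀⁻¹) • g₀ • q m = g₀ • (σ s • q m) := by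
        rw [smul_smul, smul_smul]; congr 1; group
      rw [e1, dot_iso hiso g₀]
      exact (hσ s).2
  have hx : ∀ s : K, (t⁻¹ * g₀) * σ s * (t⁻¹ * g₀)⁻¹ = σ ⟨g * s * g⁻¹, hK s s.2⟩ := by
    intro s
    have h1 := hconj s
    calc (t⁻¹ * g₀) * σ s * (t⁻¹ * g₀)⁻¹ = t⁻¹ * (g₀ * σ s * g₀⁻¹) * t := by group
      _ = t⁻¹ * (t * σ ⟨g * s * g⁻¹, hK s s.2⟩ * t⁻¹) * t := by rw [h1]
      _ = _ := by group
  have hstep : ∀ s : K, Ph (t⁻¹ * g₀) (σ s) = σ ⟨Ph g s, ph_mem hK s.2⟩ := by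
    intro s
    have e1 : (⟨Ph g s, ph_mem hK s.2⟩ : K) = s * (⟨g * s * g⁻¹, hK s s.2⟩ : K)⁻¹ := by
      apply Subtype.ext
      show (s : G ⧸ N) * (g * (s : G ⧸ N)⁻¹ * g⁻¹) = s * (g * s * g⁻¹)⁻¹
      group
    rw [e1, map_mul, map_inv, ← hx s]
    show σ s * (t⁻¹ * g₀ * (σ s)⁻¹ * (t⁻¹ * g₀)⁻¹) = _
    group
  have hiter : ∀ (i : ℕ) (s : K), (Ph (t⁻¹ * g₀))^[i] (σ s) =
      σ ⟨(Ph g)^[i] s, ph_iter_mem hK s.2 i⟩ := by
    intro i
    induction i with
    | zero => intro s; rfl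
    | succ i ih =>
      intro s
      rw [Function.iterate_succ_apply', ih, hstep]
      congr 1
      apply Subtype.ext
      show Ph g ((Ph g)^[i] s) = (Ph g)^[i + 1] s
      rw [Function.iterate_succ_apply']
  intro s hs
  have : Finite K := hKf
  have hrange : ((σ.range : Subgroup G) : Set G).Finite := by
    rw [MonoidHom.coe_range]
    exact Set.finite_range σ
  obtain ⟨i₀, hi₀⟩ := ph_reach hNr (S := σ.range) hrange (x := t⁻¹ * g₀) (by
    rintro _ ⟨s, rfl⟩
    rw [hx s]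
    exact ⟨_, rfl⟩) (s := σ ⟨s, hs⟩) ⟨_, rfl⟩
  refine ⟨i₀, ?_⟩
  have h1 := hi₀ i₀ le_rfl
  rw [hiter i₀ ⟨s, hs⟩] at h1
  have h2 := (hσ ⟨(Ph g)^[i₀] s, ph_iter_mem hK hs i₀⟩).1
  rw [h1] at h2
  exact h2.symm

end Pool.Agent.Lib.H14E
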