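import Pool.Agent.Lib.H14E.Core
import Pool.Agent.Lib.H76.Ext.Defs

/-!
# H14E, module I: Engel words

`b_0 = x⁻¹ y x`, `b_{j+1} = b_j y b_j⁻¹`; the iterated commutator `[x, _{j+1} y]` is
`y^(-j) b_j⁻¹ y y^j`, so it is trivial if and only if `b_j = y`.
-/

set_option autoImplicit false

namespace Pool.Agent.Lib.H14E

open Pool.Agent.H76.Ext commutatorElement

variable {E : Type} [Group E]

theorem eng_iter (x y : E) (j : ℕ) : engelComm x y (j + 1) =
    (y ^ j)⁻¹ * ((Tg y)^[j] (x⁻¹ * y * x))⁻¹ * y * y ^ j := by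
  induction j with
  | zero =>
    change x⁻¹ * y⁻¹ * x * y = (y ^ 0)⁻¹ * (x⁻¹ * y * x)⁻¹ * y * y ^ 0
    group
  | succ j ih =>
    have h1 : engelComm x y (j + 1 + 1) = H76.Ext.comm (engelComm x y (j + 1)) y := by
      unfold engelComm
      rw [Function.iterate_succ_apply']
    rw [h1, ih, Function.iterate_succ_apply']
    generalize (Tg y)^[j] (x⁻¹ * y * x) = b
    unfold H76.Ext.comm Tg
    rw [pow_succ]
    group

theorem eng_iff (x y : E) (j : ℕ) : engelComm x y (j + 1) = 1 ↔
    (Tg y)^[j] (x⁻¹ * y * x) = y := by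
  rw [eng_iter]
  constructor
  · intro h
    have h1 : ((Tg y)^[j] (x⁻¹ * y * x))⁻¹ * y = 1 := by
      calc ((Tg y)^[j] (x⁻¹ * y * x))⁻¹ * y
          = y ^ j * ((y ^ j)⁻¹ * ((Tg y)^[j] (x⁻¹ * y * x))⁻¹ * y * y ^ j) * (y ^ j)⁻¹ := by group
        _ = 1 := by rw [h]; group
    exact (inv_mul_eq_one.1 h1)
  · intro h
    rw [h]
    group

theorem tg_fix (y : E) (j i : ℕ) (b : E) (h : (Tg y)^[j] b = y) : (Tg y)^[j + i] b = y := by
  induction i with
  | zero => exact h
  | succ i ih =>
    rw [← Nat.add_assoc, Function.iterate_succ_apply', ih]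
    unfold Tg
    group

/-- Homomorphisms commute with the iteration of `T`. -/
theorem tg_map {G : Type} [Group G] (φ : E →* G) (y b : E) (j : ℕ) :
    φ ((Tg y)^[j] b) = (Tg (φ y))^[j] (φ b) := by
  induction j with
  | zero => rfl
  | succ j ih =>
    rw [Function.iterate_succ_apply', Function.iterate_succ_apply', ← ih]
    unfold Tg
    simp

theorem eng_map {G : Type} [Group G] (φ : E →* G) (x y : E) (n : ℕ) :
    φ (engelComm x y n) = engelComm (φ x) (φ y) n := by
  induction n with
  | zero => rfl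
  | succ n ih =>
    unfold engelComm at *
    rw [Function.iterate_succ_apply', Function.iterate_succ_apply', ← ih]
    unfold H76.Ext.comm
    simp

/-- If the sequence reaches `y` modulo a central subgroup it reaches `1` one step later. -/
theorem eng_central (x y : E) (n : ℕ) (h : ∀ g : E, engelComm x y n * g = g * engelComm x y n) :
    engelComm x y (n + 1) = 1 := by
  unfold engelComm at *
  rw [Function.iterate_succ_apply']
  set c := (fun z => H76.Ext.comm z y)^[n] x with hc
  unfold H76.Ext.comm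
  rw [mul_assoc, h y]
  group

/-- In a nilpotent group the sequence `b, T_a b, ...` reaches `a` if `b` is conjugate to `a`. -/
theorem tg_nilpotent {G : Type} [Group G] [Group.IsNilpotent G] (a b : G)
    (h : ∃ t : G, b = t * a * t⁻¹) : ∃ i : ℕ, (Tg a)^[i] b = a := by
  obtain ⟨t, rfl⟩ := h
  have h1 : ∀ i : ℕ, ((Tg a)^[i] (t * a * t⁻¹)) * a⁻¹ ∈ (⊤ : Subgroup G).lowerCentralSeries i := by
    intro i
    induction i with
    | zero => exact Subgroup.mem_top _
    | succ i ih =>
      rw [Function.iterate_succ_apply']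
      set b := (Tg a)^[i] (t * a * t⁻¹) with hb
      have h2 : Tg a b * a⁻¹ = ⁅b * a⁻¹, a⁆ := by
        unfold Tg
        rw [commutatorElement_def]
        group
      rw [h2]
      exact Subgroup.commutator_mem_commutator ih (Subgroup.mem_top a)
  obtain ⟨n, hn⟩ := Subgroup.nilpotent_iff_lowerCentralSeries.1 (inferInstance : Group.IsNilpotent G)
  refine ⟨n, ?_⟩
  have h3 := h1 n
  rw [hn, Subgroup.mem_bot] at h3
  exact mul_inv_eq_one.1 h3

end Pool.Agent.Lib.H14E
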