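import Pool.Agent.Lib.H14E.Eng

/-!
# H14E, module I: enumeration

From the one-step statement on `E` (`StepE`) and the start to an Engel group `E` with `E/Z(E)`
periodic and `[E,E]` not periodic.
-/

set_option autoImplicit false

namespace Pool.Agent.Lib.H14E

open Pool.Agent.H76.Ext commutatorElement

/-- `E` is a central extension of a stage by `⟨z⟩`. -/
def GoodE (p : ℕ) (E : Type) [Group E] (z : E) : Prop :=
  ∃ (G : Type) (_ : Group G) (π : E →* G), CExt π z ∧ Stage p G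

/-- The pair `(u, v)` is treated modulo `K`. -/
structure Done {F : Type} [Group F] (z : F) (K : Subgroup F) (u v : F) : Prop where
  eng : ∃ n : ℕ, 1 ≤ n ∧ engelComm u v n ∈ K
  per : ∃ n : ℕ, 1 ≤ n ∧ ∃ m : ℤ, v ^ n * z ^ m ∈ K

/-- One step: every pair can be treated in a quotient of `E`. -/
def StepE (p : ℕ) : Prop :=
  ∀ (E : Type) [Group E] (z : E), GoodE p E z → ∀ u v : E, ∃ N : Subgroup E, ∃ _ : N.Normal,
    GoodE p (E ⧸ N) (QuotientGroup.mk z) ∧ Done z N u v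

/-- The start. -/
def StartE (p : ℕ) : Prop :=
  ∃ (F : Type) (_ : Group F) (_ : Countable F) (z : F), (∀ x : F, z * x = x * z) ∧
    ∃ N : Subgroup F, ∃ _ : N.Normal, GoodE p (F ⧸ N) (QuotientGroup.mk z) ∧
      ∃ k : ℤ, k ≠ 0 ∧ ∃ c ∈ commutator F, z ^ k * c ∈ N

theorem enum_chain {F : Type} [Group F] [Countable F] (z : F) (Good : Subgroup F → Prop)
    (K₀ : Subgroup F) (h0 : Good K₀)
    (hstep : ∀ K, Good K → ∀ u v, ∃ K', K ≤ K' ∧ Good K' ∧ Done z K' u v) :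
    ∃ K : ℕ → Subgroup F, K 0 = K₀ ∧ Monotone K ∧ (∀ i, Good (K i)) ∧
      ∀ u v, ∃ i, Done z (K i) u v := by
  classical
  obtain ⟨e, he⟩ := exists_surjective_nat (F × F)
  choose f hf1 hf2 hf3 using hstep
  let s : ℕ → {K : Subgroup F // Good K} := fun n =>
    Nat.rec ⟨K₀, h0⟩ (fun n K => ⟨f K.1 K.2 (e n).1 (e n).2, hf2 K.1 K.2 (e n).1 (e n).2⟩) n
  refine ⟨fun n => (s n).1, rfl, monotone_nat_of_le_succ fun n => hf1 _ _ _ _,
    fun i => (s i).2, fun u v => ?_⟩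
  obtain ⟨n, hn⟩ := he (u, v)
  refine ⟨n + 1, ?_⟩
  have h1 : Done z (s (n + 1)).1 (e n).1 (e n).2 := hf3 (s n).1 (s n).2 (e n).1 (e n).2
  rw [hn] at h1
  exact h1

theorem enum_main {F : Type} [Group F] [Countable F] (z : F) (hz : ∀ x : F, z * x = x * z)
    (Good : Subgroup F → Prop) (hn : ∀ K, Good K → K.Normal)
    (hfree : ∀ K, Good K → ∀ n : ℤ, z ^ n ∈ K → n = 0)
    (h0 : ∃ K₀, Good K₀ ∧ ∃ k : ℤ, k ≠ 0 ∧ ∃ c ∈ commutator F, z ^ k * c ∈ K₀)
    (hstep : ∀ K, Good K → ∀ u v, ∃ K', K ≤ K' ∧ Good K' ∧ Done z K' u v) :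
    ∃ (E : Type) (_ : Group E), EngelCentralByPeriodic E ∧ ¬ PeriodicCommutator E := by
  obtain ⟨K₀, hK₀, k, hk, c, hc, hkc⟩ := h0
  obtain ⟨K, hK0, hmono, hgood, hdone⟩ := enum_chain z Good K₀ hK₀ hstep
  have hmem : ∀ x : F, x ∈ (⨆ i, K i : Subgroup F) ↔ ∃ i, x ∈ K i := fun x =>
    Subgroup.mem_iSup_of_directed hmono.directed_le
  have hN : (⨆ i, K i : Subgroup F).Normal := by
    refine ⟨fun x hx g => ?_⟩
    obtain ⟨i, hi⟩ := (hmem x).1 hx
    exact (hmem _).2 ⟨i, (hn _ (hgood i)).conj_mem x hi g⟩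
  refine ⟨F ⧸ (⨆ i, K i : Subgroup F), inferInstance, ⟨?_, ?_⟩, ?_⟩
  · intro x y
    induction x using QuotientGroup.induction_on with | _ u
    induction y using QuotientGroup.induction_on with | _ v
    obtain ⟨i, hi⟩ := hdone u v
    obtain ⟨n, hn1, hn2⟩ := hi.eng
    refine ⟨n, hn1, ?_⟩
    have h1 := eng_map (QuotientGroup.mk' (⨆ i, K i : Subgroup F)) u v n
    rw [QuotientGroup.mk'_apply, QuotientGroup.mk'_apply, QuotientGroup.mk'_apply] at h1
    rw [← h1, QuotientGroup.eq_one_iff]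
    exact (hmem _).2 ⟨i, hn2⟩
  · intro g
    induction g using QuotientGroup.induction_on with | _ v
    obtain ⟨i, hi⟩ := hdone v v
    obtain ⟨n, hn1, m, hm⟩ := hi.per
    refine ⟨n, hn1, ?_⟩
    have h1 : ((v : F ⧸ (⨆ i, K i : Subgroup F)) ^ n) * (z : F ⧸ (⨆ i, K i : Subgroup F)) ^ m
        = 1 := by
      rw [← QuotientGroup.mk_pow, ← QuotientGroup.mk_zpow, ← QuotientGroup.mk_mul,
        QuotientGroup.eq_one_iff]
      exact (hmem _).2 ⟨i, hm⟩
    have h2 : (z : F ⧸ (⨆ i, K i : Subgroup F)) ∈ Subgroup.center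
        (F ⧸ (⨆ i, K i : Subgroup F)) := by
      rw [Subgroup.mem_center_iff]
      intro g
      induction g using QuotientGroup.induction_on with | _ x
      rw [← QuotientGroup.mk_mul, ← QuotientGroup.mk_mul, hz]
    rw [eq_inv_of_mul_eq_one_left h1]
    exact Subgroup.inv_mem _ (Subgroup.zpow_mem _ h2 m)
  · intro hper
    have h1 : (z : F ⧸ (⨆ i, K i : Subgroup F)) ^ k * (c : F ⧸ (⨆ i, K i : Subgroup F)) = 1 := by
      rw [← QuotientGroup.mk_zpow, ← QuotientGroup.mk_mul, QuotientGroup.eq_one_iff]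
      exact (hmem _).2 ⟨0, by rw [hK0]; exact hkc⟩
    have h2 : (c : F ⧸ (⨆ i, K i : Subgroup F)) ∈ commutator (F ⧸ (⨆ i, K i : Subgroup F)) := by
      have h3 : (c : F ⧸ (⨆ i, K i : Subgroup F)) ∈
          (commutator F).map (QuotientGroup.mk' (⨆ i, K i : Subgroup F)) :=
        Subgroup.mem_map_of_mem _ hc
      rw [commutator_def, Subgroup.map_commutator] at h3
      rw [commutator_def]
      exact Subgroup.commutator_mono le_top le_top h3
    obtain ⟨n, hn1, hn2⟩ := hper _ h2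
    have h4 : (z : F ⧸ (⨆ i, K i : Subgroup F)) ^ (k * n) = 1 := by
      rw [zpow_mul, eq_inv_of_mul_eq_one_left h1, inv_zpow, zpow_natCast, hn2, inv_one]
    rw [← QuotientGroup.mk_zpow, QuotientGroup.eq_one_iff, hmem] at h4
    obtain ⟨i, hi⟩ := h4
    have h5 := hfree _ (hgood i) _ hi
    rcases mul_eq_zero.1 h5 with h6 | h6
    · exact hk h6
    · omega

/-- The subgroups of `F` with good quotient. -/
def GoodK (p : ℕ) {F : Type} [Group F] (z : F) (K : Subgroup F) : Prop :=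
  ∃ (E : Type) (_ : Group E) (φ : F →* E), Function.Surjective φ ∧ φ.ker = K ∧ GoodE p E (φ z)

theorem exists_bad {p : ℕ} (hstep : StepE p) (hstart : StartE p) :
    ∃ (E : Type) (_ : Group E), EngelCentralByPeriodic E ∧ ¬ PeriodicCommutator E := by
  obtain ⟨F, _, _, z, hz, N₀, _, hgood, k, hk, c, hc, hkc⟩ := hstart
  refine enum_main z hz (GoodK p z) ?_ ?_ ?_ ?_
  · rintro K ⟨E, _, φ, -, rfl, -⟩
    infer_instance
  · rintro K ⟨E, _, φ, -, rfl, G, _, π, hE, -⟩ n hn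
    rw [MonoidHom.mem_ker, map_zpow] at hn
    exact hE.inf n hn
  · exact ⟨N₀, ⟨F ⧸ N₀, inferInstance, QuotientGroup.mk' N₀, QuotientGroup.mk'_surjective _,
      QuotientGroup.ker_mk' _, hgood⟩, k, hk, c, hc, hkc⟩
  · rintro K ⟨E, _, φ, hφ, rfl, hE⟩ u v
    obtain ⟨N, _, hN, hD⟩ := hstep E (φ z) hE (φ u) (φ v)
    refine ⟨((QuotientGroup.mk' N).comp φ).ker, ?_, ⟨E ⧸ N, inferInstance,
      (QuotientGroup.mk' N).comp φ, (QuotientGroup.mk'_surjective _).comp hφ, rfl, hN⟩, ?_⟩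
    · intro x hx
      rw [MonoidHom.mem_ker] at hx ⊢
      rw [MonoidHom.comp_apply, hx, map_one]
    · have hmem : ∀ x : F, x ∈ ((QuotientGroup.mk' N).comp φ).ker ↔ φ x ∈ N := by
        intro x
        rw [MonoidHom.mem_ker, MonoidHom.comp_apply, QuotientGroup.mk'_apply,
          QuotientGroup.eq_one_iff]
      obtain ⟨n, hn1, hn2⟩ := hD.eng
      obtain ⟨n', hn1', m, hm⟩ := hD.per
      refine ⟨⟨n, hn1, (hmem _).2 ?_⟩, ⟨n', hn1', m, (hmem _).2 ?_⟩⟩
      · rw [eng_map]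
        exact hn2
      · rw [map_mul, map_pow, map_zpow]
        exact hm

end Pool.Agent.Lib.H14E
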