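import Pool.Agent.Lib.H14E.NoSwap

/-!
# H14E, module F1: elements of infinite order have an axis

`Axis k m C`: the orbit of `m` under the powers of `k` is a quasi-geodesic.
-/

set_option autoImplicit false

namespace Pool.Agent.Lib.H14E

open Pool.Agent.Lib.H76.Morse GeoMet

variable {X : Type} [GeoMet X] {G : Type} [Group G] [MulAction G X]

/-- The powers of `k` applied to `m` form a quasi-geodesic. -/
structure Axis (k : G) (m : X) (C : ℕ) : Prop where
  step : dsp k m ≤ C
  grow : ∀ n : ℕ, d m (k ^ n • m) + 1 ≤ d m (k ^ (n + 1) • m)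
  add : ∀ i j : ℕ, d m (k ^ i • m) + d m (k ^ j • m) ≤ d m (k ^ (i + j) • m) + C

theorem dsp_comm_move (hiso : IsoAct G X) {g h : G} (hc : g * h = h * g) (x : X) :
    dsp g (h • x) = dsp g x := by
  unfold dsp
  rw [← mul_smul, hc, mul_smul, hiso]

/-- Some power moves every point by more than `r`. -/
theorem exists_pow_far {δ : ℕ} (hyp : Hyp δ X) (hG : Geom G X) {g : G}
    (hg : ¬ IsOfFinOrder g) (r : ℕ) : ∃ j : ℕ, 1 ≤ j ∧ ∀ x : X, r < dsp (g ^ j) x := by
  classical
  obtain ⟨N, hN⟩ := exists_pigeon hG (r + 4 * δ)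
  by_contra hcon
  push Not at hcon
  obtain ⟨y⟩ := hG.ne
  have hinj : Function.Injective fun n : ℕ => g ^ n :=
    injective_pow_iff_not_isOfFinOrder.2 hg
  obtain ⟨n, hn⟩ : ∃ n : ℕ, 4 * (N * dsp g y) + 4 < dsp (g ^ n) y := by
    by_contra hc
    push Not at hc
    refine Set.infinite_range_of_injective hinj
      ((finite_dsp hG y (4 * (N * dsp g y) + 4)).subset ?_)
    rintro _ ⟨n, rfl⟩
    exact hc n
  obtain ⟨q, hq1, hq2⟩ := exists_pt y (g ^ n • y) (t := dsp (g ^ n) y / 2)
    (by unfold dsp; omega)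
  have key : ∀ i ≤ N, dsp (g ^ i) q ≤ r + 4 * δ := by
    intro i hi
    rcases Nat.eq_zero_or_pos i with h0 | h0
    · subst h0
      rw [pow_zero, dsp_one]
      exact Nat.zero_le _
    · obtain ⟨x, hx⟩ := hcon i h0
      have e0 : dsp (g ^ n) y = d y (g ^ n • y) := rfl
      have h1 := dsp_convex hyp hG.iso (g ^ i) (w := y) (w' := g ^ n • y) (q := q) x
        (by omega)
      have h2 : dsp (g ^ i) y ≤ N * dsp g y :=
        (dsp_pow_le hG.iso g y i).trans (Nat.mul_le_mul_right _ hi)
      have h3 : dsp (g ^ i) (g ^ n • y) = dsp (g ^ i) y :=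
        dsp_comm_move hG.iso (by rw [← pow_add, ← pow_add, add_comm]) y
      have c1 := d_comm (g ^ n • y) q
      omega
  obtain ⟨i, j, hij, hjN, he⟩ := hN q (fun i => g ^ i) key
  exact absurd (hinj he) (by omega)

/-- An element of infinite order has a power with an axis. -/
theorem exists_axis {δ : ℕ} (hyp : Hyp δ X) (hG : Geom G X) {g : G}
    (hg : ¬ IsOfFinOrder g) : ∃ j : ℕ, 1 ≤ j ∧ ∃ (m : X) (C : ℕ), Axis (g ^ j) m C := by
  classical
  obtain ⟨j, hj, hfar⟩ := exists_pow_far hyp hG hg (4 * δ + 3)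
  refine ⟨j, hj, ?_⟩
  set k : G := g ^ j with hk
  have hiso := hG.iso
  have : Nonempty X := hG.ne
  obtain ⟨x, hx⟩ : ∃ x : X, ∀ y : X, dsp k x ≤ dsp k y :=
    ⟨Function.argmin (fun x : X => dsp k x), fun y =>
      Function.argmin_le (fun x : X => dsp k x) y⟩
  have hsq : 2 * dsp k x ≤ d x (k • k • x) + 2 * δ + 2 := by
    obtain ⟨q, h1, h2⟩ := exists_pt x (k • x) (t := dsp k x / 2) (by unfold dsp; omega)
    have hq := hx q
    have h0 := hfar x
    unfold dsp at *
    have i1 := hiso k x q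
    have i2 := hiso k q (k • x)
    have i3 := hiso k x (k • x)
    have a1 := four hyp q x (k • q) (k • x)
    have a2 := four hyp (k • q) (k • x) x (k • k • x)
    have c1 := d_comm q x
    have c2 := d_comm (k • q) x
    have c3 := d_comm (k • q) (k • x)
    have c4 := d_comm (k • x) x
    have c5 := d_comm x (k • k • x)
    have c6 := d_comm (k • q) (k • k • x)
    have c7 := d_comm (k • k • x) (k • x)
    omega
  have hs := hfar x
  have hgrow0 := dsp_pow_grow hyp hiso k x hsq (by omega)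
  have dd : ∀ i n : ℕ, d (k ^ i • x) (k ^ (i + n) • x) = d x (k ^ n • x) := by
    intro i n
    rw [pow_add, mul_smul, hiso]
  have e1 : d x (k ^ 1 • x) = dsp k x := by rw [pow_one]; rfl
  have e2 : d x (k ^ 2 • x) = d x (k • k • x) := by rw [pow_two, mul_smul]
  -- linear growth
  have hlin : ∀ n : ℕ, d x (k ^ n • x) + dsp k x ≤ d x (k ^ (n + 1) • x) + 3 * δ + 2 := by
    intro n
    cases n with
    | zero =>
      rw [pow_zero, one_smul, d_self, zero_add, zero_add, e1]
      omega
    | succ n =>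
      have h4 := four hyp x (k ^ n • x) (k ^ (n + 1) • x) (k ^ (n + 2) • x)
      have i1 := dd n 1
      have i2 := dd (n + 1) 1
      have i3 := dd n 2
      have g1 := hgrow0 n
      have e3 : n + 1 + 1 = n + 2 := rfl
      rw [e3] at i2 ⊢
      omega
  refine ⟨x, dsp k x + 4 * δ + 2, ⟨by omega, hgrow0, ?_⟩⟩
  intro i n
  cases n with
  | zero =>
    simp only [pow_zero, one_smul, d_self, add_zero]
    omega
  | succ n =>
    have h4 := four hyp x (k ^ i • x) (k ^ (i + 1) • x) (k ^ (i + (n + 1)) • x)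
    have i1 := dd i 1
    have i2 := dd i (n + 1)
    have i3 := dd (i + 1) n
    have e3 : i + 1 + n = i + (n + 1) := by omega
    rw [e3] at i3
    have g1 := hlin i
    have g2 := hlin n
    omega

namespace Axis

variable {k : G} {m : X} {C : ℕ}

theorem le_dist (h : Axis k m C) (n : ℕ) : n ≤ d m (k ^ n • m) := by
  induction n with
  | zero => exact Nat.zero_le _
  | succ n ih =>
    have := h.grow n
    omega

theorem dist_le (h : Axis k m C) (hiso : IsoAct G X) (n : ℕ) : d m (k ^ n • m) ≤ n * C :=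
  (dsp_pow_le hiso k m n).trans (Nat.mul_le_mul_left _ h.step)

theorem mono (h : Axis k m C) {a b : ℕ} (hab : a ≤ b) :
    d m (k ^ a • m) ≤ d m (k ^ b • m) := by
  induction b with
  | zero =>
    have : a = 0 := by omega
    subst this
    exact le_rfl
  | succ b ih =>
    rcases Nat.lt_or_ge b a with h1 | h1
    · have : a = b + 1 := by omega
      subst this
      exact le_rfl
    · have h2 := ih h1
      have h3 := h.grow b
      omega

theorem dist_eq (hiso : IsoAct G X) (k : G) (m : X) {i j : ℤ} (hij : i ≤ j) :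
    d (k ^ i • m) (k ^ j • m) = d m (k ^ (j - i).toNat • m) := by
  have e : k ^ j = k ^ i * k ^ ((j - i).toNat) := by
    rw [← zpow_natCast, ← zpow_add, Int.toNat_of_nonneg (by omega)]
    congr 1
    omega
  rw [e, mul_smul, hiso]

/-- Three points of the axis in order. -/
theorem btw (h : Axis k m C) (hiso : IsoAct G X) {i j l : ℤ} (hij : i ≤ j) (hjl : j ≤ l) :
    d (k ^ i • m) (k ^ j • m) + d (k ^ j • m) (k ^ l • m) ≤ d (k ^ i • m) (k ^ l • m) + C := by
  rw [dist_eq hiso k m hij, dist_eq hiso k m hjl, dist_eq hiso k m (hij.trans hjl)]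
  have := h.add (j - i).toNat (l - j).toNat
  have e : (j - i).toNat + (l - j).toNat = (l - i).toNat := by omega
  rw [e] at this
  exact this

/-- A point almost between `m` and `k^n m` is near the orbit. -/
theorem near_nat {δ e : ℕ} (h : Axis k m C) (hyp : Hyp δ X) (hiso : IsoAct G X) (n : ℕ) (y : X)
    (hy : d m y + d y (k ^ n • m) ≤ d m (k ^ n • m) + e) :
    ∃ j ≤ n, d y (k ^ j • m) ≤ 2 * (e + C) + δ := by
  classical
  -- the last orbit point not beyond `y`
  have hex : ∃ j, d m (k ^ j • m) ≤ d m y ∧ j ≤ n := ⟨0, by rw [pow_zero, one_smul, d_self]; exact Nat.zero_le _, Nat.zero_le _⟩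
  set P : ℕ → Prop := fun j => d m (k ^ j • m) ≤ d m y with hP
  set j := Nat.findGreatest P n with hj
  have hjn : j ≤ n := Nat.findGreatest_le n
  have hPj : P j := by
    refine Nat.findGreatest_spec (P := P) (Nat.zero_le n) ?_
    show d m (k ^ 0 • m) ≤ d m y
    rw [pow_zero, one_smul, d_self]
    exact Nat.zero_le _
  have hPj' : d m (k ^ j • m) ≤ d m y := hPj
  refine ⟨j, hjn, ?_⟩
  -- `k^j m` is almost between
  have hb : d m (k ^ j • m) + d (k ^ j • m) (k ^ n • m) ≤ d m (k ^ n • m) + C := by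
    have := h.btw hiso (i := 0) (j := (j : ℤ)) (l := (n : ℤ)) (by omega) (by omega)
    simpa using this
  have hl := near_line hyp hy hb
  by_cases hjn' : j = n
  · have : d m y ≤ d m (k ^ n • m) + e := by omega
    rw [hjn'] at hl hPj' ⊢
    omega
  · have hnP : ¬ P (j + 1) := Nat.findGreatest_is_greatest (Nat.lt_succ_self j) (by omega)
    have h1 : d m y < d m (k ^ (j + 1) • m) := by
      by_contra hc
      exact hnP (by show d m (k ^ (j + 1) • m) ≤ d m y; omega)
    have h2 : d m (k ^ (j + 1) • m) ≤ d m (k ^ j • m) + C := by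
      have t := d_tri m (k ^ j • m) (k ^ (j + 1) • m)
      have i1 : d (k ^ j • m) (k ^ (j + 1) • m) = dsp k m := by
        rw [pow_succ, mul_smul, hiso]
        rfl
      have := h.step
      omega
    omega

/-- A point almost between two points of the axis is near the axis. -/
theorem near {δ e : ℕ} (h : Axis k m C) (hyp : Hyp δ X) (hiso : IsoAct G X) {i l : ℤ}
    (hil : i ≤ l) (y : X)
    (hy : d (k ^ i • m) y + d y (k ^ l • m) ≤ d (k ^ i • m) (k ^ l • m) + e) :
    ∃ j : ℤ, i ≤ j ∧ j ≤ l ∧ d y (k ^ j • m) ≤ 2 * (e + C) + δ := by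
  have e1 : ∀ a : ℤ, i ≤ a → k ^ a = k ^ i * k ^ ((a - i).toNat) := by
    intro a ha
    rw [← zpow_natCast, ← zpow_add, Int.toNat_of_nonneg (by omega)]
    congr 1
    omega
  have e2 : y = k ^ i • (k ^ i)⁻¹ • y := by rw [smul_inv_smul]
  obtain ⟨j, hj, hd⟩ := h.near_nat (δ := δ) (e := e) hyp hiso (l - i).toNat ((k ^ i)⁻¹ • y) (by
    rw [e1 l hil, mul_smul, hiso] at hy
    have h1 : d (k ^ i • m) y = d m ((k ^ i)⁻¹ • y) := by
      conv_lhs => rw [e2]
      rw [hiso]
    have h2 : d y (k ^ i • k ^ (l - i).toNat • m) = d ((k ^ i)⁻¹ • y) (k ^ (l - i).toNat • m) := by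
      conv_lhs => rw [e2]
      rw [hiso]
    rw [h1, h2] at hy
    exact hy)
  refine ⟨i + j, by omega, by omega, ?_⟩
  have h2 : d y (k ^ (i + (j : ℤ)) • m) = d ((k ^ i)⁻¹ • y) (k ^ j • m) := by
    rw [zpow_add, zpow_natCast, mul_smul]
    conv_lhs => rw [e2]
    rw [hiso]
  rw [h2]
  exact hd

end Axis

end Pool.Agent.Lib.H14E
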