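import Pool.Agent.Lib.H14E.Core

/-!
# H14E, module F2: groups with a central infinite cyclic subgroup of finite index
-/

set_option autoImplicit false

namespace Pool.Agent.Lib.H14E

theorem vz_tau {D : Type} [Group D] (c : D) (hc : ∀ a, c * a = a * c) (hinf : ¬ IsOfFinOrder c)
    (T : Set D) (hT : T.Finite) (hdec : ∀ a, ∃ i : ℤ, ∃ t ∈ T, a = c ^ i * t) :
    ∃ τ : D →* Multiplicative ℤ, τ c ≠ 1 ∧ (τ.ker : Set D).Finite := by
  classical
  have hle : Subgroup.zpowers c ≤ Subgroup.center D := by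
    rw [Subgroup.zpowers_le, Subgroup.mem_center_iff]
    intro a
    exact (hc a).symm
  have hZn : (Subgroup.zpowers c).Normal := by
    refine ⟨fun x hx g => ?_⟩
    have h1 := Subgroup.mem_center_iff.1 (hle hx) g
    rw [h1, mul_inv_cancel_right]
    exact hx
  have hfin : Finite (D ⧸ Subgroup.zpowers c) := by
    have : Finite T := hT
    refine Finite.of_surjective (fun t : T => ((t : D) : D ⧸ Subgroup.zpowers c)) ?_
    intro q
    obtain ⟨a, rfl⟩ := QuotientGroup.mk_surjective q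
    obtain ⟨i, t, ht, e⟩ := hdec a
    refine ⟨⟨t, ht⟩, ?_⟩
    rw [QuotientGroup.eq]
    have e2 : t⁻¹ * a = c ^ i := by
      have h1 : c ^ i * t = t * c ^ i := by
        have : Commute c t := hc t
        exact this.zpow_left i
      rw [e, h1]
      group
    show t⁻¹ * a ∈ Subgroup.zpowers c
    rw [e2]
    exact Subgroup.zpow_mem_zpowers c i
  have hfi : (Subgroup.zpowers c).FiniteIndex := Subgroup.finiteIndex_of_finite_quotient
  have hci : (Subgroup.center D).FiniteIndex := Subgroup.finiteIndex_of_le hle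
  set n := (Subgroup.center D).index with hn
  set Q := (Subgroup.zpowers c).index with hQ
  have hn0 : n ≠ 0 := hci.index_ne_zero
  have hQ0 : Q ≠ 0 := hfi.index_ne_zero
  have hex : ∀ a : D, ∃ i : ℤ, c ^ i = (a ^ n) ^ Q := by
    intro a
    exact Subgroup.mem_zpowers_iff.1 (Subgroup.pow_index_mem _ (a ^ n))
  choose f hf using hex
  have hinj : Function.Injective fun i : ℤ => c ^ i :=
    injective_zpow_iff_not_isOfFinOrder.2 hinf
  have hmul : ∀ a b : D, (a * b) ^ n = a ^ n * b ^ n := by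
    intro a b
    have h1 := congrArg (Subtype.val) (map_mul (MonoidHom.transferCenterPow D) a b)
    rw [MonoidHom.transferCenterPow_apply, Subgroup.coe_mul,
      MonoidHom.transferCenterPow_apply, MonoidHom.transferCenterPow_apply] at h1
    exact h1
  have hcom : ∀ a b : D, Commute (a ^ n) (b ^ n) := by
    intro a b
    have h1 := (MonoidHom.transferCenterPow D a).2
    rw [MonoidHom.transferCenterPow_apply, Subgroup.mem_center_iff] at h1
    exact (h1 (b ^ n)).symm
  let τ : D →* Multiplicative ℤ := MonoidHom.mk' (fun a => Multiplicative.ofAdd (f a)) (by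
    intro a b
    have h1 : c ^ f (a * b) = c ^ (f a + f b) := by
      rw [zpow_add, hf, hf, hf, hmul, (hcom a b).mul_pow]
    have h2 := hinj h1
    show Multiplicative.ofAdd (f (a * b)) = Multiplicative.ofAdd (f a) * Multiplicative.ofAdd (f b)
    rw [h2, ofAdd_add])
  have hτ : ∀ a, τ a = Multiplicative.ofAdd (f a) := fun a => rfl
  refine ⟨τ, ?_, ?_⟩
  · intro h
    have h1 : f c = 0 := by
      rw [hτ] at h
      exact h
    have h2 := hf c
    rw [h1, zpow_zero, ← pow_mul] at h2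
    exact hinf (isOfFinOrder_iff_pow_eq_one.2
      ⟨n * Q, Nat.pos_of_ne_zero (Nat.mul_ne_zero hn0 hQ0), h2.symm⟩)
  · have hf0 : ∀ a : D, τ a = 1 → f a = 0 := by
      intro a h
      rw [hτ] at h
      exact h
    have hinj2 : Function.Injective
        (fun a : τ.ker => ((a : D) : D ⧸ Subgroup.zpowers c)) := by
      intro a b hab
      have h1 : (a : D)⁻¹ * b ∈ Subgroup.zpowers c := QuotientGroup.eq.1 hab
      obtain ⟨i, hi⟩ := Subgroup.mem_zpowers_iff.1 h1
      have h2 : τ ((a : D)⁻¹ * b) = 1 := by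
        rw [map_mul, map_inv, MonoidHom.mem_ker.1 a.2, MonoidHom.mem_ker.1 b.2]
        simp
      have h3 := hf ((a : D)⁻¹ * b)
      rw [hf0 _ h2, zpow_zero, ← pow_mul, ← hi, ← zpow_natCast, ← zpow_mul] at h3
      have h4 : (0 : ℤ) = i * ((n * Q : ℕ) : ℤ) := by
        apply hinj
        show c ^ (0 : ℤ) = c ^ (i * ((n * Q : ℕ) : ℤ))
        rw [zpow_zero]
        exact h3
      have h5 : i = 0 := by
        rcases mul_eq_zero.1 h4.symm with h | h
        · exact h
        · exact absurd (Int.natCast_eq_zero.1 h) (Nat.mul_ne_zero hn0 hQ0)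
      rw [h5, zpow_zero] at hi
      apply Subtype.ext
      have : (a : D) * ((a : D)⁻¹ * b) = a * 1 := by rw [← hi]
      rw [mul_inv_cancel_left, mul_one] at this
      exact this.symm
    have : Finite τ.ker := Finite.of_injective _ hinj2
    exact this

theorem vz_struct {G : Type} [Group G] (D : Subgroup G) (c : G) (hcD : c ∈ D)
    (hc : ∀ a ∈ D, c * a = a * c) (hinf : ¬ IsOfFinOrder c) (T : Set G) (hT : T.Finite)
    (hdec : ∀ a ∈ D, ∃ i : ℤ, ∃ t ∈ T, a = c ^ i * t) :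
    ∃ (S : Subgroup G) (w₀ : G), FinNormal S D ∧ w₀ ∈ D ∧ ¬ IsOfFinOrder w₀ ∧
      (∀ a ∈ D, ∃ i : ℤ, ∃ s ∈ S, a = w₀ ^ i * s) ∧
      (∀ a ∈ D, IsOfFinOrder a → a ∈ S) := by
  classical
  obtain ⟨τ, h1, h2⟩ := vz_tau (D := D) ⟨c, hcD⟩ (fun a => Subtype.ext (hc a a.2))
    (fun h => hinf (Submonoid.isOfFinOrder_coe.2 h)) (Subtype.val ⁻¹' T)
    (hT.preimage Subtype.val_injective.injOn) (by
      intro a
      obtain ⟨i, t, ht, e⟩ := hdec a a.2
      have htD : t ∈ D := by
        have : t = (c ^ i)⁻¹ * a := by rw [e]; group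
        rw [this]
        exact D.mul_mem (D.inv_mem (D.zpow_mem hcD i)) a.2
      exact ⟨i, ⟨t, htD⟩, ht, Subtype.ext (by simpa using e)⟩)
  have htor : ∀ x : Multiplicative ℤ, IsOfFinOrder x → x = 1 := by
    intro x hx
    by_contra hne
    exact (not_isOfFinOrder_of_isMulTorsionFree hne) hx
  obtain ⟨⟨g0, hg0⟩, hgen⟩ := (inferInstance : IsCyclic τ.range).exists_generator
  obtain ⟨w₀, rfl⟩ := hg0
  have hgen' : ∀ a : D, ∃ i : ℤ, τ a = τ w₀ ^ i := by
    intro a
    obtain ⟨i, hi⟩ := Subgroup.mem_zpowers_iff.1 (hgen ⟨τ a, ⟨a, rfl⟩⟩)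
    refine ⟨i, ?_⟩
    have := congrArg Subtype.val hi
    simpa using this.symm
  have hw : τ w₀ ≠ 1 := by
    intro h
    obtain ⟨i, hi⟩ := hgen' ⟨c, hcD⟩
    rw [h, one_zpow] at hi
    exact h1 hi
  refine ⟨τ.ker.map D.subtype, w₀, ⟨?_, ?_, ?_⟩, w₀.2, ?_, ?_, ?_⟩
  · have : ((τ.ker.map D.subtype : Subgroup G) : Set G) = D.subtype '' (τ.ker : Set D) := by
      rw [Subgroup.coe_map]
    rw [this]
    exact h2.image _
  · rintro _ ⟨s, -, rfl⟩
    exact s.2
  · rintro g hg _ ⟨s, hs, rfl⟩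
    refine ⟨⟨g, hg⟩ * s * ⟨g, hg⟩⁻¹, ?_, by simp⟩
    exact (inferInstance : τ.ker.Normal).conj_mem s hs _
  · intro h
    have h3 : IsOfFinOrder w₀ := Submonoid.isOfFinOrder_coe.1 h
    exact hw (htor _ (τ.isOfFinOrder h3))
  · intro a ha
    obtain ⟨i, hi⟩ := hgen' ⟨a, ha⟩
    refine ⟨i, (w₀ : G) ^ (-i) * a, ⟨w₀ ^ (-i) * ⟨a, ha⟩, ?_, by simp⟩, by group⟩
    show τ (w₀ ^ (-i) * ⟨a, ha⟩) = 1
    rw [map_mul, map_zpow, hi, ← zpow_add]
    simp
  · intro a ha hfa
    refine ⟨⟨a, ha⟩, ?_, rfl⟩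
    show τ ⟨a, ha⟩ = 1
    apply htor
    apply τ.isOfFinOrder
    exact Submonoid.isOfFinOrder_coe.1 hfa

end Pool.Agent.Lib.H14E
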