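import Pool.Agent.Lib.H14E.F1
import Pool.Agent.Lib.H14E.F2

/-!
# H14E, module F3: the elementary subgroup of an element of infinite order
-/

set_option autoImplicit false

namespace Pool.Agent.Lib.H14E

open Pool.Agent.Lib.H76.Morse GeoMet

variable {X : Type} [GeoMet X] {G : Type} [Group G] [MulAction G X]

/-- The elements commuting with a positive power of `g`. -/
def Elc {G : Type} [Group G] (g : G) : Subgroup G where
  carrier := {h | ∃ N : ℕ, 1 ≤ N ∧ Commute h (g ^ N)}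
  mul_mem' := by
    rintro a b ⟨N, hN, ha⟩ ⟨M, hM, hb⟩
    refine ⟨N * M, Nat.mul_pos hN hM, ?_⟩
    have h1 : Commute a (g ^ (N * M)) := by
      rw [pow_mul]
      exact ha.pow_right M
    have h2 : Commute b (g ^ (N * M)) := by
      rw [mul_comm N M, pow_mul]
      exact hb.pow_right N
    exact h1.mul_left h2
  one_mem' := ⟨1, le_rfl, Commute.one_left _⟩
  inv_mem' := by
    rintro a ⟨N, hN, ha⟩
    exact ⟨N, hN, ha.inv_left⟩

theorem mem_elc {g h : G} : h ∈ Elc g ↔ ∃ N : ℕ, 1 ≤ N ∧ Commute h (g ^ N) := Iff.rfl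

theorem pow_mem_elc (g : G) (j : ℕ) : g ^ j ∈ Elc g :=
  ⟨1, le_rfl, by
    rw [pow_one]
    exact Commute.pow_self g j⟩

/-- The elements of `Elc g` move the base point to points near the axis. -/
theorem Axis.near_of_comm {δ : ℕ} {k : G} {m : X} {C : ℕ} (h : Axis k m C) (hyp : Hyp δ X)
    (hiso : IsoAct G X) {a : G} {N : ℕ} (hN : 1 ≤ N) (ha : Commute a (k ^ N)) :
    ∃ i : ℤ, d (a • m) (k ^ i • m) ≤ 4 * C + 5 * δ := by
  set t := d m (a • m) with ht
  set M : ℕ := N * (4 * t + 2 * C + 2 * δ + 4) with hM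
  have hML : 4 * t + 2 * C + 2 * δ + 4 ≤ M := by
    rw [hM]
    exact Nat.le_mul_of_pos_left _ hN
  have hcM : Commute a (k ^ M) := by
    rw [hM, pow_mul]
    exact ha.pow_right _
  have hcZ : ∀ e : ℤ, Commute a (k ^ (e * (M : ℤ))) := by
    intro e
    rw [mul_comm, zpow_mul, zpow_natCast]
    exact hcM.zpow_right e
  have hP := hcZ (-1)
  have hQ := hcZ 1
  rw [neg_one_mul] at hP
  rw [one_mul] at hQ
  -- the four far points
  set P := k ^ (-(M : ℤ)) • m with hPd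
  set Q := k ^ ((M : ℤ)) • m with hQd
  have eP : a • P = k ^ (-(M : ℤ)) • a • m := by
    rw [hPd, ← mul_smul, hP.eq, mul_smul]
  have eQ : a • Q = k ^ ((M : ℤ)) • a • m := by
    rw [hQd, ← mul_smul, hQ.eq, mul_smul]
  have d1 : d P (a • P) = t := by rw [eP, hPd, hiso]
  have d2 : d Q (a • Q) = t := by rw [eQ, hQd, hiso]
  have d3 : d (a • P) (a • m) = d P m := hiso _ _ _
  have d4 : d (a • m) (a • Q) = d m Q := hiso _ _ _
  have d5 : d (a • P) (a • Q) = d P Q := hiso _ _ _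
  have hb : d P m + d m Q ≤ d P Q + C := by
    have h0 := h.btw hiso (i := -(M : ℤ)) (j := 0) (l := (M : ℤ)) (by omega) (by omega)
    rw [zpow_zero, one_smul] at h0
    exact h0
  have d6 : d m Q = d m (k ^ M • m) := by rw [hQd, zpow_natCast]
  have d7 : d P m = d m (k ^ M • m) := by
    have h0 := Axis.dist_eq hiso k m (i := -(M : ℤ)) (j := 0) (by omega)
    have e0 : (0 - -(M : ℤ)).toNat = M := by omega
    rw [zpow_zero, one_smul, e0] at h0
    exact h0
  have hbig := h.le_dist M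
  have h1 := hyp (a • m) P (a • P) (a • Q)
  have h2 := hyp (a • m) Q (a • Q) P
  have c1 := d_comm (a • m) P
  have c2 := d_comm (a • m) (a • P)
  have c3 := d_comm (a • Q) P
  have c4 := d_comm Q P
  have t1 := d_tri (a • P) P (a • m)
  have t2 := d_tri (a • m) Q (a • Q)
  have t3 := d_tri (a • P) P (a • Q)
  have c5 := d_comm (a • P) P
  have t4 := d_tri (a • P) P Q
  have hfin : d P (a • m) + d (a • m) Q ≤ d P Q + (C + 2 * δ) := by omega
  obtain ⟨i, -, -, hi⟩ := h.near (e := C + 2 * δ) hyp hiso (i := -(M : ℤ)) (l := (M : ℤ))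
    (by omega) (a • m) hfin
  exact ⟨i, by omega⟩

theorem Axis.near_elc {δ : ℕ} {g : G} {j : ℕ} {m : X} {C : ℕ}
    (h : Axis (g ^ j) m C) (hyp : Hyp δ X) (hiso : IsoAct G X) {a : G} (ha : a ∈ Elc g) :
    ∃ i : ℤ, d (a • m) ((g ^ j) ^ i • m) ≤ 4 * C + 5 * δ := by
  obtain ⟨N, hN, hc⟩ := ha
  refine h.near_of_comm hyp hiso (N := N) hN ?_
  rw [← pow_mul, mul_comm, pow_mul]
  exact hc.pow_right j

/-- Structure of `Elc g`. -/
theorem elc_struct {δ : ℕ} (hyp : Hyp δ X) (hG : Geom G X) {g : G} (hg : ¬ IsOfFinOrder g)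
    {j : ℕ} {m : X} {C : ℕ} (h : Axis (g ^ j) m C) :
    ∃ (S : Subgroup G) (w₀ : G), FinNormal S (Elc g) ∧ w₀ ∈ Elc g ∧ ¬ IsOfFinOrder w₀ ∧
      (∀ a ∈ Elc g, ∃ i : ℤ, ∃ s ∈ S, a = w₀ ^ i * s) ∧
      (∀ a ∈ Elc g, IsOfFinOrder a → a ∈ S) := by
  classical
  have hiso := hG.iso
  have hTf : {t : G | t ∈ Elc g ∧ dsp t m ≤ 4 * C + 5 * δ}.Finite :=
    (finite_dsp hG m (4 * C + 5 * δ)).subset (fun t ht => ht.2)
  set T : Finset G := hTf.toFinset with hT
  have memT : ∀ t : G, t ∈ T ↔ t ∈ Elc g ∧ dsp t m ≤ 4 * C + 5 * δ := by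
    intro t
    rw [hT, Set.Finite.mem_toFinset]
    rfl
  -- every element is a power of `g` times an element of `T`
  have hdec : ∀ a ∈ Elc g, ∃ i : ℤ, ∃ t ∈ T, a = g ^ i * t := by
    intro a ha
    obtain ⟨i, hi⟩ := h.near_elc hyp hiso ha
    refine ⟨j * i, ((g ^ j) ^ i)⁻¹ * a, ?_, ?_⟩
    · rw [memT]
      refine ⟨(Elc g).mul_mem ((Elc g).inv_mem ((Elc g).zpow_mem (pow_mem_elc g j) i)) ha, ?_⟩
      unfold dsp
      have : d ((g ^ j) ^ i • m) ((g ^ j) ^ i • (((g ^ j) ^ i)⁻¹ * a) • m)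
          = d m ((((g ^ j) ^ i)⁻¹ * a) • m) := hiso _ _ _
      rw [← this, ← mul_smul, mul_inv_cancel_left, d_comm]
      exact hi
    · rw [zpow_mul, zpow_natCast]
      group
  -- a common exponent
  have hexp : ∀ t : G, ∃ N : ℕ, 1 ≤ N ∧ (t ∈ Elc g → Commute t (g ^ N)) := by
    intro t
    by_cases ht : t ∈ Elc g
    · obtain ⟨N, hN, hc⟩ := ht
      exact ⟨N, hN, fun _ => hc⟩
    · exact ⟨1, le_rfl, fun h => absurd h ht⟩
  choose e he1 he2 using hexp
  set N₀ : ℕ := ∏ t ∈ T, e t with hN₀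
  have hN₀pos : 0 < N₀ := Finset.prod_pos (fun t _ => he1 t)
  have hcomT : ∀ t ∈ T, Commute t (g ^ N₀) := by
    intro t ht
    obtain ⟨r, hr⟩ := Finset.dvd_prod_of_mem e ht
    rw [hN₀, hr, pow_mul]
    exact (he2 t ((memT t).1 ht).1).pow_right r
  have hcen : ∀ a ∈ Elc g, g ^ N₀ * a = a * g ^ N₀ := by
    intro a ha
    obtain ⟨i, t, ht, rfl⟩ := hdec a ha
    have h1 : Commute (g ^ i * t) (g ^ N₀) :=
      (((Commute.refl g).zpow_left i).pow_right N₀).mul_left (hcomT t ht)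
    exact h1.eq.symm
  have hinf : ¬ IsOfFinOrder (g ^ N₀) := by
    intro hf
    rw [isOfFinOrder_pow] at hf
    rcases hf with hf | hf
    · exact hg hf
    · omega
  -- the finite set of representatives modulo `g ^ N₀`
  set T' : Finset G := (T ×ˢ Finset.range N₀).image (fun q => g ^ q.2 * q.1) with hT'
  refine vz_struct (Elc g) (g ^ N₀) (pow_mem_elc g N₀) hcen hinf (T' : Set G)
    (Finset.finite_toSet _) ?_
  intro a ha
  obtain ⟨i, t, ht, rfl⟩ := hdec a ha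
  refine ⟨i / N₀, g ^ (i % N₀).toNat * t, ?_, ?_⟩
  · rw [hT', Finset.mem_coe, Finset.mem_image]
    refine ⟨(t, (i % N₀).toNat), ?_, rfl⟩
    rw [Finset.mem_product, Finset.mem_range]
    refine ⟨ht, ?_⟩
    have h1 := Int.emod_lt_of_pos i (by omega : (0 : ℤ) < N₀)
    have h2 := Int.emod_nonneg i (by omega : (N₀ : ℤ) ≠ 0)
    omega
  · have h2 := Int.emod_nonneg i (by omega : (N₀ : ℤ) ≠ 0)
    rw [← mul_assoc, ← zpow_natCast g N₀, ← zpow_mul, ← zpow_natCast g (i % N₀).toNat,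
      Int.toNat_of_nonneg h2, ← zpow_add, Int.mul_ediv_add_emod]

end Pool.Agent.Lib.H14E
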