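import Pool.Agent.Lib.H14E.F3

/-!
# H14E, module F4: the elementary subgroup of an element of infinite order is peripheral
-/

set_option autoImplicit false

namespace Pool.Agent.Lib.H14E

open Pool.Agent.Lib.H76.Morse GeoMet

variable {X : Type} [GeoMet X] {G : Type} [Group G] [MulAction G X]

/-- Overlap in the same direction. -/
theorem Axis.same_dir {δ ε N₁ : ℕ} {g : G} {j : ℕ} (hj : 1 ≤ j) {m : X} {C : ℕ}
    (h : Axis (g ^ j) m C) (hyp : Hyp δ X) (hiso : IsoAct G X)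
    (hN : ∀ (x : X) (f : ℕ → G), (∀ i ≤ N₁, dsp (f i) x ≤ 5 * ε + C + δ) →
      ∃ i j, i < j ∧ j ≤ N₁ ∧ f i = f j) {f : G} {i l i' l' : ℤ} (hil : i + N₁ ≤ l)
    (hil' : i' + N₁ ≤ l') (h1 : d ((g ^ j) ^ i • m) (f • (g ^ j) ^ i' • m) ≤ ε)
    (h2 : d ((g ^ j) ^ l • m) (f • (g ^ j) ^ l' • m) ≤ ε) : f ∈ Elc g := by
  set k : G := g ^ j with hk
  have key : ∀ t ≤ N₁, dsp (k ^ (-(i + (t : ℤ))) * f * k ^ (i' + (t : ℤ))) m
      ≤ 5 * ε + C + δ := by
    intro t ht
    have e1 : dsp (k ^ (-(i + (t : ℤ))) * f * k ^ (i' + (t : ℤ))) m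
        = d (k ^ (i + (t : ℤ)) • m) (f • k ^ (i' + (t : ℤ)) • m) := by
      unfold dsp
      have := hiso (k ^ (i + (t : ℤ))) m ((k ^ (-(i + (t : ℤ))) * f * k ^ (i' + (t : ℤ))) • m)
      rw [← this, ← mul_smul, zpow_neg, mul_assoc, mul_inv_cancel_left, mul_smul]
    rw [e1]
    have b1 := h.btw hiso (i := i) (j := i + t) (l := l) (by omega) (by omega)
    have b2 := h.btw hiso (i := i') (j := i' + t) (l := l') (by omega) (by omega)
    have i1 := hiso f (k ^ i' • m) (k ^ (i' + (t : ℤ)) • m)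
    have i2 := hiso f (k ^ (i' + (t : ℤ)) • m) (k ^ l' • m)
    have i3 := hiso f (k ^ i' • m) (k ^ l' • m)
    have e2 := Axis.dist_eq hiso k m (i := i) (j := i + t) (by omega)
    have e3 := Axis.dist_eq hiso k m (i := i') (j := i' + t) (by omega)
    have e4 : (i + (t : ℤ) - i).toNat = (i' + (t : ℤ) - i').toNat := by omega
    rw [e4] at e2
    have t1 := d_tri (k ^ i • m) (f • k ^ i' • m) (f • k ^ (i' + (t : ℤ)) • m)
    have t2 := d_tri (f • k ^ (i' + (t : ℤ)) • m) (f • k ^ l' • m) (k ^ l • m)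
    have t3 := d_tri (f • k ^ i' • m) (k ^ i • m) (f • k ^ l' • m)
    have t4 := d_tri (k ^ i • m) (k ^ l • m) (f • k ^ l' • m)
    have t5 := d_tri (f • k ^ i' • m) (k ^ i • m) (f • k ^ (i' + (t : ℤ)) • m)
    have c1 := d_comm (f • k ^ i' • m) (k ^ i • m)
    have c2 := d_comm (f • k ^ l' • m) (k ^ l • m)
    have hl := near_line hyp (u := k ^ i • m) (v := k ^ l • m) (y := k ^ (i + (t : ℤ)) • m)
      (y' := f • k ^ (i' + (t : ℤ)) • m) (η := C) (η' := 4 * ε + C) b1 (by omega)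
    omega
  obtain ⟨s, t, hst, htN, he⟩ := hN m _ key
  refine ⟨j * (t - s), Nat.mul_pos hj (by omega), ?_⟩
  have h3 : f * k ^ ((t : ℤ) - s) = k ^ ((t : ℤ) - s) * f := by
    have h4 : k ^ (i + (t : ℤ)) * (k ^ (-(i + (s : ℤ))) * f * k ^ (i' + (s : ℤ))) *
        k ^ (-(i' + (s : ℤ)))
        = k ^ (i + (t : ℤ)) * (k ^ (-(i + (t : ℤ))) * f * k ^ (i' + (t : ℤ))) *
        k ^ (-(i' + (s : ℤ))) := by rw [he]
    have h5 : k ^ (i + (t : ℤ)) * (k ^ (-(i + (s : ℤ))) * f * k ^ (i' + (s : ℤ))) *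
        k ^ (-(i' + (s : ℤ))) = k ^ ((t : ℤ) - s) * f := by
      have e1 : k ^ (i + (t : ℤ)) * k ^ (-(i + (s : ℤ))) = k ^ ((t : ℤ) - s) := by
        rw [← zpow_add]
        congr 1
        ring
      rw [← e1]
      group
    have h6 : k ^ (i + (t : ℤ)) * (k ^ (-(i + (t : ℤ))) * f * k ^ (i' + (t : ℤ))) *
        k ^ (-(i' + (s : ℤ))) = f * k ^ ((t : ℤ) - s) := by
      have e1 : k ^ (i' + (t : ℤ)) * k ^ (-(i' + (s : ℤ))) = k ^ ((t : ℤ) - s) := by
        rw [← zpow_add]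
        congr 1
        ring
      rw [← e1]
      group
    rw [h5, h6] at h4
    exact h4.symm
  have e5 : k ^ ((t : ℤ) - s) = g ^ (j * (t - s)) := by
    rw [pow_mul, ← hk, ← zpow_natCast]
    congr 1
    omega
  rw [e5] at h3
  exact h3

/-- Overlap in opposite directions. -/
theorem Axis.opp_dir {ε R : ℕ} {k : G} {m : X} {C : ℕ}
    (h : Axis k m C) (hiso : IsoAct G X)
    (hR : ∀ (h : G) (y z : X), d (h • y) z ≤ 3 * ε + C → d (h • z) y ≤ 3 * ε + C → d y z ≤ R)
    {f : G} {i l i' l' : ℤ} (hil : i ≤ l)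
    (hil' : l' ≤ i') (h1 : d (k ^ i • m) (f • k ^ i' • m) ≤ ε)
    (h2 : d (k ^ l • m) (f • k ^ l' • m) ≤ ε) : d (k ^ i • m) (k ^ l • m) ≤ R := by
  refine hR (f * k ^ (i' - l)) (k ^ i • m) (k ^ l • m) ?_ ?_
  · -- `h x_i = f x_{i' - (l - i)}` is near `f x_{l'}`
    have e1 : (f * k ^ (i' - l)) • k ^ i • m = f • k ^ (i' - (l - i)) • m := by
      rw [mul_smul, ← mul_smul (k ^ (i' - l)), ← zpow_add]
      congr 3
      ring
    rw [e1]
    have t1 := d_tri (f • k ^ (i' - (l - i)) • m) (f • k ^ l' • m) (k ^ l • m)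
    have i1 := hiso f (k ^ (i' - (l - i)) • m) (k ^ l' • m)
    have c1 := d_comm (f • k ^ l' • m) (k ^ l • m)
    have i3 := hiso f (k ^ i' • m) (k ^ l' • m)
    have t3 := d_tri (f • k ^ i' • m) (k ^ i • m) (f • k ^ l' • m)
    have t4 := d_tri (k ^ i • m) (k ^ l • m) (f • k ^ l' • m)
    have t5 := d_tri (k ^ i • m) (f • k ^ i' • m) (k ^ l • m)
    have t6 := d_tri (f • k ^ i' • m) (f • k ^ l' • m) (k ^ l • m)
    have c2 := d_comm (f • k ^ i' • m) (k ^ i • m)
    have c3 := d_comm (k ^ i' • m) (k ^ l' • m)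
    -- distances from `x_{i'}`
    have e2 := Axis.dist_eq hiso k m hil
    have e3 := Axis.dist_eq hiso k m (i := i' - (l - i)) (j := i') (by omega)
    have e4 : (i' - (i' - (l - i))).toNat = (l - i).toNat := by omega
    rw [e4] at e3
    have c4 := d_comm (k ^ (i' - (l - i)) • m) (k ^ i' • m)
    rcases le_total l' (i' - (l - i)) with hh | hh
    · have b := h.btw hiso (i := l') (j := i' - (l - i)) (l := i') hh (by omega)
      have c5 := d_comm (k ^ l' • m) (k ^ (i' - (l - i)) • m)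
      omega
    · have b := h.btw hiso (i := i' - (l - i)) (j := l') (l := i') hh (by omega)
      omega
  · have e1 : (f * k ^ (i' - l)) • k ^ l • m = f • k ^ i' • m := by
      rw [mul_smul, ← mul_smul (k ^ (i' - l)), ← zpow_add]
      congr 3
      ring
    rw [e1, d_comm]
    omega

theorem elc_periph {p : ℕ} (hp : p.Prime) (hp2 : p ≠ 2) {δ : ℕ} (hyp : Hyp δ X)
    (hG : Geom G X) (hT : PTors p G) {g : G} {j : ℕ} (hj : 1 ≤ j) {m : X} {C : ℕ}
    (h : Axis (g ^ j) m C) : Periph (Elc g) m := by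
  have hiso := hG.iso
  refine ⟨⟨2 * (4 * (4 * C + 5 * δ) + C) + δ, ?_⟩, ?_⟩
  · intro a ha b hb x hx
    obtain ⟨i, hi⟩ := h.near_elc hyp hiso ha
    obtain ⟨l, hl⟩ := h.near_elc hyp hiso hb
    set k : G := g ^ j with hk
    have t1 := d_tri (k ^ i • m) (a • m) x
    have t2 := d_tri x (b • m) (k ^ l • m)
    have t3 := d_tri (a • m) (k ^ i • m) (b • m)
    have t4 := d_tri (k ^ i • m) (k ^ l • m) (b • m)
    have c1 := d_comm (k ^ i • m) (a • m)
    have c2 := d_comm (k ^ l • m) (b • m)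
    have main : ∃ q : ℤ, d x (k ^ q • m) ≤ 2 * (4 * (4 * C + 5 * δ) + C) + δ := by
      rcases le_total i l with hil | hil
      · obtain ⟨q, -, -, hq⟩ := h.near (e := 4 * (4 * C + 5 * δ)) hyp hiso hil x (by omega)
        exact ⟨q, hq⟩
      · have c3 := d_comm (k ^ i • m) (k ^ l • m)
        have c4 := d_comm (k ^ i • m) x
        have c5 := d_comm (k ^ l • m) x
        obtain ⟨q, -, -, hq⟩ := h.near (e := 4 * (4 * C + 5 * δ)) hyp hiso hil x (by omega)
        exact ⟨q, hq⟩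
    obtain ⟨q, hq⟩ := main
    exact ⟨k ^ q, (Elc g).zpow_mem (pow_mem_elc g j) q, by rw [one_mul]; exact hq⟩
  · intro r
    set r₁ : ℕ := r + (4 * C + 5 * δ) with hr₁
    obtain ⟨N₁, hN⟩ := exists_pigeon hG (5 * (2 * r₁) + C + δ)
    obtain ⟨R, hR⟩ := noswap hp hp2 hyp hG hT (3 * (2 * r₁) + C)
    refine ⟨2 * r₁ + N₁ * C + 2 * (2 * r₁) + R, ?_⟩
    intro f hf u v hu hv hfu hfv
    by_contra hcon
    push Not at hcon
    -- points of the axis near `u, v` and of its image near `u, v`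
    have near1 : ∀ w : X, Near (Elc g) m r 1 w → ∃ i : ℤ, d w ((g ^ j) ^ i • m) ≤ r₁ := by
      rintro w ⟨a, ha, hw⟩
      rw [one_mul] at hw
      obtain ⟨i, hi⟩ := h.near_elc hyp hiso ha
      have t := d_tri w (a • m) ((g ^ j) ^ i • m)
      exact ⟨i, by omega⟩
    have near2 : ∀ w : X, Near (Elc g) m r f w → ∃ i : ℤ, d w (f • (g ^ j) ^ i • m) ≤ r₁ := by
      rintro w ⟨a, ha, hw⟩
      obtain ⟨i, hi⟩ := h.near_elc hyp hiso ha
      have t := d_tri w ((f * a) • m) (f • (g ^ j) ^ i • m)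
      have e : d ((f * a) • m) (f • (g ^ j) ^ i • m) = d (a • m) ((g ^ j) ^ i • m) := by
        rw [mul_smul, hiso]
      exact ⟨i, by omega⟩
    obtain ⟨i, hi⟩ := near1 u hu
    obtain ⟨l, hl⟩ := near1 v hv
    obtain ⟨i', hi'⟩ := near2 u hfu
    obtain ⟨l', hl'⟩ := near2 v hfv
    set k : G := g ^ j with hk
    have q1 : d (k ^ i • m) (f • k ^ i' • m) ≤ 2 * r₁ := by
      have t := d_tri (k ^ i • m) u (f • k ^ i' • m)
      have c := d_comm (k ^ i • m) u
      omega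
    have q2 : d (k ^ l • m) (f • k ^ l' • m) ≤ 2 * r₁ := by
      have t := d_tri (k ^ l • m) v (f • k ^ l' • m)
      have c := d_comm (k ^ l • m) v
      omega
    have q3 : d u v ≤ 2 * r₁ + d (k ^ i • m) (k ^ l • m) := by
      have t1 := d_tri u (k ^ i • m) v
      have t2 := d_tri (k ^ i • m) (k ^ l • m) v
      have c := d_comm (k ^ l • m) v
      omega
    have q4 : d (k ^ i • m) (k ^ l • m) ≤ d (k ^ i' • m) (k ^ l' • m) + 2 * (2 * r₁) := by
      have i3 := hiso f (k ^ i' • m) (k ^ l' • m)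
      have t1 := d_tri (k ^ i • m) (f • k ^ i' • m) (k ^ l • m)
      have t2 := d_tri (f • k ^ i' • m) (f • k ^ l' • m) (k ^ l • m)
      have c := d_comm (f • k ^ l' • m) (k ^ l • m)
      omega
    -- long segments contain many orbit points
    have many : ∀ a b : ℤ, a ≤ b → N₁ * C < d (k ^ a • m) (k ^ b • m) → a + N₁ ≤ b := by
      intro a b hab hd
      by_contra hc
      push Not at hc
      rw [Axis.dist_eq hiso k m hab] at hd
      have h1 := h.dist_le hiso (b - a).toNat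
      have h2 : (b - a).toNat * C ≤ N₁ * C := Nat.mul_le_mul_right _ (by omega)
      omega
    have c1 := d_comm (k ^ i • m) (k ^ l • m)
    have c2 := d_comm (k ^ i' • m) (k ^ l' • m)
    rcases le_total i l with hil | hil
    · rcases le_total i' l' with hil' | hil'
      · exact hf (h.same_dir hj hyp hiso hN (many i l hil (by omega))
          (many i' l' hil' (by omega)) q1 q2)
      · have := h.opp_dir (ε := 2 * r₁) hiso hR hil hil' q1 q2
        omega
    · rcases le_total i' l' with hil' | hil'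
      · have := h.opp_dir (ε := 2 * r₁) hiso hR hil hil' q2 q1
        omega
      · exact hf (h.same_dir hj hyp hiso hN (many l i hil (by omega))
          (many l' i' hil' (by omega)) q2 q1)

end Pool.Agent.Lib.H14E
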