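import Pool.Agent.Lib.H14E.N3

/-!
# H14E, module F5: the subgroup `M̃` for the W-step
-/

set_option autoImplicit false

namespace Pool.Agent.Lib.H14E

section

variable {G : Type} [Group G]

/-- Powers of `w₀ ^ i * s`. -/
theorem wf_pow {S D : Subgroup G} (hS : FinNormal S D) {w₀ : G} (hw₀ : w₀ ∈ D) (i : ℤ) {s : G}
    (hs : s ∈ S) (n : ℕ) : ∃ s' ∈ S, (w₀ ^ i * s) ^ n = w₀ ^ (i * n) * s' := by
  induction n with
  | zero => exact ⟨1, S.one_mem, by simp⟩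
  | succ n ih =>
    obtain ⟨s', hs', e⟩ := ih
    refine ⟨(w₀ ^ (-i)) * s' * (w₀ ^ (-i))⁻¹ * s, S.mul_mem ?_ hs, ?_⟩
    · exact hS.nrm _ (D.zpow_mem hw₀ _) _ hs'
    · rw [pow_succ, e]
      have e1 : i * ((n + 1 : ℕ) : ℤ) = i * n + i := by push_cast; ring
      rw [e1, zpow_add]
      group

/-- A commutator of a lift of an element commuting with an element of finite order. -/
theorem wf_comm {E : Type} [Group E] {π : E →* G} {z : E} (hE : CExt π z) {u s : E} {n : ℕ}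
    (hn : 1 ≤ n) (hs : π s ^ n = 1) (hc : π u * π s = π s * π u) : u * s = s * u := by
  have h1 : u * s * u⁻¹ * s⁻¹ ∈ π.ker := by
    rw [MonoidHom.mem_ker, map_mul, map_mul, map_mul, map_inv, map_inv, hc]
    group
  have h2 : s ^ n ∈ π.ker := by
    rw [MonoidHom.mem_ker, map_pow]
    exact hs
  rw [hE.ker, Subgroup.mem_zpowers_iff] at h1 h2
  obtain ⟨b, hb⟩ := h1
  obtain ⟨f, hf⟩ := h2
  have hzc : ∀ (i : ℤ) (x : E), z ^ i * x = x * z ^ i := by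
    intro i x
    have : Commute z x := hE.cent x
    exact (this.zpow_left i).eq
  have h3 : u * s * u⁻¹ = z ^ b * s := by rw [hb]; group
  have h4 : u * s ^ n * u⁻¹ = z ^ (b * n) * s ^ n := by
    rw [← conj_pow, h3, (show Commute (z ^ b) s from hzc b s).mul_pow, zpow_mul, zpow_natCast]
  rw [← hf] at h4
  have h5 : u * z ^ f * u⁻¹ = z ^ f := by
    rw [← hzc f u]
    group
  rw [h5] at h4
  have h6 : z ^ (b * n) = 1 := by
    have : z ^ f = z ^ (b * n) * z ^ f := h4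
    exact (mul_eq_right.1 this.symm)
  have h7 := hE.inf _ h6
  have h8 : b = 0 := by
    rcases mul_eq_zero.1 h7 with h | h
    · exact h
    · omega
  rw [h8, zpow_zero, one_mul] at h3
  have : u * s * u⁻¹ * u = s * u := by rw [h3]
  rw [inv_mul_cancel_right] at this
  exact this

/-- The index of the cyclic subgroup. -/
theorem wf_index {p : ℕ} (hp : p.Prime) (hT : PTors p G) {S D : Subgroup G}
    (hS : FinNormal S D) {w₀ : G} (hw₀ : w₀ ∈ D)
    (hdec : ∀ a ∈ D, ∃ i : ℤ, ∃ s ∈ S, a = w₀ ^ i * s) {e : ℕ}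
    (hcen : ∀ a ∈ D, w₀ ^ (p ^ e) * a = a * w₀ ^ (p ^ e)) :
    ∃ k : ℕ, (Subgroup.zpowers (w₀ ^ (p ^ e))).relIndex D = p ^ k := by
  classical
  have : Fact p.Prime := ⟨hp⟩
  have hcenC : ∀ a ∈ D, Commute (w₀ ^ (p ^ e)) a := fun a ha => hcen a ha
  set M := (Subgroup.zpowers (w₀ ^ (p ^ e))).subgroupOf D with hM
  have hMn : M.Normal := by
    refine ⟨fun x hx g => ?_⟩
    rw [hM, Subgroup.mem_subgroupOf] at hx ⊢
    obtain ⟨i, hi⟩ := Subgroup.mem_zpowers_iff.1 hx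
    have h1 : Commute (x : G) (g : G) := by
      rw [← hi]
      exact (hcenC g g.2).zpow_left i
    have h2 : ((g * x * g⁻¹ : D) : G) = x := by
      rw [Subgroup.coe_mul, Subgroup.coe_mul, Subgroup.coe_inv, ← h1.eq, mul_inv_cancel_right]
    rw [h2]
    exact hx
  have hpe : 0 < p ^ e := Nat.pow_pos hp.pos
  -- the quotient is finite
  have hfin : Finite (D ⧸ M) := by
    have hSf : Finite S := hS.fin
    refine Finite.of_surjective (fun q : Fin (p ^ e) × S =>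
      ((⟨w₀ ^ (q.1 : ℕ) * q.2, D.mul_mem (D.pow_mem hw₀ _) (hS.le q.2.2)⟩ : D) : D ⧸ M)) ?_
    intro q
    obtain ⟨a, rfl⟩ := QuotientGroup.mk_surjective q
    obtain ⟨i, s, hs, ea⟩ := hdec a a.2
    have h1 := Int.emod_lt_of_pos i (by omega : (0 : ℤ) < (p ^ e : ℕ))
    have h2 := Int.emod_nonneg i (by omega : ((p ^ e : ℕ) : ℤ) ≠ 0)
    refine ⟨(⟨(i % (p ^ e : ℕ)).toNat, by omega⟩, ⟨s, hs⟩), ?_⟩
    rw [QuotientGroup.eq]
    rw [hM, Subgroup.mem_subgroupOf, Subgroup.mem_zpowers_iff]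
    refine ⟨i / (p ^ e : ℕ), ?_⟩
    have h3 : (a : G) = (w₀ ^ (p ^ e)) ^ (i / (p ^ e : ℕ)) * (w₀ ^ (i % (p ^ e : ℕ)).toNat * s) := by
      rw [ea, ← mul_assoc, ← zpow_natCast w₀ (p ^ e), ← zpow_mul,
        ← zpow_natCast w₀ (i % (p ^ e : ℕ)).toNat,
        Int.toNat_of_nonneg h2, ← zpow_add, Int.mul_ediv_add_emod]
    have h4 : Commute ((w₀ ^ (p ^ e)) ^ (i / (p ^ e : ℕ)))
        (w₀ ^ (i % (p ^ e : ℕ)).toNat * s) :=
      (hcenC _ (D.mul_mem (D.pow_mem hw₀ _) (hS.le hs))).zpow_left _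
    rw [Subgroup.coe_mul, Subgroup.coe_inv, h3, h4.eq]
    show _ = (w₀ ^ (i % (p ^ e : ℕ)).toNat * s)⁻¹ * _
    rw [inv_mul_cancel_left]
  -- it is a `p`-group
  have hpg : IsPGroup p (D ⧸ M) := by
    intro q
    obtain ⟨a, rfl⟩ := QuotientGroup.mk_surjective q
    obtain ⟨i, s, hs, ea⟩ := hdec a a.2
    obtain ⟨s', hs', e1⟩ := wf_pow hS hw₀ i hs (p ^ e)
    have hSf : Finite S := hS.fin
    obtain ⟨b, hb⟩ := hT s' (Submonoid.isOfFinOrder_coe.2 (isOfFinOrder_of_finite (⟨s', hs'⟩ : S)))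
    refine ⟨e + b, ?_⟩
    rw [← QuotientGroup.mk_pow, QuotientGroup.eq_one_iff, hM, Subgroup.mem_subgroupOf,
      Subgroup.mem_zpowers_iff]
    refine ⟨i * (p ^ b : ℕ), ?_⟩
    have h5 : Commute (w₀ ^ (i * (p ^ e : ℕ))) s' := by
      have : w₀ ^ (i * (p ^ e : ℕ)) = (w₀ ^ (p ^ e)) ^ i := by
        rw [mul_comm, zpow_mul, zpow_natCast]
      rw [this]
      exact (hcenC s' (hS.le hs')).zpow_left i
    rw [Subgroup.coe_pow, ea, pow_add, pow_mul, e1, h5.mul_pow, hb, mul_one,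
      ← zpow_natCast w₀ (p ^ e), ← zpow_mul, ← zpow_natCast _ (p ^ b), ← zpow_mul]
    congr 1
    ring
  obtain ⟨k, hk⟩ := (IsPGroup.iff_card (p := p) (G := D ⧸ M)).1 hpg
  exact ⟨k, by rw [← hk]; rfl⟩

end

theorem w_fill {p : ℕ} (hp : p.Prime) {G : Type} [Group G] (hT : PTors p G) (hN : NoRec G)
    {S D : Subgroup G} (hS : FinNormal S D) {w₀ : G} (hw₀ : w₀ ∈ D)
    (hinf : ¬ IsOfFinOrder w₀) (hdec : ∀ a ∈ D, ∃ i : ℤ, ∃ s ∈ S, a = w₀ ^ i * s)
    (htor : ∀ a ∈ D, IsOfFinOrder a → a ∈ S)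
    {E : Type} [Group E] (π : E →* G) (z : E) (hE : CExt π z) (w : E)
    (hw : ¬ IsOfFinOrder (π w)) (hwD : π w ∈ D) (F₁ Φ : Finset G) :
    ∃ Mt : Subgroup E, FillData p π z D S F₁ ∅ Φ Mt ∧
      ∃ N : ℕ, 1 ≤ N ∧ ∃ n : ℤ, n ≠ 0 ∧ w ^ N * z ^ n ∈ Mt := by
  classical
  have hSf : Finite S := hS.fin
  have hinj : Function.Injective fun i : ℤ => w₀ ^ i :=
    injective_zpow_iff_not_isOfFinOrder.2 hinf
  have hsfin : ∀ s ∈ S, IsOfFinOrder s := fun s hs =>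
    Submonoid.isOfFinOrder_coe.2 (isOfFinOrder_of_finite (⟨s, hs⟩ : S))
  -- `w₀ ^ (p ^ a)` centralises `S`
  obtain ⟨a, ha⟩ := exists_pPow_comm' hN hp hT hS.fin (x := w₀)
    (fun s hs => hS.nrm w₀ hw₀ s hs)
  -- avoid `Φ`
  obtain ⟨B, hB⟩ : ∃ B : ℕ, ∀ l : ℤ, w₀ ^ l ∈ Φ → l.natAbs ≤ B := by
    have h1 : {l : ℤ | w₀ ^ l ∈ Φ}.Finite := by
      refine Set.Finite.of_finite_image (f := fun l : ℤ => w₀ ^ l)
        (Φ.finite_toSet.subset ?_) hinj.injOn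
      rintro _ ⟨l, hl, rfl⟩
      exact hl
    obtain ⟨B, hB⟩ := (h1.image Int.natAbs).bddAbove
    exact ⟨B, fun l hl => hB ⟨l, hl, rfl⟩⟩
  set e : ℕ := max a (B + 1) with he
  have hBe : B < p ^ e := by
    have h1 : e < p ^ e := Nat.lt_pow_self hp.one_lt
    omega
  have hcenS : ∀ s ∈ S, Commute (w₀ ^ (p ^ e)) s := by
    intro s hs
    obtain ⟨c, hc⟩ := Nat.exists_eq_add_of_le (le_max_left a (B + 1))
    rw [← he] at hc
    rw [hc, pow_add, pow_mul]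
    exact (show Commute (w₀ ^ (p ^ a)) s from ha s hs).pow_left _
  have hcen : ∀ x ∈ D, w₀ ^ (p ^ e) * x = x * w₀ ^ (p ^ e) := by
    intro x hx
    obtain ⟨i, s, hs, rfl⟩ := hdec x hx
    exact (((Commute.refl w₀).pow_left _).zpow_right i).mul_right (hcenS s hs)
  -- lifts
  obtain ⟨v, hv⟩ := hE.surj w₀
  set u : E := v ^ (p ^ e) with hu
  have hπu : π u = w₀ ^ (p ^ e) := by rw [hu, map_pow, hv]
  have hzc : ∀ (i : ℤ) (x : E), Commute (z ^ i) x := by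
    intro i x
    have : Commute z x := hE.cent x
    exact this.zpow_left i
  have hcenE : ∀ x : E, π x ∈ D → Commute u x := by
    intro x hx
    obtain ⟨i, s, hs, ex⟩ := hdec _ hx
    have h1 : π (v ^ (-i) * x) = s := by
      rw [map_mul, map_zpow, hv, ex]
      group
    obtain ⟨n, hn, hn1⟩ := (hsfin s hs).exists_pow_eq_one
    have h2 : Commute u (v ^ (-i) * x) := by
      refine wf_comm hE (n := n) hn (by rw [h1]; exact hn1) ?_
      rw [h1, hπu]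
      exact hcenS s hs
    have h3 : x = v ^ i * (v ^ (-i) * x) := by group
    rw [h3]
    exact (((Commute.refl v).pow_left _).zpow_right i).mul_right h2
  -- the exponent of `S`
  set n₀ : ℕ := Nat.card S with hn₀
  have hn₀pos : 0 < n₀ := Nat.card_pos
  have hn₀e : ∀ s ∈ S, s ^ n₀ = 1 := by
    intro s hs
    exact congrArg Subtype.val (pow_card_eq_one' (G := S) (x := ⟨s, hs⟩))
  -- `w`
  obtain ⟨j, s, hs, ew⟩ := hdec _ hwD
  have hj : j ≠ 0 := by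
    intro h0
    rw [h0, zpow_zero, one_mul] at ew
    exact hw (by rw [ew]; exact hsfin s hs)
  obtain ⟨s', hs', e1⟩ := wf_pow hS hw₀ j hs (p ^ e)
  have e2 : π w ^ (p ^ e * n₀) = w₀ ^ (j * (p ^ e : ℕ) * n₀) := by
    have h5 : Commute (w₀ ^ (j * (p ^ e : ℕ))) s' := by
      have : w₀ ^ (j * (p ^ e : ℕ)) = (w₀ ^ (p ^ e)) ^ j := by
        rw [mul_comm, zpow_mul, zpow_natCast]
      rw [this]
      exact (hcenS s' hs').zpow_left j
    rw [ew, pow_mul, e1, h5.mul_pow, hn₀e s' hs', mul_one, ← zpow_natCast _ n₀, ← zpow_mul]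
  have e3 : ∃ f : ℤ, w ^ (p ^ e * n₀) = u ^ (j * n₀) * z ^ f := by
    have h1 : (u ^ (j * n₀))⁻¹ * w ^ (p ^ e * n₀) ∈ π.ker := by
      have h0 : π (u ^ (j * (n₀ : ℤ))) = (w₀ ^ (p ^ e)) ^ (j * (n₀ : ℤ)) := by
        rw [map_zpow, hπu]
      rw [MonoidHom.mem_ker, map_mul, map_inv, h0, map_pow, e2,
        ← zpow_natCast w₀ (p ^ e), ← zpow_mul]
      have : ((p ^ e : ℕ) : ℤ) * (j * n₀) = j * (p ^ e : ℕ) * n₀ := by ring
      rw [this, inv_mul_cancel]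
    rw [hE.ker, Subgroup.mem_zpowers_iff] at h1
    obtain ⟨f, hf⟩ := h1
    exact ⟨f, by rw [hf, mul_inv_cancel_left]⟩
  obtain ⟨f, hf⟩ := e3
  -- the exponent of `z`
  have hjn : j * (n₀ : ℤ) ≠ 0 := mul_ne_zero hj (by omega)
  obtain ⟨c, hc⟩ : ∃ c : ℤ, c * (j * n₀) - f ≠ 0 := by
    by_cases h : f = 0
    · exact ⟨1, by rw [h, one_mul, sub_zero]; exact hjn⟩
    · exact ⟨0, by rw [zero_mul, zero_sub]; exact neg_ne_zero.2 h⟩
  have hπg : π (u * z ^ c) = w₀ ^ (p ^ e) := by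
    have hz : π z = 1 := by
      have : z ∈ π.ker := by rw [hE.ker]; exact Subgroup.mem_zpowers z
      exact this
    rw [map_mul, map_zpow, hz, one_zpow, mul_one, hπu]
  have hmap : (Subgroup.zpowers (u * z ^ c)).map π = Subgroup.zpowers (w₀ ^ (p ^ e)) := by
    rw [MonoidHom.map_zpowers, hπg]
  have hpow0 : ∀ i : ℤ, IsOfFinOrder ((w₀ ^ (p ^ e)) ^ i) → i = 0 := by
    intro i hi
    obtain ⟨n, hn, hn1⟩ := hi.exists_pow_eq_one
    have h1 : w₀ ^ (((p ^ e : ℕ) : ℤ) * i * n) = w₀ ^ (0 : ℤ) := by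
      rw [zpow_zero, ← hn1, zpow_mul, zpow_mul, zpow_natCast, zpow_natCast]
    have h2 := hinj h1
    have hpe : ((p ^ e : ℕ) : ℤ) ≠ 0 := by
      have : 0 < p ^ e := Nat.pow_pos hp.pos
      omega
    rcases mul_eq_zero.1 h2 with h | h
    · rcases mul_eq_zero.1 h with h | h
      · exact absurd h hpe
      · exact h
    · omega
  refine ⟨Subgroup.zpowers (u * z ^ c), ⟨?_, ?_, ?_, ?_, ?_, ?_, ?_⟩, p ^ e * n₀,
    Nat.mul_pos (Nat.pow_pos hp.pos) hn₀pos, c * (j * n₀) - f, hc, ?_⟩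
  · -- le
    intro x hx
    obtain ⟨i, rfl⟩ := Subgroup.mem_zpowers_iff.1 hx
    rw [map_zpow, hπg]
    exact D.zpow_mem (D.pow_mem hw₀ _) _
  · -- nrm
    intro x hx y hy
    obtain ⟨i, rfl⟩ := Subgroup.mem_zpowers_iff.1 hy
    have h1 : Commute (u * z ^ c) x := (hcenE x hx).mul_left (hzc c x)
    have h2 : x * (u * z ^ c) ^ i * x⁻¹ = (u * z ^ c) ^ i := by
      rw [← (h1.zpow_left i).eq, mul_inv_cancel_right]
    rw [h2]
    exact Subgroup.zpow_mem_zpowers _ i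
  · -- zfree
    intro n hn
    obtain ⟨i, hi⟩ := Subgroup.mem_zpowers_iff.1 hn
    have hz : π z = 1 := by
      have : z ∈ π.ker := by rw [hE.ker]; exact Subgroup.mem_zpowers z
      exact this
    have h1 := congrArg π hi
    rw [map_zpow, hπg, map_zpow, hz, one_zpow] at h1
    have h2 : i = 0 := hpow0 i (by rw [h1]; exact IsOfFinOrder.one)
    rw [h2, zpow_zero] at hi
    exact hE.inf n hi.symm
  · -- index
    rw [hmap]
    exact wf_index hp hT hS hw₀ hdec hcen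
  · -- avoid
    intro x hx hxΦ
    rw [hmap, Subgroup.mem_zpowers_iff] at hx
    obtain ⟨i, rfl⟩ := hx
    have h1 : (w₀ ^ (p ^ e)) ^ i = w₀ ^ (((p ^ e : ℕ) : ℤ) * i) := by
      rw [zpow_mul, zpow_natCast]
    have h2 := hB _ (by rw [← h1]; exact hxΦ)
    rw [Int.natAbs_mul, Int.natAbs_natCast] at h2
    have h3 : i.natAbs = 0 := by
      by_contra h
      have : p ^ e * 1 ≤ p ^ e * i.natAbs := Nat.mul_le_mul_left _ (Nat.pos_of_ne_zero h)
      omega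
    have h4 : i = 0 := Int.natAbs_eq_zero.1 h3
    rw [h4, zpow_zero]
  · -- fusion
    intro F _ _ _ f₁ f₂ _ _ hf₁ hf₂ hM
    refine ⟨1, fun x => ?_⟩
    rw [one_mul, inv_one, mul_one]
    have h1 : f₁ x ∈ S := htor _ (hf₁ x) (f₁.isOfFinOrder (isOfFinOrder_of_finite x))
    have h2 : f₂ x ∈ S := htor _ (hf₂ x) (f₂.isOfFinOrder (isOfFinOrder_of_finite x))
    have h3 : IsOfFinOrder ((f₁ x)⁻¹ * f₂ x) := hsfin _ (S.mul_mem (S.inv_mem h1) h2)
    have h4 := hM x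
    rw [hmap, Subgroup.mem_zpowers_iff] at h4
    obtain ⟨i, hi⟩ := h4
    have h5 : i = 0 := hpow0 i (by rw [hi]; exact h3)
    rw [h5, zpow_zero] at hi
    exact (inv_mul_eq_one.1 hi.symm).symm
  · -- (HT)
    intro σ ζ k e' _ _ _ hσ _ _ _ hfin hσS
    exact absurd (htor σ hσ hfin) hσS
  · -- the power of `w`
    have h1 : w ^ (p ^ e * n₀) * z ^ (c * (j * n₀) - f) = (u * z ^ c) ^ (j * (n₀ : ℤ)) := by
      have h2 : Commute u (z ^ c) := (hzc c u).symm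
      rw [hf, h2.mul_zpow, mul_assoc, ← zpow_add, ← zpow_mul]
      congr 2
      ring
    rw [h1]
    exact Subgroup.zpow_mem_zpowers _ _

end Pool.Agent.Lib.H14E
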