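import Pool.Agent.Lib.H14E.Enum

/-!
# H14E, module I: the filling step on the central extension
-/

set_option autoImplicit false

namespace Pool.Agent.Lib.H14E

open Pool.Agent.H76.Ext

theorem fill_map {E G : Type} [Group E] [Group G] {π : E →* G} (hs : Function.Surjective π)
    (Mt : Subgroup E) : (Subgroup.normalClosure (Mt : Set E)).map π =
      Subgroup.normalClosure ((Mt.map π : Subgroup G) : Set G) := by
  rw [Subgroup.coe_map]
  exact (Subgroup.map_normalClosure (Mt : Set E) π hs)

theorem fill_good {p : ℕ} {E G : Type} [Group E] [Group G] {π : E →* G} {z : E}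
    (hE : CExt π z) {Mt : Subgroup E}
    (h1 : Stage p (G ⧸ Subgroup.normalClosure ((Mt.map π : Subgroup G) : Set G)))
    (h2 : ∀ n : ℤ, z ^ n ∈ Subgroup.normalClosure (Mt : Set E) → n = 0) :
    GoodE p (E ⧸ Subgroup.normalClosure (Mt : Set E)) (QuotientGroup.mk z) := by
  have hm := fill_map hE.surj Mt
  have hle : Subgroup.normalClosure (Mt : Set E) ≤
      (Subgroup.normalClosure ((Mt.map π : Subgroup G) : Set G)).comap π := by
    rw [← Subgroup.map_le_iff_le_comap, hm]
  refine ⟨G ⧸ Subgroup.normalClosure ((Mt.map π : Subgroup G) : Set G), inferInstance,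
    QuotientGroup.map _ _ π hle, ⟨?_, ?_, ?_, ?_⟩, h1⟩
  · intro x
    induction x using QuotientGroup.induction_on with | _ g
    obtain ⟨e, rfl⟩ := hE.surj g
    exact ⟨QuotientGroup.mk e, rfl⟩
  · ext x
    induction x using QuotientGroup.induction_on with | _ e
    rw [MonoidHom.mem_ker, QuotientGroup.map_mk, QuotientGroup.eq_one_iff, ← hm]
    constructor
    · rintro ⟨n, hn, hne⟩
      have h3 : e * n⁻¹ ∈ π.ker := by
        rw [MonoidHom.mem_ker, map_mul, map_inv, hne, mul_inv_cancel]
      rw [hE.ker, Subgroup.mem_zpowers_iff] at h3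
      obtain ⟨k, hk⟩ := h3
      refine Subgroup.mem_zpowers_iff.2 ⟨k, ?_⟩
      rw [← QuotientGroup.mk_zpow, hk, QuotientGroup.eq]
      have h4 : (e * n⁻¹)⁻¹ * e = n := by group
      rw [h4]
      exact hn
    · intro h3
      obtain ⟨k, hk⟩ := Subgroup.mem_zpowers_iff.1 h3
      rw [← QuotientGroup.mk_zpow, QuotientGroup.eq] at hk
      refine ⟨_, hk, ?_⟩
      have h4 : π z = 1 := by
        rw [← MonoidHom.mem_ker, hE.ker]
        exact Subgroup.mem_zpowers z
      rw [map_mul, map_inv, map_zpow, h4]
      simp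
  · intro x
    induction x using QuotientGroup.induction_on with | _ e
    rw [← QuotientGroup.mk_mul, ← QuotientGroup.mk_mul, hE.cent]
  · intro n hn
    rw [← QuotientGroup.mk_zpow, QuotientGroup.eq_one_iff] at hn
    exact h2 n hn

end Pool.Agent.Lib.H14E
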