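import Pool.Agent.Lib.H14E.D1
import Pool.Agent.Lib.H14E.D4
import Pool.Agent.Lib.H14E.D10

/-!
# H14E: the filling theorem (modules B, C, D)
-/

set_option autoImplicit false

namespace Pool.Agent.Lib.H14E

open Pool.Agent.Lib.H76.Morse GeoMet

/-- **Filling theorem.** Order of choices: `F₁` depends on the stage and `(D, y₀)`; then `F₂` is
arbitrary (it comes from (HT)); then `ρ` and the depth, i.e. `Φ`. -/
theorem filling {p : ℕ} (hp : p.Prime) (hp2 : p ≠ 2) {G X : Type} [Group G] [GeoMet X]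
    [MulAction G X] {δ : ℕ} (hX : Hyp δ X) (hG : Geom G X) (hT : PTors p G) (hN : NoRec G)
    {D S : Subgroup G} {y₀ : X} (hP : Periph D y₀) (hS : FinNormal S D) :
    ∃ F₁ : Finset G, ∀ F₂ : Finset G, ∃ Φ : Finset G, ∀ (E : Type) [Group E] (π : E →* G)
      (z : E), CExt π z → ∀ Mt : Subgroup E, FillData p π z D S F₁ F₂ Φ Mt →
        Stage p (G ⧸ Subgroup.normalClosure ((Mt.map π : Subgroup G) : Set G)) ∧
        ∀ n : ℤ, z ^ n ∈ Subgroup.normalClosure (Mt : Set E) → n = 0 := by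
  obtain ⟨δ', ρ₁, h1⟩ := d1_qd hp hX hG hP
  obtain ⟨F₁, h10⟩ := norec_quot hp hp2 hX hG hT hN hP hS δ'
  obtain ⟨ρ₄, h4⟩ := d4_ptors hp hG hT D y₀ δ'
  refine ⟨F₁, fun F₂ => ?_⟩
  obtain ⟨ρ₀, h10⟩ := h10 F₂
  obtain ⟨Φ, h1⟩ := h1 (ρ₀ + ρ₁ + ρ₄) (by omega)
  refine ⟨Φ, ?_⟩
  intro E _ π z hπ Mt hM
  obtain ⟨hqd, hz⟩ := h1 E π z hπ Mt S F₁ F₂ hM
  have hT' := h4 (ρ₀ + ρ₁ + ρ₄) (by omega) _ _ hqd
  refine ⟨⟨⟨Quo _ (Dot (perFam D y₀) (ρ₀ + ρ₁ + ρ₄)), quoGeo (dot_iso hG.iso) _, quoAct _, δ',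
    lf0 hG.iso hqd, d2_geom hp hG hqd⟩, hT', ?_⟩, hz⟩
  exact h10 (ρ₀ + ρ₁ + ρ₄) (by omega) _ _ hqd hM.ht hT'

end Pool.Agent.Lib.H14E
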