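import Pool.Agent.Lib.H14E.StepE
import Pool.Agent.Lib.H76.Ext.Equiv3

/-!
# H14E, module I: the negation of the frozen statement S03538 from the five interface theorems
-/

set_option autoImplicit false

namespace Pool.Agent.Lib.H14E

open Pool.Agent.H76.Ext

/-- There is an Engel group, periodic modulo its centre, whose commutator subgroup is not
periodic. -/
theorem exists_engel : ∃ (E : Type) (_ : Group E),
    EngelCentralByPeriodic E ∧ ¬ PeriodicCommutator E :=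
  exists_bad (stepE Nat.prime_three (by norm_num)) (startE Nat.prime_three (by norm_num))

theorem fin_two (h : ∀ (α : Type) (H : Subgroup (FreeGroup α)), H.Normal →
      (∀ g : FreeGroup α, ∃ n : ℕ, 1 ≤ n ∧ g ^ n ∈ H) →
      (∀ x y : FreeGroup α, ∃ n : ℕ, (fun z => z⁻¹ * y⁻¹ * z * y)^[n] x ∈ H) →
      ∀ P : Set (FreeGroup α),
        (∀ x, x ∈ P → x ∈ H) →
        (∀ x y, x ∈ P → y ∈ P → x * y ∈ P) →
        ((1 : FreeGroup α) ∉ P) →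
        (∀ x, x ∈ H → x ≠ 1 → (x ∈ P ∨ x⁻¹ ∈ P)) →
        (∀ g x, x ∈ P → g * x * g⁻¹ ∈ P) →
        ∃ Q : Set (FreeGroup α),
          (∀ x y, x ∈ Q → y ∈ Q → x * y ∈ Q) ∧
          (1 : FreeGroup α) ∉ Q ∧
          (∀ x : FreeGroup α, x ≠ 1 → (x ∈ Q ∨ x⁻¹ ∈ Q)) ∧
          (∀ g x, x ∈ Q → g * x * g⁻¹ ∈ Q) ∧
          P ⊆ Q) : ExtProp (FreeGroup (Fin 2)) := by
  intro H hH hper heng P hP
  obtain ⟨Q, hQ1, hQ2, hQ3, hQ4, hPQ⟩ := h (Fin 2) H hH ((isPeriodic_quotient H).1 hper)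
    ((isEngel_quotient H).1 heng) P hP.sub hP.mul hP.one hP.tot hP.conj
  refine ⟨Q, ⟨fun _ _ => trivial, hQ1, hQ2, fun x _ hx => hQ3 x hx, hQ4⟩, ?_⟩
  ext x
  constructor
  · intro hx
    exact ⟨hPQ hx, hP.sub x hx⟩
  · rintro ⟨hx, hxH⟩
    have hx1 : x ≠ 1 := by
      rintro rfl
      exact hQ2 hx
    rcases hP.tot x hxH hx1 with h' | h'
    · exact h'
    · exfalso
      have h6 := hQ1 _ _ hx (hPQ h')
      rw [mul_inv_cancel] at h6
      exact hQ2 h6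

theorem fin_not : ¬ (∀ (α : Type) (H : Subgroup (FreeGroup α)), H.Normal →
      (∀ g : FreeGroup α, ∃ n : ℕ, 1 ≤ n ∧ g ^ n ∈ H) →
      (∀ x y : FreeGroup α, ∃ n : ℕ, (fun z => z⁻¹ * y⁻¹ * z * y)^[n] x ∈ H) →
      ∀ P : Set (FreeGroup α),
        (∀ x, x ∈ P → x ∈ H) →
        (∀ x y, x ∈ P → y ∈ P → x * y ∈ P) →
        ((1 : FreeGroup α) ∉ P) →
        (∀ x, x ∈ H → x ≠ 1 → (x ∈ P ∨ x⁻¹ ∈ P)) →
        (∀ g x, x ∈ P → g * x * g⁻¹ ∈ P) →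
        ∃ Q : Set (FreeGroup α),
          (∀ x y, x ∈ Q → y ∈ Q → x * y ∈ Q) ∧
          (1 : FreeGroup α) ∉ Q ∧
          (∀ x : FreeGroup α, x ≠ 1 → (x ∈ Q ∨ x⁻¹ ∈ Q)) ∧
          (∀ g x, x ∈ Q → g * x * g⁻¹ ∈ Q) ∧
          P ⊆ Q) := by
  intro h
  obtain ⟨E, _, hE, hP⟩ := exists_engel
  refine hP (periodicCommutator_of_prod (fun E _ hE => prod_of_two (fun E _ hgen hE =>
    two_of_ext (fin_two h) E hgen hE) E hE) E hE)

end Pool.Agent.Lib.H14E
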