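import Pool.Agent.Lib.H14E.Core

/-!
# H14E, module D4: the algebra of flips (5.2 (f)-(i) of INVARIANTS.md)

Situation of 5.2 (long `g`): `g = e_i h_i⁻¹` in `G'` for all `i`, `e_i` in the image of `D`,
`k_i` the short lift of `e_i²`, `h_i` short, not in `D`, `h_{i+1} = k_i h_i⁻²`,
`f_i = h_i⁻¹ h_{i+1}` in `D`, `e_{i+1} = e_i f_i`.  The theorem `flip_false` says that this is
impossible as soon as no `e_i` is the image of a short element of `D`.
-/

set_option autoImplicit false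

namespace Pool.Agent.Lib.H14E

open Pointwise

/-- Almost malnormality of `D`: a conjugation by an element outside `D` which keeps an element
of `D` in `D` forces this element to have finite order. -/
def AMal {G : Type} [Group G] (D : Subgroup G) : Prop :=
  ∀ g : G, g ∉ D → ∀ x ∈ D, g * x * g⁻¹ ∈ D → IsOfFinOrder x

/-- An element of finite order in a `PTors p` group, `p` odd, is a power of its square. -/
lemma pow_half_of_ptors {p : ℕ} (hp : p.Prime) (hp2 : p ≠ 2) {G : Type} [Group G]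
    (hT : PTors p G) (y : G) (hy : IsOfFinOrder y) : ∃ n : ℕ, (y * y) ^ n = y := by
  obtain ⟨k, hk⟩ := hT y hy
  have hodd : Odd (p ^ k) := (hp.odd_of_ne_two hp2).pow
  obtain ⟨r, hr⟩ := hodd
  refine ⟨r + 1, ?_⟩
  have : (y * y) ^ (r + 1) = y ^ (p ^ k) * y := by
    rw [← pow_two, ← pow_mul, hr, ← pow_succ]
    congr 1
  rw [this, hk, one_mul]

/-- `y² ∈ D` implies `y ∈ D`. -/
lemma mem_of_sq_mem {p : ℕ} (hp : p.Prime) (hp2 : p ≠ 2) {G : Type} [Group G]
    (hT : PTors p G) {D : Subgroup G} (hD : AMal D) (y : G) (hy : y * y ∈ D) : y ∈ D := by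
  by_contra hn
  have h1 : IsOfFinOrder (y * y) := by
    apply hD y hn (y * y) hy
    have : y * (y * y) * y⁻¹ = y * y := by group
    rw [this]; exact hy
  have h2 : IsOfFinOrder y := by
    rw [← pow_two] at h1
    exact (isOfFinOrder_pow.1 h1).resolve_right (by norm_num)
  obtain ⟨n, hn'⟩ := pow_half_of_ptors hp hp2 hT y h2
  exact hn (hn' ▸ D.pow_mem hy n)

/-- (f): if `κ = h⁻¹ k h⁻¹` is in `D`, `k` in `D`, then `h` is in `D`. -/
lemma mem_of_kappa {p : ℕ} (hp : p.Prime) (hp2 : p ≠ 2) {G : Type} [Group G]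
    (hT : PTors p G) {D : Subgroup G} (hD : AMal D) (h k : G) (hk : k ∈ D)
    (hκ : h⁻¹ * k * h⁻¹ ∈ D) : h ∈ D := by
  have h1 : (h * (h⁻¹ * k * h⁻¹)) * (h * (h⁻¹ * k * h⁻¹)) = k * (h⁻¹ * k * h⁻¹) := by group
  have h2 : h * (h⁻¹ * k * h⁻¹) ∈ D := by
    apply mem_of_sq_mem hp hp2 hT hD
    rw [h1]
    exact D.mul_mem hk hκ
  have h3 := D.mul_mem h2 (D.inv_mem hκ)
  simpa [mul_assoc] using h3

/-- (g): `h (f f' k) h⁻¹ = k' f⁻¹` where `k = h f h²`, `h' = h f`, `k' = h' f' h'²`. -/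
lemma flip_identity {G : Type} [Group G] (h h' h'' k k' : G) (hk : h' = k * h⁻¹ * h⁻¹)
    (hk' : h'' = k' * h'⁻¹ * h'⁻¹) :
    h * ((h⁻¹ * h') * (h'⁻¹ * h'') * k) * h⁻¹ = k' * (h⁻¹ * h')⁻¹ := by
  have e1 : k = h' * h * h := by rw [hk]; group
  have e2 : k' = h'' * h' * h' := by rw [hk']; group
  rw [e1, e2]; group

/-- An element congruent to an element of finite order modulo a finite normal subgroup has
finite order. -/
lemma finOrder_of_mod {G : Type} [Group G] {S D : Subgroup G} (hS : FinNormal S D) (x y : G)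
    (hy : y ∈ D) (hxo : IsOfFinOrder x) (h : y⁻¹ * x ∈ S) : IsOfFinOrder y := by
  obtain ⟨n, hn, hxn⟩ := isOfFinOrder_iff_pow_eq_one.1 hxo
  -- `y ^ m` is congruent to `x ^ m`
  have key : ∀ m : ℕ, (y ^ m)⁻¹ * x ^ m ∈ S := by
    intro m
    induction m with
    | zero => simp
    | succ m ih =>
      have : (y ^ (m + 1))⁻¹ * x ^ (m + 1) =
          (y⁻¹ * ((y ^ m)⁻¹ * x ^ m) * y⁻¹⁻¹) * (y⁻¹ * x) := by
        rw [pow_succ, pow_succ]; group
      rw [this]
      exact S.mul_mem (hS.nrm _ (D.inv_mem hy) _ ih) h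
  have h1 : y ^ n ∈ S := by
    have := key n
    rw [hxn, mul_one] at this
    exact (S.inv_mem_iff).1 this
  have hfin : Finite S := hS.fin
  have h2 : IsOfFinOrder (⟨y ^ n, h1⟩ : S) := isOfFinOrder_of_finite _
  have h3 : IsOfFinOrder (y ^ n) := by
    exact (Submonoid.isOfFinOrder_coe (H := S.toSubmonoid) (x := ⟨y ^ n, h1⟩)).2 h2
  exact (isOfFinOrder_pow.1 h3).resolve_right (by omega)

/-- Data of a sequence of six flips (indices `0, ..., 5`) at one cone. -/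
structure FlipSeq {G : Type} [Group G] (D M : Subgroup G) (F : Finset G) (h k e : ℕ → G) :
    Prop where
  hF : ∀ i ≤ 5, h i ∈ F
  kF : ∀ i ≤ 5, k i ∈ F
  kD : ∀ i ≤ 5, k i ∈ D
  eD : ∀ i ≤ 5, e i ∈ D
  hD : ∀ i ≤ 5, h i ∉ D
  fD : ∀ i ≤ 4, (h i)⁻¹ * h (i + 1) ∈ D
  rel : ∀ i ≤ 4, h (i + 1) = k i * (h i)⁻¹ * (h i)⁻¹
  sq : ∀ i ≤ 5, (k i)⁻¹ * (e i * e i) ∈ M
  step : ∀ i ≤ 4, (e (i + 1))⁻¹ * (e i * ((h i)⁻¹ * h (i + 1))) ∈ M

theorem HT.mono {G : Type} [Group G] {D S M : Subgroup G} {F₁ F₁' F₂ F₂' : Finset G}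
    (h : HT D S M F₁ F₂) (h1 : F₁' ⊆ F₁) (h2 : F₂ ⊆ F₂') : HT D S M F₁' F₂' := by
  intro σ ζ k e hσ hζ hk hσD hζD hkD heD hfin hσS hM1 hM2
  obtain ⟨f, hf, hfD, hfM⟩ := h σ ζ k e (h1 hσ) (h1 hζ) (h1 hk) hσD hζD hkD heD hfin hσS hM1 hM2
  exact ⟨f, h2 hf, hfD, hfM⟩

/-- In a group of odd order squaring is injective. -/
lemma sq_inj_of_card {Q : Type} [Group Q] {n : ℕ} (hn : Odd n) (hQ : ∀ x : Q, x ^ n = 1)
    {a b : Q} (h : a * a = b * b) : a = b := by
  obtain ⟨r, hr⟩ := hn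
  have key : ∀ x : Q, (x * x) ^ (r + 1) = x := by
    intro x
    have : (x * x) ^ (r + 1) = x ^ n * x := by
      rw [← pow_two, ← pow_mul, hr, ← pow_succ]
      congr 1
    rw [this, hQ, one_mul]
  rw [← key a, ← key b, h]

/-- **Flip algebra.** Six consecutive flips at one cone are impossible unless some `e_i`
is congruent modulo `M` to an element of a finite set which does not depend on `M`. -/
theorem flip_false {p : ℕ} (hp : p.Prime) (hp2 : p ≠ 2) {G : Type} [Group G] (hT : PTors p G)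
    {D S : Subgroup G} (hS : FinNormal S D) (hD : AMal D) (F : Finset G) :
    ∃ F₁ Φ : Finset G, ∀ F₂ : Finset G, ∃ F₃ : Finset G, ∀ M : Subgroup G, M ≤ D →
      (∀ x ∈ D, ∀ m ∈ M, x * m * x⁻¹ ∈ M) → (∃ k, M.relIndex D = p ^ k) →
      (∀ x ∈ M, x ∈ Φ → x = 1) → HT D S M F₁ F₂ →
      ∀ h k e : ℕ → G, FlipSeq D M F h k e → ∃ i ≤ 5, ∃ f ∈ F₃, f ∈ D ∧ f⁻¹ * e i ∈ M := by
  classical
  let F' : Finset G := F ∪ F⁻¹
  refine ⟨F ∪ F' * F' * F' * F' * F' ∪ F' * F' * F',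
    hS.fin.toFinset * (F' * F' * F' * F' * F'), fun F₂ => ?_⟩
  refine ⟨F₂ ∪ F.image (fun x => x ^ ((orderOf x + 1) / 2)), ?_⟩
  intro M hMD hMn hidx hΦ hHT h k e hseq
  by_contra hcon
  push Not at hcon
  have hF' : ∀ i ≤ 5, h i ∈ F' := fun i hi => Finset.mem_union_left _ (hseq.hF i hi)
  have hFi' : ∀ i ≤ 5, (h i)⁻¹ ∈ F' := fun i hi =>
    Finset.mem_union_right _ (Finset.inv_mem_inv (hseq.hF i hi))
  have kF' : ∀ i ≤ 5, k i ∈ F' := fun i hi => Finset.mem_union_left _ (hseq.kF i hi)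
  have hnorm : (M.subgroupOf D).Normal := by
    constructor
    intro m hm x
    rw [Subgroup.mem_subgroupOf] at hm ⊢
    exact hMn x x.2 m hm
  let q : D →* D ⧸ (M.subgroupOf D) := QuotientGroup.mk' (M.subgroupOf D)
  have hq : ∀ x y : D, q x = q y ↔ (x : G)⁻¹ * y ∈ M := by
    intro x y
    have h0 := QuotientGroup.eq (s := M.subgroupOf D) (a := x) (b := y)
    rw [Subgroup.mem_subgroupOf] at h0
    exact h0
  -- total functions with values in `D`
  have exK : ∃ K : ℕ → D, ∀ i ≤ 5, (K i : G) = k i := by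
    refine ⟨fun i => if hi : i ≤ 5 then ⟨k i, hseq.kD i hi⟩ else 1, ?_⟩
    intro i hi
    simp [hi]
  have exE : ∃ E : ℕ → D, ∀ i ≤ 5, (E i : G) = e i := by
    refine ⟨fun i => if hi : i ≤ 5 then ⟨e i, hseq.eD i hi⟩ else 1, ?_⟩
    intro i hi
    simp [hi]
  have exf : ∃ f : ℕ → D, ∀ i ≤ 4, (f i : G) = (h i)⁻¹ * h (i + 1) := by
    refine ⟨fun i => if hi : i ≤ 4 then ⟨(h i)⁻¹ * h (i + 1), hseq.fD i hi⟩ else 1, ?_⟩
    intro i hi
    simp [hi]
  obtain ⟨K, hK⟩ := exK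
  obtain ⟨E, hE⟩ := exE
  obtain ⟨f, hf⟩ := exf
  have hsq : ∀ i ≤ 5, q (K i) = q (E i) * q (E i) := by
    intro i hi
    rw [← map_mul, hq]
    have := hseq.sq i hi
    rwa [← hK i hi, ← hE i hi] at this
  have hstep : ∀ i ≤ 4, q (E (i + 1)) = q (E i) * q (f i) := by
    intro i hi
    rw [← map_mul, hq]
    have := hseq.step i hi
    rwa [← hE i (by omega), ← hE (i + 1) (by omega), ← hf i hi] at this
  have hSn : ∀ x : D, ∀ s ∈ S, (x : G) * s * (x : G)⁻¹ ∈ S := fun x s hs => hS.nrm x x.2 s hs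
  have hSn' : ∀ x : D, ∀ s ∈ S, (x : G)⁻¹ * s * (x : G) ∈ S := by
    intro x s hs
    have := hS.nrm (x⁻¹ : D) (x⁻¹ : D).2 s hs
    simpa using this
  -- (g)
  have hid : ∀ i ≤ 3, h i * ((f i : G) * f (i + 1) * k i) * (h i)⁻¹ =
      k (i + 1) * (f i : G)⁻¹ := by
    intro i hi
    rw [hf i (by omega), hf (i + 1) (by omega)]
    exact flip_identity (h i) (h (i + 1)) (h (i + 2)) (k i) (k (i + 1))
      (hseq.rel i (by omega)) (hseq.rel (i + 1) (by omega))
  have hg : ∀ i ≤ 3, IsOfFinOrder ((f i : G) * f (i + 1) * k i) := by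
    intro i hi
    apply hD (h i) (hseq.hD i (by omega))
    · exact D.mul_mem (D.mul_mem (f i).2 (f (i + 1)).2) (hseq.kD i (by omega))
    · rw [hid i hi]
      exact D.mul_mem (hseq.kD _ (by omega)) (D.inv_mem (f i).2)
  have hg' : ∀ i ≤ 3, IsOfFinOrder (k (i + 1) * (f i : G)⁻¹) := by
    intro i hi
    rw [← hid i hi]
    exact (MulAut.conj (h i)).toMonoidHom.isOfFinOrder (hg i hi)
  -- (i)
  have hA : ∀ i ≤ 2, k (i + 2) * (f (i + 1) : G)⁻¹ ∈ S ∧ (f (i + 1) : G) * k (i + 1) ∈ S := by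
    intro i hi
    have hσD : k (i + 2) * (f (i + 1) : G)⁻¹ ∈ D :=
      D.mul_mem (hseq.kD _ (by omega)) (D.inv_mem (f (i + 1)).2)
    have hζD : (f i : G) * f (i + 1) * k (i + 1) * (f i : G)⁻¹ ∈ D :=
      D.mul_mem (D.mul_mem (D.mul_mem (f i).2 (f (i + 1)).2) (hseq.kD _ (by omega)))
        (D.inv_mem (f i).2)
    have hζ5 : (f i : G) * f (i + 1) * k (i + 1) * (f i : G)⁻¹ ∈ F' * F' * F' * F' * F' := by
      have e1 : (f i : G) * f (i + 1) * k (i + 1) * (f i : G)⁻¹ =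
          (h i)⁻¹ * h (i + 2) * k (i + 1) * (h (i + 1))⁻¹ * h i := by
        rw [hf i (by omega), hf (i + 1) (by omega)]
        group
      rw [e1]
      exact Finset.mul_mem_mul (Finset.mul_mem_mul (Finset.mul_mem_mul (Finset.mul_mem_mul
        (hFi' i (by omega)) (hF' (i + 2) (by omega))) (kF' (i + 1) (by omega)))
        (hFi' (i + 1) (by omega))) (hF' i (by omega))
    have hσ3 : k (i + 2) * (f (i + 1) : G)⁻¹ ∈ F' * F' * F' := by
      have e1 : k (i + 2) * (f (i + 1) : G)⁻¹ = k (i + 2) * (h (i + 2))⁻¹ * h (i + 1) := by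
        rw [hf (i + 1) (by omega)]
        group
      rw [e1]
      exact Finset.mul_mem_mul (Finset.mul_mem_mul (kF' (i + 2) (by omega))
        (hFi' (i + 2) (by omega))) (hF' (i + 1) (by omega))
    -- the congruence `e_i⁻¹ σ e_i = ζ`
    have hcong : q (⟨_, hζD⟩ : D) = (q (E i))⁻¹ * q (⟨_, hσD⟩ : D) * q (E i) := by
      have e1 : (⟨_, hζD⟩ : D) = f i * f (i + 1) * K (i + 1) * (f i)⁻¹ := by
        apply Subtype.ext
        simp only [Subgroup.coe_mul, Subgroup.coe_inv]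
        rw [hK (i + 1) (by omega)]
      have e2 : (⟨_, hσD⟩ : D) = K (i + 2) * (f (i + 1))⁻¹ := by
        apply Subtype.ext
        simp only [Subgroup.coe_mul, Subgroup.coe_inv]
        rw [hK (i + 2) (by omega)]
      rw [e1, e2]
      simp only [map_mul, map_inv]
      rw [hsq (i + 1) (by omega), hsq (i + 2) (by omega), hstep (i + 1) (by omega),
        hstep i (by omega)]
      group
    have hcongM : ((f i : G) * f (i + 1) * k (i + 1) * (f i : G)⁻¹)⁻¹ *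
        ((e i)⁻¹ * (k (i + 2) * (f (i + 1) : G)⁻¹) * e i) ∈ M := by
      have := (hq (⟨_, hζD⟩ : D) ((E i)⁻¹ * (⟨_, hσD⟩ : D) * E i)).1 (by
        rw [hcong]; simp only [map_mul, map_inv])
      simp only [Subgroup.coe_mul, Subgroup.coe_inv] at this
      rwa [hE i (by omega)] at this
    have hσS : k (i + 2) * (f (i + 1) : G)⁻¹ ∈ S := by
      by_contra hnS
      obtain ⟨f₀, hf₀, hf₀D, hf₀M⟩ := hHT (k (i + 2) * (f (i + 1) : G)⁻¹)
        ((f i : G) * f (i + 1) * k (i + 1) * (f i : G)⁻¹) (k i) (e i)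
        (Finset.mem_union_right _ hσ3)
        (Finset.mem_union_left _ (Finset.mem_union_right _ hζ5))
        (Finset.mem_union_left _ (Finset.mem_union_left _ (hseq.kF i (by omega))))
        hσD hζD (hseq.kD i (by omega)) (hseq.eD i (by omega)) (hg' (i + 1) (by omega)) hnS
        (hseq.sq i (by omega)) hcongM
      exact hcon i (by omega) f₀ (Finset.mem_union_left _ hf₀) hf₀D hf₀M
    refine ⟨hσS, ?_⟩
    -- `ζ` is in `S`
    have hs : (e i)⁻¹ * (k (i + 2) * (f (i + 1) : G)⁻¹) * e i ∈ S := by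
      have := hSn' (E i) _ hσS
      rwa [hE i (by omega)] at this
    have hζS : (f i : G) * f (i + 1) * k (i + 1) * (f i : G)⁻¹ ∈ S := by
      have h1 : ((e i)⁻¹ * (k (i + 2) * (f (i + 1) : G)⁻¹) * e i)⁻¹ *
          ((f i : G) * f (i + 1) * k (i + 1) * (f i : G)⁻¹) ∈ M := by
        have := M.inv_mem hcongM
        simpa [mul_assoc] using this
      have h2 := hΦ _ h1 (Finset.mul_mem_mul
        ((Set.Finite.mem_toFinset hS.fin).2 (S.inv_mem hs)) hζ5)
      rw [inv_mul_eq_one] at h2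
      rw [← h2]; exact hs
    have h3 := hSn' (f i) _ hζS
    have e3 : (f i : G)⁻¹ * ((f i : G) * f (i + 1) * k (i + 1) * (f i : G)⁻¹) * (f i : G) =
        (f (i + 1) : G) * k (i + 1) := by group
    rwa [e3] at h3
  -- `k_2` has finite order
  have hk2 : IsOfFinOrder (k 2) := by
    apply finOrder_of_mod hS ((f 2 : G) * f 3 * k 2) (k 2) (hseq.kD 2 (by omega))
      (hg 2 (by omega))
    -- modulo `S`: `k 3 = f 2`, `f 2 = (k 2)⁻¹`, `f 3 = (k 3)⁻¹`
    have a1 := (hA 1 (by omega)).1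
    have a2 := (hA 1 (by omega)).2
    have a3 := (hA 2 (by omega)).2
    change k 3 * (f 2 : G)⁻¹ ∈ S at a1
    change (f 2 : G) * k 2 ∈ S at a2
    change (f 3 : G) * k 3 ∈ S at a3
    rw [← hK 3 (by omega)] at a1 a3
    rw [← hK 2 (by omega)] at a2 ⊢
    have hnormS : (S.subgroupOf D).Normal := by
      constructor
      intro m hm x
      rw [Subgroup.mem_subgroupOf] at hm ⊢
      exact hS.nrm x x.2 m hm
    let qS : D →* D ⧸ (S.subgroupOf D) := QuotientGroup.mk' (S.subgroupOf D)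
    have hqS : ∀ x : D, (x : G) ∈ S ↔ qS x = 1 := by
      intro x
      rw [← Subgroup.mem_subgroupOf]
      exact (QuotientGroup.eq_one_iff x).symm
    have b1 : qS (K 3) * (qS (f 2))⁻¹ = 1 := by
      rw [← map_inv, ← map_mul, ← hqS]; exact a1
    have b2 : qS (f 2) * qS (K 2) = 1 := by
      rw [← map_mul, ← hqS]; exact a2
    have b3 : qS (f 3) * qS (K 3) = 1 := by
      rw [← map_mul, ← hqS]; exact a3
    have c1 : qS (K 3) = qS (f 2) := by rwa [mul_inv_eq_one] at b1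
    have c2 : qS (f 2) = (qS (K 2))⁻¹ := eq_inv_of_mul_eq_one_left b2
    have c3 : qS (f 3) = (qS (K 3))⁻¹ := eq_inv_of_mul_eq_one_left b3
    have b4 : qS ((K 2)⁻¹ * (f 2 * f 3 * K 2)) = 1 := by
      simp only [map_mul, map_inv]
      rw [c3, c1, c2]
      group
    exact (hqS _).2 b4
  -- hence `e_2` is congruent to a power of `k_2`
  obtain ⟨n, hn⟩ := hidx
  have hQ : ∀ x : D ⧸ (M.subgroupOf D), x ^ (p ^ n) = 1 := by
    intro x
    have h1 : Nat.card (D ⧸ (M.subgroupOf D)) = p ^ n := by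
      rw [← hn]; rfl
    rw [← h1]
    exact pow_card_eq_one'
  have hodd : Odd (p ^ n) := (hp.odd_of_ne_two hp2).pow
  have hpow : (k 2 ^ ((orderOf (k 2) + 1) / 2)) * (k 2 ^ ((orderOf (k 2) + 1) / 2)) = k 2 := by
    have ho : Odd (orderOf (k 2)) := by
      obtain ⟨r, hr⟩ := hT (k 2) hk2
      exact Odd.of_dvd_nat (hp.odd_of_ne_two hp2).pow (orderOf_dvd_of_pow_eq_one hr)
    obtain ⟨r, hr⟩ := ho
    have e1 : (orderOf (k 2) + 1) / 2 = r + 1 := by omega
    rw [e1, ← pow_add]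
    have e2 : r + 1 + (r + 1) = orderOf (k 2) + 1 := by omega
    rw [e2, pow_succ, pow_orderOf_eq_one, one_mul]
  have hEq : q ((K 2) ^ ((orderOf (k 2) + 1) / 2)) = q (E 2) := by
    apply sq_inj_of_card hodd hQ
    rw [← hsq 2 (by omega), ← map_mul]
    congr 1
    apply Subtype.ext
    simp only [Subgroup.coe_mul, Subgroup.coe_pow]
    rw [hK 2 (by omega)]
    exact hpow
  have hfin := (hq _ _).1 hEq
  rw [Subgroup.coe_pow, hK 2 (by omega), hE 2 (by omega)] at hfin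
  refine hcon 2 (by omega) (k 2 ^ ((orderOf (k 2) + 1) / 2)) (Finset.mem_union_right _ ?_)
    (D.pow_mem (hseq.kD 2 (by omega)) _) hfin
  exact Finset.mem_image.2 ⟨k 2, hseq.kF 2 (by omega), rfl⟩

/-- The flip algebra in the quotient `q : G → G'`, `M = D ⊓ ker q`.  `g` is the long element
(after the conjugations of 5.2), `q (h i)` the short element with `g * q (h i) = e i` in the
image of `D`, `q (k i) = (e i)²`, `i = 0, ..., 5`.  `Φ` has two uses: `q` is injective on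
differences of short elements, and a short element whose image is in the image of `D` is in
`D`. -/
theorem flip_false_quot {p : ℕ} (hp : p.Prime) (hp2 : p ≠ 2) {G : Type} [Group G]
    (hT : PTors p G) {D S : Subgroup G} (hS : FinNormal S D) (hD : AMal D) (F : Finset G) :
    ∃ F₁ Φ : Finset G, ∀ F₂ : Finset G, ∃ F₃ : Finset G, ∀ (G' : Type) [Group G'] (q : G →* G')
      (M : Subgroup G), M = D ⊓ q.ker → (∃ k, M.relIndex D = p ^ k) → HT D S M F₁ F₂ →
      (∀ x ∈ Φ, q x = 1 → x = 1) → (∀ x ∈ Φ, (∃ y ∈ D, q y = q x) → x ∈ D) →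
      ∀ (g : G') (h k : ℕ → G), (∀ i ≤ 5, h i ∈ F) → (∀ i ≤ 5, k i ∈ F) →
        (∀ i ≤ 5, h i ∉ D) →
        (∀ i ≤ 5, ∃ y ∈ D, q y = g * q (h i)) →
        (∀ i ≤ 5, q (k i) = (g * q (h i)) * (g * q (h i))) →
        (∀ i ≤ 4, q (h (i + 1)) = g * q (h i) * g * (q (h i))⁻¹) →
        ∃ i ≤ 5, ∃ f ∈ F₃, f ∈ D ∧ q f = g * q (h i) := by
  classical
  obtain ⟨F₁, Φ, hF₁⟩ := flip_false hp hp2 hT hS hD F
  let F' : Finset G := F ∪ F⁻¹
  refine ⟨F₁, Φ ∪ F ∪ F' * F' ∪ F' * F' * F' * F', fun F₂ => ?_⟩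
  obtain ⟨F₃, hΦ⟩ := hF₁ F₂
  refine ⟨F₃, ?_⟩
  intro G' _ q M hM hidx hHT hinj hloc g h k hhF hkF hhD he hk hh
  have hF' : ∀ i ≤ 5, h i ∈ F' := fun i hi => Finset.mem_union_left _ (hhF i hi)
  have hFi' : ∀ i ≤ 5, (h i)⁻¹ ∈ F' := fun i hi =>
    Finset.mem_union_right _ (Finset.inv_mem_inv (hhF i hi))
  have kF' : ∀ i ≤ 5, k i ∈ F' := fun i hi => Finset.mem_union_left _ (hkF i hi)
  have exe : ∃ e : ℕ → G, ∀ i ≤ 5, e i ∈ D ∧ q (e i) = g * q (h i) := by
    have h0 : ∀ i : ℕ, ∃ y : G, i ≤ 5 → y ∈ D ∧ q y = g * q (h i) := by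
      intro i
      by_cases hi : i ≤ 5
      · obtain ⟨y, hy, hy2⟩ := he i hi
        exact ⟨y, fun _ => ⟨hy, hy2⟩⟩
      · exact ⟨1, fun h => absurd h hi⟩
    choose e he' using h0
    exact ⟨e, he'⟩
  obtain ⟨e, he'⟩ := exe
  have heD : ∀ i ≤ 5, e i ∈ D := fun i hi => (he' i hi).1
  have heq : ∀ i ≤ 5, q (e i) = g * q (h i) := fun i hi => (he' i hi).2
  have hMD : M ≤ D := by rw [hM]; exact inf_le_left
  have hMn : ∀ x ∈ D, ∀ m ∈ M, x * m * x⁻¹ ∈ M := by
    intro x hx m hm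
    rw [hM] at hm ⊢
    refine Subgroup.mem_inf.2 ⟨D.mul_mem (D.mul_mem hx hm.1) (D.inv_mem hx), ?_⟩
    have h1 : q m = 1 := MonoidHom.mem_ker.1 (Subgroup.mem_inf.1 hm).2
    rw [MonoidHom.mem_ker, map_mul, map_mul, h1, mul_one, ← map_mul, mul_inv_cancel, map_one]
  have hmemM : ∀ x ∈ D, q x = 1 → x ∈ M := by
    intro x hx hq
    rw [hM]
    exact ⟨hx, hq⟩
  have hkD : ∀ i ≤ 5, k i ∈ D := by
    intro i hi
    apply hloc (k i) (Finset.mem_union_left _ (Finset.mem_union_left _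
      (Finset.mem_union_right _ (hkF i hi))))
    exact ⟨e i * e i, D.mul_mem (heD i hi) (heD i hi), by rw [map_mul, heq i hi, hk i hi]⟩
  have hqinv : ∀ i ≤ 4, q ((h i)⁻¹ * h (i + 1)) = (q (e i))⁻¹ * q (e (i + 1)) := by
    intro i hi
    rw [map_mul, map_inv, heq i (by omega), heq (i + 1) (by omega)]; group
  have hfD : ∀ i ≤ 4, (h i)⁻¹ * h (i + 1) ∈ D := by
    intro i hi
    apply hloc _ (Finset.mem_union_left _ (Finset.mem_union_right _
      (Finset.mul_mem_mul (hFi' i (by omega)) (hF' (i + 1) (by omega)))))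
    refine ⟨(e i)⁻¹ * e (i + 1),
      D.mul_mem (D.inv_mem (heD i (by omega))) (heD _ (by omega)), ?_⟩
    rw [hqinv i hi, map_mul, map_inv]
  have hrel : ∀ i ≤ 4, h (i + 1) = k i * (h i)⁻¹ * (h i)⁻¹ := by
    intro i hi
    have h1 : (h (i + 1))⁻¹ * k i * (h i)⁻¹ * (h i)⁻¹ = 1 := by
      apply hinj
      · exact Finset.mem_union_right _ (Finset.mul_mem_mul (Finset.mul_mem_mul
          (Finset.mul_mem_mul (hFi' (i + 1) (by omega)) (kF' i (by omega)))
          (hFi' i (by omega))) (hFi' i (by omega)))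
      · simp only [map_mul, map_inv]
        rw [hh i hi, hk i (by omega)]; group
    have h2 : (h (i + 1))⁻¹ * (k i * (h i)⁻¹ * (h i)⁻¹) = 1 := by
      simpa [mul_assoc] using h1
    exact inv_mul_eq_one.1 h2
  have hseq : FlipSeq D M F h k e := by
    refine ⟨hhF, hkF, hkD, heD, hhD, hfD, hrel, ?_, ?_⟩
    · intro i hi
      apply hmemM _ (D.mul_mem (D.inv_mem (hkD i hi)) (D.mul_mem (heD i hi) (heD i hi)))
      simp only [map_mul, map_inv]
      rw [hk i hi, heq i hi]; group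
    · intro i hi
      apply hmemM _ (D.mul_mem (D.inv_mem (heD _ (by omega)))
        (D.mul_mem (heD i (by omega)) (hfD i hi)))
      rw [map_mul, map_mul, hqinv i hi, map_inv]; group
  obtain ⟨i, hi, f, hf, hfD', hfM⟩ := hΦ M hMD hMn hidx (fun x hx hxΦ => by
    rw [hM] at hx
    exact hinj x (Finset.mem_union_left _ (Finset.mem_union_left _
      (Finset.mem_union_left _ hxΦ))) hx.2) hHT h k e hseq
  refine ⟨i, hi, f, hf, hfD', ?_⟩
  rw [hM] at hfM
  have h3 : q (f⁻¹ * e i) = 1 := hfM.2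
  rw [map_mul, map_inv, inv_mul_eq_one] at h3
  rw [h3, heq i hi]

end Pool.Agent.Lib.H14E
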