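import Pool.Agent.Lib.H14E.GD

set_option autoImplicit false

namespace H14G

/-- The set of elements of the required form. -/
def ga1_T {D : Type*} [Group D] (H : Bool → Subgroup D) (S : Subgroup D) (d : D) : Prop :=
  d ∈ S ∨ ∃ (i : Bool) (l : List D), l ≠ [] ∧ AltW H S i l ∧ l.prod = d

theorem ga1_tail {D : Type*} [Group D] {H : Bool → Subgroup D} {S : Subgroup D}
    (hle : ∀ i, S ≤ H i) {s : D} (hs : s ∈ S) (i : Bool) (l : List D) (hl : AltW H S i l) :
    ga1_T H S (s * l.prod) := by
  cases l with
  | nil =>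
    left
    simpa using hs
  | cons h' l'' =>
    right
    obtain ⟨h1, h2, h3⟩ := hl
    refine ⟨i, (s * h') :: l'', by simp, ⟨?_, ?_, h3⟩, by simp [mul_assoc]⟩
    · exact (H i).mul_mem (hle i hs) h1
    · intro h4
      exact h2 ((S.mul_mem_cancel_left hs).1 h4)

theorem ga1_step {D : Type*} [Group D] {H : Bool → Subgroup D} {S : Subgroup D}
    (hle : ∀ i, S ≤ H i) {j : Bool} {g : D} (hg : g ∈ H j) {d : D} (hd : ga1_T H S d) :
    ga1_T H S (g * d) := by
  rcases hd with hd | ⟨i, l, hne, hl, rfl⟩
  · by_cases h1 : g * d ∈ S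
    · exact Or.inl h1
    · exact Or.inr ⟨j, [g * d], by simp, ⟨(H j).mul_mem hg (hle j hd), h1, trivial⟩, by simp⟩
  · cases l with
    | nil => exact absurd rfl hne
    | cons h' l' =>
      obtain ⟨h1, h2, h3⟩ := hl
      by_cases hgS : g ∈ S
      · exact ga1_tail hle hgS i (h' :: l') ⟨h1, h2, h3⟩
      · by_cases hij : i = j
        · subst hij
          by_cases hs : g * h' ∈ S
          · have := ga1_tail hle hs (!i) l' h3
            simpa [mul_assoc] using this
          · exact Or.inr ⟨i, (g * h') :: l', by simp, ⟨(H i).mul_mem hg h1, hs, h3⟩,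
              by simp [mul_assoc]⟩
        · have hij' : (!j) = i := by
            cases i <;> cases j <;> simp_all
          refine Or.inr ⟨j, g :: h' :: l', by simp, ⟨hg, hgS, ?_⟩, by simp⟩
          rw [hij']
          exact ⟨h1, h2, h3⟩

/-- **Chunk GA1.** Every element of an amalgam is in `S` or is the product of a non-empty
alternating word.

PROOF.  Let `T` be the set of all such elements. `1 ∈ S`. It is enough to show: `d ∈ T`, `g ∈ H j`
imply `g * d ∈ T` (then use `Subgroup.closure_induction_left` or induction on the closure of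
`H true ∪ H false`, which is `H true ⊔ H false = ⊤`; inverses of elements of `H j` are in `H j`;
e.g. show that the set `{g | ∀ d ∈ T, g * d ∈ T}` is closed under products and contains
`H true` and `H false`, hence by `Subgroup.sup_eq_closure_mul`/`Subgroup.mem_sup` induction contains
everything, then apply it to `d = 1`).
* `d ∈ S`: `g * d ∈ H j`: it is in `S` or the one letter word `[g * d]` works.
* `d = (h :: l').prod` with `h ∈ H i \ S`, `AltW H S (!i) l'`.
  - `g ∈ S`: `g * h ∈ H i` (as `S ≤ H i`) and `g * h ∉ S`: the word `(g * h) :: l'`.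
  - `g ∉ S` and `j = !i`: the word `g :: h :: l'`.
  - `g ∉ S` and `j = i`: if `g * h ∉ S` the word `(g * h) :: l'`. If `s := g * h ∈ S`: if `l' = []`
    then `g * d = s ∈ S`; if `l' = h' :: l''` with `h' ∈ H (!i) \ S` then `s * h' ∈ H (!i) \ S`,
    the word `(s * h') :: l''`. -/
theorem elt_form {D : Type*} [Group D] {H : Bool → Subgroup D} {S : Subgroup D} (h : Amal H S)
    (d : D) : d ∈ S ∨ ∃ (i : Bool) (l : List D), l ≠ [] ∧ AltW H S i l ∧ l.prod = d := by
  have key : ∀ g ∈ Subgroup.closure ((H true : Set D) ∪ (H false : Set D)),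
      (∀ d, ga1_T H S d → ga1_T H S (g * d)) ∧ (∀ d, ga1_T H S d → ga1_T H S (g⁻¹ * d)) := by
    intro g hg
    induction hg using Subgroup.closure_induction with
    | mem x hx =>
      rcases hx with hx | hx
      · exact ⟨fun d hd => ga1_step h.le hx hd, fun d hd => ga1_step h.le (inv_mem hx) hd⟩
      · exact ⟨fun d hd => ga1_step h.le hx hd, fun d hd => ga1_step h.le (inv_mem hx) hd⟩
    | one => exact ⟨fun d hd => by simpa using hd, fun d hd => by simpa using hd⟩
    | mul x y _ _ hx hy =>
      refine ⟨fun d hd => ?_, fun d hd => ?_⟩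
      · rw [mul_assoc]
        exact hx.1 _ (hy.1 _ hd)
      · rw [mul_inv_rev, mul_assoc]
        exact hy.2 _ (hx.2 _ hd)
    | inv x _ hx => exact ⟨hx.2, fun d hd => by simpa using hx.1 d hd⟩
  have hd : d ∈ Subgroup.closure ((H true : Set D) ∪ (H false : Set D)) := by
    rw [← Subgroup.sup_eq_closure, h.gen]
    exact Subgroup.mem_top d
  have h1 := (key d hd).1 1 (Or.inl S.one_mem)
  rw [mul_one] at h1
  exact h1

end H14G
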