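import Pool.Agent.Lib.H14E.GD

set_option autoImplicit false

namespace H14G

theorem ga2_alt {D : Type*} [Group D] {H : Bool → Subgroup D} {S : Subgroup D} :
    ∀ (L : List (Σ i, H i)) (i : Bool), (∀ l ∈ L, (l.2 : D) ∉ S) →
      L.IsChain (fun l l' => l.1 ≠ l'.1) → (∀ l ∈ L.head?, l.1 = i) →
      AltW H S i (L.map fun l => (l.2 : D)) := by
  intro L
  induction L with
  | nil =>
    intro i _ _ _
    trivial
  | cons l L ih =>
    intro i hS hc hh
    have hi : l.1 = i := hh l (by simp)
    subst hi
    refine ⟨l.2.2, hS l (by simp), ih (!l.1) (fun l' hl' => hS l' (by simp [hl'])) hc.tail ?_⟩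
    intro l' hl'
    cases L with
    | nil => simp at hl'
    | cons l'' L' =>
      have e : l'' = l' := by simpa using hl'
      subst e
      have hne : l.1 ≠ l''.1 := (List.isChain_cons_cons.1 hc).1
      cases h1 : l.1 <;> cases h2 : l''.1 <;> simp_all

/-- **Chunk GA2.** The natural map from the abstract amalgam (`Monoid.PushoutI`) to an internal
amalgam is injective.

PROOF.  Let `φ i : S →* H i` be the inclusion, `ψ : PushoutI φ → D` the map of the statement.
Take a transversal `d` (`Monoid.PushoutI.NormalWord.transversal_nonempty`, the `φ i` are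
injective). Let `x` be in the kernel of `ψ`. By `Monoid.PushoutI.NormalWord.prod_injective` /
`NormalWord.equiv` (or `NormalWord.prod_smul_empty`) `x = w.prod` for a normal word `w`, i.e.
`x = base φ w.head * ofCoprodI w.toWord.prod`.  So `ψ x = s * (L.map val).prod` with `s = w.head`
in `S` and `L = w.toList` the list of letters `⟨i, g⟩`, `g ∈ d.set i`, `g ≠ 1`
(`Word.ne_one`), neighbouring letters with different indices (`Word.isChain_ne` / `chain_ne`).
A letter `g ∈ d.set i`, `g ≠ 1`, is not in the range of `φ i` (both `1` and `g` would be the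
representative of the coset: `d.compl i`, `Subgroup.IsComplement`,
see `coe_equiv_snd_eq_one_iff_mem`, `equiv_snd_eq_iff...`), i.e. its value is not in `S`.
Hence the list of values of `L` is an alternating word in the sense of `AltW` (prove by induction
on the list: if all letters are outside `S` and consecutive indices are different then `AltW H S i`
of the list of values, `i` the index of the first letter; for `Bool`, `i' ≠ i` means `i' = !i`).
Its product is `s⁻¹ ∈ S`, so by `h.alt` the list `L` is empty, then `s = 1` and `x = 1`. -/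
theorem amal_inj {D : Type*} [Group D] {H : Bool → Subgroup D} {S : Subgroup D} (h : Amal H S) :
    Function.Injective
      (Monoid.PushoutI.lift (φ := fun i => Subgroup.inclusion (h.le i))
        (fun i => (H i).subtype) S.subtype (fun i => by ext x; rfl) :
        Monoid.PushoutI (fun i => Subgroup.inclusion (h.le i)) →* D) := by
  classical
  obtain ⟨φ, hφ⟩ : ∃ φ : ∀ i, S →* H i, φ = fun i => Subgroup.inclusion (h.le i) := ⟨_, rfl⟩
  subst hφ
  have hinj : ∀ i, Function.Injective ((fun i => Subgroup.inclusion (h.le i)) i) := fun i =>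
    Subgroup.inclusion_injective (h.le i)
  obtain ⟨d⟩ := Monoid.PushoutI.NormalWord.transversal_nonempty
    (fun i => Subgroup.inclusion (h.le i)) hinj
  rw [injective_iff_map_eq_one]
  intro x hx
  obtain ⟨w, rfl⟩ : ∃ w : Monoid.PushoutI.NormalWord d, w.prod = x :=
    ⟨Monoid.PushoutI.NormalWord.equiv x, Monoid.PushoutI.NormalWord.equiv.symm_apply_apply x⟩
  have hprod : Monoid.PushoutI.lift (φ := fun i => Subgroup.inclusion (h.le i))
        (fun i => (H i).subtype) S.subtype (fun i => by ext x; rfl)
        (Monoid.PushoutI.ofCoprodI w.toWord.prod) = (w.toList.map fun l => (l.2 : D)).prod := by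
    unfold Monoid.CoprodI.Word.prod
    rw [map_list_prod, map_list_prod, List.map_map, List.map_map]
    congr 1
  have hw : ((w.head : S) : D) * (w.toList.map fun l => (l.2 : D)).prod = 1 := by
    rw [← hprod, ← hx]
    unfold Monoid.PushoutI.NormalWord.prod
    rw [map_mul, Monoid.PushoutI.lift_base]
    rfl
  have hletter : ∀ l ∈ w.toList, (l.2 : D) ∉ S := by
    rintro ⟨i, g⟩ hl hgS
    have h1 := w.normalized i g hl
    have h2 := w.ne_one ⟨i, g⟩ hl
    have h3 : g ∈ (Subgroup.inclusion (h.le i)).range := ⟨⟨g, hgS⟩, Subtype.ext rfl⟩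
    have h4 := (Subgroup.IsComplement.coe_equiv_snd_eq_one_iff_mem (d.compl i) (d.one_mem i)).2 h3
    have h5 := (Subgroup.IsComplement.equiv_snd_eq_self_iff_mem (d.compl i) (one_mem _)).2 h1
    rw [h4] at h5
    exact h2 h5.symm
  have hnil : w.toList = [] := by
    by_contra hne
    obtain ⟨l, L, hL⟩ := List.exists_cons_of_ne_nil hne
    have h1 := ga2_alt w.toList l.1 hletter w.chain_ne (by
      intro l' hl'
      rw [hL] at hl'
      have e : l = l' := by simpa using hl'
      rw [e])
    have h2 := h.alt l.1 _ (by rw [hL]; simp) h1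
    apply h2
    rw [eq_inv_of_mul_eq_one_right hw]
    exact S.inv_mem w.head.2
  rw [hnil, List.map_nil, List.prod_nil, mul_one] at hw
  have hhead : w.head = 1 := Subtype.ext hw
  have hword : w.toWord = Monoid.CoprodI.Word.empty := by
    apply Monoid.CoprodI.Word.ext
    exact hnil
  unfold Monoid.PushoutI.NormalWord.prod
  rw [hhead, hword]
  simp

end H14G
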