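import Pool.Agent.Lib.H14E.GA2

set_option autoImplicit false

namespace H14G

theorem ga3_range {D : Type*} [Group D] {H : Bool → Subgroup D} {S : Subgroup D} (h : Amal H S) :
    Function.Bijective
      (Monoid.PushoutI.lift (φ := fun i => Subgroup.inclusion (h.le i))
        (fun i => (H i).subtype) S.subtype (fun i => by ext x; rfl) :
        Monoid.PushoutI (fun i => Subgroup.inclusion (h.le i)) →* D) := by
  refine ⟨amal_inj h, ?_⟩
  set ψ := (Monoid.PushoutI.lift (φ := fun i => Subgroup.inclusion (h.le i))
        (fun i => (H i).subtype) S.subtype (fun i => by ext x; rfl) :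
        Monoid.PushoutI (fun i => Subgroup.inclusion (h.le i)) →* D) with hψ
  rw [← MonoidHom.range_eq_top]
  have key : ∀ i, H i ≤ ψ.range := by
    intro i x hx
    refine ⟨Monoid.PushoutI.of i (⟨x, hx⟩ : H i), ?_⟩
    rw [hψ, Monoid.PushoutI.lift_of]
    rfl
  rw [eq_top_iff, ← h.gen]
  exact sup_le (key true) (key false)

/-- **Chunk GA3.** Universal property of an internal amalgam.

PROOF.  Let `ψ : PushoutI φ →* D` be the map of `amal_inj`; it is injective, and surjective since
its range is a subgroup which contains `H true` and `H false` (`lift_of`), and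
`H true ⊔ H false = ⊤`.  So it is an isomorphism `e` (`MulEquiv.ofBijective`).  Put
`F = (PushoutI.lift f (fun s => f true ⟨s, _⟩) _).comp e.symm`.  The compatibility is `hf`
(case `i = false`) and `rfl` (case `i = true`).  For `x : H i`, `e (of i x) = x`, so
`e.symm x = of i x` and `F x = f i x` by `PushoutI.lift_of`. -/
theorem amal_ext {D Q : Type*} [Group D] [Group Q] {H : Bool → Subgroup D} {S : Subgroup D}
    (h : Amal H S) (f : ∀ i, H i →* Q)
    (hf : ∀ (s : D) (hs : s ∈ S), f true ⟨s, h.le true hs⟩ = f false ⟨s, h.le false hs⟩) :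
    ∃ F : D →* Q, ∀ (i : Bool) (x : H i), F x = f i x := by
  have hb := ga3_range h
  set ψ := (Monoid.PushoutI.lift (φ := fun i => Subgroup.inclusion (h.le i))
        (fun i => (H i).subtype) S.subtype (fun i => by ext x; rfl) :
        Monoid.PushoutI (fun i => Subgroup.inclusion (h.le i)) →* D) with hψ
  let e := MulEquiv.ofBijective ψ hb
  have hc : ∀ i, (f i).comp (Subgroup.inclusion (h.le i)) =
      (f true).comp (Subgroup.inclusion (h.le true)) := by
    intro i
    cases i with
    | true => rfl
    | false =>
      ext s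
      exact (hf s.1 s.2).symm
  let L : Monoid.PushoutI (fun i => Subgroup.inclusion (h.le i)) →* Q :=
    Monoid.PushoutI.lift (φ := fun i => Subgroup.inclusion (h.le i)) f
      ((f true).comp (Subgroup.inclusion (h.le true))) hc
  refine ⟨L.comp e.symm.toMonoidHom, ?_⟩
  intro i x
  have h1 : e (Monoid.PushoutI.of i x) = (x : D) := by
    show ψ (Monoid.PushoutI.of i x) = (x : D)
    rw [hψ, Monoid.PushoutI.lift_of]
    rfl
  have h2 : e.symm (x : D) = Monoid.PushoutI.of i x := by
    rw [← h1, MulEquiv.symm_apply_apply]
  show L (e.symm (x : D)) = f i x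
  rw [h2]
  show Monoid.PushoutI.lift (φ := fun i => Subgroup.inclusion (h.le i)) f
      ((f true).comp (Subgroup.inclusion (h.le true))) hc (Monoid.PushoutI.of i x) = f i x
  rw [Monoid.PushoutI.lift_of]

/-- Two homomorphisms which agree on the factors are equal.  PROOF: the set where they agree is a
subgroup (`MonoidHom.eqLocus`) which contains `H true` and `H false`. -/
theorem amal_hom_ext {D Q : Type*} [Group D] [Group Q] {H : Bool → Subgroup D} {S : Subgroup D}
    (h : Amal H S) (F F' : D →* Q) (e : ∀ (i : Bool), ∀ x ∈ H i, F x = F' x) : F = F' := by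
  have h1 : F.eqLocus F' = ⊤ := by
    rw [eq_top_iff, ← h.gen]
    exact sup_le (fun x hx => e true x hx) (fun x hx => e false x hx)
  ext x
  have : x ∈ F.eqLocus F' := by rw [h1]; trivial
  exact this

end H14G
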