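import Pool.Agent.Lib.H14E.GA1

set_option autoImplicit false

namespace H14G

/-- The side of the letter number `n` of an alternating word which starts with side `i`. -/
def ga4_nx : Bool → ℕ → Bool
  | i, 0 => i
  | i, n + 1 => ga4_nx (!i) n

theorem ga4_nx_succ (i : Bool) (n : ℕ) : ga4_nx i (n + 1) = !(ga4_nx i n) := by
  induction n generalizing i with
  | zero => rfl
  | succ n ih =>
    show ga4_nx (!i) (n + 1) = !(ga4_nx (!i) n)
    rw [ih]

theorem ga4_nx_add (i : Bool) (m n : ℕ) : ga4_nx i (m + n) = ga4_nx (ga4_nx i m) n := by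
  induction m generalizing i with
  | zero => rw [Nat.zero_add]; rfl
  | succ m ih =>
    rw [Nat.succ_add]
    show ga4_nx (!i) (m + n) = ga4_nx (ga4_nx (!i) m) n
    rw [ih]

theorem ga4_append {D : Type*} [Group D] {H : Bool → Subgroup D} {S : Subgroup D} (i : Bool)
    (l l' : List D) :
    AltW H S i (l ++ l') ↔ AltW H S i l ∧ AltW H S (ga4_nx i l.length) l' := by
  induction l generalizing i with
  | nil =>
    show AltW H S i l' ↔ True ∧ AltW H S i l'
    simp
  | cons g l ih =>
    show (g ∈ H i ∧ g ∉ S ∧ AltW H S (!i) (l ++ l')) ↔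
      (g ∈ H i ∧ g ∉ S ∧ AltW H S (!i) l) ∧ AltW H S (ga4_nx (!i) l.length) l'
    rw [ih]
    tauto

theorem ga4_pow {D : Type*} [Group D] {H : Bool → Subgroup D} {S : Subgroup D} (i : Bool)
    (l : List D) (hl : AltW H S i l) (hx : ga4_nx i l.length = i) (hne : l ≠ []) (n : ℕ) :
    ∃ L : List D, AltW H S i L ∧ L.prod = l.prod ^ n ∧ (0 < n → L ≠ []) := by
  induction n with
  | zero => exact ⟨[], trivial, by simp, fun h => absurd h (lt_irrefl 0)⟩
  | succ n ih =>
    obtain ⟨L, h1, h2, _⟩ := ih
    refine ⟨l ++ L, (ga4_append i l L).2 ⟨hl, by rw [hx]; exact h1⟩, ?_, fun _ => by simp [hne]⟩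
    rw [List.prod_append, h2, pow_succ']

theorem ga4_conj {D : Type*} [Group D] {H : Bool → Subgroup D} {f g : D}
    (h : ∃ (d : D) (i : Bool), d⁻¹ * (g⁻¹ * f * g) * d ∈ H i) :
    ∃ (d : D) (i : Bool), d⁻¹ * f * d ∈ H i := by
  obtain ⟨d, i, hd⟩ := h
  refine ⟨g * d, i, ?_⟩
  have e : (g * d)⁻¹ * f * (g * d) = d⁻¹ * (g⁻¹ * f * g) * d := by group
  rw [e]
  exact hd

theorem ga4_main {D : Type*} [Group D] {H : Bool → Subgroup D} {S : Subgroup D} (h : Amal H S)
    (n : ℕ) (hn : 0 < n) (m : ℕ) :
    ∀ (i : Bool) (l : List D), l.length = m → AltW H S i l → l.prod ^ n = 1 →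
      ∃ (d : D) (i : Bool), d⁻¹ * l.prod * d ∈ H i := by
  induction m using Nat.strong_induction_on with
  | _ m ih =>
    intro i l hm hl hf
    by_cases hne : l = []
    · subst hne
      exact ⟨1, true, by simpa using (H true).one_mem⟩
    by_cases hx : ga4_nx i l.length = i
    · exfalso
      obtain ⟨L, h1, h2, h3⟩ := ga4_pow i l hl hx hne n
      refine h.alt i L (h3 hn) h1 ?_
      rw [h2, hf]
      exact S.one_mem
    obtain ⟨g, t, rfl⟩ := List.exists_cons_of_ne_nil hne
    obtain ⟨hg, hgS, ht⟩ := hl
    rcases List.eq_nil_or_concat t with rfl | ⟨l', g', rfl⟩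
    · exact ⟨1, i, by simpa using hg⟩
    rw [List.concat_eq_append] at *
    obtain ⟨hl', hg', hg'S, _⟩ := (ga4_append (!i) l' [g']).1 ht
    have hside : ga4_nx (!i) l'.length = i := by
      have e : (g :: (l' ++ [g'])).length = l'.length + 2 := by simp
      rw [e, ga4_nx_succ, ga4_nx_succ] at hx
      have e2 : ga4_nx (!i) l'.length = !(ga4_nx i l'.length) := ga4_nx_succ i l'.length
      rw [e2]
      cases i <;> cases h5 : ga4_nx _ l'.length <;> simp_all
    rw [hside] at hg'
    have hprod : g⁻¹ * (g :: (l' ++ [g'])).prod * g = l'.prod * (g' * g) := by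
      simp [mul_assoc]
    have hpow : (l'.prod * (g' * g)) ^ n = 1 := by
      rw [← hprod]
      have e := conj_pow (a := g⁻¹) (b := (g :: (l' ++ [g'])).prod) (i := n)
      rw [inv_inv] at e
      rw [e, hf]
      simp
    apply ga4_conj (g := g)
    rw [hprod]
    by_cases hc : g' * g ∈ S
    · rcases List.eq_nil_or_concat l' with rfl | ⟨l'', k, rfl⟩
      · exfalso
        have e3 : (!i) = i := hside
        cases i <;> simp at e3
      · rw [List.concat_eq_append] at *
        obtain ⟨hl'', hk, hkS, _⟩ := (ga4_append (!i) l'' [k]).1 hl'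
        have e4 : (l'' ++ [k]).prod * (g' * g) = (l'' ++ [k * (g' * g)]).prod := by
          simp [mul_assoc]
        rw [e4] at hpow ⊢
        refine ih _ ?_ (!i) (l'' ++ [k * (g' * g)]) rfl ((ga4_append (!i) l'' _).2
          ⟨hl'', (H _).mul_mem hk (h.le _ hc), fun h6 => hkS ((S.mul_mem_cancel_right hc).1 h6),
            trivial⟩) hpow
        rw [← hm]
        simp
    · have e4 : l'.prod * (g' * g) = (l' ++ [g' * g]).prod := by
        simp
      rw [e4] at hpow ⊢
      refine ih _ ?_ (!i) (l' ++ [g' * g]) rfl ((ga4_append (!i) l' _).2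
        ⟨hl', ?_, hc, trivial⟩) hpow
      · rw [← hm]
        simp
      · rw [hside]
        exact (H i).mul_mem hg' hg

/-- **Chunk GA4.** An element of finite order of an amalgam is conjugate into one of the factors.

PROOF.  Claim, by strong induction on `m`: if `l` is an alternating word of length `m` (starting
with side `i`), `f = l.prod` and `f ^ n = 1` with `n > 0`, then `d⁻¹ * f * d ∈ H i'` for some
`d, i'`.
* `m = 0`: `f = 1`, trivial. `m = 1`: `f ∈ H i`.
* `m ≥ 2` even: the last letter has side `!i`, so the concatenation of `n` copies of `l` is an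
  alternating word (lemma: `AltW H S i l`, `AltW H S i l'`, `l.length` even imply
  `AltW H S i (l ++ l')`; induction on `l` two letters at a time, or first prove for all `i`:
  `AltW H S i l` and `AltW H S (if l.length even then i else !i) l'` imply
  `AltW H S i (l ++ l')`). It is not empty, its product is `f ^ n = 1 ∈ S`: contradiction to
  `h.alt`.
* `m ≥ 3` odd: `l = g :: l' ++ [g']` with `g, g' ∈ H i \ S` (first and last letter have the same
  side).  `g⁻¹ * f * g = l'.prod * (g' * g)`, `g' * g ∈ H i`. `l'` has length `m - 2 ≥ 1`, starts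
  with side `!i` and ends with side `!i`.  If `g' * g ∉ S`, `l' ++ [g' * g]` is an alternating word
  of length `m - 1`. If `g' * g ∈ S`, multiply the last letter of `l'` by it on the right (it stays
  in `H (!i) \ S`): a word of length `m - 2`.  In both cases use the induction hypothesis for the
  conjugate (which also has `n`-th power `1`).
Then take `f` from `elt_form`: if `f ∈ S` then `f ∈ H true`. -/
theorem tors_conj {D : Type*} [Group D] {H : Bool → Subgroup D} {S : Subgroup D} (h : Amal H S)
    (f : D) (n : ℕ) (hn : 0 < n) (hf : f ^ n = 1) :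
    ∃ (d : D) (i : Bool), d⁻¹ * f * d ∈ H i := by
  rcases elt_form h f with h1 | ⟨i, l, _, hl, rfl⟩
  · exact ⟨1, true, by simpa using h.le true h1⟩
  · exact ga4_main h n hn l.length i l rfl hl hf

end H14G
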