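import Pool.Agent.Lib.H14E.GA3

set_option autoImplicit false

namespace H14G

variable {D G : Type*} [Group D] [Group G] {j : D →* G} {A B S : Subgroup D} {t : G}

/-- the map on the second factor -/
theorem ga5_base (h : DB j A B S t) :
    ∃ r0 : B →* D, (∀ y : B, r0 y ∈ A) ∧ ∀ y : B, j y = t * j (r0 y) * t⁻¹ := by
  choose x hxA hx using h.con'
  refine ⟨MonoidHom.mk' (fun y : B => x y.1 y.2) ?_, ?_, ?_⟩
  · intro a b
    apply h.inj
    have e1 := hx (a * b : B).1 (a * b : B).2
    have e2 := hx a.1 a.2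
    have e3 := hx b.1 b.2
    have e4 : j ((a * b : B) : D) = j a * j b := by
      rw [Subgroup.coe_mul, map_mul]
    rw [e4, e2, e3] at e1
    rw [map_mul]
    have e5 : t * (j (x a.1 a.2) * j (x b.1 b.2)) * t⁻¹ = t * j (x (a * b : B).1 (a * b : B).2) * t⁻¹ := by
      rw [← e1]
      group
    exact (mul_left_cancel (mul_right_cancel e5)).symm
  · intro y
    exact hxA y.1 y.2
  · intro y
    exact hx y.1 y.2

/-- **Chunk GA5.** The retraction exists.

PROOF.  `amal_ext h.amal` with `Q = D`, `f true = A.subtype`, and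
`f false : B →* D` the map which sends `y` to the `x ∈ A` with `j y = t * j x * t⁻¹` (`h.con'`;
`x` is unique since `j` is injective; it is multiplicative for the same reason: use
`MonoidHom.mk'` with `Classical.choose`).  For `s ∈ S`, `j s = t * j s * t⁻¹` by `h.tS`, so
`f false s = s`. Let `r` be the resulting map. `onA` is clear; `onB`: `j (r y) = t⁻¹ * j y * t`.
`mem`: the subgroup `A.comap r` contains `A` (as `r x = x`) and `B` (as `r y ∈ A`), hence is `⊤`
(`h.amal.gen`; `fam A B true = A`, `fam A B false = B` by `rfl`). -/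
theorem ret_ex (h : DB j A B S t) : ∃ r : D →* D, Ret j A B t r := by
  obtain ⟨r0, h1, h2⟩ := ga5_base h
  obtain ⟨F, hF⟩ := amal_ext h.amal (fun i => match i with
    | true => A.subtype
    | false => r0) (by
    intro s hs
    apply h.inj
    have hsB : s ∈ B := h.amal.le false hs
    have e1 := h2 ⟨s, hsB⟩
    have e2 := h.tS s hs
    change j s = j (r0 ⟨s, hsB⟩)
    have e3 : t * j s * t⁻¹ = t * j (r0 ⟨s, hsB⟩) * t⁻¹ := by
      rw [e2]
      exact e1
    exact mul_left_cancel (mul_right_cancel e3))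
  have hA : ∀ x ∈ A, F x = x := fun x hx => hF true ⟨x, hx⟩
  have hB : ∀ (y : D) (hy : y ∈ B), F y = r0 ⟨y, hy⟩ := fun y hy => hF false ⟨y, hy⟩
  refine ⟨F, hA, ?_, ?_⟩
  · intro y hy
    have e1 := h2 ⟨y, hy⟩
    change j y = _ at e1
    rw [hB y hy, e1]
    group
  · intro d
    have e1 : fam A B true ⊔ fam A B false ≤ A.comap F := by
      refine sup_le ?_ ?_
      · intro x hx
        rw [Subgroup.mem_comap, hA x hx]
        exact hx
      · intro y hy
        rw [Subgroup.mem_comap, hB y hy]
        exact h1 _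
    rw [h.amal.gen] at e1
    exact e1 (Subgroup.mem_top d)

/-- `r` is the identity on `S`.  PROOF: `S ≤ A` (`h.amal.le true`). -/
theorem ret_S (h : DB j A B S t) {r : D →* D} (hr : Ret j A B t r) (s : D) (hs : s ∈ S) :
    r s = s := hr.onA s (h.amal.le true hs)

/-- `r` is idempotent.  PROOF: `r d ∈ A`. -/
theorem ret_idem (h : DB j A B S t) {r : D →* D} (hr : Ret j A B t r) (d : D) :
    r (r d) = r d := hr.onA _ (hr.mem d)

/-- `r` is injective on each factor.  PROOF: on `A` it is the identity, on `B` by `onB` and the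
injectivity of `j`. -/
theorem ret_inj (h : DB j A B S t) {r : D →* D} (hr : Ret j A B t r) (i : Bool) (x : D)
    (hx : x ∈ fam A B i) (h1 : r x = 1) : x = 1 := by
  cases i with
  | true => rw [← hr.onA x hx, h1]
  | false =>
    have e1 := hr.onB x hx
    rw [h1, map_one] at e1
    apply h.inj
    rw [map_one]
    have e2 : t * 1 * t⁻¹ = t * (t⁻¹ * j x * t) * t⁻¹ := by rw [← e1]
    have e3 : t * (t⁻¹ * j x * t) * t⁻¹ = j x := by group
    rw [e3] at e2
    rw [← e2]
    group

/-- If `S` is normal, `x` is in a factor and `r x ∈ S` then `x ∈ S`.  PROOF: on `A` clear. On `B`: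
`j x = t * j (r x) * t⁻¹ = j (r x)` by `onB` and `tS`, so `x = r x`. -/
theorem ret_mem_S (h : DB j A B S t) {r : D →* D} (hr : Ret j A B t r) (i : Bool) (x : D)
    (hx : x ∈ fam A B i) (h1 : r x ∈ S) : x ∈ S := by
  cases i with
  | true =>
    rw [hr.onA x hx] at h1
    exact h1
  | false =>
    have e1 := hr.onB x hx
    have e2 := h.tS _ h1
    have e3 : j x = j (r x) := by
      rw [← e2, e1]
      group
    rw [h.inj e3]
    exact h1

end H14G
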