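import Pool.Agent.Lib.H14E.GA5
import Pool.Agent.Lib.H14E.GA4

set_option autoImplicit false

namespace H14G

variable {D G : Type*} [Group D] [Group G] {j : D →* G} {A B S : Subgroup D} {t : G}

/-- **Chunk GA6.** The kernel of the retraction is torsion free.

PROOF.  Let `r f = 1`, `f ^ n = 1`. By `tors_conj` `x := d⁻¹ * f * d` is in a factor `fam A B i`.
`r x = (r d)⁻¹ * r f * r d = 1`, so `x = 1` by `ret_inj`, so `f = 1`. -/
theorem ret_ker_tf (h : DB j A B S t) {r : D →* D} (hr : Ret j A B t r) (f : D) (h1 : r f = 1)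
    (n : ℕ) (hn : 0 < n) (hf : f ^ n = 1) : f = 1 := by
  obtain ⟨d, i, hd⟩ := tors_conj h.amal f n hn hf
  have hx : r (d⁻¹ * f * d) = 1 := by
    rw [map_mul, map_mul, h1, map_inv]
    group
  have h2 := ret_inj h hr i _ hd hx
  have h3 : f = d * (d⁻¹ * f * d) * d⁻¹ := by group
  rw [h3, h2]
  group

/-- Let `S` be normal and `f` of finite order with `r f ∈ S`. Then `f ∈ S`.

PROOF.  `x := d⁻¹ * f * d ∈ fam A B i` by `tors_conj`; `r x = (r d)⁻¹ * r f * r d ∈ S` as `S` is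
normal; `x ∈ S` by `ret_mem_S`; `f = d * x * d⁻¹ ∈ S`. -/
theorem ret_tors_S (h : DB j A B S t) (hS : S.Normal) {r : D →* D} (hr : Ret j A B t r) (f : D)
    (h1 : r f ∈ S) (n : ℕ) (hn : 0 < n) (hf : f ^ n = 1) : f ∈ S := by
  obtain ⟨d, i, hd⟩ := tors_conj h.amal f n hn hf
  have hx : r (d⁻¹ * f * d) ∈ S := by
    rw [map_mul, map_mul, map_inv]
    have := hS.conj_mem _ h1 (r d)⁻¹
    simpa using this
  have h2 := ret_mem_S h hr i _ hd hx
  have h3 : f = d * (d⁻¹ * f * d) * d⁻¹ := by group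
  rw [h3]
  exact hS.conj_mem _ h2 d

end H14G
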