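import Pool.Agent.Lib.H14E.GA6

set_option autoImplicit false

namespace H14G

variable {D G : Type*} [Group D] [Group G] {p : ℕ} {j : D →* G} {A B S : Subgroup D} {t : G}

theorem ga7_finord {D : Type*} [Group D] (F : Subgroup D) [Finite F] (f : D) (hf : f ∈ F) :
    ∃ n : ℕ, 0 < n ∧ f ^ n = 1 := by
  have h1 : IsOfFinOrder (⟨f, hf⟩ : F) := isOfFinOrder_of_finite _
  rw [isOfFinOrder_iff_pow_eq_one] at h1
  obtain ⟨n, hn, h2⟩ := h1
  refine ⟨n, hn, ?_⟩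
  have := congrArg Subtype.val h2
  simpa using this

theorem ga7_gen {D G : Type*} [Group D] [Group G] {p : ℕ} {j : D →* G} {A B S : Subgroup D}
    {t : G} (h : DP p j A B S t) {r : D →* D} (hr : Ret j A B t r) (F : Subgroup D) :
    ∃ f₁ ∈ F, ∀ f ∈ F, ∃ m : ℤ, r ((f₁ ^ m)⁻¹ * f) ∈ S := by
  haveI := h.nor
  obtain ⟨a, ha, hcyc⟩ := h.cyc
  let q : D →* D ⧸ S := QuotientGroup.mk' S
  have hC : F.map (q.comp r) ≤ Subgroup.zpowers (q a) := by
    rintro _ ⟨f, hf, rfl⟩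
    obtain ⟨n, s, hs, hx⟩ := hcyc (r f) (hr.mem f)
    refine ⟨(n : ℤ), ?_⟩
    show q a ^ (n : ℤ) = q (r f)
    rw [hx, map_mul, map_pow, zpow_natCast]
    have : q s = 1 := (QuotientGroup.eq_one_iff s).2 hs
    rw [this, mul_one]
  have hcy : IsCyclic (F.map (q.comp r)) := Subgroup.isCyclic_of_le hC
  obtain ⟨⟨c, hc⟩, hcg⟩ := hcy
  obtain ⟨f₁, hf₁, hcf⟩ := hc
  refine ⟨f₁, hf₁, ?_⟩
  intro f hf
  obtain ⟨m, hm⟩ := hcg ⟨q.comp r f, f, hf, rfl⟩
  refine ⟨m, ?_⟩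
  have h2 := congrArg Subtype.val hm
  have h3 : c ^ m = q (r f) := by simpa using h2
  have h4 : q (r ((f₁ ^ m)⁻¹ * f)) = 1 := by
    rw [map_mul, map_mul, map_inv, map_inv, map_zpow, map_zpow, ← h3]
    have : q (r f₁) = c := hcf
    rw [this]
    simp
  exact (QuotientGroup.eq_one_iff _).1 h4

/-- **Chunk GA7.** A finite subgroup of `D` is conjugate into one of the factors.

PROOF.  Let `r` be the retraction (`ret_ex`), `a` the element of `h.cyc`.  For `f ∈ F` let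
`c f` be a natural number with `r f = a ^ c f * s`, `s ∈ S` (`h.cyc`, `hr.mem`).
Case 1: `r f ∈ S` for all `f ∈ F`: then `F ≤ S ≤ A` by `ret_tors_S` (elements of a finite group
have finite order, `isOfFinOrder_of_finite` / `pow_card_eq_one'`), `d = 1`.
Case 2 (general): the image `C` of `F` in the cyclic group `A / S` (or work with the subgroup
`N` of integers `{n : ℤ | ∃ f ∈ F, ∃ s ∈ S, r f = a ^ n * s}` of `ℤ`; it is a subgroup since `S` is
normal) is cyclic: there is `f₁ ∈ F` such that every `f ∈ F` satisfies `r f = r (f₁ ^ m) * s` for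
some integer `m` and `s ∈ S`.  Then `g := (f₁ ^ m)⁻¹ * f ∈ F` has `r g ∈ S`, finite order, so
`g ∈ S` (`ret_tors_S`).  So each `f ∈ F` is `f₁ ^ m * g`, `g ∈ S`.  By `tors_conj`,
`d⁻¹ * f₁ * d ∈ fam A B i`; `d⁻¹ * g * d ∈ S ≤ fam A B i` as `S` is normal. So
`d⁻¹ * f * d ∈ fam A B i`.
(A clean way for the cyclic image: `A ⧸ S.subgroupOf A` is cyclic by `h.cyc`, subgroups of cyclic
groups are cyclic, `Subgroup.isCyclic`, take the generator of the image of `F` under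
`F → A → A ⧸ S.subgroupOf A`, `f ↦ [r f]`.) -/
theorem fin_conj (h : DP p j A B S t) (F : Subgroup D) [Finite F] :
    ∃ (d : D) (i : Bool), ∀ f ∈ F, d⁻¹ * f * d ∈ fam A B i := by
  obtain ⟨r, hr⟩ := ret_ex h.toDB
  obtain ⟨f₁, hf₁, hg⟩ := ga7_gen h hr F
  obtain ⟨n, hn, hn1⟩ := ga7_finord F f₁ hf₁
  obtain ⟨d, i, hd⟩ := tors_conj h.amal f₁ n hn hn1
  refine ⟨d, i, ?_⟩
  intro f hf
  obtain ⟨m, hm⟩ := hg f hf
  have hgF : (f₁ ^ m)⁻¹ * f ∈ F := F.mul_mem (F.inv_mem (F.zpow_mem hf₁ m)) hf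
  obtain ⟨k, hk, hk1⟩ := ga7_finord F _ hgF
  have hS := ret_tors_S h.toDB h.nor hr _ hm k hk hk1
  have h5 : d⁻¹ * ((f₁ ^ m)⁻¹ * f) * d ∈ S := by
    have := h.nor.conj_mem _ hS d⁻¹
    simpa using this
  have h6 : d⁻¹ * f * d = (d⁻¹ * f₁ * d) ^ m * (d⁻¹ * ((f₁ ^ m)⁻¹ * f) * d) := by
    have h7 : (d⁻¹ * f₁ * d) ^ m = d⁻¹ * f₁ ^ m * d := by
      have := conj_zpow (i := m) (a := d⁻¹) (b := f₁)
      simpa using this
    rw [h7]
    group
  rw [h6]
  exact (fam A B i).mul_mem ((fam A B i).zpow_mem hd m) (h.amal.le i h5)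

/-- On a finite subgroup the retraction is the conjugation by one element of `G`.

PROOF.  Take `d, i` from `fin_conj`. Let `f ∈ F`, `x = d⁻¹ * f * d ∈ fam A B i`.
If `i = true`: `r x = x`, so `(r d)⁻¹ * r f * r d = d⁻¹ * f * d`, and `g = j (r d * d⁻¹)`.
If `i = false`: `j (r x) = t⁻¹ * j x * t`, so
`j (r f) = j (r d) * (t⁻¹ * j (d⁻¹ * f * d) * t) * j (r d)⁻¹`: `g = j (r d) * t⁻¹ * j d⁻¹`. -/
theorem ret_fus (h : DP p j A B S t) {r : D →* D} (hr : Ret j A B t r) (F : Subgroup D)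
    [Finite F] : ∃ g : G, ∀ f ∈ F, j (r f) = g * j f * g⁻¹ := by
  obtain ⟨d, i, hd⟩ := fin_conj h F
  cases i with
  | true =>
    refine ⟨j (r d * d⁻¹), ?_⟩
    intro f hf
    have h1 : r (d⁻¹ * f * d) = d⁻¹ * f * d := hr.onA _ (hd f hf)
    have h2 : r f = (r d * d⁻¹) * f * (r d * d⁻¹)⁻¹ := by
      have h3 : r f = r d * r (d⁻¹ * f * d) * (r d)⁻¹ := by
        rw [map_mul, map_mul, map_inv]
        group
      rw [h3, h1]
      group
    rw [h2, map_mul, map_mul, map_inv]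
  | false =>
    refine ⟨j (r d) * t⁻¹ * (j d)⁻¹, ?_⟩
    intro f hf
    have h1 : j (r (d⁻¹ * f * d)) = t⁻¹ * j (d⁻¹ * f * d) * t := hr.onB _ (hd f hf)
    have h3 : j (r f) = j (r d) * j (r (d⁻¹ * f * d)) * (j (r d))⁻¹ := by
      rw [← map_inv, ← map_mul, ← map_mul, ← map_inv, ← map_mul, ← map_mul]
      congr 2
      group
    rw [h3, h1, map_mul, map_mul, map_inv]
    group

end H14G
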