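import Pool.Agent.Lib.H76.Ext.FreeOrder

set_option autoImplicit false

namespace H14G

/-- Level `a` matrices: the entry `(i, j)` vanishes unless `j ≥ i + a`. -/
def Lev {R : Type*} [Ring R] {k : ℕ} (a : ℕ) (M : Matrix (Fin k) (Fin k) R) : Prop :=
  ∀ i j : Fin k, (j : ℕ) < (i : ℕ) + a → M i j = 0

variable {R : Type*} [Ring R] {k : ℕ}

/-- **Chunk GB1.** PROOF: entrywise. -/
theorem Lev.add {a : ℕ} {M N : Matrix (Fin k) (Fin k) R} (hM : Lev a M) (hN : Lev a N) :
    Lev a (M + N) := by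
  intro i j hij
  rw [Matrix.add_apply, hM i j hij, hN i j hij, add_zero]

/-- PROOF: `(M * N) i j = Σ l, M i l * N l j`. If `j < i + (a + b)` then for each `l` either
`l < i + a` or `j < l + b`. -/
theorem Lev.mul {a b : ℕ} {M N : Matrix (Fin k) (Fin k) R} (hM : Lev a M) (hN : Lev b N) :
    Lev (a + b) (M * N) := by
  intro i j hij
  rw [Matrix.mul_apply]
  refine Finset.sum_eq_zero fun l _ => ?_
  rcases Nat.lt_or_ge (l : ℕ) ((i : ℕ) + a) with h | h
  · rw [hM i l h, zero_mul]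
  · rw [hN l j (by omega), mul_zero]

/-- PROOF: clear. -/
theorem Lev.one : Lev 0 (1 : Matrix (Fin k) (Fin k) R) := by
  intro i j hij
  exact Matrix.one_apply_ne (fun h => by subst h; omega)

theorem Lev.mono {a b : ℕ} (h : b ≤ a) {M : Matrix (Fin k) (Fin k) R} (hM : Lev a M) :
    Lev b M := by
  intro i j hij
  exact hM i j (by omega)

/-- PROOF: `j < k ≤ i + k`. -/
theorem Lev.top {M : Matrix (Fin k) (Fin k) R} {a : ℕ} (ha : k ≤ a) (hM : Lev a M) : M = 0 := by
  ext i j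
  exact hM i j (by have := j.2; omega)

theorem gb1_smul {a : ℕ} (r : R) {M : Matrix (Fin k) (Fin k) R} (hM : Lev a M) :
    Lev a (r • M) := by
  intro i j hij
  rw [Matrix.smul_apply, hM i j hij, smul_zero]

theorem gb1_mul_natCast (q : ℕ) (M : Matrix (Fin k) (Fin k) R) :
    M * (q : Matrix (Fin k) (Fin k) R) = (q : R) • M := by
  rw [← (Nat.cast_commute q M).eq, ← nsmul_eq_mul]
  ext i j
  rw [Matrix.smul_apply, Matrix.smul_apply, nsmul_eq_mul, smul_eq_mul]

/-- PROOF: induction on `q`: `(1 + q n + n² c)(1 + n) = 1 + (q+1) n + n² (q + c + c n)`, hence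
`c' = q + c + c n` (note `c` need not commute with `n`; write `n² c (1 + n) = n² (c + c n)` and
`q n * n = n² q`). -/
theorem one_add_pow_lev {n : Matrix (Fin k) (Fin k) R} (hn : Lev 0 n) (q : ℕ) :
    ∃ c : Matrix (Fin k) (Fin k) R, Lev 0 c ∧ (1 + n) ^ q = 1 + (q : R) • n + n * n * c := by
  induction q with
  | zero =>
    refine ⟨0, fun i j _ => rfl, ?_⟩
    simp
  | succ q ih =>
    obtain ⟨c, hc, he⟩ := ih
    refine ⟨(q : R) • 1 + c + c * n, ?_, ?_⟩
    · exact ((gb1_smul _ Lev.one).add hc).add (by simpa using hc.mul hn)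
    · rw [pow_succ, he]
      have e1 : n * n * ((q : R) • (1 : Matrix (Fin k) (Fin k) R)) = ((q : R) • n) * n := by
        rw [← gb1_mul_natCast, ← gb1_mul_natCast, one_mul, mul_assoc, mul_assoc,
          (Nat.cast_commute q n).eq]
      have e2 : ((q + 1 : ℕ) : R) • n = (q : R) • n + n := by
        rw [Nat.cast_succ, add_smul, one_smul]
      rw [e2, mul_add (n * n), mul_add (n * n), e1]
      noncomm_ring

/-- If `q = 0` in `R` then `(1 + n) ^ (q ^ s) = 1 + (level 2 ^ s)` for `n` of level `1`.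

PROOF.  Induction on `s`: `(1 + n) ^ (q ^ s) = 1 + n'` with `n'` of level `2 ^ s`, and
`(1 + n') ^ q = 1 + q n' + n' n' c = 1 + n' n' c`, of level `2 * 2 ^ s + 0`. -/
theorem unip_pow {n : Matrix (Fin k) (Fin k) R} (hn : Lev 1 n) (q : ℕ) (hq : (q : R) = 0)
    (s : ℕ) : Lev (2 ^ s) ((1 + n) ^ q ^ s - 1) := by
  induction s with
  | zero => simpa using hn
  | succ s ih =>
    obtain ⟨c, hc, he⟩ := one_add_pow_lev (ih.mono (Nat.zero_le _)) q
    have e1 : (1 + n) ^ q ^ (s + 1) - 1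
        = ((1 + n) ^ q ^ s - 1) * ((1 + n) ^ q ^ s - 1) * c := by
      rw [pow_succ q s, pow_mul]
      rw [add_sub_cancel, hq, zero_smul, add_zero] at he
      rw [he, add_sub_cancel_left]
    rw [e1]
    have h2 := (ih.mul ih).mul hc
    rw [add_zero] at h2
    rw [pow_succ 2 s, mul_two]
    exact h2

/-- PROOF: `s = k`, `k ≤ 2 ^ k`, `Lev.top`. -/
theorem unip_pow_one {n : Matrix (Fin k) (Fin k) R} (hn : Lev 1 n) (q : ℕ) (hq : (q : R) = 0) :
    (1 + n) ^ q ^ k = 1 := by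
  have h := Lev.top (Nat.lt_two_pow_self (n := k)).le (unip_pow hn q hq k)
  exact sub_eq_zero.1 h

end H14G
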