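import Pool.Agent.Lib.H14E.GB1

set_option autoImplicit false

namespace H14G

open Pool.Agent.H76.Ext

variable {R : Type*} [Ring R]

/-- For a function `c : Fin k → ι` (the generators of the syllables) and `i : ι`: the
`(k+1) × (k+1)` matrix with entry `1` at `(l, l + 1)` for all `l` with `c l = i`. -/
def sylM (R : Type*) [Ring R] {ι : Type*} [DecidableEq ι] {k : ℕ} (c : Fin k → ι) (i : ι) :
    Matrix (Fin (k + 1)) (Fin (k + 1)) R :=
  fun a b => if h : (b : ℕ) = (a : ℕ) + 1 ∧ (a : ℕ) < k then
    (if c ⟨a, h.2⟩ = i then 1 else 0) else 0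

variable {ι : Type*} [DecidableEq ι] {k : ℕ} (c : Fin k → ι)

/-- **Chunk GB2.** PROOF: a non-zero entry has `b = a + 1`. -/
theorem sylM_lev (i : ι) : Lev 1 (sylM R c i) := by
  intro a b hab
  unfold sylM
  rw [dif_neg]
  rintro ⟨h, -⟩
  omega

/-- If neighbouring generators are different then `sylM R c i` has square zero.

PROOF.  `Σ l, M a l * M l b`: a non-zero term needs `l = a + 1`, `b = a + 2`, `c a = i`,
`c (a + 1) = i`: excluded. -/
theorem sylM_sq (hc : ∀ a b : Fin k, (b : ℕ) = a + 1 → c a ≠ c b) (i : ι) :
    sylM R c i * sylM R c i = 0 := by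
  ext a b
  rw [Matrix.mul_apply, Matrix.zero_apply]
  apply Finset.sum_eq_zero
  intro l _
  unfold sylM
  by_cases h1 : (l : ℕ) = (a : ℕ) + 1 ∧ (a : ℕ) < k
  · by_cases h2 : (b : ℕ) = (l : ℕ) + 1 ∧ (l : ℕ) < k
    · rw [dif_pos h1, dif_pos h2]
      by_cases h3 : c ⟨a, h1.2⟩ = i
      · by_cases h4 : c ⟨l, h2.2⟩ = i
        · exact absurd (h3.trans h4.symm) (hc ⟨a, h1.2⟩ ⟨l, h2.2⟩ h1.1)
        · rw [if_neg h4, mul_zero]
      · rw [if_neg h3, zero_mul]
    · rw [dif_neg h2, mul_zero]
  · rw [dif_neg h1, zero_mul]

/-- The entry `(0, k)` of the product `∏_{l < k} (1 + e l • sylM c (c l))` is `∏ e l`.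

PROOF.  Let `v m` be the first row of `∏_{l < m} (1 + e l • sylM c (c l))` (product over the list
of the first `m` indices, in this order).  Claim: `v m b = 0` for `b > m` and
`v m m = ∏_{l < m} e l`. `v 0 = (1, 0, …, 0)`. Step: `v (m+1) b = v m b + e m * v m (b-1) *
[c (b-1) = c m]` (for `b ≥ 1`).  For `b = m + 1`: `0 + e m * v m m`. For `b > m + 1`: both terms
vanish.  At the end `m = k`.  (In `List.ofFn` form: the product is over `List.ofFn`; do the
induction on the prefix `List.take m` or generalise to `Fin.prod`-like recursion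
`P 0 = 1, P (m+1) = P m * (1 + e m • sylM c (c m))`.) -/
theorem syl_prod {R : Type*} [CommRing R] (e : Fin k → R) :
    (List.ofFn (fun l : Fin k => (1 : Matrix (Fin (k + 1)) (Fin (k + 1)) R) +
      e l • sylM R c (c l))).prod 0 (Fin.last k) = ∏ l, e l := by
  set G : ℕ → Matrix (Fin (k + 1)) (Fin (k + 1)) R := fun l =>
    if h : l < k then 1 + e ⟨l, h⟩ • sylM R c (c ⟨l, h⟩) else 1 with hG
  set E : ℕ → R := fun l => if h : l < k then e ⟨l, h⟩ else 1 with hE
  have key : ∀ m : ℕ, m ≤ k → ∀ b : Fin (k + 1), m ≤ (b : ℕ) →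
      ((List.range m).map G).prod 0 b = if (b : ℕ) = m then ∏ l ∈ Finset.range m, E l else 0 := by
    intro m
    induction m with
    | zero =>
      intro _ b _
      rw [List.range_zero, List.map_nil, List.prod_nil, Finset.range_zero, Finset.prod_empty,
        Matrix.one_apply]
      by_cases hb : (b : ℕ) = 0
      · rw [if_pos hb, if_pos (Fin.ext (by rw [Fin.val_zero, hb]))]
      · rw [if_neg hb, if_neg (fun h => hb (by rw [← h, Fin.val_zero]))]
    | succ m ih =>
      intro hm b hb
      have hmk : m < k := hm
      have hGm : G m = 1 + e ⟨m, hmk⟩ • sylM R c (c ⟨m, hmk⟩) := by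
        rw [hG]
        simp only [dif_pos hmk]
      rw [List.range_succ, List.map_append, List.prod_append, List.map_singleton,
        List.prod_singleton, hGm, mul_add, mul_one, Matrix.add_apply, mul_smul_comm,
        Matrix.smul_apply, Matrix.mul_apply, ih (by omega) b (by omega), if_neg (by omega),
        zero_add]
      by_cases hbm : (b : ℕ) = m + 1
      · rw [if_pos hbm, Finset.sum_eq_single (⟨m, by omega⟩ : Fin (k + 1))]
        · rw [ih (by omega) ⟨m, by omega⟩ le_rfl, if_pos rfl, Finset.prod_range_succ]
          have e1 : sylM R c (c ⟨m, hmk⟩) ⟨m, by omega⟩ b = 1 := by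
            unfold sylM
            rw [dif_pos ⟨hbm, hmk⟩, if_pos rfl]
          have e2 : E m = e ⟨m, hmk⟩ := by
            rw [hE]
            simp only [dif_pos hmk]
          rw [e1, e2, mul_one, smul_eq_mul, mul_comm]
        · intro l _ hl
          have : sylM R c (c ⟨m, hmk⟩) l b = 0 := by
            unfold sylM
            rw [dif_neg]
            rintro ⟨h1, -⟩
            apply hl
            apply Fin.ext
            simp only
            omega
          rw [this, mul_zero]
        · intro h
          exact absurd (Finset.mem_univ _) h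
      · rw [if_neg hbm]
        have : ∑ l, ((List.range m).map G).prod 0 l * sylM R c (c ⟨m, hmk⟩) l b = 0 := by
          apply Finset.sum_eq_zero
          intro l _
          by_cases hl : (b : ℕ) = (l : ℕ) + 1
          · rw [ih (by omega) l (by omega), if_neg (by omega), zero_mul]
          · have : sylM R c (c ⟨m, hmk⟩) l b = 0 := by
              unfold sylM
              rw [dif_neg]
              rintro ⟨h1, -⟩
              exact hl h1
            rw [this, mul_zero]
        rw [this, smul_zero]
  have h1 : List.ofFn (fun l : Fin k => (1 : Matrix (Fin (k + 1)) (Fin (k + 1)) R) +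
      e l • sylM R c (c l)) = (List.range k).map G := by
    rw [List.ofFn_eq_map, ← List.map_coe_finRange_eq_range, List.map_map]
    apply List.map_congr_left
    intro l _
    rw [Function.comp, hG]
    simp only [dif_pos l.2]
  rw [h1, key k le_rfl (Fin.last k) (by simp), if_pos (by simp), Finset.prod_range]
  apply Finset.prod_congr rfl
  intro l _
  rw [hE]
  simp only [dif_pos l.2]

end H14G
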