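import Pool.Agent.Lib.H14E.GB2

set_option autoImplicit false

namespace H14G

open Pool.Agent.H76.Ext

/-- **Chunk GB3.** A product of syllables is detected in a finite `p`-group.

PROOF.  Choose `N` with `(∏ l, e l : ℤ)` not divisible by `p ^ N` (the product is non-zero;
`p ^ N > |∏ e l|`).  `R = ZMod (p ^ N)` (finite, `p ^ N ≠ 0`).
`f₀ = FreeGroup.lift (fun i => oneAdd (sylM R c i) (sylM_sq ..))` into
`(Matrix (Fin (k+1)) (Fin (k+1)) R)ˣ` (`oneAdd` of `Lib/H76/Ext/FreeOrder.lean`).
`P = f₀.range`, a subgroup of a finite group.  Every element `U` of `P` satisfies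
`Lev 1 (U - 1)`: true for the generators and their inverses (`1 + n`, `1 - n` with `n = sylM R c i`
of level `1`) and closed under products
(`(1 + n)(1 + n') - 1 = n + n' + n * n'`); use `FreeGroup.induction_on` on the preimage.
So `U ^ (p ^ N) ^ (k + 1) = 1` by `unip_pow_one` (with `q = p ^ N`, zero in `R`), hence `P` is a
finite `p`-group, `Nat.card P` is a power of `p` (`IsPGroup.iff_card`).
`f₀ (of (c l) ^ e l) = 1 + (e l : R) • sylM R c (c l)` (`oneAdd_zpow`; `(e : R) * n` written as a
product with the scalar matrix is `e • n`), so `f₀` of the product has entry `(0, k)` equal to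
`∏ (e l : R) ≠ 0` (`syl_prod`; `map_list_prod`, `List.map_ofFn`), while the unit matrix has entry
`0` there as `k > 0`. -/
theorem syl_res {ι : Type*} [DecidableEq ι] {p : ℕ} (hp : p.Prime) {k : ℕ} (hk : 0 < k)
    (c : Fin k → ι) (hc : ∀ a b : Fin k, (b : ℕ) = a + 1 → c a ≠ c b) (e : Fin k → ℤ)
    (he : ∀ l, e l ≠ 0) :
    ∃ (P : Type) (_ : Group P) (f : FreeGroup ι →* P), (∃ m : ℕ, Nat.card P = p ^ m) ∧
      f (List.ofFn (fun l : Fin k => FreeGroup.of (c l) ^ e l)).prod ≠ 1 := by
  classical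
  have : Fact p.Prime := ⟨hp⟩
  set z : ℤ := ∏ l, e l with hz
  have hz0 : z ≠ 0 := Finset.prod_ne_zero_iff.2 fun l _ => he l
  set N : ℕ := z.natAbs with hN
  have hzN : ¬ ((p ^ N : ℕ) : ℤ) ∣ z := by
    intro hdvd
    have h1 := Int.natAbs_dvd_natAbs.2 hdvd
    rw [Int.natAbs_natCast] at h1
    have h2 := Nat.le_of_dvd (Int.natAbs_pos.2 hz0) h1
    have h3 : N < p ^ N := Nat.lt_pow_self hp.one_lt
    omega
  have : NeZero (p ^ N) := ⟨pow_ne_zero _ hp.ne_zero⟩
  set R := ZMod (p ^ N) with hR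
  set f₀ : FreeGroup ι →* (Matrix (Fin (k + 1)) (Fin (k + 1)) R)ˣ :=
    FreeGroup.lift (fun i => oneAdd (sylM R c i) (sylM_sq c hc i)) with hf₀
  have hlev : ∀ w : FreeGroup ι, Lev 1 ((f₀ w : Matrix (Fin (k + 1)) (Fin (k + 1)) R) - 1) := by
    intro w
    induction w using FreeGroup.induction_on with
    | C1 =>
      rw [map_one, Units.val_one, sub_self]
      intro a b _
      rfl
    | of i =>
      rw [hf₀, FreeGroup.lift_apply_of]
      show Lev 1 ((1 + sylM R c i) - 1)
      rw [add_sub_cancel_left]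
      exact sylM_lev c i
    | inv_of i _ =>
      rw [map_inv, hf₀, FreeGroup.lift_apply_of]
      show Lev 1 ((1 - sylM R c i) - 1)
      rw [sub_sub_cancel_left]
      intro a b hab
      rw [Matrix.neg_apply, sylM_lev c i a b hab, neg_zero]
    | mul x y hx hy =>
      have e1 : ((f₀ (x * y) : (Matrix (Fin (k + 1)) (Fin (k + 1)) R)ˣ) :
          Matrix (Fin (k + 1)) (Fin (k + 1)) R) - 1 =
          ((f₀ x : Matrix (Fin (k + 1)) (Fin (k + 1)) R) - 1) +
          ((f₀ y : Matrix (Fin (k + 1)) (Fin (k + 1)) R) - 1) +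
          ((f₀ x : Matrix (Fin (k + 1)) (Fin (k + 1)) R) - 1) *
          ((f₀ y : Matrix (Fin (k + 1)) (Fin (k + 1)) R) - 1) := by
        rw [map_mul, Units.val_mul, sub_mul, mul_sub, mul_one, one_mul]
        abel
      rw [e1]
      exact (hx.add hy).add ((hx.mul hy).mono (by omega))
  have hpow : ∀ w : FreeGroup ι, f₀ w ^ (p ^ N) ^ (k + 1) = 1 := by
    intro w
    apply Units.ext
    have h1 := unip_pow_one (hlev w) (p ^ N) (by
      have : ((p ^ N : ℕ) : ZMod (p ^ N)) = 0 := ZMod.natCast_self _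
      exact this)
    rw [add_sub_cancel] at h1
    rw [Units.val_pow_eq_pow_val, h1, Units.val_one]
  refine ⟨f₀.range, inferInstance, f₀.rangeRestrict, ?_, ?_⟩
  · have hpg : IsPGroup p f₀.range := by
      rintro ⟨_, w, rfl⟩
      refine ⟨N * (k + 1), ?_⟩
      apply Subtype.ext
      rw [pow_mul]
      exact hpow w
    exact IsPGroup.iff_card.1 hpg
  · intro h
    have h1 : f₀ (List.ofFn (fun l : Fin k => FreeGroup.of (c l) ^ e l)).prod = 1 := by
      have := congrArg Subtype.val h
      exact this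
    have h2 : (f₀ (List.ofFn (fun l : Fin k => FreeGroup.of (c l) ^ e l)).prod :
        Matrix (Fin (k + 1)) (Fin (k + 1)) R) =
        (List.ofFn (fun l : Fin k => (1 : Matrix (Fin (k + 1)) (Fin (k + 1)) R) +
          ((e l : ℤ) : R) • sylM R c (c l))).prod := by
      rw [map_list_prod, ← Units.coeHom_apply, map_list_prod, List.map_map, List.map_ofFn]
      congr 2
      funext l
      simp only [Function.comp]
      rw [Units.coeHom_apply, map_zpow, hf₀, FreeGroup.lift_apply_of, oneAdd_zpow]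
      congr 1
      rw [← zsmul_eq_mul, Int.cast_smul_eq_zsmul]
    have h3 := syl_prod (R := R) c (fun l => ((e l : ℤ) : R))
    rw [← h2, h1, Units.val_one, Matrix.one_apply, if_neg (by
      rw [Fin.ext_iff, Fin.val_zero, Fin.val_last]; omega)] at h3
    apply hzN
    rw [← ZMod.intCast_zmod_eq_zero_iff_dvd, hz, Int.cast_prod]
    exact h3.symm

end H14G
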