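import Mathlib

set_option autoImplicit false

namespace H14G

theorem gb4_mul {ι : Type*} [DecidableEq ι] (i : ι) (n : ℤ) (hn : n ≠ 0) (L : List (ι × ℤ))
    (h1 : L.IsChain (fun x y => x.1 ≠ y.1)) (h2 : ∀ x ∈ L, x.2 ≠ 0) :
    ∃ L' : List (ι × ℤ), L'.IsChain (fun x y => x.1 ≠ y.1) ∧ (∀ x ∈ L', x.2 ≠ 0) ∧
      FreeGroup.of i ^ n * (L.map (fun x => FreeGroup.of x.1 ^ x.2)).prod =
        (L'.map (fun x => FreeGroup.of x.1 ^ x.2)).prod := by
  rcases L with _ | ⟨⟨j, m⟩, L⟩
  · refine ⟨[(i, n)], List.isChain_singleton _, ?_, by simp⟩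
    intro x hx
    rw [List.mem_singleton] at hx
    subst hx
    exact hn
  · by_cases hij : i = j
    · subst hij
      by_cases hs : n + m = 0
      · refine ⟨L, h1.tail, fun x hx => h2 x (List.mem_cons_of_mem _ hx), ?_⟩
        rw [List.map_cons, List.prod_cons, ← mul_assoc, ← zpow_add, hs, zpow_zero, one_mul]
      · refine ⟨(i, n + m) :: L, ?_, ?_, ?_⟩
        · rcases L with _ | ⟨y, L⟩
          · exact List.isChain_singleton _
          · rw [List.isChain_cons_cons] at h1 ⊢
            exact h1
        · intro x hx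
          rw [List.mem_cons] at hx
          rcases hx with rfl | hx
          · exact hs
          · exact h2 x (List.mem_cons_of_mem _ hx)
        · rw [List.map_cons, List.prod_cons, List.map_cons, List.prod_cons, ← mul_assoc,
            ← zpow_add]
    · refine ⟨(i, n) :: (j, m) :: L, ?_, ?_, ?_⟩
      · rw [List.isChain_cons_cons]
        exact ⟨hij, h1⟩
      · intro x hx
        rw [List.mem_cons] at hx
        rcases hx with rfl | hx
        · exact hn
        · exact h2 x hx
      · rw [List.map_cons (l := (j, m) :: L), List.prod_cons (l := List.map _ ((j, m) :: L))]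

theorem gb4_all {ι : Type*} [DecidableEq ι] (w : FreeGroup ι) :
    ∃ L : List (ι × ℤ), L.IsChain (fun x y => x.1 ≠ y.1) ∧ (∀ x ∈ L, x.2 ≠ 0) ∧
      w = (L.map (fun x => FreeGroup.of x.1 ^ x.2)).prod := by
  have key : ∀ w : FreeGroup ι, ∀ L : List (ι × ℤ), L.IsChain (fun x y => x.1 ≠ y.1) →
      (∀ x ∈ L, x.2 ≠ 0) → ∃ L' : List (ι × ℤ), L'.IsChain (fun x y => x.1 ≠ y.1) ∧
      (∀ x ∈ L', x.2 ≠ 0) ∧ w * (L.map (fun x => FreeGroup.of x.1 ^ x.2)).prod =
        (L'.map (fun x => FreeGroup.of x.1 ^ x.2)).prod := by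
    intro w
    induction w using FreeGroup.induction_on with
    | C1 =>
      intro L h1 h2
      exact ⟨L, h1, h2, one_mul _⟩
    | of i =>
      intro L h1 h2
      have := gb4_mul i 1 one_ne_zero L h1 h2
      rwa [zpow_one] at this
    | inv_of i _ =>
      intro L h1 h2
      have := gb4_mul i (-1) (by norm_num) L h1 h2
      rwa [zpow_neg_one] at this
    | mul x y hx hy =>
      intro L h1 h2
      obtain ⟨L1, a1, a2, a3⟩ := hy L h1 h2
      obtain ⟨L2, b1, b2, b3⟩ := hx L1 a1 a2
      exact ⟨L2, b1, b2, by rw [mul_assoc, a3, b3]⟩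
  obtain ⟨L, h1, h2, h3⟩ := key w [] List.isChain_nil (by intro x hx; simp at hx)
  rw [List.map_nil, List.prod_nil, mul_one] at h3
  exact ⟨L, h1, h2, h3⟩

/-- **Chunk GB4.** Every non-trivial element of a free group is a product of syllables.

PROOF.  `freeGroupEquivCoprodI : FreeGroup ι ≃* CoprodI (fun _ : ι => FreeGroup Unit)`; the image
of `w` is `W.prod` for a word `W : CoprodI.Word _` (`CoprodI.Word.equiv`), `W.toList` is a list of
pairs `⟨i, g⟩` with `g ≠ 1` and neighbouring `i` different (`W.ne_one`, `W.chain_ne`), non-empty as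
`w ≠ 1`.  Each `g : FreeGroup Unit` is `of () ^ n`, `n ≠ 0` (`FreeGroup.freeGroupUnitEquivInt`).
Take `k` = length, `c l`, `e l` the data of the `l`-th pair; `w` is the product of the inverse
images of `CoprodI.of g`, which are `of i ^ n`.

Alternative without `CoprodI`: induction on the length of the reduced word (`FreeGroup.toWord`),
or: the set of elements which are `1` or a product of syllables is closed under left multiplication
by `of i ^ n`, `n ≠ 0` (if the first syllable has generator `i`, add the exponents; if the sum is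
zero, drop it), hence is everything (`FreeGroup.induction_on` applied to
`∀ v ∈ T, w * v ∈ T`). -/
theorem syl_form {ι : Type*} (w : FreeGroup ι) (hw : w ≠ 1) :
    ∃ (k : ℕ) (_ : 0 < k) (c : Fin k → ι) (e : Fin k → ℤ),
      (∀ a b : Fin k, (b : ℕ) = a + 1 → c a ≠ c b) ∧ (∀ l, e l ≠ 0) ∧
      w = (List.ofFn (fun l : Fin k => FreeGroup.of (c l) ^ e l)).prod := by
  classical
  obtain ⟨L, h1, h2, h3⟩ := gb4_all w
  have hL : 0 < L.length := by
    rcases Nat.eq_zero_or_pos L.length with h | h
    · rw [List.length_eq_zero_iff] at h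
      subst h
      simp only [List.map_nil, List.prod_nil] at h3
      exact absurd h3 hw
    · exact h
  refine ⟨L.length, hL, fun l => (L.get l).1, fun l => (L.get l).2, ?_, ?_, ?_⟩
  · intro a b hab
    rw [List.isChain_iff_getElem] at h1
    have h4 := h1 a.1 (by have := b.2; omega)
    obtain ⟨b, hb⟩ := b
    simp only at hab
    subst hab
    exact h4
  · intro l
    exact h2 _ (L.get_mem l)
  · rw [h3]
    congr 1
    conv_lhs => rw [← List.ofFn_get L, List.map_ofFn]
    rfl

end H14G
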