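import Pool.Agent.Lib.H14E.GD

set_option autoImplicit false

namespace H14G

variable {D Q : Type*} [Group D] [Group Q] {p : ℕ}

theorem gp1_dvd (hp : p.Prime) {n k : ℕ} (h : n ∣ p ^ k) : ∃ l : ℕ, n = p ^ l := by
  obtain ⟨l, _, h2⟩ := (Nat.dvd_prime_pow hp).1 h
  exact ⟨l, h2⟩

/-- **Chunk GP1.** `⊤` has index `1 = p ^ 0`. -/
theorem PQ.top : PQ p (⊤ : Subgroup D) := by
  refine ⟨inferInstance, 0, ?_⟩
  rw [Subgroup.index_top, pow_zero]

/-- PROOF.  `(M ⊓ N).index = (M ⊓ N).relIndex N * N.index = M.relIndex N * N.index`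
(`relIndex_mul_index`, `inf_relIndex_right`) and `M.relIndex N ∣ M.index`
(`relIndex_dvd_index_of_normal`), a divisor of `p ^ k` is a power of `p`
(`(Nat.dvd_prime_pow hp).1`). -/
theorem PQ.inf (hp : p.Prime) {M N : Subgroup D} (hM : PQ p M) (hN : PQ p N) : PQ p (M ⊓ N) := by
  obtain ⟨hMn, k, hk⟩ := hM
  obtain ⟨hNn, l, hl⟩ := hN
  refine ⟨inferInstance, ?_⟩
  have h1 : (M ⊓ N).index = M.relIndex N * N.index := by
    rw [← Subgroup.relIndex_mul_index (inf_le_right : M ⊓ N ≤ N), Subgroup.inf_relIndex_right]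
  have h2 : M.relIndex N ∣ M.index := Subgroup.relIndex_dvd_index_of_normal M N
  rw [hk] at h2
  obtain ⟨a, ha⟩ := gp1_dvd hp h2
  exact ⟨a + l, by rw [h1, ha, hl, pow_add]⟩

/-- Finite intersections.  PROOF: induction on the finite set (`Set.Finite.induction_on`) with
`PQ.top`, `PQ.inf`. -/
theorem PQ.biInf (hp : p.Prime) {ι : Type*} (s : Set ι) (hs : s.Finite) (M : ι → Subgroup D)
    (hM : ∀ i ∈ s, PQ p (M i)) : PQ p (⨅ i ∈ s, M i) := by
  induction s, hs using Set.Finite.induction_on with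
  | empty =>
    have : (⨅ i ∈ (∅ : Set ι), M i) = ⊤ := by simp
    rw [this]
    exact PQ.top
  | @insert a s _ _ ih =>
    rw [iInf_insert]
    exact PQ.inf hp (hM a (Set.mem_insert _ _)) (ih fun i hi => hM i (Set.mem_insert_of_mem _ hi))

/-- PROOF.  `(M.comap f).index = M.relIndex f.range` (`index_comap`) divides `M.index`. -/
theorem PQ.comap (hp : p.Prime) (f : D →* Q) {M : Subgroup Q} (hM : PQ p M) :
    PQ p (M.comap f) := by
  obtain ⟨hMn, k, hk⟩ := hM
  refine ⟨inferInstance, ?_⟩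
  rw [Subgroup.index_comap]
  have h2 : M.relIndex f.range ∣ M.index := Subgroup.relIndex_dvd_index_of_normal M f.range
  rw [hk] at h2
  exact gp1_dvd hp h2

/-- PROOF.  `PQ p (⊥ : Subgroup Q)` (index `Nat.card Q`), `f.ker = ⊥.comap f`. -/
theorem PQ.ker (hp : p.Prime) (f : D →* Q) (hQ : ∃ k : ℕ, Nat.card Q = p ^ k) : PQ p f.ker := by
  have h : PQ p (⊥ : Subgroup Q) := by
    refine ⟨inferInstance, ?_⟩
    rw [Subgroup.index_bot]
    exact hQ
  rw [← MonoidHom.comap_bot]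
  exact PQ.comap hp f h

/-- PROOF.  The quotient has order `p ^ k`, so each of its elements has `p ^ k`-th power `1`. -/
theorem PQ.pow_mem (hp : p.Prime) {M : Subgroup D} (hM : PQ p M) :
    ∃ k : ℕ, ∀ d : D, d ^ p ^ k ∈ M := by
  obtain ⟨hMn, k, hk⟩ := hM
  refine ⟨k, fun d => ?_⟩
  rw [← hk]
  exact M.pow_index_mem d

/-- A normal subgroup which contains the kernel of ... : `M ≤ N`, `N` normal, `PQ p M` imply
`PQ p N`.  PROOF: `index_dvd_of_le`. -/
theorem PQ.mono (hp : p.Prime) {M N : Subgroup D} (hM : PQ p M) (hN : N.Normal) (h : M ≤ N) :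
    PQ p N := by
  obtain ⟨hMn, k, hk⟩ := hM
  refine ⟨hN, ?_⟩
  have h2 := Subgroup.index_dvd_of_le h
  rw [hk] at h2
  exact gp1_dvd hp h2

/-- `PQ` in terms of the quotient group. PROOF: the index is `Nat.card (D ⧸ M)`;
`IsPGroup.iff_card` (needs `Fact p.Prime`). -/
theorem PQ.quot (hp : p.Prime) {M : Subgroup D} [M.Normal] (hM : PQ p M) :
    Finite (D ⧸ M) ∧ IsPGroup p (D ⧸ M) := by
  obtain ⟨hMn, k, hk⟩ := hM
  have : Fact p.Prime := ⟨hp⟩
  have h1 : Nat.card (D ⧸ M) = p ^ k := hk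
  constructor
  · apply Nat.finite_of_card_ne_zero
    rw [h1]
    exact pow_ne_zero _ hp.ne_zero
  · exact IsPGroup.of_card h1

end H14G
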