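import Pool.Agent.Lib.H14E.GB3
import Pool.Agent.Lib.H14E.GB4
import Pool.Agent.Lib.H14E.GP1

set_option autoImplicit false

namespace H14G

/-- **Chunk GB5.** Free groups are residually (finite `p`-groups).
PROOF: `syl_form` and `syl_res` (with `Classical.decEq ι`). -/
theorem free_res {ι : Type*} {p : ℕ} (hp : p.Prime) (w : FreeGroup ι) (hw : w ≠ 1) :
    ∃ (P : Type) (_ : Group P) (f : FreeGroup ι →* P), (∃ m : ℕ, Nat.card P = p ^ m) ∧
      f w ≠ 1 := by
  classical
  obtain ⟨k, hk, c, e, hc, he, hwe⟩ := syl_form w hw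
  rw [hwe]
  exact syl_res hp hk c hc e he

/-- the characteristic subgroup for one element -/
theorem gb5_one {ι : Type*} [Finite ι] {p : ℕ} (hp : p.Prime) (w : FreeGroup ι) (hw : w ≠ 1) :
    ∃ V : Subgroup (FreeGroup ι), V.Characteristic ∧ PQ p V ∧ w ∉ V := by
  obtain ⟨P, iP, f, hP, hf⟩ := free_res hp w hw
  have hfin : Finite P := by
    obtain ⟨m, hm⟩ := hP
    apply Nat.finite_of_card_ne_zero
    rw [hm]
    exact pow_ne_zero _ hp.ne_zero
  have hfin2 : Finite (FreeGroup ι →* P) := Finite.of_equiv _ (FreeGroup.lift (α := ι) (β := P))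
  refine ⟨⨅ g ∈ (Set.univ : Set (FreeGroup ι →* P)), g.ker, ?_, ?_, ?_⟩
  · rw [Subgroup.characteristic_iff_le_comap]
    intro φ x hx
    rw [Subgroup.mem_comap]
    simp only [Set.mem_univ, iInf_pos, Subgroup.mem_iInf, MonoidHom.mem_ker] at hx ⊢
    intro g
    exact hx (g.comp φ.toMonoidHom)
  · exact PQ.biInf hp _ Set.finite_univ _ fun g _ => PQ.ker hp g hP
  · intro hx
    simp only [Set.mem_univ, iInf_pos, Subgroup.mem_iInf, MonoidHom.mem_ker] at hx
    exact hf (hx f)

/-- In a free group of finite rank a finite set of non-trivial elements avoids a characteristic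
subgroup of `p`-power index.

PROOF.  For one `w`: let `P, f` be as in `free_res`, `V w = ⨅ g : FreeGroup ι →* P, g.ker`. There
are finitely many `g` (`FreeGroup.lift : (ι → P) ≃ (FreeGroup ι →* P)`), so `PQ p (V w)` by
`PQ.biInf` (over `Set.univ`), `PQ.ker`.  `w ∉ V w` because of `f`.  `V w` is characteristic: for an
automorphism `φ` and `x ∈ V w`: `g (φ x) = (g.comp φ) x = 1` for all `g`
(`Subgroup.characteristic_iff_comap_le` or `..._le_comap`).
For the set `W`: `V = ⨅ w ∈ W, V w`, an intersection of characteristic subgroups. -/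
theorem free_char {ι : Type*} [Finite ι] {p : ℕ} (hp : p.Prime) (W : Set (FreeGroup ι))
    (hW : W.Finite) (h1 : (1 : FreeGroup ι) ∉ W) :
    ∃ V : Subgroup (FreeGroup ι), V.Characteristic ∧ PQ p V ∧ ∀ w ∈ W, w ∉ V := by
  have key : ∀ w : W, ∃ V : Subgroup (FreeGroup ι), V.Characteristic ∧ PQ p V ∧ (w : FreeGroup ι) ∉ V := by
    intro w
    apply gb5_one hp
    intro h
    apply h1
    rw [← h]
    exact w.2
  choose V hVc hVp hVw using key
  have hWf : Finite W := hW
  refine ⟨⨅ w ∈ (Set.univ : Set W), V w, ?_, ?_, ?_⟩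
  · rw [Subgroup.characteristic_iff_le_comap]
    intro φ x hx
    rw [Subgroup.mem_comap]
    simp only [Set.mem_univ, iInf_pos, Subgroup.mem_iInf] at hx ⊢
    intro w
    exact (Subgroup.characteristic_iff_le_comap.mp (hVc w) φ) (hx w)
  · exact PQ.biInf hp _ Set.finite_univ _ fun w _ => hVp w
  · intro w hw hx
    simp only [Set.mem_univ, iInf_pos, Subgroup.mem_iInf] at hx
    exact hVw ⟨w, hw⟩ (hx ⟨w, hw⟩)

end H14G
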