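import Pool.Agent.Lib.H14E.GA5

set_option autoImplicit false

namespace H14G

/-- The action of `A` on the free group on an `A`-set `X` by permutation of the generators. -/
def permAut (A : Type*) [Group A] (X : Type*) [MulAction A X] : A →* MulAut (FreeGroup X) where
  toFun a := FreeGroup.freeGroupCongr (MulAction.toPerm a)
  map_one' := by
    ext x
    have e : (⇑(MulAction.toPerm (1 : A)) : X → X) = id := by
      funext y
      simp
    simp [e]
  map_mul' a b := by
    ext x
    refine FreeGroup.induction_on x (by simp) ?_ ?_ ?_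
    · intro y
      simp [mul_smul]
    · intro y _
      simp [mul_smul]
    · intro y z hy hz
      rw [map_mul, hy, hz, ← map_mul]

/-- `FreeGroup (A / S) ⋊ A`. -/
abbrev Gam {D : Type*} [Group D] (A S : Subgroup D) : Type _ :=
  FreeGroup (A ⧸ S.subgroupOf A) ⋊[permAut A (A ⧸ S.subgroupOf A)] A

variable {D G : Type*} [Group D] [Group G] {j : D →* G} {A B S : Subgroup D} {t : G}

theorem gc1_of (A S : Subgroup D) (g : A) (q : A ⧸ S.subgroupOf A) :
    permAut A (A ⧸ S.subgroupOf A) g (FreeGroup.of q) = FreeGroup.of (g • q) := rfl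

/-- the conjugating element -/
def gc1_tau (A S : Subgroup D) : Gam A S :=
  SemidirectProduct.inl (FreeGroup.of (QuotientGroup.mk 1 : A ⧸ S.subgroupOf A))

theorem gc1_tau_comm (A S : Subgroup D) (s : A) (hs : (s : D) ∈ S) :
    gc1_tau A S * SemidirectProduct.inr s * (gc1_tau A S)⁻¹ = SemidirectProduct.inr s := by
  have e1 : (s • (QuotientGroup.mk 1 : A ⧸ S.subgroupOf A)) = QuotientGroup.mk 1 := by
    show ((s * 1 : A) : A ⧸ S.subgroupOf A) = QuotientGroup.mk 1
    rw [mul_one, QuotientGroup.eq, mul_one]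
    exact inv_mem hs
  have e2 : (SemidirectProduct.inr s : Gam A S) * gc1_tau A S *
      (SemidirectProduct.inr s⁻¹ : Gam A S) = gc1_tau A S := by
    unfold gc1_tau
    rw [← SemidirectProduct.inl_aut, gc1_of, e1]
  rw [map_inv, mul_inv_eq_iff_eq_mul] at e2
  rw [mul_inv_eq_iff_eq_mul]
  exact e2.symm

/-- the map of the second factor -/
def gc1_f {r : D →* D} (hr : Ret j A B t r) : B →* Gam A S :=
  (MulAut.conj (gc1_tau A S)).toMonoidHom.comp
    ((SemidirectProduct.inr : A →* Gam A S).comp ((r.codRestrict A hr.mem).comp B.subtype))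

theorem gc1_f_apply {r : D →* D} (hr : Ret j A B t r) (y : B) :
    gc1_f (S := S) hr y = gc1_tau A S * SemidirectProduct.inr ⟨r y, hr.mem y⟩ * (gc1_tau A S)⁻¹ :=
  rfl

/-- the generators in `G` -/
def gc1_u (h : DB j A B S t) : (A ⧸ S.subgroupOf A) → G := fun q =>
  Quotient.liftOn' q (fun α : A => j α * t * (j α)⁻¹) (by
    intro a b hab
    have hab' : (a⁻¹ * b : A) ∈ S.subgroupOf A := QuotientGroup.leftRel_apply.1 hab
    have h1 : ((a⁻¹ * b : A) : D) ∈ S := hab'
    have h2 := h.tS _ h1
    rw [mul_inv_eq_iff_eq_mul] at h2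
    have h3 : (b : D) = (a : D) * ((a⁻¹ * b : A) : D) := by
      show (b : D) = (a : D) * ((a : D)⁻¹ * (b : D))
      rw [mul_inv_cancel_left]
    show j a * t * (j a)⁻¹ = j b * t * (j b)⁻¹
    rw [h3, map_mul, mul_assoc (j (a : D)) _ t, ← h2, mul_inv_rev]
    group)

theorem gc1_u_mk (h : DB j A B S t) (α : A) :
    gc1_u h (QuotientGroup.mk α) = j α * t * (j α)⁻¹ := rfl

theorem gc1_u_smul (h : DB j A B S t) (γ : A) (q : A ⧸ S.subgroupOf A) :
    gc1_u h (γ • q) = j γ * gc1_u h q * (j γ)⁻¹ := by
  induction q using QuotientGroup.induction_on with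
  | H α =>
    have e : γ • (QuotientGroup.mk α : A ⧸ S.subgroupOf A) = QuotientGroup.mk (γ * α) := rfl
    rw [e, gc1_u_mk, gc1_u_mk]
    show j ((γ : D) * (α : D)) * t * (j ((γ : D) * (α : D)))⁻¹ = _
    rw [map_mul, mul_inv_rev]
    group

/-- the map to `G` -/
def gc1_K (h : DB j A B S t) : Gam A S →* G :=
  SemidirectProduct.lift (FreeGroup.lift (gc1_u h)) (j.comp A.subtype) (by
    intro g
    apply FreeGroup.ext_hom
    intro q
    show FreeGroup.lift (gc1_u h) (permAut A (A ⧸ S.subgroupOf A) g (FreeGroup.of q)) =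
      j g * FreeGroup.lift (gc1_u h) (FreeGroup.of q) * (j g)⁻¹
    rw [gc1_of, FreeGroup.lift_apply_of, FreeGroup.lift_apply_of, gc1_u_smul])

/-- **Chunk GC1.** An amalgam of type `DB` embeds in `FreeGroup (A / S) ⋊ A`, and the projection to
`A` is the retraction.

PROOF.  `X = A ⧸ S.subgroupOf A`, `τ = inl (of 1)` with `1 : X` the class of `1`.
`F := amal_ext h.amal f` with `f true = inr`, `f false y = τ * inr x * τ⁻¹`, where `x ∈ A` is the
element with `j y = t * j x * t⁻¹` (`x = r y`: `hr.onB`, `hr.mem`; so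
`f false y = τ * inr ⟨r y, _⟩ * τ⁻¹`).  On `s ∈ S`: `r s = s` and
`inr s * τ * inr s⁻¹ = inl (of (s • 1)) = inl (of 1) = τ` (`SemidirectProduct.inl_aut`), since
`s • (1 : X)` is the class of `s`, which is `1`.  So `τ * inr s * τ⁻¹ = inr s`.
`(F d).right = r d`: two homomorphisms `D → D`, `d ↦ ((F d).right : D)` and `r`, which agree on `A`
and on `B` (`amal_hom_ext`).
Injectivity: let `K : Gam A S →* G` be `SemidirectProduct.lift fn fg _` with `fg α = j α` and
`fn = FreeGroup.lift u`, `u (class of α) = j α * t * (j α)⁻¹`; this is well defined since for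
`s ∈ S`, `j s * t * (j s)⁻¹ = t` (`h.tS`) (define `u` with `Quotient.liftOn'` or with
`Quotient.out` and prove `u (class of α) = j α * t * (j α)⁻¹`).  Compatibility: on generators,
`u (γ • q) = j γ * u q * (j γ)⁻¹`.  `K (F x) = j x` for `x ∈ A`, and for `y ∈ B`,
`K (F y) = t * j (r y) * t⁻¹ = j y`.  So `K ∘ F = j` (`amal_hom_ext`), and `j` is injective. -/
theorem gam_emb (h : DB j A B S t) {r : D →* D} (hr : Ret j A B t r) :
    ∃ F : D →* Gam A S, Function.Injective F ∧ ∀ d, (((F d).right : A) : D) = r d := by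
  obtain ⟨F, hF⟩ := amal_ext h.amal (fun i => (Bool.rec (gc1_f hr)
      (SemidirectProduct.inr : A →* Gam A S) i : fam A B i →* Gam A S)) (by
    intro s hs
    have hsA : s ∈ A := h.amal.le true hs
    have e1 : r s = s := ret_S h hr s hs
    show (SemidirectProduct.inr (⟨s, hsA⟩ : A) : Gam A S) = gc1_f hr ⟨s, h.amal.le false hs⟩
    rw [gc1_f_apply]
    have e2 : (⟨r s, hr.mem s⟩ : A) = ⟨s, hsA⟩ := Subtype.ext e1
    show _ = gc1_tau A S * SemidirectProduct.inr (⟨r s, hr.mem s⟩ : A) * (gc1_tau A S)⁻¹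
    rw [e2, gc1_tau_comm A S ⟨s, hsA⟩ hs])
  have hA : ∀ (x : D) (hx : x ∈ A), F x = SemidirectProduct.inr ⟨x, hx⟩ :=
    fun x hx => hF true ⟨x, hx⟩
  have hB : ∀ (y : D) (hy : y ∈ B), F y = gc1_tau A S * SemidirectProduct.inr ⟨r y, hr.mem y⟩ *
      (gc1_tau A S)⁻¹ := fun y hy => hF false ⟨y, hy⟩
  refine ⟨F, ?_, ?_⟩
  · have e : (gc1_K h).comp F = j := by
      apply amal_hom_ext h.amal
      intro i x hx
      cases i with
      | true =>
        show gc1_K h (F x) = j x
        rw [hA x hx]
        unfold gc1_K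
        rw [SemidirectProduct.lift_inr]
        rfl
      | false =>
        show gc1_K h (F x) = j x
        rw [hB x hx, map_mul, map_mul, map_inv]
        have e1 : gc1_K h (gc1_tau A S) = t := by
          unfold gc1_K gc1_tau
          rw [SemidirectProduct.lift_inl, FreeGroup.lift_apply_of, gc1_u_mk]
          simp
        have e2 : gc1_K h (SemidirectProduct.inr ⟨r x, hr.mem x⟩) = j (r x) := by
          unfold gc1_K
          rw [SemidirectProduct.lift_inr]
          rfl
        rw [e1, e2, hr.onB x hx]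
        group
    intro a b hab
    apply h.inj
    rw [← e, MonoidHom.comp_apply, MonoidHom.comp_apply, hab]
  · intro d
    have e : (A.subtype.comp (SemidirectProduct.rightHom.comp F)) = r := by
      apply amal_hom_ext h.amal
      intro i x hx
      cases i with
      | true =>
        show ((SemidirectProduct.rightHom (F x) : A) : D) = r x
        rw [hA x hx, SemidirectProduct.rightHom_inr, hr.onA x hx]
      | false =>
        show ((SemidirectProduct.rightHom (F x) : A) : D) = r x
        rw [hB x hx, map_mul, map_mul, map_inv, SemidirectProduct.rightHom_inr]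
        unfold gc1_tau
        rw [SemidirectProduct.rightHom_inl]
        simp
    exact DFunLike.congr_fun e d

end H14G
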