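import Pool.Agent.Lib.H14E.GC1
import Pool.Agent.Lib.H14E.GB5

set_option autoImplicit false

namespace H14G

variable {D G : Type*} [Group D] [Group G] {p : ℕ} {j : D →* G} {A B S : Subgroup D} {t : G}

/-- **Chunk GC2.** A characteristic subgroup `V` of `p`-power index of the free group gives a
normal subgroup of `p`-power index of `Gam A S`.

PROOF.  Normal: conjugation by `inl u` preserves `V` (normal), conjugation by `inr α` acts on `inl v`
as `inl (permAut α v)` (`SemidirectProduct.inl_aut`), and `V` is characteristic; every element is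
`inl u * inr α` (`inl_left_mul_inr_right`).  Index:
`(V.map inl).index = (V.map inl).relIndex inl.range * inl.range.index`, the first factor is
`V.index` (`inl` injective, `Subgroup.relIndex_map_map_of_injective` or `index_map`), the second
one is `Nat.card A` (`range_inl_eq_ker_rightHom`, `rightHom` onto `A`, `index_ker`), a power of `p`
(`IsPGroup.iff_card`). -/
theorem gam_PQ (hp : p.Prime) (hfin : Finite A) (hpg : IsPGroup p A)
    {V : Subgroup (FreeGroup (A ⧸ S.subgroupOf A))} (hV : V.Characteristic) (hV' : PQ p V) :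
    PQ p (V.map (SemidirectProduct.inl : _ →* Gam A S)) := by
  haveI : Fact p.Prime := ⟨hp⟩
  haveI := hV'.nor
  constructor
  · constructor
    intro n hn g
    obtain ⟨v, hv, rfl⟩ := hn
    rw [← SemidirectProduct.inl_left_mul_inr_right g, mul_inv_rev]
    have e1 : (SemidirectProduct.inr g.right : Gam A S) * SemidirectProduct.inl v *
        (SemidirectProduct.inr g.right : Gam A S)⁻¹ =
        SemidirectProduct.inl (permAut A (A ⧸ S.subgroupOf A) g.right v) := by
      rw [SemidirectProduct.inl_aut, map_inv]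
    have e2 : (SemidirectProduct.inl g.left : Gam A S) * SemidirectProduct.inr g.right *
        SemidirectProduct.inl v * ((SemidirectProduct.inr g.right : Gam A S)⁻¹ *
        (SemidirectProduct.inl g.left)⁻¹) =
        SemidirectProduct.inl (g.left * permAut A (A ⧸ S.subgroupOf A) g.right v * g.left⁻¹) := by
      rw [map_mul, map_mul, map_inv, ← e1]
      group
    rw [e2]
    apply Subgroup.mem_map_of_mem
    apply hV'.nor.conj_mem
    have h3 := Subgroup.characteristic_iff_le_comap.1 hV (permAut A (A ⧸ S.subgroupOf A) g.right) hv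
    exact h3
  · obtain ⟨k, hk⟩ := hV'.ind
    obtain ⟨n, hn⟩ := IsPGroup.iff_card.1 hpg
    have h1 : V.map (SemidirectProduct.inl : _ →* Gam A S) ≤
        (SemidirectProduct.inl : _ →* Gam A S).range := Subgroup.map_le_range _ _
    refine ⟨k + n, ?_⟩
    rw [← Subgroup.relIndex_mul_index h1]
    have h2 : (V.map (SemidirectProduct.inl : _ →* Gam A S)).relIndex
        (SemidirectProduct.inl : _ →* Gam A S).range = p ^ k := by
      rw [← hk, MonoidHom.range_eq_map, ← Subgroup.relIndex_top_right V]
      exact Subgroup.relIndex_map_map_of_injective _ _ SemidirectProduct.inl_injective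
    have h3 : ((SemidirectProduct.inl : _ →* Gam A S).range).index = p ^ n := by
      rw [SemidirectProduct.range_inl_eq_ker_rightHom, Subgroup.index_ker,
        MonoidHom.range_eq_top.2 SemidirectProduct.rightHom_surjective, Subgroup.card_top, hn]
    rw [h2, h3, pow_add]

/-- Residual property of a group of type `P`.

PROOF.  Let `F` be as in `gam_emb`.  `W = {w | w ≠ 1 ∧ ∃ x ∈ Ph, F x = inl w}` is finite (`inl` is
injective, `Ph` finite).  Let `V` be as in `free_char` (`A ⧸ S.subgroupOf A` is finite),
`R = (V.map inl).comap F` (`gam_PQ`, `PQ.comap`).  If `x ∈ R` then `F x = inl v`, `v ∈ V`, so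
`(F x).right = 1`, `r x = 1`.  If moreover `x ∈ Ph`: if `v = 1` then `F x = 1`, `x = 1`,
contradiction to `h1`; otherwise `v ∈ W`, contradiction. -/
theorem resid (hp : p.Prime) (h : DP p j A B S t) {r : D →* D} (hr : Ret j A B t r) (Ph : Set D)
    (hPh : Ph.Finite) (h1 : (1 : D) ∉ Ph) :
    ∃ R : Subgroup D, PQ p R ∧ (∀ x ∈ R, r x = 1) ∧ ∀ x ∈ R, x ∉ Ph := by
  haveI := h.fin
  obtain ⟨F, hFi, hFr⟩ := gam_emb h.toDB hr
  have hW : {w : FreeGroup (A ⧸ S.subgroupOf A) | w ≠ 1 ∧ ∃ x ∈ Ph,
      F x = SemidirectProduct.inl w}.Finite := by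
    have h2 : (F '' Ph).Finite := hPh.image F
    have h3 : ((SemidirectProduct.inl : _ →* Gam A S) ⁻¹' (F '' Ph)).Finite :=
      h2.preimage (SemidirectProduct.inl_injective.injOn)
    apply h3.subset
    rintro w ⟨-, x, hx, hxw⟩
    exact ⟨x, hx, hxw⟩
  haveI : Finite (A ⧸ S.subgroupOf A) := Quotient.finite _
  obtain ⟨V, hV, hV', hVW⟩ := free_char hp _ hW (fun hh => hh.1 rfl)
  refine ⟨(V.map (SemidirectProduct.inl : _ →* Gam A S)).comap F,
    PQ.comap hp F (gam_PQ hp h.fin h.pg hV hV'), ?_, ?_⟩
  · rintro x ⟨v, hv, hvx⟩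
    rw [← hFr x, ← hvx]
    rfl
  · rintro x ⟨v, hv, hvx⟩ hxP
    by_cases hv1 : v = 1
    · have h5 : F x = 1 := by
        rw [← hvx, hv1, map_one]
      have h6 : x = 1 := hFi (by rw [h5, map_one])
      rw [h6] at hxP
      exact h1 hxP
    · exact hVW v ⟨hv1, x, hxP, hvx.symm⟩ hv

end H14G
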