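import Mathlib

/-!
# Module G of H14E: definitions

Group theory of the peripheral subgroups.  Everything here is pure algebra.

* `AltW H S i l` : the list `l` is an alternating word, first letter in `H i \ S`.
* `Amal H S` : the group is the internal amalgam of `H true` and `H false` over `S`.
* `PQ p M` : `M` is normal and its index is a power of `p`.
* `DB j A B S t` : the group `D` (embedded by `j` in `G`) is the amalgam of `A` and `B = t A t⁻¹`
  over `S`, and `t` centralises `S`.
* `DP p j A B S t` : moreover `A` is a finite `p`-group, `S` is normal, `A / S` is cyclic.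
* `DW p S tau` : `D / S = ℤ` with `S` a finite `p`-group on which `D` acts as a `p`-group.
-/

set_option autoImplicit false

namespace H14G

/-- `l` alternates between `H i \ S` and `H (!i) \ S`, and starts in `H i \ S` (or is empty). -/
def AltW {G : Type*} [Group G] (H : Bool → Subgroup G) (S : Subgroup G) : Bool → List G → Prop
  | _, [] => True
  | i, g :: l => g ∈ H i ∧ g ∉ S ∧ AltW H S (!i) l

/-- `D` is the internal amalgam of `H true` and `H false` over `S`. -/
structure Amal {D : Type*} [Group D] (H : Bool → Subgroup D) (S : Subgroup D) : Prop where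
  le : ∀ i, S ≤ H i
  gen : H true ⊔ H false = ⊤
  alt : ∀ i l, l ≠ [] → AltW H S i l → l.prod ∉ S

/-- `M` is normal and its index is a power of `p`. -/
structure PQ {D : Type*} [Group D] (p : ℕ) (M : Subgroup D) : Prop where
  nor : M.Normal
  ind : ∃ k : ℕ, M.index = p ^ k

/-- The two factors as a family indexed by `Bool`. -/
def fam {D : Type*} [Group D] (A B : Subgroup D) : Bool → Subgroup D := fun i => cond i A B

/-- `D` is the amalgam of `A` and `B = t A t⁻¹` over `S`, where `t` is an element of the
overgroup `G` which centralises `S`. -/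
structure DB {D G : Type*} [Group D] [Group G] (j : D →* G) (A B S : Subgroup D) (t : G) :
    Prop where
  inj : Function.Injective j
  amal : Amal (fam A B) S
  con : ∀ x ∈ A, ∃ y ∈ B, j y = t * j x * t⁻¹
  con' : ∀ y ∈ B, ∃ x ∈ A, j y = t * j x * t⁻¹
  tS : ∀ s ∈ S, t * j s * t⁻¹ = j s

/-- Type `P`: `A` is a finite `p`-group, `S` is normal in `D` and `A / S` is cyclic. -/
structure DP {D G : Type*} [Group D] [Group G] (p : ℕ) (j : D →* G) (A B S : Subgroup D) (t : G) :
    Prop extends DB j A B S t where
  nor : S.Normal
  fin : Finite A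
  pg : IsPGroup p A
  cyc : ∃ a ∈ A, ∀ x ∈ A, ∃ n : ℕ, ∃ s ∈ S, x = a ^ n * s

/-- `r` is the retraction of `D` onto `A` (identity on `A`, `t⁻¹ y t` on `B`). -/
structure Ret {D G : Type*} [Group D] [Group G] (j : D →* G) (A B : Subgroup D) (t : G)
    (r : D →* D) : Prop where
  onA : ∀ x ∈ A, r x = x
  onB : ∀ y ∈ B, j (r y) = t⁻¹ * j y * t
  mem : ∀ d, r d ∈ A

/-- Type `W`: `S` is a finite normal `p`-subgroup, `tau : D → ℤ` is onto with kernel `S`, and `D`
acts on `S` as a `p`-group. -/
structure DW {D : Type*} [Group D] (p : ℕ) (S : Subgroup D) (tau : D →* Multiplicative ℤ) :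
    Prop where
  surj : Function.Surjective tau
  ker : tau.ker = S
  fin : Finite S
  pg : IsPGroup p S
  act : ∀ x : D, ∃ k : ℕ, ∀ s ∈ S, x ^ p ^ k * s * (x ^ p ^ k)⁻¹ = s

end H14G
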