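import Pool.Agent.Lib.H14E.GA3
import Pool.Agent.Lib.H14E.GP1

set_option autoImplicit false

namespace H14G

variable {D : Type*} [Group D] {H : Bool → Subgroup D} {S : Subgroup D}

/-- The image of the factor `H i` in `D ⧸ R`. -/
abbrev Ab (H : Bool → Subgroup D) (i : Bool) (R : Subgroup D) [R.Normal] : Subgroup (D ⧸ R) :=
  (H i).map (QuotientGroup.mk' R)

/-- The unrestricted wreath product of `H i / S` by `D / R` acting on the cosets of the image of
`H i`. -/
abbrev Wr (H : Bool → Subgroup D) (S : Subgroup D) [S.Normal] (i : Bool) (R : Subgroup D)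
    [R.Normal] : Type _ :=
  (((D ⧸ R) ⧸ Ab H i R) → (H i ⧸ S.subgroupOf (H i))) ⋊[mulAutArrow] (D ⧸ R)

open Classical in
/-- The function on the cosets: value `u` on the `H i`-orbit of the coset of `w`, value `1`
elsewhere. -/
noncomputable def orbF (H : Bool → Subgroup D) (S : Subgroup D) [S.Normal] (i : Bool)
    (R : Subgroup D) [R.Normal] (w : D ⧸ R) (u : H i ⧸ S.subgroupOf (H i)) :
    ((D ⧸ R) ⧸ Ab H i R) → (H i ⧸ S.subgroupOf (H i)) :=
  fun q => if ∃ α ∈ Ab H i R, q = ((α * w : D ⧸ R) : (D ⧸ R) ⧸ Ab H i R) then u else 1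

theorem ge1_one (H : Bool → Subgroup D) (S : Subgroup D) [S.Normal] (i : Bool)
    (R : Subgroup D) [R.Normal] (w : D ⧸ R) : orbF H S i R w 1 = 1 := by
  funext q
  unfold orbF
  split_ifs <;> rfl

theorem ge1_mul (H : Bool → Subgroup D) (S : Subgroup D) [S.Normal] (i : Bool)
    (R : Subgroup D) [R.Normal] (w : D ⧸ R) (u v : H i ⧸ S.subgroupOf (H i)) :
    orbF H S i R w (u * v) = orbF H S i R w u * orbF H S i R w v := by
  funext q
  rw [Pi.mul_apply]
  unfold orbF
  split_ifs
  · rfl
  · rw [one_mul]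

theorem ge1_arr (H : Bool → Subgroup D) (S : Subgroup D) [S.Normal] (i : Bool)
    (R : Subgroup D) [R.Normal] (g : D ⧸ R) (F : ((D ⧸ R) ⧸ Ab H i R) → (H i ⧸ S.subgroupOf (H i)))
    (q : (D ⧸ R) ⧸ Ab H i R) : (mulAutArrow g F) q = F (g⁻¹ • q) := rfl

theorem ge1_orb (H : Bool → Subgroup D) (S : Subgroup D) [S.Normal] (i : Bool)
    (R : Subgroup D) [R.Normal] (w : D ⧸ R) (u : H i ⧸ S.subgroupOf (H i)) (g : D ⧸ R)
    (hg : g ∈ Ab H i R) : mulAutArrow g (orbF H S i R w u) = orbF H S i R w u := by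
  funext q
  rw [ge1_arr]
  unfold orbF
  have e : (∃ α ∈ Ab H i R, g⁻¹ • q = ((α * w : D ⧸ R) : (D ⧸ R) ⧸ Ab H i R)) ↔
      ∃ α ∈ Ab H i R, q = ((α * w : D ⧸ R) : (D ⧸ R) ⧸ Ab H i R) := by
    constructor
    · rintro ⟨α, hα, h1⟩
      refine ⟨g * α, mul_mem hg hα, ?_⟩
      rw [inv_smul_eq_iff] at h1
      rw [h1, mul_assoc]
      rfl
    · rintro ⟨α, hα, h1⟩
      refine ⟨g⁻¹ * α, mul_mem (inv_mem hg) hα, ?_⟩
      rw [h1, mul_assoc]
      rfl
  by_cases h : ∃ α ∈ Ab H i R, q = ((α * w : D ⧸ R) : (D ⧸ R) ⧸ Ab H i R)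
  · rw [if_pos h, if_pos (e.2 h)]
  · rw [if_neg h, if_neg (fun h1 => h (e.1 h1))]

/-- the map on the factor `H i` -/
noncomputable def ge1_in (H : Bool → Subgroup D) (S : Subgroup D) [S.Normal] (i : Bool)
    (R : Subgroup D) [R.Normal] (w : D ⧸ R) : H i →* Wr H S i R where
  toFun α := ⟨orbF H S i R w (QuotientGroup.mk α), QuotientGroup.mk' R α⟩
  map_one' := by
    apply SemidirectProduct.ext
    · show orbF H S i R w (QuotientGroup.mk 1) = 1
      rw [QuotientGroup.mk_one, ge1_one]
    · show QuotientGroup.mk' R ((1 : H i) : D) = 1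
      rw [OneMemClass.coe_one, map_one]
  map_mul' α β := by
    apply SemidirectProduct.ext
    · show orbF H S i R w (QuotientGroup.mk (α * β)) = orbF H S i R w (QuotientGroup.mk α) *
        mulAutArrow (QuotientGroup.mk' R (α : D)) (orbF H S i R w (QuotientGroup.mk β))
      rw [ge1_orb _ _ _ _ _ _ _ (Subgroup.mem_map_of_mem _ α.2), ← ge1_mul, QuotientGroup.mk_mul]
    · show QuotientGroup.mk' R ((α * β : H i) : D) =
        QuotientGroup.mk' R (α : D) * QuotientGroup.mk' R (β : D)
      rw [← map_mul]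
      rfl

/-- the map on the other factor -/
noncomputable def ge1_out (H : Bool → Subgroup D) (S : Subgroup D) [S.Normal] (i i' : Bool)
    (R : Subgroup D) [R.Normal] : H i' →* Wr H S i R :=
  SemidirectProduct.inr.comp ((QuotientGroup.mk' R).comp (H i').subtype)

theorem ge1_S (h : Amal H S) [S.Normal] (i i' : Bool) (R : Subgroup D) [R.Normal] (w : D ⧸ R)
    (s : D) (hs : s ∈ S) :
    ge1_in H S i R w ⟨s, h.le i hs⟩ = ge1_out H S i i' R ⟨s, h.le i' hs⟩ := by
  apply SemidirectProduct.ext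
  · show orbF H S i R w (QuotientGroup.mk ⟨s, h.le i hs⟩) = 1
    have e : (QuotientGroup.mk (⟨s, h.le i hs⟩ : H i) : H i ⧸ S.subgroupOf (H i)) = 1 := by
      rw [QuotientGroup.eq_one_iff]
      exact hs
    rw [e, ge1_one]
  · rfl

/-- **Chunk GE1.** The homomorphism to the wreath product.

PROOF.  `amal_ext h` with `f i α = ⟨orbF H S i R w (mk α), mk' R α⟩`, `f (!i) β = inr (mk' R β)`.
To define the family `f : ∀ i', H i' →* _` for a fixed `i` do `cases i` (two symmetric cases), or
use `fun i' => if e : i' = i then e ▸ .. else ..`.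
`f i` is multiplicative: `(v_α, α)(v_β, β) = (v_α * (α • v_β), α β)`,
`(α • v) q = v (α⁻¹ • q)` (`mulAutArrow`), and `α⁻¹ • q` is in the orbit of `w` iff `q` is, as
`α ∈ Ab H i R`; so `α • v_β = v_β` and `v_α v_β = v_{αβ}` because `mk` is multiplicative
(`orbF .. (u * u') = orbF .. u * orbF .. u'`, both sides `1` outside of the orbit).
On `s ∈ S`: `mk s = 1`, so `orbF .. = 1` and `f i s = inr (mk' R s) = f (!i) s`. -/
theorem wr_hom (h : Amal H S) [S.Normal] (i : Bool) (R : Subgroup D) [R.Normal] (w : D ⧸ R) :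
    ∃ Φ : D →* Wr H S i R,
      (∀ α : H i, Φ α = ⟨orbF H S i R w (QuotientGroup.mk α), QuotientGroup.mk' R α⟩) ∧
      (∀ β ∈ H (!i), Φ β = SemidirectProduct.inr (QuotientGroup.mk' R β)) ∧
      ∀ d : D, (Φ d).right = QuotientGroup.mk' R d := by
  cases i with
  | true =>
    obtain ⟨F, hF⟩ := amal_ext h
      (fun i' => (Bool.rec (ge1_out H S true false R) (ge1_in H S true R w) i' : H i' →* Wr H S true R))
      (fun s hs => ge1_S h true false R w s hs)
    refine ⟨F, fun α => hF true α, fun β hβ => hF false ⟨β, hβ⟩, fun d => ?_⟩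
    have e : (SemidirectProduct.rightHom.comp F) = QuotientGroup.mk' R := by
      apply amal_hom_ext h
      intro i' x hx
      cases i' with
      | true =>
        show (F x).right = _
        rw [hF true ⟨x, hx⟩]
        rfl
      | false =>
        show (F x).right = _
        rw [hF false ⟨x, hx⟩]
        rfl
    exact DFunLike.congr_fun e d
  | false =>
    obtain ⟨F, hF⟩ := amal_ext h
      (fun i' => (Bool.rec (ge1_in H S false R w) (ge1_out H S false true R) i' : H i' →* Wr H S false R))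
      (fun s hs => (ge1_S h false true R w s hs).symm)
    refine ⟨F, fun α => hF false α, fun β hβ => hF true ⟨β, hβ⟩, fun d => ?_⟩
    have e : (SemidirectProduct.rightHom.comp F) = QuotientGroup.mk' R := by
      apply amal_hom_ext h
      intro i' x hx
      cases i' with
      | true =>
        show (F x).right = _
        rw [hF true ⟨x, hx⟩]
        rfl
      | false =>
        show (F x).right = _
        rw [hF false ⟨x, hx⟩]
        rfl
    exact DFunLike.congr_fun e d

end H14G
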