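import Pool.Agent.Lib.H14E.GE1

set_option autoImplicit false

namespace H14G

variable {D : Type*} [Group D] {H : Bool → Subgroup D} {S : Subgroup D} {p : ℕ}

/-- **Chunk GE2.** The wreath product is a finite `p`-group.

PROOF.  `Nat.card (N ⋊ K) = Nat.card N * Nat.card K` (`SemidirectProduct.card`);
`Nat.card (X → L) = Nat.card L ^ Nat.card X` (`Nat.card_fun`, finite types); `Nat.card L` is a power
of `p` as a quotient of the finite `p`-group `H i` (`IsPGroup.to_quotient`, `IsPGroup.iff_card`);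
`Nat.card (D ⧸ R)` is the index of `R`. -/
theorem wr_card (hp : p.Prime) [S.Normal] (i : Bool) (R : Subgroup D) [R.Normal] (hR : PQ p R)
    (hfin : Finite (H i)) (hpg : IsPGroup p (H i)) : ∃ k : ℕ, Nat.card (Wr H S i R) = p ^ k := by
  haveI : Fact p.Prime := ⟨hp⟩
  obtain ⟨k, hk⟩ := hR.ind
  have hpos : 0 < p ^ k := pow_pos hp.pos k
  haveI : Finite (D ⧸ R) := by
    apply Nat.finite_of_card_ne_zero
    show R.index ≠ 0
    rw [hk]
    exact hpos.ne'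
  haveI : Finite ((D ⧸ R) ⧸ Ab H i R) := Quotient.finite _
  haveI : Finite (H i ⧸ S.subgroupOf (H i)) := Quotient.finite _
  obtain ⟨n, hn⟩ := (IsPGroup.iff_card.1 (hpg.to_quotient (S.subgroupOf (H i))))
  refine ⟨n * Nat.card ((D ⧸ R) ⧸ Ab H i R) + k, ?_⟩
  have h1 : Nat.card (D ⧸ R) = p ^ k := hk
  rw [SemidirectProduct.card, Nat.card_fun, hn, h1, ← pow_mul, ← pow_add]

/-- Non-commutation in the wreath product.

PROOF.  Let `x̄ = mk' R x`, `ā = mk' R a`, `w = x̄`. Suppose `Φ (y * a * y⁻¹ * a⁻¹) = 1`, i.e.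
`Φ y * Φ a = Φ a * Φ y`, where `(Φ y).right = mk' R y = x̄` (`hy`).  Put `v = (Φ y).left`.
Left components at the coset `q = x̄ Ā` (`Ā = Ab H i R`):
left side `v q * (Φ a).left (x̄⁻¹ • q)`, right side `(Φ a).left q * v (ā⁻¹ • q)`.
`x̄⁻¹ • q = Ā` (the trivial coset), which is not in the `Ā`-orbit of `x̄ Ā` because `x̄ ∉ Ā`
(`Ā = α x̄ Ā` implies `x̄ ∈ Ā`), so `(Φ a).left (x̄⁻¹ • q) = 1`.
`q` is in the orbit (`α = 1`): `(Φ a).left q = mk a`.  `ā⁻¹ • q = ā⁻¹ x̄ Ā = x̄ ā⁻¹ Ā = q` as `x̄` and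
`ā` commute (`hx`).  So `v q = mk a * v q`, `mk a = 1`, `a ∈ S`: contradiction. -/
theorem wr_noncomm (h : Amal H S) [S.Normal] (i : Bool) (R : Subgroup D) [R.Normal]
    (a : D) (ha : a ∈ H i) (haS : a ∉ S) (x : D) (hx : x * a * x⁻¹ * a⁻¹ ∈ R)
    (hxA : ∀ α ∈ H i, α⁻¹ * x ∉ R) (Φ : D →* Wr H S i R)
    (h1 : ∀ α : H i, Φ α =
      ⟨orbF H S i R (QuotientGroup.mk' R x) (QuotientGroup.mk α), QuotientGroup.mk' R α⟩)
    (h2 : ∀ d : D, (Φ d).right = QuotientGroup.mk' R d) (y : D) (hy : y⁻¹ * x ∈ R) :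
    Φ (y * a * y⁻¹ * a⁻¹) ≠ 1 := by
  intro h0
  have e1 : Φ y * Φ a = Φ a * Φ y := by
    rw [map_mul, map_mul, map_mul, map_inv, map_inv, mul_inv_eq_one, mul_inv_eq_iff_eq_mul] at h0
    exact h0
  have hyx : QuotientGroup.mk' R y = QuotientGroup.mk' R x :=
    (QuotientGroup.eq (s := R)).2 hy
  have hcomm : QuotientGroup.mk' R x * QuotientGroup.mk' R a =
      QuotientGroup.mk' R a * QuotientGroup.mk' R x := by
    have h3 : QuotientGroup.mk' R (x * a * x⁻¹ * a⁻¹) = 1 := (QuotientGroup.eq_one_iff _).2 hx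
    rw [map_mul, map_mul, map_mul, map_inv, map_inv, mul_inv_eq_one, mul_inv_eq_iff_eq_mul] at h3
    exact h3
  have hxA' : QuotientGroup.mk' R x ∉ Ab H i R := by
    rintro ⟨α, hα, hαx⟩
    exact hxA α hα ((QuotientGroup.eq (s := R)).1 hαx)
  obtain ⟨X, hX⟩ : ∃ X, X = QuotientGroup.mk' R x := ⟨_, rfl⟩
  obtain ⟨q, hq⟩ : ∃ q : (D ⧸ R) ⧸ Ab H i R, q = (X : (D ⧸ R) ⧸ Ab H i R) := ⟨_, rfl⟩
  have ha1 := h1 ⟨a, ha⟩
  have e2 := congrFun (congrArg SemidirectProduct.left e1) q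
  rw [SemidirectProduct.mul_left, SemidirectProduct.mul_left, Pi.mul_apply, Pi.mul_apply,
    ge1_arr, ge1_arr, h2, h2, hyx, ← hX] at e2
  have e3 : X⁻¹ • q = ((1 : D ⧸ R) : (D ⧸ R) ⧸ Ab H i R) := by
    rw [hq, inv_smul_eq_iff]
    show (X : (D ⧸ R) ⧸ Ab H i R) = ((X * 1 : D ⧸ R) : (D ⧸ R) ⧸ Ab H i R)
    rw [mul_one]
  have e4 : (QuotientGroup.mk' R a)⁻¹ • q = q := by
    rw [inv_smul_eq_iff, hq]
    show (X : (D ⧸ R) ⧸ Ab H i R) = ((QuotientGroup.mk' R a * X : D ⧸ R) : (D ⧸ R) ⧸ Ab H i R)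
    rw [QuotientGroup.eq, hX, ← hcomm, inv_mul_cancel_left]
    exact Subgroup.mem_map_of_mem _ ha
  rw [e3, e4] at e2
  have e5 : (Φ a).left = orbF H S i R X (QuotientGroup.mk (⟨a, ha⟩ : H i)) := by
    rw [hX]
    exact congrArg SemidirectProduct.left ha1
  have e6 : orbF H S i R X (QuotientGroup.mk (⟨a, ha⟩ : H i)) ((1 : D ⧸ R) : (D ⧸ R) ⧸ Ab H i R) = 1 := by
    unfold orbF
    rw [if_neg]
    rintro ⟨α, hα, h3⟩
    rw [QuotientGroup.eq, inv_one, one_mul] at h3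
    apply hxA'
    rw [← hX]
    have h4 := mul_mem (inv_mem hα) h3
    rwa [inv_mul_cancel_left] at h4
  have e7 : orbF H S i R X (QuotientGroup.mk (⟨a, ha⟩ : H i)) q =
      QuotientGroup.mk (⟨a, ha⟩ : H i) := by
    unfold orbF
    rw [if_pos]
    exact ⟨1, one_mem _, by rw [one_mul, hq]⟩
  rw [e5, e6, e7, mul_one] at e2
  have e8 : (QuotientGroup.mk (⟨a, ha⟩ : H i) : H i ⧸ S.subgroupOf (H i)) = 1 :=
    mul_eq_right.1 e2.symm
  rw [QuotientGroup.eq_one_iff] at e8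
  exact haS e8

end H14G
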