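import Pool.Agent.Lib.H14E.GE2

set_option autoImplicit false

namespace H14G

variable {D : Type*} [Group D] {H : Bool → Subgroup D} {S : Subgroup D} {p : ℕ}

/-- **Chunk GE3.** Centralizer control for one pair.

PROOF.  Take `Φ` from `wr_hom` with `w = mk' R x`, `M = Φ.ker`.  `PQ p M` by `PQ.ker` and
`wr_card`. `M ≤ R` since `(Φ d).right = mk' R d`.  The last part is `wr_noncomm`. -/
theorem cent_one (hp : p.Prime) (h : Amal H S) (hS : S.Normal) (i : Bool) (hfin : Finite (H i))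
    (hpg : IsPGroup p (H i)) (R : Subgroup D) (hR : PQ p R)
    (a : D) (ha : a ∈ H i) (haS : a ∉ S) (x : D) (hx : x * a * x⁻¹ * a⁻¹ ∈ R)
    (hxA : ∀ α ∈ H i, α⁻¹ * x ∉ R) :
    ∃ M : Subgroup D, PQ p M ∧ M ≤ R ∧ ∀ y : D, y⁻¹ * x ∈ R → y * a * y⁻¹ * a⁻¹ ∉ M := by
  haveI := hS
  haveI := hR.nor
  obtain ⟨Φ, h1, -, h3⟩ := wr_hom h i R (QuotientGroup.mk' R x)
  refine ⟨Φ.ker, PQ.ker hp Φ (wr_card hp i R hR hfin hpg), ?_, ?_⟩
  · intro d hd
    have h4 := h3 d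
    rw [MonoidHom.mem_ker.1 hd] at h4
    have h5 : QuotientGroup.mk' R d = 1 := by
      rw [← h4]
      rfl
    exact (QuotientGroup.eq_one_iff _).1 h5
  · intro y hy hm
    exact wr_noncomm h i R a ha haS x hx hxA Φ h1 h3 y hy (MonoidHom.mem_ker.1 hm)

/-- **Centralizer control.**  There is `M ≤ R` of `p`-power index such that every `y` which
commutes modulo `M` with an element `a` of `H i \ S` is in `H i` modulo `R`.

PROOF.  The set of pairs `(a, c)` with `a ∈ H i \ S` and `c ∈ D ⧸ R` such that a representative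
`x` of `c` satisfies `x * a * x⁻¹ * a⁻¹ ∈ R` and `α⁻¹ * x ∉ R` for all `α ∈ H i` (both conditions
do not depend on the representative, but it is enough to take `x = c.out`) is finite.  `M` is the
intersection of `R` and of the `M (a, c.out)` of `cent_one` over these pairs (`PQ.biInf`, `PQ.inf`).
Let `y * a * y⁻¹ * a⁻¹ ∈ M`, `a ∈ H i \ S`, and suppose `α⁻¹ * y ∉ R` for all `α ∈ H i`.
With `x` = the representative of the class of `y`, `y⁻¹ * x ∈ R`; then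
`x * a * x⁻¹ * a⁻¹ ∈ R` (as `M ≤ R` and `R` is normal, i.e. in the quotient `x̄ = ȳ`), and
`α⁻¹ * x ∉ R`; so the pair is in the list and `cent_one` gives a contradiction. -/
theorem cent_all (hp : p.Prime) (h : Amal H S) (hS : S.Normal) (i : Bool) (hfin : Finite (H i))
    (hpg : IsPGroup p (H i)) (R : Subgroup D) (hR : PQ p R) :
    ∃ M : Subgroup D, PQ p M ∧ M ≤ R ∧
      ∀ a ∈ H i, a ∉ S → ∀ y : D, y * a * y⁻¹ * a⁻¹ ∈ M → ∃ α ∈ H i, α⁻¹ * y ∈ R := by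
  haveI := hS
  haveI := hR.nor
  obtain ⟨k, hk⟩ := hR.ind
  haveI : Finite (D ⧸ R) := by
    apply Nat.finite_of_card_ne_zero
    show R.index ≠ 0
    rw [hk]
    exact (pow_pos hp.pos k).ne'
  have key : ∀ z : H i × (D ⧸ R), ∃ M : Subgroup D, PQ p M ∧ M ≤ R ∧
      (((z.1 : D) ∉ S ∧ z.2.out * (z.1 : D) * z.2.out⁻¹ * (z.1 : D)⁻¹ ∈ R ∧
        ∀ α ∈ H i, α⁻¹ * z.2.out ∉ R) →
        ∀ y : D, y⁻¹ * z.2.out ∈ R → y * (z.1 : D) * y⁻¹ * (z.1 : D)⁻¹ ∉ M) := by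
    intro z
    by_cases hz : ((z.1 : D) ∉ S ∧ z.2.out * (z.1 : D) * z.2.out⁻¹ * (z.1 : D)⁻¹ ∈ R ∧
        ∀ α ∈ H i, α⁻¹ * z.2.out ∉ R)
    · obtain ⟨M, hM, hMR, hM'⟩ := cent_one hp h hS i hfin hpg R hR z.1 z.1.2 hz.1 z.2.out hz.2.1 hz.2.2
      exact ⟨M, hM, hMR, fun _ => hM'⟩
    · exact ⟨R, hR, le_rfl, fun h1 => absurd h1 hz⟩
  choose M hM hMR hM' using key
  refine ⟨R ⊓ ⨅ z ∈ (Set.univ : Set (H i × (D ⧸ R))), M z,
    PQ.inf hp hR (PQ.biInf hp Set.univ Set.finite_univ M (fun z _ => hM z)), inf_le_left, ?_⟩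
  intro a ha haS y hy
  by_contra hcon
  push Not at hcon
  obtain ⟨hyR, hyM⟩ := Subgroup.mem_inf.1 hy
  have hyx : y⁻¹ * (QuotientGroup.mk y : D ⧸ R).out ∈ R := by
    rw [← QuotientGroup.eq]
    exact (QuotientGroup.out_eq' _).symm
  obtain ⟨x, hx⟩ : ∃ x, x = (QuotientGroup.mk y : D ⧸ R).out := ⟨_, rfl⟩
  have hyx' : y⁻¹ * x ∈ R := by rw [hx]; exact hyx
  have hmk : (QuotientGroup.mk' R y) = QuotientGroup.mk' R x := (QuotientGroup.eq (s := R)).2 hyx'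
  have c1 : x * a * x⁻¹ * a⁻¹ ∈ R := by
    rw [← QuotientGroup.eq_one_iff]
    show QuotientGroup.mk' R (x * a * x⁻¹ * a⁻¹) = 1
    have h4 : QuotientGroup.mk' R (y * a * y⁻¹ * a⁻¹) = 1 := (QuotientGroup.eq_one_iff _).2 hyR
    rw [← h4]
    simp only [map_mul, map_inv, hmk]
  have c2 : ∀ α ∈ H i, α⁻¹ * x ∉ R := by
    intro α hα h5
    apply hcon α hα
    have h6 : α⁻¹ * y = (α⁻¹ * x) * (y⁻¹ * x)⁻¹ := by group
    rw [h6]
    exact mul_mem h5 (inv_mem hyx')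
  have h7 := hM' (⟨a, ha⟩, (QuotientGroup.mk y : D ⧸ R)) ⟨haS, by
    show (QuotientGroup.mk y : D ⧸ R).out * a * (QuotientGroup.mk y : D ⧸ R).out⁻¹ * a⁻¹ ∈ R
    rw [← hx]
    exact c1, by
    intro α hα
    show α⁻¹ * (QuotientGroup.mk y : D ⧸ R).out ∉ R
    rw [← hx]
    exact c2 α hα⟩ y hyx
  apply h7
  have h8 := Subgroup.mem_iInf.1 hyM (⟨a, ha⟩, (QuotientGroup.mk y : D ⧸ R))
  exact Subgroup.mem_iInf.1 h8 (Set.mem_univ _)

end H14G
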