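import Pool.Agent.Lib.H14E.GA5

set_option autoImplicit false

namespace H14G

variable {D G : Type*} [Group D] [Group G] {j : D →* G} {A B S : Subgroup D} {t : G}

/-- **Chunk GF1.** Retractions onto both factors with kernel containing the kernel of `r`.

PROOF.  `i = true`: `ρ = r`.  `i = false`: `ρ d` is the element of `B` with
`j (ρ d) = t * j (r d) * t⁻¹` (`h.con` applied to `r d ∈ A`; unique since `j` is injective, and
multiplicative for this reason). For `y ∈ B`: `t * j (r y) * t⁻¹ = j y` by `hr.onB`, so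
`ρ y = y`. -/
theorem ret_i (h : DB j A B S t) {r : D →* D} (hr : Ret j A B t r) (i : Bool) :
    ∃ ρ : D →* D, (∀ x ∈ fam A B i, ρ x = x) ∧ (∀ d, ρ d ∈ fam A B i) ∧
      ∀ d, r d = 1 → ρ d = 1 := by
  cases i with
  | true => exact ⟨r, hr.onA, hr.mem, fun d hd => hd⟩
  | false =>
    have hex : ∀ d : D, ∃ y, y ∈ B ∧ j y = t * j (r d) * t⁻¹ := fun d => by
      obtain ⟨y, hy, e⟩ := h.con (r d) (hr.mem d)
      exact ⟨y, hy, e⟩
    choose f hfB hf using hex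
    refine ⟨MonoidHom.mk' f (fun a b => h.inj ?_), ?_, ?_, ?_⟩
    · rw [map_mul, hf, hf, hf, map_mul, map_mul]
      group
    · intro x hx
      apply h.inj
      show j (f x) = j x
      rw [hf, hr.onB x hx]
      group
    · intro d
      exact hfB d
    · intro d hd
      apply h.inj
      show j (f d) = j 1
      rw [hf, hd]
      simp

/-- The projection to one factor modulo `S`.

PROOF.  `amal_ext h` with `f i = QuotientGroup.mk'`, `f (!i) = 1` (do `cases i`); on `S` both are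
`1`. -/
theorem quo_i {H : Bool → Subgroup D} (h : Amal H S) [S.Normal] (i : Bool) :
    ∃ q : D →* (H i ⧸ S.subgroupOf (H i)), (∀ x : H i, q x = QuotientGroup.mk x) ∧
      ∀ y ∈ H (!i), q y = 1 := by
  cases i with
  | true =>
    obtain ⟨F, hF⟩ := amal_ext h
      (f := fun i' => match i' with
        | true => QuotientGroup.mk' (S.subgroupOf (H true))
        | false => 1) (fun s hs => by
          show (QuotientGroup.mk' (S.subgroupOf (H true))) ⟨s, h.le true hs⟩ = 1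
          rw [← MonoidHom.mem_ker, QuotientGroup.ker_mk']
          exact Subgroup.mem_subgroupOf.2 hs)
    refine ⟨F, fun x => hF true x, fun y hy => ?_⟩
    exact hF false ⟨y, hy⟩
  | false =>
    obtain ⟨F, hF⟩ := amal_ext h
      (f := fun i' => match i' with
        | true => 1
        | false => QuotientGroup.mk' (S.subgroupOf (H false))) (fun s hs => by
          show 1 = (QuotientGroup.mk' (S.subgroupOf (H false))) ⟨s, h.le false hs⟩
          symm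
          rw [← MonoidHom.mem_ker, QuotientGroup.ker_mk']
          exact Subgroup.mem_subgroupOf.2 hs)
    refine ⟨F, fun x => hF false x, fun y hy => ?_⟩
    exact hF true ⟨y, hy⟩

/-- **HT, core.**

PROOF.  (1) `i' = i`: apply `q` to the element `he` of `M`: `q(e)⁻¹ q(x) (mk a) q(x)⁻¹ q(e) =
q(y) q(a') q(y)⁻¹`.  The left side is not `1` since `mk a ≠ 1` (`a ∉ S`). If `i' = !i` then
`q a' = 1`, contradiction.
(2) `u := x⁻¹ * e * y`. With `m := e⁻¹ * (x * a * x⁻¹) * e * (y * a' * y⁻¹)⁻¹ ∈ M` one has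
`u * a' * u⁻¹ * a⁻¹ = (x⁻¹ * e) * m⁻¹ * (x⁻¹ * e)⁻¹ ∈ M` (`group`).
(3) Apply `ρ`: `ρ u * a' * (ρ u)⁻¹ * a⁻¹ = 1` (`ρ a = a`, `ρ a' = a'` by (1)).
(4) `u' := u * (ρ u)⁻¹`: `u' * a * u'⁻¹ * a⁻¹ = u * a' * u⁻¹ * a⁻¹ ∈ M` (as
`(ρ u)⁻¹ * a * ρ u = a'`).  By `cc` there is `α' ∈ H i` with `α'⁻¹ * u' ∈ R`.
(5) `α := α' * ρ u ∈ H i`.  `u * α⁻¹ = u' * α'⁻¹ = α' * (α'⁻¹ * u') * α'⁻¹ ∈ R`, and
`e * (x * α * y⁻¹)⁻¹ = e * y * α⁻¹ * x⁻¹ = x * (u * α⁻¹) * x⁻¹ ∈ R`. -/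
theorem ht_core {H : Bool → Subgroup D} [S.Normal] (i : Bool) (ρ : D →* D)
    (h1 : ∀ x ∈ H i, ρ x = x) (h2 : ∀ d, ρ d ∈ H i)
    (q : D →* (H i ⧸ S.subgroupOf (H i))) (q1 : ∀ x : H i, q x = QuotientGroup.mk x)
    (q2 : ∀ y ∈ H (!i), q y = 1) (M R : Subgroup D) (hM : M.Normal) (hR : R.Normal)
    (m1 : ∀ m ∈ M, ρ m = 1) (m2 : ∀ m ∈ M, q m = 1)
    (cc : ∀ a ∈ H i, a ∉ S → ∀ y : D, y * a * y⁻¹ * a⁻¹ ∈ M → ∃ α ∈ H i, α⁻¹ * y ∈ R)
    (a : D) (ha : a ∈ H i) (haS : a ∉ S) (i' : Bool) (a' : D) (ha' : a' ∈ H i') (x y e : D)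
    (he : e⁻¹ * (x * a * x⁻¹) * e * (y * a' * y⁻¹)⁻¹ ∈ M) :
    ∃ α ∈ H i, e * (x * α * y⁻¹)⁻¹ ∈ R := by
  have hqa : q a ≠ 1 := by
    intro h3
    rw [show q a = QuotientGroup.mk (⟨a, ha⟩ : H i) from q1 ⟨a, ha⟩,
      QuotientGroup.eq_one_iff, Subgroup.mem_subgroupOf] at h3
    exact haS h3
  have hi : i' = i := by
    by_contra hne
    have h3 : i' = !i := by cases i <;> cases i' <;> simp_all
    rw [h3] at ha'
    have h4 := m2 _ he
    simp only [map_mul, map_inv, q2 a' ha', mul_one, mul_inv_cancel, inv_one] at h4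
    apply hqa
    have h5 : (q x)⁻¹ * (q e) * ((q e)⁻¹ * (q x * q a * (q x)⁻¹) * q e) * ((q x)⁻¹ * (q e))⁻¹
        = q a := by group
    rw [h4] at h5
    rw [← h5]
    group
  subst hi
  set u := x⁻¹ * e * y with hu
  have hu1 : u * a' * u⁻¹ * a⁻¹ ∈ M := by
    have h3 : u * a' * u⁻¹ * a⁻¹ = (x⁻¹ * e) * (e⁻¹ * (x * a * x⁻¹) * e * (y * a' * y⁻¹)⁻¹)⁻¹ *
        (x⁻¹ * e)⁻¹ := by
      rw [hu]
      group
    rw [h3]
    exact hM.conj_mem _ (M.inv_mem he) _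
  have hru : ρ u * a' * (ρ u)⁻¹ * a⁻¹ = 1 := by
    have h3 := m1 _ hu1
    simpa only [map_mul, map_inv, h1 a ha, h1 a' ha'] using h3
  have ha'eq : a' = (ρ u)⁻¹ * a * ρ u := by
    have h3 : ρ u * a' * (ρ u)⁻¹ = a := by
      rw [← mul_inv_eq_one]
      exact hru
    rw [← h3]
    group
  obtain ⟨α', hα', hR'⟩ := cc a ha haS (u * (ρ u)⁻¹) (by
    have h3 : u * (ρ u)⁻¹ * a * (u * (ρ u)⁻¹)⁻¹ * a⁻¹ = u * a' * u⁻¹ * a⁻¹ := by
      rw [ha'eq]
      group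
    rw [h3]
    exact hu1)
  refine ⟨α' * ρ u, (H _).mul_mem hα' (h2 u), ?_⟩
  have h3 : e * (x * (α' * ρ u) * y⁻¹)⁻¹ =
      (x * α') * (α'⁻¹ * (u * (ρ u)⁻¹)) * (x * α')⁻¹ := by
    rw [hu]
    generalize ρ (x⁻¹ * e * y) = w
    group
  rw [h3]
  exact hR.conj_mem _ hR' _

end H14G
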