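import Pool.Agent.Lib.H14E.GF1
import Pool.Agent.Lib.H14E.GE3
import Pool.Agent.Lib.H14E.GC2
import Pool.Agent.Lib.H14E.GA7

set_option autoImplicit false

namespace H14G

/-- What module D and the filling need from the kernel `M` (abstract version).

* `ht`: if `s, s', k` are in the finite set `Sg`, `s` of finite order, `s ∉ S`, and
  `e⁻¹ s e = s'`, `e e = k` modulo `M`, then `e` is modulo `M` in the finite set `T`.
* `fus`: two homomorphisms of a finite group to `D` which agree modulo `M` are conjugate in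
  `G`. -/
structure Ker0 {D G : Type*} [Group D] [Group G] (p : ℕ) (j : D →* G) (S : Subgroup D)
    (Sg T Ph : Set D) (M : Subgroup D) : Prop where
  pq : PQ p M
  tf : ∀ m ∈ M, ∀ n : ℕ, 0 < n → m ^ n = 1 → m = 1
  av : ∀ m ∈ M, m ∉ Ph
  ht : ∀ s ∈ Sg, ∀ s' ∈ Sg, ∀ k ∈ Sg, ∀ e : D, IsOfFinOrder s → s ∉ S →
    k⁻¹ * (e * e) ∈ M → s'⁻¹ * (e⁻¹ * s * e) ∈ M → ∃ d ∈ T, d⁻¹ * e ∈ M
  fus : ∀ (F : Type) [Group F] [Finite F] (f₁ f₂ : F →* D),
    (∀ x, (f₁ x)⁻¹ * f₂ x ∈ M) → ∃ g : G, ∀ x, j (f₂ x) = g * j (f₁ x) * g⁻¹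

variable {D G : Type*} [Group D] [Group G] {p : ℕ} {j : D →* G} {A B S : Subgroup D} {t : G}

/-- **Chunk GF2.** Fusion.

PROOF.  Apply `r` to `(f₁ x)⁻¹ * f₂ x ∈ M`: `r (f₁ x) = r (f₂ x)`.
`ret_fus` for the finite subgroup `f₁.range`: `j (r (f₁ x)) = g₁ * j (f₁ x) * g₁⁻¹`; for
`f₂.range`: `j (r (f₂ x)) = g₂ * j (f₂ x) * g₂⁻¹`.  So `g = g₂⁻¹ * g₁`. -/
theorem fus_P (h : DP p j A B S t) {r : D →* D} (hr : Ret j A B t r) (M : Subgroup D)
    (hM : ∀ m ∈ M, r m = 1) (F : Type) [Group F] [Finite F] (f₁ f₂ : F →* D)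
    (hx : ∀ x, (f₁ x)⁻¹ * f₂ x ∈ M) : ∃ g : G, ∀ x, j (f₂ x) = g * j (f₁ x) * g⁻¹ := by
  have hf1 : Finite f₁.range := Finite.of_surjective f₁.rangeRestrict f₁.rangeRestrict_surjective
  have hf2 : Finite f₂.range := Finite.of_surjective f₂.rangeRestrict f₂.rangeRestrict_surjective
  obtain ⟨g₁, hg₁⟩ := ret_fus h hr f₁.range
  obtain ⟨g₂, hg₂⟩ := ret_fus h hr f₂.range
  refine ⟨g₂⁻¹ * g₁, fun x => ?_⟩
  have e1 := hg₁ (f₁ x) ⟨x, rfl⟩
  have e2 := hg₂ (f₂ x) ⟨x, rfl⟩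
  have e3 : r (f₁ x) = r (f₂ x) := by
    have e4 := hM _ (hx x)
    rw [map_mul, map_inv] at e4
    exact inv_mul_eq_one.1 e4
  rw [← e3, e1] at e2
  have e5 : j (f₂ x) = g₂⁻¹ * (g₂ * j (f₂ x) * g₂⁻¹) * g₂ := by group
  rw [e5, ← e2]
  group

/-- Square roots are unique modulo `M` for odd `p`.

PROOF.  The index of `M` is `p ^ k`, odd; in `D ⧸ M` every element `c` satisfies `c ^ p ^ k = 1`
(`PQ.pow_mem`), so `c = (c ^ 2) ^ ((p ^ k + 1) / 2)`. -/
theorem sq_mod (hp : p.Prime) (hp2 : p ≠ 2) {M : Subgroup D} (hM : PQ p M) (e d : D)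
    (h : e ^ 2 * (d ^ 2)⁻¹ ∈ M) : e * d⁻¹ ∈ M := by
  have hN := hM.nor
  obtain ⟨k, hk⟩ := hM.pow_mem hp
  have hodd : Odd (p ^ k) := (hp.odd_of_ne_two hp2).pow
  obtain ⟨l, hl⟩ := hodd
  have key : ∀ a : D, ((a : D ⧸ M) ^ 2) ^ (l + 1) = (a : D ⧸ M) := by
    intro a
    have h1 : (a : D ⧸ M) ^ p ^ k = 1 := by
      rw [← QuotientGroup.mk_pow, QuotientGroup.eq_one_iff]
      exact hk a
    rw [← pow_mul, show 2 * (l + 1) = p ^ k + 1 by omega, pow_succ, h1, one_mul]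
  have h2 : (e : D ⧸ M) ^ 2 = (d : D ⧸ M) ^ 2 := by
    rw [← QuotientGroup.mk_pow, ← QuotientGroup.mk_pow, QuotientGroup.eq_iff_div_mem, div_eq_mul_inv]
    exact h
  have h3 : (e : D ⧸ M) = d := by
    rw [← key e, h2, key d]
  rw [QuotientGroup.eq_iff_div_mem, div_eq_mul_inv] at h3
  exact h3

/-- Both factors of a group of type `P` are finite `p`-groups. PROOF: `B` is isomorphic to `A` by
conjugation with `t` (injectivity of `j`, `con`, `con'`); or: every element of `B` is the image of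
an element of `A` under a surjective homomorphism. -/
theorem fam_fin (h : DP p j A B S t) (i : Bool) :
    Finite (fam A B i) ∧ IsPGroup p (fam A B i) := by
  have hA := h.fin
  cases i with
  | true => exact ⟨h.fin, h.pg⟩
  | false =>
    choose f hfA hf using fun y : B => h.con' y y.2
    let φ : B →* A := MonoidHom.mk' (fun y => ⟨f y, hfA y⟩) (by
      intro a b
      apply Subtype.ext
      apply h.inj
      show j (f (a * b)) = j (f a * f b)
      have e1 := hf (a * b)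
      have e2 := hf a
      have e3 := hf b
      have e4 : j ((a * b : B) : D) = j a * j b := by rw [Subgroup.coe_mul, map_mul]
      rw [e4, e2, e3] at e1
      rw [map_mul]
      have e5 : j (f (a * b)) = t⁻¹ * (t * j (f (a * b)) * t⁻¹) * t := by group
      rw [e5, ← e1]
      group)
    have hφ : Function.Injective φ := by
      intro a b hab
      have e1 : f a = f b := congrArg Subtype.val hab
      apply Subtype.ext
      apply h.inj
      rw [hf a, hf b, e1]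
    exact ⟨Finite.of_injective φ hφ, h.pg.of_injective φ hφ⟩

/-- Elements of finite order have order dividing the order of `A`.  PROOF: `tors_conj`, a
conjugate `x` is in `fam A B i`; `r` is injective on this factor with values in `A` (`ret_inj`), and
`(r x) ^ Nat.card A = 1`. -/
theorem ord_dvd (h : DP p j A B S t) {r : D →* D} (hr : Ret j A B t r) (s : D)
    (hs : IsOfFinOrder s) : s ^ Nat.card A = 1 := by
  have hA := h.fin
  obtain ⟨n, hn, hs'⟩ := isOfFinOrder_iff_pow_eq_one.1 hs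
  obtain ⟨d, i, hd⟩ := tors_conj h.amal s n hn hs'
  have h1 : (d⁻¹ * s * d) ^ Nat.card A = 1 := by
    refine ret_inj h.toDB hr i _ (Subgroup.pow_mem _ hd _) ?_
    rw [map_pow]
    have h2 : (⟨r (d⁻¹ * s * d), hr.mem _⟩ : A) ^ Nat.card A = 1 := pow_card_eq_one'
    have h3 : (((⟨r (d⁻¹ * s * d), hr.mem _⟩ : A) ^ Nat.card A : A) : D) = ((1 : A) : D) := by rw [h2]
    rw [Subgroup.coe_pow] at h3
    exact h3
  have h4 : s = d * (d⁻¹ * s * d) * d⁻¹ := by group
  rw [h4, conj_pow, h1]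
  group

end H14G
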