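import Pool.Agent.Lib.H14E.GF2

set_option autoImplicit false

namespace H14G

variable {D G : Type*} [Group D] [Group G] {p : ℕ} {j : D →* G} {A B S : Subgroup D} {t : G}

/-- **Chunk GF3.** The kernel `M` for a given `R`.

PROOF.  `M_i` as in `cent_all` for `R` and `i = true, false` (`fam_fin`); `q_i` as in `quo_i`;
`M = M_true ⊓ M_false ⊓ q_true.ker ⊓ q_false.ker`. `PQ p M` by `PQ.inf`, `PQ.ker` (the quotients
`fam A B i ⧸ S` are finite `p`-groups).  `M ≤ M_true ≤ R`.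
Let `s = x * a * x⁻¹`, `s' = y * a' * y⁻¹` with `a ∈ fam A B i`, `a ∉ S`, `a' ∈ fam A B i'`.
`s'⁻¹ * (e⁻¹ * s * e) ∈ M` is equivalent to `e⁻¹ * s * e * s'⁻¹ ∈ M` (`M` normal).
`ht_core` with `ρ` from `ret_i` (`ρ m = 1` for `m ∈ M` since `r m = 1`) gives `α` in the factor with
`e * (x * α * y⁻¹)⁻¹ ∈ R`, equivalent to `(x * α * y⁻¹)⁻¹ * e ∈ R` (`R` normal). -/
theorem ker_R (hp : p.Prime) (h : DP p j A B S t) {r : D →* D} (hr : Ret j A B t r)
    (R : Subgroup D) (hR : PQ p R) (hRr : ∀ x ∈ R, r x = 1) :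
    ∃ M : Subgroup D, PQ p M ∧ M ≤ R ∧ ∀ (i i' : Bool) (a a' x y e : D), a ∈ fam A B i → a ∉ S →
      a' ∈ fam A B i' → (y * a' * y⁻¹)⁻¹ * (e⁻¹ * (x * a * x⁻¹) * e) ∈ M →
      ∃ α ∈ fam A B i, (x * α * y⁻¹)⁻¹ * e ∈ R := by
  haveI := h.nor
  choose Mi hMi hMiR hMcc using fun i =>
    cent_all hp h.amal h.nor i (fam_fin h i).1 (fam_fin h i).2 R hR
  choose q hq1 hq2 using fun i => quo_i h.amal i
  have hqk : ∀ i, PQ p (q i).ker := by
    intro i
    refine PQ.ker hp (q i) ?_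
    haveI : Fact p.Prime := ⟨hp⟩
    haveI := (fam_fin h i).1
    exact IsPGroup.iff_card.1 ((fam_fin h i).2.to_quotient _)
  have hMp : PQ p (Mi true ⊓ Mi false ⊓ ((q true).ker ⊓ (q false).ker)) :=
    PQ.inf hp (PQ.inf hp (hMi true) (hMi false)) (PQ.inf hp (hqk true) (hqk false))
  have hle : ∀ i, Mi true ⊓ Mi false ⊓ ((q true).ker ⊓ (q false).ker) ≤ Mi i := by
    intro i
    cases i with
    | true => exact inf_le_left.trans inf_le_left
    | false => exact inf_le_left.trans inf_le_right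
  have hlq : ∀ i, Mi true ⊓ Mi false ⊓ ((q true).ker ⊓ (q false).ker) ≤ (q i).ker := by
    intro i
    cases i with
    | true => exact inf_le_right.trans inf_le_left
    | false => exact inf_le_right.trans inf_le_right
  have hlR := (hle true).trans (hMiR true)
  refine ⟨_, hMp, hlR, ?_⟩
  intro i i' a a' x y e ha haS ha' hm
  obtain ⟨ρ, r1, r2, r3⟩ := ret_i h.toDB hr i
  have he : e⁻¹ * (x * a * x⁻¹) * e * (y * a' * y⁻¹)⁻¹ ∈
      Mi true ⊓ Mi false ⊓ ((q true).ker ⊓ (q false).ker) := hMp.nor.mem_comm hm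
  obtain ⟨α, hα, hα2⟩ := ht_core i ρ r1 r2 (q i) (hq1 i) (hq2 i) _ R hMp.nor hR.nor
    (fun m hm' => r3 m (hRr m (hlR hm'))) (fun m hm' => hlq i hm')
    (fun b hb hbS y hy => hMcc i b hb hbS y (hle i hy)) a ha haS i' a' ha' x y e he
  exact ⟨α, hα, hR.nor.mem_comm hα2⟩

/-- powers in a quotient -/
theorem gf3_pow {M : Subgroup D} (hM : M.Normal) {s s' e : D} (n : ℕ) (hs : s ^ n = 1)
    (h : s'⁻¹ * (e⁻¹ * s * e) ∈ M) : s' ^ n ∈ M := by
  haveI := hM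
  have e1 : (s' : D ⧸ M) = ((e⁻¹ * s * e : D) : D ⧸ M) := QuotientGroup.eq.2 h
  have e2 : (e⁻¹ * s * e) ^ n = 1 := by
    have e3 : (e⁻¹ * s * e) ^ n = e⁻¹ * s ^ n * e := by
      have e4 := conj_pow (a := e⁻¹) (b := s) (i := n)
      rw [inv_inv] at e4
      exact e4
    rw [e3, hs]
    group
  apply (QuotientGroup.eq_one_iff (s' ^ n)).1
  rw [QuotientGroup.mk_pow, e1, ← QuotientGroup.mk_pow, e2, QuotientGroup.mk_one]

/-- squares in a quotient -/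
theorem gf3_sq {R : Subgroup D} (hR : R.Normal) {k d e : D} (h1 : k⁻¹ * (e * e) ∈ R)
    (h2 : d⁻¹ * e ∈ R) : k⁻¹ * (d * d) ∈ R := by
  haveI := hR
  have e1 : (k : D ⧸ R) = ((e * e : D) : D ⧸ R) := QuotientGroup.eq.2 h1
  have e2 : (d : D ⧸ R) = (e : D ⧸ R) := QuotientGroup.eq.2 h2
  apply QuotientGroup.eq.1
  rw [e1, QuotientGroup.mk_mul, QuotientGroup.mk_mul, e2]

/-- **Kernels for type `P`.**

PROOF.  For every `s ∈ Sg` of finite order choose `x_s, i_s` with `x_s⁻¹ * s * x_s ∈ fam A B i_s`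
(`tors_conj`).  `T = {x_s * α * x_{s'}⁻¹ | s, s' ∈ Sg of finite order, α ∈ A ∪ B}`, finite
(`fam_fin`).
Given `Ph`: let `Ph' = Ph ∪ {k⁻¹ * (d * d) | d ∈ T, k ∈ Sg} \ {1} ∪ {s' ^ Nat.card A | s' ∈ Sg} \
{1}` (finite, without `1`), `R` as in `resid` for `Ph'`, `M` as in `ker_R`.
`tf`: `ret_ker_tf` (`M ≤ R ≤ ker r`).  `av`: `M ≤ R`.  `fus`: `fus_P`.
`ht`: `s` of finite order gives `s ^ Nat.card A = 1` (`ord_dvd`), so modulo `M`,
`s' ^ Nat.card A = e⁻¹ * s ^ Nat.card A * e = 1`, i.e. `s' ^ Nat.card A ∈ M ≤ R`, hence `= 1` by the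
choice of `Ph'`; so `s'` has finite order (`Nat.card A > 0`).
`s = x_s * a * x_s⁻¹` with `a = x_s⁻¹ * s * x_s ∈ fam A B i`, `a ∉ S` since `s ∉ S` and `S` is
normal; same for `s'` with `a'`, `y = x_{s'}`.  `ker_R`: there is `α` in the factor with
`d⁻¹ * e ∈ R`, `d = x_s * α * y⁻¹ ∈ T`.  Modulo `R`: `e = d`, `e * e = k`, so
`k⁻¹ * (d * d) ∈ R`, hence it is `1` by the choice of `Ph'`, `k = d * d`.  Then
`k⁻¹ * (e * e) ∈ M` says `e ^ 2 = d ^ 2` modulo `M` and `sq_mod` gives `e = d` modulo `M`. -/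
theorem ker_P (hp : p.Prime) (hp2 : p ≠ 2) (h : DP p j A B S t) {r : D →* D}
    (hr : Ret j A B t r) (Sg : Set D) (hSg : Sg.Finite) :
    ∃ T : Set D, T.Finite ∧ ∀ Ph : Set D, Ph.Finite → (1 : D) ∉ Ph →
      ∃ M : Subgroup D, Ker0 p j S Sg T Ph M ∧ ∀ m ∈ M, r m = 1 := by
  classical
  have hc : ∀ s : D, ∃ (x : D) (i : Bool), IsOfFinOrder s → x⁻¹ * s * x ∈ fam A B i := by
    intro s
    by_cases hs : IsOfFinOrder s
    · obtain ⟨n, hn, hf⟩ := isOfFinOrder_iff_pow_eq_one.1 hs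
      obtain ⟨d, i, hd⟩ := tors_conj h.amal s n hn hf
      exact ⟨d, i, fun _ => hd⟩
    · exact ⟨1, true, fun h' => absurd h' hs⟩
  choose X I hX using hc
  haveI hfA : Finite A := (fam_fin h true).1
  haveI hfB : Finite B := (fam_fin h false).1
  have hcard : 0 < Nat.card A := Nat.card_pos
  have hfAs : (A : Set D).Finite := Set.toFinite _
  have hfBs : (B : Set D).Finite := Set.toFinite _
  set T : Set D := (fun q : D × D × D => X q.1 * q.2.2 * (X q.2.1)⁻¹) ''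
    (Sg ×ˢ (Sg ×ˢ ((A : Set D) ∪ (B : Set D)))) with hT
  have hTf : T.Finite := (hSg.prod (hSg.prod (hfAs.union hfBs))).image _
  refine ⟨T, hTf, ?_⟩
  intro Ph hPh h1
  set U : Set D := ((fun q : D × D => q.1⁻¹ * (q.2 * q.2)) '' (Sg ×ˢ T)) \ {1} with hU
  set W : Set D := ((fun s : D => s ^ Nat.card A) '' Sg) \ {1} with hW
  have hUf : U.Finite := ((hSg.prod hTf).image _).subset Set.diff_subset
  have hWf : W.Finite := (hSg.image _).subset Set.diff_subset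
  have hone : (1 : D) ∉ Ph ∪ U ∪ W := by
    rintro ((h2 | h2) | h2)
    · exact h1 h2
    · exact h2.2 rfl
    · exact h2.2 rfl
  obtain ⟨R, hR, hRr, hRP⟩ := resid hp h hr (Ph ∪ U ∪ W) ((hPh.union hUf).union hWf) hone
  obtain ⟨M, hM, hMR, hMc⟩ := ker_R hp h hr R hR hRr
  have hMr : ∀ m ∈ M, r m = 1 := fun m hm => hRr m (hMR hm)
  refine ⟨M, ⟨hM, ?_, ?_, ?_, ?_⟩, hMr⟩
  · intro m hm n hn hf
    exact ret_ker_tf h.toDB hr m (hMr m hm) n hn hf
  · intro m hm hmP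
    exact hRP m (hMR hm) (Or.inl (Or.inl hmP))
  · intro s hs s' hs' k hk e hfin hsS hkM hsM
    have hsn := ord_dvd h hr s hfin
    have hs'M : s' ^ Nat.card A ∈ M := gf3_pow hM.nor _ hsn hsM
    have hs'n : s' ^ Nat.card A = 1 := by
      by_contra hne
      exact hRP _ (hMR hs'M) (Or.inr ⟨⟨s', hs', rfl⟩, hne⟩)
    have hfin' : IsOfFinOrder s' := isOfFinOrder_iff_pow_eq_one.2 ⟨_, hcard, hs'n⟩
    have ha := hX s hfin
    have ha' := hX s' hfin'
    have e1 : X s * ((X s)⁻¹ * s * X s) * (X s)⁻¹ = s := by group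
    have e2 : X s' * ((X s')⁻¹ * s' * X s') * (X s')⁻¹ = s' := by group
    have haS : (X s)⁻¹ * s * X s ∉ S := by
      intro hcon
      apply hsS
      rw [← e1]
      exact h.nor.conj_mem _ hcon (X s)
    obtain ⟨α, hα, hαR⟩ := hMc (I s) (I s') _ _ (X s) (X s') e ha haS ha'
      (by rw [e1, e2]; exact hsM)
    have hαAB : α ∈ (A : Set D) ∪ (B : Set D) := by
      cases hI : I s with
      | true =>
        rw [hI] at hα
        exact Or.inl hα
      | false =>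
        rw [hI] at hα
        exact Or.inr hα
    have hdT : X s * α * (X s')⁻¹ ∈ T := ⟨(s, s', α), ⟨hs, hs', hαAB⟩, rfl⟩
    refine ⟨X s * α * (X s')⁻¹, hdT, ?_⟩
    set d := X s * α * (X s')⁻¹ with hd
    have hkd : k⁻¹ * (d * d) ∈ R := gf3_sq hR.nor (hMR hkM) hαR
    have hkd1 : k⁻¹ * (d * d) = 1 := by
      by_contra hne
      exact hRP _ hkd (Or.inl (Or.inr ⟨⟨(k, d), ⟨hk, hdT⟩, rfl⟩, hne⟩))
    have hkdd : k = d * d := by
      have e3 : k * (k⁻¹ * (d * d)) = k * 1 := by rw [hkd1]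
      rw [mul_inv_cancel_left, mul_one] at e3
      exact e3.symm
    rw [hkdd] at hkM
    have e4 : e ^ 2 * (d ^ 2)⁻¹ ∈ M := by
      rw [pow_two, pow_two]
      exact hM.nor.mem_comm hkM
    exact hM.nor.mem_comm (sq_mod hp hp2 hM e d e4)
  · intro F _ _ f₁ f₂ hx
    exact fus_P h hr M hMr F f₁ f₂ hx

end H14G
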