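import Pool.Agent.Lib.H14E.GA5

set_option autoImplicit false

namespace H14G

/-- `E → G` is a central extension with kernel `⟨z⟩ = ℤ`, and `Dt` is the full preimage of `D`. -/
structure Sq {D G Dt E : Type*} [Group D] [Group G] [Group Dt] [Group E] (j : D →* G)
    (jt : Dt →* E) (π : Dt →* D) (πE : E →* G) (z : E) : Prop where
  inj : Function.Injective j
  injt : Function.Injective jt
  comm : ∀ d, j (π d) = πE (jt d)
  pull : ∀ (e : E) (d : D), πE e = j d → ∃ x, jt x = e ∧ π x = d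
  surj : Function.Surjective πE
  ker : ∀ e : E, πE e = 1 ↔ e ∈ Subgroup.zpowers z
  cen : z ∈ Subgroup.center E
  inf : ∀ n : ℤ, z ^ n = 1 → n = 0

variable {D G Dt E : Type*} [Group D] [Group G] [Group Dt] [Group E] {j : D →* G}
    {jt : Dt →* E} {π : Dt →* D} {πE : E →* G} {z : E} {A B S : Subgroup D} {t : G}

/-- **Chunk GL1.** `π` is onto. PROOF: `surj` and `pull`. -/
theorem Sq.psurj (sq : Sq j jt π πE z) : Function.Surjective π := by
  intro d
  obtain ⟨e, he⟩ := sq.surj (j d)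
  obtain ⟨x, -, hx⟩ := sq.pull e d he
  exact ⟨x, hx⟩

/-- A commutator with an element some power of which is central modulo ... : if
`πE (u * v * u⁻¹ * v⁻¹) = 1` and `πE (v ^ n) = 1` with `n > 0` then `u` and `v` commute.

PROOF.  `c := u * v * u⁻¹ * v⁻¹ ∈ ⟨z⟩` is central, `u * v * u⁻¹ = c * v`, so
`u * v ^ n * u⁻¹ = c ^ n * v ^ n`. `v ^ n ∈ ⟨z⟩` is central, so `c ^ n = 1`; `c = z ^ k`,
`z ^ (k * n) = 1`, `k * n = 0`, `k = 0`, `c = 1`. -/
theorem Sq.comm_of_tors (sq : Sq j jt π πE z) (u v : E) (h : πE (u * v * u⁻¹ * v⁻¹) = 1) (n : ℕ)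
    (hn : 0 < n) (hv : πE (v ^ n) = 1) : u * v = v * u := by
  obtain ⟨k, hk⟩ := (sq.ker _).1 h
  obtain ⟨l, hl⟩ := (sq.ker _).1 hv
  simp only at hk hl
  have hz : ∀ (w : E) (m : ℤ), Commute (z ^ m) w := by
    intro w m
    have h1 : z ^ m ∈ Subgroup.center E := Subgroup.zpow_mem _ sq.cen m
    exact (Subgroup.mem_center_iff.1 h1 w).symm
  have e1 : u * v * u⁻¹ = z ^ k * v := by
    rw [hk]
    group
  have e2 : (u * v * u⁻¹) ^ n = v ^ n := by
    rw [conj_pow, ← hl, ← (hz u l).eq, mul_assoc, mul_inv_cancel, mul_one]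
  rw [e1, (hz v k).mul_pow] at e2
  have e3 : (z ^ k) ^ n = 1 := by
    have := mul_eq_right.1 e2
    exact this
  rw [← zpow_natCast, ← zpow_mul] at e3
  have e4 := sq.inf _ e3
  have e5 : k = 0 := by
    rcases mul_eq_zero.1 e4 with h1 | h1
    · exact h1
    · omega
  rw [e5, zpow_zero, one_mul] at e1
  exact mul_inv_eq_iff_eq_mul.1 e1

/-- The preimages in a surjective homomorphism form an amalgam.

PROOF.  `le` clear.  `gen`: `(H true).comap π ⊔ (H false).comap π` contains the kernel of `π` and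
its image under `π` is `⊤` (`Subgroup.map_sup`, `Subgroup.map_comap_eq_self_of_surjective`), so it
is `⊤` (`Subgroup.comap_map_eq_self`..., or directly: `x`, `π x = π y` with `y` in the sup, then
`x = (x * y⁻¹) * y`, `x * y⁻¹ ∈ ker π ≤ (H true).comap π`).
`alt`: `AltW` of the preimages for `l` gives `AltW H S i (l.map π)` (induction on `l`), and
`π l.prod = (l.map π).prod`. -/
theorem amal_comap {H : Bool → Subgroup D} (h : Amal H S) (hπ : Function.Surjective π) :
    Amal (fun i => (H i).comap π) (S.comap π) := by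
  refine ⟨fun i => Subgroup.comap_mono (h.le i), ?_, ?_⟩
  · show (H true).comap π ⊔ (H false).comap π = ⊤
    rw [Subgroup.comap_sup_eq _ _ _ hπ, h.gen, Subgroup.comap_top]
  · have key : ∀ (l : List Dt) (i : Bool), AltW (fun i => (H i).comap π) (S.comap π) i l →
        AltW H S i (l.map π) := by
      intro l
      induction l with
      | nil => intro i _; trivial
      | cons g l ih =>
        intro i hw
        exact ⟨hw.1, hw.2.1, ih _ hw.2.2⟩
    intro i l hl hw hS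
    refine h.alt i (l.map π) (by simpa using hl) (key l i hw) ?_
    rw [← map_list_prod]
    exact hS

/-- **The preimage of a group of type `P` is again of type `DB`.**

PROOF.  `amal`: `amal_comap` (`fun i => (fam A B i).comap π = fam (A.comap π) (B.comap π)` by
`funext`, `cases`).  `con`: for `x` with `π x ∈ A` let `y₀ ∈ B` with `j y₀ = t * j (π x) * t⁻¹`;
`πE (tE * jt x * tE⁻¹) = j y₀` (`comm`), so by `pull` there is `y` with
`jt y = tE * jt x * tE⁻¹`, `π y = y₀ ∈ B`.  `con'`: for `y` with `π y ∈ B` take `x₀ ∈ A` with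
`j (π y) = t * j x₀ * t⁻¹` and pull back `tE⁻¹ * jt y * tE`.
`tS`: `v = jt s`, `π s ∈ S`: `πE (tE * v * tE⁻¹ * v⁻¹) = t * j (π s) * t⁻¹ * (j (π s))⁻¹ = 1`, and
`πE (v ^ n) = j ((π s) ^ n) = 1` with `n` the order of `π s`, finite; so `Sq.comm_of_tors`. -/
theorem lift_DB (sq : Sq j jt π πE z) (h : DB j A B S t)
    (hS : ∀ s ∈ S, ∃ n : ℕ, 0 < n ∧ s ^ n = 1) (tE : E) (ht : πE tE = t) :
    DB jt (A.comap π) (B.comap π) (S.comap π) tE := by
  have hfam : (fun i => (fam A B i).comap π) = fam (A.comap π) (B.comap π) := by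
    funext i
    cases i <;> rfl
  refine ⟨sq.injt, ?_, ?_, ?_, ?_⟩
  · rw [← hfam]
    exact amal_comap h.amal sq.psurj
  · intro x hx
    obtain ⟨y₀, hy₀, e⟩ := h.con (π x) hx
    obtain ⟨y, hy, hy'⟩ := sq.pull (tE * jt x * tE⁻¹) y₀ (by
      rw [map_mul, map_mul, map_inv, ht, ← sq.comm, e])
    exact ⟨y, by rw [Subgroup.mem_comap, hy']; exact hy₀, hy⟩
  · intro y hy
    obtain ⟨x₀, hx₀, e⟩ := h.con' (π y) hy
    obtain ⟨x, hx, hx'⟩ := sq.pull (tE⁻¹ * jt y * tE) x₀ (by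
      rw [map_mul, map_mul, map_inv, ht, ← sq.comm, e]
      group)
    refine ⟨x, by rw [Subgroup.mem_comap, hx']; exact hx₀, ?_⟩
    rw [hx]
    group
  · intro s hs
    obtain ⟨n, hn, e⟩ := hS (π s) hs
    have h1 := sq.comm_of_tors tE (jt s) (by
      rw [map_mul, map_mul, map_mul, map_inv, map_inv, ht, ← sq.comm, h.tS _ hs, mul_inv_cancel])
      n hn (by rw [map_pow, ← sq.comm, ← map_pow, e, map_one])
    rw [h1, mul_assoc, mul_inv_cancel, mul_one]

/-- The retractions are compatible.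

PROOF.  `π ∘ rt` and `r ∘ π` are homomorphisms `Dt → D` which agree on `A.comap π`
(`π (rt x) = π x = r (π x)`) and on `B.comap π`: for `π y ∈ B`,
`j (π (rt y)) = πE (jt (rt y)) = πE (tE⁻¹ * jt y * tE) = t⁻¹ * j (π y) * t = j (r (π y))`.
These two subgroups generate (`lift_DB .. |>.amal.gen`); use `amal_hom_ext`. -/
theorem ret_comm (sq : Sq j jt π πE z) (h : DB j A B S t) {tE : E} (ht : πE tE = t)
    (h' : DB jt (A.comap π) (B.comap π) (S.comap π) tE) {r : D →* D} (hr : Ret j A B t r)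
    {rt : Dt →* Dt} (hrt : Ret jt (A.comap π) (B.comap π) tE rt) (x : Dt) :
    π (rt x) = r (π x) := by
  have h1 := amal_hom_ext h'.amal (π.comp rt) (r.comp π) (by
    intro i y hy
    cases i with
    | true =>
      have hy' : y ∈ A.comap π := hy
      show π (rt y) = r (π y)
      rw [hrt.onA y hy', hr.onA _ hy']
    | false =>
      have hy' : y ∈ B.comap π := hy
      show π (rt y) = r (π y)
      apply sq.inj
      rw [sq.comm, hrt.onB y hy', hr.onB _ hy', map_mul, map_mul, map_inv, ht, sq.comm])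
  exact DFunLike.congr_fun h1 x

/-- What is needed of the lift `Mt` of `M`. -/
structure LiftM {D G Dt E : Type*} [Group D] [Group G] [Group Dt] [Group E] (j : D →* G)
    (jt : Dt →* E) (πE : E →* G) (z : E) (M : Subgroup D) (Mt : Subgroup E) : Prop where
  nor : ∀ (d : Dt), ∀ m ∈ Mt, jt d * m * (jt d)⁻¹ ∈ Mt
  tri : ∀ m ∈ Mt, m ∈ Subgroup.zpowers z → m = 1
  map : Mt.map πE = M.map j

/-- **The lift for type `P`.**

PROOF.  `h' := lift_DB`, `rt` from `ret_ex h'`, `Mt := (rt.ker ⊓ M.comap π).map jt`.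
`nor`: `rt.ker ⊓ M.comap π` is normal in `Dt`.  `tri`: let `m = jt x`, `rt x = 1`, and
`m ∈ ⟨z⟩`: then `j (π x) = πE m = 1`, `π x = 1 ∈ A`, so `x ∈ A.comap π` and `x = rt x = 1`.
`map`: `⊆`: `πE (jt x) = j (π x)`, `π x ∈ M`.  `⊇`: `y ∈ M`; take `x` with `π x = y`
(`Sq.psurj`); `π (rt x) = r y = 1` (`ret_comm`, `hM`), so `x' := x * (rt x)⁻¹` has `π x' = y` and
`rt x' = rt x * (rt (rt x))⁻¹ = 1` (`ret_idem`), so `x' ∈ rt.ker ⊓ M.comap π`. -/
theorem lift_P (sq : Sq j jt π πE z) (h : DB j A B S t)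
    (hS : ∀ s ∈ S, ∃ n : ℕ, 0 < n ∧ s ^ n = 1) {r : D →* D} (hr : Ret j A B t r)
    (M : Subgroup D) (hMn : M.Normal) (hM : ∀ m ∈ M, r m = 1) :
    ∃ Mt : Subgroup E, LiftM j jt πE z M Mt := by
  obtain ⟨tE, ht⟩ := sq.surj t
  have h' := lift_DB sq h hS tE ht
  obtain ⟨rt, hrt⟩ := ret_ex h'
  refine ⟨(rt.ker ⊓ M.comap π).map jt, ?_, ?_, ?_⟩
  · rintro d m ⟨x, ⟨hx1, hx2⟩, rfl⟩
    refine ⟨d * x * d⁻¹, ⟨?_, ?_⟩, by rw [map_mul, map_mul, map_inv]⟩
    · exact rt.normal_ker.conj_mem x hx1 d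
    · show π (d * x * d⁻¹) ∈ M
      rw [map_mul, map_mul, map_inv]
      exact hMn.conj_mem _ hx2 _
  · rintro m ⟨x, ⟨hx1, hx2⟩, rfl⟩ hm
    have e1 : j (π x) = 1 := by
      rw [sq.comm]
      exact (sq.ker _).2 hm
    have e2 : π x = 1 := sq.inj (by rw [e1, map_one])
    have e3 : rt x = x := hrt.onA x (by
      rw [Subgroup.mem_comap, e2]
      exact A.one_mem)
    have e4 : rt x = 1 := hx1
    rw [← e3, e4, map_one]
  · ext w
    constructor
    · rintro ⟨_, ⟨x, ⟨hx1, hx2⟩, rfl⟩, rfl⟩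
      exact ⟨π x, hx2, sq.comm x⟩
    · rintro ⟨y, hy, rfl⟩
      obtain ⟨x, rfl⟩ := sq.psurj y
      have e1 : π (rt x) = 1 := by
        rw [ret_comm sq h ht h' hr hrt, hM _ hy]
      have e2 : π (x * (rt x)⁻¹) = π x := by
        rw [map_mul, map_inv, e1, inv_one, mul_one]
      refine ⟨jt (x * (rt x)⁻¹), ⟨x * (rt x)⁻¹, ⟨?_, ?_⟩, rfl⟩, ?_⟩
      · show rt (x * (rt x)⁻¹) = 1
        rw [map_mul, map_inv, ret_idem h' hrt, mul_inv_cancel]
      · show π (x * (rt x)⁻¹) ∈ M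
        rw [e2]
        exact hy
      · rw [← sq.comm, e2]

end H14G
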