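import Pool.Agent.Lib.H14E.Core
import Pool.Agent.Lib.H14E.GF3
import Pool.Agent.Lib.H14E.GL1

set_option autoImplicit false

namespace H14G

open Pool.Agent.Lib.H14E

variable {p : ℕ} {G : Type} [Group G] {D A B S : Subgroup G} {a b t : G}

theorem gq1_SA {G : Type} [Group G] {D A B S : Subgroup G} {a b t : G}
    (h : TypeP D A B S a b t) : S ≤ A := by
  rw [h.hA]; exact le_sup_right

theorem gq1_SB {G : Type} [Group G] {D A B S : Subgroup G} {a b t : G}
    (h : TypeP D A B S a b t) : S ≤ B := by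
  rw [h.hB]; exact le_sup_right

theorem gq1_AD {G : Type} [Group G] {D A B S : Subgroup G} {a b t : G}
    (h : TypeP D A B S a b t) : A ≤ D := by
  rw [h.hD]; exact le_sup_left

theorem gq1_BD {G : Type} [Group G] {D A B S : Subgroup G} {a b t : G}
    (h : TypeP D A B S a b t) : B ≤ D := by
  rw [h.hD]; exact le_sup_right

/-- **Chunk GQ1.** `S` is normal in `D` (type `P` of `Core.lean`).

PROOF.  `N := {g | ∀ s ∈ S, g * s * g⁻¹ ∈ S}`: since `S` is finite, `g ∈ N` implies
`g * S * g⁻¹ = S`, so `N` is a subgroup (or use `Subgroup.normalizer`). `a ∈ N` (`h.nrm`), `S ≤ N`,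
and `b = t * a * t⁻¹` with `t` centralising `S`: `b * s * b⁻¹ = t * (a * s * a⁻¹) * t⁻¹ =
a * s * a⁻¹`, so `b ∈ N`.  `D` is generated by `a, b, S` (`hA`, `hB`, `hD`). -/
theorem gq_nrm (h : TypeP D A B S a b t) : ∀ g ∈ D, ∀ s ∈ S, g * s * g⁻¹ ∈ S := by
  haveI : Finite (S : Set G) := h.fin
  have ha : a ∈ Subgroup.normalizer (S : Set G) :=
    Subgroup.mem_normalizer_fintype (fun n hn => h.nrm n hn)
  have hSN : S ≤ Subgroup.normalizer (S : Set G) := Subgroup.le_normalizer
  have hb : b ∈ Subgroup.normalizer (S : Set G) := by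
    refine Subgroup.mem_normalizer_fintype (fun s hs => ?_)
    have hs' : s ∈ S := hs
    have h1 : t⁻¹ * s * t = s := by
      rw [mul_assoc, ← h.ht s hs']
      group
    have h2 := h.nrm s hs'
    have h3 : b * s * b⁻¹ = t * (a * (t⁻¹ * s * t) * a⁻¹) * t⁻¹ := by
      rw [h.hb]; group
    rw [h3, h1, h.ht _ h2]
    have h4 : a * s * a⁻¹ * t * t⁻¹ = a * s * a⁻¹ := by group
    rw [h4]
    exact h2
  have hA : A ≤ Subgroup.normalizer (S : Set G) := by
    rw [h.hA]
    exact sup_le (by rw [Subgroup.zpowers_le]; exact ha) hSN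
  have hB : B ≤ Subgroup.normalizer (S : Set G) := by
    rw [h.hB]
    exact sup_le (by rw [Subgroup.zpowers_le]; exact hb) hSN
  have hD : D ≤ Subgroup.normalizer (S : Set G) := by
    rw [h.hD]; exact sup_le hA hB
  intro g hg s hs
  have := Subgroup.mem_normalizer_iff.1 (hD hg) s
  exact this.1 hs

/-- `x ∈ B` iff `t⁻¹ * x * t ∈ A`.  PROOF: `B = ⟨t a t⁻¹⟩ ⊔ S` and `S = t S t⁻¹`
(`Subgroup.map_sup` for the conjugation by `t`). -/
theorem gq_B (h : TypeP D A B S a b t) (x : G) : x ∈ B ↔ t⁻¹ * x * t ∈ A := by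
  have hS : S.map (MulAut.conj t).toMonoidHom = S := by
    ext s
    rw [Subgroup.mem_map]
    constructor
    · rintro ⟨s', hs', rfl⟩
      show t * s' * t⁻¹ ∈ S
      rw [h.ht s' hs']
      simpa using hs'
    · intro hs
      refine ⟨s, hs, ?_⟩
      show t * s * t⁻¹ = s
      rw [h.ht s hs]
      group
  have hZ : (Subgroup.zpowers a).map (MulAut.conj t).toMonoidHom = Subgroup.zpowers b := by
    rw [MonoidHom.map_zpowers, h.hb]
    rfl
  have hB : B = A.map (MulAut.conj t).toMonoidHom := by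
    rw [h.hB, h.hA, Subgroup.map_sup, hS, hZ]
  rw [hB, Subgroup.mem_map]
  constructor
  · rintro ⟨y, hy, rfl⟩
    have : t⁻¹ * (MulAut.conj t).toMonoidHom y * t = y := by
      show t⁻¹ * (t * y * t⁻¹) * t = y
      group
    rw [this]; exact hy
  · intro hx
    refine ⟨_, hx, ?_⟩
    show t * (t⁻¹ * x * t) * t⁻¹ = x
    group

open scoped Pointwise in
theorem gq1_form {G : Type} [Group G] {D A B S : Subgroup G} {a b t : G}
    (h : TypeP D A B S a b t) :
    ∀ x ∈ A, ∃ n : ℕ, n < orderOf a ∧ ∃ s ∈ S, x = a ^ n * s := by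
  intro x hx
  have haN : ∀ g ∈ Subgroup.zpowers a, ∀ s ∈ S, g * s * g⁻¹ ∈ S := by
    intro g hg s hs
    refine gq_nrm h g (gq1_AD h ?_) s hs
    rw [h.hA]
    exact Subgroup.mem_sup_left hg
  have hx' : x ∈ Subgroup.zpowers a ⊔ S := by rw [← h.hA]; exact hx
  have hpos : 0 < orderOf a := h.afin.orderOf_pos
  have key : ∃ m : ℤ, ∃ s ∈ S, x = a ^ m * s := by
    have hN : Subgroup.zpowers a ≤ Subgroup.normalizer (S : Set G) := by
      haveI : Finite (S : Set G) := h.fin
      rw [Subgroup.zpowers_le]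
      exact Subgroup.mem_normalizer_fintype (fun n hn => h.nrm n hn)
    have h1 : x ∈ ((Subgroup.zpowers a : Set G) * (S : Set G)) := by
      rw [← Subgroup.coe_mul_of_left_le_normalizer_right _ _ hN]
      exact hx'
    obtain ⟨u, ⟨m, hm⟩, s, hs, rfl⟩ := h1
    refine ⟨m, s, hs, ?_⟩
    simp only at hm ⊢
    rw [hm]
  obtain ⟨m, s, hs, rfl⟩ := key
  refine ⟨(m % (orderOf a : ℤ)).toNat, ?_, s, hs, ?_⟩
  · have h1 := Int.emod_nonneg m (b := (orderOf a : ℤ)) (by omega)
    have h2 := Int.emod_lt_of_pos m (b := (orderOf a : ℤ)) (by omega)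
    omega
  · have h1 := Int.emod_nonneg m (b := (orderOf a : ℤ)) (by omega)
    rw [← zpow_natCast a, Int.toNat_of_nonneg h1, zpow_mod_orderOf]

/-- `A` consists of the elements `a ^ n * s`, and is finite.  PROOF: `S` is normalised by `a`, so
`⟨a⟩ ⊔ S = ⟨a⟩ S` (`Subgroup.mem_sup` and normality of `S.subgroupOf A`, or directly: the set
`{a ^ n * s}` is a subgroup); `n` can be taken to be a natural number since `a` has finite order;
finite as the image of the finite set `⟨a⟩ × S`. -/
theorem gq_A (h : TypeP D A B S a b t) :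
    Finite A ∧ ∀ x ∈ A, ∃ n : ℕ, ∃ s ∈ S, x = a ^ n * s := by
  constructor
  · have hfin : (A : Set G).Finite := by
      have h1 : (((fun q : ℕ × G => a ^ q.1 * q.2) '' ((Set.Iio (orderOf a)) ×ˢ (S : Set G)))).Finite :=
        ((Set.finite_Iio _).prod h.fin).image _
      refine h1.subset ?_
      intro x hx
      obtain ⟨n, hn, s, hs, e⟩ := gq1_form h x hx
      exact ⟨(n, s), ⟨hn, hs⟩, e.symm⟩
    exact hfin.to_subtype
  · intro x hx
    obtain ⟨n, -, s, hs, e⟩ := gq1_form h x hx
    exact ⟨n, s, hs, e⟩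

/-- An alternating word as a list of pairs. -/
theorem gq1_pairs {G : Type} [Group G] {D A B S : Subgroup G} :
    ∀ (l : List D) (i : Bool),
      AltW (fam (A.subgroupOf D) (B.subgroupOf D)) (S.subgroupOf D) i l →
      ∃ L : List (Bool × G), (L.map Prod.snd) = l.map (fun x : D => (x : G)) ∧
        (∀ q ∈ L, q.2 ∈ (if q.1 then A else B) ∧ q.2 ∉ S) ∧
        L.IsChain (fun q q' => q.1 ≠ q'.1) ∧ (∀ q ∈ L.head?, q.1 = i)
  | [], i, _ => ⟨[], by simp⟩
  | g :: l, i, hw => by
    obtain ⟨h1, h2, h3⟩ := hw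
    obtain ⟨L, hL1, hL2, hL3, hL4⟩ := gq1_pairs l (!i) h3
    refine ⟨(i, (g : G)) :: L, ?_, ?_, ?_, ?_⟩
    · simp [hL1]
    · intro q hq
      rcases List.mem_cons.1 hq with rfl | hq
      · refine ⟨?_, fun h => h2 h⟩
        cases i with
        | true => exact h1
        | false => exact h1
      · exact hL2 q hq
    · rw [List.isChain_cons]
      refine ⟨?_, hL3⟩
      intro y hy
      have := hL4 y hy
      simp only [this]
      cases i <;> simp
    · simp

/-- Change the last letter. -/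
theorem gq1_last {D : Type*} [Group D] {H : Bool → Subgroup D} {S : Subgroup D}
    (hle : ∀ i, S ≤ H i) : ∀ (l : List D) (i : Bool), l ≠ [] → AltW H S i l → ∀ s ∈ S,
      ∃ l' : List D, l' ≠ [] ∧ AltW H S i l' ∧ l'.prod = l.prod * s
  | [], i, hl, _, _, _ => absurd rfl hl
  | [g], i, _, hw, s, hs => by
    refine ⟨[g * s], by simp, ⟨(H i).mul_mem hw.1 (hle i hs), ?_, trivial⟩, by simp⟩
    intro h
    exact hw.2.1 ((S.mul_mem_cancel_right hs).1 h)
  | g :: g' :: l, i, _, hw, s, hs => by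
    obtain ⟨l', h1, h2, h3⟩ := gq1_last hle (g' :: l) (!i) (by simp) hw.2.2 s hs
    refine ⟨g :: l', by simp, ⟨hw.1, hw.2.1, h2⟩, ?_⟩
    rw [List.prod_cons, h3, List.prod_cons (a := g), mul_assoc]

/-- The amalgam condition.

PROOF.  `le`: `S ≤ A`, `S ≤ B`. `gen`: `D = A ⊔ B`, `A.subgroupOf D ⊔ B.subgroupOf D = ⊤`
(`Subgroup.subgroupOf_sup`).  `alt`: suppose `l ≠ []` is an alternating word with
`l.prod ∈ S.subgroupOf D`.  If `l = [g]`: `g ∉ S`, contradiction. Otherwise
replace the last letter `g` by `g * l.prod⁻¹` (again in the same factor, not in `S`): the new word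
`l'` is alternating with product `1`.  Map it to a list of pairs `(i, (g : G))`, with alternating
`i`, starting with the first side: all letters are in `A` resp. `B`, not in `S`; the list is a chain
for `q.1 ≠ q'.1`; `h.red` says that the product is not `1`: contradiction. -/
theorem gq_amal (h : TypeP D A B S a b t) :
    Amal (fam (A.subgroupOf D) (B.subgroupOf D)) (S.subgroupOf D) := by
  have hle : ∀ i, S.subgroupOf D ≤ fam (A.subgroupOf D) (B.subgroupOf D) i := by
    intro i
    cases i with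
    | true => exact fun x hx => gq1_SA h hx
    | false => exact fun x hx => gq1_SB h hx
  refine ⟨hle, ?_, ?_⟩
  · show A.subgroupOf D ⊔ B.subgroupOf D = ⊤
    rw [← Subgroup.subgroupOf_sup (gq1_AD h) (gq1_BD h), ← h.hD, Subgroup.subgroupOf_self]
  · intro i l hl hw hS
    obtain ⟨l', h1, h2, h3⟩ := gq1_last hle l i hl hw _ ((S.subgroupOf D).inv_mem hS)
    rw [mul_inv_cancel] at h3
    obtain ⟨L, hL1, hL2, hL3, -⟩ := gq1_pairs l' i h2
    refine h.red L ?_ hL2 hL3 ?_
    · rintro rfl
      apply h1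
      have h5 : l'.map (fun x : D => (x : G)) = [] := hL1.symm
      exact List.map_eq_nil_iff.1 h5
    · rw [hL1]
      have := congrArg (fun x : D => (x : G)) h3
      simp only [OneMemClass.coe_one] at this
      rw [← this, Subgroup.val_list_prod]

/-- `TypeP` of `Core.lean` gives `DP` for the group `↥D`.

PROOF.  `inj`: `Subtype.val_injective`.  `amal`: `gq_amal`. `con`, `con'`: `gq_B` (elements of `B`
are in `D`).  `tS`: `h.ht`. `nor`: `gq_nrm`.  `fin`: `gq_A` (`A.subgroupOf D ≃ A`).  `pg`: every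
element of the finite group `A` has finite order, so `p`-power order by `hT`.  `cyc`: `gq_A`. -/
theorem gq_DP (hT : PTors p G) (h : TypeP D A B S a b t) :
    DP p D.subtype (A.subgroupOf D) (B.subgroupOf D) (S.subgroupOf D) t := by
  obtain ⟨hfin, hcyc⟩ := gq_A h
  refine
    { inj := Subtype.val_injective
      amal := gq_amal h
      con := ?_
      con' := ?_
      tS := ?_
      nor := ?_
      fin := ?_
      pg := ?_
      cyc := ?_ }
  · intro x hx
    have hB : t * (x : G) * t⁻¹ ∈ B := by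
      rw [gq_B h]
      have : t⁻¹ * (t * (x : G) * t⁻¹) * t = x := by group
      rw [this]; exact hx
    exact ⟨⟨_, gq1_BD h hB⟩, hB, rfl⟩
  · intro y hy
    have hA : t⁻¹ * (y : G) * t ∈ A := (gq_B h _).1 hy
    refine ⟨⟨_, gq1_AD h hA⟩, hA, ?_⟩
    show (y : G) = t * (t⁻¹ * (y : G) * t) * t⁻¹
    group
  · intro s hs
    show t * (s : G) * t⁻¹ = s
    rw [h.ht (s : G) hs]
    group
  · refine ⟨fun n hn g => ?_⟩
    exact gq_nrm h g g.2 n hn
  · exact Finite.of_injective (fun x : (A.subgroupOf D) => (⟨((x : D) : G), x.2⟩ : A))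
      (fun x y hxy => by
        have := congrArg Subtype.val hxy
        exact Subtype.ext (Subtype.ext this))
  · rw [IsPGroup]
    intro x
    have hx : IsOfFinOrder (⟨((x : D) : G), x.2⟩ : A) := isOfFinOrder_of_finite _
    have hx' : IsOfFinOrder ((x : D) : G) := by
      have := MonoidHom.isOfFinOrder A.subtype hx
      exact this
    obtain ⟨k, hk⟩ := hT _ hx'
    refine ⟨k, ?_⟩
    apply Subtype.ext
    apply Subtype.ext
    simpa using hk
  · have haA : a ∈ A := by
      rw [h.hA]; exact Subgroup.mem_sup_left (Subgroup.mem_zpowers a)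
    refine ⟨⟨a, gq1_AD h haA⟩, haA, ?_⟩
    intro x hx
    obtain ⟨n, s, hs, e⟩ := hcyc _ hx
    refine ⟨n, ⟨s, gq1_AD h (gq1_SA h hs)⟩, hs, ?_⟩
    apply Subtype.ext
    simpa using e

/-- The square for `D` and its preimage in a central extension.

PROOF.  `j = D.subtype`, `Dt = D.comap π`, `jt` its inclusion, `π' = restriction`.  `pull`: `e` with
`π e = d`: `⟨e, _⟩`. `ker`: `hE.ker`. -/
theorem gq_sq {E : Type} [Group E] (π : E →* G) (z : E) (hE : CExt π z) (D : Subgroup G) :
    Sq D.subtype (D.comap π).subtype (π.subgroupComap D) π z := by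
  refine ⟨Subtype.val_injective, Subtype.val_injective, fun d => rfl, ?_, hE.surj, ?_, ?_, hE.inf⟩
  · intro e d hed
    refine ⟨⟨e, ?_⟩, rfl, ?_⟩
    · show π e ∈ D
      rw [hed]; exact d.2
    · exact Subtype.ext hed
  · intro e
    rw [← hE.ker]
    exact Iff.rfl
  · rw [Subgroup.mem_center_iff]
    intro g
    exact (hE.cent g).symm

end H14G
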