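import Pool.Agent.Lib.H14E.GQ1

set_option autoImplicit false

namespace H14G

open Pool.Agent.Lib.H14E

variable {p : ℕ} {G : Type} [Group G] {D S : Subgroup G}

/-- **Chunk GQ2.** From the abstract kernel `M ≤ ↥D` and its lift to `FillData`.

PROOF.  `Mt.map π = M.map D.subtype =: M'` (`hL.map`).  `le`: `π m ∈ M' ≤ D`.
`nrm`: `x` with `π x ∈ D` is the image of `⟨x, _⟩ : D.comap π`; `hL.nor`.
`zfree`: `z ^ n ∈ Mt` gives `z ^ n = 1` by `hL.tri`, `n = 0` by `hE.inf`.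
`pidx`: `(M.map D.subtype).relIndex D = M.index` (`Subgroup.relIndex` is the index of
`subgroupOf`; `(M.map D.subtype).subgroupOf D = M`), `hM.pq.ind`.
`avoid`: `x ∈ M'`, `x = (d : G)`, `d ∈ M`; if `x ∈ Φ` and `x ≠ 1` then `d ∈ Ph`, against
`hM.av`.
`fus`: `f₁, f₂ : F →* G` with values in `D`: take `f_i' : F →* D` (`MonoidHom.codRestrict`);
`(f₁ x)⁻¹ * f₂ x ∈ M'` means `(f₁' x)⁻¹ * f₂' x ∈ M`; `hM.fus`.
`ht`: the same translation of `hM.ht`, `F₂` contains the image of `T`. -/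
theorem gq_fill {E : Type} [Group E] (π : E →* G) (z : E) (hE : CExt π z)
    (F₁ F₂ Φ : Finset G) (T : Set D) (hT2 : ∀ d ∈ T, (d : G) ∈ F₂) (M : Subgroup D)
    (hM : Ker0 p D.subtype (S.subgroupOf D) {d : D | (d : G) ∈ F₁} T
      {d : D | (d : G) ∈ Φ ∧ d ≠ 1} M) (Mt : Subgroup E)
    (hL : LiftM D.subtype (D.comap π).subtype π z M Mt) :
    FillData p π z D S F₁ F₂ Φ Mt := by
  have hmap := hL.map
  have hmem' : ∀ d : D, (d : G) ∈ Mt.map π ↔ d ∈ M := by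
    intro d
    rw [hmap]
    constructor
    · rintro ⟨d', h1, h2⟩
      have h3 : d' = d := Subtype.ext h2
      rwa [← h3]
    · intro h
      exact ⟨d, h, rfl⟩
  have hex : ∀ x ∈ Mt.map π, ∃ d ∈ M, (d : G) = x := by
    intro x hx
    rw [hmap] at hx
    exact hx
  refine ⟨?_, ?_, ?_, ?_, ?_, ?_, ?_⟩
  · intro m hm
    obtain ⟨d, _, h2⟩ := hex (π m) ⟨m, hm, rfl⟩
    rw [← h2]
    exact d.2
  · intro x hx m hm
    exact hL.nor ⟨x, hx⟩ m hm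
  · intro n hn
    exact hE.inf n (hL.tri _ hn ⟨n, rfl⟩)
  · obtain ⟨k, hk⟩ := hM.pq.ind
    refine ⟨k, ?_⟩
    have h1 : (Mt.map π).subgroupOf D = M := by
      ext d
      exact hmem' d
    rw [Subgroup.relIndex, h1, hk]
  · intro x hx hΦ
    by_contra hne
    obtain ⟨d, hd, rfl⟩ := hex x hx
    exact hM.av d hd ⟨hΦ, fun h => hne (by rw [h]; rfl)⟩
  · intro F _ _ _ f₁ f₂ _ _ h1 h2 hx
    obtain ⟨g, hg⟩ := hM.fus F (f₁.codRestrict D h1) (f₂.codRestrict D h2)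
      (fun x => (hmem' _).1 (hx x))
    exact ⟨g, hg⟩
  · intro σ ζ k e hσ hζ hk hσD hζD hkD heD hfin hσS h1 h2
    obtain ⟨d, hdT, hd⟩ := hM.ht ⟨σ, hσD⟩ hσ ⟨ζ, hζD⟩ hζ ⟨k, hkD⟩ hk ⟨e, heD⟩
      (Submonoid.isOfFinOrder_coe.1 hfin) (fun h => hσS h)
      ((hmem' _).1 h1) ((hmem' _).1 h2)
    exact ⟨d, hT2 d hdT, d.2, (hmem' _).2 hd⟩

/-- **Final theorem of module G, type P.**

PROOF.  `hDP := gq_DP hT h`, `r` from `ret_ex hDP.toDB`, `sq := gq_sq`. Given `F₁`: `T` from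
`ker_P` for `Sg = {d | (d : G) ∈ F₁}` (finite), `F₂` = the image of `T`. Given `Φ`: `M` from `ker_P`
for `Ph = {d | (d : G) ∈ Φ ∧ d ≠ 1}`, `Mt` from `lift_P sq hDP.toDB` (elements of
`S.subgroupOf D` have finite order since they are in the finite group `A`), then `gq_fill`. -/
theorem gq_typeP (hp : p.Prime) (hp2 : p ≠ 2) (hT : PTors p G) {A B : Subgroup G} {a b t : G}
    (h : TypeP D A B S a b t) {E : Type} [Group E] (π : E →* G) (z : E) (hE : CExt π z) :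
    ∀ F₁ : Finset G, ∃ F₂ : Finset G, ∀ Φ : Finset G, ∃ Mt : Subgroup E,
      FillData p π z D S F₁ F₂ Φ Mt := by
  classical
  have hDP := gq_DP hT h
  obtain ⟨r, hr⟩ := ret_ex hDP.toDB
  have sq := gq_sq π z hE D
  intro F₁
  have hSg : {d : D | (d : G) ∈ F₁}.Finite :=
    Set.Finite.preimage Subtype.val_injective.injOn F₁.finite_toSet
  obtain ⟨T, hTf, hk⟩ := ker_P hp hp2 hDP hr {d : D | (d : G) ∈ F₁} hSg
  refine ⟨hTf.toFinset.image (fun d : D => (d : G)), fun Φ => ?_⟩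
  have hPh : {d : D | (d : G) ∈ Φ ∧ d ≠ 1}.Finite :=
    (Set.Finite.preimage Subtype.val_injective.injOn Φ.finite_toSet).subset fun d hd => hd.1
  obtain ⟨M, hM, hMr⟩ := hk {d : D | (d : G) ∈ Φ ∧ d ≠ 1} hPh (fun h1 => h1.2 rfl)
  have hS : ∀ s ∈ S.subgroupOf D, ∃ n : ℕ, 0 < n ∧ s ^ n = 1 := by
    intro s hs
    have hsA : s ∈ A.subgroupOf D := hDP.amal.le true hs
    have := hDP.fin
    have h1 : IsOfFinOrder (⟨s, hsA⟩ : A.subgroupOf D) := isOfFinOrder_of_finite _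
    have h2 : IsOfFinOrder s := Submonoid.isOfFinOrder_coe.2 h1
    exact isOfFinOrder_iff_pow_eq_one.1 h2
  obtain ⟨Mt, hL⟩ := lift_P sq hDP.toDB hS hr M hM.pq.nor hMr
  refine ⟨Mt, gq_fill π z hE F₁ _ Φ T ?_ M hM Mt hL⟩
  intro d hd
  exact Finset.mem_image.2 ⟨d, hTf.mem_toFinset.2 hd, rfl⟩

end H14G
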