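import Pool.Agent.Lib.H14E.GL1
import Pool.Agent.Lib.H14E.GF2

set_option autoImplicit false

namespace H14G

variable {D : Type*} [Group D] {p : ℕ} {S : Subgroup D} {tau : D →* Multiplicative ℤ}

/-- **Chunk GW1.** In a group of type `W` every element is `s * w ^ n`, `s ∈ S`, if
`tau w = ofAdd 1`.

PROOF.  `n = toAdd (tau d)`, `tau (d * w ^ (-n)) = 1`, so `d * w ^ (-n) ∈ ker tau = S`. -/
theorem w_form (h : DW p S tau) (w : D) (hw : tau w = Multiplicative.ofAdd 1) (d : D) :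
    ∃ s ∈ S, ∃ n : ℤ, d = s * w ^ n := by
  refine ⟨d * w ^ (-(Multiplicative.toAdd (tau d))), ?_, Multiplicative.toAdd (tau d), ?_⟩
  · rw [← h.ker, MonoidHom.mem_ker, map_mul, map_zpow, hw, ← ofAdd_zsmul, smul_eq_mul, mul_one,
      ofAdd_neg, ofAdd_toAdd, mul_inv_cancel]
  · rw [zpow_neg, inv_mul_cancel_right]

/-- The elements of finite order are those of `S`. PROOF: `tau` of such an element is trivial as
`ℤ` is torsion free; `S` is finite. -/
theorem w_tors (h : DW p S tau) (d : D) : (∃ n : ℕ, 0 < n ∧ d ^ n = 1) ↔ d ∈ S := by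
  constructor
  · rintro ⟨n, hn, hd⟩
    rw [← h.ker, MonoidHom.mem_ker]
    have h1 : (tau d) ^ n = 1 := by rw [← map_pow, hd, map_one]
    have h2 : Multiplicative.toAdd ((tau d) ^ n) = 0 := by rw [h1]; rfl
    rw [toAdd_pow, nsmul_eq_mul] at h2
    have h3 : Multiplicative.toAdd (tau d) = 0 := by
      rcases mul_eq_zero.1 h2 with h4 | h4
      · exact absurd h4 (by exact_mod_cast hn.ne')
      · exact h4
    rw [← ofAdd_toAdd (tau d), h3, ofAdd_zero]
  · intro hd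
    have hS := h.fin
    refine ⟨Nat.card S, Nat.card_pos, ?_⟩
    have h1 : (⟨d, hd⟩ : S) ^ Nat.card S = 1 := pow_card_eq_one'
    have h2 : (((⟨d, hd⟩ : S) ^ Nat.card S : S) : D) = ((1 : S) : D) := by rw [h1]
    rw [Subgroup.coe_pow] at h2
    exact h2

/-- `w ^ p ^ m` is central for large `m`.

PROOF.  `k` from `h.act w`; `w ^ p ^ m`, `m ≥ k`, commutes with `S` (it is a power of `w ^ p ^ k`)
and with `w`; use `w_form`. -/
theorem w_central (h : DW p S tau) (w : D) (hw : tau w = Multiplicative.ofAdd 1) :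
    ∃ k : ℕ, ∀ m : ℕ, k ≤ m → w ^ p ^ m ∈ Subgroup.center D := by
  obtain ⟨k, hk⟩ := h.act w
  refine ⟨k, fun m hm => ?_⟩
  rw [Subgroup.mem_center_iff]
  intro g
  obtain ⟨s, hs, n, rfl⟩ := w_form h w hw g
  have h1 : Commute (w ^ p ^ k) s := by
    have h2 := hk s hs
    exact mul_inv_eq_iff_eq_mul.1 h2
  have h2 : w ^ p ^ m = (w ^ p ^ k) ^ p ^ (m - k) := by
    rw [← pow_mul, ← pow_add, Nat.add_sub_cancel' hm]
  have h3 : Commute (w ^ p ^ m) s := by
    rw [h2]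
    exact h1.pow_left _
  have h4 : Commute (w ^ p ^ m) (w ^ n) := ((Commute.refl w).pow_left _).zpow_right _
  exact (h3.mul_right h4).eq.symm

/-- The subgroup `⟨w ^ p ^ m⟩`, if central, has `p`-power index.

PROOF.  Normal: central elements. Index: `N := S ⊔ ⟨w ^ p ^ m⟩` is the preimage of `p ^ m ℤ` under
`tau`, of index `p ^ m`; the relative index of `⟨w ^ p ^ m⟩` in `N` is `Nat.card S` (as
`S ⊓ ⟨w ^ p ^ m⟩ = ⊥`), a power of `p`.  Or: the quotient `D ⧸ ⟨w ^ p ^ m⟩` is finite: it is the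
image of `S × ZMod (p ^ m)`-many elements `s * w ^ n`, `0 ≤ n < p ^ m`, and each of its elements
has `p`-power order: `d ^ p ^ m` has `tau` divisible by `p ^ m`, so
`d ^ p ^ m = s * (w ^ p ^ m) ^ n`, with `s ∈ S` and `w ^ p ^ m` central, and then the
`Nat.card S`-th power is in `⟨w ^ p ^ m⟩`; a finite group with all elements of `p`-power order has
`p`-power order (`IsPGroup.iff_card`). -/
theorem w_PQ (hp : p.Prime) (h : DW p S tau) (w : D) (hw : tau w = Multiplicative.ofAdd 1) (m : ℕ)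
    (hm : w ^ p ^ m ∈ Subgroup.center D) : PQ p (Subgroup.zpowers (w ^ p ^ m)) := by
  have hc : ∀ (a : ℤ) (g : D), Commute ((w ^ p ^ m) ^ a) g := by
    intro a g
    have h1 : (w ^ p ^ m) ^ a ∈ Subgroup.center D := Subgroup.zpow_mem _ hm a
    exact (Subgroup.mem_center_iff.1 h1 g).symm
  have hN : (Subgroup.zpowers (w ^ p ^ m)).Normal := by
    refine ⟨?_⟩
    rintro _ ⟨a, rfl⟩ g
    simp only
    rw [← (hc a g).eq, mul_assoc, mul_inv_cancel, mul_one]
    exact ⟨a, rfl⟩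
  refine ⟨hN, ?_⟩
  have hS := h.fin
  have : Fact p.Prime := ⟨hp⟩
  obtain ⟨j, hj⟩ := IsPGroup.iff_card.1 h.pg
  have hpos : 0 < p ^ m := pow_pos hp.pos m
  have hposZ : (0 : ℤ) < ((p ^ m : ℕ) : ℤ) := by exact_mod_cast hpos
  have hfin : Finite (D ⧸ Subgroup.zpowers (w ^ p ^ m)) := by
    refine Finite.of_surjective (fun q : S × Fin (p ^ m) =>
      (QuotientGroup.mk ((q.1 : D) * w ^ (q.2 : ℕ)) : D ⧸ Subgroup.zpowers (w ^ p ^ m))) ?_
    intro x
    obtain ⟨d, rfl⟩ := QuotientGroup.mk_surjective x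
    obtain ⟨s, hs, n, rfl⟩ := w_form h w hw d
    have h0 : 0 ≤ n % ((p ^ m : ℕ) : ℤ) := Int.emod_nonneg _ hposZ.ne'
    have h1 : n % ((p ^ m : ℕ) : ℤ) < ((p ^ m : ℕ) : ℤ) := Int.emod_lt_of_pos _ hposZ
    refine ⟨⟨⟨s, hs⟩, ⟨(n % ((p ^ m : ℕ) : ℤ)).toNat, by omega⟩⟩, ?_⟩
    show (QuotientGroup.mk (s * w ^ (n % ((p ^ m : ℕ) : ℤ)).toNat) : D ⧸ Subgroup.zpowers (w ^ p ^ m)) =
      QuotientGroup.mk (s * w ^ n)
    rw [QuotientGroup.eq]
    refine ⟨n / ((p ^ m : ℕ) : ℤ), ?_⟩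
    simp only
    have h2 : w ^ n = w ^ (n % ((p ^ m : ℕ) : ℤ)).toNat * (w ^ p ^ m) ^ (n / ((p ^ m : ℕ) : ℤ)) := by
      rw [← zpow_natCast w (n % ((p ^ m : ℕ) : ℤ)).toNat, Int.toNat_of_nonneg h0,
        ← zpow_natCast w (p ^ m), ← zpow_mul, ← zpow_add, Int.emod_add_mul_ediv]
    rw [h2]
    group
  have hpg : IsPGroup p (D ⧸ Subgroup.zpowers (w ^ p ^ m)) := by
    intro x
    obtain ⟨d, rfl⟩ := QuotientGroup.mk_surjective x
    refine ⟨m + j, ?_⟩
    rw [← QuotientGroup.mk_pow, QuotientGroup.eq_one_iff]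
    obtain ⟨s, hs, n, hn⟩ := w_form h w hw (d ^ p ^ m)
    have hts : tau s = 1 := by
      rw [← MonoidHom.mem_ker, h.ker]
      exact hs
    have h1 : (tau d) ^ p ^ m = Multiplicative.ofAdd n := by
      rw [← map_pow, hn, map_mul, hts, one_mul, map_zpow, hw, ← ofAdd_zsmul, smul_eq_mul, mul_one]
    have h2 : ((p ^ m : ℕ) : ℤ) * Multiplicative.toAdd (tau d) = n := by
      have h3 := congrArg Multiplicative.toAdd h1
      rw [toAdd_pow, nsmul_eq_mul, toAdd_ofAdd] at h3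
      exact h3
    have h3 : w ^ n = (w ^ p ^ m) ^ (Multiplicative.toAdd (tau d)) := by
      rw [← h2, zpow_mul, zpow_natCast]
    have hsj : s ^ p ^ j = 1 := by
      have h4 : (⟨s, hs⟩ : S) ^ Nat.card S = 1 := pow_card_eq_one'
      rw [hj] at h4
      have h5 := congrArg (fun x : S => (x : D)) h4
      simpa using h5
    rw [pow_add, pow_mul, hn, h3, (hc _ s).symm.mul_pow, hsj, one_mul]
    exact Subgroup.pow_mem _ (Subgroup.zpow_mem _ (Subgroup.mem_zpowers _) _) _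
  obtain ⟨k, hk⟩ := IsPGroup.iff_card.1 hpg
  exact ⟨k, by rw [Subgroup.index_eq_card]; exact hk⟩

end H14G
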