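import Pool.Agent.Lib.H14E.GW1

set_option autoImplicit false

namespace H14G

variable {D G : Type*} [Group D] [Group G] {p : ℕ} {j : D →* G} {S : Subgroup D}
    {tau : D →* Multiplicative ℤ}

theorem gw2_tau (w : D) (hw : tau w = Multiplicative.ofAdd 1) (m : ℕ) (a : ℤ) :
    Multiplicative.toAdd (tau ((w ^ p ^ m) ^ a)) = ((p ^ m : ℕ) : ℤ) * a := by
  rw [map_zpow, map_pow, hw, ← ofAdd_nsmul, ← ofAdd_zsmul, toAdd_ofAdd]
  simp [mul_comm]

theorem gw2_tf (hp : p.Prime) (h : DW p S tau) (w : D) (hw : tau w = Multiplicative.ofAdd 1) (m : ℕ)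
    (x : D) (hx : x ∈ Subgroup.zpowers (w ^ p ^ m)) (hS : x ∈ S) : x = 1 := by
  obtain ⟨a, rfl⟩ := hx
  simp only at hS ⊢
  rw [← h.ker, MonoidHom.mem_ker] at hS
  have h1 := gw2_tau (p := p) w hw m a
  rw [hS, toAdd_one] at h1
  have hpos : ((p ^ m : ℕ) : ℤ) ≠ 0 := by
    exact_mod_cast (pow_pos hp.pos m).ne'
  have h2 : a = 0 := by
    rcases mul_eq_zero.1 h1.symm with h3 | h3
    · exact absurd h3 hpos
    · exact h3
  rw [h2, zpow_zero]

/-- **Chunk GW2. Kernels for type `W`.**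

PROOF.  `k` from `w_central`; `m₀ ≥ k` with `p ^ m₀ > |toAdd (tau x)|` for all `x ∈ Ph` (finite
set; `p ≥ 2`).  Let `m ≥ m₀`, `M = zpowers (w ^ p ^ m)`.  `pq`: `w_PQ`.
`tf`: an element of finite order of `M` is `(w ^ p ^ m) ^ n` with `tau` zero (`w_tors`, or `ℤ` is
torsion free), `p ^ m * n = 0`, `n = 0`.
`av`: if `x = (w ^ p ^ m) ^ n ∈ Ph` then `|p ^ m * n| < p ^ m`, so `n = 0`, `x = 1`, contradiction.
`ht`: vacuous, `s` of finite order is in `S` (`w_tors`).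
`fus`: `f₁ x, f₂ x` have finite order, so they are in `S`, `(f₁ x)⁻¹ * f₂ x ∈ S ⊓ M` is trivial (it
has finite order; `tf`); `g = 1`. -/
theorem ker_W (hp : p.Prime) (h : DW p S tau) (w : D) (hw : tau w = Multiplicative.ofAdd 1)
    (Sg Ph : Set D) (hPh : Ph.Finite) (h1 : (1 : D) ∉ Ph) :
    ∃ m₀ : ℕ, ∀ m : ℕ, m₀ ≤ m → Ker0 p j S Sg ∅ Ph (Subgroup.zpowers (w ^ p ^ m)) := by
  obtain ⟨k, hk⟩ := w_central h w hw
  obtain ⟨N, hN⟩ := (hPh.image (fun x => (Multiplicative.toAdd (tau x)).natAbs)).bddAbove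
  refine ⟨max k N, fun m hm => ?_⟩
  have hmk : k ≤ m := (le_max_left _ _).trans hm
  have hmN : N ≤ m := (le_max_right _ _).trans hm
  have htf : ∀ x ∈ Subgroup.zpowers (w ^ p ^ m), ∀ n : ℕ, 0 < n → x ^ n = 1 → x = 1 :=
    fun x hx n hn h1 => gw2_tf hp h w hw m x hx ((w_tors h x).1 ⟨n, hn, h1⟩)
  refine ⟨w_PQ hp h w hw m (hk m hmk), htf, ?_, ?_, ?_⟩
  · rintro x ⟨a, rfl⟩ hx
    simp only at hx
    have h2 : (Multiplicative.toAdd (tau ((w ^ p ^ m) ^ a))).natAbs ≤ N :=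
      hN ⟨_, hx, rfl⟩
    rw [gw2_tau (p := p) w hw m a, Int.natAbs_mul, Int.natAbs_natCast] at h2
    have h3 : m < p ^ m := Nat.lt_pow_self hp.one_lt
    have h4 : a.natAbs = 0 := by
      by_contra h5
      have h6 : 1 ≤ a.natAbs := Nat.one_le_iff_ne_zero.2 h5
      have h7 : p ^ m * 1 ≤ p ^ m * a.natAbs := Nat.mul_le_mul_left _ h6
      omega
    rw [Int.natAbs_eq_zero] at h4
    rw [h4, zpow_zero] at hx
    exact h1 hx
  · intro s _ s' _ k' _ e hs hsS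
    exfalso
    obtain ⟨n, hn, hs'⟩ := isOfFinOrder_iff_pow_eq_one.1 hs
    exact hsS ((w_tors h s).1 ⟨n, hn, hs'⟩)
  · intro F _ _ f₁ f₂ hf
    refine ⟨1, fun x => ?_⟩
    have hfin : ∀ f : F →* D, f x ∈ S := by
      intro f
      refine (w_tors h _).1 ⟨Nat.card F, Nat.card_pos, ?_⟩
      rw [← map_pow, pow_card_eq_one', map_one]
    have h3 : (f₁ x)⁻¹ * f₂ x = 1 :=
      gw2_tf hp h w hw m _ (hf x) (S.mul_mem (S.inv_mem (hfin f₁)) (hfin f₂))
    rw [inv_mul_eq_one.1 h3, one_mul, inv_one, mul_one]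

variable {Dt E : Type*} [Group Dt] [Group E] {jt : Dt →* E} {π : Dt →* D} {πE : E →* G} {z : E}

/-- **The lifts for type `W`.**  For all large `m` and ALL integers `c` the subgroup
`⟨wt ^ p ^ m * z ^ c⟩` is a good lift.

PROOF.  `k` from `w_central`, `m ≥ k`, `u := jt wt ^ p ^ m`.  `u` commutes with `jt d` for all `d`:
`π d = s * w ^ n` (`w_form`), so with `dt := d * wt ^ (-n)`, `π dt = s ∈ S`; `u` commutes with
`jt wt`; `u` commutes with `jt dt` by `Sq.comm_of_tors`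
(`πE (u * jt dt * u⁻¹ * (jt dt)⁻¹) = j (w ^ p ^ m * s * (w ^ p ^ m)⁻¹ * s⁻¹) = 1` and `s` has finite
order).  So `u * z ^ c` commutes with all `jt d` (`z` is central): `nor`.
`tri`: `(u * z ^ c) ^ n ∈ ⟨z⟩` gives `πE = 1`, `j (w ^ (p ^ m * n)) = 1`, `tau` gives
`p ^ m * n = 0`, `n = 0`.
`map`: `πE (u * z ^ c) = j (w ^ p ^ m)` (`MonoidHom.map_zpowers`). -/
theorem lift_W (hp : p.Prime) (sq : Sq j jt π πE z) (h : DW p S tau) (wt : Dt)
    (hw : tau (π wt) = Multiplicative.ofAdd 1) :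
    ∃ m₀ : ℕ, ∀ m : ℕ, m₀ ≤ m → ∀ c : ℤ,
      LiftM j jt πE z (Subgroup.zpowers (π wt ^ p ^ m))
        (Subgroup.zpowers (jt wt ^ p ^ m * z ^ c)) := by
  obtain ⟨k, hk⟩ := w_central h (π wt) hw
  refine ⟨k, fun m hm c => ?_⟩
  have hcen := Subgroup.mem_center_iff.1 (hk m hm)
  have hz : ∀ (e : E) (a : ℤ), Commute (z ^ a) e := by
    intro e a
    have h1 : z ^ a ∈ Subgroup.center E := Subgroup.zpow_mem _ sq.cen a
    exact (Subgroup.mem_center_iff.1 h1 e).symm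
  have hzE : πE z = 1 := (sq.ker z).2 (Subgroup.mem_zpowers z)
  have hu : πE (jt wt ^ p ^ m) = j (π wt ^ p ^ m) := by
    rw [map_pow, ← sq.comm, ← map_pow]
  have hcomm : ∀ d : Dt, Commute (jt wt ^ p ^ m) (jt d) := by
    intro d
    obtain ⟨s, hs, n, hn⟩ := w_form h (π wt) hw (π d)
    have hs' : π (d * wt ^ (-n)) = s := by
      rw [map_mul, map_zpow, hn, zpow_neg, mul_inv_cancel_right]
    obtain ⟨l, hl, hsl⟩ := (w_tors h s).2 hs
    have h1 : Commute (jt wt ^ p ^ m) (jt (d * wt ^ (-n))) := by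
      refine sq.comm_of_tors _ _ ?_ l hl ?_
      · rw [map_mul, map_mul, map_mul, map_inv, map_inv, hu, ← sq.comm, hs', ← map_mul, ← hcen s,
          map_mul, mul_inv_cancel_right, mul_inv_cancel]
      · rw [map_pow, ← sq.comm, hs', ← map_pow, hsl, map_one]
    have h2 : Commute (jt wt ^ p ^ m) (jt wt ^ n) := ((Commute.refl _).pow_left _).zpow_right _
    have h3 : jt d = jt (d * wt ^ (-n)) * jt wt ^ n := by
      rw [map_mul, map_zpow, mul_assoc, ← zpow_add, neg_add_cancel, zpow_zero, mul_one]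
    rw [h3]
    exact h1.mul_right h2
  have hcomm' : ∀ (d : Dt) (a : ℤ), Commute ((jt wt ^ p ^ m * z ^ c) ^ a) (jt d) := fun d a =>
    ((hcomm d).mul_left (hz (jt d) c)).zpow_left a
  have hE : πE (jt wt ^ p ^ m * z ^ c) = j (π wt ^ p ^ m) := by
    rw [map_mul, map_zpow, hzE, one_zpow, mul_one, hu]
  refine ⟨?_, ?_, ?_⟩
  · rintro d _ ⟨a, rfl⟩
    simp only
    rw [← (hcomm' d a).eq, mul_inv_cancel_right]
    exact ⟨a, rfl⟩
  · rintro _ ⟨a, rfl⟩ hx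
    simp only at hx ⊢
    have h1 := (sq.ker _).2 hx
    rw [map_zpow, hE, ← map_zpow] at h1
    have h2 : (π wt ^ p ^ m) ^ a = 1 := sq.inj (by rw [h1, map_one])
    have h3 := gw2_tau (p := p) (π wt) hw m a
    rw [h2, map_one, toAdd_one] at h3
    have hpos : ((p ^ m : ℕ) : ℤ) ≠ 0 := by
      exact_mod_cast (pow_pos hp.pos m).ne'
    have h4 : a = 0 := by
      rcases mul_eq_zero.1 h3.symm with h5 | h5
      · exact absurd h5 hpos
      · exact h5
    rw [h4, zpow_zero]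
  · rw [MonoidHom.map_zpowers, MonoidHom.map_zpowers, hE]

end H14G
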