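import Pool.Agent.Lib.H14E.GQ2
import Pool.Agent.Lib.H14E.GW2
import Pool.Agent.Lib.H14E.N3

set_option autoImplicit false

namespace H14G

open Pool.Agent.Lib.H14E

/-- **Chunk GW3.** `D` acts on `S` as a `p`-group: type `W` from the data of the W-step.

PROOF.  `S.subgroupOf D` is finite (`hS.fin`), a `p`-group by `hT` (elements of finite order have
`p`-power order).  `act`: `exists_pPow_comm` / `exists_pPow_comm'` of `N3.lean` (helper86) for the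
finite group `S` and `x ∈ D`. -/
theorem gw_DW {p : ℕ} (hp : p.Prime) {G : Type} [Group G] (hT : PTors p G) (hN : NoRec G)
    {D S : Subgroup G} (hS : FinNormal S D) (tau : D →* Multiplicative ℤ)
    (h1 : Function.Surjective tau) (h2 : ∀ d : D, tau d = 1 ↔ (d : G) ∈ S) :
    DW p (S.subgroupOf D) tau := by
  have hfin : Finite S := hS.fin
  refine ⟨h1, ?_, ?_, ?_, ?_⟩
  · ext d
    rw [MonoidHom.mem_ker, h2, Subgroup.mem_subgroupOf]
  · exact Finite.of_equiv S (Subgroup.subgroupOfEquivOfLe hS.le).symm.toEquiv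
  · exact (isPGroup_of_finite hT hS.fin).of_equiv (Subgroup.subgroupOfEquivOfLe hS.le).symm
  · intro x
    obtain ⟨a, ha⟩ := exists_pPow_comm' hN hp hT hS.fin (x := (x : G))
      (fun s hs => hS.nrm _ x.2 s hs)
    refine ⟨a, fun s hs => ?_⟩
    apply Subtype.ext
    have h3 := ha (s : G) (Subgroup.mem_subgroupOf.1 hs)
    simp only [Subgroup.coe_mul, Subgroup.coe_inv, SubmonoidClass.coe_pow]
    rw [h3, mul_inv_cancel_right]

/-- the relation in `D` -/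
theorem gw3_rel {D : Type} [Group D] {p : ℕ} {S : Subgroup D} {tau : D →* Multiplicative ℤ}
    (hW : DW p S tau) {u v : D} (hu : tau u = Multiplicative.ofAdd 1) {k : ℤ}
    (hv : tau v = Multiplicative.ofAdd k) {q : ℕ} (hq : u ^ q ∈ Subgroup.center D) :
    v ^ (q * Nat.card S) = u ^ (k * (q * Nat.card S : ℕ)) := by
  set y : D := u ^ (k * (q : ℤ)) with hy
  have hyc : y ∈ Subgroup.center D := by
    rw [hy, mul_comm, zpow_mul, zpow_natCast]
    exact Subgroup.zpow_mem _ hq k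
  have hs : v ^ q * y⁻¹ ∈ S := by
    rw [← hW.ker, MonoidHom.mem_ker, map_mul, map_inv, map_pow, hv, hy, map_zpow, hu]
    rw [← ofAdd_nsmul, ← ofAdd_zsmul, ← ofAdd_neg, ← ofAdd_add]
    simp [mul_comm]
  have hsN : (v ^ q * y⁻¹) ^ Nat.card S = 1 := by
    have h4 : (⟨v ^ q * y⁻¹, hs⟩ : S) ^ Nat.card S = 1 := pow_card_eq_one'
    exact congrArg Subtype.val h4
  have hcom : Commute (v ^ q * y⁻¹) y := (Subgroup.mem_center_iff.1 hyc _)
  have e1 : v ^ q = (v ^ q * y⁻¹) * y := by rw [inv_mul_cancel_right]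
  rw [pow_mul, e1, hcom.mul_pow, hsN, one_mul, hy, ← zpow_natCast, ← zpow_mul]
  push_cast
  ring_nf

/-- **Final theorem of module G, type W** (for `wstep`).

PROOF.  `hW := gw_DW`, `sq := gq_sq`.  Let `wt : D.comap π` with `tau (π wt) = ofAdd 1`
(`h1`, surjectivity).  `u := π' wt ∈ D`, `v := π w ∈ D`.
`tau v = ofAdd k`, `k ≠ 0` (otherwise `v ∈ S` has finite order).  Let `N₀ = Nat.card S > 0`.
Let `m₁` be such that `u ^ p ^ m₁` is central in `D` and `m₀ ≥ m₁` also as in `ker_W`, `lift_W`.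
Put `q = p ^ m₁`. `tau (v ^ q) = ofAdd (k q)`, so `v ^ q = s * u ^ (k q)` with `s ∈ S`
(`tau` of the quotient is trivial), and `u ^ (k q)` is central, so
`v ^ (q * N₀) = s ^ N₀ * u ^ (k q N₀) = u ^ (k q N₀)`. In `E`: `w ^ (q N₀) = (jt wt) ^ (k q N₀) *
z ^ i` for some integer `i` (both sides have the same image under `π`; `hE.ker`).
Choose `m ≥ m₀` (given `F₁, Φ`: `m₀` from `ker_W` for `Ph = {d | (d : G) ∈ Φ ∧ d ≠ 1}` and from
`lift_W`), `m = m₁ + l`, and raise to the power `p ^ l`: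
`w ^ (p ^ m * N₀) = (jt wt) ^ (k * p ^ m * N₀) * z ^ (i * p ^ l)` (`z` central).
For `c : ℤ`, `Mt = ⟨(jt wt) ^ p ^ m * z ^ c⟩` is a good lift by `lift_W`, and contains
`((jt wt) ^ p ^ m * z ^ c) ^ (k * N₀) = w ^ (p ^ m * N₀) * z ^ (c * k * N₀ - i * p ^ l)`.
If `i ≠ 0` take `c = 0`, `n = - i * p ^ l ≠ 0`; if `i = 0` take `c = 1`, `n = k * N₀ ≠ 0`.
`FillData` from `gq_fill` with `T = ∅`, `F₂ = ∅`. -/
theorem gw_typeW {p : ℕ} (hp : p.Prime) {G : Type} [Group G] (hT : PTors p G)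
    (hN : NoRec G) {D S : Subgroup G} (hS : FinNormal S D) (tau : D →* Multiplicative ℤ)
    (h1 : Function.Surjective tau) (h2 : ∀ d : D, tau d = 1 ↔ (d : G) ∈ S)
    {E : Type} [Group E] (π : E →* G) (z : E) (hE : CExt π z) (w : E) (hwD : π w ∈ D)
    (hw : ¬ IsOfFinOrder (π w)) :
    ∀ F₁ Φ : Finset G, ∃ Mt : Subgroup E, FillData p π z D S F₁ ∅ Φ Mt ∧
        ∃ N : ℕ, 1 ≤ N ∧ ∃ n : ℤ, n ≠ 0 ∧ w ^ N * z ^ n ∈ Mt := by
  intro F₁ Φ
  have hfin : Finite S := hS.fin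
  have hW := gw_DW hp hT hN hS tau h1 h2
  have sq := gq_sq π z hE D
  obtain ⟨d₁, hd₁⟩ := h1 (Multiplicative.ofAdd 1)
  obtain ⟨wt, hwt⟩ := sq.psurj d₁
  have hwt1 : tau ((π.subgroupComap D) wt) = Multiplicative.ofAdd 1 := by rw [hwt, hd₁]
  obtain ⟨m₁, hm₁⟩ := w_central hW _ hwt1
  have hPh : {d : D | (d : G) ∈ Φ ∧ d ≠ 1}.Finite := by
    have h3 : {d : D | (d : G) ∈ (Φ : Set G)}.Finite :=
      Φ.finite_toSet.preimage (Subtype.val_injective.injOn)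
    exact h3.subset (fun d hd => hd.1)
  obtain ⟨m₂, hm₂⟩ := ker_W (j := D.subtype) hp hW _ hwt1 {d : D | (d : G) ∈ F₁}
    {d : D | (d : G) ∈ Φ ∧ d ≠ 1} hPh (fun h => h.2 rfl)
  obtain ⟨m₃, hm₃⟩ := lift_W hp sq hW wt hwt1
  set u : D := (π.subgroupComap D) wt with hu
  have huE : (u : G) = π (wt : E) := rfl
  obtain ⟨k, hk⟩ : ∃ k : ℤ, tau ⟨π w, hwD⟩ = Multiplicative.ofAdd k := ⟨_, rfl⟩
  have hk0 : k ≠ 0 := by
    rintro rfl
    have h3 : (π w) ∈ S := (h2 ⟨π w, hwD⟩).1 hk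
    exact hw (Submonoid.isOfFinOrder_coe.2 (isOfFinOrder_of_finite (⟨π w, h3⟩ : S)))
  set N₀ := Nat.card (S.subgroupOf D) with hN₀
  have hfin' : Finite (S.subgroupOf D) := hW.fin
  have hN₀pos : 0 < N₀ := Nat.card_pos
  have hrel := gw3_rel hW hwt1 hk (hm₁ m₁ le_rfl)
  rw [← hN₀] at hrel
  -- in `E`
  have hrelE : π (w ^ (p ^ m₁ * N₀)) = π ((wt : E) ^ (k * (p ^ m₁ * N₀ : ℕ))) := by
    have h3 := congrArg Subtype.val hrel
    rw [map_pow, map_zpow, ← huE]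
    simpa using h3
  have hker : w ^ (p ^ m₁ * N₀) * ((wt : E) ^ (k * (p ^ m₁ * N₀ : ℕ)))⁻¹ ∈ π.ker := by
    rw [MonoidHom.mem_ker, map_mul, map_inv, hrelE, mul_inv_cancel]
  rw [hE.ker, Subgroup.mem_zpowers_iff] at hker
  obtain ⟨i, hi⟩ := hker
  have hzc : ∀ (n : ℤ) (x : E), Commute (z ^ n) x := fun n x =>
    Commute.zpow_left (hE.cent x) n
  have hwq : w ^ (p ^ m₁ * N₀) = z ^ i * (wt : E) ^ (k * (p ^ m₁ * N₀ : ℕ)) := by
    rw [hi, inv_mul_cancel_right]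
  set l := m₂ + m₃ with hl
  have hwm : w ^ (p ^ (m₁ + l) * N₀)
      = z ^ (i * (p ^ l : ℕ)) * (wt : E) ^ (k * (p ^ (m₁ + l) * N₀ : ℕ)) := by
    have e1 : p ^ (m₁ + l) * N₀ = (p ^ m₁ * N₀) * p ^ l := by rw [pow_add]; ring
    rw [e1, pow_mul, hwq, (hzc i _).mul_pow, ← zpow_natCast (z ^ i), ← zpow_mul,
      ← zpow_natCast ((wt : E) ^ _), ← zpow_mul]
    congr 2
    push_cast
    ring
  have main : ∀ c : ℤ, c * (k * N₀) - i * (p ^ l : ℕ) ≠ 0 →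
      ∃ Mt : Subgroup E, FillData p π z D S F₁ ∅ Φ Mt ∧
        ∃ N : ℕ, 1 ≤ N ∧ ∃ n : ℤ, n ≠ 0 ∧ w ^ N * z ^ n ∈ Mt := by
    intro c hc
    refine ⟨Subgroup.zpowers ((wt : E) ^ p ^ (m₁ + l) * z ^ c), ?_, p ^ (m₁ + l) * N₀, ?_, _, hc, ?_⟩
    · exact gq_fill π z hE F₁ ∅ Φ ∅ (fun d hd => absurd hd (Set.notMem_empty d))
        (Subgroup.zpowers (u ^ p ^ (m₁ + l))) (hm₂ (m₁ + l) (by omega)) _
        (hm₃ (m₁ + l) (by omega) c)
    · exact Nat.mul_pos (pow_pos hp.pos _) hN₀pos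
    · refine Subgroup.mem_zpowers_iff.2 ⟨k * N₀, ?_⟩
      rw [((hzc c ((wt : E) ^ p ^ (m₁ + l))).symm).mul_zpow, hwm, ← zpow_mul, ← zpow_natCast,
        ← zpow_mul, (hzc _ _).eq, mul_assoc, ← zpow_add]
      congr 2
      · push_cast
        ring
      · push_cast
        ring
  by_cases hi0 : i = 0
  · refine main 1 ?_
    rw [hi0, zero_mul, sub_zero, one_mul]
    exact mul_ne_zero hk0 (by exact_mod_cast hN₀pos.ne')
  · refine main 0 ?_
    rw [zero_mul, zero_sub]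
    exact neg_ne_zero.2 (mul_ne_zero hi0 (by exact_mod_cast (pow_pos hp.pos l).ne'))

end H14G
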