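import Pool.Agent.Lib.H14E.Core

/-!
# H14E: the path metric of a connected graph is a `GeoMet`
-/

set_option autoImplicit false

namespace Pool.Agent.Lib.H14E

open Pool.Agent.Lib.H76.Morse GeoMet

theorem dist_getVert {V : Type} {Γ : SimpleGraph V} (h : Γ.Preconnected) {u v : V}
    (p : Γ.Walk u v) (hp : p.length = Γ.dist u v) {i j : ℕ} (hij : i ≤ j)
    (hj : j ≤ Γ.dist u v) : Γ.dist (p.getVert i) (p.getVert j) = j - i := by
  have : Nonempty V := ⟨u⟩
  have hc : Γ.Connected := ⟨h⟩
  have h1 : Γ.dist u (p.getVert i) ≤ i := by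
    have := SimpleGraph.dist_le (p.take i)
    refine this.trans ?_
    rw [SimpleGraph.Walk.take_length]
    exact min_le_left _ _
  have h3 : Γ.dist (p.getVert j) v ≤ Γ.dist u v - j := by
    have := SimpleGraph.dist_le (p.drop j)
    refine this.trans ?_
    rw [SimpleGraph.Walk.drop_length, hp]
  have h2 : Γ.dist (p.getVert i) (p.getVert j) ≤ j - i := by
    have e : (p.drop i).getVert (j - i) = p.getVert j := by
      rw [SimpleGraph.Walk.drop_getVert]
      congr 1
      omega
    have h4 := SimpleGraph.dist_le ((p.drop i).take (j - i))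
    have h5 : ((p.drop i).take (j - i)).length ≤ j - i := by
      rw [SimpleGraph.Walk.take_length]
      exact min_le_left _ _
    have h6 := h4.trans h5
    rwa [e] at h6
  have t1 := hc.dist_triangle (u := u) (v := p.getVert i) (w := v)
  have t2 := hc.dist_triangle (u := p.getVert i) (v := p.getVert j) (w := v)
  omega

/-- The path metric of a connected graph. -/
@[reducible] noncomputable def graphGeo {V : Type} (Γ : SimpleGraph V) (h : Γ.Preconnected) :
    GeoMet V where
  d := Γ.dist
  d_self x := by simp
  eq_of_d x y hxy := by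
    have : Nonempty V := ⟨x⟩
    have hc : Γ.Connected := ⟨h⟩
    exact hc.dist_eq_zero_iff.1 hxy
  d_comm x y := SimpleGraph.dist_comm
  d_tri x y z := by
    have : Nonempty V := ⟨x⟩
    have hc : Γ.Connected := ⟨h⟩
    exact hc.dist_triangle
  geo x y := by
    have : Nonempty V := ⟨x⟩
    have hc : Γ.Connected := ⟨h⟩
    obtain ⟨p, hp⟩ := hc.exists_walk_length_eq_dist x y
    refine ⟨fun i => p.getVert i, by simp, ?_, ?_⟩
    · show p.getVert (Γ.dist x y) = y
      rw [← hp]
      exact p.getVert_length
    · intro i j hij hj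
      exact dist_getVert h p hp hij hj

end Pool.Agent.Lib.H14E
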