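import Pool.Agent.Lib.H14E.N0
import Pool.Agent.Lib.H76.Ext.Defs

/-!
# H14E, module N, part 1: Engel words and the map `Tg`

With `b_0 = x⁻¹ y x` and `b_{j+1} = Tg y (b_j)`: `[x, _{j+1} y] = y^{-j} (b_j⁻¹ y) y^j`.
-/

set_option autoImplicit false

namespace Pool.Agent.Lib.H14E

open Pool.Agent.H76.Ext

section

variable {G : Type} [Group G]

/-- the commutator map `z ↦ [z, y]` -/
def cm (y z : G) : G := z⁻¹ * y⁻¹ * z * y

theorem cm_iter (x y : G) (j : ℕ) :
    (cm y)^[j + 1] x = (y ^ j)⁻¹ * (((Tg y)^[j] (x⁻¹ * y * x))⁻¹ * y) * y ^ j := by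
  induction j with
  | zero => simp [cm, mul_assoc]
  | succ j ih =>
    rw [Function.iterate_succ_apply', ih, Function.iterate_succ_apply']
    simp only [cm, Tg]
    set b := (Tg y)^[j] (x⁻¹ * y * x) with hb
    have e : y ^ (j + 1) = y * y ^ j := pow_succ' y j
    rw [e]
    have h1 : y ^ j * y = y * y ^ j := (pow_succ y j).symm.trans (pow_succ' y j)
    have h2 : y ^ j * y * (y ^ j)⁻¹ = y := by rw [h1, mul_inv_cancel_right]
    have h3 : y ^ j * y⁻¹ * (y ^ j)⁻¹ = y⁻¹ := by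
      have := congrArg (·⁻¹) h2
      simp only [mul_inv_rev, inv_inv] at this
      rw [mul_assoc]
      exact this
    calc ((y ^ j)⁻¹ * (b⁻¹ * y) * y ^ j)⁻¹ * y⁻¹ * ((y ^ j)⁻¹ * (b⁻¹ * y) * y ^ j) * y
        = (y ^ j)⁻¹ * (y⁻¹ * b) * (y ^ j * y⁻¹ * (y ^ j)⁻¹) * (b⁻¹ * y) * (y ^ j * y) := by group
      _ = (y ^ j)⁻¹ * (y⁻¹ * b) * y⁻¹ * (b⁻¹ * y) * (y * y ^ j) := by rw [h3, h1]
      _ = (y * y ^ j)⁻¹ * ((b * y * b⁻¹)⁻¹ * y) * (y * y ^ j) := by
          rw [← h1]
          group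

theorem cm_iter_eq_one_iff (x y : G) (j : ℕ) :
    (cm y)^[j + 1] x = 1 ↔ (Tg y)^[j] (x⁻¹ * y * x) = y := by
  rw [cm_iter]
  constructor
  · intro h
    have h1 : ((Tg y)^[j] (x⁻¹ * y * x))⁻¹ * y = 1 := by
      have := congrArg (fun z => y ^ j * z * (y ^ j)⁻¹) h
      simp only [mul_one, mul_inv_cancel] at this
      rw [← this]
      group
    exact (inv_mul_eq_one.1 h1)
  · intro h
    rw [h]
    simp

/-- once trivial, the Engel commutators stay trivial -/
theorem cm_iter_of_le (x y : G) {i j : ℕ} (hij : i ≤ j) (h : (cm y)^[i] x = 1) :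
    (cm y)^[j] x = 1 := by
  obtain ⟨r, rfl⟩ := Nat.exists_eq_add_of_le' hij
  rw [Function.iterate_add_apply, h]
  clear h hij
  induction r with
  | zero => rfl
  | succ r ih => rw [Function.iterate_succ_apply, show cm y 1 = 1 by simp [cm], ih]

theorem map_cm_iter {H : Type} [Group H] (φ : G →* H) (x y : G) (j : ℕ) :
    φ ((cm y)^[j] x) = (cm (φ y))^[j] (φ x) := by
  induction j generalizing x with
  | zero => rfl
  | succ j ih =>
    rw [Function.iterate_succ_apply, Function.iterate_succ_apply, ih]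
    simp [cm]

end

theorem engelComm_eq {G : Type} [Group G] (x y : G) (n : ℕ) : engelComm x y n = (cm y)^[n] x := rfl

/-- The Engel word of `(x, y)` dies as soon as the orbit of `x⁻¹ y x` under `Tg y` reaches `y`. -/
theorem engel_of_T {G : Type} [Group G] {x y : G} {j : ℕ} (h : (Tg y)^[j] (x⁻¹ * y * x) = y) :
    engelComm x y (j + 1) = 1 := by
  rw [engelComm_eq]
  exact (cm_iter_eq_one_iff x y j).2 h

/-- A central extension of an Engel group is an Engel group. -/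
theorem isEngel_of_central {E Q : Type} [Group E] [Group Q] (π : E →* Q)
    (hπ : ∀ e, π e = 1 → e ∈ Subgroup.center E)
    (hQ : ∀ x y : E, ∃ n, 1 ≤ n ∧ (cm (π y))^[n] (π x) = 1) : IsEngel E := by
  intro x y
  obtain ⟨n, hn, h⟩ := hQ x y
  refine ⟨n + 1, by omega, ?_⟩
  rw [engelComm_eq, Function.iterate_succ_apply']
  rw [← map_cm_iter] at h
  have h1 := hπ _ h
  rw [Subgroup.mem_center_iff] at h1
  simp only [cm]
  rw [mul_assoc _ y⁻¹, h1 y⁻¹]
  simp

end Pool.Agent.Lib.H14E
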