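import Pool.Agent.Lib.H14E.DispFin

/-!
# H14E / NoSwap: torsion elements have small displacement; no element swaps far points
-/

set_option autoImplicit false

namespace Pool.Agent.Lib.H14E

open Pool.Agent.Lib.H76.Morse GeoMet

variable {X : Type} [GeoMet X] {G : Type} [Group G] [MulAction G X]

/-- If `g` moves no point by less than `3 δ + 1` and moves `x` almost minimally then `g` has
infinite order. -/
theorem dsp_pow_grow {δ : ℕ} (hyp : Hyp δ X) (hiso : IsoAct G X) (g : G) (x : X)
    (h2 : 2 * dsp g x ≤ d x (g • g • x) + 2 * δ + 2) (h3 : 3 * δ + 2 < dsp g x) (n : ℕ) :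
    d x (g ^ n • x) + 1 ≤ d x (g ^ (n + 1) • x) := by
  induction n with
  | zero =>
    have : dsp g x = d x (g • x) := rfl
    rw [pow_zero, one_smul, d_self, zero_add, pow_one]
    omega
  | succ n ih =>
    have i1 : d (g ^ n • x) (g ^ (n + 1) • x) = dsp g x := by
      rw [pow_succ, mul_smul]
      exact hiso _ _ _
    have i2 : d (g ^ (n + 1) • x) (g ^ (n + 1 + 1) • x) = dsp g x := by
      rw [pow_succ g (n + 1), mul_smul]
      exact hiso _ _ _
    have i3 : d (g ^ n • x) (g ^ (n + 1 + 1) • x) = d x (g • g • x) := by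
      rw [pow_succ g (n + 1), pow_succ, mul_smul, mul_smul]
      exact hiso _ _ _
    have h4 := four hyp x (g ^ n • x) (g ^ (n + 1) • x) (g ^ (n + 1 + 1) • x)
    omega

theorem dsp_torsion {δ : ℕ} (hyp : Hyp δ X) (hiso : IsoAct G X) [Nonempty X] (g : G)
    (hg : IsOfFinOrder g) : ∃ x : X, dsp g x ≤ 3 * δ + 2 := by
  classical
  by_contra hcon
  push Not at hcon
  -- a point with minimal displacement
  obtain ⟨x, hx⟩ : ∃ x : X, ∀ y : X, dsp g x ≤ dsp g y :=
    ⟨Function.argmin (fun x : X => dsp g x), fun y =>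
      Function.argmin_le (fun x : X => dsp g x) y⟩
  have hsq : 2 * dsp g x ≤ d x (g • g • x) + 2 * δ + 2 := by
    obtain ⟨q, h1, h2⟩ := exists_pt x (g • x) (t := dsp g x / 2) (by unfold dsp; omega)
    have hq := hx q
    have h0 := hcon x
    unfold dsp at *
    have i1 := hiso g x q
    have i2 := hiso g q (g • x)
    have i3 := hiso g x (g • x)
    have a1 := four hyp q x (g • q) (g • x)
    have a2 := four hyp (g • q) (g • x) x (g • g • x)
    have c1 := d_comm q x
    have c2 := d_comm (g • q) x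
    have c3 := d_comm (g • q) (g • x)
    have c4 := d_comm (g • x) x
    have c5 := d_comm x (g • g • x)
    have c6 := d_comm (g • q) (g • g • x)
    have c7 := d_comm (g • g • x) (g • x)
    omega
  have hgrow := dsp_pow_grow hyp hiso g x hsq (hcon x)
  have hmono : ∀ n : ℕ, n ≤ d x (g ^ n • x) := by
    intro n
    induction n with
    | zero => exact Nat.zero_le _
    | succ n ih => have := hgrow n; omega
  obtain ⟨n, hn, hn1⟩ := hg.exists_pow_eq_one
  have h5 := hmono n
  rw [hn1, one_smul, d_self] at h5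
  omega

/-- Step 1 of the no-swap lemma: `h` almost swaps `y` and `z`, `k` commutes with `h` and moves
`y` and `z` little. Then `k` moves the midpoint little, with a bound independent of `k`. -/
theorem swap_mid {δ ε e : ℕ} (hyp : Hyp δ X) (hiso : IsoAct G X) {h k : G} {y z o : X}
    (hy : d (h • y) z ≤ ε) (hz : d (h • z) y ≤ ε) (hk : h * k = k * h) (ky : dsp k y ≤ e)
    (kz : dsp k z ≤ e) (ho1 : d y o = d y z / 2) (ho2 : d o z = d y z - d y z / 2)
    (hL : 2 * e + 4 * ε + 10 * δ + 10 ≤ d y z) :
    dsp k o ≤ 6 * ε + 12 * δ + 12 := by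
  unfold dsp at *
  -- distances of `k o` to `y` and `z`
  have i1 := hiso k y o
  have i2 := hiso k o z
  have i3 := hiso k y z
  have i4 := hiso h y (k • o)
  have i5 := hiso k o (h • o)
  have i6 := hiso h y o
  have i7 := hiso h o z
  have ehk : h • k • o = k • h • o := by rw [← mul_smul, hk, mul_smul]
  rw [ehk] at i4
  -- `o` and `h o` are close
  have a1 := hyp o (h • o) y z
  have t1 := d_tri y (h • z) (h • o)
  have t2 := d_tri z (h • y) (h • o)
  have t3 := d_tri y (h • o) z
  -- `k o` almost on the geodesic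
  have b1 := hyp y (k • o) (k • y) (k • z)
  have b2 := hyp z (k • o) (k • y) (k • z)
  have b3 := hyp y (k • z) z (k • y)
  have b4 := hyp o (k • o) y z
  have t4 := d_tri y (k • o) z
  -- comparison of the distances to `y` and `z`
  have t5 := d_tri (h • y) z (k • h • o)
  have t6 := d_tri z (k • o) (k • h • o)
  have t7 := d_tri z (k • h • o) (k • o)
  have t8 := d_tri z (h • y) (k • h • o)
  have c1 := d_comm y (h • z)
  have c2 := d_comm z (h • y)
  have c3 := d_comm (h • o) y
  have c4 := d_comm (h • o) z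
  have c5 := d_comm (h • z) (h • o)
  have c6 := d_comm (k • o) y
  have c7 := d_comm (k • o) z
  have c8 := d_comm (k • h • o) (k • o)
  have c9 := d_comm (k • o) (k • y)
  have c10 := d_comm o y
  have c11 := d_comm z y
  have c12 := d_comm (k • y) y
  have c13 := d_comm (k • z) y
  have c14 := d_comm (k • y) z
  have c15 := d_comm (k • z) z
  have c16 := d_comm (k • z) (k • y)
  have c17 := d_comm (k • h • o) z
  omega

theorem dsp_pow_le (hiso : IsoAct G X) (g : G) (x : X) (n : ℕ) : dsp (g ^ n) x ≤ n * dsp g x := by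
  induction n with
  | zero =>
    rw [pow_zero]
    unfold dsp
    rw [one_smul, d_self]
    exact Nat.zero_le _
  | succ n ih =>
    have := dsp_mul_le hiso (g ^ n) g x
    rw [pow_succ, Nat.succ_mul]
    omega

/-- No element of `G` almost swaps two points which are far apart. -/
theorem noswap {p : ℕ} (hp : p.Prime) (hp2 : p ≠ 2) {δ : ℕ} (hX : Hyp δ X) (hG : Geom G X)
    (hT : PTors p G) (ε : ℕ) :
    ∃ R : ℕ, ∀ (h : G) (y z : X), d (h • y) z ≤ ε → d (h • z) y ≤ ε → d y z ≤ R := by
  obtain ⟨N, hN⟩ := exists_pigeon hG (6 * ε + 12 * δ + 12)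
  refine ⟨2 * (N * (2 * ε)) + 4 * ε + 10 * δ + 10, ?_⟩
  intro h y z hy hz
  by_contra hcon
  push Not at hcon
  have i1 := hG.iso h (h • y) z
  have i2 := hG.iso h (h • z) y
  have hgy : dsp (h * h) y ≤ 2 * ε := by
    unfold dsp
    rw [mul_smul]
    have t := d_tri y (h • z) (h • h • y)
    have c1 := d_comm y (h • z)
    have c2 := d_comm (h • z) (h • h • y)
    omega
  have hgz : dsp (h * h) z ≤ 2 * ε := by
    unfold dsp
    rw [mul_smul]
    have t := d_tri z (h • y) (h • h • z)
    have c1 := d_comm z (h • y)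
    have c2 := d_comm (h • y) (h • h • z)
    omega
  obtain ⟨o, ho1, ho2⟩ := exists_pt y z (t := d y z / 2) (by omega)
  -- all small powers of `h²` move the midpoint little
  have hpow : ∀ i ≤ N, dsp ((h * h) ^ i) o ≤ 6 * ε + 12 * δ + 12 := by
    intro i hi
    have e1 : dsp ((h * h) ^ i) y ≤ N * (2 * ε) :=
      (dsp_pow_le hG.iso _ y i).trans (Nat.mul_le_mul hi hgy)
    have e2 : dsp ((h * h) ^ i) z ≤ N * (2 * ε) :=
      (dsp_pow_le hG.iso _ z i).trans (Nat.mul_le_mul hi hgz)
    refine swap_mid hX hG.iso (h := h) hy hz ?_ e1 e2 ho1 ho2 (by omega)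
    exact ((Commute.refl h).mul_right (Commute.refl h)).pow_right i
  obtain ⟨i, j, hij, hjN, he⟩ := hN o _ hpow
  -- `h²` has order at most `N`
  have h1 : (h * h) ^ (j - i) = 1 := by
    have : (h * h) ^ i * (h * h) ^ (j - i) = (h * h) ^ i * 1 := by
      rw [← pow_add, mul_one, he]
      congr 1
      omega
    exact mul_left_cancel this
  have hfin : IsOfFinOrder h := by
    rw [isOfFinOrder_iff_pow_eq_one]
    refine ⟨2 * (j - i), by omega, ?_⟩
    rw [pow_mul, pow_two]
    exact h1
  obtain ⟨k, hk⟩ := hT h hfin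
  -- `h` is a small power of `h²`
  have hodd : Odd (orderOf h) := by
    have h2 : orderOf h ∣ p ^ k := orderOf_dvd_of_pow_eq_one hk
    exact (Odd.pow (hp.odd_of_ne_two hp2)).of_dvd_nat h2
  obtain ⟨n, hn⟩ := hodd
  have h3 : (h * h) ^ (n + 1) = h := by
    have e : (h * h) ^ (n + 1) = h ^ (orderOf h) * h := by
      rw [← pow_two, ← pow_mul, ← pow_succ, hn]
      congr 1
    rw [e, pow_orderOf_eq_one, one_mul]
  have h4 : (h * h) ^ ((n + 1) % (j - i)) = h := by
    have e : (h * h) ^ (n + 1) = (h * h) ^ ((n + 1) % (j - i)) := by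
      conv_lhs => rw [← Nat.mod_add_div (n + 1) (j - i)]
      rw [pow_add, pow_mul (h * h) (j - i), h1, one_pow, mul_one]
    rw [← e, h3]
  have h5 : (n + 1) % (j - i) < j - i := Nat.mod_lt _ (by omega)
  have h6 : dsp h y ≤ N * (2 * ε) := by
    have := dsp_pow_le hG.iso (h * h) y ((n + 1) % (j - i))
    rw [h4] at this
    exact this.trans (Nat.mul_le_mul (by omega) hgy)
  have h7 : d y z ≤ dsp h y + d (h • y) z := d_tri y (h • y) z
  omega

end Pool.Agent.Lib.H14E
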