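import Pool.Agent.Lib.H14E.NoSwap

/-!
# H14E / PS1: P-step, the sequence `b j` goes to infinity
-/

set_option autoImplicit false

namespace Pool.Agent.Lib.H14E

open Pool.Agent.Lib.H76.Morse GeoMet

/-- The data of the P-step. -/
structure PData (p δ : ℕ) {G : Type} (X : Type) [Group G] [GeoMet X] [MulAction G X] (a : G)
    (b : ℕ → G) : Prop where
  hp : p.Prime
  hp2 : p ≠ 2
  hX : Hyp δ X
  hG : Geom G X
  hT : PTors p G
  hN : NoRec G
  ha : IsOfFinOrder a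
  hb : ∀ j, b (j + 1) = b j * a * (b j)⁻¹
  hne : ∀ j, b j ≠ a

namespace PData

variable {p δ : ℕ} {X : Type} [GeoMet X] {G : Type} [Group G] [MulAction G X] {a : G} {b : ℕ → G}

theorem shift (P : PData p δ X a b) (J : ℕ) : PData p δ X a (fun j => b (j + J)) where
  hp := P.hp
  hp2 := P.hp2
  hX := P.hX
  hG := P.hG
  hT := P.hT
  hN := P.hN
  ha := P.ha
  hb := fun j => by
    have := P.hb (j + J)
    rwa [show j + J + 1 = j + 1 + J by omega] at this
  hne := fun j => P.hne (j + J)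

theorem iter (P : PData p δ X a b) (i k : ℕ) : (Tg a)^[k] (b i) = b (i + k) := by
  induction k with
  | zero => rfl
  | succ k ih => rw [Function.iterate_succ_apply', ih, Tg, ← P.hb, add_assoc]

/-- Far away elements: no point is moved little by both `a` and `b j`. -/
theorem far (P : PData p δ X a b) (L : ℕ) :
    ∃ J, ∀ j, J ≤ j → ∀ y : X, L < max (dsp a y) (dsp (b j) y) := by
  by_contra hcon
  push Not at hcon
  obtain ⟨φ, hφ, h⟩ := Filter.extraction_of_frequently_atTop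
    (P := fun j => ∃ y : X, max (dsp a y) (dsp (b j) y) ≤ L)
    (Filter.frequently_atTop.mpr (fun J => by
      obtain ⟨j, hj, y, hy⟩ := hcon J
      exact ⟨j, hj, y, hy⟩))
  choose y hy using h
  obtain ⟨i, j, hij, g, hg1, hg2⟩ := exists_conj_pair P.hG L (fun _ => a) (fun i => b (φ i)) y
    (fun i => (le_max_left _ _).trans (hy i)) (fun i => (le_max_right _ _).trans (hy i))
  have hlt : φ i < φ j := hφ hij
  refine P.hne (φ i) (P.hN a (b (φ i)) g (φ j - φ i) (by omega) ?_ ?_)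
  · calc g * a = (g * a * g⁻¹) * g := by group
      _ = a * g := by rw [hg1]
  · rw [P.iter, hg2]
    congr 1
    omega

theorem conj_pt (P : PData p δ X a b) (x : X) (j : ℕ) :
    dsp (b (j + 1)) (b j • x) = dsp a x := by
  rw [P.hb, dsp_conj P.hG.iso, inv_smul_smul]

end PData

/-- Bound for the common part of `[x, b x]` and `a [x, b x]`. -/
theorem gp_le_of_far {δ : ℕ} {X : Type} [GeoMet X] {G : Type} [Group G] [MulAction G X]
    (hX : Hyp δ X) (hiso : IsoAct G X) {a b : G} {r D : ℕ} {x y0 : X} (hr : dsp b y0 ≤ r)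
    (hD : ∀ y : X, D < max (dsp a y) (dsp b y)) (h1 : 3 * dsp a x + 2 * δ + 1 ≤ D)
    (h2 : r + 3 * δ + 3 ≤ D) :
    gp x (b • x) (a • b • x) + D ≤ dsp b x + 2 * δ + 3 := by
  obtain ⟨q, hq1, hq2⟩ := exists_pt x (b • x)
    (t := min (gp x (b • x) (a • b • x) / 2) (dsp b x / 2)) (by unfold dsp; omega)
  have e : dsp b x = d x (b • x) := rfl
  have h3 := dsp_of_gp hX hiso a (x := x) (y := b • x) (q := q) (by omega) (by omega)
  have h4 := dsp_half hX hiso b (x := x) (q := q) y0 (by omega) (by omega)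
  have h5 := hD q
  omega

/-- The relations between consecutive elements. -/
theorem step_gp {X : Type} [GeoMet X] {G : Type} [Group G] [MulAction G X]
    (hiso : IsoAct G X) {a b b' : G} (hb : b' = b * a * b⁻¹) (x : X) :
    gp x (b • x) (b' • x) + gp x (b⁻¹ • x) (a • b⁻¹ • x) = 2 * dsp b x ∧
      2 * dsp b x ≤ dsp b' x + dsp a x + gp x (b⁻¹ • x) (a • b⁻¹ • x) ∧
      2 * dsp b x ≤ gp x (b • x) (b'⁻¹ • x) + 2 * dsp a x + gp x (b⁻¹ • x) (a • b⁻¹ • x) ∧
      dsp b' x ≤ 2 * dsp b x + dsp a x := by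
  unfold dsp
  have e1 : b' • x = b • a • b⁻¹ • x := by rw [hb, mul_smul, mul_smul]
  have e2 : b'⁻¹ • x = b • a⁻¹ • b⁻¹ • x := by
    rw [hb, ← mul_smul, ← mul_smul]
    congr 1
    group
  rw [e1, e2]
  have i1 := hiso b x (a • b⁻¹ • x)
  have i2 := hiso b x (a⁻¹ • b⁻¹ • x)
  have i3 := hiso b (b⁻¹ • x) (a • b⁻¹ • x)
  have i4 := hiso b (b⁻¹ • x) (a⁻¹ • b⁻¹ • x)
  have i5 := hiso b (b⁻¹ • x) x
  have i6 := hiso a x (a⁻¹ • b⁻¹ • x)
  have i7 := hiso a (b⁻¹ • x) (a⁻¹ • b⁻¹ • x)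
  have i8 := hiso a x (b⁻¹ • x)
  rw [smul_inv_smul] at i3 i4 i5 i6 i7
  have g1 := gp_add x (b • x) (b • a • b⁻¹ • x)
  have g2 := gp_add x (b⁻¹ • x) (a • b⁻¹ • x)
  have g3 := gp_add x (b • x) (b • a⁻¹ • b⁻¹ • x)
  have t1 := d_tri (a • x) x (a • b⁻¹ • x)
  have t2 := d_tri x (a • x) (a • b⁻¹ • x)
  have t3 := d_tri (a • x) x (b⁻¹ • x)
  have t4 := d_tri x (a • x) (b⁻¹ • x)
  have c1 := d_comm (a • x) x
  have c2 := d_comm (b⁻¹ • x) x
  have c3 := d_comm (a • b⁻¹ • x) (b⁻¹ • x)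
  omega

end Pool.Agent.Lib.H14E
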