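import Pool.Agent.Lib.H14E.PS9

/-!
# H14E / PS10: overlaps of translates of the tree of `D`
-/

set_option autoImplicit false

namespace Pool.Agent.Lib.H14E

open Pool.Agent.Lib.H76.Morse GeoMet

variable {X : Type} [GeoMet X] {G : Type} [Group G] [MulAction G X]

/-- Two overlapping edges of a line which are matched with opposite directions: two far points
are almost swapped. -/
theorem swap_line {δ η e e' τ ℓ : ℕ} (hX : Hyp δ X) (hiso : IsoAct G X) (f : G)
    {u v y0 y1 z0 z1 : X} (hy0 : d u y0 + d y0 v ≤ d u v + η) (hy1 : d u y1 + d y1 v ≤ d u v + η)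
    (hz0 : d u z0 + d z0 v ≤ d u v + η) (hz1 : d u z1 + d z1 v ≤ d u v + η)
    (h1 : d u y0 ≤ d u z0) (h2 : d u z0 ≤ d u y1 + τ)
    (l1 : ℓ ≤ d y0 y1 + e') (l1' : d y0 y1 ≤ ℓ + e') (l2 : ℓ ≤ d z0 z1 + e')
    (l2' : d z0 z1 ≤ ℓ + e') (o1 : d u y0 ≤ d u y1) (o2 : d u z0 ≤ d u z1)
    (f1 : d (f • y0) z1 ≤ e) (f2 : d (f • y1) z0 ≤ e) :
    d (f • z0) y1 ≤ 3 * e + 4 * e' + 4 * η + 6 * δ + 4 * τ := by
  -- upper and lower bounds of the distances
  have n1 := near_line hX hy0 hz0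
  have n2 := near_line hX hz0 hy1
  have n3 := near_line hX hy1 hz1
  have n4 := near_line hX hy0 hy1
  have n5 := near_line hX hz0 hz1
  have t1 := d_tri u y0 y1
  have t2 := d_tri u z0 z1
  have t3 := d_tri u z0 y1
  -- the point `f z0`
  have i1 := hiso f z0 y0
  have i2 := hiso f y1 z0
  have t4 := d_tri z0 (f • y1) (f • z0)
  have t5 := d_tri (f • z0) (f • y0) z1
  have t6 := d_tri (f • z0) z0 (f • y1)
  have c1 := d_comm z0 (f • y1)
  have c2 := d_comm (f • z0) (f • y0)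
  have c3 := d_comm y0 z0
  have c4 := d_comm y1 z0
  have c5 := d_comm (f • z0) z0
  have c6 := d_comm (f • z0) (f • y1)
  have d1 : d z0 (f • z0) + d (f • z0) z1 ≤ d z0 z1 + (2 * e + 2 * e' + 2 * η + 2 * δ + 2 * τ) := by
    omega
  have d2 : d z0 y1 + d y1 z1 ≤ d z0 z1 + (4 * e' + 4 * η + 4 * δ + 2 * τ) := by
    omega
  have d3 : d z0 (f • z0) ≤ d z0 y1 + e := by omega
  have d4 : d z0 y1 ≤ d z0 (f • z0) + e := by omega
  have n6 := near_line hX d1 d2
  omega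

theorem exists_index (P : ℕ → X) (N : ℕ) (u : X) (z : ℕ) (h0 : d u (P 0) ≤ z)
    (hN : z < d u (P N)) : ∃ i, i < N ∧ d u (P i) ≤ z ∧ z < d u (P (i + 1)) := by
  classical
  have hex : ∃ i, z < d u (P i) := ⟨N, hN⟩
  have h1 := Nat.find_spec hex
  have h2 : Nat.find hex ≠ 0 := by
    intro h
    rw [h] at h1
    omega
  have h3 : Nat.find hex ≤ N := Nat.find_min' hex hN
  refine ⟨Nat.find hex - 1, by omega, ?_, ?_⟩
  · have := Nat.find_min hex (m := Nat.find hex - 1) (by omega)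
    omega
  · rw [show Nat.find hex - 1 + 1 = Nat.find hex by omega]
    exact h1

namespace PGeo

variable {δ s ℓ : ℕ} {x : X} {c : G} {A B S : Subgroup G}

theorem dvtx (Q : PGeo δ s ℓ x c A B S) (t : Bool) : d x (vt x c t) ≤ ℓ := by
  cases t
  · exact Q.len.le
  · show d x x ≤ ℓ
    rw [d_self]
    exact Nat.zero_le _

theorem ends (Q : PGeo δ s ℓ x c A B S) (t0 : Bool) (w : ℕ → G) (n : ℕ)
    {s0 : G} (hs0 : s0 ∈ S) {g1 g2 : G} (he : g1⁻¹ * g2 = hp w n * s0) :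
    d (g1 • x) (g1 • pth x c t0 w 0) ≤ ℓ ∧ d (g2 • x) (g1 • pth x c t0 w (n + 1)) ≤ ℓ + s := by
  constructor
  · rw [Q.iso]
    exact Q.dvtx _
  · have e : g2 = g1 * (hp w n * s0) := by rw [← he]; group
    have e2 : g2 • x = g1 • hp w n • s0 • x := by rw [e, mul_smul, mul_smul]
    rw [e2, Q.iso]
    show d (hp w n • s0 • x) (hp w n • vt x c (alt t0 n)) ≤ ℓ + s
    rw [Q.iso]
    have h1 := Q.dA s0 (Q.SA hs0)
    have h2 := Q.dvtx (alt t0 n)
    have t1 := d_tri (s0 • x) x (vt x c (alt t0 n))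
    have c1 := d_comm (s0 • x) x
    unfold dsp at h1
    omega

theorem line_path (Q : PGeo δ s ℓ x c A B S) {t0 : Bool} {w : ℕ → G} {n ρ : ℕ}
    (hw : Alt A B S t0 w n) (g : G) {u v : X} (hu : d u (g • pth x c t0 w 0) ≤ ρ)
    (hv : d v (g • pth x c t0 w (n + 1)) ≤ ρ) (i : ℕ) (hi : i ≤ n + 1)
    (h1 : 2 * ρ + 3 * s + 4 * δ + 1 ≤ d u (g • pth x c t0 w i))
    (h2 : 2 * ρ + 3 * s + 4 * δ + 1 ≤ d (g • pth x c t0 w i) v) :
    d u (g • pth x c t0 w i) + d (g • pth x c t0 w i) v ≤ d u v + (3 * s + 4 * δ) := by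
  have f1 := Q.pth_defect hw i hi
  rw [← gp_smul Q.iso g] at f1
  have t1 := d_tri u (g • pth x c t0 w 0) (g • pth x c t0 w i)
  have t2 := d_tri (g • pth x c t0 w i) (g • pth x c t0 w (n + 1)) v
  have c1 := d_comm (g • pth x c t0 w i) (g • pth x c t0 w 0)
  have c2 := d_comm v (g • pth x c t0 w (n + 1))
  have c3 := d_comm u (g • pth x c t0 w 0)
  have f2 := defect_move (r := ρ) Q.hX f1 (u' := u) (v' := v) (by omega) (by omega) (by omega)
    (by omega)
  have f3 := gp_add (g • pth x c t0 w i) u v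
  have c4 := d_comm (g • pth x c t0 w i) u
  omega

theorem edge' (Q : PGeo δ s ℓ x c A B S) {t0 : Bool} {w : ℕ → G} {n : ℕ}
    (hw : Alt A B S t0 w n) (g : G) (i : ℕ) (hi : i ≤ n) :
    ℓ ≤ d (g • pth x c t0 w i) (g • pth x c t0 w (i + 1)) + s ∧
      d (g • pth x c t0 w i) (g • pth x c t0 w (i + 1)) ≤ ℓ + s := by
  rw [Q.iso]
  exact Q.edge hw i hi

theorem near_edge' (Q : PGeo δ s ℓ x c A B S) {t0 : Bool} {w : ℕ → G} {n : ℕ}
    (hw : Alt A B S t0 w n) (g : G) (i : ℕ) (hi : i ≤ n) :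
    d (g • pth x c t0 w i) ((g * hp w i) • vt x c (!alt t0 i)) ≤ s := by
  rw [mul_smul, Q.iso]
  exact Q.near_edge hw i hi

theorem end_edge' (x : X) (c : G) (t0 : Bool) (w : ℕ → G) (g : G) (i : ℕ) :
    g • pth x c t0 w (i + 1) = (g * hp w i) • vt x c (alt t0 i) := by
  rw [mul_smul]
  rfl

theorem turn' (Q : PGeo δ s ℓ x c A B S) {t0 : Bool} {w : ℕ → G} {n : ℕ}
    (hw : Alt A B S t0 w n) (g : G) (i : ℕ) (hi : i + 2 ≤ n + 1) :
    gp (g • pth x c t0 w (i + 1)) (g • pth x c t0 w i) (g • pth x c t0 w (i + 2)) ≤ 3 * s := by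
  rw [gp_smul Q.iso]
  exact Q.turn hw i hi

/-- The final step: the edges match, so the group elements differ by an element of `S`. -/
theorem match_edges (Q : PGeo δ s ℓ x c A B S) {K : ℕ}
    (stab : ∀ k : G, dsp k x ≤ K → dsp k (c • x) ≤ K → k ∈ S) {H H' : G} (t : Bool)
    (h1 : d (H • vt x c t) (H' • vt x c t) ≤ K)
    (h2 : d (H • vt x c (!t)) (H' • vt x c (!t)) ≤ K) : H⁻¹ * H' ∈ S := by
  have key : ∀ t : Bool, d (H • vt x c t) (H' • vt x c t) ≤ K → dsp (H⁻¹ * H') (vt x c t) ≤ K := by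
    intro t h
    unfold dsp
    rw [mul_smul]
    have := Q.iso H (vt x c t) (H⁻¹ • H' • vt x c t)
    rw [smul_inv_smul] at this
    omega
  cases t
  · exact stab _ (key true h2) (key false h1)
  · exact stab _ (key true h1) (key false h2)

/-- Bounded overlap. -/
theorem overlap (Q : PGeo δ s ℓ x c A B S) {R ε K : ℕ}
    (hR : ∀ (h : G) (y z : X), d (h • y) z ≤ ε → d (h • z) y ≤ ε → d y z ≤ R)
    (hε : 100 * (s + δ + 1) ≤ ε) (hK : R + 100 * (s + δ + 1) ≤ K) (hℓ : 10 * K ≤ ℓ)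
    (stab : ∀ k : G, dsp k x ≤ K → dsp k (c • x) ≤ K → k ∈ S) (r : ℕ) (g : G) (u v : X)
    (hu1 : Near (A ⊔ B) x r 1 u) (hv1 : Near (A ⊔ B) x r 1 v) (hu2 : Near (A ⊔ B) x r g u)
    (hv2 : Near (A ⊔ B) x r g v) (hL : 20 * (ℓ + r + s + δ + 1) < d u v) : g ∈ A ⊔ B := by
  obtain ⟨a1, ha1, hu1⟩ := hu1
  obtain ⟨a2, ha2, hv1⟩ := hv1
  obtain ⟨b1, hb1, hu2⟩ := hu2
  obtain ⟨b2, hb2, hv2⟩ := hv2
  rw [one_mul] at hu1 hv1
  obtain ⟨n, t0, w, hw, s0, hs0, e0⟩ := exists_NF Q.SA Q.SB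
    (Subgroup.mul_mem _ (Subgroup.inv_mem _ ha1) ha2)
  obtain ⟨n', t0', w', hw', s0', hs0', e0'⟩ := exists_NF Q.SA Q.SB
    (Subgroup.mul_mem _ (Subgroup.inv_mem _ hb1) hb2)
  have e0'' : (g * b1)⁻¹ * (g * b2) = hp w' n' * s0' := by rw [← e0']; group
  obtain ⟨k1, k2⟩ := Q.ends t0 w n hs0 e0
  obtain ⟨k3, k4⟩ := Q.ends t0' w' n' hs0' e0''
  set P : ℕ → X := fun i => a1 • pth x c t0 w i with hP
  set P' : ℕ → X := fun i => (g * b1) • pth x c t0' w' i with hP'
  set ρ := r + ℓ + s with hρ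
  have m1 : d u (P 0) ≤ ρ := by
    have t1 := d_tri u (a1 • x) (P 0)
    have e : d (a1 • x) (P 0) ≤ ℓ := k1
    omega
  have m2 : d v (P (n + 1)) ≤ ρ := by
    have t1 := d_tri v (a2 • x) (P (n + 1))
    have e : d (a2 • x) (P (n + 1)) ≤ ℓ + s := k2
    omega
  have m3 : d u (P' 0) ≤ ρ := by
    have t1 := d_tri u ((g * b1) • x) (P' 0)
    have e : d ((g * b1) • x) (P' 0) ≤ ℓ := k3
    omega
  have m4 : d v (P' (n' + 1)) ≤ ρ := by
    have t1 := d_tri v ((g * b2) • x) (P' (n' + 1))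
    have e : d ((g * b2) • x) (P' (n' + 1)) ≤ ℓ + s := k4
    omega
  have c1 := d_comm v (P (n + 1))
  have c2 := d_comm v (P' (n' + 1))
  have t1 := d_tri u (P (n + 1)) v
  have t2 := d_tri u (P' (n' + 1)) v
  -- the edge of the second path
  obtain ⟨j, hj, hj1, hj2⟩ := exists_index P' (n' + 1) u (d u v / 2) (by omega) (by omega)
  have E1 := Q.edge' hw' (g * b1) j (by omega)
  change ℓ ≤ d (P' j) (P' (j + 1)) + s ∧ d (P' j) (P' (j + 1)) ≤ ℓ + s at E1
  have t3 := d_tri u (P' j) (P' (j + 1))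
  -- the edge of the first path
  obtain ⟨i, hi, hi1, hi2⟩ := exists_index P (n + 1) u (d u (P' j)) (by omega) (by omega)
  have E2 := Q.edge' hw a1 i (by omega)
  change ℓ ≤ d (P i) (P (i + 1)) + s ∧ d (P i) (P (i + 1)) ≤ ℓ + s at E2
  have t4 := d_tri u (P i) (P (i + 1))
  have hin : i + 1 ≤ n := by
    by_contra hcon
    have : i + 1 = n + 1 := by omega
    rw [this] at t4 E2
    omega
  have E3 := Q.edge' hw a1 (i + 1) (by omega)
  change ℓ ≤ d (P (i + 1)) (P (i + 2)) + s ∧ d (P (i + 1)) (P (i + 2)) ≤ ℓ + s at E3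
  have t5 := d_tri u (P (i + 1)) (P (i + 2))
  have t6 := d_tri u (P (i + 2)) (P (i + 1))
  have c3 := d_comm (P (i + 2)) (P (i + 1))
  have t7 := d_tri u (P i) v
  have t8 := d_tri u (P (i + 1)) v
  have t9 := d_tri u (P (i + 2)) v
  have t10 := d_tri u (P' j) v
  have t11 := d_tri u (P' (j + 1)) v
  -- all five points are almost on the geodesic
  have F0 := Q.line_path hw a1 m1 m2 i (by omega)
    (by change _ ≤ d u (P i); omega) (by change _ ≤ d (P i) v; omega)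
  have F1 := Q.line_path hw a1 m1 m2 (i + 1) (by omega)
    (by change _ ≤ d u (P (i + 1)); omega) (by change _ ≤ d (P (i + 1)) v; omega)
  have F2 := Q.line_path hw a1 m1 m2 (i + 2) (by omega)
    (by change _ ≤ d u (P (i + 2)); omega) (by change _ ≤ d (P (i + 2)) v; omega)
  have F3 := Q.line_path hw' (g * b1) m3 m4 j (by omega)
    (by change _ ≤ d u (P' j); omega) (by change _ ≤ d (P' j) v; omega)
  have F4 := Q.line_path hw' (g * b1) m3 m4 (j + 1) (by omega)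
    (by change _ ≤ d u (P' (j + 1)); omega) (by change _ ≤ d (P' (j + 1)) v; omega)
  change d u (P i) + d (P i) v ≤ d u v + (3 * s + 4 * δ) at F0
  change d u (P (i + 1)) + d (P (i + 1)) v ≤ d u v + (3 * s + 4 * δ) at F1
  change d u (P (i + 2)) + d (P (i + 2)) v ≤ d u v + (3 * s + 4 * δ) at F2
  change d u (P' j) + d (P' j) v ≤ d u v + (3 * s + 4 * δ) at F3
  change d u (P' (j + 1)) + d (P' (j + 1)) v ≤ d u v + (3 * s + 4 * δ) at F4
  -- the first path goes on in the same direction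
  have T := Q.turn' hw a1 i (by omega)
  change gp (P (i + 1)) (P i) (P (i + 2)) ≤ 3 * s at T
  have T1 := gp_add (P (i + 1)) (P i) (P (i + 2))
  have T2 := near_line Q.hX F0 F2
  have T3 := near_line Q.hX F1 F2
  have T4 := near_line Q.hX F0 F1
  have T5 := near_line Q.hX F3 F4
  have c4 := d_comm (P (i + 1)) (P i)
  have hdir : d u (P (i + 1)) ≤ d u (P (i + 2)) := by omega
  -- the group elements of the edges
  have N1 := Q.near_edge' hw a1 i (by omega)
  have N2 := Q.near_edge' hw a1 (i + 1) (by omega)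
  have N3 := Q.near_edge' hw' (g * b1) j (by omega)
  have M1 : P (i + 1) = (a1 * hp w i) • vt x c (alt t0 i) := end_edge' x c t0 w a1 i
  have M2 : P (i + 2) = (a1 * hp w (i + 1)) • vt x c (!alt t0 i) := end_edge' x c t0 w a1 (i + 1)
  have M3 : P' (j + 1) = ((g * b1) * hp w' j) • vt x c (alt t0' j) :=
    end_edge' x c t0' w' (g * b1) j
  rw [alt_succ, Bool.not_not] at N2
  set t := alt t0 i with ht
  set t' := alt t0' j with ht'
  set H1 := a1 * hp w i with hH1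
  set H2 := a1 * hp w (i + 1) with hH2
  set H' := (g * b1) * hp w' j with hH'
  change d (P i) (H1 • vt x c (!t)) ≤ s at N1
  change d (P (i + 1)) (H2 • vt x c t) ≤ s at N2
  change d (P' j) (H' • vt x c (!t')) ≤ s at N3
  have hfin : ∀ H : G, H ∈ A ⊔ B → H⁻¹ * H' ∈ S → g ∈ A ⊔ B := by
    intro H hH hS
    have h1 : H⁻¹ * H' ∈ A ⊔ B := (le_sup_left : A ≤ A ⊔ B) (Q.SA hS)
    have h2 := hp_mem hw' j (by omega)
    have e : g = H * (H⁻¹ * H') * (hp w' j)⁻¹ * b1⁻¹ := by rw [hH']; group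
    rw [e]
    exact Subgroup.mul_mem _ (Subgroup.mul_mem _ (Subgroup.mul_mem _ hH h1)
      (Subgroup.inv_mem _ h2)) (Subgroup.inv_mem _ hb1)
  have hact : ∀ (H : G) (y : X), (H' * H⁻¹) • (H • y) = H' • y := by
    intro H y
    rw [← mul_smul]
    congr 1
    group
  have hact2 : ∀ (H : G) (y : X), (H * H'⁻¹) • (H' • y) = H • y := by
    intro H y
    rw [← mul_smul]
    congr 1
    group
  rcases Bool.eq_or_eq_not t' t with htt | htt
  · -- same type as the edge `i`, opposite to the edge `i + 1`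
    rw [htt] at M3 N3
    have I1 := Q.iso (H2 * H'⁻¹) (P' j) (H' • vt x c (!t))
    rw [hact2, ← M2] at I1
    have I2 : d ((H2 * H'⁻¹) • P' (j + 1)) (P (i + 1)) ≤ s := by
      rw [M3, hact2, d_comm]
      exact N2
    have hsw := swap_line (ℓ := ℓ) (e := s) (e' := s) (τ := 10 * s + 10 * δ) Q.hX Q.iso
      (H2 * H'⁻¹) F3 F4 F1 F2 (by omega) (by omega) (by omega) (by omega) (by omega) (by omega)
      (by omega) (by omega) (by omega) I2
    have h1 := hR (H2 * H'⁻¹) (P (i + 1)) (P' (j + 1)) (by omega) (by omega)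
    have h2 := near_line Q.hX F0 F3
    have h3 := d_tri u (P' (j + 1)) (P (i + 1))
    have h4 := d_tri u (P (i + 1)) (P' (j + 1))
    have h5 := d_comm (P (i + 1)) (P' (j + 1))
    have h6 := d_tri u (P' j) (P' (j + 1))
    refine hfin H1 (Subgroup.mul_mem _ ha1 (hp_mem hw i (by omega))) ?_
    refine Q.match_edges stab t ?_ ?_
    · rw [← M1, ← M3]
      omega
    · have h7 := d_tri (H1 • vt x c (!t)) (P i) (H' • vt x c (!t))
      have h8 := d_tri (P i) (P' j) (H' • vt x c (!t))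
      have h9 := d_comm (H1 • vt x c (!t)) (P i)
      omega
  · -- opposite to the edge `i`
    have htt2 : (!t') = t := by rw [htt, Bool.not_not]
    rw [htt] at M3
    rw [htt2] at N3
    have I1 := Q.iso (H' * H1⁻¹) (P i) (H1 • vt x c (!t))
    rw [hact, ← M3] at I1
    have I2 : d ((H' * H1⁻¹) • P (i + 1)) (P' j) ≤ s := by
      rw [M1, hact, d_comm]
      exact N3
    have hsw := swap_line (ℓ := ℓ) (e := s) (e' := s) (τ := 10 * s + 10 * δ) Q.hX Q.iso
      (H' * H1⁻¹) F0 F1 F3 F4 (by omega) (by omega) (by omega) (by omega) (by omega) (by omega)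
      (by omega) (by omega) (by omega) I2
    have h1 := hR (H' * H1⁻¹) (P' j) (P (i + 1)) (by omega) (by omega)
    have h2 := near_line Q.hX F2 F4
    have h3 := d_tri u (P' j) (P (i + 1))
    refine hfin H2 (Subgroup.mul_mem _ ha1 (hp_mem hw (i + 1) (by omega))) ?_
    refine Q.match_edges stab t ?_ ?_
    · have h7 := d_tri (H2 • vt x c t) (P (i + 1)) (H' • vt x c t)
      have h8 := d_tri (P (i + 1)) (P' j) (H' • vt x c t)
      have h9 := d_comm (H2 • vt x c t) (P (i + 1))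
      have h10 := d_comm (P (i + 1)) (P' j)
      omega
    · rw [← M2, ← M3]
      omega

end PGeo

end Pool.Agent.Lib.H14E
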