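import Pool.Agent.Lib.H14E.PS10

/-!
# H14E / PS11: quasiconvexity of the orbit of `D`; peripheral pairs; lists of letters
-/

set_option autoImplicit false

namespace Pool.Agent.Lib.H14E

open Pool.Agent.Lib.H76.Morse GeoMet

variable {X : Type} [GeoMet X] {G : Type} [Group G] [MulAction G X]

namespace PGeo

variable {δ s ℓ : ℕ} {x : X} {c : G} {A B S : Subgroup G}

theorem near_pth (Q : PGeo δ s ℓ x c A B S) {t0 : Bool} {w : ℕ → G} {n : ℕ}
    (hw : Alt A B S t0 w n) {a1 : G} (ha1 : a1 ∈ A ⊔ B) (i : ℕ) (hi : i ≤ n) :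
    Near (A ⊔ B) x (s + ℓ) 1 (a1 • pth x c t0 w i) := by
  refine ⟨a1 * hp w i, Subgroup.mul_mem _ ha1 (hp_mem hw i hi), ?_⟩
  rw [one_mul]
  have h1 := Q.near_edge' hw a1 i hi
  have h2 := Q.dvtx (!alt t0 i)
  have h3 := Q.iso (a1 * hp w i) (vt x c (!alt t0 i)) x
  have t1 := d_tri (a1 • pth x c t0 w i) ((a1 * hp w i) • vt x c (!alt t0 i))
    ((a1 * hp w i) • x)
  have c1 := d_comm (vt x c (!alt t0 i)) x
  omega

theorem qc (Q : PGeo δ s ℓ x c A B S) : ∃ κ : ℕ, ∀ a ∈ A ⊔ B, ∀ b ∈ A ⊔ B, ∀ q : X,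
    d (a • x) q + d q (b • x) = d (a • x) (b • x) → Near (A ⊔ B) x κ 1 q := by
  refine ⟨20 * (ℓ + s + δ + 1), ?_⟩
  intro a1 ha1 a2 ha2 q hq
  obtain ⟨n, t0, w, hw, s0, hs0, e0⟩ := exists_NF Q.SA Q.SB
    (Subgroup.mul_mem _ (Subgroup.inv_mem _ ha1) ha2)
  obtain ⟨k1, k2⟩ := Q.ends t0 w n hs0 e0
  set P : ℕ → X := fun i => a1 • pth x c t0 w i with hP
  change d (a1 • x) (P 0) ≤ ℓ at k1
  change d (a2 • x) (P (n + 1)) ≤ ℓ + s at k2
  by_cases h1 : d (a1 • x) q < 2 * ℓ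
  · refine ⟨a1, ha1, ?_⟩
    rw [one_mul, d_comm]
    omega
  by_cases h2 : d q (a2 • x) < 2 * ℓ + 2 * s + 1
  · refine ⟨a2, ha2, ?_⟩
    rw [one_mul]
    omega
  have t1 := d_tri (a1 • x) (P (n + 1)) (a2 • x)
  have c1 := d_comm (P (n + 1)) (a2 • x)
  obtain ⟨i, hi, hi1, hi2⟩ := exists_index P (n + 1) (a1 • x) (d (a1 • x) q) (by omega) (by omega)
  have E1 := Q.edge' hw a1 i (by omega)
  change ℓ ≤ d (P i) (P (i + 1)) + s ∧ d (P i) (P (i + 1)) ≤ ℓ + s at E1
  have t3 := d_tri (a1 • x) (P i) (P (i + 1))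
  have f1 := Q.pth_defect hw i (by omega)
  rw [← gp_smul Q.iso a1] at f1
  change gp (P i) (P 0) (P (n + 1)) ≤ 3 * s + 2 * δ at f1
  have f2 := gp_move_left (P i) (a1 • x) (P 0) (a2 • x)
  have f3 := gp_move_right (P i) (P 0) (a2 • x) (P (n + 1))
  have f4 := gp_add (P i) (a1 • x) (a2 • x)
  have c2 := d_comm (P i) (a1 • x)
  have hn := near_line Q.hX (u := a1 • x) (v := a2 • x) (y := q) (y' := P i) (η := 0)
    (η' := 4 * ℓ + 5 * s + 2 * δ) (by omega) (by omega)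
  obtain ⟨g, hg, hg2⟩ := Q.near_pth hw ha1 i (by omega)
  change d (P i) ((1 * g) • x) ≤ s + ℓ at hg2
  refine ⟨g, hg, ?_⟩
  have t4 := d_tri q (P i) ((1 * g) • x)
  omega

end PGeo

/-- The product of the letters of a list. -/
theorem hp_eq_prod (w : ℕ → G) (n : ℕ) : hp w n = ((List.range n).map w).prod := by
  induction n with
  | zero => rfl
  | succ n ih =>
    rw [List.range_succ, List.map_append, List.prod_append, ← ih]
    simp [hp]

theorem list_word {A B S : Subgroup G} (l : List (Bool × G)) (hl : l ≠ [])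
    (h : ∀ q ∈ l, q.2 ∈ (if q.1 then A else B) ∧ q.2 ∉ S)
    (hc : l.IsChain (fun q q' => q.1 ≠ q'.1)) :
    ∃ (n : ℕ) (t0 : Bool) (w : ℕ → G), 1 ≤ n ∧ PGeo.Alt A B S t0 w n ∧
      hp w n = (l.map Prod.snd).prod := by
  have hlen : 1 ≤ l.length := List.length_pos_iff.mpr hl
  refine ⟨l.length, (l[0]).1, fun i => (l.getD i (true, 1)).2, hlen, ?_, ?_⟩
  · have halt : ∀ i, (hi : i < l.length) → (l[i]).1 = alt (l[0]).1 i := by
      intro i
      induction i with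
      | zero => intro hi; rfl
      | succ i ih =>
        intro hi
        have h1 := ih (by omega)
        have h2 := (List.isChain_iff_getElem.mp hc) i hi
        rw [alt_succ, ← h1]
        cases h3 : (l[i]).1 <;> cases h4 : (l[i + 1]).1 <;> simp_all
    intro i hi
    have h1 := h l[i] (List.getElem_mem hi)
    have h2 : (l.getD i (true, 1)) = l[i] := by simp [hi]
    show (l.getD i (true, 1)).2 ∈ sd A B (alt (l[0]).1 i) ∧ (l.getD i (true, 1)).2 ∉ S
    rw [h2, ← halt i hi]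
    exact h1
  · rw [hp_eq_prod]
    congr 1
    apply List.ext_getElem
    · simp
    · intro i h1 h2
      simp at h1
      simp [h1]

end Pool.Agent.Lib.H14E
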