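import Pool.Agent.Lib.H14E.PS1

/-!
# H14E / PS2: P-step, the ray

After a shift of the indices the points `b i • x` lie near the geodesics `[x, b j • x]` and
`[x, (b j)⁻¹ • x]`, `i < j`, with a uniform error `σ`.
-/

set_option autoImplicit false

namespace Pool.Agent.Lib.H14E

open Pool.Agent.Lib.H76.Morse GeoMet

/-- The points `b j • x` form a ray which is not fixed by `a`. -/
structure Ray {X : Type} [GeoMet X] {G : Type} [Group G] [MulAction G X] (x : X) (a : G)
    (b : ℕ → G) (σ : ℕ) : Prop where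
  dbl : ∀ j, 2 * dsp (b j) x ≤ dsp (b (j + 1)) x + σ
  up : ∀ j, dsp (b j) x + 1 ≤ dsp (b (j + 1)) x
  gu : ∀ i j, i < j → 2 * dsp (b i) x ≤ gp x (b i • x) (b j • x) + σ
  gi : ∀ i j, i < j → 2 * dsp (b i) x ≤ gp x (b i • x) ((b j)⁻¹ • x) + σ
  au : ∀ j, gp x (b j • x) (a • b j • x) ≤ σ
  ai : ∀ j, gp x ((b j)⁻¹ • x) (a • (b j)⁻¹ • x) ≤ σ

variable {X : Type} [GeoMet X] {G : Type} [Group G] [MulAction G X]

/-- Chains of points with growing Gromov products. -/
theorem gp_chain {δ E : ℕ} (hX : Hyp δ X) (hiso : IsoAct G X) (x : X) (b : ℕ → G) (n : ℕ → ℕ)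
    (hn : ∀ j, n j + E ≤ n (j + 1)) (hE : δ ≤ E)
    (h1 : ∀ j, n j + E ≤ gp x (b j • x) (b (j + 1) • x))
    (h2 : ∀ j, n j + E ≤ gp x (b j • x) ((b (j + 1))⁻¹ • x)) (k : ℕ) :
    ∀ i, n i + E ≤ gp x (b i • x) (b (i + k + 1) • x) + δ ∧
      n i + E ≤ gp x (b i • x) ((b (i + k + 1))⁻¹ • x) + δ := by
  induction k with
  | zero =>
    intro i
    have e1 := h1 i
    have e2 := h2 i
    rw [show i + 0 + 1 = i + 1 by omega]
    omega
  | succ k ih =>
    intro i
    obtain ⟨e1, e2⟩ := ih (i + 1)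
    rw [show i + 1 + k + 1 = i + (k + 1) + 1 by omega] at e1 e2
    have f1 := gp_four hX x (b i • x) (b (i + 1) • x) (b (i + (k + 1) + 1) • x)
    have f2 := gp_four hX x (b i • x) (b (i + 1) • x) ((b (i + (k + 1) + 1))⁻¹ • x)
    have f3 := h1 i
    have f4 := hn i
    omega

theorem exists_ray {p δ : ℕ} {a : G} {b : ℕ → G} (P : PData p δ X a b) (x : X) :
    ∃ σ J, Ray x a (fun j => b (j + J)) σ := by
  set α := dsp a x with hα
  set D := 20 * (α + δ + 1) with hD
  obtain ⟨J0, hJ0⟩ := P.far (X := X) D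
  set J := J0 + 1 with hJ
  set c : ℕ → G := fun j => b (j + J) with hc
  have hcb : ∀ j, c (j + 1) = c j * a * (c j)⁻¹ := (P.shift J).hb
  -- bounds of the common parts
  have hs : ∀ j, gp x (c j • x) (a • c j • x) + D ≤ dsp (c j) x + 2 * δ + 3 := by
    intro j
    refine gp_le_of_far P.hX P.hG.iso (r := α) (y0 := b (j + J0) • x) ?_ ?_ (by omega) (by omega)
    · have := P.conj_pt x (j + J0)
      exact this.le
    · exact hJ0 (j + J) (by omega)
  have ht : ∀ j, gp x ((c j)⁻¹ • x) (a • (c j)⁻¹ • x) + D ≤ dsp (c j) x + 2 * δ + 3 := by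
    intro j
    have h := gp_le_of_far P.hX P.hG.iso (a := a) (b := (c j)⁻¹) (r := α) (D := D) (x := x)
      (y0 := b (j + J0) • x) ?_ ?_ (by omega) (by omega)
    · rwa [dsp_inv P.hG.iso] at h
    · rw [dsp_inv P.hG.iso]
      have := P.conj_pt x (j + J0)
      exact this.le
    · intro y
      rw [dsp_inv P.hG.iso]
      exact hJ0 (j + J) (by omega) y
  have hstep := fun j => step_gp (X := X) P.hG.iso (hcb j) x
  set E := D - 2 * δ - 3 - 2 * α with hE
  have hn : ∀ j, dsp (c j) x + E ≤ dsp (c (j + 1)) x := by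
    intro j
    have h1 := hstep j
    have h2 := ht j
    omega
  have hch := gp_chain P.hX P.hG.iso x c (fun j => dsp (c j) x) (E := E) hn (by omega)
    (by intro j; have h1 := hstep j; have h2 := ht j; show dsp (c j) x + E ≤ _; omega)
    (by intro j; have h1 := hstep j; have h2 := ht j; show dsp (c j) x + E ≤ _; omega)
  -- uniform bound
  set ω := gp x (c 0 • x) (a • c 0 • x) with hω
  have h0 := hs 0
  have key : ∀ w : X, dsp (c 0) x + E ≤ gp x (c 0 • x) w + δ → gp x w (a • w) ≤ ω + 2 * δ := by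
    intro w hw
    have f1 := gp_four P.hX x (c 0 • x) w (a • c 0 • x)
    have f2 := gp_four P.hX x w (a • w) (a • c 0 • x)
    have f3 := gp_smul_smul P.hG.iso a x w (c 0 • x)
    have f4 := gp_comm x w (c 0 • x)
    omega
  have hau : ∀ j, gp x (c j • x) (a • c j • x) ≤ ω + 2 * δ := by
    intro j
    rcases Nat.eq_zero_or_pos j with h | h
    · subst h; omega
    · refine key _ ?_
      have := (hch (j - 1) 0).1
      rwa [show 0 + (j - 1) + 1 = j by omega] at this
  have hai : ∀ j, gp x ((c (j + 1))⁻¹ • x) (a • (c (j + 1))⁻¹ • x) ≤ ω + 2 * δ := by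
    intro j
    refine key _ ?_
    have := (hch j 0).2
    rwa [show 0 + j + 1 = j + 1 by omega] at this
  -- one more shift
  refine ⟨ω + 2 * δ + 2 * α + δ + 1 + gp x ((c 0)⁻¹ • x) (a • (c 0)⁻¹ • x), J, ?_⟩
  set τ := gp x ((c 0)⁻¹ • x) (a • (c 0)⁻¹ • x) with hτ
  have hai' : ∀ j, gp x ((c j)⁻¹ • x) (a • (c j)⁻¹ • x) ≤ ω + 2 * δ + τ := by
    intro j
    rcases Nat.eq_zero_or_pos j with h | h
    · subst h; omega
    · have := hai (j - 1)
      rw [show j - 1 + 1 = j by omega] at this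
      omega
  -- the sharp chain: gp ≥ 2 n_i - σ
  have hch2 : ∀ k i, 2 * dsp (c i) x ≤ gp x (c i • x) (c (i + k + 1) • x)
        + (ω + 2 * δ + τ + 2 * α + δ) ∧
      2 * dsp (c i) x ≤ gp x (c i • x) ((c (i + k + 1))⁻¹ • x)
        + (ω + 2 * δ + τ + 2 * α + δ) := by
    intro k
    induction k with
    | zero =>
      intro i
      have h1 := hstep i
      have h2 := hai' i
      rw [show i + 0 + 1 = i + 1 by omega]
      omega
    | succ k ih =>
      intro i
      obtain ⟨e1, e2⟩ := ih (i + 1)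
      rw [show i + 1 + k + 1 = i + (k + 1) + 1 by omega] at e1 e2
      have h1 := hstep i
      have h2 := hai' i
      have f1 := gp_four P.hX x (c i • x) (c (i + 1) • x) (c (i + (k + 1) + 1) • x)
      have f2 := gp_four P.hX x (c i • x) (c (i + 1) • x) ((c (i + (k + 1) + 1))⁻¹ • x)
      have f3 := hn i
      omega
  refine ⟨?_, ?_, ?_, ?_, ?_, ?_⟩
  · intro j
    have h1 := hstep j
    have h2 := hai' j
    show 2 * dsp (c j) x ≤ dsp (c (j + 1)) x + _
    omega
  · intro j
    have h1 := hn j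
    show dsp (c j) x + 1 ≤ dsp (c (j + 1)) x
    omega
  · intro i j hij
    have h1 := (hch2 (j - i - 1) i).1
    rw [show i + (j - i - 1) + 1 = j by omega] at h1
    show 2 * dsp (c i) x ≤ gp x (c i • x) (c j • x) + _
    omega
  · intro i j hij
    have h1 := (hch2 (j - i - 1) i).2
    rw [show i + (j - i - 1) + 1 = j by omega] at h1
    show 2 * dsp (c i) x ≤ gp x (c i • x) ((c j)⁻¹ • x) + _
    omega
  · intro j
    have h1 := hau j
    show gp x (c j • x) (a • c j • x) ≤ _
    omega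
  · intro j
    have h1 := hai' j
    show gp x ((c j)⁻¹ • x) (a • (c j)⁻¹ • x) ≤ _
    omega

end Pool.Agent.Lib.H14E
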