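import Pool.Agent.Lib.H14E.PS2

/-!
# H14E / PS3: P-step, the stabilizer `S` of the ray, stability

`SR x b` is the group of the elements which displace all `b j • x` a bounded amount.
-/

set_option autoImplicit false

namespace Pool.Agent.Lib.H14E

open Pool.Agent.Lib.H76.Morse GeoMet

variable {X : Type} [GeoMet X] {G : Type} [Group G] [MulAction G X]

/-- Displacement of an almost geodesic point. -/
theorem dsp_between' {δ η : ℕ} (hyp : Hyp δ X) (hiso : IsoAct G X) (g : G) {w q y : X}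
    (h : d w q + d q y ≤ d w y + η) :
    dsp g q ≤ max (dsp g y) (dsp g w - 2 * d w q) + 2 * δ + 2 * η := by
  unfold dsp
  have i1 := hiso g q y
  have i2 := hiso g q w
  have i3 := hiso g w y
  have a1 := four hyp q w (g • q) y
  have a2 := four hyp (g • q) (g • w) y (g • y)
  have a3 := four hyp (g • q) (g • w) w (g • y)
  have c1 := d_comm q w
  have c2 := d_comm (g • q) w
  have c3 := d_comm (g • q) y
  have c4 := d_comm (g • w) w
  have c5 := d_comm (g • w) y
  have c6 := d_comm (g • y) y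
  have c7 := d_comm (g • y) w
  have c8 := d_comm (g • q) (g • w)
  have t1 := d_tri w y (g • y)
  have t2 := d_tri y (g • y) (g • w)
  have c9 := d_comm (g • w) (g • y)
  have c10 := d_comm w y
  have c11 := d_comm (g • q) q
  have c12 := d_comm q y
  have c13 := d_comm (g • q) (g • y)
  omega

/-- The coarse stabilizer of the ray. -/
def SR (hiso : IsoAct G X) (x : X) (b : ℕ → G) : Subgroup G where
  carrier := {g | ∃ K, ∀ j, dsp g (b j • x) ≤ K}
  mul_mem' := by
    rintro g h ⟨K, hK⟩ ⟨L, hL⟩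
    exact ⟨K + L, fun j => (dsp_mul_le hiso g h _).trans (Nat.add_le_add (hK j) (hL j))⟩
  one_mem' := ⟨0, fun j => by unfold dsp; rw [one_smul, d_self]⟩
  inv_mem' := by
    rintro g ⟨K, hK⟩
    exact ⟨K, fun j => by rw [dsp_inv hiso]; exact hK j⟩

theorem mem_SR {hiso : IsoAct G X} {x : X} {b : ℕ → G} {g : G} :
    g ∈ SR hiso x b ↔ ∃ K, ∀ j, dsp g (b j • x) ≤ K := Iff.rfl

namespace Ray

variable {x : X} {a : G} {b : ℕ → G} {σ : ℕ}

theorem le_len (R : Ray x a b σ) (j : ℕ) : j ≤ dsp (b j) x := by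
  induction j with
  | zero => exact Nat.zero_le _
  | succ j ih => have := R.up j; omega

theorem mono (R : Ray x a b σ) {i j : ℕ} (h : i ≤ j) : dsp (b i) x + (j - i) ≤ dsp (b j) x := by
  induction j, h using Nat.le_induction with
  | base => omega
  | succ j hj ih => have := R.up j; omega

/-- `b i • x` almost on `[x, b j • x]`. -/
theorem defect_u (R : Ray x a b σ) {i j : ℕ} (h : i < j) :
    d x (b i • x) + d (b i • x) (b j • x) ≤ d x (b j • x) + σ := by
  have h1 := R.gu i j h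
  have h2 := gp_add x (b i • x) (b j • x)
  unfold dsp at h1
  omega

theorem defect_i (R : Ray x a b σ) {i j : ℕ} (h : i < j) :
    d x (b i • x) + d (b i • x) ((b j)⁻¹ • x) ≤ d x ((b j)⁻¹ • x) + σ := by
  have h1 := R.gi i j h
  have h2 := gp_add x (b i • x) ((b j)⁻¹ • x)
  unfold dsp at h1
  omega

/-- Small displacement is inherited by earlier points. -/
theorem dsp_le_u {δ : ℕ} (hX : Hyp δ X) (hiso : IsoAct G X) (R : Ray x a b σ) {i j : ℕ}
    (h : i < j) {g : G} {K : ℕ} (h1 : dsp g x ≤ K) (h2 : dsp g (b j • x) ≤ K) :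
    dsp g (b i • x) ≤ K + 2 * δ + 2 * σ := by
  have := dsp_between' hX hiso g (R.defect_u h)
  omega

theorem dsp_le_i {δ : ℕ} (hX : Hyp δ X) (hiso : IsoAct G X) (R : Ray x a b σ) {i j : ℕ}
    (h : i < j) {g : G} {K : ℕ} (h1 : dsp g x ≤ K) (h2 : dsp g ((b j)⁻¹ • x) ≤ K) :
    dsp g (b i • x) ≤ K + 2 * δ + 2 * σ := by
  have := dsp_between' hX hiso g (R.defect_i h)
  omega

/-- Stability: elements which move `x` and a far point of the ray little are in `S`. -/
theorem stable {δ : ℕ} (hX : Hyp δ X) (hG : Geom G X) (R : Ray x a b σ) (K : ℕ) :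
    ∃ m0, ∀ m, m0 ≤ m → ∀ g : G, dsp g x ≤ K →
      (dsp g (b m • x) ≤ K ∨ dsp g ((b m)⁻¹ • x) ≤ K) → g ∈ SR hG.iso x b := by
  classical
  have hfin := finite_dsp hG x K
  have hj : ∀ g : G, ∃ j, g ∉ SR hG.iso x b → K + 2 * δ + 2 * σ < dsp g (b j • x) := by
    intro g
    by_cases hg : g ∈ SR hG.iso x b
    · exact ⟨0, fun h => (h hg).elim⟩
    · have hg' : ¬ ∃ K, ∀ j, dsp g (b j • x) ≤ K := fun h => hg h
      push Not at hg'
      obtain ⟨j, hj⟩ := hg' (K + 2 * δ + 2 * σ)
      exact ⟨j, fun _ => hj⟩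
  choose j hj using hj
  refine ⟨hfin.toFinset.sup j + 1, ?_⟩
  intro m hm g hg h
  by_contra hcon
  have h1 := hj g hcon
  have h2 : j g ≤ hfin.toFinset.sup j :=
    Finset.le_sup (f := j) ((Set.Finite.mem_toFinset hfin).mpr hg)
  rcases h with h | h
  · have := R.dsp_le_u hX hG.iso (i := j g) (j := m) (by omega) hg h
    omega
  · have := R.dsp_le_i hX hG.iso (i := j g) (j := m) (by omega) hg h
    omega

/-- The torsion elements of `S`: bounded number. -/
theorem card_torsion {δ : ℕ} (hX : Hyp δ X) (hG : Geom G X) (R : Ray x a b σ) :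
    ∃ N : ℕ, ∀ s : Finset G, (∀ g ∈ s, g ∈ SR hG.iso x b ∧ IsOfFinOrder g) → s.card ≤ N := by
  classical
  obtain ⟨N, hN⟩ := exists_card hG (3 * δ + 2 + 4 * δ)
  refine ⟨N, ?_⟩
  intro s hs
  have := hG.ne
  -- a common bound
  have hK : ∃ K, ∀ g ∈ s, dsp g x ≤ K ∧ ∀ j, dsp g (b j • x) ≤ K := by
    have hh : ∀ g : G, ∃ K, g ∈ s → dsp g x ≤ K ∧ ∀ j, dsp g (b j • x) ≤ K := by
      intro g
      by_cases hg : g ∈ s
      · obtain ⟨K, hK⟩ := mem_SR.mp (hs g hg).1
        exact ⟨max K (dsp g x), fun _ => ⟨le_max_right _ _, fun j => (hK j).trans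
          (le_max_left _ _)⟩⟩
      · exact ⟨0, fun h => (hg h).elim⟩
    choose K hK using hh
    refine ⟨s.sup K, fun g hg => ?_⟩
    have h1 : K g ≤ s.sup K := Finset.le_sup hg
    exact ⟨(hK g hg).1.trans h1, fun j => ((hK g hg).2 j).trans h1⟩
  obtain ⟨K, hK⟩ := hK
  set j := 2 * K + 2 with hj
  have hlen := R.le_len j
  obtain ⟨q, hq1, hq2⟩ := exists_pt x (b j • x) (t := dsp (b j) x / 2) (by unfold dsp; omega)
  refine hN q s ?_
  intro g hg
  obtain ⟨y0, hy0⟩ := dsp_torsion hX hG.iso g (hs g hg).2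
  obtain ⟨h1, h2⟩ := hK g hg
  have h3 := h2 j
  have e : dsp (b j) x = d x (b j • x) := rfl
  have h4 := dsp_convex hX hG.iso g (w := x) (w' := b j • x) (q := q) y0 (by omega)
  have c := d_comm q (b j • x)
  omega

end Ray

/-- Reversal: `b⁻¹` maps the second half of `[x, b x]` to the first half. -/
theorem reversal {δ r : ℕ} (hX : Hyp δ X) (hiso : IsoAct G X) (b : G) {x y0 q q' : X}
    (hr : dsp b y0 ≤ r) (hq : d x q + d q (b • x) = dsp b x)
    (hq' : d x q' + d q' (b • x) = dsp b x) (h : d x q + d x q' = dsp b x)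
    (h2 : dsp b x + r + δ ≤ 2 * d x q) : d (b⁻¹ • q) q' ≤ 2 * δ := by
  have hs := dsp_sq hX hiso b x y0
  unfold dsp at *
  have i1 := hiso b (b⁻¹ • q) x
  have i2 := hiso b (b⁻¹ • q) (b⁻¹ • x)
  have i3 := hiso b x (b⁻¹ • x)
  have i4 := hiso b (b • x) (b⁻¹ • x)
  rw [smul_inv_smul] at i1 i2
  rw [smul_inv_smul] at i2 i3 i4
  have g1 := gp_add x (b • x) (b⁻¹ • x)
  have c1 := d_comm q x
  have c2 := d_comm q (b • x)
  have c3 := d_comm x (b⁻¹ • q)
  have c4 := d_comm (b • b • x) x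
  have c5 := d_comm (b • x) x
  have key := near_of_gp hX (x := x) (y := b • x) (z := b⁻¹ • x) (q := q') (q' := b⁻¹ • q)
    (by omega) (by omega) (by omega) (by omega)
  rw [d_comm]
  exact key

/-- Coarse translation, both ends. -/
theorem translate2 {δ E : ℕ} (hyp : Hyp δ X) (hiso : IsoAct G X) (k : G) {w w' q : X}
    (hq : d w q + d q w' = d w w') (h1 : dsp k w ≤ E) (h2 : dsp k w' ≤ E)
    (h3 : 2 * E ≤ d w q) (h4 : 2 * E ≤ d q w') :
    d w (k • w') + d w q ≤ d w (k • q) + d w w' ∧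
      d w (k • q) + d w w' ≤ d w (k • w') + d w q + δ ∧
      d w (k • q) + d (k • q) w' ≤ d w w' + 3 * δ := by
  have t1 := translate hyp hiso k hq (by omega) (by omega)
  have c := d_comm w w'
  have c1 := d_comm q w
  have c2 := d_comm q w'
  have t2 := translate hyp hiso k (w := w') (w' := w) (q := q) (by omega) (by omega) (by omega)
  have h5 := hyp w (k • w') w' (k • w)
  unfold dsp at *
  have i3 := hiso k w w'
  have c3 := d_comm (k • w') (k • w)
  have c4 := d_comm (k • w') w'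
  have c5 := d_comm w' (k • q)
  omega

end Pool.Agent.Lib.H14E
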