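import Pool.Agent.Lib.H14E.PS3

/-!
# H14E / PS4: P-step, `S` is finite
-/

set_option autoImplicit false

namespace Pool.Agent.Lib.H14E

open Pool.Agent.Lib.H76.Morse GeoMet

variable {X : Type} [GeoMet X] {G : Type} [Group G] [MulAction G X]

/-- A translation along `[x, b x]` followed by `b⁻¹` swaps two points. -/
theorem swap_of_translate {δ r E R' A : ℕ} (hX : Hyp δ X) (hiso : IsoAct G X) (b k : G)
    {x y0 : X} (hr : dsp b y0 ≤ r) (h1 : dsp k x ≤ E) (h2 : dsp k (b • x) ≤ E)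
    (h3 : dsp b x + A ≤ d x (k • b • x)) (h4 : R' + r + 2 * δ + 2 ≤ A)
    (h5 : 5 * E + 2 * R' + 2 ≤ dsp b x) :
    ∃ (h : G) (y z : X), d (h • y) z ≤ 7 * δ + 1 ∧ d (h • z) y ≤ 7 * δ + 1 ∧ R' ≤ d y z := by
  have t0 := d_tri x (b • x) (k • b • x)
  have eb : dsp b x = d x (b • x) := rfl
  have ek : dsp k (b • x) = d (b • x) (k • b • x) := rfl
  set n := d x (b • x) with hn
  set τ := d x (k • b • x) - n with hτ
  set t := (n - τ - R') / 2 with ht
  obtain ⟨P, hP1, hP2⟩ := exists_pt x (b • x) (t := t) (by omega)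
  obtain ⟨Q, hQ1, hQ2⟩ := exists_pt x (b • x) (t := t + R') (by omega)
  obtain ⟨P', hP1', hP2'⟩ := exists_pt x (b • x) (t := n - (t + R')) (by omega)
  obtain ⟨Q', hQ1', hQ2'⟩ := exists_pt x (b • x) (t := n - t) (by omega)
  have a1 := translate2 hX hiso k (w := x) (w' := b • x) (q := P) (by omega) h1 h2 (by omega)
    (by omega)
  have a2 := translate2 hX hiso k (w := x) (w' := b • x) (q := Q) (by omega) h1 h2 (by omega)
    (by omega)
  have b1 := near_line hX (u := x) (v := b • x) (y := k • P) (y' := P') (η := 3 * δ) (η' := 0)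
    (by omega) (by omega)
  have b2 := near_line hX (u := x) (v := b • x) (y := k • Q) (y' := Q') (η := 3 * δ) (η' := 0)
    (by omega) (by omega)
  have c1 := reversal hX hiso b (x := x) (y0 := y0) (q := P') (q' := Q) hr (by omega) (by omega)
    (by omega) (by omega)
  have c2 := reversal hX hiso b (x := x) (y0 := y0) (q := Q') (q' := P) hr (by omega) (by omega)
    (by omega) (by omega)
  have i1 := hiso b⁻¹ (k • P) P'
  have i2 := hiso b⁻¹ (k • Q) Q'
  have t1 := d_tri (b⁻¹ • k • P) (b⁻¹ • P') Q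
  have t2 := d_tri (b⁻¹ • k • Q) (b⁻¹ • Q') P
  have t3 := d_tri x P Q
  refine ⟨b⁻¹ * k, P, Q, ?_, ?_, by omega⟩
  · rw [mul_smul]
    omega
  · rw [mul_smul]
    omega

/-- All elements of `S` have finite order. -/
theorem SR_torsion {p δ σ : ℕ} {a : G} {b : ℕ → G} (P : PData p δ X a b) {x : X}
    (R : Ray x a b σ) (g : G) (hg : g ∈ SR P.hG.iso x b) : IsOfFinOrder g := by
  obtain ⟨R0, hR0⟩ := noswap P.hp P.hp2 P.hX P.hG P.hT (7 * δ + 1)
  obtain ⟨K0, hK0⟩ := mem_SR.mp hg
  set K := max K0 (dsp g x) with hK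
  set α := dsp a x with hα
  set A := (R0 + 1) + α + 3 * δ + 2 with hA
  obtain ⟨N, hN⟩ := exists_pigeon P.hG (A + 10 * δ + 2)
  set E := N * K with hE
  set j := 5 * E + 2 * (R0 + 1) + 10 with hj
  have hlen := R.le_len (j + 1)
  have hr : dsp (b (j + 1)) (b j • x) ≤ α := (P.conj_pt x j).le
  set u := b (j + 1) • x with hu
  have eb : dsp (b (j + 1)) x = d x u := rfl
  have hgx : ∀ i ≤ N, dsp (g ^ i) x ≤ E := fun i hi =>
    (dsp_pow_le P.hG.iso g x i).trans (Nat.mul_le_mul hi (le_max_right _ _))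
  have hgu : ∀ i ≤ N, dsp (g ^ i) u ≤ E := fun i hi =>
    (dsp_pow_le P.hG.iso g u i).trans (Nat.mul_le_mul hi ((hK0 (j + 1)).trans (le_max_left _ _)))
  obtain ⟨q, hq1, hq2⟩ := exists_pt x u (t := d x u / 2) (by omega)
  by_cases hsmall : ∀ i ≤ N, dsp (g ^ i) q ≤ A + 10 * δ + 2
  · obtain ⟨i, i', hii, _, he⟩ := hN q _ hsmall
    rw [isOfFinOrder_iff_pow_eq_one]
    refine ⟨i' - i, by omega, ?_⟩
    have h1 : g ^ i * g ^ (i' - i) = g ^ i * 1 := by
      rw [← pow_add, mul_one, he]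
      congr 1
      omega
    exact mul_left_cancel h1
  · exfalso
    push Not at hsmall
    obtain ⟨i, hi, hbig⟩ := hsmall
    have e1 := hgx i hi
    have e2 := hgu i hi
    set k := g ^ i with hk
    have a1 := translate2 P.hX P.hG.iso k (w := x) (w' := u) (q := q) (by omega) e1 e2 (by omega)
      (by omega)
    have b1 := near_line P.hX (u := x) (v := u) (y := q) (y' := k • q) (η := 0) (η' := 3 * δ)
      (by omega) (by omega)
    have hbig' : A + 10 * δ + 2 < d q (k • q) := hbig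
    rcases le_total (d x u) (d x (k • u)) with hc | hc
    · obtain ⟨h, y, z, h1, h2, h3⟩ := swap_of_translate (R' := R0 + 1) (A := A) P.hX P.hG.iso
        (b (j + 1)) k (x := x) hr e1 e2
        (by show dsp (b (j + 1)) x + A ≤ d x (k • u); omega) (by omega) (by omega)
      have := hR0 h y z h1 h2
      omega
    · have e3 : dsp k⁻¹ x ≤ E := by rw [dsp_inv P.hG.iso]; exact e1
      have e4 : dsp k⁻¹ u ≤ E := by rw [dsp_inv P.hG.iso]; exact e2
      have i1 := P.hG.iso k x (k⁻¹ • u)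
      rw [smul_inv_smul] at i1
      have f1 := P.hX x u (k • x) (k • u)
      have f2 := P.hG.iso k x u
      have f3 := d_comm u (k • x)
      unfold dsp at e1 e2
      obtain ⟨h, y, z, h1, h2, h3⟩ := swap_of_translate (R' := R0 + 1) (A := A) P.hX P.hG.iso
        (b (j + 1)) k⁻¹ (x := x) hr e3 e4
        (by show dsp (b (j + 1)) x + A ≤ d x (k⁻¹ • u); omega) (by omega) (by omega)
      have := hR0 h y z h1 h2
      omega

/-- `S` is finite. -/
theorem SR_finite {p δ σ : ℕ} {a : G} {b : ℕ → G} (P : PData p δ X a b) {x : X}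
    (R : Ray x a b σ) : (SR P.hG.iso x b : Set G).Finite := by
  classical
  obtain ⟨N, hN⟩ := R.card_torsion P.hX P.hG
  by_contra hinf
  obtain ⟨s, hs1, hs2⟩ := Set.Infinite.exists_subset_card_eq hinf (N + 1)
  have := hN s (fun g hg => ⟨hs1 hg, SR_torsion P R g (hs1 hg)⟩)
  omega

end Pool.Agent.Lib.H14E
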