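import Pool.Agent.Lib.H14E.Core

/-!
# H14E / PS5: consequences of NoRec for finite subgroups; nilpotent groups and `Tg`
-/

set_option autoImplicit false

namespace Pool.Agent.Lib.H14E

open scoped commutatorElement

/-- In a nilpotent group `T_a^k(b) = a` for all large `k`. -/
theorem nilpotent_Tg {Γ : Type} [Group Γ] [Group.IsNilpotent Γ] (a b : Γ) :
    ∃ n, ∀ k, n ≤ k → (Tg a)^[k] b = a := by
  obtain ⟨n, hn⟩ := Subgroup.nilpotent_iff_lowerCentralSeries (G := Γ) |>.mp inferInstance
  have key : ∀ k, (Tg a)^[k] b * a⁻¹ ∈ (⊤ : Subgroup Γ).lowerCentralSeries k := by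
    intro k
    induction k with
    | zero => exact Subgroup.mem_top _
    | succ k ih =>
      rw [Function.iterate_succ_apply']
      set c := (Tg a)^[k] b * a⁻¹ with hc
      have e : Tg a ((Tg a)^[k] b) * a⁻¹ = ⁅c, a⁆ := by
        have : (Tg a)^[k] b = c * a := by rw [hc]; group
        rw [this, Tg, commutatorElement_def]
        group
      rw [e]
      exact Subgroup.commutator_mem_commutator ih (Subgroup.mem_top a)
  have hanti : Antitone (⊤ : Subgroup Γ).lowerCentralSeries := Subgroup.lowerCentralSeries_antitone _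
  refine ⟨n, fun k hk => ?_⟩
  have h1 := hanti hk (key k)
  rw [hn, Subgroup.mem_bot] at h1
  exact mul_inv_eq_one.mp h1

/-- The twisted commutator map. -/
def tw {G : Type} [Group G] (y s : G) : G := s * (y * s⁻¹ * y⁻¹)

theorem Tg_tw {G : Type} [Group G] (y s : G) : Tg y (s * y) = tw y s * y := by
  unfold Tg tw
  group

theorem Tg_tw_iter {G : Type} [Group G] (y s : G) (k : ℕ) :
    (Tg y)^[k] (s * y) = (tw y)^[k] s * y := by
  induction k with
  | zero => rfl
  | succ k ih => rw [Function.iterate_succ_apply', ih, Tg_tw, Function.iterate_succ_apply' (tw y)]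

/-- Coprime action: if `y ^ n` centralises `t` and `tw y (tw y t) = 1` then `(tw y t) ^ n = 1`. -/
theorem tw_tw {G : Type} [Group G] {y t : G} {n : ℕ} (hn : y ^ n * t = t * y ^ n)
    (h : tw y (tw y t) = 1) : (tw y t) ^ n = 1 := by
  set c := tw y t with hc
  have h1 : y * c = c * y := by
    unfold tw at h
    have h2 : c * y = (c * (y * c⁻¹ * y⁻¹)) * (y * c) := by group
    rw [h, one_mul] at h2
    exact h2.symm
  have h2 : y * t = c⁻¹ * t * y := by
    rw [hc]
    unfold tw
    group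
  have h3 : ∀ k : ℕ, y ^ k * t = c⁻¹ ^ k * t * y ^ k := by
    intro k
    induction k with
    | zero => simp
    | succ k ih =>
      have h4 : y * c⁻¹ ^ k = c⁻¹ ^ k * y := by
        have : Commute y c := h1
        exact (this.inv_right.pow_right k)
      calc y ^ (k + 1) * t = y * (y ^ k * t) := by rw [pow_succ']; group
        _ = (y * c⁻¹ ^ k) * t * y ^ k := by rw [ih]; group
        _ = c⁻¹ ^ k * (y * t) * y ^ k := by rw [h4]; group
        _ = c⁻¹ ^ (k + 1) * t * y ^ (k + 1) := by rw [h2, pow_succ c⁻¹ k, pow_succ' y k]; group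
  have h5 := h3 n
  rw [hn] at h5
  have h6 : c⁻¹ ^ n * (t * y ^ n) = 1 * (t * y ^ n) := by rw [one_mul, ← mul_assoc, ← h5]
  have h7 := mul_right_cancel h6
  rw [inv_pow, inv_eq_one] at h7
  exact h7

/-- NoRec: elements normalising a finite subgroup `S` act on it with `p`-power order. -/
theorem norec_act {p : ℕ} (hp : p.Prime) {G : Type} [Group G] (hT : PTors p G) (hN : NoRec G)
    (S : Subgroup G) (hS : (S : Set G).Finite) (x : G) (hx : ∀ s ∈ S, x * s * x⁻¹ ∈ S) :
    ∃ k : ℕ, ∀ s ∈ S, x ^ (p ^ k) * s = s * x ^ (p ^ k) := by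
  classical
  have : Finite S := hS
  -- some power centralises `S`
  have hpow : ∀ n : ℕ, ∀ s ∈ S, x ^ n * s * (x ^ n)⁻¹ ∈ S := by
    intro n
    induction n with
    | zero => intro s hs; simpa using hs
    | succ n ih =>
      intro s hs
      have := ih _ (hx s hs)
      have e : x ^ (n + 1) * s * (x ^ (n + 1))⁻¹ = x ^ n * (x * s * x⁻¹) * (x ^ n)⁻¹ := by
        rw [pow_succ]; group
      rw [e]; exact this
  obtain ⟨n, hn0, hn⟩ : ∃ n : ℕ, 0 < n ∧ ∀ s ∈ S, x ^ n * s = s * x ^ n := by
    obtain ⟨i, j, hij, he⟩ := Finite.exists_ne_map_eq_of_infinite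
      (fun (n : ℕ) (s : S) => (⟨x ^ n * s * (x ^ n)⁻¹, hpow n s s.2⟩ : S))
    wlog h : i < j generalizing i j
    · exact this j i hij.symm he.symm (by omega)
    refine ⟨j - i, by omega, fun s hs => ?_⟩
    have h1 := congrArg Subtype.val (congrFun he ⟨s, hs⟩)
    simp only at h1
    have h2 : x ^ j = x ^ i * x ^ (j - i) := by rw [← pow_add]; congr 1; omega
    rw [h2] at h1
    have h3 : s = x ^ (j - i) * s * (x ^ (j - i))⁻¹ := by
      calc s = (x ^ i)⁻¹ * (x ^ i * s * (x ^ i)⁻¹) * x ^ i := by group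
        _ = (x ^ i)⁻¹ * (x ^ i * x ^ (j - i) * s * (x ^ i * x ^ (j - i))⁻¹) * x ^ i := by rw [h1]
        _ = x ^ (j - i) * s * (x ^ (j - i))⁻¹ := by group
    calc x ^ (j - i) * s = (x ^ (j - i) * s * (x ^ (j - i))⁻¹) * x ^ (j - i) := by group
      _ = s * x ^ (j - i) := by rw [← h3]
  obtain ⟨k, r, hr, hnr⟩ := Nat.exists_eq_pow_mul_and_not_dvd hn0.ne' p hp.ne_one
  refine ⟨k, ?_⟩
  set y := x ^ (p ^ k) with hy
  have hyS : ∀ s ∈ S, y * s * y⁻¹ ∈ S := hpow (p ^ k)
  have hyr : ∀ s ∈ S, y ^ r * s = s * y ^ r := by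
    intro s hs
    rw [hy, ← pow_mul, ← hnr]
    exact hn s hs
  have htw : ∀ s ∈ S, tw y s ∈ S := fun s hs =>
    S.mul_mem hs (hyS _ (S.inv_mem hs))
  have htwi : ∀ (i : ℕ), ∀ s ∈ S, (tw y)^[i] s ∈ S := by
    intro i
    induction i with
    | zero => intro s hs; exact hs
    | succ i ih => intro s hs; rw [Function.iterate_succ_apply']; exact htw _ (ih s hs)
  -- two steps
  have hstep : ∀ t ∈ S, tw y (tw y t) = 1 → tw y t = 1 := by
    intro t ht h
    have h1 := tw_tw (hyr t ht) h
    obtain ⟨e, he⟩ := hT (tw y t) (isOfFinOrder_iff_pow_eq_one.mpr ⟨r, by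
      rcases Nat.eq_zero_or_pos r with h0 | h0
      · subst h0; simp at hr
      · exact h0, h1⟩)
    have hcop : Nat.Coprime r (p ^ e) := by
      apply Nat.Coprime.pow_right
      exact ((Nat.Prime.coprime_iff_not_dvd hp).mpr hr).symm
    have h2 : orderOf (tw y t) ∣ 1 := by
      rw [← hcop]
      exact Nat.dvd_gcd (orderOf_dvd_of_pow_eq_one h1) (orderOf_dvd_of_pow_eq_one he)
    exact orderOf_eq_one_iff.mp (Nat.dvd_one.mp h2)
  have hdown : ∀ (i : ℕ) (s : G), s ∈ S → (tw y)^[i + 1] s = 1 → tw y s = 1 := by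
    intro i
    induction i with
    | zero => intro s _ h; exact h
    | succ i ih =>
      intro s hs h
      refine ih s hs ?_
      rw [Function.iterate_succ_apply']
      apply hstep _ (htwi i s hs)
      rw [Function.iterate_succ_apply', Function.iterate_succ_apply'] at h
      exact h
  -- recurrence
  intro s hs
  have hrec : ∃ i, (tw y)^[i + 1] s = 1 := by
    obtain ⟨i, j, hij, he⟩ := Finite.exists_ne_map_eq_of_infinite
      (fun (n : ℕ) => (⟨(tw y)^[n + 1] s, htwi (n + 1) s hs⟩ : S))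
    wlog h : i < j generalizing i j
    · exact this j i hij.symm he.symm (by omega)
    refine ⟨i, ?_⟩
    have h1 : (tw y)^[i + 1] s = (tw y)^[j + 1] s := congrArg Subtype.val he
    have h2 := hN y ((tw y)^[i + 1] s * y) 1 (j - i) (by omega) (by simp) (by
      rw [Tg_tw_iter, ← Function.iterate_add_apply, show j - i + (i + 1) = j + 1 by omega, ← h1]
      group)
    have h3 : (tw y)^[i + 1] s * y = 1 * y := by rw [h2, one_mul]
    exact mul_right_cancel h3
  obtain ⟨i, hi⟩ := hrec
  have h1 := hdown i s hs hi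
  unfold tw at h1
  have h2 : s * y = (s * (y * s⁻¹ * y⁻¹)) * (y * s) := by group
  rw [h1, one_mul] at h2
  exact h2.symm

end Pool.Agent.Lib.H14E
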