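import Pool.Agent.Lib.H14E.PS4
import Pool.Agent.Lib.H14E.PS5

/-!
# H14E / PS6: P-step, the elements `b m` and `a` normalise `S` and act on it in the same way
-/

set_option autoImplicit false

namespace Pool.Agent.Lib.H14E

open Pool.Agent.Lib.H76.Morse GeoMet

theorem mem_normalizer_of_finite {G : Type} [Group G] {S : Subgroup G} (hS : (S : Set G).Finite)
    {c : G} (hc : ∀ s ∈ S, c * s * c⁻¹ ∈ S) : c ∈ Subgroup.normalizer (S : Set G) := by
  have : Finite S := hS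
  have hinj : Function.Injective (fun s : S => (⟨c * s * c⁻¹, hc s s.2⟩ : S)) := by
    intro s t h
    have h1 : c * (s : G) * c⁻¹ = c * (t : G) * c⁻¹ := congrArg Subtype.val h
    exact Subtype.ext (mul_left_cancel (mul_right_cancel h1))
  have hsurj := Finite.surjective_of_injective hinj
  rw [Subgroup.mem_normalizer_iff]
  intro h
  constructor
  · exact fun hh => hc h hh
  · intro hh
    obtain ⟨s, hs⟩ := hsurj ⟨_, hh⟩
    have h1 : c * (s : G) * c⁻¹ = c * h * c⁻¹ := congrArg Subtype.val hs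
    have h2 : (s : G) = h := mul_left_cancel (mul_right_cancel h1)
    rw [← h2]
    exact s.2

variable {X : Type} [GeoMet X] {G : Type} [Group G] [MulAction G X]
variable {p δ σ : ℕ} {a : G} {b : ℕ → G} {x : X}

/-- A common bound for the displacements of the elements of `S`. -/
theorem SR_bound (P : PData p δ X a b) (R : Ray x a b σ) :
    ∃ K, ∀ s ∈ SR P.hG.iso x b, dsp s x ≤ K ∧ ∀ j, dsp s (b j • x) ≤ K := by
  classical
  have hfin := SR_finite P R
  have hh : ∀ g : G, ∃ K, g ∈ SR P.hG.iso x b → dsp g x ≤ K ∧ ∀ j, dsp g (b j • x) ≤ K := by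
    intro g
    by_cases hg : g ∈ SR P.hG.iso x b
    · obtain ⟨K, hK⟩ := mem_SR.mp hg
      exact ⟨max K (dsp g x), fun _ => ⟨le_max_right _ _, fun j => (hK j).trans
        (le_max_left _ _)⟩⟩
    · exact ⟨0, fun h => (hg h).elim⟩
  choose K hK using hh
  refine ⟨hfin.toFinset.sup K, fun g hg => ?_⟩
  have h1 : K g ≤ hfin.toFinset.sup K := Finset.le_sup ((Set.Finite.mem_toFinset hfin).mpr hg)
  exact ⟨(hK g hg).1.trans h1, fun j => ((hK g hg).2 j).trans h1⟩

theorem SR_norm_b (P : PData p δ X a b) (R : Ray x a b σ) :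
    ∃ m1, ∀ m, m1 ≤ m → b m ∈ Subgroup.normalizer (SR P.hG.iso x b : Set G) := by
  obtain ⟨K, hK⟩ := SR_bound P R
  obtain ⟨m0, hm0⟩ := R.stable P.hX P.hG K
  refine ⟨m0, fun m hm => ?_⟩
  have h1 : (b m)⁻¹ ∈ Subgroup.normalizer (SR P.hG.iso x b : Set G) := by
    refine mem_normalizer_of_finite (SR_finite P R) ?_
    intro s hs
    have e1 : dsp ((b m)⁻¹ * s * (b m)⁻¹⁻¹) x ≤ K := by
      rw [dsp_conj P.hG.iso, inv_inv]
      exact (hK s hs).2 m
    have e2 : dsp ((b m)⁻¹ * s * (b m)⁻¹⁻¹) ((b m)⁻¹ • x) ≤ K := by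
      rw [dsp_conj P.hG.iso, inv_inv, smul_inv_smul]
      exact (hK s hs).1
    exact hm0 m hm _ e1 (Or.inr e2)
  have h2 := Subgroup.inv_mem _ h1
  rwa [inv_inv] at h2

theorem SR_norm_a (P : PData p δ X a b) (R : Ray x a b σ) :
    a ∈ Subgroup.normalizer (SR P.hG.iso x b : Set G) := by
  obtain ⟨m1, hm1⟩ := SR_norm_b P R
  have h1 := hm1 m1 le_rfl
  have h2 := hm1 (m1 + 1) (by omega)
  have e : (b m1)⁻¹ * b (m1 + 1) * b m1 = a := by
    rw [P.hb]
    group
  have h3 := Subgroup.mul_mem _ (Subgroup.mul_mem _ (Subgroup.inv_mem _ h1) h2) h1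
  rw [e] at h3
  exact h3

/-- `b m` acts on `S` as `a` for large `m`. -/
theorem SR_act (P : PData p δ X a b) (R : Ray x a b σ) :
    ∃ m2, ∀ m, m2 ≤ m → b m ∈ Subgroup.normalizer (SR P.hG.iso x b : Set G) ∧
      ∀ s ∈ SR P.hG.iso x b, b m * s * (b m)⁻¹ = a * s * a⁻¹ := by
  classical
  have : Fact p.Prime := ⟨P.hp⟩
  have hfin := SR_finite P R
  set S := SR P.hG.iso x b with hS
  have : Finite S := hfin
  obtain ⟨m1, hm1⟩ := SR_norm_b P R
  have ha := SR_norm_a P R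
  set H0 := Subgroup.normalizer (S : Set G) with hH0
  set φ : H0 →* MulAut S := S.normalizerMonoidHom with hφ
  have hφ1 : ∀ (y : H0) (s : S), ((φ y) s : G) = y * s * (y : G)⁻¹ := by
    intro y s
    rfl
  have : Finite (MulAut S) := Finite.of_injective (fun e : MulAut S => (e : S → S))
    DFunLike.coe_injective
  have hpg : IsPGroup p φ.range := by
    rintro ⟨_, y, rfl⟩
    obtain ⟨k, hk⟩ := norec_act P.hp P.hT P.hN S hfin (y : G) (by
      intro s hs
      exact (Subgroup.mem_normalizer_iff.mp y.2 s).mp hs)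
    refine ⟨k, ?_⟩
    apply Subtype.ext
    show (φ y) ^ (p ^ k) = 1
    rw [← map_pow]
    ext s
    rw [hφ1]
    show ((y ^ p ^ k : H0) : G) * s * ((y ^ p ^ k : H0) : G)⁻¹ = s
    have h1 : ((y ^ p ^ k : H0) : G) = (y : G) ^ p ^ k := by simp
    rw [h1, hk s s.2]
    group
  have : Finite φ.range := inferInstance
  have : Group.IsNilpotent φ.range := hpg.isNilpotent
  set f : H0 →* φ.range := φ.rangeRestrict with hf
  obtain ⟨n, hn⟩ := nilpotent_Tg (f ⟨a, ha⟩) (f ⟨b m1, hm1 m1 le_rfl⟩)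
  have hit : ∀ k, (Tg (f ⟨a, ha⟩))^[k] (f ⟨b m1, hm1 m1 le_rfl⟩) =
      f ⟨b (m1 + k), hm1 (m1 + k) (by omega)⟩ := by
    intro k
    induction k with
    | zero => rfl
    | succ k ih =>
      rw [Function.iterate_succ_apply', ih, Tg, ← map_mul, ← map_inv, ← map_mul]
      congr 1
      apply Subtype.ext
      show b (m1 + k) * a * (b (m1 + k))⁻¹ = b (m1 + (k + 1))
      rw [← P.hb]
      rfl
  refine ⟨m1 + n, fun m hm => ⟨hm1 m (by omega), fun s hs => ?_⟩⟩
  have h1 := hn (m - m1) (by omega)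
  rw [hit] at h1
  have h2 : φ ⟨b (m1 + (m - m1)), hm1 _ (by omega)⟩ = φ ⟨a, ha⟩ := congrArg Subtype.val h1
  have h3 := hφ1 ⟨b (m1 + (m - m1)), hm1 _ (by omega)⟩ ⟨s, hs⟩
  have h4 := hφ1 ⟨a, ha⟩ ⟨s, hs⟩
  rw [h2, h4] at h3
  have h5 : m1 + (m - m1) = m := by omega
  have h6 : a * s * a⁻¹ = b (m1 + (m - m1)) * s * (b (m1 + (m - m1)))⁻¹ := h3
  rw [h5] at h6
  exact h6.symm

end Pool.Agent.Lib.H14E
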