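import Pool.Agent.Lib.H14E.PS6

/-!
# H14E / PS7: P-step, the finite group `A = ⟨a⟩ S` and its angles
-/

set_option autoImplicit false

namespace Pool.Agent.Lib.H14E

open Pool.Agent.Lib.H76.Morse GeoMet

theorem mem_zpowers_sup {G : Type} [Group G] {S : Subgroup G} {a : G}
    (ha : a ∈ Subgroup.normalizer (S : Set G)) {w : G} (hw : w ∈ Subgroup.zpowers a ⊔ S) :
    ∃ i : ℤ, ∃ s ∈ S, w = a ^ i * s := by
  have h : (w : G) ∈ ((Subgroup.zpowers a ⊔ S : Subgroup G) : Set G) := hw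
  rw [Subgroup.coe_mul_of_left_le_normalizer_right _ _
    ((Subgroup.zpowers_le).mpr ha)] at h
  obtain ⟨y, hy, s, hs, rfl⟩ := h
  obtain ⟨i, rfl⟩ := Subgroup.mem_zpowers_iff.mp hy
  exact ⟨i, s, hs, rfl⟩

theorem sup_finite {G : Type} [Group G] {S : Subgroup G} {a : G}
    (ha : a ∈ Subgroup.normalizer (S : Set G)) (hf : IsOfFinOrder a) (hS : (S : Set G).Finite) :
    ((Subgroup.zpowers a ⊔ S : Subgroup G) : Set G).Finite := by
  rw [Subgroup.coe_mul_of_left_le_normalizer_right _ _ ((Subgroup.zpowers_le).mpr ha)]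
  have h1 : ((Subgroup.zpowers a : Subgroup G) : Set G).Finite := finite_zpowers.mpr hf
  exact h1.mul hS

theorem sup_normalizes {G : Type} [Group G] {S : Subgroup G} {a : G}
    (ha : a ∈ Subgroup.normalizer (S : Set G)) {w : G} (hw : w ∈ Subgroup.zpowers a ⊔ S) :
    w ∈ Subgroup.normalizer (S : Set G) := by
  have h : Subgroup.zpowers a ⊔ S ≤ Subgroup.normalizer (S : Set G) :=
    sup_le ((Subgroup.zpowers_le).mpr ha) Subgroup.le_normalizer
  exact h hw

variable {X : Type} [GeoMet X] {G : Type} [Group G] [MulAction G X]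
variable {p δ σ : ℕ} {a : G} {b : ℕ → G} {x : X}

/-- An element outside `S` has a bounded angle with the ray. -/
theorem angle_of_notMem (hX : Hyp δ X) (hiso : IsoAct G X) (R : Ray x a b σ) (w : G)
    (hw : w ∉ SR hiso x b) :
    ∃ T, (∀ j, gp x (b j • x) (w • b j • x) ≤ T) ∧
      ∀ j, gp x ((b j)⁻¹ • x) (w • (b j)⁻¹ • x) ≤ T := by
  -- the bound for `u j`
  have h1 : ∃ T, ∀ j, gp x (b j • x) (w • b j • x) ≤ T := by
    by_contra hcon
    push Not at hcon
    refine hw ⟨3 * dsp w x + σ + 2 * δ, fun i => ?_⟩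
    obtain ⟨j, hj⟩ := hcon (2 * dsp (b i) x)
    have hij : i < j := by
      by_contra h
      have h2 := R.mono (i := j) (j := i) (by omega)
      have h3 := gp_le_left x (b j • x) (w • b j • x)
      have e : dsp (b j) x = d x (b j • x) := rfl
      omega
    have h2 := R.gu i j hij
    have f1 := gp_four hX x (b i • x) (b j • x) (w • b i • x)
    have f2 := gp_four hX x (b j • x) (w • b j • x) (w • b i • x)
    have f3 := gp_smul_smul hiso w x (b j • x) (b i • x)
    have f4 := gp_comm x (b j • x) (b i • x)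
    have f5 := dsp_gp x (b i • x) w
    have f6 := hiso w x (b i • x)
    have f7 := d_tri x (w • x) (w • b i • x)
    have e : dsp (b i) x = d x (b i • x) := rfl
    have e' : dsp w x = d x (w • x) := rfl
    omega
  obtain ⟨T, hT⟩ := h1
  -- the bound for the inverses
  set M := T + σ + 2 * dsp w x + 2 * δ + 1 with hM
  refine ⟨M + 2 * dsp (b (M + 1)) x, fun j => (hT j).trans (by omega), fun j => ?_⟩
  rcases Nat.lt_or_ge (M + 1) j with hj | hj
  · have h2 := R.gi (j - 1) j (by omega)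
    have h3 := R.le_len (j - 1)
    have h4 := hT (j - 1)
    have f1 := gp_four hX x (b (j - 1) • x) ((b j)⁻¹ • x) (w • b (j - 1) • x)
    have f2 := gp_four hX x ((b j)⁻¹ • x) (w • (b j)⁻¹ • x) (w • b (j - 1) • x)
    have f3 := gp_smul_smul hiso w x ((b j)⁻¹ • x) (b (j - 1) • x)
    have f4 := gp_comm x ((b j)⁻¹ • x) (b (j - 1) • x)
    omega
  · have h2 := gp_le_left x ((b j)⁻¹ • x) (w • (b j)⁻¹ • x)
    have h3 : d x ((b j)⁻¹ • x) = dsp (b j) x := dsp_inv hiso (b j) x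
    have h4 := R.mono (i := j) (j := M + 1) hj
    omega

/-- Uniform bounds for the finite group `A = ⟨a⟩ S`. -/
theorem angle_A (P : PData p δ X a b) (R : Ray x a b σ) :
    ∃ T, (∀ w ∈ Subgroup.zpowers a ⊔ SR P.hG.iso x b, dsp w x ≤ T) ∧
      ∀ w ∈ Subgroup.zpowers a ⊔ SR P.hG.iso x b, w ∉ SR P.hG.iso x b →
      (∀ j, gp x (b j • x) (w • b j • x) ≤ T) ∧
      ∀ j, gp x ((b j)⁻¹ • x) (w • (b j)⁻¹ • x) ≤ T := by
  classical
  set S := SR P.hG.iso x b with hS
  have hfin := sup_finite (SR_norm_a P R) P.ha (SR_finite P R)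
  have hh : ∀ w : G, ∃ T, dsp w x ≤ T ∧ (w ∉ S →
      (∀ j, gp x (b j • x) (w • b j • x) ≤ T) ∧
      ∀ j, gp x ((b j)⁻¹ • x) (w • (b j)⁻¹ • x) ≤ T) := by
    intro w
    by_cases hw : w ∈ S
    · exact ⟨dsp w x, le_rfl, fun h => (h hw).elim⟩
    · obtain ⟨T, hT1, hT2⟩ := angle_of_notMem P.hX P.hG.iso R w hw
      exact ⟨max T (dsp w x), le_max_right _ _, fun _ =>
        ⟨fun j => (hT1 j).trans (le_max_left _ _), fun j => (hT2 j).trans (le_max_left _ _)⟩⟩
  choose T hT using hh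
  refine ⟨hfin.toFinset.sup T, fun w hw => ?_, fun w hw hw2 => ?_⟩
  · exact (hT w).1.trans (Finset.le_sup ((Set.Finite.mem_toFinset hfin).mpr hw))
  · have h1 : T w ≤ hfin.toFinset.sup T := Finset.le_sup ((Set.Finite.mem_toFinset hfin).mpr hw)
    obtain ⟨h2, h3⟩ := (hT w).2 hw2
    exact ⟨fun j => (h2 j).trans h1, fun j => (h3 j).trans h1⟩

end Pool.Agent.Lib.H14E
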