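import Pool.Agent.Lib.H14E.DispFin

/-!
# H14E / PS8: broken geodesics; the paths of alternating words
-/

set_option autoImplicit false

namespace Pool.Agent.Lib.H14E

open Pool.Agent.Lib.H76.Morse GeoMet

section Chain

variable {X : Type} [GeoMet X]

/-- Broken geodesics with long pieces and small Gromov products. -/
theorem chain_gp {δ k L : ℕ} (hX : Hyp δ X) (P : ℕ → X) (N : ℕ)
    (hl : ∀ i, i < N → L ≤ d (P i) (P (i + 1)))
    (hg : ∀ i, i + 2 ≤ N → gp (P (i + 1)) (P i) (P (i + 2)) ≤ k) (hL : 2 * k + 4 * δ + 1 ≤ 2 * L) :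
    ∀ i, i + 2 ≤ N → gp (P (i + 1)) (P 0) (P (i + 2)) ≤ k + δ := by
  intro i
  induction i with
  | zero =>
    intro h
    have := hg 0 h
    omega
  | succ i ih =>
    intro h
    have h1 := ih (by omega)
    have h2 := hg (i + 1) (by omega)
    have h3 := hl (i + 1) (by omega)
    rw [show i + 1 + 1 = i + 2 by omega, show i + 1 + 2 = i + 3 by omega] at *
    have f1 := gp_four hX (P (i + 2)) (P (i + 1)) (P 0) (P (i + 3))
    have f2 := gp_add (P (i + 2)) (P (i + 1)) (P 0)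
    have f3 := gp_add (P (i + 1)) (P 0) (P (i + 2))
    have c1 := d_comm (P (i + 2)) (P (i + 1))
    have c2 := d_comm (P (i + 2)) (P 0)
    have c3 := d_comm (P (i + 1)) (P 0)
    omega

theorem chain_grow {δ k L : ℕ} (hX : Hyp δ X) (P : ℕ → X) (N : ℕ)
    (hl : ∀ i, i < N → L ≤ d (P i) (P (i + 1)))
    (hg : ∀ i, i + 2 ≤ N → gp (P (i + 1)) (P i) (P (i + 2)) ≤ k) (hL : 2 * k + 4 * δ + 1 ≤ 2 * L) :
    ∀ i, i < N → d (P 0) (P i) + L ≤ d (P 0) (P (i + 1)) + k + δ := by
  intro i hi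
  rcases i with _ | i
  · have h1 := hl 0 hi
    have h2 := d_self (P 0)
    omega
  · have h1 := chain_gp hX P N hl hg hL i (by omega)
    have h2 := hl (i + 1) hi
    have f3 := gp_add (P (i + 1)) (P 0) (P (i + 2))
    have c3 := d_comm (P (i + 1)) (P 0)
    rw [show i + 1 + 1 = i + 2 by omega] at *
    omega

theorem chain_len {δ k L : ℕ} (hX : Hyp δ X) (P : ℕ → X) (N : ℕ)
    (hl : ∀ i, i < N → L ≤ d (P i) (P (i + 1)))
    (hg : ∀ i, i + 2 ≤ N → gp (P (i + 1)) (P i) (P (i + 2)) ≤ k) (hL : 2 * k + 4 * δ + 1 ≤ 2 * L)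
    (hL2 : k + δ + 1 ≤ L) : ∀ i, i ≤ N → i ≤ d (P 0) (P i) := by
  intro i
  induction i with
  | zero => intro _; exact Nat.zero_le _
  | succ i ih =>
    intro hi
    have h1 := ih (by omega)
    have h2 := chain_grow hX P N hl hg hL i (by omega)
    omega

theorem chain_defect {δ k L : ℕ} (hX : Hyp δ X) (P : ℕ → X) (N : ℕ)
    (hl : ∀ i, i < N → L ≤ d (P i) (P (i + 1)))
    (hg : ∀ i, i + 2 ≤ N → gp (P (i + 1)) (P i) (P (i + 2)) ≤ k) (hL : 2 * k + 4 * δ + 1 ≤ 2 * L) :
    ∀ i, i ≤ N → gp (P i) (P 0) (P N) ≤ k + 2 * δ := by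
  intro i hi
  rcases Nat.eq_zero_or_pos i with h0 | h0
  · subst h0
    have f3 := gp_add (P 0) (P 0) (P N)
    have := d_self (P 0)
    omega
  rcases Nat.eq_or_lt_of_le hi with hN | hN
  · subst hN
    have f3 := gp_add (P i) (P 0) (P i)
    have := d_self (P i)
    have c3 := d_comm (P i) (P 0)
    omega
  · -- the reversed chain
    have hrev := chain_gp hX (fun j => P (N - j)) N (L := L) (k := k)
      (by
        intro j hj
        have := hl (N - (j + 1)) (by omega)
        rw [show N - (j + 1) + 1 = N - j by omega, d_comm] at this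
        exact this)
      (by
        intro j hj
        have := hg (N - (j + 2)) (by omega)
        rw [show N - (j + 2) + 1 = N - (j + 1) by omega,
          show N - (j + 2) + 2 = N - j by omega, gp_comm] at this
        exact this) hL
    have h1 := chain_gp hX P N hl hg hL (i - 1) (by omega)
    rw [show i - 1 + 1 = i by omega, show i - 1 + 2 = i + 1 by omega] at h1
    have f1 := gp_four hX (P i) (P 0) (P N) (P (i + 1))
    have h3 := hl i hN
    rcases Nat.eq_or_lt_of_le (Nat.succ_le_of_lt hN) with hN1 | hN1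
    · have e : i + 1 = N := hN1
      rw [e] at h1
      omega
    · have h2 := hrev (N - i - 2) (by omega)
      rw [show N - (N - i - 2 + 1) = i + 1 by omega, show N - (N - i - 2 + 2) = i by omega,
        show N - 0 = N by omega] at h2
      have f2 := gp_add (P i) (P N) (P (i + 1))
      have f3 := gp_add (P (i + 1)) (P N) (P i)
      have c1 := d_comm (P (i + 1)) (P i)
      have c2 := d_comm (P (i + 1)) (P N)
      have c3 := d_comm (P N) (P i)
      omega

/-- Replacing the end points of a line by nearby points. -/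
theorem defect_move {δ η r : ℕ} (hX : Hyp δ X) {y u v u' v' : X} (h : gp y u v ≤ η)
    (hu : d u u' ≤ r) (hv : d v v' ≤ r) (h1 : 2 * r + η + 2 * δ + 1 ≤ 2 * d y u)
    (h2 : 2 * r + η + 2 * δ + 1 ≤ 2 * d y v) : gp y u' v' ≤ η + 2 * δ := by
  have f1 := gp_four hX y u u' v
  have f2 := gp_four hX y u' v' v
  have g1 := gp_add y u u'
  have g2 := gp_add y v' v
  have t1 := d_tri y u' u
  have t2 := d_tri y v' v
  have c1 := d_comm u u'
  have c2 := d_comm v v'
  omega

end Chain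

/-- Alternating types. -/
def alt (t0 : Bool) : ℕ → Bool
  | 0 => t0
  | i + 1 => !alt t0 i

theorem alt_zero (t0 : Bool) : alt t0 0 = t0 := rfl

theorem alt_succ (t0 : Bool) (i : ℕ) : alt t0 (i + 1) = !alt t0 i := rfl

variable {X : Type} [GeoMet X] {G : Type} [Group G] [MulAction G X]

/-- The two kinds of vertices. -/
def vt (x : X) (c : G) (t : Bool) : X := if t then x else c • x

/-- The two vertex groups. -/
def sd (A B : Subgroup G) (t : Bool) : Subgroup G := if t then A else B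

/-- Partial products. -/
def hp (w : ℕ → G) : ℕ → G
  | 0 => 1
  | i + 1 => hp w i * w i

/-- The points of the path of a word. -/
def pth (x : X) (c : G) (t0 : Bool) (w : ℕ → G) : ℕ → X
  | 0 => vt x c (!t0)
  | i + 1 => hp w i • vt x c (alt t0 i)

/-- The geometry of the pair of vertex groups. -/
structure PGeo (δ s ℓ : ℕ) (x : X) (c : G) (A B S : Subgroup G) : Prop where
  hX : Hyp δ X
  iso : IsoAct G X
  len : d x (c • x) = ℓ
  dA : ∀ w ∈ A, dsp w x ≤ s
  dB : ∀ w ∈ B, dsp w (c • x) ≤ s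
  gA : ∀ w ∈ A, w ∉ S → gp x (c • x) (w • c • x) ≤ s
  gB : ∀ w ∈ B, w ∉ S → gp (c • x) x (w • x) ≤ s
  SA : S ≤ A
  SB : S ≤ B
  nA : ∀ w ∈ A, w ∈ Subgroup.normalizer (S : Set G)
  nB : ∀ w ∈ B, w ∈ Subgroup.normalizer (S : Set G)
  big : 100 * (s + δ + 1) ≤ ℓ

namespace PGeo

variable {δ s ℓ : ℕ} {x : X} {c : G} {A B S : Subgroup G}

theorem dvt (Q : PGeo δ s ℓ x c A B S) (t : Bool) : d (vt x c t) (vt x c (!t)) = ℓ := by
  cases t
  · show d (c • x) x = ℓ
    rw [d_comm]
    exact Q.len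
  · exact Q.len

theorem dsd (Q : PGeo δ s ℓ x c A B S) (t : Bool) {w : G} (hw : w ∈ sd A B t) :
    dsp w (vt x c t) ≤ s := by
  cases t
  · exact Q.dB w hw
  · exact Q.dA w hw

theorem gsd (Q : PGeo δ s ℓ x c A B S) (t : Bool) {w : G} (hw : w ∈ sd A B t) (hS : w ∉ S) :
    gp (vt x c t) (vt x c (!t)) (w • vt x c (!t)) ≤ s := by
  cases t
  · exact Q.gB w hw hS
  · exact Q.gA w hw hS

/-- `w` is a word of length `n` which starts with the type `t0`. -/
def Alt (A B S : Subgroup G) (t0 : Bool) (w : ℕ → G) (n : ℕ) : Prop :=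
  ∀ i, i < n → w i ∈ sd A B (alt t0 i) ∧ w i ∉ S

theorem edge (Q : PGeo δ s ℓ x c A B S) {t0 : Bool} {w : ℕ → G} {n : ℕ}
    (hw : Alt A B S t0 w n) (i : ℕ) (hi : i ≤ n) :
    ℓ ≤ d (pth x c t0 w i) (pth x c t0 w (i + 1)) + s ∧
      d (pth x c t0 w i) (pth x c t0 w (i + 1)) ≤ ℓ + s := by
  rcases i with _ | i
  · have h1 : d (pth x c t0 w 0) (pth x c t0 w (0 + 1)) = ℓ := by
      show d (vt x c (!t0)) ((1 : G) • vt x c t0) = ℓ
      rw [one_smul, d_comm]
      exact Q.dvt t0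
    omega
  · obtain ⟨h1, h2⟩ := hw i (by omega)
    have e : d (pth x c t0 w (i + 1)) (pth x c t0 w (i + 1 + 1)) =
        d (vt x c (alt t0 i)) (w i • vt x c (!alt t0 i)) := by
      show d (hp w i • vt x c (alt t0 i)) ((hp w i * w i) • vt x c (!alt t0 i)) = _
      rw [mul_smul, Q.iso]
    have f1 := Q.iso (w i) (vt x c (alt t0 i)) (vt x c (!alt t0 i))
    have f2 := Q.dvt (alt t0 i)
    have f3 := Q.dsd (alt t0 i) h1
    have t1 := d_tri (vt x c (alt t0 i)) (w i • vt x c (alt t0 i)) (w i • vt x c (!alt t0 i))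
    have t2 := d_tri (w i • vt x c (alt t0 i)) (vt x c (alt t0 i)) (w i • vt x c (!alt t0 i))
    have c1 := d_comm (w i • vt x c (alt t0 i)) (vt x c (alt t0 i))
    unfold dsp at f3
    omega

/-- The `i`-th edge is almost the image of the basic edge by `hp w i`. -/
theorem near_edge (Q : PGeo δ s ℓ x c A B S) {t0 : Bool} {w : ℕ → G} {n : ℕ}
    (hw : Alt A B S t0 w n) (i : ℕ) (hi : i ≤ n) :
    d (pth x c t0 w i) (hp w i • vt x c (!alt t0 i)) ≤ s := by
  rcases i with _ | i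
  · have h1 : d (pth x c t0 w 0) (hp w 0 • vt x c (!alt t0 0)) = 0 := by
      show d (vt x c (!t0)) ((1 : G) • vt x c (!t0)) = 0
      rw [one_smul, d_self]
    omega
  · obtain ⟨h1, h2⟩ := hw i (by omega)
    have f3 := Q.dsd (alt t0 i) h1
    have e : d (pth x c t0 w (i + 1)) (hp w (i + 1) • vt x c (!alt t0 (i + 1))) =
        dsp (w i) (vt x c (alt t0 i)) := by
      show d (hp w i • vt x c (alt t0 i)) ((hp w i * w i) • vt x c (!!alt t0 i)) = _
      rw [Bool.not_not, mul_smul, Q.iso]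
      rfl
    omega

theorem turn (Q : PGeo δ s ℓ x c A B S) {t0 : Bool} {w : ℕ → G} {n : ℕ}
    (hw : Alt A B S t0 w n) (i : ℕ) (hi : i + 2 ≤ n + 1) :
    gp (pth x c t0 w (i + 1)) (pth x c t0 w i) (pth x c t0 w (i + 2)) ≤ 3 * s := by
  obtain ⟨h1, h2⟩ := hw i (by omega)
  have f1 := Q.near_edge hw i (by omega)
  have f2 := Q.gsd (alt t0 i) h1 h2
  have f3 := gp_move_left (pth x c t0 w (i + 1)) (pth x c t0 w i)
    (hp w i • vt x c (!alt t0 i)) (pth x c t0 w (i + 2))
  have e : gp (pth x c t0 w (i + 1)) (hp w i • vt x c (!alt t0 i)) (pth x c t0 w (i + 2)) =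
      gp (vt x c (alt t0 i)) (vt x c (!alt t0 i)) (w i • vt x c (!alt t0 i)) := by
    show gp (hp w i • vt x c (alt t0 i)) (hp w i • vt x c (!alt t0 i))
      ((hp w i * w i) • vt x c (!alt t0 i)) = _
    rw [mul_smul, gp_smul Q.iso]
  omega

end PGeo

end Pool.Agent.Lib.H14E
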