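import Pool.Agent.Lib.H14E.PS8

/-!
# H14E / PS9: alternating words are not trivial; normal forms
-/

set_option autoImplicit false

namespace Pool.Agent.Lib.H14E

open Pool.Agent.Lib.H76.Morse GeoMet

variable {X : Type} [GeoMet X] {G : Type} [Group G] [MulAction G X]

namespace PGeo

variable {δ s ℓ : ℕ} {x : X} {c : G} {A B S : Subgroup G}

/-- All points of the path of a word are almost on the geodesic between its ends. -/
theorem pth_defect (Q : PGeo δ s ℓ x c A B S) {t0 : Bool} {w : ℕ → G} {n : ℕ}
    (hw : Alt A B S t0 w n) (i : ℕ) (hi : i ≤ n + 1) :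
    gp (pth x c t0 w i) (pth x c t0 w 0) (pth x c t0 w (n + 1)) ≤ 3 * s + 2 * δ := by
  have hb := Q.big
  exact chain_defect Q.hX (pth x c t0 w) (n + 1) (L := ℓ - s) (k := 3 * s)
    (fun i hi => by have := Q.edge hw i (by omega); omega)
    (fun i hi => Q.turn hw i hi) (by omega) i hi

theorem pth_grow (Q : PGeo δ s ℓ x c A B S) {t0 : Bool} {w : ℕ → G} {n : ℕ}
    (hw : Alt A B S t0 w n) (i : ℕ) (hi : i ≤ n) :
    d (pth x c t0 w 0) (pth x c t0 w i) + ℓ ≤
      d (pth x c t0 w 0) (pth x c t0 w (i + 1)) + 4 * s + δ := by
  have hb := Q.big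
  have := chain_grow Q.hX (pth x c t0 w) (n + 1) (L := ℓ - s) (k := 3 * s)
    (fun i hi => by have := Q.edge hw i (by omega); omega)
    (fun i hi => Q.turn hw i hi) (by omega) i (by omega)
  omega

/-- Alternating words are not trivial. -/
theorem word_ne_one (Q : PGeo δ s ℓ x c A B S) {t0 : Bool} {w : ℕ → G} {n : ℕ}
    (hw : Alt A B S t0 w n) (hn : 1 ≤ n) : hp w n ∉ S := by
  have hb := Q.big
  rcases Nat.eq_or_lt_of_le hn with h1 | h1
  · subst h1
    have : hp w 1 = w 0 := by show 1 * w 0 = w 0; rw [one_mul]
    rw [this]
    exact (hw 0 (by omega)).2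
  · intro hS
    -- the distance from the first to the last point is at least three edges
    have g0 := Q.pth_grow hw 0 (by omega)
    have g1 := Q.pth_grow hw 1 (by omega)
    have g2 := Q.pth_grow hw 2 (by omega)
    have hmono : ∀ j, 3 ≤ j → j ≤ n + 1 → d (pth x c t0 w 0) (pth x c t0 w 3) ≤
        d (pth x c t0 w 0) (pth x c t0 w j) := by
      intro j hj
      induction j, hj using Nat.le_induction with
      | base => intro _; exact le_rfl
      | succ j hj ih =>
        intro h
        have := ih (by omega)
        have := Q.pth_grow hw j (by omega)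
        omega
    have hlast := hmono (n + 1) (by omega) le_rfl
    rw [show 0 + 1 = 1 by omega] at g0
    rw [show 1 + 1 = 2 by omega] at g1
    rw [show 2 + 1 = 3 by omega] at g2
    -- but it is small
    have e : d (pth x c t0 w 0) (pth x c t0 w (n + 1)) ≤ ℓ + s := by
      show d (vt x c (!t0)) (hp w n • vt x c (alt t0 n)) ≤ ℓ + s
      have hsd : ∀ t, hp w n ∈ sd A B t := by
        intro t
        cases t
        · exact Q.SB hS
        · exact Q.SA hS
      have f1 := Q.dsd (alt t0 n) (hsd _)
      have f2 : d (vt x c (!t0)) (vt x c (alt t0 n)) ≤ ℓ := by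
        have h3 := Q.dvt t0
        have h4 := Q.dvt (!t0)
        rw [Bool.not_not] at h4
        rcases Bool.eq_or_eq_not (alt t0 n) t0 with h5 | h5
        · rw [h5]; omega
        · rw [h5, d_self]; exact Nat.zero_le _
      have t1 := d_tri (vt x c (!t0)) (vt x c (alt t0 n)) (hp w n • vt x c (alt t0 n))
      unfold dsp at f1
      omega
    omega

end PGeo

open PGeo

theorem hp_congr {w w' : ℕ → G} {n : ℕ} (h : ∀ i, i < n → w i = w' i) : hp w n = hp w' n := by
  induction n with
  | zero => rfl
  | succ n ih =>
    show hp w n * w n = hp w' n * w' n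
    rw [ih (fun i hi => h i (by omega)), h n (by omega)]

/-- Normal forms. -/
def NF (A B S : Subgroup G) (g : G) : Prop :=
  ∃ (n : ℕ) (t0 : Bool) (w : ℕ → G), Alt A B S t0 w n ∧ ∃ s ∈ S, g = hp w n * s

theorem NF.mul {A B S : Subgroup G} (SA : S ≤ A) (SB : S ≤ B) {g u : G} (hg : NF A B S g)
    (r : Bool) (hu : u ∈ sd A B r) : NF A B S (g * u) := by
  classical
  obtain ⟨n, t0, w, hw, s, hs, rfl⟩ := hg
  have hsS : ∀ t, s ∈ sd A B t := by
    intro t
    cases t
    · exact SB hs
    · exact SA hs
  have hsu : s * u ∈ sd A B r := (sd A B r).mul_mem (hsS r) hu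
  by_cases hin : s * u ∈ S
  · exact ⟨n, t0, w, hw, s * u, hin, by group⟩
  rcases n with _ | n
  · refine ⟨1, r, fun _ => s * u, ?_, 1, S.one_mem, ?_⟩
    · intro i hi
      have : i = 0 := by omega
      subst this
      exact ⟨hsu, hin⟩
    · show 1 * s * u = 1 * (s * u) * 1
      group
  · obtain ⟨h1, h2⟩ := hw n (by omega)
    by_cases hr : alt t0 n = r
    · -- same type as the last letter
      rw [hr] at h1
      have h3 : w n * (s * u) ∈ sd A B r := (sd A B r).mul_mem h1 hsu
      by_cases h4 : w n * (s * u) ∈ S
      · refine ⟨n, t0, w, fun i hi => hw i (by omega), _, h4, ?_⟩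
        show hp w n * w n * s * u = hp w n * (w n * (s * u))
        group
      · refine ⟨n + 1, t0, Function.update w n (w n * (s * u)), ?_, 1, S.one_mem, ?_⟩
        · intro i hi
          rcases Nat.eq_or_lt_of_le (Nat.lt_succ_iff.mp hi) with h5 | h5
          · subst h5
            rw [Function.update_self, hr]
            exact ⟨h3, h4⟩
          · rw [Function.update_of_ne (by omega)]
            exact hw i (by omega)
        · have h5 : hp (Function.update w n (w n * (s * u))) n = hp w n := by
            apply hp_congr
            intro i hi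
            rw [Function.update_of_ne (by omega)]
          show hp w n * w n * s * u = hp (Function.update w n (w n * (s * u))) n *
            Function.update w n (w n * (s * u)) n * 1
          rw [h5, Function.update_self]
          group
    · -- the other type
      have hr' : r = alt t0 (n + 1) := by
        rw [alt_succ]
        cases h5 : alt t0 n <;> cases r <;> simp_all
      refine ⟨n + 2, t0, Function.update w (n + 1) (s * u), ?_, 1, S.one_mem, ?_⟩
      · intro i hi
        rcases Nat.eq_or_lt_of_le (Nat.lt_succ_iff.mp hi) with h5 | h5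
        · subst h5
          rw [Function.update_self, ← hr']
          exact ⟨hsu, hin⟩
        · rw [Function.update_of_ne (by omega)]
          exact hw i (by omega)
      · have h5 : hp (Function.update w (n + 1) (s * u)) (n + 1) = hp w (n + 1) := by
          apply hp_congr
          intro i hi
          rw [Function.update_of_ne (by omega)]
        show hp w (n + 1) * s * u = hp (Function.update w (n + 1) (s * u)) (n + 1) *
          Function.update w (n + 1) (s * u) (n + 1) * 1
        rw [h5, Function.update_self]
        group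

theorem exists_NF {A B S : Subgroup G} (SA : S ≤ A) (SB : S ≤ B) {g : G} (hg : g ∈ A ⊔ B) :
    NF A B S g := by
  rw [Subgroup.sup_eq_closure] at hg
  induction hg using Subgroup.closure_induction_right with
  | one => exact ⟨0, true, fun _ => 1, fun i hi => by omega, 1, S.one_mem, by show 1 = 1 * 1; simp⟩
  | mul_right x y hx hy ih =>
    rcases hy with hy | hy
    · exact ih.mul SA SB true hy
    · exact ih.mul SA SB false hy
  | mul_inv_cancel x y hx hy ih =>
    rcases hy with hy | hy
    · exact ih.mul SA SB true (A.inv_mem hy)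
    · exact ih.mul SA SB false (B.inv_mem hy)

theorem hp_mem {A B S : Subgroup G} {t0 : Bool} {w : ℕ → G} {n : ℕ} (hw : Alt A B S t0 w n)
    (i : ℕ) (hi : i ≤ n) : hp w i ∈ A ⊔ B := by
  induction i with
  | zero => exact Subgroup.one_mem _
  | succ i ih =>
    have h1 := (hw i (by omega)).1
    refine Subgroup.mul_mem _ (ih (by omega)) ?_
    cases h2 : alt t0 i
    · rw [h2] at h1; exact (le_sup_right : B ≤ A ⊔ B) h1
    · rw [h2] at h1; exact (le_sup_left : A ≤ A ⊔ B) h1

end Pool.Agent.Lib.H14E
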