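import Pool.Agent.Lib.H14E.PS7
import Pool.Agent.Lib.H14E.PS11

/-!
# H14E: the geometric part of the P-step (module E)

`a` of finite order, the sequence `b_{j+1} = b_j a b_j⁻¹` never reaches `a`.  For a suitable
large `m` the group `D = ⟨a, b_m⟩ S` is of type P and peripheral.
-/

set_option autoImplicit false

namespace Pool.Agent.Lib.H14E

open Pool.Agent.Lib.H76.Morse GeoMet

theorem pstep {p : ℕ} (hp : p.Prime) (hp2 : p ≠ 2) {G X : Type} [Group G] [GeoMet X]
    [MulAction G X] {δ : ℕ} (hX : Hyp δ X) (hG : Geom G X) (hT : PTors p G) (hN : NoRec G)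
    (a b₀ : G) (ha : IsOfFinOrder a) (hne : ∀ j : ℕ, (Tg a)^[j] b₀ ≠ a) :
    ∃ (D A B S : Subgroup G) (t : G) (m : ℕ) (y₀ : X),
      TypeP D A B S a ((Tg a)^[m] b₀) t ∧ Periph D y₀ := by
  classical
  have P0 : PData p δ X a (fun j => (Tg a)^[j] b₀) :=
    { hp := hp, hp2 := hp2, hX := hX, hG := hG, hT := hT, hN := hN, ha := ha
      hb := fun j => by
        show (Tg a)^[j + 1] b₀ = _
        rw [Function.iterate_succ_apply', Tg]
      hne := hne }
  obtain ⟨x⟩ := hG.ne
  obtain ⟨σ, J, R⟩ := exists_ray P0 x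
  set b : ℕ → G := fun j => (Tg a)^[j + J] b₀ with hb
  have P : PData p δ X a b := P0.shift J
  have R' : Ray x a b σ := R
  set S := SR P.hG.iso x b with hS
  have hSfin := SR_finite P R'
  have han := SR_norm_a P R'
  obtain ⟨s, hs1, hs2⟩ := angle_A P R'
  obtain ⟨R0, hR0⟩ := noswap hp hp2 hX hG hT (100 * (s + δ + 1))
  obtain ⟨m0, hm0⟩ := R'.stable hX hG (R0 + 100 * (s + δ + 1))
  obtain ⟨m2, hm2⟩ := SR_act P R'
  set j := m0 + m2 + 10 * (R0 + 100 * (s + δ + 1)) with hj
  set c := b j with hc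
  have hlen : j ≤ dsp c x := R'.le_len j
  have hbig : 10 * (R0 + 100 * (s + δ + 1)) ≤ dsp c x := by
    refine le_trans ?_ hlen
    rw [hj]
    exact Nat.le_add_left _ _
  obtain ⟨hcn, hcact⟩ := hm2 j (by omega)
  obtain ⟨hbn, _⟩ := hm2 (j + 1) (by omega)
  set bm := b (j + 1) with hbm
  have ebm : bm = c * a * c⁻¹ := P.hb j
  set A := Subgroup.zpowers a ⊔ S with hA
  set B := Subgroup.zpowers bm ⊔ S with hB
  have hcS : ∀ y ∈ S, c * y * c⁻¹ ∈ S := fun y hy => (Subgroup.mem_normalizer_iff.mp hcn y).mp hy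
  have hcS' : ∀ y, c * y * c⁻¹ ∈ S → y ∈ S := fun y hy =>
    (Subgroup.mem_normalizer_iff.mp hcn y).mpr hy
  have hBA : ∀ w ∈ B, ∃ w' ∈ A, w = c * w' * c⁻¹ := by
    intro w hw
    obtain ⟨i, y, hy, rfl⟩ := mem_zpowers_sup hbn hw
    refine ⟨a ^ i * (c⁻¹ * y * c), ?_, ?_⟩
    · refine Subgroup.mul_mem _ ((le_sup_left : Subgroup.zpowers a ≤ A)
        (Subgroup.mem_zpowers_iff.mpr ⟨i, rfl⟩)) ((le_sup_right : S ≤ A) (hcS' _ ?_))
      have : c * (c⁻¹ * y * c) * c⁻¹ = y := by group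
      rw [this]
      exact hy
    · rw [ebm, conj_zpow]
      group
  have hAn : ∀ w ∈ A, w ∈ Subgroup.normalizer (S : Set G) := fun w hw => sup_normalizes han hw
  have hBn : ∀ w ∈ B, w ∈ Subgroup.normalizer (S : Set G) := fun w hw => sup_normalizes hbn hw
  have Q : PGeo δ s (dsp c x) x c A B S :=
    { hX := hX
      iso := hG.iso
      len := rfl
      dA := hs1
      dB := by
        intro w hw
        obtain ⟨w', hw', rfl⟩ := hBA w hw
        rw [dsp_conj hG.iso, inv_smul_smul]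
        exact hs1 w' hw'
      gA := fun w hw hwS => (hs2 w hw hwS).1 j
      gB := by
        intro w hw hwS
        obtain ⟨w', hw', rfl⟩ := hBA w hw
        have h1 : w' ∉ S := fun h => hwS (hcS w' h)
        have h2 := (hs2 w' hw' h1).2 j
        have h3 := gp_smul hG.iso c x (c⁻¹ • x) (w' • c⁻¹ • x)
        rw [smul_inv_smul] at h3
        have h4 : (c * w' * c⁻¹) • x = c • w' • c⁻¹ • x := by rw [mul_smul, mul_smul]
        rw [h4, h3]
        exact h2
      SA := le_sup_right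
      SB := le_sup_right
      nA := hAn
      nB := hBn
      big := by omega }
  have hstab : ∀ k : G, dsp k x ≤ R0 + 100 * (s + δ + 1) →
      dsp k (c • x) ≤ R0 + 100 * (s + δ + 1) → k ∈ S :=
    fun k h1 h2 => hm0 j (by omega) k h1 (Or.inl h2)
  refine ⟨A ⊔ B, A, B, S, c * a⁻¹, j + 1 + J, x, ?_, ?_⟩
  · refine { fin := hSfin, nrm := ?_, afin := ha, hA := rfl, hB := rfl, hD := rfl, hb := ?_,
             ht := ?_, red := ?_ }
    · exact fun y hy => (Subgroup.mem_normalizer_iff.mp han y).mp hy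
    · show bm = c * a⁻¹ * a * (c * a⁻¹)⁻¹
      rw [ebm]
      group
    · intro y hy
      have h1 : a⁻¹ * y * a ∈ S := by
        have h2 := (Subgroup.mem_normalizer_iff.mp han (a⁻¹ * y * a)).mpr
        apply h2
        have : a * (a⁻¹ * y * a) * a⁻¹ = y := by group
        rw [this]
        exact hy
      have h2 := hcact _ h1
      have h3 : a * (a⁻¹ * y * a) * a⁻¹ = y := by group
      rw [h3] at h2
      calc c * a⁻¹ * y = (c * (a⁻¹ * y * a) * c⁻¹) * (c * a⁻¹) := by group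
        _ = y * (c * a⁻¹) := by rw [h2]
    · intro l hl h hch
      obtain ⟨n, t0, w, hn, hw, he⟩ := list_word (A := A) (B := B) (S := S) l hl h hch
      rw [← he]
      intro h1
      exact Q.word_ne_one hw hn (by rw [h1]; exact S.one_mem)
  · refine ⟨Q.qc, fun r => ⟨20 * (dsp c x + r + s + δ + 1), ?_⟩⟩
    intro g hg u v hu1 hv1 hu2 hv2
    by_contra hcon
    exact hg (Q.overlap (R := R0) (ε := 100 * (s + δ + 1)) (K := R0 + 100 * (s + δ + 1)) hR0
      le_rfl le_rfl hbig hstab r g u v hu1 hv1 hu2 hv2 (not_le.mp hcon))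

end Pool.Agent.Lib.H14E
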