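import Pool.Agent.Lib.H14E.PkDefs

/-!
# H14E, module C, chunk Pk1: basic facts (S/M, pure)

All facts follow directly from the fields of `Rot` and `mem_H`.

* `beh`: by `strong` with `y = ap c`: `dc z x (ap c) = dc z (ap c) (ap c) <= th` (`dc_diag`,
  `ap c ≠ ap z` by `ap_ne`).
* `H_comm`: ext, `mem_H`, `dc_comm`.  `sg_comm`: rewrite `H_comm`, `dc_comm` in the sum.
* `sg_smul`: the map `c ↦ g • c` is a bijection from `H x y` onto `H (g • x) (g • y)`
  (`Finset.sum_bij'` or `Finset.sum_nbij'` with the inverse `c ↦ g⁻¹ • c`; `dc_smul`; for the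
  points: `g • x ≠ ap (g • c) = g • ap c` iff `x ≠ ap c`).
* `sg_self`: `H x x = ∅` because `dc c x x <= th <= 2 th`.
* `le_sg`: a term of a sum of naturals, `Finset.single_le_sum`.
* `dc_rot`: `dc c (m • y) (m • z) = dc c y z` for `m ∈ M c`: `dc_smul` and `M_fix`.
* `sg_rot`: `sg (ap c) (m • y) = sg (ap c) y` for `m ∈ M c`: `sg_smul` and `M_ap`.
* `sg_rot'`: `sg (ap c) (m • ap z) = sg (ap c) (ap z)`: special case.
* `nap_smul`: if `x` is not an apex then `g • x` is not an apex.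
-/

set_option autoImplicit false

namespace Pool.Agent.Lib.H14E

open Pool.Agent.Lib.H76.Morse GeoMet

namespace Rot

variable {E V C : Type} [Group E] [MulAction E V] [MulAction E C] (R : Rot E V C)

theorem beh {c z : C} {x : V} (h : c ≠ z) (hc : x ≠ R.ap c) (hz : x ≠ R.ap z)
    (hl : R.th < R.dc c x (R.ap z)) : R.dc z x (R.ap c) ≤ R.th := by
  rw [R.strong c z x h hc hz hl (R.ap c) (R.ap_ne h)]
  exact R.dc_diag z (R.ap c) (R.ap_ne h)

theorem H_comm (x y : V) : R.H x y = R.H y x := by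
  classical
  ext c
  rw [R.mem_H, R.mem_H, R.dc_comm c x y]
  constructor
  · rintro ⟨h1, h2, h3⟩
    exact ⟨h2, h1, h3⟩
  · rintro ⟨h1, h2, h3⟩
    exact ⟨h2, h1, h3⟩

theorem sg_comm (x y : V) : R.sg x y = R.sg y x := by
  unfold sg
  rw [R.H_comm x y]
  exact Finset.sum_congr rfl (fun c _ => R.dc_comm c x y)

theorem pk1_mem (g : E) (x y : V) (c : C) : c ∈ R.H x y ↔ g • c ∈ R.H (g • x) (g • y) := by
  rw [R.mem_H, R.mem_H, R.ap_smul, R.dc_smul]
  constructor
  · rintro ⟨h1, h2, h3⟩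
    exact ⟨fun e => h1 (MulAction.injective g e), fun e => h2 (MulAction.injective g e), h3⟩
  · rintro ⟨h1, h2, h3⟩
    exact ⟨fun e => h1 (by rw [e]), fun e => h2 (by rw [e]), h3⟩

theorem sg_smul (g : E) (x y : V) : R.sg (g • x) (g • y) = R.sg x y := by
  unfold sg
  symm
  refine Finset.sum_nbij' (fun c => g • c) (fun c => g⁻¹ • c) ?_ ?_ ?_ ?_ ?_
  · intro c hc
    exact (R.pk1_mem g x y c).mp hc
  · intro c hc
    apply (R.pk1_mem g x y (g⁻¹ • c)).mpr
    rw [smul_inv_smul]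
    exact hc
  · intro c _
    exact inv_smul_smul g c
  · intro c _
    exact smul_inv_smul g c
  · intro c _
    exact (R.dc_smul g c x y).symm

theorem sg_self (x : V) : R.sg x x = 0 := by
  unfold sg
  apply Finset.sum_eq_zero
  intro c hc
  obtain ⟨h1, _, h3⟩ := R.mem_H.mp hc
  have := R.dc_diag c x h1
  omega

theorem le_sg {x y : V} {c : C} (h : c ∈ R.H x y) : R.dc c x y ≤ R.sg x y := by
  unfold sg
  exact Finset.single_le_sum (f := fun c => R.dc c x y) (fun i _ => Nat.zero_le _) h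

theorem dc_rot {c : C} {m : E} (hm : m ∈ R.M c) (x y : V) :
    R.dc c (m • x) (m • y) = R.dc c x y := by
  have h := R.dc_smul m c x y
  rw [R.M_fix c m hm] at h
  exact h

theorem sg_rot {c : C} {m : E} (hm : m ∈ R.M c) (y : V) :
    R.sg (R.ap c) (m • y) = R.sg (R.ap c) y := by
  have h := R.sg_smul m (R.ap c) y
  rw [R.M_ap hm] at h
  exact h

theorem nap_smul {x : V} (hx : ∀ c : C, x ≠ R.ap c) (g : E) : ∀ c : C, g • x ≠ R.ap c := by
  intro c e
  apply hx (g⁻¹ • c)
  rw [R.ap_smul, ← e, inv_smul_smul]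

theorem smul_ne_ap {c : C} {m : E} (hm : m ∈ R.M c) {y : V} (hy : y ≠ R.ap c) :
    m • y ≠ R.ap c := by
  intro e
  apply hy
  apply MulAction.injective m
  change m • y = m • R.ap c
  rw [e, R.M_ap hm]

end Rot

end Pool.Agent.Lib.H14E
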