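import Pool.Agent.Lib.H14E.Pk9

/-!
# H14E, module C, chunk Pk10: consequences of peak reduction (S/M, pure)

* `exists_rot`: `desc_of_mem`, the first step of the chain (`n ≠ 1`); `m ≠ 1` because the
  weight is strictly smaller; `rot_large` with `y = n x`.
* `N_fix`: if `n x = x` then `sg x (n x) = 0` (`sg_self`), so `exists_rot` is impossible.
* `N_stab`: `x` near the apex of `c` (`dc z x (ap c) <= th` for `z ≠ c`), `n ∈ N`, `n • c = c`.
  Among the elements `k n`, `k ∈ M c`, take `n1 = k n` with `sg x (n1 x)` minimal (well-founded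
  `ℕ`).  `n1 ∈ N`, `n1 • c = c`.  If `n1 ≠ 1`: `exists_rot` gives `z` and `m ∈ M z` with
  `sg x (m n1 x) < sg x (n1 x)` and `L0 <= 2 dc z x (n1 x)`.  By minimality `z ≠ c`.  Then
  `dc z x (n1 x) <= dc z x (ap c) + dc z (ap c) (n1 x)`, and `dc z (ap c) (n1 x) =
  dc (n1⁻¹ z) (ap c) x <= th` (`dc_smul`, `n1⁻¹ • ap c = ap c`, `n1⁻¹ • z ≠ c`).  So
  `L0 <= 4 th`, contradiction.  So `n1 = 1`, `n = k⁻¹ ∈ M c`.
* `M_le`: `M c <= N`.
* `N_normal`: `N` is normal: `M_conj` (`Subgroup.closure` of a set stable under conjugation).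
-/

set_option autoImplicit false

namespace Pool.Agent.Lib.H14E

open Pool.Agent.Lib.H76.Morse GeoMet

namespace Rot

variable {E V C : Type} [Group E] [MulAction E V] [MulAction E C] (R : Rot E V C)

theorem M_le (c : C) : R.M c ≤ R.N := by
  intro m hm
  exact Subgroup.subset_closure ⟨c, hm⟩

theorem N_normal : R.N.Normal := by
  unfold N
  refine ⟨fun n hn g => ?_⟩
  induction hn using Subgroup.closure_induction with
  | mem x hx =>
    obtain ⟨c, hc⟩ := hx
    exact Subgroup.subset_closure ⟨g • c, R.M_conj g c x hc⟩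
  | one =>
    rw [mul_one, mul_inv_cancel]
    exact Subgroup.one_mem _
  | mul x y _ _ hx hy =>
    have e : g * (x * y) * g⁻¹ = (g * x * g⁻¹) * (g * y * g⁻¹) := by group
    rw [e]
    exact Subgroup.mul_mem _ hx hy
  | inv x _ hx =>
    have e : g * x⁻¹ * g⁻¹ = (g * x * g⁻¹)⁻¹ := by group
    rw [e]
    exact Subgroup.inv_mem _ hx

theorem exists_rot {x : V} (hx : ∀ c : C, x ≠ R.ap c) {n : E} (hn : n ∈ R.N) (h1 : n ≠ 1) :
    ∃ c : C, ∃ m ∈ R.M c, m ≠ 1 ∧ R.sg x ((m * n) • x) < R.sg x (n • x) ∧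
      R.L0 ≤ 2 * R.dc c x (n • x) := by
  have hd := R.desc_of_mem hx hn
  cases hd with
  | one => exact absurd rfl h1
  | step _ c m hm h hd =>
    have hm1 : m ≠ 1 := by
      rintro rfl
      rw [one_mul] at h
      exact lt_irrefl _ h
    refine ⟨c, m, hm, hm1, h, ?_⟩
    refine R.rot_large hm hm1 (hx c) (R.nap_smul hx n c) ?_
    rw [smul_smul]
    exact h.le

theorem N_fix {x : V} (hx : ∀ c : C, x ≠ R.ap c) {n : E} (hn : n ∈ R.N) (h : n • x = x) :
    n = 1 := by
  by_contra h1
  obtain ⟨c, m, _, _, h2, _⟩ := R.exists_rot hx hn h1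
  rw [h, R.sg_self] at h2
  omega

theorem N_stab {c : C} {x : V} (hx : ∀ z : C, x ≠ R.ap z)
    (hn : ∀ z : C, z ≠ c → R.dc z x (R.ap c) ≤ R.th) {n : E} (hN : n ∈ R.N)
    (hc : n • c = c) : n ∈ R.M c := by
  have key : ∀ B : ℕ, ∀ n : E, n ∈ R.N → n • c = c → R.sg x (n • x) = B → n ∈ R.M c := by
    intro B
    induction B using Nat.strong_induction_on with
    | _ B ih =>
      intro n hN hc hB
      by_cases h1 : n = 1
      · rw [h1]
        exact Subgroup.one_mem _
      obtain ⟨z, m, hm, hm1, h2, h3⟩ := R.exists_rot hx hN h1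
      by_cases hz : z = c
      · subst hz
        have h4 : m * n ∈ R.M z := by
          refine ih _ (hB ▸ h2) (m * n) (Subgroup.mul_mem _ (R.M_le z hm) hN) ?_ rfl
          rw [mul_smul, hc, R.M_fix z m hm]
        have e : n = m⁻¹ * (m * n) := by group
        rw [e]
        exact Subgroup.mul_mem _ (Subgroup.inv_mem _ hm) h4
      · exfalso
        have e1 := R.dc_tri z x (R.ap c) (n • x) (hx z) (R.ap_ne (fun e => hz e.symm))
          (R.nap_smul hx n z)
        have e2 : R.dc z (R.ap c) (n • x) = R.dc (n⁻¹ • z) (R.ap c) x := by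
          have h5 := R.dc_smul n (n⁻¹ • z) (R.ap c) x
          rw [smul_inv_smul, ← R.ap_smul, hc] at h5
          exact h5
        have e3 : n⁻¹ • z ≠ c := by
          intro e
          apply hz
          rw [← hc, ← e, smul_inv_smul]
        have e4 := hn _ e3
        rw [R.dc_comm] at e4
        have e5 := hn z hz
        have e6 := R.big
        omega
  exact key _ n hN hc rfl

end Rot

end Pool.Agent.Lib.H14E
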