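import Pool.Agent.Lib.H14E.Pk10

/-!
# H14E, module C, chunk Pk11: the quotient distance (S/M, pure)

`qd x y = min over n ∈ N of d x (n y)` (`sInf` of a nonempty set of naturals, `Nat.sInf_mem`,
`Nat.sInf_le`).  Everything from `iso`, normality of `N` (`N_normal`) and the axioms of `GeoMet`.

* `qd_smul`: `d (g x) (n g y) = d x (g⁻¹ n g y)`.
* `qd_tri`: `d x (n y) + d y (n' z) = d x (n y) + d (n y) (n n' z) >= d x (n n' z)`.
* `qd_eq_zero`: `d x (n y) = 0` iff `x = n y` (`eq_of_d`).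
* `qd_path`: take `n` with `d x (n y) = qd x y` and a geodesic `p` from `x` to `n y` (`geo`).  For
  `i <= j <= qd x y`: `qd (p i) (p j) <= j - i`, and
  `qd x y <= qd x (p i) + qd (p i) (p j) + qd (p j) (n y) <= i + qd (p i) (p j) + (qd x y - j)`.
-/

set_option autoImplicit false

namespace Pool.Agent.Lib.H14E

open Pool.Agent.Lib.H76.Morse GeoMet

namespace Rot

variable {E V C : Type} [Group E] [GeoMet V] [MulAction E V] [MulAction E C] (R : Rot E V C)

/-- the distance of the orbits under `N` -/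
noncomputable def qd (x y : V) : ℕ := sInf {k : ℕ | ∃ n ∈ R.N, d x (n • y) = k}

theorem qd_le (x y : V) {n : E} (hn : n ∈ R.N) : R.qd x y ≤ d x (n • y) := by
  unfold qd
  exact Nat.sInf_le ⟨n, hn, rfl⟩

theorem qd_le_d (x y : V) : R.qd x y ≤ d x y := by
  have h := R.qd_le x y (R.N.one_mem)
  rwa [one_smul] at h

theorem qd_att (x y : V) : ∃ n ∈ R.N, d x (n • y) = R.qd x y := by
  have hne : {k : ℕ | ∃ n ∈ R.N, d x (n • y) = k}.Nonempty := ⟨d x ((1 : E) • y), 1, R.N.one_mem, rfl⟩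
  exact Nat.sInf_mem hne

theorem qd_self (x : V) : R.qd x x = 0 := by
  have h := R.qd_le_d x x
  rw [GeoMet.d_self] at h
  omega

theorem qd_eq_zero (x y : V) (h : R.qd x y = 0) : ∃ n ∈ R.N, x = n • y := by
  obtain ⟨n, hn, h1⟩ := R.qd_att x y
  exact ⟨n, hn, GeoMet.eq_of_d _ _ (h1.trans h)⟩

theorem qd_smul (hG : RotGeo R) (g : E) (x y : V) : R.qd (g • x) (g • y) = R.qd x y := by
  have key : ∀ (g : E) (x y : V), R.qd (g • x) (g • y) ≤ R.qd x y := by
    intro g x y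
    obtain ⟨n, hn, h1⟩ := R.qd_att x y
    have h2 := R.qd_le (g • x) (g • y) (R.N_normal.conj_mem n hn g)
    have h3 : (g * n * g⁻¹) • g • y = g • n • y := by
      rw [smul_smul, inv_mul_cancel_right, mul_smul]
    rw [h3, hG.iso, h1] at h2
    exact h2
  apply le_antisymm (key g x y)
  have h := key g⁻¹ (g • x) (g • y)
  rwa [inv_smul_smul, inv_smul_smul] at h

theorem qd_comm (hG : RotGeo R) (x y : V) : R.qd x y = R.qd y x := by
  have key : ∀ x y : V, R.qd y x ≤ R.qd x y := by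
    intro x y
    obtain ⟨n, hn, h1⟩ := R.qd_att x y
    have h2 := R.qd_le y x (R.N.inv_mem hn)
    have h3 : d y (n⁻¹ • x) = d x (n • y) := by
      rw [← hG.iso n y (n⁻¹ • x), smul_inv_smul, GeoMet.d_comm]
    rw [h3, h1] at h2
    exact h2
  exact le_antisymm (key y x) (key x y)

theorem qd_right (x y : V) {n : E} (hn : n ∈ R.N) : R.qd x (n • y) = R.qd x y := by
  apply le_antisymm
  · obtain ⟨m, hm, h1⟩ := R.qd_att x y
    have h2 := R.qd_le x (n • y) (R.N.mul_mem hm (R.N.inv_mem hn))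
    rw [smul_smul, inv_mul_cancel_right, h1] at h2
    exact h2
  · obtain ⟨m, hm, h1⟩ := R.qd_att x (n • y)
    have h2 := R.qd_le x y (R.N.mul_mem hm hn)
    rw [mul_smul, h1] at h2
    exact h2

theorem qd_left (hG : RotGeo R) (x y : V) {n : E} (hn : n ∈ R.N) :
    R.qd (n • x) y = R.qd x y := by
  rw [R.qd_comm hG, R.qd_right y x hn, R.qd_comm hG]

theorem qd_tri (hG : RotGeo R) (x y z : V) : R.qd x z ≤ R.qd x y + R.qd y z := by
  obtain ⟨n, hn, h1⟩ := R.qd_att x y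
  obtain ⟨n', hn', h2⟩ := R.qd_att y z
  have h3 := R.qd_le x z (R.N.mul_mem hn hn')
  have h4 := GeoMet.d_tri x (n • y) ((n * n') • z)
  have h5 : d (n • y) ((n * n') • z) = d y (n' • z) := by rw [mul_smul, hG.iso]
  omega

theorem qd_path (hG : RotGeo R) (x y : V) : ∃ p : ℕ → V, ∃ n ∈ R.N, p 0 = x ∧
    p (R.qd x y) = n • y ∧ (∀ i j, i ≤ j → j ≤ R.qd x y → R.qd (p i) (p j) = j - i) ∧
    ∀ i j, i ≤ j → j ≤ R.qd x y → d (p i) (p j) = j - i := by
  obtain ⟨n, hn, h1⟩ := R.qd_att x y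
  obtain ⟨p, h0, hp, hgeo⟩ := GeoMet.geo x (n • y)
  rw [h1] at hp hgeo
  refine ⟨p, n, hn, h0, hp, ?_, hgeo⟩
  intro i j hij hj
  have e1 := R.qd_le_d (p i) (p j)
  rw [hgeo i j hij hj] at e1
  have e2 := R.qd_le_d x (p i)
  have e3 := hgeo 0 i (Nat.zero_le _) (hij.trans hj)
  rw [h0] at e3
  rw [e3] at e2
  have e4 := R.qd_le_d (p j) (n • y)
  have e5 := hgeo j (R.qd x y) hj le_rfl
  rw [hp] at e5
  rw [e5] at e4
  have e6 := R.qd_tri hG x (p i) (n • y)
  have e7 := R.qd_tri hG (p i) (p j) (n • y)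
  rw [R.qd_right x y hn] at e6
  omega

end Rot

end Pool.Agent.Lib.H14E
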