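import Pool.Agent.Lib.H14E.Pk11

/-!
# H14E, module C, chunk Pk12: lifting of closed polygons (M)

`lift_path`: a sequence of corners `p 0, p 1, ...` has lifts `n i • p i`, `n i ∈ N`, `n 0 = 1`, with
`d (n i p i) (n (i+1) p (i+1)) = qd (p i) (p (i+1))` for all `i`: recursion, `qd_att`, `iso`
(`d (n i p i) (n i n' p (i+1)) = d (p i) (n' p (i+1))`).

`lift_close` (the closing step): `1 <= k <= 8`, `p k = p 0` not an apex, lifts as above for
`i < k` with `n k ≠ 1`.  Then there are lifts `n'` of the same kind with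
`sg (p 0) (n' k p 0) < sg (p 0) (n k p 0)`.  Proof: `x = p 0`, `q i = n i p i`, `q 0 = x`,
`q k = n k x`.  `exists_rot` for `n k`: a cone `c`, `m ∈ M c` with `sg x (m n k x) < sg x (n k x)` and
`L0 <= 2 dc c x (n k x)`.
 - If `q i = ap c` for some `i <= k` (then `0 < i < k`, as `q 0` and `q k` are not apices,
   `nap_smul`): put `n' j = n j` for `j < i`, `n' j = m n j` for `j >= i`.  The side `(i-1, i)` does not
   change because `m ap c = ap c`, the sides before and after do not change (`iso`).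
 - Otherwise `dc_tri` along `q 0, ..., q k`: `L0 <= 2 * sum over i < k of dc c (q i) (q (i+1))`, so
   some `i < k` has `th < dc c (q i) (q (i+1))` (otherwise `L0 <= 16 th`).  Put `n' j = n j` for
   `j <= i`, `n' j = m n j` for `j > i`.  By `geo`:
   `d (q i) (m q (i+1)) <= d (q i) (ap c) + d (ap c) (m q (i+1)) = d (q i) (ap c) + d (ap c) (q (i+1))
   = d (q i) (q (i+1)) = qd (p i) (p (i+1)) <= d (q i) (m q (i+1))` (the last by `qd_le`, `qd_left`,
   `qd_right`: `q i`, `m q (i+1)` are in the `N`-orbits of `p i`, `p (i+1)`).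

`lift_cycle`: strong induction on `sg (p 0) (n k p 0)`, start `lift_path`.
-/

set_option autoImplicit false

namespace Pool.Agent.Lib.H14E

open Pool.Agent.Lib.H76.Morse GeoMet

namespace Rot

variable {E V C : Type} [Group E] [GeoMet V] [MulAction E V] [MulAction E C] (R : Rot E V C)

theorem lift_path (hG : RotGeo R) (p : ℕ → V) : ∃ n : ℕ → E, n 0 = 1 ∧ (∀ i, n i ∈ R.N) ∧
    ∀ i, d (n i • p i) (n (i + 1) • p (i + 1)) = R.qd (p i) (p (i + 1)) := by
  choose m hm hd using fun i => R.qd_att (p i) (p (i + 1))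
  refine ⟨fun i => Nat.rec 1 (fun i r => r * m i) i, rfl, ?_, ?_⟩
  · intro i
    induction i with
    | zero => exact R.N.one_mem
    | succ i ih => exact R.N.mul_mem ih (hm i)
  · intro i
    have h1 : (Nat.rec 1 (fun i r => r * m i) (i + 1) : E) =
        (Nat.rec 1 (fun i r => r * m i) i : E) * m i := rfl
    change d ((Nat.rec 1 (fun i r => r * m i) i : E) • p i)
      ((Nat.rec 1 (fun i r => r * m i) (i + 1) : E) • p (i + 1)) = _
    rw [h1, mul_smul, hG.iso, hd]

theorem pk12_closeA (hG : RotGeo R) (k : ℕ) (p : ℕ → V) (n : ℕ → E) (hn0 : n 0 = 1)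
    (hn : ∀ i, n i ∈ R.N)
    (hr : ∀ i < k, d (n i • p i) (n (i + 1) • p (i + 1)) = R.qd (p i) (p (i + 1)))
    {c : C} {m : E} (hm : m ∈ R.M c) {i : ℕ} (hi0 : 0 < i) (hik : i ≤ k)
    (hi : n i • p i = R.ap c) :
    ∃ n' : ℕ → E, n' 0 = 1 ∧ (∀ i, n' i ∈ R.N) ∧
      (∀ i < k, d (n' i • p i) (n' (i + 1) • p (i + 1)) = R.qd (p i) (p (i + 1))) ∧
      n' k = m * n k := by
  refine ⟨fun j => if j < i then n j else m * n j, ?_, ?_, ?_, ?_⟩
  · simp only [if_pos hi0, hn0]
  · intro j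
    by_cases h : j < i
    · simp only [if_pos h]
      exact hn j
    · simp only [if_neg h]
      exact R.N.mul_mem (R.M_le c hm) (hn j)
  · intro j hj
    rcases lt_trichotomy (j + 1) i with h | h | h
    · simp only [if_pos h, if_pos (show j < i by omega)]
      exact hr j hj
    · have h1 : j < i := by omega
      have h2 : ¬ (j + 1 < i) := by omega
      simp only [if_pos h1, if_neg h2]
      have h3 := hr j hj
      rw [h] at h3 ⊢
      rw [mul_smul, hi, R.M_ap hm]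
      rw [hi] at h3
      exact h3
    · have h1 : ¬ (j < i) := by omega
      have h2 : ¬ (j + 1 < i) := by omega
      simp only [if_neg h1, if_neg h2]
      rw [mul_smul, mul_smul, hG.iso]
      exact hr j hj
  · simp only [if_neg (show ¬ (k < i) by omega)]

theorem pk12_closeB (hG : RotGeo R) (k : ℕ) (p : ℕ → V) (n : ℕ → E) (hn0 : n 0 = 1)
    (hn : ∀ i, n i ∈ R.N)
    (hr : ∀ i < k, d (n i • p i) (n (i + 1) • p (i + 1)) = R.qd (p i) (p (i + 1)))
    {c : C} {m : E} (hm : m ∈ R.M c) {i : ℕ} (hik : i < k)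
    (hi : n i • p i ≠ R.ap c) (hi1 : n (i + 1) • p (i + 1) ≠ R.ap c)
    (hth : R.th < R.dc c (n i • p i) (n (i + 1) • p (i + 1))) :
    ∃ n' : ℕ → E, n' 0 = 1 ∧ (∀ i, n' i ∈ R.N) ∧
      (∀ i < k, d (n' i • p i) (n' (i + 1) • p (i + 1)) = R.qd (p i) (p (i + 1))) ∧
      n' k = m * n k := by
  refine ⟨fun j => if j ≤ i then n j else m * n j, ?_, ?_, ?_, ?_⟩
  · simp only [if_pos (Nat.zero_le i), hn0]
  · intro j
    by_cases h : j ≤ i
    · simp only [if_pos h]
      exact hn j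
    · simp only [if_neg h]
      exact R.N.mul_mem (R.M_le c hm) (hn j)
  · intro j hj
    rcases lt_trichotomy j i with h | h | h
    · simp only [if_pos (show j + 1 ≤ i by omega), if_pos (show j ≤ i by omega)]
      exact hr j hj
    · have h1 : j ≤ i := by omega
      have h2 : ¬ (j + 1 ≤ i) := by omega
      simp only [if_pos h1, if_neg h2]
      subst h
      have h3 := hr j hj
      have h4 := hG.geo c _ _ hi hi1 hth
      have h5 : d (R.ap c) (m • n (j + 1) • p (j + 1)) = d (R.ap c) (n (j + 1) • p (j + 1)) := by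
        have h6 := hG.iso m (R.ap c) (n (j + 1) • p (j + 1))
        rw [R.M_ap hm] at h6
        exact h6
      have h7 := GeoMet.d_tri (n j • p j) (R.ap c) (m • n (j + 1) • p (j + 1))
      have h8 := R.qd_le (n j • p j) (p (j + 1)) (R.N.mul_mem (R.M_le c hm) (hn (j + 1)))
      rw [R.qd_left hG _ _ (hn j)] at h8
      rw [mul_smul] at h8 ⊢
      omega
    · have h1 : ¬ (j ≤ i) := by omega
      have h2 : ¬ (j + 1 ≤ i) := by omega
      simp only [if_neg h1, if_neg h2]
      rw [mul_smul, mul_smul, hG.iso]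
      exact hr j hj
  · simp only [if_neg (show ¬ (k ≤ i) by omega)]

omit [GeoMet V] in
theorem pk12_chain {c : C} (q : ℕ → V) (k : ℕ) (hq : ∀ i ≤ k, q i ≠ R.ap c)
    (h : ∀ i < k, R.dc c (q i) (q (i + 1)) ≤ R.th) :
    ∀ j ≤ k, R.dc c (q 0) (q j) ≤ (j + 1) * R.th := by
  intro j
  induction j with
  | zero =>
    intro _
    have h1 := R.dc_diag c (q 0) (hq 0 (Nat.zero_le _))
    omega
  | succ j ih =>
    intro hj
    have h1 := ih (by omega)
    have h2 := h j (by omega)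
    have h3 := R.dc_tri c (q 0) (q j) (q (j + 1)) (hq 0 (Nat.zero_le _)) (hq j (by omega))
      (hq (j + 1) hj)
    have h4 : (j + 1 + 1) * R.th = (j + 1) * R.th + R.th := by ring
    omega

theorem lift_close (hG : RotGeo R) (k : ℕ) (hk : 1 ≤ k) (hk8 : k ≤ 8) (p : ℕ → V)
    (h0 : ∀ c : C, p 0 ≠ R.ap c) (hp : p k = p 0) (n : ℕ → E) (hn0 : n 0 = 1)
    (hn : ∀ i, n i ∈ R.N)
    (hr : ∀ i < k, d (n i • p i) (n (i + 1) • p (i + 1)) = R.qd (p i) (p (i + 1)))
    (h1 : n k ≠ 1) :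
    ∃ n' : ℕ → E, n' 0 = 1 ∧ (∀ i, n' i ∈ R.N) ∧
      (∀ i < k, d (n' i • p i) (n' (i + 1) • p (i + 1)) = R.qd (p i) (p (i + 1))) ∧
      R.sg (p 0) (n' k • p 0) < R.sg (p 0) (n k • p 0) := by
  obtain ⟨c, m, hm, _, hlt, hL⟩ := R.exists_rot h0 (hn k) h1
  have hbig := R.big
  by_cases hA : ∃ i ≤ k, n i • p i = R.ap c
  · obtain ⟨i, hik, hi⟩ := hA
    have hi0 : 0 < i := by
      rcases Nat.eq_zero_or_pos i with h | h
      · exfalso
        rw [h, hn0, one_smul] at hi
        exact h0 c hi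
      · exact h
    obtain ⟨n', e1, e2, e3, e4⟩ := R.pk12_closeA hG k p n hn0 hn hr hm hi0 hik hi
    exact ⟨n', e1, e2, e3, by rw [e4]; exact hlt⟩
  · push Not at hA
    have hB : ∃ i < k, R.th < R.dc c (n i • p i) (n (i + 1) • p (i + 1)) := by
      by_contra hcon
      push Not at hcon
      have h2 := R.pk12_chain (fun i => n i • p i) k hA hcon k le_rfl
      rw [hn0, one_smul, hp] at h2
      have h3 : (k + 1) * R.th ≤ 9 * R.th := Nat.mul_le_mul_right _ (by omega)
      omega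
    obtain ⟨i, hik, hth⟩ := hB
    obtain ⟨n', e1, e2, e3, e4⟩ := R.pk12_closeB hG k p n hn0 hn hr hm hik
      (hA i (by omega)) (hA (i + 1) (by omega)) hth
    exact ⟨n', e1, e2, e3, by rw [e4]; exact hlt⟩

theorem lift_cycle (hG : RotGeo R) (k : ℕ) (hk : 1 ≤ k) (hk8 : k ≤ 8) (p : ℕ → V)
    (h0 : ∀ c : C, p 0 ≠ R.ap c) (hp : p k = p 0) :
    ∃ n : ℕ → E, n 0 = 1 ∧ n k = 1 ∧ (∀ i, n i ∈ R.N) ∧
      ∀ i < k, d (n i • p i) (n (i + 1) • p (i + 1)) = R.qd (p i) (p (i + 1)) := by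
  have key : ∀ B : ℕ, ∀ n : ℕ → E, n 0 = 1 → (∀ i, n i ∈ R.N) →
      (∀ i < k, d (n i • p i) (n (i + 1) • p (i + 1)) = R.qd (p i) (p (i + 1))) →
      R.sg (p 0) (n k • p 0) = B →
      ∃ n : ℕ → E, n 0 = 1 ∧ n k = 1 ∧ (∀ i, n i ∈ R.N) ∧
        ∀ i < k, d (n i • p i) (n (i + 1) • p (i + 1)) = R.qd (p i) (p (i + 1)) := by
    intro B
    induction B using Nat.strong_induction_on with
    | _ B ih =>
      intro n hn0 hn hr hB
      by_cases h1 : n k = 1
      · exact ⟨n, hn0, h1, hn, hr⟩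
      · obtain ⟨n', e1, e2, e3, e4⟩ := R.lift_close hG k hk hk8 p h0 hp n hn0 hn hr h1
        exact ih _ (by rw [← hB]; exact e4) n' e1 e2 e3 rfl
  obtain ⟨n, hn0, hn, hr⟩ := R.lift_path hG p
  exact key _ n hn0 hn (fun i _ => hr i) rfl

end Rot

end Pool.Agent.Lib.H14E
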