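import Pool.Agent.Lib.H14E.Pk12

/-!
# H14E, module C, chunk Pk13: the quotient distance is hyperbolic (S/M)

`qd_hyp_nap` (`x` not an apex): `lift_cycle` with `k = 4` and the corners `x, z, y, w, x`: points
`q0 = x, q1, q2, q3` with `d q0 q1 = qd x z`, `d q1 q2 = qd z y`, `d q2 q3 = qd y w`, `d q3 q0 = qd w x`,
`q1 ∈ N z` and so on.  `Hyp` for `q0, q2, q1, q3`: `qd x y + qd z w <= d q0 q2 + d q1 q3 <=
max (d q0 q1 + d q2 q3) (d q0 q3 + d q2 q1) + δ` (`qd_comm`, `qd_le_d`, `qd_left`, `qd_right`).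

`qd_hyp`: if `x` is an apex `ap c`, use `x'` from `near c`, `qd x x' <= 1`, `qd_tri` (both sides change
by at most 1).
-/

set_option autoImplicit false

namespace Pool.Agent.Lib.H14E

open Pool.Agent.Lib.H76.Morse GeoMet

namespace Rot

variable {E V C : Type} [Group E] [GeoMet V] [MulAction E V] [MulAction E C] (R : Rot E V C)

theorem qd_hyp_nap (hG : RotGeo R) {δ : ℕ} (hV : Hyp δ V) (x y z w : V)
    (hx : ∀ c : C, x ≠ R.ap c) :
    R.qd x y + R.qd z w ≤ max (R.qd x z + R.qd y w) (R.qd x w + R.qd y z) + δ := by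
  obtain ⟨n, hn0, hn4, hn, hr⟩ := R.lift_cycle hG 4 (by norm_num) (by norm_num)
    (fun i => if i = 0 then x else if i = 1 then z else if i = 2 then y else if i = 3 then w else x)
    (by intro c; simpa using hx c) (by simp)
  have r0 := hr 0 (by norm_num)
  have r1 := hr 1 (by norm_num)
  have r2 := hr 2 (by norm_num)
  have r3 := hr 3 (by norm_num)
  simp only [Nat.reduceAdd, Nat.reduceEqDiff, if_true, if_false, zero_add,
    one_ne_zero, OfNat.ofNat_ne_zero, OfNat.ofNat_ne_one] at r0 r1 r2 r3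
  rw [hn0, one_smul] at r0
  rw [hn4, one_smul] at r3
  have hh := hV x (n 2 • y) (n 1 • z) (n 3 • w)
  have a1 := R.qd_le x y (hn 2)
  have a2 : R.qd z w ≤ d (n 1 • z) (n 3 • w) := by
    have := R.qd_le_d (n 1 • z) (n 3 • w)
    rwa [R.qd_left hG _ _ (hn 1), R.qd_right _ _ (hn 3)] at this
  have a3 : d x (n 3 • w) = R.qd x w := by rw [GeoMet.d_comm, r3, R.qd_comm hG]
  have a4 : d (n 2 • y) (n 1 • z) = R.qd y z := by rw [GeoMet.d_comm, r1, R.qd_comm hG]
  rw [r0, r2, a3, a4] at hh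
  omega

theorem qd_hyp (hG : RotGeo R) {δ : ℕ} (hV : Hyp δ V) (x y z w : V) :
    R.qd x y + R.qd z w ≤ max (R.qd x z + R.qd y w) (R.qd x w + R.qd y z) + (δ + 2) := by
  by_cases h : ∀ c : C, x ≠ R.ap c
  · have := R.qd_hyp_nap hG hV x y z w h
    omega
  · push Not at h
    obtain ⟨c, rfl⟩ := h
    obtain ⟨x', hx', h1, -⟩ := hG.near c
    have b0 := R.qd_hyp_nap hG hV x' y z w hx'
    have b1 := R.qd_le_d x' (R.ap c)
    have b2 := R.qd_tri hG (R.ap c) x' y
    have b3 := R.qd_tri hG x' (R.ap c) z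
    have b4 := R.qd_tri hG x' (R.ap c) w
    rw [R.qd_comm hG (R.ap c) x'] at b2
    omega

end Rot

end Pool.Agent.Lib.H14E
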