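import Pool.Agent.Lib.H14E.Pk1

/-!
# H14E, module C, chunk Pk2: the order on the large cones (S/M, pure)

* `ord`: if `dc z1 x (ap z2) <= th` then, by the triangle inequality at `z1` (points `x, ap z2, y`,
  all different from `ap z1`), `dc z1 (ap z2) y >= dc z1 x y - th > th`, so by `strong` (cone `z1`,
  point `y`, target `z2`; symmetric form) `dc z2 y r = dc z2 (ap z1) r` for all `r ≠ ap z2`; with
  `r = x`: `dc z2 x (ap z1) = dc z2 x y > 2 th`.
* `ord_l`: this is `strong`.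
* `ord_r`: `dc z2 (ap z1) y = dc z2 x y > 2 th >= th` by `ord_l`, then `strong` with cone `z2`, point
  `y`, target `z1`.
* `tour`: three different cones of `H x y`: put an arrow from `u` to `v` when
  `th < dc u x (ap v)`; by `ord` any two are joined by an arrow, so one of the three has an
  arrow coming in and an arrow going out (8 cases, all trivial).
-/

set_option autoImplicit false

namespace Pool.Agent.Lib.H14E

open Pool.Agent.Lib.H76.Morse GeoMet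

namespace Rot

variable {E V C : Type} [Group E] [MulAction E V] [MulAction E C] (R : Rot E V C)

theorem ord {x y : V} {z1 z2 : C} (hne : z1 ≠ z2) (h1 : z1 ∈ R.H x y) (h2 : z2 ∈ R.H x y) :
    R.th < R.dc z1 x (R.ap z2) ∨ R.th < R.dc z2 x (R.ap z1) := by
  obtain ⟨hx1, hy1, hl1⟩ := R.mem_H.mp h1
  obtain ⟨hx2, hy2, hl2⟩ := R.mem_H.mp h2
  by_cases h : R.th < R.dc z1 x (R.ap z2)
  · exact Or.inl h
  · right
    have ht := R.dc_tri z1 x (R.ap z2) y hx1 (fun e => R.ap_ne hne e.symm) hy1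
    have hc := R.dc_comm z1 (R.ap z2) y
    have hs := R.strong z1 z2 y hne hy1 hy2 (by omega) x hx2
    rw [R.dc_comm z2 x (R.ap z1), ← hs, R.dc_comm z2 y x]
    omega

theorem ord_l {x y : V} {z1 z2 : C} (hne : z1 ≠ z2) (h1 : z1 ∈ R.H x y) (h2 : z2 ∈ R.H x y)
    (h : R.th < R.dc z1 x (R.ap z2)) :
    ∀ r : V, r ≠ R.ap z2 → R.dc z2 x r = R.dc z2 (R.ap z1) r := by
  obtain ⟨hx1, hy1, hl1⟩ := R.mem_H.mp h1
  obtain ⟨hx2, hy2, hl2⟩ := R.mem_H.mp h2
  exact R.strong z1 z2 x hne hx1 hx2 h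

theorem ord_r {x y : V} {z1 z2 : C} (hne : z1 ≠ z2) (h1 : z1 ∈ R.H x y) (h2 : z2 ∈ R.H x y)
    (h : R.th < R.dc z1 x (R.ap z2)) :
    ∀ r : V, r ≠ R.ap z1 → R.dc z1 y r = R.dc z1 (R.ap z2) r := by
  obtain ⟨hx1, hy1, hl1⟩ := R.mem_H.mp h1
  obtain ⟨hx2, hy2, hl2⟩ := R.mem_H.mp h2
  have h3 := R.ord_l hne h1 h2 h y hy2
  have h4 := R.dc_comm z2 y (R.ap z1)
  exact R.strong z2 z1 y (fun e => hne e.symm) hy2 hy1 (by omega)

theorem tour {x y : V} {u v w : C} (huv : u ≠ v) (hvw : v ≠ w) (huw : u ≠ w)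
    (hu : u ∈ R.H x y) (hv : v ∈ R.H x y) (hw : w ∈ R.H x y) :
    ∃ a b e : C, (a = u ∨ a = v ∨ a = w) ∧ (b = u ∨ b = v ∨ b = w) ∧ (e = u ∨ e = v ∨ e = w) ∧
      a ≠ b ∧ b ≠ e ∧ a ≠ e ∧ R.th < R.dc a x (R.ap b) ∧ R.th < R.dc b x (R.ap e) := by
  have h1 := R.ord huv hu hv
  have h2 := R.ord hvw hv hw
  have h3 := R.ord huw hu hw
  rcases h1 with h1 | h1
  · rcases h2 with h2 | h2
    · exact ⟨u, v, w, Or.inl rfl, Or.inr (Or.inl rfl), Or.inr (Or.inr rfl), huv, hvw, huw, h1, h2⟩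
    · rcases h3 with h3 | h3
      · exact ⟨u, w, v, Or.inl rfl, Or.inr (Or.inr rfl), Or.inr (Or.inl rfl), huw, hvw.symm, huv,
          h3, h2⟩
      · exact ⟨w, u, v, Or.inr (Or.inr rfl), Or.inl rfl, Or.inr (Or.inl rfl), huw.symm, huv,
          hvw.symm, h3, h1⟩
  · rcases h2 with h2 | h2
    · rcases h3 with h3 | h3
      · exact ⟨v, u, w, Or.inr (Or.inl rfl), Or.inl rfl, Or.inr (Or.inr rfl), huv.symm, huw, hvw,
          h1, h3⟩
      · exact ⟨v, w, u, Or.inr (Or.inl rfl), Or.inr (Or.inr rfl), Or.inl rfl, hvw, huw.symm,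
          huv.symm, h2, h3⟩
    · exact ⟨w, v, u, Or.inr (Or.inr rfl), Or.inr (Or.inl rfl), Or.inl rfl, hvw.symm, huv.symm,
        huw.symm, h2, h1⟩

end Rot

end Pool.Agent.Lib.H14E
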