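import Pool.Agent.Lib.H14E.Pk2

/-!
# H14E, module C, chunk Pk3: the exact formula (M, pure)

Let `c ∈ H x y`.
* `left_mem`: let `z ∈ H x (ap c)`, so `z ≠ c` (`ap c ≠ ap z`), `dc z x (ap c) > 2 th >= th`.
  By `strong` (cone `z`, point `x`, target `c`): `dc c x r = dc c (ap z) r` for `r ≠ ap c`, so
  `dc c (ap z) y = dc c x y > 2 th`.  Moreover `y ≠ ap z` (otherwise `dc c x y = dc c (ap z) (ap z)
  <= th` by `dc_diag`).  By `strong` (cone `c`, point `y`, target `z`): `dc z y r = dc z (ap c) r`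
  for `r ≠ ap z`, so (`r = x`) `dc z x y = dc z x (ap c)`.
* `right_mem`: the same with `x` and `y` exchanged (use `H_comm`, `dc_comm`).
* `split_mem`: let `z ∈ H x y`, `z ≠ c`.  Triangle inequality at `c`: `2 th < dc c x y <=
  dc c x (ap z) + dc c (ap z) y`, so one of the two is `> th`.  If `th < dc c x (ap z)` then
  `dc z x y = dc z (ap c) y` (`strong`), so `z ∈ H (ap c) y`.  If `th < dc c y (ap z)` then
  `dc z y x = dc z (ap c) x`, so `z ∈ H x (ap c)`.
* `disj`: `z ∈ H x (ap c)` and `z ∈ H (ap c) y` together: by the proof of `left_mem`,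
  `dc z y r = dc z (ap c) r`; with `r = ap c`... simpler: `dc z x y = dc z x (ap c)` and, by
  `strong` as in `left_mem`, `dc z y (ap c) = dc z (ap c) (ap c) <= th`, against `z ∈ H (ap c) y`.
* `exact1`: so `H x y = insert c (H x (ap c) ∪ H (ap c) y)` (disjoint unions, `c` is in neither
  because `c ∈ H (..)` needs both points `≠ ap c`), and the summands agree.
-/

set_option autoImplicit false

namespace Pool.Agent.Lib.H14E

open Pool.Agent.Lib.H76.Morse GeoMet

namespace Rot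

variable {E V C : Type} [Group E] [MulAction E V] [MulAction E C] (R : Rot E V C)

theorem left_mem {x y : V} {c z : C} (hc : c ∈ R.H x y) (hz : z ∈ R.H x (R.ap c)) :
    z ≠ c ∧ z ∈ R.H x y ∧ R.dc z x y = R.dc z x (R.ap c) ∧ R.dc z (R.ap c) y ≤ R.th := by
  obtain ⟨hc1, hc2, hc3⟩ := R.mem_H.1 hc
  obtain ⟨hz1, hz2, hz3⟩ := R.mem_H.1 hz
  have hne : z ≠ c := fun e => hz2 (by rw [e])
  have s1 := R.strong z c x hne hz1 hc1 (by omega)
  have hA : R.dc c x y = R.dc c (R.ap z) y := s1 y hc2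
  have hyz : y ≠ R.ap z := by
    intro e
    have h2 := R.dc_diag c (R.ap z) (Ne.symm hz2)
    rw [e] at hA hc3
    omega
  have s2 := R.strong c z y hne.symm hc2 hyz (by
    rw [R.dc_comm c y (R.ap z), ← hA]
    omega)
  have e1 : R.dc z x y = R.dc z x (R.ap c) := by
    rw [R.dc_comm z x y, s2 x hz1, R.dc_comm]
  have e2 : R.dc z (R.ap c) y ≤ R.th := by
    rw [R.dc_comm, s2 (R.ap c) hz2]
    exact R.dc_diag z (R.ap c) hz2
  exact ⟨hne, R.mem_H.2 ⟨hz1, hyz, by rw [e1]; exact hz3⟩, e1, e2⟩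

theorem right_mem {x y : V} {c z : C} (hc : c ∈ R.H x y) (hz : z ∈ R.H (R.ap c) y) :
    z ≠ c ∧ z ∈ R.H x y ∧ R.dc z x y = R.dc z (R.ap c) y ∧ R.dc z x (R.ap c) ≤ R.th := by
  rw [R.H_comm] at hc hz
  obtain ⟨h1, h2, h3, h4⟩ := R.left_mem hc hz
  refine ⟨h1, by rw [R.H_comm]; exact h2, ?_, ?_⟩
  · rw [R.dc_comm z x y, h3, R.dc_comm]
  · rw [R.dc_comm]
    exact h4

theorem split_mem {x y : V} {c z : C} (hc : c ∈ R.H x y) (hz : z ∈ R.H x y) (hne : z ≠ c) :
    z ∈ R.H x (R.ap c) ∨ z ∈ R.H (R.ap c) y := by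
  obtain ⟨hc1, hc2, hc3⟩ := R.mem_H.1 hc
  obtain ⟨hz1, hz2, hz3⟩ := R.mem_H.1 hz
  have hap : R.ap c ≠ R.ap z := R.ap_ne (Ne.symm hne)
  have ht := R.dc_tri c x (R.ap z) y hc1 (Ne.symm hap) hc2
  by_cases h : R.th < R.dc c x (R.ap z)
  · right
    have s := R.strong c z x (Ne.symm hne) hc1 hz1 h y hz2
    exact R.mem_H.2 ⟨hap, hz2, by rw [← s]; exact hz3⟩
  · left
    have h' : R.th < R.dc c y (R.ap z) := by
      rw [R.dc_comm c y (R.ap z)]
      omega
    have s := R.strong c z y (Ne.symm hne) hc2 hz2 h' x hz1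
    refine R.mem_H.2 ⟨hz1, hap, ?_⟩
    rw [R.dc_comm, ← s, R.dc_comm]
    exact hz3

theorem exact1 {x y : V} {c : C} (hc : c ∈ R.H x y) :
    R.sg x y = R.sg x (R.ap c) + R.dc c x y + R.sg (R.ap c) y := by
  classical
  have hcl : c ∉ R.H x (R.ap c) := fun h => (R.mem_H.1 h).2.1 rfl
  have hcr : c ∉ R.H (R.ap c) y := fun h => (R.mem_H.1 h).1 rfl
  have hdisj : Disjoint (R.H x (R.ap c)) (R.H (R.ap c) y) := by
    rw [Finset.disjoint_left]
    intro z h1 h2
    have h3 := (R.left_mem hc h1).2.2.2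
    have h4 := (R.mem_H.1 h2).2.2
    omega
  have hH : R.H x y = insert c (R.H x (R.ap c) ∪ R.H (R.ap c) y) := by
    ext z
    rw [Finset.mem_insert, Finset.mem_union]
    constructor
    · intro hz
      by_cases h : z = c
      · exact Or.inl h
      · exact Or.inr (R.split_mem hc hz h)
    · rintro (h | h | h)
      · rw [h]
        exact hc
      · exact (R.left_mem hc h).2.1
      · exact (R.right_mem hc h).2.1
  have hcu : c ∉ R.H x (R.ap c) ∪ R.H (R.ap c) y := by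
    rw [Finset.mem_union]
    rintro (h | h)
    · exact hcl h
    · exact hcr h
  have e1 : ∑ z ∈ R.H x (R.ap c), R.dc z x y = R.sg x (R.ap c) :=
    Finset.sum_congr rfl fun z hz => (R.left_mem hc hz).2.2.1
  have e2 : ∑ z ∈ R.H (R.ap c) y, R.dc z x y = R.sg (R.ap c) y :=
    Finset.sum_congr rfl fun z hz => (R.right_mem hc hz).2.2.1
  have e3 : R.sg x y = ∑ z ∈ R.H x y, R.dc z x y := rfl
  rw [e3, hH, Finset.sum_insert hcu, Finset.sum_union hdisj, e1, e2]
  omega

end Rot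

end Pool.Agent.Lib.H14E
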