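import Pool.Agent.Lib.H14E.Pk3

/-!
# H14E, module C, chunk Pk4: at most two bad cones (M, pure)

`c` is a cone, `x, y ≠ ap c`.  For `z ≠ c` in `H x y` put `l z = dc z x (ap c)` if
`z ∈ H x (ap c)`, else 0, and `r z = dc z (ap c) y` if `z ∈ H (ap c) y`, else 0.  `z` is BAD if
`l z + r z < dc z x y`.

* `bad_before`: `z1, z2 ∈ H x y` different, `z1` before `z2` (`th < dc z1 x (ap z2)`), both
  different from `c`, `z1` bad.  Then `dc z2 x (ap c) <= th`.  Proof: if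
  `th < dc z2 (ap c) (ap z1)` then by `strong` (cone `z2`, point `ap c`, target `z1`) and `ord_r`:
  `dc z1 (ap c) r = dc z1 (ap z2) r = dc z1 y r` for `r ≠ ap z1`, so `dc z1 x (ap c) = dc z1 x y`
  (take `r = x`), so `z1 ∈ H x (ap c)` and `l z1 = dc z1 x y`: not bad.  So
  `dc z2 (ap c) (ap z1) <= th`, and by `ord_l` (`r = ap c`) `dc z2 x (ap c) = dc z2 (ap z1) (ap c)`.
* `bad_after`: `z2` before `z3`, `z3` bad: `dc z2 (ap c) y <= th`.  Symmetric: if
  `th < dc z2 (ap c) (ap z3)` then `dc z3 (ap c) r = dc z3 (ap z2) r = dc z3 x r` (`ord_l`), so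
  `dc z3 (ap c) y = dc z3 x y`, not bad.  So `dc z2 (ap c) (ap z3) <= th` and by `ord_r`
  (for the pair `z2, z3`, `r = ap c`) `dc z2 y (ap c) = dc z2 (ap z3) (ap c)`.
* `not_three`: three different bad cones: by `tour` there are `a` before `b` before `e` among them;
  `bad_before` (a, b) and `bad_after` (b, e) and the triangle inequality at `b` give
  `dc b x y <= 2 th`, against `b ∈ H x y`.
-/

set_option autoImplicit false

namespace Pool.Agent.Lib.H14E

open Pool.Agent.Lib.H76.Morse GeoMet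

namespace Rot

variable {E V C : Type} [Group E] [MulAction E V] [MulAction E C] (R : Rot E V C)

/-- contribution of `z` to `sg x y` -/
noncomputable def ct (x y : V) (z : C) : ℕ := by
  classical
  exact if z ∈ R.H x y then R.dc z x y else 0

/-- `z` is bad for `x, y` with respect to `c` -/
def Bad (c : C) (x y : V) (z : C) : Prop :=
  z ∈ R.H x y ∧ z ≠ c ∧ R.ct x (R.ap c) z + R.ct (R.ap c) y z < R.dc z x y

theorem bad_before {c : C} {x y : V} (hx : x ≠ R.ap c) (hy : y ≠ R.ap c) {z1 z2 : C}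
    (hne : z1 ≠ z2) (h1 : z1 ∈ R.H x y) (h2 : z2 ∈ R.H x y) (h1c : z1 ≠ c) (h2c : z2 ≠ c)
    (h : R.th < R.dc z1 x (R.ap z2)) (hb : R.Bad c x y z1) : R.dc z2 x (R.ap c) ≤ R.th := by
  obtain ⟨hx1, hy1, hl1⟩ := R.mem_H.mp h1
  have hac2 : R.ap c ≠ R.ap z2 := R.ap_ne (fun e => h2c e.symm)
  have hac1 : R.ap c ≠ R.ap z1 := R.ap_ne (fun e => h1c e.symm)
  have key : R.dc z2 (R.ap c) (R.ap z1) ≤ R.th := by
    by_contra hcon
    have hs := R.strong z2 z1 (R.ap c) (fun e => hne e.symm) hac2 hac1 (by omega) x hx1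
    have ho := R.ord_r hne h1 h2 h x hx1
    have e1 : R.dc z1 x (R.ap c) = R.dc z1 x y := by
      rw [R.dc_comm z1 x (R.ap c), hs, ← ho, R.dc_comm z1 y x]
    have hm : z1 ∈ R.H x (R.ap c) := R.mem_H.mpr ⟨hx1, hac1, by omega⟩
    have hct : R.ct x (R.ap c) z1 = R.dc z1 x (R.ap c) := by
      unfold ct
      rw [if_pos hm]
    have := hb.2.2
    omega
  rw [R.ord_l hne h1 h2 h (R.ap c) hac2, R.dc_comm z2 (R.ap z1) (R.ap c)]
  exact key

theorem bad_after {c : C} {x y : V} (hx : x ≠ R.ap c) (hy : y ≠ R.ap c) {z2 z3 : C}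
    (hne : z2 ≠ z3) (h2 : z2 ∈ R.H x y) (h3 : z3 ∈ R.H x y) (h2c : z2 ≠ c) (h3c : z3 ≠ c)
    (h : R.th < R.dc z2 x (R.ap z3)) (hb : R.Bad c x y z3) : R.dc z2 (R.ap c) y ≤ R.th := by
  obtain ⟨hx3, hy3, hl3⟩ := R.mem_H.mp h3
  have hac2 : R.ap c ≠ R.ap z2 := R.ap_ne (fun e => h2c e.symm)
  have hac3 : R.ap c ≠ R.ap z3 := R.ap_ne (fun e => h3c e.symm)
  have key : R.dc z2 (R.ap c) (R.ap z3) ≤ R.th := by
    by_contra hcon
    have hs := R.strong z2 z3 (R.ap c) hne hac2 hac3 (by omega) y hy3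
    have ho := R.ord_l hne h2 h3 h y hy3
    have e1 : R.dc z3 (R.ap c) y = R.dc z3 x y := by rw [hs, ← ho]
    have hm : z3 ∈ R.H (R.ap c) y := R.mem_H.mpr ⟨hac3, hy3, by omega⟩
    have hct : R.ct (R.ap c) y z3 = R.dc z3 (R.ap c) y := by
      unfold ct
      rw [if_pos hm]
    have := hb.2.2
    omega
  rw [R.dc_comm z2 (R.ap c) y, R.ord_r hne h2 h3 h (R.ap c) hac2, R.dc_comm z2 (R.ap z3) (R.ap c)]
  exact key

theorem not_three {c : C} {x y : V} (hx : x ≠ R.ap c) (hy : y ≠ R.ap c) {u v w : C}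
    (huv : u ≠ v) (hvw : v ≠ w) (huw : u ≠ w) (hu : R.Bad c x y u) (hv : R.Bad c x y v)
    (hw : R.Bad c x y w) : False := by
  obtain ⟨a, b, e, ha, hb, he, hab, hbe, -, h1, h2⟩ := R.tour huv hvw huw hu.1 hv.1 hw.1
  have hBa : R.Bad c x y a := by
    rcases ha with rfl | rfl | rfl
    · exact hu
    · exact hv
    · exact hw
  have hBb : R.Bad c x y b := by
    rcases hb with rfl | rfl | rfl
    · exact hu
    · exact hv
    · exact hw
  have hBe : R.Bad c x y e := by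
    rcases he with rfl | rfl | rfl
    · exact hu
    · exact hv
    · exact hw
  have k1 := R.bad_before hx hy hab hBa.1 hBb.1 hBa.2.1 hBb.2.1 h1 hBa
  have k2 := R.bad_after hx hy hbe hBb.1 hBe.1 hBb.2.1 hBe.2.1 h2 hBe
  obtain ⟨hxb, hyb, hlb⟩ := R.mem_H.mp hBb.1
  have ht := R.dc_tri b x (R.ap c) y hxb (R.ap_ne (fun e => hBb.2.1 e.symm)) hyb
  omega

end Rot

end Pool.Agent.Lib.H14E
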