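import Pool.Agent.Lib.H14E.Pk4

/-!
# H14E, module C, chunk Pk5: the general inequality (M, pure)

`sg_le`: `x, y ≠ ap c`.  Every `z ∈ H x y`, `z ≠ c`, satisfies (`dc_tri` at `z`)
`dc z x y <= dc z x (ap c) + dc z (ap c) y <= (ct x (ap c) z + 2 th) + (ct (ap c) y z + 2 th)`, and
`dc z x y <= ct x (ap c) z + ct (ap c) y z` if `z` is not bad.  By `not_three` the set of bad cones
has at most two elements (`Finset.two_lt_card`), so
`sum over z ∈ H x y, z ≠ c, of dc z x y <= sum of (ct x (ap c) z + ct (ap c) y z) + 2 * 4 th`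
and `sum over any finite set of ct u v z <= sg u v` (the terms outside `H u v` vanish).
The term `z = c` (if `c ∈ H x y`) is `dc c x y`.
`sg_le_ct`: `∑ z ∈ s, ct x y z ≤ sg x y`: write `sg x y = ∑ z ∈ H x y, ct x y z`, use
`Finset.sum_subset`/`Finset.sum_filter`.
-/

set_option autoImplicit false

namespace Pool.Agent.Lib.H14E

open Pool.Agent.Lib.H76.Morse GeoMet

namespace Rot

variable {E V C : Type} [Group E] [MulAction E V] [MulAction E C] (R : Rot E V C)

theorem sum_ct_le (x y : V) (s : Finset C) : ∑ z ∈ s, R.ct x y z ≤ R.sg x y := by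
  classical
  have h1 : ∑ z ∈ s, R.ct x y z = ∑ z ∈ s.filter (fun z => z ∈ R.H x y), R.dc z x y := by
    rw [Finset.sum_filter]
    refine Finset.sum_congr rfl (fun z _ => ?_)
    unfold ct
    by_cases h : z ∈ R.H x y
    · simp only [h, if_true]
    · simp only [h, if_false]
  rw [h1]
  unfold sg
  refine Finset.sum_le_sum_of_subset ?_
  intro z hz
  exact (Finset.mem_filter.mp hz).2

theorem pk5_ct {x y : V} {z : C} (hx : x ≠ R.ap z) (hy : y ≠ R.ap z) :
    R.dc z x y ≤ R.ct x y z + 2 * R.th := by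
  unfold ct
  by_cases h : z ∈ R.H x y
  · rw [if_pos h]
    omega
  · rw [if_neg h]
    by_contra hcon
    exact h (R.mem_H.mpr ⟨hx, hy, by omega⟩)

theorem sg_le {c : C} {x y : V} (hx : x ≠ R.ap c) (hy : y ≠ R.ap c) :
    R.sg x y ≤ R.sg x (R.ap c) + R.dc c x y + R.sg (R.ap c) y + 8 * R.th := by
  classical
  have h0 : R.sg x y ≤ R.dc c x y + ∑ z ∈ (R.H x y).erase c, R.dc z x y := by
    unfold sg
    by_cases h : c ∈ R.H x y
    · rw [← Finset.add_sum_erase _ _ h]
    · rw [Finset.erase_eq_of_notMem h]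
      omega
  have h1 : ∀ z ∈ (R.H x y).erase c, R.dc z x y ≤
      R.ct x (R.ap c) z + R.ct (R.ap c) y z + (if R.Bad c x y z then 4 * R.th else 0) := by
    intro z hz
    obtain ⟨hzc, hzH⟩ := Finset.mem_erase.mp hz
    obtain ⟨hxz, hyz, hl⟩ := R.mem_H.mp hzH
    have hacz : R.ap c ≠ R.ap z := R.ap_ne (fun e => hzc e.symm)
    by_cases hb : R.Bad c x y z
    · rw [if_pos hb]
      have ht := R.dc_tri z x (R.ap c) y hxz hacz hyz
      have k1 := R.pk5_ct hxz hacz
      have k2 := R.pk5_ct hacz hyz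
      omega
    · rw [if_neg hb]
      by_contra hcon
      exact hb ⟨hzH, hzc, by omega⟩
  have h2 := Finset.sum_le_sum h1
  rw [Finset.sum_add_distrib, Finset.sum_add_distrib, ← Finset.sum_filter, Finset.sum_const,
    smul_eq_mul] at h2
  have h3 := R.sum_ct_le x (R.ap c) ((R.H x y).erase c)
  have h4 := R.sum_ct_le (R.ap c) y ((R.H x y).erase c)
  have h5 : (((R.H x y).erase c).filter (fun z => R.Bad c x y z)).card ≤ 2 := by
    by_contra hcon
    rw [not_le, Finset.two_lt_card] at hcon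
    obtain ⟨u, hu, v, hv, w, hw, huv, huw, hvw⟩ := hcon
    exact R.not_three hx hy huv hvw huw (Finset.mem_filter.mp hu).2 (Finset.mem_filter.mp hv).2
      (Finset.mem_filter.mp hw).2
  have h6 := Nat.mul_le_mul_right (4 * R.th) h5
  omega

end Rot

end Pool.Agent.Lib.H14E
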