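import Pool.Agent.Lib.H14E.Pk5

/-!
# H14E, module C, chunk Pk6: a rotation which does not increase `sg` (S/M, pure)

`rot_large`: `a ∈ M c`, `a ≠ 1`, `x, y ≠ ap c`, `sg x (a y) <= sg x y`.  Then `L0 <= 2 dc c x y`.
Proof: `L0 <= dc c y (a y) <= dc c y x + dc c x (a y)` (`M_sep`, `dc_tri`, `smul_ne_ap`).
If `dc c x (a y) <= 2 th`: `dc c x y >= L0 - 2 th >= L0 / 2`.
If `dc c x (a y) > 2 th`: `c ∈ H x (a y)`, so by `exact1` and `sg_rot`
`sg x (a y) = sg x (ap c) + dc c x (a y) + sg (ap c) y`.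
 - If `dc c x y > 2 th`: `exact1` for `x, y` gives `dc c x (a y) <= dc c x y`, so
   `L0 <= 2 dc c x y`.
 - If `dc c x y <= 2 th`: `sg_le` gives `sg x y <= sg x (ap c) + 2 th + sg (ap c) y + 8 th`, while
   `dc c x (a y) >= L0 - 2 th > 10 th`: contradiction.
-/

set_option autoImplicit false

namespace Pool.Agent.Lib.H14E

open Pool.Agent.Lib.H76.Morse GeoMet

namespace Rot

variable {E V C : Type} [Group E] [MulAction E V] [MulAction E C] (R : Rot E V C)

theorem rot_large {c : C} {a : E} (ha : a ∈ R.M c) (ha1 : a ≠ 1) {x y : V} (hx : x ≠ R.ap c)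
    (hy : y ≠ R.ap c) (h : R.sg x (a • y) ≤ R.sg x y) : R.L0 ≤ 2 * R.dc c x y := by
  have hay : a • y ≠ R.ap c := R.smul_ne_ap ha hy
  have h1 := R.M_sep c a ha ha1 y hy
  have h2 := R.dc_tri c y x (a • y) hy hx hay
  have h3 := R.dc_comm c y x
  have hbig := R.big
  by_cases h4 : 2 * R.th < R.dc c x (a • y)
  · have hm : c ∈ R.H x (a • y) := R.mem_H.mpr ⟨hx, hay, h4⟩
    have h5 := R.exact1 hm
    rw [R.sg_rot ha] at h5
    by_cases h6 : 2 * R.th < R.dc c x y
    · have hm' : c ∈ R.H x y := R.mem_H.mpr ⟨hx, hy, h6⟩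
      have h7 := R.exact1 hm'
      omega
    · have h7 := R.sg_le hx hy
      omega
  · omega

end Rot

end Pool.Agent.Lib.H14E
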