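import Pool.Agent.Lib.H14E.Pk6

/-!
# H14E, module C, chunk Pk7: two rotations at different cones, estimates (M, pure)

Here `x, y` are not apices, `c ≠ z`, `a ∈ M c`, `b ∈ M z`.

* `two_le` (general upper bound):
  `sg x (a b y) <= sg x (ap c) + dc c x (a ap z) + sg (ap c) (ap z) + dc z (ap c) (b y)
     + sg (ap z) y + 18 th`.
  Proof: let `w = a • z`, `ap w = a • ap z`; `w ≠ c` (as `a • c = c`).  `sg_le` at the cone `w`:
  `sg x (a b y) <= sg x (ap w) + dc w x (a b y) + sg (ap w) (a b y) + 8 th`;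
  `sg (ap w) (a b y) = sg (ap z) (b y) = sg (ap z) y` (`sg_smul`, `sg_rot`);
  `dc w x (a b y) <= dc w x (ap c) + dc w (ap c) (a b y)` and
  `dc w (ap c) (a b y) = dc (a z) (a ap c) (a b y) = dc z (ap c) (b y)`.
  Let `t = dc w x (ap c)`.
   - If `t <= 2 th`: `sg_le` at `c` for the points `x, ap w`: `sg x (ap w) <= sg x (ap c)
     + dc c x (ap w) + sg (ap c) (ap w) + 8 th` and `sg (ap c) (a ap z) = sg (ap c) (ap z)`
     (`sg_rot`).
   - If `t > 2 th`: `w ∈ H x (ap c)`, so by `exact1` `sg x (ap c) = sg x (ap w) + t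
     + sg (ap w) (ap c)`, so `sg x (ap w) + t <= sg x (ap c)`.
* `exact2`: `c, z ∈ H x y`, `th < dc c x (ap z)`: `sg x y = sg x (ap c) + dc c x y
  + sg (ap c) (ap z) + dc z (ap c) y + sg (ap z) y`.  (`exact1` at `c`; by `ord_l` (`r = y`)
  `dc z (ap c) y = dc z x y > 2 th`, so `z ∈ H (ap c) y` and `exact1` for the points `ap c, y`.)
* `ord_facts`: under the same assumptions `dc c x y = dc c x (ap z)` (`ord_r`, `r = x`), and for
  `a ∈ M c` `dc c x (a y) = dc c x (a ap z)` (`ord_r` with `r = a⁻¹ x`, and `dc_rot`), and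
  `dc z x (b y) = dc z (ap c) (b y)` (`ord_l` with `r = b y`).
-/

set_option autoImplicit false

namespace Pool.Agent.Lib.H14E

open Pool.Agent.Lib.H76.Morse GeoMet

namespace Rot

variable {E V C : Type} [Group E] [MulAction E V] [MulAction E C] (R : Rot E V C)

theorem pk7_sg_le_case {x : V} (hx : ∀ c : C, x ≠ R.ap c) {c z : C} (hne : c ≠ z) {a : E}
    (ha : a ∈ R.M c) :
    R.sg x (a • R.ap z) + R.dc (a • z) x (R.ap c) ≤ R.sg x (R.ap c) + R.dc c x (a • R.ap z) +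
      R.sg (R.ap c) (R.ap z) + 10 * R.th := by
  have hw : a • z ≠ c := by
    intro h
    apply hne
    have h1 : a • z = a • c := by rw [h, R.M_fix c a ha]
    exact ((MulAction.injective a h1)).symm
  have hap : R.ap (a • z) = a • R.ap z := R.ap_smul a z
  have hxw : x ≠ R.ap (a • z) := hx _
  have hcw : R.ap c ≠ R.ap (a • z) := R.ap_ne hw.symm
  by_cases ht : R.dc (a • z) x (R.ap c) ≤ 2 * R.th
  · have h1 := R.sg_le (c := c) (x := x) (y := R.ap (a • z)) (hx c) hcw.symm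
    have h2 : R.sg (R.ap c) (R.ap (a • z)) = R.sg (R.ap c) (R.ap z) := by
      rw [hap]
      exact R.sg_rot ha (R.ap z)
    rw [h2, hap] at h1
    omega
  · have hm : (a • z) ∈ R.H x (R.ap c) := R.mem_H.2 ⟨hxw, hcw, by omega⟩
    have h1 := R.exact1 hm
    rw [hap] at h1
    omega

theorem two_le {x y : V} (hx : ∀ c : C, x ≠ R.ap c) (hy : ∀ c : C, y ≠ R.ap c) {c z : C}
    (hne : c ≠ z) {a b : E} (ha : a ∈ R.M c) (hb : b ∈ R.M z) :
    R.sg x (a • b • y) ≤ R.sg x (R.ap c) + R.dc c x (a • R.ap z) + R.sg (R.ap c) (R.ap z) +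
      R.dc z (R.ap c) (b • y) + R.sg (R.ap z) y + 18 * R.th := by
  have hw : a • z ≠ c := by
    intro h
    apply hne
    have h1 : a • z = a • c := by rw [h, R.M_fix c a ha]
    exact ((MulAction.injective a h1)).symm
  have hap : R.ap (a • z) = a • R.ap z := R.ap_smul a z
  have hxw : x ≠ R.ap (a • z) := hx _
  have hcw : R.ap c ≠ R.ap (a • z) := R.ap_ne hw.symm
  have hyw : a • b • y ≠ R.ap (a • z) := R.nap_smul (R.nap_smul hy b) a _
  have h1 := R.sg_le (c := a • z) (x := x) (y := a • b • y) hxw hyw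
  have h2 : R.sg (R.ap (a • z)) (a • b • y) = R.sg (R.ap z) y := by
    rw [hap, R.sg_smul a (R.ap z) (b • y)]
    exact R.sg_rot hb y
  have h3 := R.dc_tri (a • z) x (R.ap c) (a • b • y) hxw hcw hyw
  have h4 : R.dc (a • z) (R.ap c) (a • b • y) = R.dc z (R.ap c) (b • y) := by
    have h5 : R.ap c = a • R.ap c := (R.M_ap ha).symm
    conv_lhs => rw [h5]
    exact R.dc_smul a z (R.ap c) (b • y)
  have h6 := R.pk7_sg_le_case hx hne ha
  rw [h2] at h1
  rw [hap] at h1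
  rw [h4] at h3
  omega

theorem exact2 {x y : V} {c z : C} (hne : c ≠ z) (hc : c ∈ R.H x y) (hz : z ∈ R.H x y)
    (h : R.th < R.dc c x (R.ap z)) :
    R.sg x y = R.sg x (R.ap c) + R.dc c x y + R.sg (R.ap c) (R.ap z) + R.dc z (R.ap c) y +
      R.sg (R.ap z) y := by
  have h1 := R.exact1 hc
  have hz' := R.mem_H.1 hz
  have h2 := R.ord_l hne hc hz h y hz'.2.1
  have hm : z ∈ R.H (R.ap c) y := R.mem_H.2 ⟨R.ap_ne hne, hz'.2.1, by rw [← h2]; exact hz'.2.2⟩
  have h3 := R.exact1 hm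
  omega

theorem ord_facts {x y : V} {c z : C} (hne : c ≠ z) (hc : c ∈ R.H x y) (hz : z ∈ R.H x y)
    (h : R.th < R.dc c x (R.ap z)) {a b : E} (ha : a ∈ R.M c) (hb : b ∈ R.M z) :
    R.dc c x y = R.dc c x (R.ap z) ∧ R.dc c x (a • y) = R.dc c x (a • R.ap z) ∧
      R.dc z x (b • y) = R.dc z (R.ap c) (b • y) ∧ R.dc z x y = R.dc z (R.ap c) y := by
  have hc' := R.mem_H.1 hc
  have hz' := R.mem_H.1 hz
  refine ⟨?_, ?_, R.ord_l hne hc hz h (b • y) (R.smul_ne_ap hb hz'.2.1),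
    R.ord_l hne hc hz h y hz'.2.1⟩
  · rw [R.dc_comm c x y, R.dc_comm c x (R.ap z)]
    exact R.ord_r hne hc hz h x hc'.1
  · have hai : a⁻¹ ∈ R.M c := inv_mem ha
    have h1 := R.ord_r hne hc hz h (a⁻¹ • x) (R.smul_ne_ap hai hc'.1)
    have h2 : ∀ u : V, R.dc c x (a • u) = R.dc c u (a⁻¹ • x) := by
      intro u
      have h3 := R.dc_rot ha (a⁻¹ • x) u
      rw [smul_inv_smul] at h3
      rw [h3, R.dc_comm]
    rw [h2, h2]
    exact h1

end Rot

end Pool.Agent.Lib.H14E
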