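import Pool.Agent.Lib.H14E.Pk7

/-!
# H14E, module C, chunk Pk8: the double move decreases `sg` (M, pure)

`x, y` not apices, `c ≠ z`, `a ∈ M c`, `b ∈ M z`, both `≠ 1`, `th < dc c x (ap z)` (`c` before `z`),
`sg x (a y) <= sg x y`, `sg x (b y) <= sg x y`, one of them strict.  Then `sg x (a b y) < sg x y`.

Put `u = dc c x y`, `v = dc z (ap c) y = dc z x y`, `u' = dc c x (a y) = dc c x (a ap z)`,
`v' = dc z (ap c) (b y) = dc z x (b y)` (`ord_facts`).  By `rot_large` `2 u >= L0`, `2 v >= L0`; so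
`c, z ∈ H x y`, and `exact2` gives (1) `sg x y = sg x (ap c) + u + sg (ap c) (ap z) + v + sg (ap z) y`.

* `u' > 2 th` implies `u' <= u`, strictly if `sg x (a y) < sg x y`: `exact1` at `c` for `x, a y` and
  for `x, y`, and `sg_rot`.  `v' > 2 th` implies `v' <= v`, strictly if `sg x (b y) < sg x y`:
  `exact1` at `z` for `x, b y` and `x, y`.
* If `u' <= 2 th` or `v' <= 2 th`: `two_le` gives `sg x (a b y) - sg x y <= (u' - u) + (v' - v)
  + 18 th`; one of the two brackets is `<= 2 th - L0 / 2` and the other is `<= 0` (if `v' <= 2 th`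
  then `v' <= v` too); `L0 > 40 th` gives a negative number.
* If both are `> 2 th` (exact case): `dc z (ap c) (b y) = v' > 2 th >= th`, so by `strong` (cone `z`,
  point `b y`, target `c`) `dc c (b y) r = dc c (ap z) r` for `r ≠ ap c`; with `r = a⁻¹ x` and
  `dc_rot`: `dc c x (a b y) = dc c x (a ap z) = u' > 2 th`.  `exact1` at `c` for `x, a b y`:
  `sg x (a b y) = sg x (ap c) + u' + sg (ap c) (b y)` (`sg_rot`), and `exact1` at `z` for
  `ap c, b y`: `sg (ap c) (b y) = sg (ap c) (ap z) + v' + sg (ap z) y` (`sg_rot`).  So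
  `sg x (a b y) = sg x y - (u - u') - (v - v') < sg x y`.
-/

set_option autoImplicit false

namespace Pool.Agent.Lib.H14E

open Pool.Agent.Lib.H76.Morse GeoMet

namespace Rot

variable {E V C : Type} [Group E] [MulAction E V] [MulAction E C] (R : Rot E V C)

/-- dc at a fixed cone of a rotated point -/
theorem pk8_dc_swap {c : C} {a : E} (ha : a ∈ R.M c) (x u : V) :
    R.dc c x (a • u) = R.dc c u (a⁻¹ • x) := by
  have h3 := R.dc_rot ha (a⁻¹ • x) u
  rw [smul_inv_smul] at h3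
  rw [h3, R.dc_comm]

theorem double_lt {x y : V} (hx : ∀ c : C, x ≠ R.ap c) (hy : ∀ c : C, y ≠ R.ap c) {c z : C}
    (hne : c ≠ z) {a b : E} (ha : a ∈ R.M c) (hb : b ∈ R.M z) (ha1 : a ≠ 1) (hb1 : b ≠ 1)
    (hl : R.th < R.dc c x (R.ap z)) (h1 : R.sg x (a • y) ≤ R.sg x y)
    (h2 : R.sg x (b • y) ≤ R.sg x y)
    (h3 : R.sg x (a • y) < R.sg x y ∨ R.sg x (b • y) < R.sg x y) :
    R.sg x (a • b • y) < R.sg x y := by
  have hay : a • y ≠ R.ap c := R.smul_ne_ap ha (hy c)
  have hby : b • y ≠ R.ap z := R.smul_ne_ap hb (hy z)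
  have hbyc : b • y ≠ R.ap c := R.nap_smul hy b c
  have hL1 := R.rot_large ha ha1 (hx c) (hy c) h1
  have hL2 := R.rot_large hb hb1 (hx z) (hy z) h2
  have hbig := R.big
  have hc : c ∈ R.H x y := R.mem_H.mpr ⟨hx c, hy c, by omega⟩
  have hz : z ∈ R.H x y := R.mem_H.mpr ⟨hx z, hy z, by omega⟩
  obtain ⟨f1, f2, f3, f4⟩ := R.ord_facts hne hc hz hl ha hb
  have e2 := R.exact2 hne hc hz hl
  have ec := R.exact1 hc
  have ez := R.exact1 hz
  have hu : 2 * R.th < R.dc c x (a • y) →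
      R.sg x (a • y) = R.sg x (R.ap c) + R.dc c x (a • y) + R.sg (R.ap c) y := by
    intro h
    have h4 := R.exact1 (R.mem_H.mpr ⟨hx c, hay, h⟩)
    rwa [R.sg_rot ha] at h4
  have hv : 2 * R.th < R.dc z x (b • y) →
      R.sg x (b • y) = R.sg x (R.ap z) + R.dc z x (b • y) + R.sg (R.ap z) y := by
    intro h
    have h4 := R.exact1 (R.mem_H.mpr ⟨hx z, hby, h⟩)
    rwa [R.sg_rot hb] at h4
  have hT := R.two_le hx hy hne ha hb
  by_cases hu' : 2 * R.th < R.dc c x (a • y)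
  · have hu2 := hu hu'
    by_cases hv' : 2 * R.th < R.dc z x (b • y)
    · have hv2 := hv hv'
      have hst := R.strong z c (b • y) hne.symm hby hbyc
        (by rw [R.dc_comm z (b • y) (R.ap c)]; omega)
      have h5 := hst (a⁻¹ • x) (R.smul_ne_ap ((R.M c).inv_mem ha) (hx c))
      have h6 : R.dc c x (a • b • y) = R.dc c x (a • R.ap z) := by
        rw [R.pk8_dc_swap ha, R.pk8_dc_swap ha]
        exact h5
      have hm : c ∈ R.H x (a • b • y) :=
        R.mem_H.mpr ⟨hx c, R.smul_ne_ap ha hbyc, by omega⟩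
      have e5 := R.exact1 hm
      rw [R.sg_rot ha] at e5
      have hm2 : z ∈ R.H (R.ap c) (b • y) :=
        R.mem_H.mpr ⟨R.ap_ne hne, hby, by omega⟩
      have e6 := R.exact1 hm2
      rw [R.sg_rot hb] at e6
      rcases h3 with h3 | h3
      · omega
      · omega
    · omega
  · by_cases hv' : 2 * R.th < R.dc z x (b • y)
    · have hv2 := hv hv'
      omega
    · omega

/-- Unordered version: `rot_large` puts `c` and `z` into `H x y`, `ord` orders them, and
`double_lt` applies to `(c, z, a, b)` or to `(z, c, b, a)`. -/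
theorem double_lt' {x y : V} (hx : ∀ c : C, x ≠ R.ap c) (hy : ∀ c : C, y ≠ R.ap c) {c z : C}
    (hne : c ≠ z) {a b : E} (ha : a ∈ R.M c) (hb : b ∈ R.M z) (ha1 : a ≠ 1) (hb1 : b ≠ 1)
    (h1 : R.sg x (a • y) ≤ R.sg x y) (h2 : R.sg x (b • y) ≤ R.sg x y)
    (h3 : R.sg x (a • y) < R.sg x y ∨ R.sg x (b • y) < R.sg x y) :
    R.sg x (a • b • y) < R.sg x y ∨ R.sg x (b • a • y) < R.sg x y := by
  have hL1 := R.rot_large ha ha1 (hx c) (hy c) h1
  have hL2 := R.rot_large hb hb1 (hx z) (hy z) h2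
  have hbig := R.big
  have hc : c ∈ R.H x y := R.mem_H.mpr ⟨hx c, hy c, by omega⟩
  have hz : z ∈ R.H x y := R.mem_H.mpr ⟨hx z, hy z, by omega⟩
  rcases R.ord hne hc hz with h | h
  · exact Or.inl (R.double_lt hx hy hne ha hb ha1 hb1 h h1 h2 h3)
  · exact Or.inr (R.double_lt hx hy hne.symm hb ha hb1 ha1 h h2 h1 h3.symm)

end Rot

end Pool.Agent.Lib.H14E
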