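import Pool.Agent.Lib.H14E.Pk8

/-!
# H14E, module C, chunk Pk9: peak reduction (M, pure)

`Desc x g`: there is a chain `g = g_0, g_1, ..., g_k = 1`, `g_{i+1} = m_i g_i` with `m_i` in some
`M c_i`, along which `w g := sg x (g x)` decreases strictly.  `x` is not an apex.

* `desc_step`: `Desc x g` and `m ∈ M c` imply `Desc x (m g)`.  Strong induction on
  `B = max (w g) (w (m g))`.  `m = 1` is trivial.  Let `m ≠ 1`, `h = m g`.
  - `w h > w g`: `g = m⁻¹ h`, prepend the step `h -> g`.
  - `w h <= w g`: by `rot_large` (`y = g x`) `L0 <= 2 dc c x (g x)`, so `dc c x (g x) > 2 th` and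
    `w g > 0`, so `g ≠ 1` (`sg_self`), and the chain of `g` has a first step `g -> g1 = b g`,
    `b ∈ M z`, `w g1 < w g`, `Desc x g1`; `b ≠ 1`.
    + `z = c`: `h = (m b⁻¹) g1`.  If `w h < w g`: induction for `(g1, m b⁻¹)` (both weights
      `< w g`).  If `w h = w g`: `w g1 < w h`, prepend the step `h -> g1 = (m b⁻¹)⁻¹ h`.
    + `z ≠ c`: `double_lt'` with `a = m` gives `g2 = m b g` or `g2 = b m g` with `w g2 < w g`.
      In the first case `g2 = (m b b⁻¹) g1 ...`: `g2 = m g1` (a step from `g1` by `m ∈ M c`) and
      `g2 = (m b m⁻¹) h` with `m b m⁻¹ ∈ M (m • z)` (`M_conj`).  In the second case `g2 = b h` and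
      `g2 = (b m b⁻¹) g1` with `b m b⁻¹ ∈ M (b • c)`.  Induction for `g1 -> g2` (both weights
      `< w g`) gives `Desc x g2`.  If `w h < w g`: induction for `g2 -> h` (inverse step).  If
      `w h = w g`: `w g2 < w h`, prepend `h -> g2`.
* `desc_of_mem`: `N` is the closure of the `M c`; `Subgroup.closure_induction_left` (inverses of
  elements of `M c` are in `M c`) with `desc_step`, start `Desc.one`.
-/

set_option autoImplicit false

namespace Pool.Agent.Lib.H14E

open Pool.Agent.Lib.H76.Morse GeoMet

namespace Rot

variable {E V C : Type} [Group E] [MulAction E V] [MulAction E C] (R : Rot E V C)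

/-- descending chain from `g` to `1` -/
inductive Desc (x : V) : E → Prop
  | one : Desc x 1
  | step (g : E) (c : C) (m : E) (hm : m ∈ R.M c)
      (h : R.sg x ((m * g) • x) < R.sg x (g • x)) (hd : Desc x (m * g)) : Desc x g

theorem desc_step {x : V} (hx : ∀ c : C, x ≠ R.ap c) (B : ℕ) :
    ∀ (g : E) (c : C) (m : E), m ∈ R.M c → R.Desc x g → R.sg x (g • x) ≤ B →
      R.sg x ((m * g) • x) ≤ B → R.Desc x (m * g) := by
  induction B using Nat.strong_induction_on with
  | _ B ih =>
    intro g c m hm hd hB1 hB2
    by_cases hm1 : m = 1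
    · rw [hm1, one_mul]; exact hd
    by_cases hw : R.sg x (g • x) < R.sg x ((m * g) • x)
    · refine Desc.step (m * g) c m⁻¹ ((R.M c).inv_mem hm) ?_ ?_
      · rw [inv_mul_cancel_left]; exact hw
      · rw [inv_mul_cancel_left]; exact hd
    have hle : R.sg x ((m * g) • x) ≤ R.sg x (g • x) := not_lt.1 hw
    have hyc : ∀ c : C, g • x ≠ R.ap c := R.nap_smul hx g
    have hbig := R.big
    have hlarge : R.L0 ≤ 2 * R.dc c x (g • x) := by
      apply R.rot_large hm hm1 (hx c) (hyc c)
      rw [← mul_smul]; exact hle
    have hH : c ∈ R.H x (g • x) := R.mem_H.2 ⟨hx c, hyc c, by omega⟩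
    have hsg := R.le_sg hH
    have hpos : 0 < R.sg x (g • x) := by omega
    cases hd with
    | one =>
      exfalso
      rw [one_smul, R.sg_self] at hpos
      exact lt_irrefl _ hpos
    | step _ z b hb hlt hd1 =>
      have hb1 : b ≠ 1 := by
        intro h
        rw [h, one_mul] at hlt
        exact lt_irrefl _ hlt
      by_cases hzc : z = c
      · subst hzc
        by_cases hlt2 : R.sg x ((m * g) • x) < R.sg x (g • x)
        · have h1 := ih (R.sg x (g • x) - 1) (by omega) (b * g) z (m * b⁻¹)
            ((R.M z).mul_mem hm ((R.M z).inv_mem hb)) hd1 (by omega) (by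
              have e1 : m * b⁻¹ * (b * g) = m * g := by group
              rw [e1]; omega)
          have e1 : m * b⁻¹ * (b * g) = m * g := by group
          rwa [e1] at h1
        · refine Desc.step (m * g) z (b * m⁻¹) ((R.M z).mul_mem hb ((R.M z).inv_mem hm)) ?_ ?_
          · have e1 : b * m⁻¹ * (m * g) = b * g := by group
            rw [e1]; omega
          · have e1 : b * m⁻¹ * (m * g) = b * g := by group
            rw [e1]; exact hd1
      · have hdl := R.double_lt' hx hyc (Ne.symm hzc) hm hb hm1 hb1
          (by rw [← mul_smul]; exact hle) (by rw [← mul_smul]; omega)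
          (Or.inr (by rw [← mul_smul]; exact hlt))
        rcases hdl with hdl | hdl
        · rw [← mul_smul, ← mul_smul] at hdl
          have e0 : m * b * g = m * (b * g) := mul_assoc _ _ _
          rw [e0] at hdl
          have hd2 : R.Desc x (m * (b * g)) :=
            ih (R.sg x (g • x) - 1) (by omega) (b * g) c m hm hd1 (by omega) (by omega)
          have hM : m * b * m⁻¹ ∈ R.M (m • z) := R.M_conj m z b hb
          by_cases hlt2 : R.sg x ((m * g) • x) < R.sg x (g • x)
          · have h1 := ih (R.sg x (g • x) - 1) (by omega) (m * (b * g)) (m • z) (m * b * m⁻¹)⁻¹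
              ((R.M _).inv_mem hM) hd2 (by omega) (by
                have e1 : (m * b * m⁻¹)⁻¹ * (m * (b * g)) = m * g := by group
                rw [e1]; omega)
            have e1 : (m * b * m⁻¹)⁻¹ * (m * (b * g)) = m * g := by group
            rwa [e1] at h1
          · refine Desc.step (m * g) (m • z) (m * b * m⁻¹) hM ?_ ?_
            · have e1 : m * b * m⁻¹ * (m * g) = m * (b * g) := by group
              rw [e1]; omega
            · have e1 : m * b * m⁻¹ * (m * g) = m * (b * g) := by group
              rw [e1]; exact hd2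
        · rw [← mul_smul, ← mul_smul] at hdl
          have hM : b * m * b⁻¹ ∈ R.M (b • c) := R.M_conj b c m hm
          have e2 : b * m * b⁻¹ * (b * g) = b * m * g := by group
          have hd2 : R.Desc x (b * m * g) := by
            have h1 := ih (R.sg x (g • x) - 1) (by omega) (b * g) (b • c) (b * m * b⁻¹) hM hd1
              (by omega) (by rw [e2]; omega)
            rwa [e2] at h1
          by_cases hlt2 : R.sg x ((m * g) • x) < R.sg x (g • x)
          · have e1 : b⁻¹ * (b * m * g) = m * g := by group
            have h1 := ih (R.sg x (g • x) - 1) (by omega) (b * m * g) z b⁻¹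
              ((R.M _).inv_mem hb) hd2 (by omega) (by rw [e1]; omega)
            rwa [e1] at h1
          · have e1 : b * (m * g) = b * m * g := (mul_assoc _ _ _).symm
            refine Desc.step (m * g) z b hb ?_ ?_
            · rw [e1]; omega
            · rw [e1]; exact hd2

theorem desc_of_mem {x : V} (hx : ∀ c : C, x ≠ R.ap c) {n : E} (hn : n ∈ R.N) :
    R.Desc x n := by
  unfold Rot.N at hn
  induction hn using Subgroup.closure_induction_left with
  | one => exact Desc.one
  | mul_left m hm g _ hd =>
    obtain ⟨c, hc⟩ := hm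
    exact R.desc_step hx _ g c m hc hd (le_max_left _ _) (le_max_right _ _)
  | inv_mul_cancel m hm g _ hd =>
    obtain ⟨c, hc⟩ := hm
    exact R.desc_step hx _ g c m⁻¹ ((R.M c).inv_mem hc) hd (le_max_left _ _) (le_max_right _ _)

end Rot

end Pool.Agent.Lib.H14E
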