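import Pool.Agent.Lib.H14E.Core

/-!
# H14E, module C: rotating families with strong projections (definitions)

`Rot E V C`: the group `E` acts on the discrete geodesic space `V` and on the set `C` of cones;
`ap c` is the apex of the cone `c`, `dc c x y` is the distance, seen from the apex `ap c`, between
the directions (columns) of the points `x` and `y` (only meaningful for `x, y ≠ ap c`), `M c` is
a subgroup fixing `c` which moves every direction at `c` by at least `L0`.
No geometry is used except in the files `Pk8`, `Pk9`, `PkMain` (field `geo` of `RotGeo`).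
-/

set_option autoImplicit false

namespace Pool.Agent.Lib.H14E

open Pool.Agent.Lib.H76.Morse GeoMet

/-- Rotating family with strong projection axioms. -/
structure Rot (E V C : Type) [Group E] [MulAction E V] [MulAction E C] where
  /-- apices -/
  ap : C → V
  /-- angle at `c` -/
  dc : C → V → V → ℕ
  th : ℕ
  L0 : ℕ
  M : C → Subgroup E
  ap_inj : Function.Injective ap
  ap_smul : ∀ (g : E) (c : C), ap (g • c) = g • ap c
  dc_smul : ∀ (g : E) (c : C) (x y : V), dc (g • c) (g • x) (g • y) = dc c x y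
  dc_comm : ∀ (c : C) (x y : V), dc c x y = dc c y x
  dc_tri : ∀ (c : C) (x y z : V), x ≠ ap c → y ≠ ap c → z ≠ ap c →
    dc c x z ≤ dc c x y + dc c y z
  dc_diag : ∀ (c : C) (x : V), x ≠ ap c → dc c x x ≤ th
  strong : ∀ (c z : C) (x : V), c ≠ z → x ≠ ap c → x ≠ ap z → th < dc c x (ap z) →
    ∀ y : V, y ≠ ap z → dc z x y = dc z (ap c) y
  fin : ∀ x y : V, {c : C | x ≠ ap c ∧ y ≠ ap c ∧ th < dc c x y}.Finite
  M_fix : ∀ (c : C), ∀ m ∈ M c, m • c = c
  M_conj : ∀ (g : E) (c : C), ∀ m ∈ M c, g * m * g⁻¹ ∈ M (g • c)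
  M_sep : ∀ (c : C), ∀ m ∈ M c, m ≠ 1 → ∀ x : V, x ≠ ap c → L0 ≤ dc c x (m • x)
  big : 40 * th < L0

namespace Rot

variable {E V C : Type} [Group E] [MulAction E V] [MulAction E C] (R : Rot E V C)

/-- The cones at which the angle between `x` and `y` is large (`> 2 θ`). -/
noncomputable def H (x y : V) : Finset C := by
  classical
  exact (R.fin x y).toFinset.filter (fun c => 2 * R.th < R.dc c x y)

/-- The sum of the large angles. -/
noncomputable def sg (x y : V) : ℕ := ∑ c ∈ R.H x y, R.dc c x y

/-- The subgroup generated by all rotations. -/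
def N : Subgroup E := Subgroup.closure {m : E | ∃ c : C, m ∈ R.M c}

theorem mem_H {x y : V} {c : C} :
    c ∈ R.H x y ↔ x ≠ R.ap c ∧ y ≠ R.ap c ∧ 2 * R.th < R.dc c x y := by
  classical
  unfold H
  simp only [Finset.mem_filter, Set.Finite.mem_toFinset, Set.mem_setOf_eq]
  constructor
  · rintro ⟨⟨h1, h2, _⟩, h4⟩
    exact ⟨h1, h2, h4⟩
  · rintro ⟨h1, h2, h4⟩
    exact ⟨⟨h1, h2, by omega⟩, h4⟩

theorem ap_ne {c z : C} (h : c ≠ z) : R.ap c ≠ R.ap z := fun e => h (R.ap_inj e)

theorem M_ap {c : C} {m : E} (h : m ∈ R.M c) : m • R.ap c = R.ap c := by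
  rw [← R.ap_smul, R.M_fix c m h]

end Rot

/-- The metric condition: a large angle at `c` forces all geodesics from `x` to `y` through the
apex of `c` (only the equality of distances is used); `near c` is a point near the apex which
sees all other cones as the apex does. -/
structure RotGeo {E V C : Type} [Group E] [GeoMet V] [MulAction E V] [MulAction E C]
    (R : Rot E V C) : Prop where
  iso : ∀ (g : E) (x y : V), d (g • x) (g • y) = d x y
  geo : ∀ (c : C) (x y : V), x ≠ R.ap c → y ≠ R.ap c → R.th < R.dc c x y →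
    d x y = d x (R.ap c) + d (R.ap c) y
  near : ∀ c : C, ∃ x : V, (∀ z : C, x ≠ R.ap z) ∧ d x (R.ap c) ≤ 1 ∧
    ∀ z : C, z ≠ c → R.dc z x (R.ap c) ≤ R.th

end Pool.Agent.Lib.H14E
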