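import Pool.Agent.Lib.H14E.QD
import Pool.Agent.Lib.H14E.QA

/-!
# H14E, D2, part 1: finite balls in the quotient graph
-/

set_option autoImplicit false
set_option linter.unusedSectionVars false

namespace Pool.Agent.Lib.H14E

open Pool.Agent.Lib.H76.Morse GeoMet

/-- Finite unit balls imply finite balls. -/
theorem qc_ball_of_unit {Y : Type} [GeoMet Y] (h : ∀ a : Y, {b : Y | d a b ≤ 1}.Finite)
    (a : Y) (r : ℕ) : {b : Y | d a b ≤ r}.Finite := by
  induction r with
  | zero =>
    refine (h a).subset ?_
    intro b hb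
    have hb' : d a b ≤ 0 := hb
    show d a b ≤ 1
    omega
  | succ r ih =>
    refine (Set.Finite.biUnion ih (fun b _ => h b)).subset ?_
    intro b hb
    have hb' : d a b ≤ r + 1 := hb
    simp only [Set.mem_iUnion]
    by_cases hr : d a b ≤ r
    · exact ⟨b, hr, by show d b b ≤ 1; rw [d_self]; omega⟩
    · obtain ⟨p, h0, h1, h2⟩ := geo a b
      refine ⟨p r, ?_, ?_⟩
      · have := h2 0 r (Nat.zero_le _) (by omega)
        rw [h0] at this
        show d a (p r) ≤ r
        omega
      · have := h2 r (d a b) (by omega) le_rfl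
        rw [h1] at this
        show d (p r) b ≤ 1
        omega

namespace Dot

variable {X ι : Type} {P : PFam X ι} {ρ : ℕ}

/-- Base point of a vertex (for an apex: a chosen point). -/
noncomputable def qb : Dot P ρ → X
  | .base x => x
  | .hor _ y _ _ _ _ => y
  | .apex c => (P.ne c).some

/-- Injective code of a vertex. -/
noncomputable def qcode (v : Dot P ρ) : Option ι × X × ℕ := (v.own, v.qb, v.lev)

theorem qcode_inj : Function.Injective (qcode : Dot P ρ → Option ι × X × ℕ) := by
  intro u v h
  cases u with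
  | base x =>
    cases v with
    | base y =>
      simp only [qcode, qb, own, lev, Prod.mk.injEq] at h
      rw [h.2.1]
    | hor c y k hy h1 h2 => simp [qcode, own] at h
    | apex c => simp [qcode, own] at h
  | hor c y k hy h1 h2 =>
    cases v with
    | base y => simp [qcode, own] at h
    | hor c' y' k' hy' h1' h2' =>
      simp only [qcode, qb, own, lev, Prod.mk.injEq, Option.some.injEq] at h
      obtain ⟨rfl, rfl, rfl⟩ := h
      rfl
    | apex c' =>
      simp only [qcode, qb, own, lev, Prod.mk.injEq, Option.some.injEq] at h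
      omega
  | apex c =>
    cases v with
    | base y => simp [qcode, own] at h
    | hor c' y' k' hy' h1' h2' =>
      simp only [qcode, qb, own, lev, Prod.mk.injEq, Option.some.injEq] at h
      omega
    | apex c' =>
      simp only [qcode, qb, own, lev, Prod.mk.injEq, Option.some.injEq] at h
      rw [h.1]

theorem qb_mem (v : Dot P ρ) (c : ι) (h : v.own = some c) : v.qb ∈ P.Y c := by
  cases v with
  | base x => simp [own] at h
  | hor c' y k hy h1 h2 =>
    simp only [own, Option.some.injEq] at h
    subst h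
    exact hy
  | apex c' =>
    simp only [own, Option.some.injEq] at h
    subst h
    exact (P.ne _).some_mem

theorem lev_le (v : Dot P ρ) : v.lev ≤ ρ + 1 := by
  cases v with
  | base x => exact Nat.zero_le _
  | hor c y k hy h1 h2 => exact h2.trans (Nat.le_succ _)
  | apex c => exact le_rfl

/-- Finitely many vertices over a finite set of base points. -/
theorem qc_fin (hP : ∀ x : X, {c : ι | x ∈ P.Y c}.Finite) {B : Set X} (hB : B.Finite) :
    {v : Dot P ρ | v.qb ∈ B}.Finite := by
  have hC : (⋃ x ∈ B, {c : ι | x ∈ P.Y c}).Finite := Set.Finite.biUnion hB (fun x _ => hP x)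
  have hT : ((insert none (some '' (⋃ x ∈ B, {c : ι | x ∈ P.Y c}))) ×ˢ
      (B ×ˢ (Set.Iic (ρ + 1)))).Finite :=
    ((hC.image some).insert none).prod (hB.prod (Set.finite_Iic _))
  refine Set.Finite.of_finite_image (f := qcode) (hT.subset ?_) qcode_inj.injOn
  rintro _ ⟨v, hv, rfl⟩
  have hv' : v.qb ∈ B := hv
  refine ⟨?_, hv', lev_le v⟩
  show v.own ∈ _
  cases ho : v.own with
  | none => exact Set.mem_insert _ _
  | some c =>
    refine Set.mem_insert_of_mem _ ⟨c, ?_, rfl⟩
    simp only [Set.mem_iUnion]
    exact ⟨v.qb, hv', qb_mem v c ho⟩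

theorem qb_col (c : ι) (y : X) (hy : y ∈ P.Y c) {k : ℕ} (hk : k ≤ ρ) :
    (col c y hy k : Dot P ρ).qb = y := by
  unfold col
  split_ifs with h1
  · rfl
  · rfl

theorem lev_col (c : ι) (y : X) (hy : y ∈ P.Y c) {k : ℕ} (hk : k ≤ ρ + 1) :
    (col c y hy k : Dot P ρ).lev = k := by
  unfold col
  split_ifs with h1 h2
  · rfl
  · show ρ + 1 = k
    omega
  · show 0 = k
    omega

theorem col_ne_apex (c e : ι) (y : X) (hy : y ∈ P.Y c) {k : ℕ} (hk : k ≤ ρ) :
    (col c y hy k : Dot P ρ) ≠ .apex e := by
  intro h
  have := congrArg lev h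
  rw [lev_col c y hy (by omega)] at this
  simp only [lev] at this
  omega

theorem apex_eq_of_lev (v : Dot P ρ) (h : ρ < v.lev) : ∃ c, v = .apex c := by
  cases v with
  | base x => simp [lev] at h
  | hor c y k hy h1 h2 =>
    simp only [lev] at h
    omega
  | apex c => exact ⟨c, rfl⟩

variable [GeoMet X]

/-- Neighbours: one of the two relations. -/
theorem rel_of_d {u v : Dot P ρ} (h : d u v ≤ 1) : u = v ∨ Rel u v ∨ Rel v u := by
  by_cases h0 : d u v = 0
  · exact Or.inl (eq_of_d _ _ h0)
  · right
    have h1 : (graph P ρ).dist u v = 1 := by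
      have : d u v = 1 := by omega
      exact this
    rw [SimpleGraph.dist_eq_one_iff_adj, graph, SimpleGraph.fromRel_adj] at h1
    exact h1.2

/-- A relation between vertices which are not apices moves the base point by at most
`2 ^ ρ`. -/
theorem rel_qb {u v : Dot P ρ} (h : Rel u v) (hu : u.lev ≤ ρ) (hv : v.lev ≤ ρ) :
    d u.qb v.qb ≤ 2 ^ ρ := by
  cases h with
  | @base x x' h =>
    show d x x' ≤ 2 ^ ρ
    rw [h]
    exact Nat.one_le_two_pow
  | @vert c y hy k hk =>
    rw [lev_col c y hy (by omega)] at hv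
    rw [qb_col c y hy hk, qb_col c y hy hv, d_self]
    exact Nat.zero_le _
  | @hor c y y' hy hy' k h1 h2 h3 h4 =>
    show d y y' ≤ 2 ^ ρ
    exact h4.trans (Nat.pow_le_pow_right (by norm_num) h2)

/-- The vertices related to an apex: `u` is the point of level `ρ` of a column. -/
theorem rel_apex {u : Dot P ρ} {c : ι} (h : Rel u (.apex c)) :
    ∃ (y : X) (hy : y ∈ P.Y c), u = col c y hy ρ := by
  generalize hv : (Dot.apex c : Dot P ρ) = v at h
  cases h with
  | base h => exact absurd hv (by simp)
  | @vert e y hy k hk =>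
    have h1 := congrArg lev hv
    rw [lev_col e y hy (by omega)] at h1
    have hk' : k = ρ := by
      have : (Dot.apex c : Dot P ρ).lev = ρ + 1 := rfl
      omega
    subst hk'
    rw [col_apex e y hy (Nat.lt_succ_self _)] at hv
    have : c = e := by
      injection hv
    subst this
    exact ⟨y, hy, rfl⟩
  | hor hy hy' h1 h2 h3 h4 => exact absurd hv (by simp)

theorem apex_rel {u : Dot P ρ} {c : ι} (h : Rel (.apex c) u) : False := by
  generalize hv : (Dot.apex c : Dot P ρ) = v at h
  cases h with
  | base h => exact absurd hv (by simp)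
  | @vert e y hy k hk => exact col_ne_apex e c y hy hk hv.symm
  | hor hy hy' h1 h2 h3 h4 => exact absurd hv (by simp)

/-- The neighbours of an apex. -/
theorem near_apex {u : Dot P ρ} {c : ι} (h : d (.apex c) u ≤ 1) :
    u = .apex c ∨ ∃ (y : X) (hy : y ∈ P.Y c), u = col c y hy ρ := by
  rcases rel_of_d h with h | h | h
  · exact Or.inl h.symm
  · exact (apex_rel h).elim
  · exact Or.inr (rel_apex h)

/-- A vertex which is not an apex has finitely many neighbours. -/
theorem qc_unit (hB : ∀ (x : X) (r : ℕ), {y : X | d x y ≤ r}.Finite)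
    (hP : ∀ x : X, {c : ι | x ∈ P.Y c}.Finite) (u : Dot P ρ) (hu : u.lev ≤ ρ) :
    {v : Dot P ρ | d u v ≤ 1}.Finite := by
  have h1 := qc_fin (ρ := ρ) hP (hB u.qb (2 ^ ρ))
  have h2 : (Dot.apex '' {c : ι | u.qb ∈ P.Y c} : Set (Dot P ρ)).Finite := (hP u.qb).image _
  refine (h1.union h2).subset ?_
  intro v hv
  have hv' : d u v ≤ 1 := hv
  by_cases hl : v.lev ≤ ρ
  · left
    show d u.qb v.qb ≤ 2 ^ ρ
    rcases rel_of_d hv' with h | h | h
    · rw [h, d_self]
      exact Nat.zero_le _
    · exact rel_qb h hu hl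
    · rw [d_comm]
      exact rel_qb h hl hu
  · right
    obtain ⟨c, rfl⟩ := apex_eq_of_lev v (by omega)
    rw [d_comm] at hv'
    rcases near_apex hv' with h | ⟨y, hy, h⟩
    · rw [h] at hu
      simp only [lev] at hu
      omega
    · refine ⟨c, ?_, rfl⟩
      show u.qb ∈ P.Y c
      rw [h, qb_col c y hy le_rfl]
      exact hy

end Dot

end Pool.Agent.Lib.H14E
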