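import Pool.Agent.Lib.H14E.QC1

/-!
# H14E, D2, part 2: the action of `G ⧸ N` on the quotient graph is geometric
-/

set_option autoImplicit false
set_option linter.unusedSectionVars false
set_option linter.style.haveILetI false

namespace Pool.Agent.Lib.H14E

open Pool.Agent.Lib.H76.Morse GeoMet

/-- Representatives of `M \ D`. -/
theorem qc_reps {G : Type} [Group G] {D M : Subgroup G} (hidx : M.relIndex D ≠ 0)
    (hMn : ∀ g ∈ D, ∀ m ∈ M, g * m * g⁻¹ ∈ M) :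
    ∃ R : Set G, R.Finite ∧ ∀ a ∈ D, ∃ r ∈ R, r ∈ D ∧ a * r⁻¹ ∈ M := by
  have hfin : Finite (D ⧸ M.subgroupOf D) := by
    have : (M.subgroupOf D).index ≠ 0 := hidx
    haveI : (M.subgroupOf D).FiniteIndex := ⟨this⟩
    exact Subgroup.finite_quotient_of_finiteIndex
  refine ⟨Set.range (fun q : D ⧸ M.subgroupOf D => ((q.out : D) : G)), Set.finite_range _, ?_⟩
  intro a ha
  refine ⟨_, ⟨((⟨a, ha⟩ : D) : D ⧸ M.subgroupOf D), rfl⟩, ?_, ?_⟩
  · exact SetLike.coe_mem _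
  · have h1 : ((((⟨a, ha⟩ : D) : D ⧸ M.subgroupOf D).out : D) : D ⧸ M.subgroupOf D) =
        ((⟨a, ha⟩ : D) : D ⧸ M.subgroupOf D) := QuotientGroup.out_eq' _
    rw [QuotientGroup.eq] at h1
    have h2 := hMn _ (SetLike.coe_mem (((⟨a, ha⟩ : D) : D ⧸ M.subgroupOf D).out : D)) _ h1
    simpa [mul_assoc] using h2

variable {G X : Type} [Group G] [GeoMet X] [MulAction G X] {D M N : Subgroup G} {y₀ : X} {ρ : ℕ}

/-- A point lies in finitely many translates. -/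
theorem qc_loc (hG : Geom G X) (x : X) : {c : G ⧸ D | x ∈ (perFam D y₀).Y c}.Finite := by
  have h1 : {g : G | g • y₀ = x}.Finite := by
    by_cases hw : ∃ g₀ : G, g₀ • y₀ = x
    · obtain ⟨g₀, hg₀⟩ := hw
      refine (((hG.stab y₀).image (fun g => g₀ * g))).subset ?_
      intro g hg
      have hg' : g • y₀ = x := hg
      refine ⟨g₀⁻¹ * g, ?_, by group⟩
      show (g₀⁻¹ * g) • y₀ = y₀
      rw [mul_smul, hg', ← hg₀, inv_smul_smul]
    · refine Set.finite_empty.subset ?_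
      intro g hg
      exact hw ⟨g, hg⟩
  refine (h1.image (fun g : G => (g : G ⧸ D))).subset ?_
  rintro c ⟨g, hg, hx⟩
  exact ⟨g, hx.symm, hg⟩

namespace Dot

theorem col_congr {X ι : Type} {P : PFam X ι} {c c' : ι} {y y' : X} (hy : y ∈ P.Y c)
    (hy' : y' ∈ P.Y c') (hc : c = c') (h : y = y') (k : ℕ) :
    (col c y hy k : Dot P ρ) = col c' y' hy' k := by
  subst hc
  subst h
  rfl

theorem qc_mem (g : G) : g • y₀ ∈ (perFam D y₀).Y (g : G ⧸ D) := ⟨g, rfl, rfl⟩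

/-- Columns over translates of `y₀`. -/
theorem qc_col_smul (g a : G) (k : ℕ) :
    g • (col (a : G ⧸ D) (a • y₀) (qc_mem a) k : Dot (perFam D y₀) ρ) =
      col ((g * a : G) : G ⧸ D) ((g * a) • y₀) (qc_mem (g * a)) k := by
  rw [smul_col]
  exact col_congr _ _ rfl (mul_smul g a y₀).symm k

/-- Every vertex is a base point or on a column over a translate of `y₀`. -/
theorem qc_form (u : Dot (perFam D y₀) ρ) : (∃ x : X, u = .base x) ∨
    ∃ (g : G) (k : ℕ), k ≤ ρ + 1 ∧ u = col (g : G ⧸ D) (g • y₀) (qc_mem g) k := by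
  cases u with
  | base x => exact Or.inl ⟨x, rfl⟩
  | hor c y k hy h1 h2 =>
    right
    obtain ⟨g, rfl, rfl⟩ := id hy
    exact ⟨g, k, h2.trans (Nat.le_succ _), (col_hor _ _ _ h1 h2).symm⟩
  | apex c =>
    right
    obtain ⟨g, rfl⟩ := QuotientGroup.mk_surjective c
    exact ⟨g, ρ + 1, le_rfl, (col_apex _ _ _ (Nat.lt_succ_self _)).symm⟩

end Dot

/-- The image of the stabiliser of an apex is finite. -/
theorem qc_PC_finite [N.Normal] (hMN : M ≤ N) (hidx : M.relIndex D ≠ 0)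
    (hMn : ∀ g ∈ D, ∀ m ∈ M, g * m * g⁻¹ ∈ M) (c : G ⧸ D) : (PC D N c : Set (G ⧸ N)).Finite := by
  obtain ⟨R, hR, hrep⟩ := qc_reps hidx hMn
  obtain ⟨g₀, rfl⟩ := QuotientGroup.mk_surjective c
  refine (hR.image (fun r => ((g₀ * r * g₀⁻¹ : G) : G ⧸ N))).subset ?_
  rintro x ⟨g, hg, rfl⟩
  have hg' : g • (g₀ : G ⧸ D) = (g₀ : G ⧸ D) := hg
  have h1 : g₀⁻¹ * (g * g₀) ∈ D := by
    rw [← QuotientGroup.eq]
    exact hg'.symm
  obtain ⟨r, hr, hrD, hm⟩ := hrep _ h1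
  refine ⟨r, hr, ?_⟩
  show ((g₀ * r * g₀⁻¹ : G) : G ⧸ N) = (g : G ⧸ N)
  rw [QuotientGroup.eq]
  have h2 : g₀ * (g₀⁻¹ * (g * g₀) * r⁻¹) * g₀⁻¹ ∈ N :=
    ‹N.Normal›.conj_mem _ (hMN hm) g₀
  have h3 := ‹N.Normal›.conj_mem _ h2 (g₀ * r * g₀⁻¹)⁻¹
  convert h3 using 1
  group

/-- The unit balls of the quotient graph are finite. -/
theorem qc_unit_quo (hG : Geom G X) [N.Normal] (hMN : M ≤ N) (hidx : M.relIndex D ≠ 0)
    (hMn : ∀ g ∈ D, ∀ m ∈ M, g * m * g⁻¹ ∈ M) (a : Quo N (Dot (perFam D y₀) ρ)) :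
    {b : Quo N (Dot (perFam D y₀) ρ) | (quoGeo (dot_iso hG.iso) N).d a b ≤ 1}.Finite := by
  obtain ⟨u, rfl⟩ := qmk_surj N a
  by_cases hu : u.lev ≤ ρ
  · refine ((Dot.qc_unit hG.ball (fun x => qc_loc hG x) u hu).image (qmk N)).subset ?_
    intro b hb
    obtain ⟨v, hv, hd⟩ := qa_d_lift (dot_iso hG.iso) N u b
    refine ⟨v, ?_, hv⟩
    show d u v ≤ 1
    rw [hd]
    exact hb
  · obtain ⟨c, rfl⟩ := Dot.apex_eq_of_lev u (by omega)
    obtain ⟨g₀, rfl⟩ := QuotientGroup.mk_surjective c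
    obtain ⟨R, hR, hrep⟩ := qc_reps hidx hMn
    refine ((hR.image (fun r => qmk N (Dot.col ((g₀ * r : G) : G ⧸ D) ((g₀ * r) • y₀)
      (Dot.qc_mem _) ρ : Dot (perFam D y₀) ρ))).insert
        (qmk N (.apex (g₀ : G ⧸ D)))).subset ?_
    intro b hb
    obtain ⟨v, rfl, hd⟩ := qa_d_lift (dot_iso hG.iso) N (.apex (g₀ : G ⧸ D)) b
    have hb' : d (.apex (g₀ : G ⧸ D)) v ≤ 1 := by
      rw [hd]
      exact hb
    rcases Dot.near_apex hb' with h | ⟨y, hy, h⟩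
    · rw [h]
      exact Set.mem_insert _ _
    · refine Set.mem_insert_of_mem _ ?_
      obtain ⟨g, hg, hy'⟩ := id hy
      have h1 : g₀⁻¹ * g ∈ D := by
        rw [← QuotientGroup.eq]
        exact hg.symm
      obtain ⟨r, hr, hrD, hm⟩ := hrep _ h1
      refine ⟨r, hr, ?_⟩
      show qmk N _ = qmk N v
      symm
      rw [qmk_eq]
      refine ⟨g₀ * (g₀⁻¹ * g * r⁻¹) * g₀⁻¹, ‹N.Normal›.conj_mem _ (hMN hm) g₀, ?_⟩
      rw [Dot.qc_col_smul, h]
      have e : g₀ * (g₀⁻¹ * g * r⁻¹) * g₀⁻¹ * (g₀ * r) = g := by group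
      exact Dot.col_congr _ _ (by rw [e, hg]) (by rw [e, hy']) ρ

/-- (D2) The action of `G ⧸ N` on the quotient graph is geometric. -/
theorem qc_geom (hG : Geom G X) [N.Normal] (hMN : M ≤ N) (hidx : M.relIndex D ≠ 0)
    (hMn : ∀ g ∈ D, ∀ m ∈ M, g * m * g⁻¹ ∈ M) :
    @Geom (G ⧸ N) (Quo N (Dot (perFam D y₀) ρ)) _ (quoGeo (dot_iso hG.iso) N) _ := by
  letI : GeoMet (Quo N (Dot (perFam D y₀) ρ)) := quoGeo (dot_iso hG.iso) N
  refine ⟨?_, ?_, ?_, ?_, ?_⟩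
  · obtain ⟨x⟩ := hG.ne
    exact ⟨qmk N (.base x)⟩
  · exact quo_isoAct (dot_iso hG.iso) N
  · intro a r
    exact qc_ball_of_unit (fun a => qc_unit_quo hG hMN hidx hMn a) a r
  · intro a
    obtain ⟨u, rfl⟩ := qmk_surj N a
    cases u with
    | base x =>
      refine ((hG.stab x).image (fun g : G => (g : G ⧸ N))).subset ?_
      intro t ht
      obtain ⟨g, hg, hgu⟩ := qa_lift_move t (Dot.base x) (Dot.base x) ht
      refine ⟨g, ?_, hg⟩
      rw [Dot.smul_base] at hgu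
      injection hgu
    | hor c y k hy h1 h2 =>
      refine ((hG.stab y).image (fun g : G => (g : G ⧸ N))).subset ?_
      intro t ht
      obtain ⟨g, hg, hgu⟩ := qa_lift_move t (Dot.hor c y k hy h1 h2) (Dot.hor c y k hy h1 h2) ht
      refine ⟨g, ?_, hg⟩
      rw [Dot.smul_hor] at hgu
      injection hgu
    | apex c =>
      refine (qc_PC_finite hMN hidx hMn c).subset ?_
      intro t ht
      obtain ⟨g, hg, hgu⟩ := qa_lift_move t (Dot.apex c) (Dot.apex c) ht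
      refine ⟨g, ?_, hg⟩
      rw [Dot.smul_apex] at hgu
      show g • c = c
      injection hgu
  · classical
    obtain ⟨F, hF⟩ := hG.cof
    refine ⟨(F.image (fun x => qmk N (.base x : Dot (perFam D y₀) ρ))) ∪
      ((Finset.range (ρ + 2)).image (fun k => qmk N (Dot.col ((1 : G) : G ⧸ D) ((1 : G) • y₀)
        (Dot.qc_mem 1) k : Dot (perFam D y₀) ρ))), ?_⟩
    intro a
    obtain ⟨u, rfl⟩ := qmk_surj N a
    rcases Dot.qc_form u with ⟨x, rfl⟩ | ⟨g, k, hk, rfl⟩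
    · obtain ⟨g, y, hy, h⟩ := hF x
      refine ⟨(g : G ⧸ N), qmk N (.base y), ?_, ?_⟩
      · exact Finset.mem_union_left _ (Finset.mem_image.2 ⟨y, hy, rfl⟩)
      · rw [mk_smul_qmk, Dot.smul_base, h]
    · refine ⟨(g : G ⧸ N), _, Finset.mem_union_right _ (Finset.mem_image.2
        ⟨k, Finset.mem_range.2 (by omega), rfl⟩), ?_⟩
      rw [mk_smul_qmk, Dot.qc_col_smul]
      congr 1
      exact Dot.col_congr _ _ (by rw [mul_one]) (by rw [mul_one]) k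

end Pool.Agent.Lib.H14E
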