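import Pool.Agent.Lib.H14E.LF

/-!
# H14E, D4: quasi-centre of a finite group, lifting of finite subgroups, `PTors (G ⧸ N)`
-/

set_option autoImplicit false
set_option linter.unusedSectionVars false
set_option linter.style.haveILetI false

namespace Pool.Agent.Lib.H14E

open Pool.Agent.Lib.H76.Morse GeoMet

/-- Quasi-centre of a finite group of isometries. -/
theorem qe_centre {G X : Type} [Group G] [GeoMet X] [MulAction G X] {δ : ℕ} (hyp : Hyp δ X)
    (hiso : IsoAct G X) [Nonempty X] (F : Subgroup G) (hF : (F : Set G).Finite) :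
    ∃ y : X, ∀ f ∈ F, d y (f • y) ≤ 2 * δ + 1 := by
  classical
  obtain ⟨x₀⟩ := ‹Nonempty X›
  let O : Finset X := hF.toFinset.image (fun f => f • x₀)
  have hO : ∀ f ∈ F, ∀ z ∈ O, f • z ∈ O := by
    intro f hf z hz
    obtain ⟨g, hg, rfl⟩ := Finset.mem_image.1 hz
    refine Finset.mem_image.2 ⟨f * g, ?_, mul_smul f g x₀⟩
    rw [Set.Finite.mem_toFinset] at hg ⊢
    exact F.mul_mem hf hg
  let rad : X → ℕ := fun y => O.sup (fun z => d y z)
  obtain ⟨y, hy⟩ : ∃ y : X, ∀ z : X, rad y ≤ rad z := by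
    haveI : Nonempty X := ⟨x₀⟩
    exact ⟨Function.argmin rad, fun z => Function.argmin_le rad z⟩
  refine ⟨y, fun f hf => ?_⟩
  by_contra hlt
  push Not at hlt
  obtain ⟨p, h0, h1, h2⟩ := geo y (f • y)
  have hm1 : d y (p (d y (f • y) / 2)) = d y (f • y) / 2 := by
    have := h2 0 (d y (f • y) / 2) (Nat.zero_le _) (by omega)
    rwa [h0, Nat.sub_zero] at this
  have hm2 : d (p (d y (f • y) / 2)) (f • y) = d y (f • y) - d y (f • y) / 2 := by
    have := h2 (d y (f • y) / 2) (d y (f • y)) (by omega) le_rfl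
    rwa [h1] at this
  have hrad : rad (p (d y (f • y) / 2)) + d y (f • y) / 2 ≤ rad y + δ := by
    have hne : O.Nonempty := ⟨(1 : G) • x₀, Finset.mem_image.2
      ⟨1, by rw [Set.Finite.mem_toFinset]; exact F.one_mem, rfl⟩⟩
    obtain ⟨z, hz, hz'⟩ := Finset.exists_mem_eq_sup O hne (fun z => d (p (d y (f • y) / 2)) z)
    have e1 : rad (p (d y (f • y) / 2)) = d (p (d y (f • y) / 2)) z := hz'
    have e2 : d y z ≤ rad y := Finset.le_sup (f := fun z => d y z) hz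
    have e3 : d (f • y) z ≤ rad y := by
      have hz2 := hO f⁻¹ (F.inv_mem hf) z hz
      have e4 : d y (f⁻¹ • z) ≤ rad y := Finset.le_sup (f := fun z => d y z) hz2
      have e5 := hiso f y (f⁻¹ • z)
      rw [smul_inv_smul] at e5
      omega
    have h4 := hyp (p (d y (f • y) / 2)) z y (f • y)
    rw [d_comm z (f • y), d_comm z y, d_comm (p (d y (f • y) / 2)) y, hm1, hm2] at h4
    omega
  have := hy (p (d y (f • y) / 2))
  omega

variable {p : ℕ} {G X : Type} [Group G] [GeoMet X] [MulAction G X]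
  {D M N : Subgroup G} [N.Normal] {y₀ : X} {ρ δ' : ℕ}

/-- A finite subgroup of `G ⧸ N` is contained in some `P_c` or lifts to `G`. -/
theorem qe_fin_lift (hG : Geom G X) (h : QD p D M N y₀ ρ δ') (hρ : 6 * δ' + 3 ≤ ρ)
    (F : Subgroup (G ⧸ N)) (hF : (F : Set (G ⧸ N)).Finite) :
    (∃ c : G ⧸ D, F ≤ PC D N c) ∨
    ∃ (u : Dot (perFam D y₀) ρ) (φ : F →* G), u.lev ≤ 2 * δ' + 1 ∧
      (∀ f : F, ((φ f : G) : G ⧸ N) = f) ∧ ∀ f : F, d u (φ f • u) ≤ 2 * δ' + 1 := by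
  have hiso : IsoAct G X := hG.iso
  obtain ⟨x₀⟩ := hG.ne
  letI : GeoMet (Quo N (Dot (perFam D y₀) ρ)) := quoGeo (dot_iso hiso) N
  haveI : Nonempty (Quo N (Dot (perFam D y₀) ρ)) := ⟨qmk N (.base x₀)⟩
  obtain ⟨a, ha⟩ := qe_centre (lf0 hiso h) (quo_isoAct (dot_iso hiso) N) F hF
  obtain ⟨u, rfl⟩ := qmk_surj N a
  by_cases hu : 2 * δ' + 1 < u.lev
  · left
    obtain ⟨c, hc, _, _⟩ := lf4 (N := N) hiso 1 u (2 * δ' + 1) hu (ha 1 F.one_mem)
    refine ⟨c, fun f hf => ?_⟩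
    obtain ⟨c', hc', hfc, _⟩ := lf4 (N := N) hiso f u (2 * δ' + 1) hu (ha f hf)
    rw [hc] at hc'
    rw [Option.some.inj hc']
    exact hfc
  · right
    have hl : ∀ f : F, ∃ g : G, (g : G ⧸ N) = f ∧ d u (g • u) ≤ 2 * δ' + 1 := by
      intro f
      obtain ⟨g, hg, e⟩ := lf1 (N := N) hiso (f : G ⧸ N) u u
      exact ⟨g, hg, by rw [e]; exact ha f f.2⟩
    choose φ hφ hφ' using hl
    have hmul : ∀ f f' : F, φ (f * f') = φ f * φ f' := by
      intro f f'
      refine lf2 hiso h (u := u) (r := 2 * (2 * δ' + 1)) ?_ (by omega) ?_ ?_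
      · rw [hφ, QuotientGroup.mk_mul, hφ, hφ]
        rfl
      · have := hφ' (f * f')
        omega
      · have t := d_tri u (φ f • u) ((φ f * φ f') • u)
        rw [mul_smul, dot_iso hiso (φ f) u (φ f' • u)] at t
        have h1 := hφ' f
        have h2 := hφ' f'
        rw [mul_smul]
        omega
    have hone : φ 1 = 1 := by
      have := hmul 1 1
      rw [mul_one] at this
      exact (left_eq_mul.1 this)
    exact ⟨u, ⟨⟨φ, hone⟩, hmul⟩, by omega, hφ, hφ'⟩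

/-- (D4) Torsion elements of `G ⧸ N` have `p`-power order. -/
theorem qe_ptors (hp : p.Prime) (hG : Geom G X) (hT : PTors p G) (h : QD p D M N y₀ ρ δ')
    (hρ : 6 * δ' + 3 ≤ ρ) : PTors p (G ⧸ N) := by
  intro g hg
  have hF : (Subgroup.zpowers g : Set (G ⧸ N)).Finite := by
    exact finite_zpowers.2 hg
  rcases qe_fin_lift hG h hρ (Subgroup.zpowers g) hF with ⟨c, hc⟩ | ⟨u, φ, hu, hφ, hφ'⟩
  · obtain ⟨k, hk⟩ := (lf_PC hp h c).2 ⟨g, hc (Subgroup.mem_zpowers g)⟩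
    refine ⟨k, ?_⟩
    have := congrArg (fun x : PC D N c => (x : G ⧸ N)) hk
    simpa using this
  · let g₁ : Subgroup.zpowers g := ⟨g, Subgroup.mem_zpowers g⟩
    have h1 : IsOfFinOrder (φ g₁) := by
      apply MonoidHom.isOfFinOrder
      obtain ⟨n, hn, hn1⟩ := hg.exists_pow_eq_one
      rw [isOfFinOrder_iff_pow_eq_one]
      exact ⟨n, hn, by ext; simpa using hn1⟩
    obtain ⟨k, hk⟩ := hT _ h1
    refine ⟨k, ?_⟩
    have h2 := hφ (g₁ ^ p ^ k)
    rw [map_pow, hk] at h2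
    have h3 : ((g₁ ^ p ^ k : Subgroup.zpowers g) : G ⧸ N) = g ^ p ^ k := rfl
    rw [h3] at h2
    exact h2.symm

end Pool.Agent.Lib.H14E
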