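import Pool.Agent.Lib.H14E.Core
import Pool.Agent.Lib.H14E.N2
import Pool.Agent.Lib.H76.Ext.FreeOrder

/-!
# H14E: the first stage (module H)

`F₂` acts on its Cayley tree; `NoRec` from residual nilpotence; torsion free.
-/

set_option autoImplicit false

namespace Pool.Agent.Lib.H14E

open Pool.Agent.Lib.H76.Morse GeoMet

/-! ### Words -/

/-- Length of the longest common initial segment. -/
def lcp {A : Type} [DecidableEq A] : List A → List A → ℕ
  | [], _ => 0
  | _ :: _, [] => 0
  | a :: l, b :: m => if a = b then lcp l m + 1 else 0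

theorem lcp_ultra {A : Type} [DecidableEq A] (x y z : List A) :
    min (lcp x z) (lcp z y) ≤ lcp x y := by
  induction x generalizing y z with
  | nil => simp [lcp]
  | cons a l ih =>
    cases z with
    | nil => simp [lcp]
    | cons c n =>
      cases y with
      | nil => simp [lcp]
      | cons b m =>
        by_cases h1 : a = c
        · by_cases h2 : c = b
          · subst h1; subst h2
            simp only [lcp, if_true]
            have := ih m n
            omega
          · simp [lcp, h2]
        · simp [lcp, h1]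

open FreeGroup in
theorem length_reduce_invRev_append {α : Type} [DecidableEq α] :
    ∀ L M : List (α × Bool), IsReduced L → IsReduced M →
      (reduce (invRev L ++ M)).length + 2 * lcp L M = L.length + M.length := by
  intro L
  induction L with
  | nil =>
    intro M _ hM
    simp [lcp, hM.reduce_eq]
  | cons a l ih =>
    intro M hL hM
    have hl : IsReduced l := List.IsChain.tail hL
    cases M with
    | nil =>
      rw [List.append_nil, reduce_invRev, hL.reduce_eq]
      simp [lcp]
    | cons b m =>
      have hm : IsReduced m := List.IsChain.tail hM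
      by_cases hab : a = b
      · subst hab
        have e : reduce (invRev (a :: l) ++ a :: m) = reduce (invRev l ++ m) := by
          apply reduce.Step.eq
          rw [invRev_cons]
          obtain ⟨a1, a2⟩ := a
          have : invRev [(a1, a2)] = [(a1, !a2)] := by simp [invRev]
          rw [this, List.append_assoc]
          exact Red.Step.not_rev
        rw [e]
        simp only [lcp, if_true, List.length_cons]
        have := ih m hl hm
        omega
      · have e : reduce (invRev (a :: l) ++ b :: m) = invRev (a :: l) ++ b :: m := by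
          apply IsReduced.reduce_eq
          have h1 : IsReduced (invRev (a :: l)) := by
            rw [isReduced_iff_reduce_eq, reduce_invRev, hL.reduce_eq]
          unfold FreeGroup.IsReduced
          rw [List.isChain_append]
          refine ⟨h1, hM, ?_⟩
          intro x hx y hy
          rw [invRev_cons] at hx
          obtain ⟨a1, a2⟩ := a
          obtain ⟨b1, b2⟩ := b
          simp [invRev] at hx hy
          subst hx
          subst hy
          intro h
          simp only at h ⊢
          subst h
          cases a2 <;> cases b2 <;> simp_all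
        rw [e]
        simp [lcp, hab]

/-! ### The tree -/

/-- The word metric on a free group. -/
@[reducible] def freeGeo (α : Type) [DecidableEq α] : GeoMet (FreeGroup α) where
  d x y := FreeGroup.norm (x⁻¹ * y)
  d_self x := by simp
  eq_of_d x y h := by
    rw [FreeGroup.norm_eq_zero] at h
    exact (inv_mul_eq_one.1 h)
  d_comm x y := by
    rw [← FreeGroup.norm_inv_eq]
    simp
  d_tri x y z := by
    have h := FreeGroup.norm_mul_le (x⁻¹ * y) (y⁻¹ * z)
    have e : x⁻¹ * y * (y⁻¹ * z) = x⁻¹ * z := by group
    rwa [e] at h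
  geo x y := by
    set w := (x⁻¹ * y).toWord with hw
    have hr : FreeGroup.IsReduced w := FreeGroup.isReduced_toWord
    have hmk : FreeGroup.mk w = x⁻¹ * y := FreeGroup.mk_toWord
    refine ⟨fun i => x * FreeGroup.mk (w.take i), ?_, ?_, ?_⟩
    · simp [← FreeGroup.one_eq_mk]
    · show x * FreeGroup.mk (w.take (FreeGroup.norm (x⁻¹ * y))) = y
      have : FreeGroup.norm (x⁻¹ * y) = w.length := rfl
      rw [this, List.take_length, hmk]
      group
    · intro i j hij hj
      have hj' : j ≤ w.length := hj
      have e : (x * FreeGroup.mk (w.take i))⁻¹ * (x * FreeGroup.mk (w.take j))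
          = FreeGroup.mk ((w.take j).drop i) := by
        have h1 : w.take j = w.take i ++ (w.take j).drop i := by
          conv_lhs => rw [← List.take_append_drop i (w.take j)]
          rw [List.take_take, min_eq_left hij]
        conv_lhs => rw [h1, ← FreeGroup.mul_mk]
        group
      show FreeGroup.norm _ = _
      rw [e]
      have h2 : FreeGroup.IsReduced ((w.take j).drop i) := by
        exact List.IsChain.drop (List.IsChain.take hr j) i
      show (FreeGroup.reduce ((w.take j).drop i)).length = _
      rw [h2.reduce_eq, List.length_drop, List.length_take, min_eq_left hj']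

theorem freeGeo_d {α : Type} [DecidableEq α] (x y : FreeGroup α) :
    FreeGroup.norm (x⁻¹ * y) + 2 * lcp x.toWord y.toWord = x.norm + y.norm := by
  have h := length_reduce_invRev_append x.toWord y.toWord FreeGroup.isReduced_toWord
    FreeGroup.isReduced_toWord
  rw [← FreeGroup.toWord_inv, ← FreeGroup.toWord_mul] at h
  exact h

theorem freeGeo_hyp (α : Type) [DecidableEq α] : @Hyp 0 (FreeGroup α) (freeGeo α) := by
  intro x y z w
  show FreeGroup.norm (x⁻¹ * y) + FreeGroup.norm (z⁻¹ * w) ≤
    max (FreeGroup.norm (x⁻¹ * z) + FreeGroup.norm (y⁻¹ * w))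
      (FreeGroup.norm (x⁻¹ * w) + FreeGroup.norm (y⁻¹ * z)) + 0
  have key : ∀ a b : FreeGroup α, FreeGroup.norm (a⁻¹ * b)
      + 2 * lcp (w⁻¹ * a).toWord (w⁻¹ * b).toWord
      = (w⁻¹ * a).norm + (w⁻¹ * b).norm := by
    intro a b
    have h := freeGeo_d (w⁻¹ * a) (w⁻¹ * b)
    have e : (w⁻¹ * a)⁻¹ * (w⁻¹ * b) = a⁻¹ * b := by group
    rwa [e] at h
  have hs : ∀ a : FreeGroup α, FreeGroup.norm (a⁻¹ * w) = (w⁻¹ * a).norm := by
    intro a
    rw [← FreeGroup.norm_inv_eq]
    congr 1
    group
  have h1 := key x y
  have h2 := key x z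
  have h3 := key z y
  have h4 := lcp_ultra (w⁻¹ * x).toWord (w⁻¹ * y).toWord (w⁻¹ * z).toWord
  have h5 : FreeGroup.norm (z⁻¹ * y) = FreeGroup.norm (y⁻¹ * z) := by
    rw [← FreeGroup.norm_inv_eq]
    congr 1
    group
  rw [hs z, hs y, hs x]
  omega

theorem freeGeo_geom (α : Type) [DecidableEq α] [Finite α] :
    @Geom (FreeGroup α) (FreeGroup α) _ (freeGeo α) _ := by
  let _ := freeGeo α
  refine ⟨⟨1⟩, ?_, ?_, ?_, ?_⟩
  · intro g x y
    show FreeGroup.norm ((g * x)⁻¹ * (g * y)) = FreeGroup.norm (x⁻¹ * y)
    congr 1
    group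
  · intro x r
    have h := List.finite_length_le (α × Bool) r
    have h2 := h.image (fun l => x * FreeGroup.mk l)
    refine h2.subset ?_
    intro y hy
    refine ⟨(x⁻¹ * y).toWord, hy, ?_⟩
    simp [FreeGroup.mk_toWord]
  · intro x
    have : {g : FreeGroup α | g • x = x} = {1} := by
      ext g
      simp
    rw [this]
    exact Set.finite_singleton _
  · refine ⟨{1}, fun x => ⟨x, 1, by simp, by simp⟩⟩

/-! ### No recurrences -/

section magnus

open Pool.Agent.H76.Ext Polynomial

theorem lcs_van {R : Type*} [Ring R] {F : Type} [Group F] (φ : F →* (R[X])ˣ)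
    (hφ : ∀ g, Van 1 ((φ g : R[X]) - 1)) (n : ℕ) (x : F)
    (hx : x ∈ (⊤ : Subgroup F).lowerCentralSeries n) :
    Van (n + 1) ((φ x : R[X]) - 1) := by
  induction n generalizing x with
  | zero => exact hφ x
  | succ n ih =>
    rw [Subgroup.mem_lowerCentralSeries_succ_iff] at hx
    have hval : ∀ g : F, (φ g : R[X]) * (φ g⁻¹ : R[X]) = 1 := by
      intro g
      rw [← Units.val_mul, ← map_mul, mul_inv_cancel, map_one, Units.val_one]
    have h0 : ∀ p : R[X], Van 0 p := fun p j hj => absurd hj (by omega)
    refine Subgroup.closure_induction (p := fun x _ => Van (n + 1 + 1) ((φ x : R[X]) - 1))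
      ?_ ?_ ?_ ?_ hx
    · rintro _ ⟨g, hg, h, -, rfl⟩
      have e : (φ (g * h * g⁻¹ * h⁻¹) : R[X]) - 1 =
          (((φ g : R[X]) - 1) * ((φ h : R[X]) - 1)
            - ((φ h : R[X]) - 1) * ((φ g : R[X]) - 1))
              * ((φ g⁻¹ : R[X]) * (φ h⁻¹ : R[X])) := by
        rw [map_mul, map_mul, map_mul, Units.val_mul, Units.val_mul, Units.val_mul]
        have h1 : ((φ g : R[X]) - 1) * ((φ h : R[X]) - 1)
            - ((φ h : R[X]) - 1) * ((φ g : R[X]) - 1)
            = (φ g : R[X]) * (φ h : R[X]) - (φ h : R[X]) * (φ g : R[X]) := by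
          simp only [sub_mul, mul_sub, mul_one, one_mul]
          abel
        rw [h1, sub_mul]
        have h2 : (φ h : R[X]) * (φ g : R[X]) * ((φ g⁻¹ : R[X]) * (φ h⁻¹ : R[X]))
            = 1 := by
          rw [mul_assoc, ← mul_assoc (φ g : R[X]), hval g, one_mul, hval h]
        rw [h2]
        simp only [mul_assoc]
      show Van (n + 1 + 1) ((φ (g * h * g⁻¹ * h⁻¹) : R[X]) - 1)
      rw [e]
      have h3 := ih g hg
      have h4 := hφ h
      have h5 : Van (n + 1 + 1) (((φ g : R[X]) - 1) * ((φ h : R[X]) - 1)
            - ((φ h : R[X]) - 1) * ((φ g : R[X]) - 1)) := by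
        rw [sub_eq_add_neg]
        exact (h3.mul h4).add ((h4.mul h3).mono (by omega)).neg
      exact (h5.mul (h0 _)).mono (by omega)
    · intro j _
      simp
    · intro x y _ _ hx hy
      have e : (φ (x * y) : R[X]) - 1 =
          ((φ x : R[X]) - 1) * (φ y : R[X]) + ((φ y : R[X]) - 1) := by
        rw [map_mul, Units.val_mul, sub_mul, one_mul]
        abel
      rw [e]
      exact ((hx.mul (h0 _)).mono (by omega)).add hy
    · intro x _ hx
      have e : (φ x⁻¹ : R[X]) - 1 = -(((φ x : R[X]) - 1) * (φ x⁻¹ : R[X])) := by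
        rw [sub_mul, hval x, one_mul]
        abel
      rw [e]
      exact ((hx.mul (h0 _)).mono (by omega)).neg

theorem free_noRec : NoRec (FreeGroup (Fin 2)) := by
  apply noRec_of_iInf_lcs
  intro x hx
  apply phi2_injective
  rw [map_one]
  apply Units.ext
  rw [Units.val_one]
  refine sub_eq_zero.1 (Polynomial.ext fun n => ?_)
  rw [coeff_zero]
  exact lcs_van phi2 phi2_coeff_zero n x (hx n) n (by omega)

end magnus

theorem start_stage (p : ℕ) : Stage p (FreeGroup (Fin 2)) := by
  refine ⟨⟨FreeGroup (Fin 2), freeGeo (Fin 2), inferInstance, 0, freeGeo_hyp (Fin 2),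
    freeGeo_geom (Fin 2)⟩, ?_, free_noRec⟩
  intro g hg
  refine ⟨0, ?_⟩
  have : g = 1 := by
    by_contra hne
    exact (not_isOfFinOrder_of_isMulTorsionFree hne) hg
  rw [this, one_pow]

end Pool.Agent.Lib.H14E
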