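import Pool.Agent.Lib.H14E.Core
import Pool.Agent.Lib.H14E.F4
import Pool.Agent.Lib.H14E.F5

/-!
# H14E: the W-step (module F)

`w` of infinite order in the stage `G`.  `D = Elc (π w)` (the elements commuting with a positive
power of `π w`), `S` its torsion subgroup, `M̃ = ⟨w̃₀^(p^k) z^c⟩`, `w₀` a generator of `D`
modulo `S`.
-/

set_option autoImplicit false

namespace Pool.Agent.Lib.H14E

open Pool.Agent.Lib.H76.Morse GeoMet

theorem wstep {p : ℕ} (hp : p.Prime) (hp2 : p ≠ 2) {G X : Type} [Group G] [GeoMet X]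
    [MulAction G X] {δ : ℕ} (hX : Hyp δ X) (hG : Geom G X) (hT : PTors p G) (hN : NoRec G)
    {E : Type} [Group E] (π : E →* G) (z : E) (hE : CExt π z) (w : E)
    (hw : ¬ IsOfFinOrder (π w)) :
    ∃ (D S : Subgroup G) (y₀ : X), Periph D y₀ ∧ FinNormal S D ∧ π w ∈ D ∧
      ∀ F₁ Φ : Finset G, ∃ Mt : Subgroup E, FillData p π z D S F₁ ∅ Φ Mt ∧
        ∃ N : ℕ, 1 ≤ N ∧ ∃ n : ℤ, n ≠ 0 ∧ w ^ N * z ^ n ∈ Mt := by
  obtain ⟨j, hj, m, C, hA⟩ := exists_axis hX hG hw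
  obtain ⟨S, w₀, hS, hw₀, hinf, hdec, htor⟩ := elc_struct hX hG hw hA
  have hwD : π w ∈ Elc (π w) := by simpa using pow_mem_elc (π w) 1
  exact ⟨Elc (π w), S, m, elc_periph hp hp2 hX hG hT hj hA, hS, hwD, fun F₁ Φ =>
    w_fill hp hT hN hS hw₀ hinf hdec htor π z hE w hw hwD F₁ Φ⟩

end Pool.Agent.Lib.H14E
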