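import Pool.Agent.Lib.H14E.FillE
import Pool.Agent.Lib.H14E.Filling
import Pool.Agent.Lib.H14E.WStep
import Pool.Agent.Lib.H14E.StartS
import Pool.Agent.Lib.H76.Ext.Equiv2

/-!
# H14E, module I: the start, with a power of `z` in the commutator subgroup
-/

set_option autoImplicit false

namespace Pool.Agent.Lib.H14E

open Pool.Agent.H76.Ext Pool.Agent.Lib.H76.Morse commutatorElement

theorem wfill {p : ℕ} (hp : p.Prime) (hp2 : p ≠ 2) {E G : Type} [Group E] [Group G]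
    {π : E →* G} {z : E} (hE : CExt π z) (hS : Stage p G) (w : E)
    (hw : ¬ IsOfFinOrder (π w)) : ∃ Mt : Subgroup E,
      Stage p (G ⧸ Subgroup.normalClosure ((Mt.map π : Subgroup G) : Set G)) ∧
      (∀ n : ℤ, z ^ n ∈ Subgroup.normalClosure (Mt : Set E) → n = 0) ∧
      ∃ N : ℕ, 1 ≤ N ∧ ∃ n : ℤ, n ≠ 0 ∧ w ^ N * z ^ n ∈ Mt := by
  obtain ⟨X, _, _, δ, hX, hG⟩ := hS.hyp
  obtain ⟨D, S, y₀, hP, hF, -, h1⟩ := wstep hp hp2 hX hG hS.tors hS.norec π z hE w hw
  obtain ⟨F₁, h2⟩ := filling hp hp2 hX hG hS.tors hS.norec hP hF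
  obtain ⟨Φ, h3⟩ := h2 ∅
  obtain ⟨Mt, h4, h5⟩ := h1 F₁ Φ
  obtain ⟨h6, h7⟩ := h3 E π z hE Mt h4
  exact ⟨Mt, h6, h7, h5⟩

theorem cext_prod (G : Type) [Group G] :
    CExt (MonoidHom.fst G (Multiplicative ℤ)) ((1, Multiplicative.ofAdd 1) : G × Multiplicative ℤ) where
  surj := fun g => ⟨(g, 1), rfl⟩
  ker := by
    ext ⟨g, n⟩
    rw [MonoidHom.mem_ker, Subgroup.mem_zpowers_iff]
    constructor
    · intro h
      have h1 : g = 1 := h
      subst h1
      refine ⟨Multiplicative.toAdd n, ?_⟩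
      rw [Prod.pow_mk, one_zpow, ← ofAdd_zsmul]
      simp
    · rintro ⟨k, hk⟩
      rw [Prod.pow_mk, one_zpow] at hk
      exact (congrArg Prod.fst hk).symm
  cent := by
    rintro ⟨g, n⟩
    rw [Prod.mk_mul_mk, Prod.mk_mul_mk, one_mul, mul_one, mul_comm]
  inf := by
    intro n hn
    rw [Prod.pow_mk, one_zpow, ← ofAdd_zsmul] at hn
    have h1 := congrArg Prod.snd hn
    have h2 : Multiplicative.ofAdd (n • (1 : ℤ)) = Multiplicative.ofAdd 0 := h1
    have h3 := Multiplicative.ofAdd.injective h2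
    simpa using h3

theorem free_comm_ne : (⁅FreeGroup.of (0 : Fin 2), FreeGroup.of (1 : Fin 2)⁆ :
    FreeGroup (Fin 2)) ≠ 1 := by
  intro h
  have h1 := congrArg (FreeGroup.lift
    (fun i : Fin 2 => if i = 0 then (Equiv.swap (0 : Fin 3) 1) else Equiv.swap (1 : Fin 3) 2)) h
  rw [map_commutatorElement, FreeGroup.lift_apply_of, FreeGroup.lift_apply_of, map_one] at h1
  revert h1
  decide

theorem free_not_fin (g : FreeGroup (Fin 2)) (hg : g ≠ 1) : ¬ IsOfFinOrder g := by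
  intro h
  obtain ⟨n, hn, h1⟩ := isOfFinOrder_iff_pow_eq_one.1 h
  exact hg (torsionFree_freeGroup (Fin 2) g n hn h1)

theorem startE_abs {p : ℕ} (hp : p.Prime) (hp2 : p ≠ 2) {F G : Type} [Group F] [Group G]
    [Countable F] {π : F →* G} {z : F} (hE : CExt π z) (hS : Stage p G) (w : F)
    (hw : ¬ IsOfFinOrder (π w)) (hc : w ∈ commutator F) : StartE p := by
  obtain ⟨Mt, h1, h2, N, hN, n, hn, h3⟩ := wfill hp hp2 hE hS w hw
  refine ⟨F, inferInstance, inferInstance, z, hE.cent,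
    Subgroup.normalClosure (Mt : Set F), inferInstance, fill_good hE h1 h2, n, hn,
    w ^ N, Subgroup.pow_mem _ hc N, ?_⟩
  have h5 : Commute z (w ^ N) := hE.cent _
  rw [(h5.zpow_left n).eq]
  exact Subgroup.subset_normalClosure h3

theorem comm_prod {G : Type} [Group G] (x y : G) :
    ((⁅x, y⁆, 1) : G × Multiplicative ℤ) ∈ commutator (G × Multiplicative ℤ) := by
  have h4 : ((⁅x, y⁆, 1) : G × Multiplicative ℤ) =
      ⁅((x, 1) : G × Multiplicative ℤ), ((y, 1) : G × Multiplicative ℤ)⁆ := by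
    rw [commutatorElement_def, commutatorElement_def]
    ext <;> simp
  rw [h4, commutator_def]
  exact Subgroup.commutator_mem_commutator (Subgroup.mem_top _) (Subgroup.mem_top _)

theorem startE {p : ℕ} (hp : p.Prime) (hp2 : p ≠ 2) : StartE p :=
  startE_abs hp hp2 (cext_prod (FreeGroup (Fin 2))) (start_stage p)
    (⁅FreeGroup.of (0 : Fin 2), FreeGroup.of (1 : Fin 2)⁆, 1)
    (free_not_fin _ free_comm_ne) (comm_prod _ _)

end Pool.Agent.Lib.H14E
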