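import Pool.Agent.Lib.H14E.GQ2

/-!
# H14E: group theory of the type P subgroups (module G)

`D = A *_S B` is residually a finite `p`-group; `M = [M₀, M₀] M₀^p` (or smaller) satisfies (Fus)
and (HT); the lift `M̃` is the intersection of the preimage of `M` with the kernel of a
homomorphism `D̃ → ℤ` with `z ↦ p^e`.
-/

set_option autoImplicit false

namespace Pool.Agent.Lib.H14E

theorem typeP_finNormal {G : Type} [Group G] {D A B S : Subgroup G} {a b t : G}
    (h : TypeP D A B S a b t) : FinNormal S D :=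
  ⟨h.fin, by rw [h.hD, h.hA]; exact le_sup_right.trans le_sup_left, H14G.gq_nrm h⟩

theorem typeP_fill {p : ℕ} (hp : p.Prime) (hp2 : p ≠ 2) {G : Type} [Group G] (hT : PTors p G)
    (hN : NoRec G) {D A B S : Subgroup G} {a b t : G} (h : TypeP D A B S a b t)
    {E : Type} [Group E] (π : E →* G) (z : E) (hE : CExt π z) :
    ∀ F₁ : Finset G, ∃ F₂ : Finset G, ∀ Φ : Finset G, ∃ Mt : Subgroup E,
      FillData p π z D S F₁ F₂ Φ Mt :=
  H14G.gq_typeP hp hp2 hT h π z hE

end Pool.Agent.Lib.H14E
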