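import Pool.Agent.Lib.H14E.StartE
import Pool.Agent.Lib.H14E.PStep
import Pool.Agent.Lib.H14E.TypePFill

/-!
# H14E, module I: the W-step and the P-step on the central extension
-/

set_option autoImplicit false

namespace Pool.Agent.Lib.H14E

open Pool.Agent.H76.Ext Pool.Agent.Lib.H76.Morse commutatorElement

theorem cext_equiv {E E' G : Type} [Group E] [Group E'] [Group G] {π : E' →* G} {z' : E'}
    (h : CExt π z') (e : E ≃* E') {z : E} (hz : e z = z') :
    CExt (π.comp e.toMonoidHom) z where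
  surj := h.surj.comp e.surjective
  ker := by
    ext x
    have h1 : x ∈ (π.comp e.toMonoidHom).ker ↔ e x ∈ π.ker := Iff.rfl
    rw [h1, h.ker, Subgroup.mem_zpowers_iff, Subgroup.mem_zpowers_iff]
    refine exists_congr fun k => ?_
    rw [← hz, ← map_zpow]
    exact e.injective.eq_iff
  cent := fun x => e.injective (by rw [map_mul, map_mul, hz, h.cent])
  inf := fun n hn => h.inf n (by rw [← hz, ← map_zpow, hn, map_one])

/-- `E'` is a good quotient of `E` with a property. -/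
def QE (p : ℕ) {E : Type} [Group E] (z : E)
    (P : ∀ (E' : Type) [Group E'], (E →* E') → Prop) : Prop :=
  ∃ (E' : Type) (_ : Group E') (φ : E →* E'), Function.Surjective φ ∧ GoodE p E' (φ z) ∧ P E' φ

theorem wE {p : ℕ} (hp : p.Prime) (hp2 : p ≠ 2) {E : Type} [Group E] {z : E}
    (h : GoodE p E z) (v : E) :
    QE p z (fun E' _ φ => ∃ n : ℕ, 1 ≤ n ∧ ∃ m : ℤ, φ v ^ n * φ z ^ m = 1) := by
  obtain ⟨G, _, π, hE, hS⟩ := h
  by_cases hv : IsOfFinOrder (π v)
  · obtain ⟨n, hn, h1⟩ := isOfFinOrder_iff_pow_eq_one.1 hv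
    have h2 : v ^ n ∈ π.ker := by rw [MonoidHom.mem_ker, map_pow, h1]
    rw [hE.ker, Subgroup.mem_zpowers_iff] at h2
    obtain ⟨k, hk⟩ := h2
    refine ⟨E, inferInstance, MonoidHom.id E, Function.surjective_id, ⟨G, _, π, hE, hS⟩, n, hn,
      -k, ?_⟩
    change v ^ n * z ^ (-k) = 1
    rw [← hk, ← zpow_add]
    simp
  · obtain ⟨Mt, h1, h2, N, hN, n, -, h3⟩ := wfill hp hp2 hE hS v hv
    refine ⟨E ⧸ Subgroup.normalClosure (Mt : Set E), inferInstance,
      QuotientGroup.mk' _, QuotientGroup.mk'_surjective _, fill_good hE h1 h2, N, hN, n, ?_⟩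
    rw [← map_pow, ← map_zpow, ← map_mul, QuotientGroup.mk'_apply, QuotientGroup.eq_one_iff]
    exact Subgroup.subset_normalClosure h3

/-- In `G` modulo a normal subgroup `N'` containing `M`, the sequence reaches `a`. -/
theorem reach_quot {p : ℕ} (hp : p.Prime) {G : Type} [Group G] {D M : Subgroup G}
    (hM : M ≤ D) (hnrm : ∀ g ∈ D, ∀ m ∈ M, g * m * g⁻¹ ∈ M) {k : ℕ}
    (hidx : M.relIndex D = p ^ k) {a b : G} (ha : a ∈ D) (hb : b ∈ D) {N' : Subgroup G}
    [N'.Normal] (hN : M ≤ N') :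
    ∃ i : ℕ, (Tg (a : G ⧸ N'))^[i] (b : G ⧸ N') = (a : G ⧸ N') := by
  haveI := Fact.mk hp
  haveI h1 : (M.subgroupOf D).Normal := by
    refine ⟨fun x hx g => ?_⟩
    rw [Subgroup.mem_subgroupOf] at hx ⊢
    exact hnrm _ g.2 _ hx
  have h2 : Nat.card (D ⧸ M.subgroupOf D) = p ^ k := hidx
  haveI h3 : Finite (D ⧸ M.subgroupOf D) := Nat.finite_of_card_ne_zero (by
    rw [h2]
    exact pow_ne_zero _ hp.ne_zero)
  have h4 : IsPGroup p (D ⧸ M.subgroupOf D) := IsPGroup.of_card h2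
  haveI h5 : Group.IsNilpotent (D ⧸ M.subgroupOf D) := h4.isNilpotent
  let ψ : D ⧸ M.subgroupOf D →* G ⧸ N' :=
    QuotientGroup.map (M.subgroupOf D) N' D.subtype (by
      intro x hx
      exact hN hx)
  obtain ⟨i, hi⟩ := tg_nilpotent (G := D ⧸ M.subgroupOf D) (QuotientGroup.mk ⟨a, ha⟩)
    (Tg (QuotientGroup.mk ⟨a, ha⟩) (QuotientGroup.mk ⟨b, hb⟩)) ⟨QuotientGroup.mk ⟨b, hb⟩, rfl⟩
  refine ⟨i + 1, ?_⟩
  have h6 := tg_map ψ (QuotientGroup.mk ⟨a, ha⟩) (QuotientGroup.mk ⟨b, hb⟩) (i + 1)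
  rw [Function.iterate_succ_apply, hi] at h6
  exact h6.symm

theorem pE {p : ℕ} (hp : p.Prime) (hp2 : p ≠ 2) {E : Type} [Group E] {z : E}
    (h : GoodE p E z) (u v : E) (hv : ∃ n : ℕ, 1 ≤ n ∧ ∃ m : ℤ, v ^ n * z ^ m = 1) :
    QE p z (fun E' _ φ => ∃ n : ℕ, 1 ≤ n ∧ engelComm (φ u) (φ v) n = 1) := by
  obtain ⟨G, _, π, hE, hS⟩ := h
  have hz : π z = 1 := by
    rw [← MonoidHom.mem_ker, hE.ker]
    exact Subgroup.mem_zpowers z
  have ha : IsOfFinOrder (π v) := by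
    obtain ⟨n, hn, m, hm⟩ := hv
    refine isOfFinOrder_iff_pow_eq_one.2 ⟨n, hn, ?_⟩
    have h1 := congrArg π hm
    rw [map_mul, map_pow, map_zpow, hz, one_zpow, mul_one, map_one] at h1
    exact h1
  by_cases hr : ∃ j : ℕ, (Tg (π v))^[j] ((π u)⁻¹ * π v * π u) = π v
  · obtain ⟨j, hj⟩ := hr
    have h1 : engelComm (π u) (π v) (j + 1) = 1 := (eng_iff _ _ _).2 hj
    rw [← eng_map, ← MonoidHom.mem_ker, hE.ker, Subgroup.mem_zpowers_iff] at h1
    obtain ⟨k, hk⟩ := h1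
    refine ⟨E, inferInstance, MonoidHom.id E, Function.surjective_id, ⟨G, _, π, hE, hS⟩, j + 2,
      by omega, ?_⟩
    refine eng_central u v (j + 1) fun g => ?_
    rw [← hk]
    have h5 : Commute z g := hE.cent g
    exact (h5.zpow_left k).eq
  · push Not at hr
    obtain ⟨X, _, _, δ, hX, hG⟩ := hS.hyp
    obtain ⟨D, A, B, S, t, m, y₀, hT, hP⟩ := pstep hp hp2 hX hG hS.tors hS.norec (π v)
      ((π u)⁻¹ * π v * π u) ha hr
    have hF := typeP_finNormal hT
    obtain ⟨F₁, h2⟩ := filling hp hp2 hX hG hS.tors hS.norec hP hF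
    obtain ⟨F₂, h1⟩ := typeP_fill hp hp2 hS.tors hS.norec hT π z hE F₁
    obtain ⟨Φ, h3⟩ := h2 F₂
    obtain ⟨Mt, h4⟩ := h1 Φ
    obtain ⟨h6, h7⟩ := h3 E π z hE Mt h4
    have hm := fill_map hE.surj Mt
    have haD : π v ∈ D := by
      rw [hT.hD, hT.hA]
      exact Subgroup.mem_sup_left (Subgroup.mem_sup_left (Subgroup.mem_zpowers _))
    have hbD : (Tg (π v))^[m] ((π u)⁻¹ * π v * π u) ∈ D := by
      rw [hT.hD, hT.hB]
      exact Subgroup.mem_sup_right (Subgroup.mem_sup_left (Subgroup.mem_zpowers _))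
    obtain ⟨k, hk⟩ := h4.pidx
    obtain ⟨i, hi⟩ := reach_quot hp (M := Mt.map π) (D := D)
      (by
        rintro _ ⟨x, hx, rfl⟩
        exact h4.le x hx)
      (by
        rintro g hg _ ⟨x, hx, rfl⟩
        obtain ⟨y, rfl⟩ := hE.surj g
        exact ⟨y * x * y⁻¹, h4.nrm y hg x hx, by simp⟩)
      hk haD hbD (N' := Subgroup.normalClosure ((Mt.map π : Subgroup G) : Set G))
      Subgroup.le_normalClosure
    have h8 : (Tg ((π v : G) : G ⧸ Subgroup.normalClosure ((Mt.map π : Subgroup G) : Set G)))^[i + m]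
        (((π u)⁻¹ * π v * π u : G) :
          G ⧸ Subgroup.normalClosure ((Mt.map π : Subgroup G) : Set G)) = ((π v : G) : _) := by
      rw [Function.iterate_add_apply]
      have h9 := tg_map (QuotientGroup.mk'
        (Subgroup.normalClosure ((Mt.map π : Subgroup G) : Set G))) (π v)
        ((π u)⁻¹ * π v * π u) m
      rw [QuotientGroup.mk'_apply, QuotientGroup.mk'_apply, QuotientGroup.mk'_apply] at h9
      rw [← h9]
      exact hi
    have h10 : π (engelComm u v (i + m + 1)) ∈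
        (Subgroup.normalClosure (Mt : Set E)).map π := by
      rw [hm, ← QuotientGroup.eq_one_iff, eng_map]
      have h11 := eng_map (QuotientGroup.mk'
        (Subgroup.normalClosure ((Mt.map π : Subgroup G) : Set G))) (π u) (π v) (i + m + 1)
      rw [QuotientGroup.mk'_apply, QuotientGroup.mk'_apply, QuotientGroup.mk'_apply] at h11
      rw [h11]
      refine (eng_iff _ _ _).2 ?_
      rw [← QuotientGroup.mk_inv, ← QuotientGroup.mk_mul, ← QuotientGroup.mk_mul]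
      exact h8
    obtain ⟨n, hn, hne⟩ := h10
    have h12 : engelComm u v (i + m + 1) * n⁻¹ ∈ π.ker := by
      rw [MonoidHom.mem_ker, map_mul, map_inv, hne, mul_inv_cancel]
    rw [hE.ker, Subgroup.mem_zpowers_iff] at h12
    obtain ⟨l, hl⟩ := h12
    refine ⟨E ⧸ Subgroup.normalClosure (Mt : Set E), inferInstance,
      QuotientGroup.mk' _, QuotientGroup.mk'_surjective _, fill_good hE h6 h7, i + m + 2,
      by omega, ?_⟩
    refine eng_central _ _ (i + m + 1) fun g => ?_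
    induction g using QuotientGroup.induction_on with | _ x
    rw [← eng_map, QuotientGroup.mk'_apply]
    have h13 : (QuotientGroup.mk (engelComm u v (i + m + 1)) :
        E ⧸ Subgroup.normalClosure (Mt : Set E)) = QuotientGroup.mk (z ^ l) := by
      rw [hl, QuotientGroup.eq]
      have h14 : (engelComm u v (i + m + 1))⁻¹ * (engelComm u v (i + m + 1) * n⁻¹) = n⁻¹ := by
        group
      rw [h14]
      exact Subgroup.inv_mem _ hn
    rw [h13, ← QuotientGroup.mk_mul, ← QuotientGroup.mk_mul]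
    have h5 : Commute z x := hE.cent x
    rw [(h5.zpow_left l).eq]

theorem stepE {p : ℕ} (hp : p.Prime) (hp2 : p ≠ 2) : StepE p := by
  intro E _ z hE u v
  obtain ⟨E₁, _, φ₁, hφ₁, h1, n₁, hn₁, m₁, hm₁⟩ := wE hp hp2 hE v
  obtain ⟨E₂, _, φ₂, hφ₂, ⟨G, _, π, h2, h3⟩, n₂, hn₂, he⟩ :=
    pE hp hp2 h1 (φ₁ u) (φ₁ v) ⟨n₁, hn₁, m₁, hm₁⟩
  refine ⟨(φ₂.comp φ₁).ker, inferInstance, ⟨G, inferInstance, _, cext_equiv h2
    (QuotientGroup.quotientKerEquivOfSurjective (φ₂.comp φ₁) (hφ₂.comp hφ₁)) rfl, h3⟩,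
    ⟨n₂, hn₂, ?_⟩, n₁, hn₁, m₁, ?_⟩
  · rw [MonoidHom.mem_ker, eng_map]
    exact he
  · rw [MonoidHom.mem_ker, MonoidHom.comp_apply, map_mul, map_pow, map_zpow, hm₁, map_one]

end Pool.Agent.Lib.H14E
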