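import Pool.Agent.Lib.H14E.DispGp

/-!
# H14E, module A, part 1: betweenness and Gromov products in a space with `Hyp δ`

All constants are explicit.  `gp o x y` (file DispGp) is TWICE the Gromov product of `x`, `y` at `o`.
-/

set_option autoImplicit false

namespace Pool.Agent.Lib.H14E

open Pool.Agent.Lib.H76.Morse GeoMet

variable {X : Type} [GeoMet X]

/-- `z` is `C`-between `x` and `y`. -/
def Bt (C : ℕ) (x z y : X) : Prop := d x z + d z y ≤ d x y + C

theorem gp_le (o x y : X) : gp o x y ≤ 2 * d o x := by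
  have h1 := d_tri o x y
  unfold gp
  omega

theorem gp_self (o x : X) : gp o x x = 2 * d o x := by
  unfold gp
  rw [d_self]
  omega

/-- moving the third point changes the product by at most twice the distance -/
theorem gp_move (o x y y' : X) : gp o x y ≤ gp o x y' + 2 * d y y' := by
  have h1 := gp_add o x y
  have h2 := gp_add o x y'
  have h3 := d_tri o y' y
  have h4 := d_tri x y y'
  rw [d_comm y' y] at h3
  omega

/-- moving the base point -/
theorem gp_base (o o' x y : X) : gp o x y ≤ gp o' x y + 2 * d o o' := by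
  have h1 := gp_add o x y
  have h2 := gp_add o' x y
  have h3 := d_tri o o' x
  have h4 := d_tri o o' y
  omega

theorem bt_iff_gp {C : ℕ} {x z y : X} : Bt C x z y ↔ gp z x y ≤ C := by
  have h1 := gp_add z x y
  unfold Bt
  rw [d_comm x z]
  omega

theorem Bt.symm {C : ℕ} {x z y : X} (h : Bt C x z y) : Bt C y z x := by
  unfold Bt at *
  rw [d_comm y z, d_comm z x, d_comm y x]
  omega

theorem Bt.mono {C C' : ℕ} {x z y : X} (h : Bt C x z y) (hC : C ≤ C') : Bt C' x z y := by
  unfold Bt at *
  omega

theorem bt_left (x y : X) : Bt 0 x x y := by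
  unfold Bt
  rw [d_self]
  omega

theorem bt_right (x y : X) : Bt 0 x y y := by
  unfold Bt
  rw [d_self]

theorem bt_of_near {C : ℕ} {x z : X} (y : X) (h : d x z ≤ C) : Bt (2 * C) x z y := by
  have h1 := d_tri z x y
  rw [d_comm z x] at h1
  unfold Bt
  omega

theorem bt_geo {p : ℕ → X} {x y : X} (h : IsGeo p x y) {i : ℕ} (hi : i ≤ d x y) :
    Bt 0 x (p i) y := by
  have h1 := h.dist_left hi
  have h2 := h.dist_right hi
  unfold Bt
  omega

/-- points at every distance between two points -/
theorem exists_bpt (x y : X) {t : ℕ} (ht : t ≤ d x y) :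
    ∃ z, d x z = t ∧ d z y = d x y - t ∧ Bt 0 x z y := by
  obtain ⟨p, hp⟩ := exists_isGeo x y
  exact ⟨p t, hp.dist_left ht, hp.dist_right ht, bt_geo hp ht⟩

/-- midpoints -/
theorem exists_bmid (x y : X) :
    ∃ m, d x m = d x y / 2 ∧ d m y = d x y - d x y / 2 ∧ Bt 0 x m y :=
  exists_bpt x y (by omega)

/-- moving the end points -/
theorem Bt.ends {C a b : ℕ} {x z y x' y' : X} (h : Bt C x z y) (hx : d x x' ≤ a)
    (hy : d y y' ≤ b) : Bt (C + 2 * a + 2 * b) x' z y' := by
  have h1 := d_tri x' x z
  have h2 := d_tri z y y'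
  have h3 := d_tri x x' y
  have h4 := d_tri x' y' y
  rw [d_comm x' x] at h1
  rw [d_comm y' y] at h4
  unfold Bt at *
  omega

/-- moving the middle point -/
theorem Bt.move {C a : ℕ} {x z y z' : X} (h : Bt C x z y) (hz : d z z' ≤ a) :
    Bt (C + 2 * a) x z' y := by
  have h1 := d_tri x z z'
  have h2 := d_tri z' z y
  rw [d_comm z' z] at h2
  unfold Bt at *
  omega

/-- a subsegment -/
theorem Bt.trans {C C' : ℕ} {x z y u : X} (h : Bt C x z y) (hu : Bt C' x u z) :
    Bt (C + C') x u y := by
  have h1 := d_tri u z y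
  unfold Bt at *
  omega

/-- the order of two points: `u` before `z` before `y` -/
theorem Bt.trans' {C C' : ℕ} {x z y u : X} (h : Bt C x z y) (hu : Bt C' x u z) :
    Bt (C + C') u z y := by
  have h1 := d_tri x u y
  unfold Bt at *
  omega

variable {δ : ℕ}

theorem Hyp.mono {δ' : ℕ} (hX : Hyp δ X) (h : δ ≤ δ') : Hyp δ' X := by
  intro x y z w
  have := hX x y z w
  omega

/-- the four point condition for Gromov products -/
theorem Hyp.gp4 (hX : Hyp δ X) (o x y z : X) :
    min (gp o x y) (gp o y z) ≤ gp o x z + δ := by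
  have h := hX x z y o
  have h1 := gp_add o x y
  have h2 := gp_add o y z
  have h3 := gp_add o x z
  rw [d_comm y o, d_comm z y, d_comm x o, d_comm z o] at h
  omega

/-- a point between `x` and `y` is between `x` and `w` or between `w` and `y` -/
theorem Hyp.bt (hX : Hyp δ X) {C : ℕ} {x z y : X} (h : Bt C x z y) (w : X) :
    Bt (C + δ) x z w ∨ Bt (C + δ) w z y := by
  have h1 := hX x y z w
  rw [d_comm z w] at h1
  unfold Bt at *
  rw [d_comm y w] at h1
  rw [d_comm z w, d_comm w z]
  rw [d_comm w z] at h1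
  rw [d_comm y z] at h1
  rw [d_comm w y] at *
  omega

/-- two points between `x` and `y` at nearly the same distance from `x` are near each other -/
theorem Hyp.close (hX : Hyp δ X) {C s : ℕ} {x z z' y : X} (h : Bt C x z y) (h' : Bt C x z' y)
    (h1 : d x z ≤ d x z' + s) (h2 : d x z' ≤ d x z + s) : d z z' ≤ s + 2 * C + δ := by
  have h3 := d_tri x z y
  rcases hX.bt h z' with h4 | h4
  · unfold Bt at *
    omega
  · unfold Bt at *
    rw [d_comm z' z] at h4
    omega

/-- a point between `x` and `y` is near every geodesic from `x` to `y` -/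
theorem Hyp.near_geo (hX : Hyp δ X) {C : ℕ} {x z y : X} (h : Bt C x z y) {p : ℕ → X}
    (hp : IsGeo p x y) : ∃ i ≤ d x y, d z (p i) ≤ 2 * C + δ := by
  by_cases hc : d x z ≤ d x y
  · refine ⟨d x z, hc, ?_⟩
    have h1 := hX.close h ((bt_geo hp hc).mono (Nat.zero_le C)) (s := 0)
      (by rw [hp.dist_left hc]; omega) (by rw [hp.dist_left hc]; omega)
    omega
  · refine ⟨d x y, le_rfl, ?_⟩
    rw [hp.2.1]
    unfold Bt at h
    omega

/-- far from the end `x`, the end may be replaced by `x'` -/
theorem Hyp.far (hX : Hyp δ X) {C : ℕ} {x z y x' : X} (h : Bt C x z y)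
    (hx : d x x' + (C + δ) < d x z + d z x') : Bt (C + δ) x' z y := by
  rcases hX.bt h x' with h1 | h1
  · unfold Bt at h1
    omega
  · exact h1

/-- fellow travelling of two geodesics: `z` between `x`, `y`, `z'` between `x'`, `y'` -/
theorem Hyp.fellow (hX : Hyp δ X) {C r s : ℕ} {x z y x' z' y' : X} (h : Bt C x z y)
    (h' : Bt C x' z' y') (hx : d x x' ≤ r) (hy : d y y' ≤ r) (h1 : d x z ≤ d x' z' + s)
    (h2 : d x' z' ≤ d x z + s) : d z z' ≤ s + r + 2 * (C + 4 * r) + δ := by
  have h3 : Bt (C + 2 * r + 2 * r) x z' y :=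
    h'.ends (by rw [d_comm]; exact hx) (by rw [d_comm]; exact hy)
  have h4 := d_tri x x' z'
  have h5 := d_tri x' x z'
  rw [d_comm x' x] at h5
  have h6 := hX.close (C := C + 4 * r) (s := s + r) (h.mono (by omega)) (h3.mono (by omega))
    (by omega) (by omega)
  omega

/-- convexity of the displacement of an isometry -/
theorem Hyp.disp (hX : Hyp δ X) {f : X → X} (hf : ∀ a b, d (f a) (f b) = d a b) {C r : ℕ}
    {v u w : X} (h : Bt C v u w) (hv : d v (f v) ≤ r) (hw : d w (f w) ≤ r) :
    d u (f u) ≤ 5 * r + 2 * C + δ := by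
  have h1 : Bt (C + 2 * r) v (f u) w := by
    have h2 := d_tri v (f v) (f u)
    have h3 := d_tri (f u) (f w) w
    rw [hf] at h2 h3
    rw [d_comm (f w) w] at h3
    unfold Bt at *
    omega
  have h2 := d_tri v (f v) (f u)
  have h3 := d_tri (f v) v (f u)
  rw [hf] at h2 h3
  rw [d_comm (f v) v] at h3
  have h4 := hX.close (C := C + 2 * r) (s := r) (h.mono (by omega)) h1 (by omega) (by omega)
  omega

/-- If `z` is between `x` and `y`, then the distance from `z` to `w` is at most the maximum of the two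
differences. -/
theorem Hyp.dist_bt (hX : Hyp δ X) {C R : ℕ} {x z y : X} (h : Bt C x z y) (w : X)
    (hx : d x w ≤ R) (hy : d y w ≤ R) : d z w + min (d x z) (d z y) ≤ R + C + δ := by
  rcases hX.bt h w with h1 | h1
  · unfold Bt at h1
    omega
  · unfold Bt at h1
    rw [d_comm w z, d_comm w y] at h1
    omega

/-- the four point condition from a basic inequality of Gromov products -/
theorem hyp_of_gp (h : ∀ o x y z : X, min (gp o x y) (gp o y z) ≤ gp o x z + δ) : Hyp δ X := by
  intro x y z w
  have h0 := h w x z y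
  have h1 := gp_add w x z
  have h2 := gp_add w z y
  have h3 := gp_add w x y
  rw [d_comm z w, d_comm x w, d_comm y w, d_comm y z]
  omega

end Pool.Agent.Lib.H14E
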