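import Pool.Agent.Lib.H14E.Tool9

/-!
# H14E, module A: conjugation of powers of an element of infinite order
-/

set_option autoImplicit false

namespace Pool.Agent.Lib.H14E

open Pool.Agent.Lib.H76.Morse GeoMet

variable {X : Type} [GeoMet X] {δ : ℕ} {G : Type} [Group G] [MulAction G X]

omit [MulAction G X] in
/-- `(A+1)^n * A ≥ A^n * (A+n)`. -/
theorem t10_bern (A n : ℕ) : A ^ n * (A + n) ≤ (A + 1) ^ n * A := by
  induction n with
  | zero => simp
  | succ n ih =>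
    calc A ^ (n + 1) * (A + (n + 1)) ≤ A ^ n * (A + n) * (A + 1) := by
          rw [pow_succ, mul_assoc, mul_assoc]
          apply Nat.mul_le_mul_left
          nlinarith
      _ ≤ (A + 1) ^ n * A * (A + 1) := Nat.mul_le_mul_right _ ih
      _ = (A + 1) ^ (n + 1) * A := by ring

/-- exponential growth against a linear factor. -/
theorem t10_growth {A B C D : ℕ} (hA : 1 ≤ A) (hAB : A < B)
    (h : ∀ k : ℕ, B ^ k ≤ A ^ k * (C * k + D)) : False := by
  have h1 : ∀ m : ℕ, 2 ^ m ≤ C * (A * m) + D := by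
    intro m
    have e1 : 2 * A ^ A ≤ (A + 1) ^ A := by
      have := t10_bern A A
      have h2 : A ^ A * (A + A) = 2 * A ^ A * A := by ring
      rw [h2] at this
      exact Nat.le_of_mul_le_mul_right this hA
    have e2 : 2 ^ m * A ^ (A * m) ≤ (A + 1) ^ (A * m) := by
      rw [pow_mul, pow_mul, ← mul_pow]
      exact Nat.pow_le_pow_left e1 m
    have e3 : (A + 1) ^ (A * m) ≤ B ^ (A * m) := Nat.pow_le_pow_left hAB _
    have e4 := (e2.trans e3).trans (h (A * m))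
    rw [mul_comm] at e4
    exact Nat.le_of_mul_le_mul_left e4 (Nat.pow_pos hA)
  obtain ⟨E, hE⟩ : ∃ E, E = C * A := ⟨_, rfl⟩
  obtain ⟨s, hs⟩ : ∃ s, s = 2 * E + D + 1 := ⟨_, rfl⟩
  have h2 := h1 (2 * s)
  have h3 : s + 1 ≤ 2 ^ s := Nat.lt_two_pow_self
  have h4 : 2 ^ (2 * s) = 2 ^ s * 2 ^ s := by rw [two_mul, pow_add]
  rw [h4] at h2
  have h5 : (s + 1) * (s + 1) ≤ 2 ^ s * 2 ^ s := Nat.mul_le_mul h3 h3
  have h6 : C * (A * (2 * s)) = 2 * E * s := by rw [hE]; ring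
  rw [h6] at h2
  have h7 := h5.trans h2
  have h8 : s * s = (2 * E + D + 1) * s := by
    rw [← hs]
  have h9 : D * 1 ≤ D * s := Nat.mul_le_mul_left D (by omega)
  have e1 : (s + 1) * (s + 1) = s * s + 2 * s + 1 := by ring
  have e2 : (2 * E + D + 1) * s = 2 * E * s + D * s + s := by ring
  rw [e1, h8, e2] at h7
  omega

theorem t10_len_pow (hiso : IsoAct G X) (g : G) (x : X) (k : ℕ) :
    d x (g ^ k • x) ≤ k * d x (g • x) := by
  induction k with
  | zero => simp [GeoMet.d_self]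
  | succ k ih =>
    have h1 : d x (g ^ (k + 1) • x) ≤ d x (g ^ k • x) + d (g ^ k • x) (g ^ (k + 1) • x) :=
      GeoMet.d_tri _ _ _
    have h2 : d (g ^ k • x) (g ^ (k + 1) • x) = d x (g • x) := by
      rw [pow_succ, mul_smul]
      exact hiso _ _ _
    rw [h2] at h1
    calc _ ≤ _ := h1
      _ ≤ k * d x (g • x) + d x (g • x) := by omega
      _ = (k + 1) * d x (g • x) := by ring

theorem t10_len_zpow (hiso : IsoAct G X) (g : G) (x : X) (a : ℤ) :
    d x (g ^ a • x) ≤ a.natAbs * d x (g • x) := by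
  rcases Int.natAbs_eq a with h | h
  · conv_lhs => rw [h]
    rw [zpow_natCast]
    exact t10_len_pow hiso g x _
  · conv_lhs => rw [h]
    rw [zpow_neg, zpow_natCast]
    have h1 : d x ((g ^ a.natAbs)⁻¹ • x) = d x (g ^ a.natAbs • x) := dsp_inv hiso _ x
    rw [h1]
    exact t10_len_pow hiso g x _

omit [MulAction G X] in
theorem t10_conj_pow {g y : G} {a b : ℤ} (h : y * g ^ a * y⁻¹ = g ^ b) (k : ℕ) :
    y ^ k * g ^ (a ^ k) * (y ^ k)⁻¹ = g ^ (b ^ k) := by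
  induction k with
  | zero => simp
  | succ k ih =>
    have e1 : y * g ^ (a ^ (k + 1)) * y⁻¹ = g ^ (b * a ^ k) := by
      rw [pow_succ, mul_comm (a ^ k), zpow_mul, zpow_mul, ← h, ← MulAut.conj_apply,
        ← MulAut.conj_apply, map_zpow]
    calc y ^ (k + 1) * g ^ (a ^ (k + 1)) * (y ^ (k + 1))⁻¹
        = y ^ k * (y * g ^ (a ^ (k + 1)) * y⁻¹) * (y ^ k)⁻¹ := by
          rw [pow_succ]; group
      _ = y ^ k * g ^ (b * a ^ k) * (y ^ k)⁻¹ := by rw [e1]
      _ = (y ^ k * g ^ (a ^ k) * (y ^ k)⁻¹) ^ b := by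
          rw [← MulAut.conj_apply, ← MulAut.conj_apply, ← map_zpow, ← zpow_mul, mul_comm b]
      _ = g ^ (b ^ (k + 1)) := by rw [ih, ← zpow_mul, pow_succ]

theorem t10_not_lt (hX : Hyp δ X) (hG : Geom G X) {g y : G} (hg : ¬ IsOfFinOrder g) {a b : ℤ}
    (ha : a ≠ 0) (h : y * g ^ a * y⁻¹ = g ^ b) : ¬ a.natAbs < b.natAbs := by
  intro hlt
  obtain ⟨x⟩ := hG.ne
  obtain ⟨K, hK⟩ := lox_len hX hG hg x
  have hiso := hG.iso
  have hA : 1 ≤ a.natAbs := by omega
  apply t10_growth (A := a.natAbs) (B := b.natAbs) (C := 2 * K * d x (y • x))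
    (D := K * d x (g • x) + K) hA hlt
  intro k
  have h1 := hK (b ^ k)
  rw [← t10_conj_pow h k, Int.natAbs_pow] at h1
  have h2 : d x ((y ^ k * g ^ (a ^ k) * (y ^ k)⁻¹) • x) ≤
      dsp (y ^ k) x + dsp (g ^ (a ^ k)) x + dsp ((y ^ k)⁻¹) x := by
    have e1 := dsp_mul_le hiso (y ^ k * g ^ (a ^ k)) ((y ^ k)⁻¹) x
    have e2 := dsp_mul_le hiso (y ^ k) (g ^ (a ^ k)) x
    have e3 : dsp (y ^ k * g ^ (a ^ k) * (y ^ k)⁻¹) x =
      d x ((y ^ k * g ^ (a ^ k) * (y ^ k)⁻¹) • x) := rfl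
    omega
  rw [dsp_inv hiso] at h2
  have h3 : dsp (y ^ k) x ≤ k * d x (y • x) := t10_len_pow hiso y x k
  have h4 : dsp (g ^ (a ^ k)) x ≤ a.natAbs ^ k * d x (g • x) := by
    have := t10_len_zpow hiso g x (a ^ k)
    rwa [Int.natAbs_pow] at this
  have h5 : 1 ≤ a.natAbs ^ k := Nat.pow_pos hA
  obtain ⟨P, hP⟩ : ∃ P, P = a.natAbs ^ k := ⟨_, rfl⟩
  obtain ⟨Y, hY⟩ : ∃ Y, Y = d x (y • x) := ⟨_, rfl⟩
  obtain ⟨L, hL⟩ : ∃ L, L = d x (g • x) := ⟨_, rfl⟩
  rw [← hP, ← hL] at h4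
  rw [← hP] at h5
  rw [← hY] at h3
  rw [← hP, ← hY, ← hL]
  have h6 : d x ((y ^ k * g ^ (a ^ k) * (y ^ k)⁻¹) • x) ≤ 2 * (k * Y) + P * L := by omega
  calc b.natAbs ^ k ≤ K * d x ((y ^ k * g ^ (a ^ k) * (y ^ k)⁻¹) • x) + K := h1
    _ ≤ K * (2 * (k * Y) + P * L) + K := by
        exact Nat.add_le_add_right (Nat.mul_le_mul_left _ h6) _
    _ ≤ P * (2 * K * Y * k + (K * L + K)) := by
        have e : P * (2 * K * Y * k + (K * L + K)) = P * (2 * K * Y * k) + P * (K * L) + P * K := by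
          ring
        rw [e]
        have e1 : 1 * (2 * K * Y * k) ≤ P * (2 * K * Y * k) := Nat.mul_le_mul_right _ h5
        have e2 : 1 * K ≤ P * K := Nat.mul_le_mul_right _ h5
        have e3 : K * (2 * (k * Y) + P * L) + K = 1 * (2 * K * Y * k) + P * (K * L) + 1 * K := by
          ring
        rw [e3]
        omega

/-- Chunk Tool10 (M). y^k g^(a^k) y^(-k) = g^(b^k) by induction on k.  `lox_len`: |b|^k ≤ K d x (g^(b^k) • x) + K, and
d x (y^k g^(a^k) y^(-k) • x) ≤ 2 k d x (y • x) + |a|^k d x (g • x).  If |a| < |b|, a contradiction for k large (|b|^k grows faster than k and |a|^k: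
|b|^k ≥ (|a|+1)^k).  Exchange the roles (y⁻¹) for |b| < |a|. -/
theorem pow_conj (hX : Hyp δ X) (hG : Geom G X) {g y : G} (hg : ¬ IsOfFinOrder g) {a b : ℤ}
    (ha : a ≠ 0) (h : y * g ^ a * y⁻¹ = g ^ b) : a.natAbs = b.natAbs := by
  have h1 := t10_not_lt hX hG hg ha h
  have hb : b ≠ 0 := by
    rintro rfl
    rw [zpow_zero] at h
    have h2 : g ^ a = 1 := by
      have := congrArg (fun z => y⁻¹ * z * y) h
      simpa [mul_assoc] using this
    exact hg (isOfFinOrder_iff_zpow_eq_one.2 ⟨a, ha, h2⟩)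
  have h' : y⁻¹ * g ^ b * y⁻¹⁻¹ = g ^ a := by
    rw [← h]
    group
  have h2 := t10_not_lt hX hG hg hb h'
  omega

omit [MulAction G X] in
theorem mem_EC_zpow {g h : G} {a : ℤ} (ha : a ≠ 0) (hc : Commute h (g ^ a)) : h ∈ EC g := by
  refine ⟨a.natAbs, by omega, ?_⟩
  rcases Int.natAbs_eq a with h1 | h1
  · rw [h1, zpow_natCast] at hc
    exact hc
  · rw [h1, zpow_neg, zpow_natCast] at hc
    exact (Commute.inv_right_iff.1 hc)

/-- An element of infinite order of `EC g` and `g` have a common power. -/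
theorem EC_common (hX : Hyp δ X) (hG : Geom G X) {g : G} (hg : ¬ IsOfFinOrder g) :
    ∃ N : ℕ, 1 ≤ N ∧ ∀ h ∈ EC g, ¬ IsOfFinOrder h → ∃ j : ℤ, j ≠ 0 ∧ h ^ N = g ^ j := by
  obtain ⟨τ, N, n, hN, hn, hτ⟩ := ec_tau hX hG hg
  refine ⟨N, hN, fun h hh hi => ⟨(n : ℤ) * Multiplicative.toAdd (τ ⟨h, hh⟩), ?_, ?_⟩⟩
  · intro h0
    apply hi
    rw [isOfFinOrder_iff_pow_eq_one]
    refine ⟨N, hN, ?_⟩
    have := hτ ⟨h, hh⟩
    rw [← zpow_natCast g, ← zpow_mul, h0, zpow_zero] at this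
    exact this
  · have := hτ ⟨h, hh⟩
    rw [← zpow_natCast g, ← zpow_mul] at this
    exact this

/-- Chunk Tool10 (M). `pow_conj`: b = a or b = - a.  If b = a: y commutes with g^|a|.  If b = -a: y² commutes with g^a, so y² in EC g.  If y has infinite
order then y² in EC g has infinite order, so a positive power y^(2 i) is a nontrivial power g^j of g (`ec_tau`: h^N = (g^n)^τ(h)); y commutes with it,
but y g^(j a) y⁻¹ = g^(-j a) and y g^(j a) y⁻¹ = g^(j a): g has finite order, contradiction.  If y has finite order: y = (y²)^s (`sqrt_pow`) is in EC g, so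
y commutes with some g^m, and y g^(a m) y⁻¹ = g^(-a m): the same contradiction. -/
theorem mem_EC_of_conj (hX : Hyp δ X) (hG : Geom G X) {p : ℕ} (hp : p.Prime) (hp2 : p ≠ 2)
    (hT : PTors p G) {g y : G} (hg : ¬ IsOfFinOrder g) {a b : ℤ} (ha : a ≠ 0)
    (h : y * g ^ a * y⁻¹ = g ^ b) : y ∈ EC g := by
  have h1 := pow_conj hX hG hg ha h
  rcases Int.natAbs_eq_natAbs_iff.1 h1 with h2 | h2
  · subst h2
    exact mem_EC_zpow ha (by
      show y * g ^ a = g ^ a * y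
      exact mul_inv_eq_iff_eq_mul.1 h)
  · have hb : b = -a := by omega
    subst hb
    have hy2 : y ^ 2 ∈ EC g := by
      apply mem_EC_zpow ha
      have e := t10_conj_pow h 2
      have e1 : g ^ ((-a) ^ 2) = g ^ (a ^ 2) := by congr 1; ring
      have e2 : y * (y * g ^ a * y⁻¹) * y⁻¹ = g ^ a := by
        rw [h, zpow_neg]
        have e3 : y * (g ^ a)⁻¹ * y⁻¹ = (y * g ^ a * y⁻¹)⁻¹ := by group
        rw [e3, h, zpow_neg, inv_inv]
      show y ^ 2 * g ^ a = g ^ a * y ^ 2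
      calc y ^ 2 * g ^ a = (y * (y * g ^ a * y⁻¹) * y⁻¹) * y ^ 2 := by
            rw [pow_two]; group
        _ = g ^ a * y ^ 2 := by rw [e2]
    by_cases hy : IsOfFinOrder y
    · obtain ⟨s, _, hs⟩ := sqrt_pow hp hp2 hT hy
      rw [← hs]
      exact Subgroup.pow_mem _ hy2 s
    · have hy' : ¬ IsOfFinOrder (y ^ 2) := fun h3 => hy (h3.of_pow (by norm_num))
      obtain ⟨N, hN, hcom⟩ := EC_common hX hG hg
      obtain ⟨j, hj, hj2⟩ := hcom _ hy2 hy'
      apply mem_EC_zpow hj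
      rw [← hj2, ← pow_mul]
      exact (Commute.refl y).pow_right _

/-- Chunk Tool10 (S). If h in EC g has infinite order then EC h = EC g: a power of h is a power of g (`ec_tau`). -/
theorem EC_eq (hX : Hyp δ X) (hG : Geom G X) {g h : G} (hg : ¬ IsOfFinOrder g)
    (hh : ¬ IsOfFinOrder h) (hm : h ∈ EC g) : EC h = EC g := by
  obtain ⟨N, hN, hcom⟩ := EC_common hX hG hg
  obtain ⟨j, hj, hj2⟩ := hcom _ hm hh
  apply le_antisymm
  · rintro u ⟨m, hm1, hm2⟩
    have hc : Commute u (h ^ m) := hm2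
    have hc2 := hc.pow_right N
    rw [← pow_mul, mul_comm m N, pow_mul, hj2, ← zpow_natCast, ← zpow_mul] at hc2
    exact mem_EC_zpow (mul_ne_zero hj (by omega)) hc2
  · rintro u ⟨m, hm1, hm2⟩
    have hc : Commute u (g ^ m) := hm2
    have hc2 := hc.zpow_right j
    rw [← zpow_natCast, ← zpow_mul, mul_comm, zpow_mul, ← hj2, zpow_natCast, ← pow_mul] at hc2
    exact ⟨N * m, Nat.mul_pos hN hm1, hc2⟩

/-- Chunk Tool10 (M). Malnormality: if h and y h y⁻¹ are in EC g and h has infinite order then y in EC g: powers: h^i = g^a, (y h y⁻¹)^j = g^b with i, j ≥ 1,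
a, b ≠ 0, so y g^(a j) y⁻¹ = g^(b i), `mem_EC_of_conj`. -/
theorem EC_malnormal (hX : Hyp δ X) (hG : Geom G X) {p : ℕ} (hp : p.Prime) (hp2 : p ≠ 2)
    (hT : PTors p G) {g h y : G} (hg : ¬ IsOfFinOrder g) (hh : ¬ IsOfFinOrder h)
    (h1 : h ∈ EC g) (h2 : y * h * y⁻¹ ∈ EC g) : y ∈ EC g := by
  obtain ⟨N, hN, hcom⟩ := EC_common hX hG hg
  obtain ⟨j, hj, hj2⟩ := hcom _ h1 hh
  have hh2 : ¬ IsOfFinOrder (y * h * y⁻¹) := by
    intro h3
    apply hh
    rw [isOfFinOrder_iff_pow_eq_one] at h3 ⊢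
    obtain ⟨n, hn, hn1⟩ := h3
    refine ⟨n, hn, ?_⟩
    rw [conj_pow] at hn1
    have := congrArg (fun z => y⁻¹ * z * y) hn1
    simpa [mul_assoc] using this
  obtain ⟨i, hi, hi2⟩ := hcom _ h2 hh2
  rw [conj_pow, hj2] at hi2
  exact mem_EC_of_conj hX hG hp hp2 hT hg hj hi2

end Pool.Agent.Lib.H14E
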