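import Pool.Agent.Lib.H14E.Tool1

/-!
# H14E, module A: broken geodesics (local to global)
-/

set_option autoImplicit false

namespace Pool.Agent.Lib.H14E

open Pool.Agent.Lib.H76.Morse GeoMet

variable {X : Type} [GeoMet X] {δ : ℕ}

/-- Chunk Tool2 (S/M). Induction on k.  k = 1: hypothesis h1 0.  Step: at `x (k+1)` apply `Hyp.gp4` with o = x (k+1) and the three points
x k, x 0, x (k+2): min (gp (x k) (x 0)) (gp (x 0) (x (k+2))) ≤ gp (x k) (x (k+2)) + δ ≤ c + δ.
gp (x (k+1)) (x k) (x 0) = 2 d (x k) (x (k+1)) - gp (x k) (x (k+1)) (x 0) (write out gp_add twice) ≥ 2 (c + δ + 1) - (c + δ) > c + δ, so the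
minimum is the other one. -/
theorem broken_left (hX : Hyp δ X) {c n : ℕ} (x : ℕ → X)
    (h1 : ∀ i, i + 2 ≤ n → gp (x (i + 1)) (x i) (x (i + 2)) ≤ c)
    (h2 : ∀ i, i < n → c + δ + 1 ≤ d (x i) (x (i + 1))) :
    ∀ k, 1 ≤ k → k + 1 ≤ n → gp (x k) (x 0) (x (k + 1)) ≤ c + δ := by
  intro k hk
  induction k, hk using Nat.le_induction with
  | base =>
    intro hn
    have := h1 0 (by omega)
    simpa using this.trans (Nat.le_add_right c δ)
  | succ k hk ih =>
    intro hn
    have ih' := ih (by omega)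
    have h3 := h1 k (by omega)
    have h4 := h2 k (by omega)
    have h5 := hX.gp4 (x (k + 1)) (x k) (x 0) (x (k + 2))
    have h6 := gp_add (x (k + 1)) (x k) (x 0)
    have h7 := gp_add (x k) (x 0) (x (k + 1))
    rw [d_comm (x (k + 1)) (x k), d_comm (x (k + 1)) (x 0)] at h6
    rw [d_comm (x k) (x 0)] at h6 h7
    have h8 : k + 1 + 1 = k + 2 := rfl
    rw [h8]
    omega

/-- Chunk Tool2 (S/M). i < j < l ≤ n.  By `broken_left` for the sequence x (i + ·): gp (x j) (x i) (x (j+1)) ≤ c + δ.  By `broken_left` for the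
reversed sequence x (l - ·): gp (x (j+1)) (x l) (x j) ≤ c + δ if j + 1 < l, so gp (x j) (x (j+1)) (x l) =
2 d (x j) (x (j+1)) - gp (x (j+1)) (x j) (x l) ≥ 2 (c + 2 δ + 1) - (c + δ) > c + 2 δ; if j + 1 = l we are done by the first inequality.
`Hyp.gp4` at x j with x i, x l, x (j+1): min (gp (x i) (x l)) (gp (x l) (x (j+1))) ≤ c + 2 δ, the second is larger. -/
theorem broken (hX : Hyp δ X) {c n : ℕ} (x : ℕ → X)
    (h1 : ∀ i, i + 2 ≤ n → gp (x (i + 1)) (x i) (x (i + 2)) ≤ c)
    (h2 : ∀ i, i < n → c + 2 * δ + 1 ≤ d (x i) (x (i + 1))) :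
    ∀ i j l, i ≤ j → j ≤ l → l ≤ n → Bt (c + 2 * δ) (x i) (x j) (x l) := by
  intro i j l hij hjl hln
  rcases Nat.eq_or_lt_of_le hij with he | hij
  · subst he
    exact (bt_left _ _).mono (Nat.zero_le _)
  rcases Nat.eq_or_lt_of_le hjl with he | hjl
  · subst he
    exact (bt_right _ _).mono (Nat.zero_le _)
  have hA : gp (x j) (x i) (x (j + 1)) ≤ c + δ := by
    have h := broken_left hX (c := c) (n := n - i) (fun m => x (i + m))
      (fun m hm => by
        have := h1 (i + m) (by omega)
        simpa [Nat.add_assoc] using this)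
      (fun m hm => by
        have := h2 (i + m) (by omega)
        have e : i + (m + 1) = i + m + 1 := rfl
        show c + δ + 1 ≤ d (x (i + m)) (x (i + (m + 1)))
        rw [e]
        omega)
      (j - i) (by omega) (by omega)
    have e1 : i + (j - i) = j := by omega
    have e2 : i + (j - i + 1) = j + 1 := by omega
    simpa [e1, e2] using h
  rw [bt_iff_gp]
  rcases Nat.eq_or_lt_of_le (Nat.succ_le_of_lt hjl) with he | hjl'
  · rw [← he]
    exact hA.trans (by omega)
  have hB : gp (x (j + 1)) (x l) (x j) ≤ c + δ := by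
    have h := broken_left hX (c := c) (n := l) (fun m => x (l - m))
      (fun m hm => by
        have h3 := h1 (l - m - 2) (by omega)
        have e1 : l - m - 2 + 1 = l - (m + 1) := by omega
        have e2 : l - m - 2 + 2 = l - m := by omega
        have e3 : l - m - 2 = l - (m + 2) := by omega
        show gp (x (l - (m + 1))) (x (l - m)) (x (l - (m + 2))) ≤ c
        rw [e1, e2, e3] at h3
        have h4 := gp_add (x (l - (m + 1))) (x (l - m)) (x (l - (m + 2)))
        have h5 := gp_add (x (l - (m + 1))) (x (l - (m + 2))) (x (l - m))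
        rw [d_comm (x (l - (m + 2))) (x (l - m))] at h5
        omega)
      (fun m hm => by
        have h3 := h2 (l - m - 1) (by omega)
        have e1 : l - m - 1 + 1 = l - m := by omega
        have e2 : l - m - 1 = l - (m + 1) := by omega
        show c + δ + 1 ≤ d (x (l - m)) (x (l - (m + 1)))
        rw [e1, e2] at h3
        rw [d_comm]
        omega)
      (l - (j + 1)) (by omega) (by omega)
    have e1 : l - (l - (j + 1)) = j + 1 := by omega
    have e2 : l - (l - (j + 1) + 1) = j := by omega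
    simpa [e1, e2] using h
  have h3 := h2 j (by omega)
  have h5 := hX.gp4 (x j) (x i) (x l) (x (j + 1))
  have h6 := gp_add (x j) (x l) (x (j + 1))
  have h7 := gp_add (x (j + 1)) (x l) (x j)
  rw [d_comm (x (j + 1)) (x l), d_comm (x (j + 1)) (x j)] at h7
  rw [d_comm (x j) (x l)] at h6
  rw [d_comm (x l) (x j)] at h7
  rw [d_comm (x j) (x l)] at h7
  omega

/-- Chunk Tool2 (S). By induction on j: `broken_left` for the sequence x (i + ·) and gp_add. -/
theorem broken_len (hX : Hyp δ X) {c n L : ℕ} (x : ℕ → X)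
    (h1 : ∀ i, i + 2 ≤ n → gp (x (i + 1)) (x i) (x (i + 2)) ≤ c)
    (h2 : ∀ i, i < n → c + 2 * δ + L ≤ d (x i) (x (i + 1))) (hL : 1 ≤ L) :
    ∀ i j, i ≤ j → j ≤ n → L * (j - i) ≤ d (x i) (x j) := by
  intro i j hij
  induction j, hij using Nat.le_induction with
  | base =>
    intro _
    simp
  | succ j hij ih =>
    intro hn
    have ih' := ih (by omega)
    have h3 := h2 j (by omega)
    have h4 := broken hX x h1 (fun m hm => by have := h2 m hm; omega) i j (j + 1) hij
      (Nat.le_succ j) hn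
    unfold Bt at h4
    have e : j + 1 - i = (j - i) + 1 := by omega
    rw [e, Nat.mul_add, Nat.mul_one]
    omega

end Pool.Agent.Lib.H14E
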