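import Pool.Agent.Lib.H14E.Tool3
import Pool.Agent.Lib.H14E.Tool5

/-!
# H14E, module A: orders of finite subgroups are bounded
-/

set_option autoImplicit false

namespace Pool.Agent.Lib.H14E

open Pool.Agent.Lib.H76.Morse GeoMet

variable {X : Type} [GeoMet X] {δ : ℕ} {G : Type} [Group G] [MulAction G X]

theorem tool6_pow (hiso : ∀ (g : G) (x y : X), d (g • x) (g • y) = d x y) (g : G) (x : X) (m : ℕ) :
    d x (g ^ m • x) ≤ m * d x (g • x) := by
  induction m with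
  | zero =>
    rw [pow_zero, one_smul, d_self]
    exact Nat.zero_le _
  | succ m ih =>
    have h1 := d_tri x (g ^ m • x) (g ^ (m + 1) • x)
    rw [pow_succ, mul_smul, hiso] at h1
    rw [pow_succ, mul_smul, Nat.succ_mul]
    omega

/-- Chunk Tool6 (S). `quasi_centre` and `geom_card` (r = 2 δ + 1) with A = hF.toFinset. -/
theorem fin_bound (hX : Hyp δ X) (hG : Geom G X) : ∃ n : ℕ, ∀ F : Subgroup G,
    (F : Set G).Finite → Nat.card F ≤ n := by
  obtain ⟨n, hn⟩ := geom_card hG (2 * δ + 1)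
  refine ⟨n, fun F hF => ?_⟩
  obtain ⟨x⟩ := hG.ne
  obtain ⟨v, hv⟩ := quasi_centre hX hG.iso F hF x
  have h1 := hn v hF.toFinset (fun a ha => hv a (hF.mem_toFinset.1 ha))
  have h2 : Nat.card F = hF.toFinset.card := by
    rw [← Set.ncard_eq_toFinset_card (F : Set G) hF]
    rfl
  rw [h2]
  exact h1

/-- Chunk Tool6 (S). `fin_bound` for zpowers g (Nat.card_zpowers). -/
theorem ord_bound (hX : Hyp δ X) (hG : Geom G X) : ∃ n : ℕ, ∀ g : G,
    IsOfFinOrder g → orderOf g ≤ n := by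
  obtain ⟨n, hn⟩ := fin_bound hX hG
  refine ⟨n, fun g hg => ?_⟩
  have h1 := hn (Subgroup.zpowers g) (finite_zpowers.2 hg)
  rwa [Nat.card_zpowers] at h1

/-- Chunk Tool6 (S). orderOf (g^2) = orderOf g = q is odd (PTors, p odd), s = (q + 1) / 2: (g^2)^s = g^(q+1) = g. -/
theorem sqrt_pow {p : ℕ} (hp : p.Prime) (hp2 : p ≠ 2) (hT : PTors p G) {g : G}
    (hg : IsOfFinOrder g) : ∃ s ≤ orderOf g, (g ^ 2) ^ s = g := by
  obtain ⟨k, hk⟩ := hT g hg
  have h1 : orderOf g ∣ p ^ k := orderOf_dvd_of_pow_eq_one hk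
  have hodd : Odd (orderOf g) := (hp.odd_of_ne_two hp2).pow.of_dvd_nat h1
  have hpos : 0 < orderOf g := hg.orderOf_pos
  obtain ⟨m, hm⟩ := hodd
  refine ⟨m + 1, by omega, ?_⟩
  rw [← pow_mul]
  have e : 2 * (m + 1) = orderOf g + 1 := by omega
  rw [e, pow_succ, pow_orderOf_eq_one, one_mul]

/-- Chunk Tool6 (S). An element e of finite order with d x (e^2 • x) ≤ r satisfies d x (e • x) ≤ n r: `sqrt_pow`, `ord_bound`. -/
theorem short_sqrt (hX : Hyp δ X) (hG : Geom G X) {p : ℕ} (hp : p.Prime) (hp2 : p ≠ 2)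
    (hT : PTors p G) : ∃ n : ℕ, ∀ (e : G) (x : X) (r : ℕ), IsOfFinOrder e →
      d x (e ^ 2 • x) ≤ r → d x (e • x) ≤ n * r := by
  obtain ⟨n, hn⟩ := ord_bound hX hG
  refine ⟨n, fun e x r he hr => ?_⟩
  obtain ⟨s, hs, hse⟩ := sqrt_pow hp hp2 hT he
  have h1 := tool6_pow hG.iso (e ^ 2) x s
  rw [hse] at h1
  calc d x (e • x) ≤ s * d x (e ^ 2 • x) := h1
    _ ≤ n * r := Nat.mul_le_mul (hs.trans (hn e he)) hr

end Pool.Agent.Lib.H14E
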